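import Pool.Agent.Work.MP_8da9ea_nt.Stmt5

/-!
# Linear independence over the endomorphism field
-/

set_option autoImplicit false

namespace Pool.Agent.Work.MP_8da9ea_nt

/-- `g` is in `k = End ⊗ ℚ` for the lattice `ℤ ω₁ + ℤ ω₂`: a nonzero integer multiple `N g` maps the
lattice into itself. So `k = ℚ(ω₂ / ω₁)` in the case of complex multiplication and `k = ℚ` otherwise. -/
def InK (ω₁ ω₂ g : ℂ) : Prop :=
  ∃ N a b c d : ℤ, N ≠ 0 ∧ (N : ℂ) * g * ω₁ = a * ω₁ + b * ω₂ ∧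
    (N : ℂ) * g * ω₂ = c * ω₁ + d * ω₂

/-- The numbers `b j` are linearly independent over `k = End ⊗ ℚ`, for the lattice
`ℤ ω₁ + ℤ ω₂`. -/
def KIndep (ω₁ ω₂ : ℂ) {m : ℕ} (b : Fin m → ℂ) : Prop :=
  ∀ g : Fin m → ℂ, (∀ j, InK ω₁ ω₂ (g j)) → ∑ j, g j * b j = 0 → g = 0

/-- `ω₁`, `ω₂` is a basis of a lattice with algebraic `j`-invariant, with or without complex
multiplication, and the numbers `b j` are linearly independent over `k = End ⊗ ℚ`. -/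
def LatOK (ω₁ ω₂ : ℂ) {m : ℕ} (b : Fin m → ℂ) : Prop :=
  (ω₂ / ω₁).im ≠ 0 ∧ IsAlgebraic ℚ (jInv ω₁ ω₂) ∧ KIndep ω₁ ω₂ b

end Pool.Agent.Work.MP_8da9ea_nt
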