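import Pool.Agent.Work.MP_8da9ea_nt.EB.I_FinalZ
import Pool.Agent.Work.MP_8da9ea_nt.EB.FinDefs

/-!
# Elliptic block: the final theorem
-/

set_option autoImplicit false

namespace Pool.Agent.Work.MP_8da9ea_nt.EB

open MvPolynomial Pool.Agent.Work.MP_327059_nt.GL Pool.Agent.Work.MP_8da9ea_nt.S

namespace Final

open Pool.Agent.ED

/-- the numbers `b_j`, `X(β_j)`: the absolute statement -/
lemma abs_wp {m κ₀ : ℕ} (τ μ : ℂ) (b β : Fin m → ℂ) (sb : Fin κ₀ → Fin m)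
    (hind : AlgebraicIndependent ℚ (fun i => b (sb i)))
    (hr : m ≤ 1 + κ₀ + Module.finrank ℂ ((TT b).map (lamV τ μ β))) :
    ∃ s : Fin (m - 1) → Fin m ⊕ Fin m, AlgebraicIndependent ℚ
      (fun i => Sum.elim b (fun j => xe τ μ (β j)) (s i)) := by
  classical
  set K₀ := IntermediateField.adjoin ℚ (Set.range fun i => b (sb i)) with hK₀
  set F : Fin m → ℂ := fun j => xe τ μ (β j) with hF
  obtain ⟨s, hs, hcard⟩ := exists_finset_rank (K := K₀) F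
  let D : (Fin m → ℂ) →ₗ[ℂ] (Fin m → ℂ) :=
    { toFun := fun v j => (if β j ∈ Lam τ then 0 else (ye τ μ (β j))⁻¹) * v j
      map_add' := fun v w => by
        funext j
        simp only [Pi.add_apply]
        ring
      map_smul' := fun c v => by
        funext j
        simp only [Pi.smul_apply, smul_eq_mul, RingHom.id_apply]
        ring }
  have hle : (TT b).map (lamV τ μ β) ≤ (Submodule.span ℂ
      (Set.range fun X : Derivation K₀ ℂ ℂ => fun i => X (F i))).map D := by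
    rintro _ ⟨δ, hδ, rfl⟩
    have hδK : ∀ x ∈ K₀, δ x = 0 := by
      refine der_zero_adjoin _ δ ?_
      rintro _ ⟨i, rfl⟩
      exact hδ (sb i)
    refine ⟨fun j => δ (F j), Submodule.subset_span ⟨derL K₀ δ hδK, rfl⟩, ?_⟩
    funext j
    show (if β j ∈ Lam τ then 0 else (ye τ μ (β j))⁻¹) * δ (F j) = lam τ μ δ (β j)
    unfold lam
    split_ifs
    · rw [zero_mul]
    · rw [div_eq_mul_inv, mul_comm]
  have h1 : Module.finrank ℂ ((TT b).map (lamV τ μ β)) ≤ s.card := by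
    rw [← hcard]
    exact (Submodule.finrank_mono hle).trans (Submodule.finrank_map_le D _)
  have h2 : AlgebraicIndependent ℚ
      (Sum.elim (fun i : s => F i) (fun i => b (sb i))) := by
    refine hind.sumElim_of_tower (S := K₀) ?_ hs
    rintro _ ⟨j, rfl⟩
    exact ⟨⟨b (sb j), IntermediateField.subset_adjoin _ _ ⟨j, rfl⟩⟩, rfl⟩
  have h3 : Fintype.card (Fin (m - 1)) ≤ Fintype.card (s ⊕ Fin κ₀) := by
    rw [Fintype.card_sum, Fintype.card_fin, Fintype.card_fin, Fintype.card_coe]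
    omega
  obtain ⟨e⟩ := Function.Embedding.nonempty_of_card_le h3
  refine ⟨fun i => Sum.elim (fun j : s => Sum.inr (j : Fin m)) (fun j => Sum.inl (sb j)) (e i), ?_⟩
  have h4 := h2.comp _ e.injective
  have h5 : (fun i => Sum.elim b F (Sum.elim (fun j : s => Sum.inr (j : Fin m))
      (fun j => Sum.inl (sb j)) (e i))) = Sum.elim (fun i : s => F i) (fun i => b (sb i)) ∘ e := by
    funext i
    simp only [Function.comp_apply]
    rcases e i with j | j <;> rfl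
  rw [h5]
  exact h4

/-- the normalising factor is algebraic over every field containing the invariants -/
lemma nrm_alg {τ μ : ℂ} (hn : Nrm τ μ) (K : IntermediateField ℚ ℂ) (h2 : gg2 τ ∈ K)
    (h3 : gg3 τ ∈ K) : IsAlgebraic K μ := by
  have key : ∀ (n : ℕ) (a : ℂ), n ≠ 0 → a ∈ K → a ≠ 0 → IsAlgebraic ℚ (μ ^ n * a) →
      IsAlgebraic K μ := by
    intro n a hn0 ha ha0 h
    have h4 : IsAlgebraic K (μ ^ n * a) := h.extendScalars (algebraMap ℚ K).injective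
    have h5 : IsAlgebraic K a := isAlgebraic_algebraMap (⟨a, ha⟩ : K)
    have h6 : IsAlgebraic K (μ ^ n) := by
      have h7 := h4.mul h5.inv
      rwa [mul_assoc, mul_inv_cancel₀ ha0, mul_one] at h7
    exact IsAlgebraic.of_pow (Nat.pos_of_ne_zero hn0) h6
  by_cases h : gg2 τ = 0
  · have h' : gg3 τ ≠ 0 := by
      intro h'
      refine gk_not_both hn.im ?_ ?_
      · unfold gg2 at h
        exact (mul_eq_zero.1 h).resolve_left (by norm_num)
      · unfold gg3 at h'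
        exact (mul_eq_zero.1 h').resolve_left (by norm_num)
    exact key 6 _ (by norm_num) h3 h' hn.g3
  · exact key 4 _ (by norm_num) h2 h hn.g2

lemma isE_of {τ ω₁ ω₂ g : ℂ} (hω : ω₂ = ω₁ * τ ∨ ω₂ = -(ω₁ * τ))
    (h : IsE τ g) : InK ω₁ ω₂ g := by
  obtain ⟨N, hN, ha, hb⟩ := h
  obtain ⟨p, q, hpq⟩ := mem_Lam.1 ha
  obtain ⟨p', q', hpq'⟩ := mem_Lam.1 hb
  rcases hω with rfl | rfl
  · exact ⟨N, p, q, p', q', hN, by rw [hpq]; ring, by
      rw [show (N : ℂ) * g * (ω₁ * τ) = (N : ℂ) * g * τ * ω₁ by ring, hpq']; ring⟩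
  · exact ⟨N, p, -q, -p', q', hN, by rw [hpq]; push_cast; ring, by
      rw [show (N : ℂ) * g * -(ω₁ * τ) = -((N : ℂ) * g * τ * ω₁) by ring, hpq']; push_cast; ring⟩

end Final

open Final in
/-- the final theorem, from the items -/
theorem final_all (hE : S_EllRank) (hA : S_RelAll) (hP : S_RelPol) (hT : S_TorRank)
    (hN : S_Norm) (hM : S_MainS) : ∀ Q m κ : ℕ, ∃ n₀ : ℕ, ∀ b : Fin m → ℂ, FT Q b →
      LinearIndependent ℚ b → TrLe κ b →
      ∀ n : ℕ, n₀ ≤ n → ∀ x : Fin n → ℂ, LinearIndependent ℚ x →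
      ∃ P : MvPolynomial (Fin n) ℂ, P ≠ 0 ∧ P.totalDegree ≤ m ∧
      ∀ ω₁ ω₂ : ℂ, ∃ P₁ : MvPolynomial (Fin n) ℂ, P₁ ≠ 0 ∧ P₁.totalDegree ≤ m ∧
      ∀ w : Fin n → ℚ, MvPolynomial.eval (fun i => (w i : ℂ)) P ≠ 0 →
      ∀ z : ℂ, z = ∑ i, (w i : ℂ) * x i →
        Sch b z ∧
        (LatOK ω₁ ω₂ b → MvPolynomial.eval (fun i => (w i : ℂ)) P₁ ≠ 0 →
          IsAlgebraic ℚ (60 * gk 4 ω₁ ω₂) → IsAlgebraic ℚ (140 * gk 6 ω₁ ω₂) →
          ∃ s : Fin (m - 1) → Fin m ⊕ Fin m, AlgebraicIndependent ℚ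
            (fun i => Sum.elim b (fun j => wp ω₁ ω₂ (b j * z)) (s i))) ∧
        ∀ r r' N : ℕ, r + 2 * r' + N + κ + 1 ≤ m →
          (0 < r' → LatOK ω₁ ω₂ b ∧ MvPolynomial.eval (fun i => (w i : ℂ)) P₁ ≠ 0) →
          ∀ (s k : ℕ) (t : Fin s → ℂ) (p : Fin k → ℂ), ¬ HasTrdeg (bigField ω₁ ω₂ t p) (N + 1) →
          ∃ P' : MvPolynomial (Fin r × Fin m ⊕ Fin r' × Fin m) ℂ, P' ≠ 0 ∧
            P'.IsHomogeneous (r + 2 * r') ∧
          ∀ (c : Fin r → Fin m → ℚ) (c' : Fin r' → Fin m → ℚ),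
            MvPolynomial.eval (Sum.elim (fun q => (c q.1 q.2 : ℂ))
              (fun q => (c' q.1 q.2 : ℂ))) P' ≠ 0 →
          ∀ (u : Fin r → ℂ) (v : Fin r' → ℂ), (∀ i, u i = (∑ j, (c i j : ℂ) * b j) * z) →
            (∀ i, v i = (∑ j, (c' i j : ℂ) * b j) * z) →
            (∀ i, ∀ a b : ℤ, v i ≠ (a : ℂ) * ω₁ + (b : ℂ) * ω₂) ∧
            (∀ d, HasTrdeg (bigField ω₁ ω₂ t p) d →
              HasTrdeg (bigField ω₁ ω₂ (Fin.append t u) (Fin.append p v)) (d + r + 2 * r')) ∧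
            (Q1 ω₁ ω₂ t p → Q1 ω₁ ω₂ (Fin.append t u) (Fin.append p v)) := by
  classical
  intro Q m κ
  obtain ⟨n₁, hn₁⟩ := hM Q m
  obtain ⟨n₂, hn₂⟩ := hE Q m
  refine ⟨max n₁ n₂, fun b hFT hb hκ n hn x hx => ?_⟩
  obtain ⟨κ₀, sb, hind, halg⟩ := Pool.Agent.Work.MP_327059_nt.GL.pr_TrBasis (Fin m) b
  have hκ₀ : κ₀ ≤ κ := by
    by_contra hc
    push Not at hc
    exact hκ (fun i => sb (Fin.castLE hc i))
      (hind.comp (Fin.castLE hc) (Fin.castLE_injective hc))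
  have hTr : TrLe κ₀ b := by
    intro s hs
    have h3 := Pool.Agent.Work.MP_327059_nt.GL.pr_TrCount (Fin (κ₀ + 1)) (Fin κ₀)
      (fun i => b (s i)) (fun i => b (sb i)) hs (fun i => halg (s i))
    rw [Fintype.card_fin, Fintype.card_fin] at h3
    omega
  obtain ⟨P, hP₁, hPd, hPw⟩ := hn₁ b hFT hb n ((le_max_left _ _).trans hn) x hx
  refine ⟨P, hP₁, hPd, fun ω₁ ω₂ => ?_⟩
  by_cases hOK : LatOK ω₁ ω₂ b
  swap
  · refine ⟨1, one_ne_zero, by simp, fun w hw z hz => ?_⟩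
    have hSch : Sch b z := by
      rw [hz]
      exact hPw w hw
    refine ⟨hSch, fun h => absurd h hOK, fun r r' N hm hr' s k t p hNN => ?_⟩
    refine FinalZ2_pf hA hP m κ r r' N b z ω₁ ω₂ hm hκ (hT m κ b z hSch hκ) (fun h => ?_)
      s k t p hNN
    exact absurd (hr' h).1 hOK
  obtain ⟨him, hj, hK⟩ := hOK
  have h1 : ω₁ ≠ 0 := by
    rintro rfl
    simp at him
  obtain ⟨τ, hτ, hω⟩ : ∃ τ : ℂ, 0 < τ.im ∧ (ω₂ = ω₁ * τ ∨ ω₂ = -(ω₁ * τ)) := by
    rcases lt_or_gt_of_ne him with hlt | hgt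
    · exact ⟨-(ω₂ / ω₁), by simpa using hlt, Or.inr (by field_simp)⟩
    · exact ⟨ω₂ / ω₁, hgt, Or.inl (by field_simp)⟩
  have hj' : IsAlgebraic ℚ (jInv 1 τ) := by
    rcases hω with h | h
    · rwa [h, jInv_smul h1] at hj
    · rwa [h, jInv_neg, jInv_smul h1] at hj
  have hg4 : gk 4 1 τ = ω₁ ^ 4 * gk 4 ω₁ ω₂ := by
    rcases hω with h | h
    · rw [h, gk_norm h1]
    · rw [h, gk_N, gk_norm h1]
  have hg6 : gk 6 1 τ = ω₁ ^ 6 * gk 6 ω₁ ω₂ := by
    rcases hω with h | h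
    · rw [h, gk_norm h1]
    · rw [h, gk_N, gk_norm h1]
  have hwp : ∀ y, wp 1 τ (y / ω₁) = ω₁ ^ 2 * wp ω₁ ω₂ y := by
    intro y
    rcases hω with h | h
    · rw [h, wp_norm h1]
    · rw [h, wp_N, wp_norm h1]
  -- the normalising factor
  obtain ⟨μ, hμ, hμ'⟩ : ∃ μ : ℂ, Nrm τ μ ∧ (IsAlgebraic ℚ (60 * gk 4 ω₁ ω₂) →
      IsAlgebraic ℚ (140 * gk 6 ω₁ ω₂) → μ = ω₁⁻¹) := by
    by_cases h : IsAlgebraic ℚ (60 * gk 4 ω₁ ω₂) ∧ IsAlgebraic ℚ (140 * gk 6 ω₁ ω₂)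
    · refine ⟨ω₁⁻¹, ⟨hτ, inv_ne_zero h1, ?_, ?_⟩, fun _ _ => rfl⟩
      · have h3 : ω₁⁻¹ ^ 4 * gg2 τ = 60 * gk 4 ω₁ ω₂ := by
          unfold gg2
          rw [hg4]
          field_simp
        rw [h3]
        exact h.1
      · have h3 : ω₁⁻¹ ^ 6 * gg3 τ = 140 * gk 6 ω₁ ω₂ := by
          unfold gg3
          rw [hg6]
          field_simp
        rw [h3]
        exact h.2
    · obtain ⟨μ, hμ, -⟩ := hN τ hτ hj'
      exact ⟨μ, hμ, fun h3 h4 => absurd ⟨h3, h4⟩ h⟩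
  have hKLI : KLI τ b := fun g hg h0 => hK g (fun j => isE_of hω (hg j)) h0
  have hx' : LinearIndependent ℚ (fun i => x i / ω₁) := by
    rw [Fintype.linearIndependent_iff] at hx ⊢
    intro q hq
    apply hx q
    have h3 : (∑ i, q i • x i) / ω₁ = ∑ i, q i • (x i / ω₁) := by
      rw [Finset.sum_div]
      refine Finset.sum_congr rfl fun i _ => ?_
      rw [Rat.smul_def, Rat.smul_def, mul_div_assoc]
    rw [← h3] at hq
    exact (div_eq_zero_iff.1 hq).resolve_right h1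
  obtain ⟨P₂, hP₂, hP₂d, hP₂w⟩ := hn₂ τ μ b hμ hFT hKLI n ((le_max_right _ _).trans hn) _ hx' κ₀ hTr
  refine ⟨P₂, hP₂, hP₂d, fun w hw z hz => ?_⟩
  have hSch : Sch b z := by
    rw [hz]
    exact hPw w hw
  have hzω : ∑ i, (w i : ℂ) * (x i / ω₁) = z / ω₁ := by
    rw [hz, Finset.sum_div]
    exact Finset.sum_congr rfl fun i _ => by ring
  refine ⟨hSch, fun _ hw₂ h4 h6 => ?_, fun r r' N hm hr' s k t p hNN => ?_⟩
  · have hrk := hP₂w w hw₂
    rw [hzω] at hrk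
    obtain ⟨s, hs⟩ := abs_wp τ μ b _ sb hind hrk
    refine ⟨s, ?_⟩
    have h3 : (fun j => xe τ μ (b j * (z / ω₁))) = fun j => wp ω₁ ω₂ (b j * z) := by
      funext j
      unfold xe
      rw [hμ' h4 h6, ← mul_div_assoc, hwp]
      field_simp
    rw [h3] at hs
    exact hs
  · refine FinalZ2_pf hA hP m κ r r' N b z ω₁ ω₂ hm hκ (hT m κ b z hSch hκ) (fun h => ?_)
      s k t p hNN
    have hrk := hP₂w w (hr' h).2
    rw [hzω] at hrk
    exact ⟨τ, μ, hμ, hω, h1, fun K h2 h3 => nrm_alg hμ K h2 h3, by omega⟩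

end Pool.Agent.Work.MP_8da9ea_nt.EB
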