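import Pool.Agent.Work.MP_8da9ea_nt.EB.StmtsT

/-!
# Elliptic block: item `WpUp` (B1)
-/

set_option autoImplicit false

namespace Pool.Agent.Work.MP_8da9ea_nt.EB

open Metric Filter Topology

namespace I_WpUp

/-- The closed fundamental parallelogram. -/
def par (τ : ℂ) : Set ℂ :=
  (fun p : ℝ × ℝ => (p.1 : ℂ) + (p.2 : ℂ) * τ) '' (Set.Icc (0 : ℝ) 1 ×ˢ Set.Icc (0 : ℝ) 1)

lemma isCompact_par (τ : ℂ) : IsCompact (par τ) := by
  refine (isCompact_Icc.prod isCompact_Icc).image ?_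
  fun_prop

lemma exists_red {τ : ℂ} (hτ : 0 < τ.im) (u : ℂ) : ∃ m n : ℤ, u + (m + n * τ) ∈ par τ := by
  set y : ℝ := u.im / τ.im with hy
  set x : ℝ := u.re - y * τ.re with hx
  refine ⟨-⌊x⌋, -⌊y⌋, ⟨(Int.fract x, Int.fract y), ⟨⟨Int.fract_nonneg x, (Int.fract_lt_one x).le⟩,
    ⟨Int.fract_nonneg y, (Int.fract_lt_one y).le⟩⟩, ?_⟩⟩
  have hyy : y * τ.im = u.im := by
    rw [hy]
    field_simp
  have h1 : ((Int.fract x : ℝ) : ℂ) = (x : ℂ) - (⌊x⌋ : ℂ) := by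
    rw [← Int.self_sub_floor]
    push_cast
    ring
  have h2 : ((Int.fract y : ℝ) : ℂ) = (y : ℂ) - (⌊y⌋ : ℂ) := by
    rw [← Int.self_sub_floor]
    push_cast
    ring
  have h3 : (x : ℂ) + (y : ℂ) * τ = u := by
    apply Complex.ext
    · simp [hx]
    · simp [hyy]
  simp only [h1, h2]
  push_cast
  rw [← h3]
  ring

lemma infDist_shift {τ : ℂ} {r : ℝ} (u : ℂ) (m n : ℤ)
    (h : infDist (u + (m + n * τ)) (Lam τ) < r) : infDist u (Lam τ) < r := by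
  have hne : (Lam τ).Nonempty := ⟨0, mem_Lam.mpr ⟨0, 0, by simp⟩⟩
  rw [infDist_lt_iff hne] at h
  obtain ⟨y, hy, hd⟩ := h
  rw [infDist_lt_iff hne]
  obtain ⟨a, b, rfl⟩ := mem_Lam.mp hy
  refine ⟨(a - m : ℤ) + (b - n : ℤ) * τ, mem_Lam.mpr ⟨a - m, b - n, rfl⟩, ?_⟩
  rw [dist_eq_norm] at hd ⊢
  have e : u - (((a - m : ℤ) : ℂ) + ((b - n : ℤ) : ℂ) * τ) = u + (m + n * τ) - (a + b * τ) := by
    push_cast
    ring
  rw [e]
  exact hd

lemma d1_nonneg (τ u : ℂ) : 0 ≤ d1 τ u := le_min zero_le_one infDist_nonneg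

end I_WpUp

open I_WpUp in
/-- B1 -/
theorem WpUp_pf : S_WpUp := by
  intro τ hτ
  have hne : (Lam τ).Nonempty := ⟨0, mem_Lam.mpr ⟨0, 0, by simp⟩⟩
  -- near zero
  have h0 : ∀ᶠ z in 𝓝[≠] (0 : ℂ), ‖z ^ 2 * wp 1 τ z‖ < 2 := by
    have h := (lim_sq_wp hτ).norm
    rw [norm_one] at h
    exact h.eventually (eventually_lt_nhds (by norm_num))
  rw [eventually_nhdsWithin_iff, Metric.eventually_nhds_iff] at h0
  obtain ⟨r, hr, h0⟩ := h0
  -- the compact set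
  set K : Set ℂ := par τ ∩ {z | r ≤ infDist z (Lam τ)} with hK
  have hKc : IsCompact K := (isCompact_par τ).inter_right
    (isClosed_le continuous_const (continuous_infDist_pt _))
  have hKL : K ⊆ (Lam τ)ᶜ := by
    rintro z ⟨-, hz⟩ hz'
    have : infDist z (Lam τ) = 0 := infDist_zero_of_mem hz'
    have hz2 : r ≤ infDist z (Lam τ) := hz
    linarith
  have hcont : ContinuousOn (fun z => wp 1 τ z) K :=
    ((analyticOn_wp hτ).continuousOn).mono hKL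
  obtain ⟨M, hM⟩ := hKc.exists_bound_of_continuousOn hcont
  refine ⟨max 2 M, le_trans (by norm_num) (le_max_left _ _), ?_⟩
  intro u hu
  have hd0 := d1_nonneg τ u
  rcases lt_or_ge (infDist u (Lam τ)) r with hlt | hge
  · rw [infDist_lt_iff hne] at hlt
    obtain ⟨y, hy, hd⟩ := hlt
    have hdy : infDist u (Lam τ) ≤ dist u y := infDist_le_dist_of_mem hy
    obtain ⟨a, b, rfl⟩ := mem_Lam.mp hy
    have hne0 : u - (a + b * τ) ≠ 0 := by
      intro h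
      apply hu
      rw [sub_eq_zero.mp h]
      exact hy
    have h1 := h0 (y := u - (a + b * τ)) (by rwa [dist_zero_right, ← dist_eq_norm]) hne0
    have h2 : wp 1 τ (u - (a + b * τ)) = wp 1 τ u := by
      have := wp_add_lp hτ u (-a) (-b)
      rw [← this]
      congr 1
      push_cast
      ring
    rw [h2, norm_mul, norm_pow] at h1
    have h3 : d1 τ u ≤ ‖u - (a + b * τ)‖ := by
      rw [← dist_eq_norm]
      exact (min_le_right _ _).trans hdy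
    have h4 : d1 τ u ^ 2 ≤ ‖u - (a + b * τ)‖ ^ 2 := pow_le_pow_left₀ hd0 h3 2
    calc ‖wp 1 τ u‖ * d1 τ u ^ 2 ≤ ‖wp 1 τ u‖ * ‖u - (a + b * τ)‖ ^ 2 :=
          mul_le_mul_of_nonneg_left h4 (norm_nonneg _)
      _ = ‖u - (a + b * τ)‖ ^ 2 * ‖wp 1 τ u‖ := mul_comm _ _
      _ ≤ 2 := h1.le
      _ ≤ max 2 M := le_max_left _ _
  · obtain ⟨m, n, hmn⟩ := exists_red hτ u
    have hmem : u + (m + n * τ) ∈ K := by
      refine ⟨hmn, ?_⟩
      show r ≤ infDist (u + (m + n * τ)) (Lam τ)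
      by_contra hcon
      exact absurd (infDist_shift u m n (not_le.mp hcon)) (not_lt.mpr hge)
    have h1 := hM _ hmem
    simp only [wp_add_lp hτ] at h1
    have h2 : d1 τ u ^ 2 ≤ 1 := pow_le_one₀ hd0 (min_le_left _ _)
    calc ‖wp 1 τ u‖ * d1 τ u ^ 2 ≤ ‖wp 1 τ u‖ * 1 :=
          mul_le_mul_of_nonneg_left h2 (norm_nonneg _)
      _ = ‖wp 1 τ u‖ := mul_one _
      _ ≤ M := h1
      _ ≤ max 2 M := le_max_right _ _

end Pool.Agent.Work.MP_8da9ea_nt.EB
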