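import Pool.Agent.Work.MP_8da9ea_nt.EB.StmtsT

/-!
# Elliptic block, item Branch: an analytic branch `℘(L(v))` of an irreducible hypersurface
-/

set_option autoImplicit false

namespace Pool.Agent.Work.MP_8da9ea_nt.EB

open MvPolynomial Metric Filter Topology Pool.Agent.Work.MP_8da9ea_nt

namespace I_Branch

/-! ### algebra -/

lemma degreeOf_pderiv_lt {m : ℕ} (f : MvPolynomial (Fin (m + 1)) ℂ) (hf : f.degreeOf 0 ≠ 0) :
    (pderiv 0 f).degreeOf 0 < f.degreeOf 0 := by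
  classical
  rw [degreeOf_lt_iff (Nat.pos_of_ne_zero hf)]
  intro s hs
  rw [mem_support_iff, coeff_pderiv] at hs
  have h1 : coeff (s + Finsupp.single 0 1) f ≠ 0 := fun h => hs (by rw [h, zero_mul])
  have h2 := monomial_le_degreeOf 0 (mem_support_iff.2 h1)
  rw [Finsupp.add_apply, Finsupp.single_eq_same] at h2
  omega

lemma pderiv_ne_zero {m : ℕ} (f : MvPolynomial (Fin (m + 1)) ℂ) (hf : f.degreeOf 0 ≠ 0) :
    pderiv 0 f ≠ 0 := by
  classical
  intro h0
  apply hf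
  rw [← Nat.le_zero, degreeOf_le_iff]
  intro s hs
  rw [Nat.le_zero]
  by_contra hne
  have hs0 : s 0 ≠ 0 := hne
  have h1 := coeff_pderiv (i := (0 : Fin (m + 1))) f (s - Finsupp.single 0 1)
  have h2 : s - Finsupp.single 0 1 + Finsupp.single 0 1 = s := by
    refine tsub_add_cancel_of_le ?_
    rw [Finsupp.single_le_iff]
    omega
  rw [h0, coeff_zero, h2] at h1
  rcases mul_eq_zero.1 h1.symm with h3 | h3
  · exact (mem_support_iff.1 hs) h3
  · norm_cast at h3

lemma not_dvd_pderiv {m : ℕ} (f : MvPolynomial (Fin (m + 1)) ℂ) (hf : f.degreeOf 0 ≠ 0) :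
    ¬ f ∣ pderiv 0 f := by
  rintro ⟨g, hg⟩
  have h0 := pderiv_ne_zero f hf
  have hf0 : f ≠ 0 := by
    rintro rfl
    simp at hf
  have hg0 : g ≠ 0 := by
    rintro rfl
    exact h0 (by rw [hg, mul_zero])
  have h1 := degreeOf_pderiv_lt f hf
  rw [hg, degreeOf_mul_eq hf0 hg0] at h1
  omega

/-- A polynomial not divisible by an irreducible `f` does not vanish on the zeros of `f`. -/
lemma exists_point {m : ℕ} (f h : MvPolynomial (Fin m) ℂ) (hf : Irreducible f) (hh : ¬ f ∣ h) :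
    ∃ p : Fin m → ℂ, eval p f = 0 ∧ eval p h ≠ 0 := by
  by_contra hcon
  push Not at hcon
  apply hh
  have hp : Prime f := UniqueFactorizationMonoid.irreducible_iff_prime.1 hf
  have hI : (Ideal.span {f}).IsPrime := (Ideal.span_singleton_prime hp.ne_zero).2 hp
  have h1 : h ∈ vanishingIdeal ℂ (zeroLocus ℂ (Ideal.span {f})) := by
    intro p hpz
    have h2 : aeval p f = 0 := hpz f (Ideal.mem_span_singleton_self f)
    have h3 := hcon p (by simpa [coe_aeval_eq_eval] using h2)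
    simpa [coe_aeval_eq_eval] using h3
  rw [vanishingIdeal_zeroLocus_eq_radical, hI.radical] at h1
  exact Ideal.mem_span_singleton.1 h1

/-- The cubic polynomial. -/
noncomputable def qq (τ : ℂ) (m : ℕ) : MvPolynomial (Fin (m + 1)) ℂ :=
  C 4 * X 0 ^ 3 - C (gg2 τ) * X 0 - C (gg3 τ)

lemma eval_qq (τ : ℂ) (m : ℕ) (p : Fin (m + 1) → ℂ) :
    eval p (qq τ m) = 4 * p 0 ^ 3 - gg2 τ * p 0 - gg3 τ := by
  simp [qq]

lemma qq_ne (τ : ℂ) (m : ℕ) : qq τ m ≠ 0 := by
  intro h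
  have e : ∀ t : ℂ, 4 * t ^ 3 - gg2 τ * t - gg3 τ = 0 := by
    intro t
    have := eval_qq τ m (fun _ => t)
    rw [h, map_zero] at this
    exact this.symm
  have e0 := e 0
  have e1 := e 1
  have e2 := e (-1)
  have e3 := e 2
  have h4 : (24 : ℂ) = 0 := by linear_combination e3 - 2 * e1 + e0
  norm_num at h4

/-- A divisor of the cubic polynomial only involves `X 0`. -/
lemma dvd_qq {τ : ℂ} {m : ℕ} {f : MvPolynomial (Fin (m + 1)) ℂ} (h : f ∣ qq τ m)
    (i : Fin m) : f.degreeOf i.succ = 0 := by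
  obtain ⟨g, hg⟩ := h
  have h0 := qq_ne τ m
  have hf0 : f ≠ 0 := by
    rintro rfl
    exact h0 (by rw [hg, zero_mul])
  have hg0 : g ≠ 0 := by
    rintro rfl
    exact h0 (by rw [hg, mul_zero])
  have h1 : (qq τ m).degreeOf i.succ = 0 := by
    rw [← Nat.le_zero]
    have hne : i.succ ≠ (0 : Fin (m + 1)) := Fin.succ_ne_zero i
    unfold qq
    refine (degreeOf_sub_le _ _ _).trans (max_le ((degreeOf_sub_le _ _ _).trans (max_le ?_ ?_)) ?_)
    · refine (degreeOf_C_mul_le _ _ _).trans ?_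
      rw [degreeOf_X_pow_of_ne _ hne]
    · refine (degreeOf_C_mul_le _ _ _).trans ?_
      rw [degreeOf_X_of_ne hne]
    · rw [degreeOf_C]
  rw [hg, degreeOf_mul_eq hf0 hg0] at h1
  omega

/-- Evaluation only depends on the first variable. -/
lemma eval_of_degreeOf {m : ℕ} {f : MvPolynomial (Fin (m + 1)) ℂ}
    (h : ∀ i : Fin m, f.degreeOf i.succ = 0) (p p' : Fin (m + 1) → ℂ) (h0 : p 0 = p' 0) :
    eval p f = eval p' f := by
  classical
  rw [eval_eq, eval_eq]
  refine Finset.sum_congr rfl fun s hs => ?_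
  congr 1
  refine Finset.prod_congr rfl fun i _ => ?_
  refine Fin.cases ?_ (fun j => ?_) i
  · rw [h0]
  · have h1 := monomial_le_degreeOf j.succ hs
    rw [h j, Nat.le_zero] at h1
    rw [h1, pow_zero, pow_zero]

/-! ### analysis -/

variable {τ : ℂ}

lemma analyticAt_eval {W : Type} [NormedAddCommGroup W] [NormedSpace ℂ W] {k : ℕ}
    (g : Fin k → W → ℂ) (w : W) (hg : ∀ i, AnalyticAt ℂ (g i) w) (f : MvPolynomial (Fin k) ℂ) :
    AnalyticAt ℂ (fun w => eval (fun i => g i w) f) w := by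
  induction f using MvPolynomial.induction_on with
  | C a =>
    simp only [eval_C]
    exact analyticAt_const
  | add p q hp hq =>
    simp only [map_add]
    exact hp.add hq
  | mul_X p i hp =>
    simp only [map_mul, eval_X]
    exact hp.mul (hg i)

lemma hasDerivAt_eval {m : ℕ} (x : Fin m → ℂ) (g : ℂ → ℂ) (g' t : ℂ) (hg : HasDerivAt g g' t)
    (f : MvPolynomial (Fin (m + 1)) ℂ) :
    HasDerivAt (fun s => eval (Fin.cons (g s) x : Fin (m + 1) → ℂ) f)
      (eval (Fin.cons (g t) x : Fin (m + 1) → ℂ) (pderiv 0 f) * g') t := by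
  induction f using MvPolynomial.induction_on with
  | C a =>
    simp only [eval_C, pderiv_C, map_zero, zero_mul]
    exact hasDerivAt_const t a
  | add p q hp hq =>
    simp only [map_add, add_mul]
    exact hp.add hq
  | mul_X p i hp =>
    simp only [map_mul, eval_X, pderiv_mul, map_add]
    refine Fin.cases ?_ (fun j => ?_) i
    · simp only [Fin.cons_zero, pderiv_X_self, map_one, mul_one]
      refine (hp.mul hg).congr_deriv ?_
      ring
    · simp only [Fin.cons_succ]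
      rw [pderiv_X_of_ne (Fin.succ_ne_zero j)]
      simp only [map_zero, mul_zero, add_zero]
      refine (hp.mul_const (x j)).congr_deriv ?_
      ring

/-- The analytic implicit function theorem for one unknown. -/
lemma implicit {E : Type} [NormedAddCommGroup E] [NormedSpace ℂ E] [CompleteSpace E]
    (Φ : E × ℂ → ℂ) (v₀ : E) (y₀ : ℂ) (hΦ : AnalyticAt ℂ Φ (v₀, y₀)) (h0 : Φ (v₀, y₀) = 0)
    (c : ℂ) (hc : c ≠ 0) (hd : HasDerivAt (fun t => Φ (v₀, t)) c y₀) :
    ∃ L : E → ℂ, AnalyticAt ℂ L v₀ ∧ L v₀ = y₀ ∧ ∀ᶠ v in 𝓝 v₀, Φ (v, L v) = 0 := by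
  obtain ⟨A, hA⟩ : ∃ A : E × ℂ →L[ℂ] ℂ, HasStrictFDerivAt Φ A (v₀, y₀) :=
    ⟨_, hΦ.hasStrictFDerivAt⟩
  have hA1 : A (0, 1) = c := by
    have h1 : HasFDerivAt (fun t : ℂ => ((v₀, t) : E × ℂ)) (ContinuousLinearMap.inr ℂ E ℂ) y₀ := by
      have := (hasFDerivAt_const (𝕜 := ℂ) v₀ y₀).prodMk (hasFDerivAt_id (𝕜 := ℂ) y₀)
      refine this.congr_fderiv ?_
      ext <;> simp
    have h2 := (hA.hasFDerivAt.comp y₀ h1).hasDerivAt
    have h3 := h2.unique hd
    simpa using h3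
  -- the linear equivalence
  let i1 : E × ℂ →L[ℂ] E × ℂ := (ContinuousLinearMap.fst ℂ E ℂ).prod A
  let i2 : E × ℂ →L[ℂ] E × ℂ := (ContinuousLinearMap.fst ℂ E ℂ).prod
    (c⁻¹ • (ContinuousLinearMap.snd ℂ E ℂ -
      (A.comp (ContinuousLinearMap.inl ℂ E ℂ)).comp (ContinuousLinearMap.fst ℂ E ℂ)))
  have hAv : ∀ (v : E) (y : ℂ), A (v, y) = A (v, 0) + y * c := by
    intro v y
    have : ((v, y) : E × ℂ) = (v, 0) + y • ((0 : E), (1 : ℂ)) := by
      ext <;> simp
    rw [this, map_add, map_smul, hA1, smul_eq_mul]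
  let i : (E × ℂ) ≃L[ℂ] (E × ℂ) := ContinuousLinearEquiv.equivOfInverse i1 i2
    (by
      rintro ⟨v, y⟩
      simp only [i1, i2, ContinuousLinearMap.prod_apply, ContinuousLinearMap.coe_fst',
        _root_.smul_apply, _root_.sub_apply,
        ContinuousLinearMap.coe_snd', ContinuousLinearMap.comp_apply,
        ContinuousLinearMap.inl_apply, smul_eq_mul, Prod.mk.injEq, true_and]
      rw [hAv v y]
      field_simp
      ring)
    (by
      rintro ⟨v, y⟩
      simp only [i1, i2, ContinuousLinearMap.prod_apply, ContinuousLinearMap.coe_fst',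
        _root_.smul_apply, _root_.sub_apply,
        ContinuousLinearMap.coe_snd', ContinuousLinearMap.comp_apply,
        ContinuousLinearMap.inl_apply, smul_eq_mul, Prod.mk.injEq, true_and]
      rw [hAv v]
      field_simp
      ring)
  let Ψ : E × ℂ → E × ℂ := fun p => (p.1, Φ p)
  have hΨa : AnalyticAt ℂ Ψ (v₀, y₀) := analyticAt_fst.prod hΦ
  have hΨd : HasStrictFDerivAt Ψ (i : E × ℂ →L[ℂ] E × ℂ) (v₀, y₀) :=
    (ContinuousLinearMap.fst ℂ E ℂ).hasStrictFDerivAt.prodMk hA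
  obtain ⟨p, hp⟩ := hΨa
  let R := hΨd.toOpenPartialHomeomorph Ψ
  have hRs : (v₀, y₀) ∈ R.source := hΨd.mem_toOpenPartialHomeomorph_source
  have hRc : (R : E × ℂ → E × ℂ) = Ψ := rfl
  have hp1 : p 1 = (continuousMultilinearCurryFin1 ℂ (E × ℂ) (E × ℂ)).symm
      (i : E × ℂ →L[ℂ] E × ℂ) := by
    have h1 := hp.hasFDerivAt.unique hΨd.hasFDerivAt
    rw [← h1]
    simp
  have hsym : AnalyticAt ℂ R.symm (v₀, (0 : ℂ)) := by
    have h1 := R.hasFPowerSeriesAt_symm (i := i) hRs (p := p) hp hp1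
    have h2 : (R : E × ℂ → E × ℂ) (v₀, y₀) = (v₀, 0) := by
      rw [hRc]
      show (v₀, Φ (v₀, y₀)) = _
      rw [h0]
    rw [h2] at h1
    exact h1.analyticAt
  have hsym0 : R.symm (v₀, (0 : ℂ)) = (v₀, y₀) := by
    have h2 : (R : E × ℂ → E × ℂ) (v₀, y₀) = (v₀, 0) := by
      rw [hRc]
      show (v₀, Φ (v₀, y₀)) = _
      rw [h0]
    rw [← h2]
    exact R.left_inv hRs
  have hin : AnalyticAt ℂ (fun v : E => ((v, (0 : ℂ)) : E × ℂ)) v₀ :=
    analyticAt_id.prod analyticAt_const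
  refine ⟨fun v => (R.symm (v, (0 : ℂ))).2, ?_, ?_, ?_⟩
  · have h1 : AnalyticAt ℂ (fun v : E => R.symm (v, (0 : ℂ))) v₀ :=
      AnalyticAt.fun_comp (g := R.symm) hsym hin
    exact AnalyticAt.fun_comp (g := Prod.snd) analyticAt_snd h1
  · show (R.symm (v₀, (0 : ℂ))).2 = y₀
    rw [hsym0]
  · have ht : R.target ∈ 𝓝 ((v₀, (0 : ℂ)) : E × ℂ) := by
      refine R.open_target.mem_nhds ?_
      have h2 : (R : E × ℂ → E × ℂ) (v₀, y₀) = (v₀, 0) := by
        rw [hRc]
        show (v₀, Φ (v₀, y₀)) = _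
        rw [h0]
      rw [← h2]
      exact R.map_source hRs
    have h1 : ∀ᶠ v in 𝓝 v₀, ((v, (0 : ℂ)) : E × ℂ) ∈ R.target :=
      hin.continuousAt.eventually ht
    filter_upwards [h1] with v hv
    have h3 : Ψ (R.symm (v, (0 : ℂ))) = (v, 0) := R.right_inv hv
    have h4 : (R.symm (v, (0 : ℂ))).1 = v := congrArg Prod.fst h3
    have h5 : Φ (R.symm (v, (0 : ℂ))) = 0 := congrArg Prod.snd h3
    have h6 : R.symm (v, (0 : ℂ)) = (v, (R.symm (v, (0 : ℂ))).2) := Prod.ext h4 rfl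
    rw [← h6]
    exact h5

end I_Branch

open I_Branch

theorem Branch_pf (hS : S_Surj) : S_Branch := by
  intro τ hτ m f hf hdeg
  have hopen := Lam_compl_open hτ
  by_cases hq : f ∣ qq τ m
  · -- `f` is a polynomial in the first variable
    obtain ⟨p, hp, -⟩ := exists_point f 1 hf (fun h => hf.not_isUnit (isUnit_of_dvd_one h))
    obtain ⟨y₀, hy, hy0⟩ := hS τ hτ (p 0)
    obtain ⟨v₁, hv1, -⟩ := hS τ hτ 0
    obtain ⟨r, hr, hb⟩ := Metric.isOpen_iff.1 hopen v₁ hv1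
    refine ⟨fun _ => v₁, r, fun _ => y₀, hr, fun _ _ => analyticAt_const, fun v hv => ⟨?_, hy, ?_⟩⟩
    · intro i
      refine hb ?_
      rw [mem_ball] at hv ⊢
      exact (dist_le_pi_dist v (fun _ => v₁) i).trans_lt hv
    · rw [← hp]
      refine eval_of_degreeOf (dvd_qq hq) _ _ ?_
      simp [pw, hy0]
  · -- the generic case
    have hprime : Prime f := UniqueFactorizationMonoid.irreducible_iff_prime.1 hf
    have hnd : ¬ f ∣ pderiv 0 f * qq τ m := by
      intro h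
      rcases hprime.dvd_or_dvd h with h | h
      · exact not_dvd_pderiv f hdeg h
      · exact hq h
    obtain ⟨p, hp, hp2⟩ := exists_point f _ hf hnd
    rw [map_mul, eval_qq] at hp2
    have hpd := left_ne_zero_of_mul hp2
    have hpq := right_ne_zero_of_mul hp2
    obtain ⟨y₀, hy, hy0⟩ := hS τ hτ (p 0)
    choose v₀ hv hv0 using fun i : Fin m => hS τ hτ (p i.succ)
    have hpw : pw τ v₀ y₀ = p := by
      funext i
      refine Fin.cases ?_ (fun j => ?_) i
      · simp [pw, hy0]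
      · simp [pw, hv0]
    have hwd : wpd τ y₀ ≠ 0 := by
      intro h
      apply hpq
      rw [← hy0, ← wpd_sq hτ hy, h]
      ring
    let Φ : (Fin m → ℂ) × ℂ → ℂ := fun w => eval (pw τ w.1 w.2) f
    have hΦ : AnalyticAt ℂ Φ (v₀, y₀) := by
      refine analyticAt_eval (fun i (w : (Fin m → ℂ) × ℂ) => pw τ w.1 w.2 i) (v₀, y₀) ?_ f
      intro i
      refine Fin.cases ?_ (fun j => ?_) i
      · show AnalyticAt ℂ (fun w : (Fin m → ℂ) × ℂ => wp 1 τ w.2) (v₀, y₀)
        exact AnalyticAt.fun_comp (g := fun z => wp 1 τ z) (analyticOn_wp hτ y₀ hy) analyticAt_snd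
      · show AnalyticAt ℂ (fun w : (Fin m → ℂ) × ℂ => wp 1 τ (w.1 j)) (v₀, y₀)
        refine AnalyticAt.fun_comp (g := fun z => wp 1 τ z) (analyticOn_wp hτ (v₀ j) (hv j)) ?_
        exact ((ContinuousLinearMap.proj (R := ℂ) (φ := fun _ : Fin m => ℂ) j).comp
          (ContinuousLinearMap.fst ℂ (Fin m → ℂ) ℂ)).analyticAt _
    have hd : HasDerivAt (fun t => Φ (v₀, t)) (eval p (pderiv 0 f) * wpd τ y₀) y₀ := by
      have h1 := hasDerivAt_eval (fun i => wp 1 τ (v₀ i)) (fun z => wp 1 τ z) (wpd τ y₀) y₀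
        (hasDerivAt_wp_z hτ hy) f
      have h2 : (Fin.cons (wp 1 τ y₀) (fun i => wp 1 τ (v₀ i)) : Fin (m + 1) → ℂ) = p := hpw
      rw [h2] at h1
      exact h1
    have h0 : Φ (v₀, y₀) = 0 := by
      show eval (pw τ v₀ y₀) f = 0
      rw [hpw, hp]
    obtain ⟨L, hL, hL0, hev⟩ := implicit Φ v₀ y₀ hΦ h0 _ (mul_ne_zero hpd hwd) hd
    have e1 : ∀ᶠ v in 𝓝 v₀, AnalyticAt ℂ L v := hL.eventually_analyticAt
    have e2 : ∀ᶠ v in 𝓝 v₀, L v ∉ Lam τ := by
      refine hL.continuousAt.eventually (hopen.mem_nhds ?_)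
      rw [hL0]
      exact hy
    have e3 : ∀ᶠ v in 𝓝 v₀, ∀ i, v i ∉ Lam τ := by
      rw [eventually_all]
      intro i
      exact (continuous_apply i).continuousAt.eventually (hopen.mem_nhds (hv i))
    obtain ⟨r, hr, hb⟩ := Metric.eventually_nhds_iff_ball.1 ((e1.and e2).and (e3.and hev))
    exact ⟨v₀, r, L, hr, fun v hv => (hb v hv).1.1,
      fun v hv => ⟨(hb v hv).2.1, (hb v hv).1.2, (hb v hv).2.2⟩⟩

end Pool.Agent.Work.MP_8da9ea_nt.EB
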