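import Pool.Agent.Work.MP_8da9ea_nt.EB.StmtsT
import Pool.Agent.Work.MP_8da9ea_nt.Bd.B01

/-!
# Elliptic block, item Surj: the Weierstrass function is surjective
-/

set_option autoImplicit false

namespace Pool.Agent.Work.MP_8da9ea_nt.EB

open MvPolynomial Metric Filter Topology Pool.Agent.Work.MP_8da9ea_nt

namespace I_Surj

variable {τ : ℂ}

lemma zero_mem : (0 : ℂ) ∈ Lam τ := mem_Lam.2 ⟨0, 0, by simp⟩

/-- The reciprocal. -/
noncomputable def g (τ x u : ℂ) : ℂ := open Classical in if u ∈ Lam τ then 0 else (wp 1 τ u - x)⁻¹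

lemma g_per (hτ : 0 < τ.im) (x z : ℂ) {l : ℂ} (hl : l ∈ Lam τ) : g τ x (z + l) = g τ x z := by
  have h1 : z + l ∈ Lam τ ↔ z ∈ Lam τ := Fx.pol_add_per true z hl
  have h2 : wp 1 τ (z + l) = wp 1 τ z := Fx.ef_add_per hτ true z hl
  unfold g
  by_cases h : z ∈ Lam τ
  · rw [if_pos h, if_pos (h1.2 h)]
  · rw [if_neg h, if_neg (fun h3 => h (h1.1 h3)), h2]

lemma notMem_ev (hτ : 0 < τ.im) : ∀ᶠ z in 𝓝[≠] (0 : ℂ), z ∉ Lam τ :=
  eventually_notMem hτ

lemma lim0 (hτ : 0 < τ.im) (x : ℂ) : Tendsto (g τ x) (𝓝[≠] 0) (𝓝 0) := by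
  have hp := lim_wpE hτ
  have hz : Tendsto (fun z : ℂ => z) (𝓝[≠] 0) (𝓝 0) :=
    (continuous_id.tendsto (0 : ℂ)).mono_left nhdsWithin_le_nhds
  have h1 : Tendsto (fun z : ℂ => 1 + z ^ 4 * (wpE {0} τ z / z ^ 2) - x * z ^ 2) (𝓝[≠] 0)
      (𝓝 (1 + 0 ^ 4 * (3 * gk 4 1 τ) - x * 0 ^ 2)) :=
    (((hz.pow 4).mul hp).const_add 1).sub ((hz.pow 2).const_mul x)
  have h2 : (1 + 0 ^ 4 * (3 * gk 4 1 τ) - x * 0 ^ 2 : ℂ) = 1 := by ring
  rw [h2] at h1
  have h3 := (hz.pow 2).mul (h1.inv₀ one_ne_zero)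
  have h4 : (0 ^ 2 * (1 : ℂ)⁻¹ : ℂ) = 0 := by ring
  rw [h4] at h3
  refine h3.congr' ?_
  filter_upwards [notMem_ev hτ, self_mem_nhdsWithin] with z hzL hz0
  have hz0' : z ≠ 0 := hz0
  unfold g
  rw [if_neg hzL, wp_eq_E hτ z]
  have e1 : (1 + z ^ 4 * (wpE {0} τ z / z ^ 2) - x * z ^ 2 : ℂ) =
      z ^ 2 * (1 / z ^ 2 + wpE {0} τ z - x) := by
    field_simp
  rw [e1, mul_inv, ← mul_assoc, mul_inv_cancel₀ (pow_ne_zero 2 hz0'), one_mul]

lemma diff (hτ : 0 < τ.im) (x : ℂ) (hx : ∀ u ∉ Lam τ, wp 1 τ u ≠ x) :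
    Differentiable ℂ (g τ x) := by
  have hd1 : ∀ z ∉ Lam τ, DifferentiableAt ℂ (g τ x) z := by
    intro z hz
    have h1 : DifferentiableAt ℂ (fun u => (wp 1 τ u - x)⁻¹) z :=
      ((hasDerivAt_wp_z hτ hz).differentiableAt.sub_const x).inv (sub_ne_zero.2 (hx z hz))
    refine h1.congr_of_eventuallyEq ?_
    filter_upwards [(Lam_closed hτ).isOpen_compl.mem_nhds hz] with w hw
    unfold g
    rw [if_neg hw]
  have h0 : DifferentiableAt ℂ (g τ x) 0 := by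
    refine (Complex.analyticAt_of_differentiable_on_punctured_nhds_of_continuousAt
      ?_ ?_).differentiableAt
    · filter_upwards [notMem_ev hτ] with w hw
      exact hd1 w hw
    · rw [continuousAt_iff_punctured_nhds]
      have e0 : g τ x 0 = 0 := by
        unfold g
        rw [if_pos zero_mem]
      rw [e0]
      exact lim0 hτ x
  intro z
  by_cases hz : z ∈ Lam τ
  · have h1 : DifferentiableAt ℂ (fun w => g τ x (w + -z)) z := by
      have h2 : DifferentiableAt ℂ (g τ x) (z + -z) := by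
        rw [add_neg_cancel]
        exact h0
      exact h2.comp z (differentiableAt_id.add_const (-z))
    have h3 : (fun w => g τ x (w + -z)) = g τ x := by
      funext w
      exact g_per hτ x w (neg_mem_Lam.2 hz)
    rw [h3] at h1
    exact h1
  · exact hd1 z hz

lemma bdd (hτ : 0 < τ.im) (x : ℂ) (hg : Continuous (g τ x)) :
    Bornology.IsBounded (Set.range (g τ x)) := by
  set K : Set ℂ := (fun p : ℝ × ℝ => (p.1 : ℂ) + (p.2 : ℂ) * τ) '' (Set.Icc 0 1 ×ˢ Set.Icc 0 1)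
    with hK
  have hKc : IsCompact K := by
    refine (isCompact_Icc.prod isCompact_Icc).image ?_
    fun_prop
  have hb : Bornology.IsBounded (g τ x '' K) := (hKc.image hg).isBounded
  refine hb.subset ?_
  rintro _ ⟨u, rfl⟩
  set t : ℝ := u.im / τ.im with ht
  set s : ℝ := u.re - t * τ.re with hs
  have hu : u = (s : ℂ) + (t : ℂ) * τ := by
    apply Complex.ext
    · simp [hs]
    · simp [ht]
      field_simp
  have hl : ((⌊s⌋ : ℂ) + (⌊t⌋ : ℂ) * τ) ∈ Lam τ := mem_Lam.2 ⟨⌊s⌋, ⌊t⌋, rfl⟩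
  refine ⟨((Int.fract s : ℝ) : ℂ) + ((Int.fract t : ℝ) : ℂ) * τ,
    ⟨(Int.fract s, Int.fract t), ⟨⟨Int.fract_nonneg s, (Int.fract_lt_one s).le⟩,
      ⟨Int.fract_nonneg t, (Int.fract_lt_one t).le⟩⟩, rfl⟩, ?_⟩
  rw [← g_per hτ x _ hl]
  congr 1
  rw [hu]
  have h1 : (s : ℂ) = (⌊s⌋ : ℂ) + ((Int.fract s : ℝ) : ℂ) := by
    exact_mod_cast (Int.floor_add_fract s).symm
  have h2 : (t : ℂ) = (⌊t⌋ : ℂ) + ((Int.fract t : ℝ) : ℂ) := by
    exact_mod_cast (Int.floor_add_fract t).symm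
  conv_rhs => rw [h1, h2]
  ring

end I_Surj

theorem Surj_pf : S_Surj := by
  intro τ hτ x
  by_contra hcon
  push Not at hcon
  have hd := I_Surj.diff hτ x hcon
  have hb := I_Surj.bdd hτ x hd.continuous
  obtain ⟨u, hu⟩ := ((Lam_countable τ).dense_compl ℝ).nonempty
  have h1 := hd.apply_eq_apply_of_bounded hb u 0
  unfold I_Surj.g at h1
  rw [if_neg hu, if_pos I_Surj.zero_mem] at h1
  exact sub_ne_zero.2 (hcon u hu) (inv_eq_zero.1 h1)

end Pool.Agent.Work.MP_8da9ea_nt.EB
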