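import Pool.Agent.Work.MP_8da9ea_nt.EB.StmtsT
import Pool.Agent.Work.MP_327059_nt.Bd.B11

/-!
# Elliptic block, item AddSiz: sizes of the addition triples
-/

set_option autoImplicit false

namespace Pool.Agent.Work.MP_8da9ea_nt.EB

open MvPolynomial Pool.Agent.Work.MP_327059_nt.GL

namespace I_AddSiz

/-- Total degree at most `d`, length at most `l`. -/
def SZ {σ : Type} (d : ℕ) (l : ℝ) (P : MvPolynomial σ ℤ) : Prop :=
  P.totalDegree ≤ d ∧ len P ≤ l

variable {σ : Type} {P Q : MvPolynomial σ ℤ} {d d' : ℕ} {l l' : ℝ}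

theorem SZ.nn (hP : SZ d l P) : 0 ≤ l := (Val_len_nonneg P).trans hP.2

theorem SZ.add (hP : SZ d l P) (hQ : SZ d l' Q) : SZ d (l + l') (P + Q) :=
  ⟨(totalDegree_add _ _).trans (max_le hP.1 hQ.1),
    (Val_len_add _ _).trans (add_le_add hP.2 hQ.2)⟩

theorem SZ.mul (hP : SZ d l P) (hQ : SZ d' l' Q) : SZ (d + d') (l * l') (P * Q) :=
  ⟨(totalDegree_mul _ _).trans (add_le_add hP.1 hQ.1),
    (Val_len_mul _ _).trans (mul_le_mul hP.2 hQ.2 (Val_len_nonneg _) hP.nn)⟩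

theorem SZ.neg (hP : SZ d l P) : SZ d l (-P) := by
  refine ⟨by rw [totalDegree_neg]; exact hP.1, ?_⟩
  have h : len (-P) ≤ len (C (-1) : MvPolynomial σ ℤ) * len P := by
    have e : (C (-1) : MvPolynomial σ ℤ) * P = -P := by
      rw [map_neg, C_1, neg_one_mul]
    rw [← e]
    exact Val_len_mul _ _
  have h1 := Val_len_C (σ := σ) (-1)
  have h2 : |((-1 : ℤ) : ℝ)| = 1 := by norm_num
  rw [h2] at h1
  calc len (-P) ≤ _ := h
    _ ≤ 1 * len P := mul_le_mul_of_nonneg_right h1 (Val_len_nonneg _)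
    _ ≤ l := by rw [one_mul]; exact hP.2

theorem SZ.sub (hP : SZ d l P) (hQ : SZ d l' Q) : SZ d (l + l') (P - Q) := by
  rw [sub_eq_add_neg]
  exact hP.add hQ.neg

theorem SZ.pow (hP : SZ d l P) (k : ℕ) : SZ (k * d) (l ^ k) (P ^ k) :=
  ⟨(totalDegree_pow _ _).trans (Nat.mul_le_mul_left _ hP.1),
    (Val_len_pow _ _).trans (pow_le_pow_left₀ (Val_len_nonneg _) hP.2 _)⟩

theorem SZ.cst (c : ℕ) : SZ 0 (c : ℝ) ((c : ℕ) : MvPolynomial σ ℤ) := by
  have h : ((c : ℕ) : MvPolynomial σ ℤ) = C (c : ℤ) := by simp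
  rw [h]
  refine ⟨by rw [totalDegree_C], (Val_len_C _).trans (le_of_eq ?_)⟩
  simp

theorem SZ.mono (hP : SZ d l P) (h1 : d ≤ d') (h2 : l ≤ l') : SZ d' l' P :=
  ⟨hP.1.trans h1, hP.2.trans h2⟩

end I_AddSiz

open I_AddSiz in
/-- Sizes of the addition triples. -/
theorem AddSiz_pf : S_AddSiz := by
  intro n m h h' V W hh hh' hV hW
  have cv : ∀ {g : ℝ} {P : MvPolynomial (VI n m) ℤ}, 0 ≤ g → SizP g P →
      SZ ⌊g⌋₊ (Real.exp g) P := fun hg hP => ⟨Nat.le_floor hP.1, hP.2⟩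
  have VA := cv hh hV.A
  have VB := cv hh hV.B
  have VZ := cv hh hV.Z
  have WA := cv hh' hW.A
  have WB := cv hh' hW.B
  have WZ := cv hh' hW.Z
  have c4 : SZ 0 (4 : ℝ) (4 : MvPolynomial (VI n m) ℤ) := by
    have := SZ.cst (σ := VI n m) 4
    simpa using this
  have c2 : SZ 0 (2 : ℝ) (2 : MvPolynomial (VI n m) ℤ) := by
    have := SZ.cst (σ := VI n m) 2
    simpa using this
  have hneg : ∀ {g : ℝ} {P : MvPolynomial (VI n m) ℤ}, 0 ≤ g → SizP g P → SizP g (-P) := by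
    intro g P hg hP
    exact ⟨by rw [totalDegree_neg]; exact hP.1, (cv hg hP).neg.2⟩
  refine ⟨⟨hV.A, hneg hh hV.B, hV.Z⟩, ?_⟩
  set a := ⌊h⌋₊ with ha
  set b := ⌊h'⌋₊ with hb
  set x := Real.exp h with hx
  set y := Real.exp h' with hy
  have hx0 : 0 < x := Real.exp_pos _
  have hy0 : 0 < y := Real.exp_pos _
  -- the two differences
  have U1 : SZ (a + b) (2 * (x * y)) (V.A * W.Z - W.A * V.Z) :=
    ((VA.mul WZ).sub ((WA.mul VZ).mono (by omega) le_rfl)).mono le_rfl (by nlinarith)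
  have U2 : SZ (a + b) (2 * (x * y)) (V.B * W.Z - W.B * V.Z) :=
    ((VB.mul WZ).sub ((WB.mul VZ).mono (by omega) le_rfl)).mono le_rfl (by nlinarith)
  have E : 0 < x * y := mul_pos hx0 hy0
  set e := x * y with he
  -- the products
  have ZZ2 : SZ (3 * (a + b)) (4 * e ^ 3) ((V.B * W.Z - W.B * V.Z) ^ 2 * V.Z * W.Z) :=
    (((U2.pow 2).mul VZ).mul WZ).mono (by omega) (le_of_eq (by rw [he]; ring))
  have S1 : SZ (a + b) (2 * e) (V.A * W.Z + W.A * V.Z) :=
    ((VA.mul WZ).add ((WA.mul VZ).mono (by omega) le_rfl)).mono le_rfl (le_of_eq (by rw [he]; ring))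
  have S2 : SZ (a + b) (3 * e) (2 * V.A * W.Z + W.A * V.Z) :=
    ((((c2.mul VA).mul WZ).mono (d' := a + b) (by omega) le_rfl).add
      ((WA.mul VZ).mono (by omega) le_rfl)).mono le_rfl (le_of_eq (by rw [he]; ring))
  have T1 : SZ (3 * (a + b)) (32 * e ^ 3)
      (4 * (V.A * W.Z - W.A * V.Z) ^ 2 * (V.A * W.Z + W.A * V.Z)) :=
    ((c4.mul (U1.pow 2)).mul S1).mono (by omega) (le_of_eq (by ring))
  have T2 : SZ (3 * (a + b)) (48 * e ^ 3)
      (4 * (V.A * W.Z - W.A * V.Z) ^ 2 * (2 * V.A * W.Z + W.A * V.Z)) :=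
    ((c4.mul (U1.pow 2)).mul S2).mono (by omega) (le_of_eq (by ring))
  have A1 : SZ (4 * (a + b)) (136 * e ^ 4) (addT V W).A :=
    (U1.mul (ZZ2.sub T1)).mono (by omega) (by
      have : 0 < e ^ 4 := by positivity
      nlinarith)
  have B1 : SZ (4 * (a + b)) (136 * e ^ 4) (addT V W).B := by
    have B2 : SZ (4 * (a + b)) (32 * e ^ 4)
        (4 * (V.A * W.Z - W.A * V.Z) ^ 3 * V.B * W.Z) :=
      (((c4.mul (U1.pow 3)).mul VB).mul WZ).mono (by omega) (le_of_eq (by rw [he]; ring))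
    exact (((U2.mul (T2.sub ZZ2)).mono (d' := 4 * (a + b)) (by omega) le_rfl).sub B2).mono le_rfl (le_of_eq (by ring))
  have Z1 : SZ (4 * (a + b)) (136 * e ^ 4) (addT V W).Z :=
    (((c4.mul (U1.pow 3)).mul VZ).mul WZ).mono (by omega) (by
      have h4 : 0 < (x * y) ^ 4 := by positivity
      rw [he]
      nlinarith)
  have hfa : (a : ℝ) ≤ h := Nat.floor_le hh
  have hfb : (b : ℝ) ≤ h' := Nat.floor_le hh'
  have fin : ∀ {P : MvPolynomial (VI n m) ℤ}, SZ (4 * (a + b)) (136 * e ^ 4) P →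
      SizP (4 * (h + h') + 6) P := by
    intro P hP
    refine ⟨?_, hP.2.trans ?_⟩
    · have h1 : (P.totalDegree : ℝ) ≤ ((4 * (a + b) : ℕ) : ℝ) := by exact_mod_cast hP.1
      push_cast at h1
      linarith
    · have h2 : e ^ 4 = Real.exp (4 * (h + h')) := by
        rw [he, hx, hy, ← Real.exp_add, ← Real.exp_nat_mul]
        norm_num
      have h3 : (136 : ℝ) ≤ Real.exp 6 := by
        have h5 : Real.exp 6 = Real.exp 1 ^ 6 := by
          rw [← Real.exp_nat_mul]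
          norm_num
        have h6 : (2.7 : ℝ) ≤ Real.exp 1 := by
          have := Real.exp_one_gt_d9
          linarith
        rw [h5]
        calc (136 : ℝ) ≤ 2.7 ^ 6 := by norm_num
          _ ≤ _ := pow_le_pow_left₀ (by norm_num) h6 _
      rw [h2, Real.exp_add, mul_comm]
      exact mul_le_mul_of_nonneg_left h3 (Real.exp_pos _).le
  exact ⟨fin A1, fin B1, fin Z1⟩

end Pool.Agent.Work.MP_8da9ea_nt.EB
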