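import Pool.Agent.Work.MP_8da9ea_nt.EB.StmtsG
import Pool.Agent.Work.MP_8da9ea_nt.Bd.B01

/-!
# F2: normalisation
-/

set_option autoImplicit false

namespace Pool.Agent.Work.MP_8da9ea_nt.EB

namespace I_Norm

/-- the `j`-invariant through `gg2`, `gg3` -/
lemma jInv_eq (τ : ℂ) : jInv 1 τ = 1728 * gg2 τ ^ 3 / (gg2 τ ^ 3 - 27 * gg3 τ ^ 2) := by
  unfold jInv gg2 gg3 gk lp
  rfl

/-- a root of an element of a subfield is algebraic -/
lemma alg_of_pow {K : IntermediateField ℚ ℂ} {x : ℂ} {n : ℕ} (hn : 0 < n) (h : x ^ n ∈ K) :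
    IsAlgebraic K x := by
  have h1 : IsAlgebraic K (x ^ n) := isAlgebraic_algebraMap (⟨x ^ n, h⟩ : K)
  exact h1.of_pow hn

/-- existence of roots -/
lemma exists_root (a : ℂ) {n : ℕ} (hn : 0 < n) : ∃ x : ℂ, x ^ n = a :=
  IsAlgClosed.exists_pow_nat_eq a hn

end I_Norm

open I_Norm in
/-- F2: normalisation -/
theorem Norm_pf : S_Norm := by
  intro τ hτ hJ
  have hd := Fx.disc_ne hτ
  rw [jInv_eq] at hJ
  by_cases h3 : gg3 τ = 0
  · have h2 : gg2 τ ≠ 0 := by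
      intro h2
      apply hd
      rw [h2, h3]
      ring
    obtain ⟨μ, hμ⟩ := exists_root (gg2 τ)⁻¹ (n := 4) (by norm_num)
    have hμ0 : μ ≠ 0 := by
      rintro rfl
      rw [zero_pow (by norm_num)] at hμ
      exact (inv_ne_zero h2) hμ.symm
    refine ⟨μ, ⟨hτ, hμ0, ?_, ?_⟩, ?_⟩
    · rw [hμ, inv_mul_cancel₀ h2]
      exact isAlgebraic_one
    · rw [h3, mul_zero]
      exact isAlgebraic_zero
    · intro K k2 _
      exact alg_of_pow (n := 4) (by norm_num) (by rw [hμ]; exact K.inv_mem k2)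
  by_cases h2 : gg2 τ = 0
  · obtain ⟨μ, hμ⟩ := exists_root (gg3 τ)⁻¹ (n := 6) (by norm_num)
    have hμ0 : μ ≠ 0 := by
      rintro rfl
      rw [zero_pow (by norm_num)] at hμ
      exact (inv_ne_zero h3) hμ.symm
    refine ⟨μ, ⟨hτ, hμ0, ?_, ?_⟩, ?_⟩
    · rw [h2, mul_zero]
      exact isAlgebraic_zero
    · rw [hμ, inv_mul_cancel₀ h3]
      exact isAlgebraic_one
    · intro K _ k3
      exact alg_of_pow (n := 6) (by norm_num) (by rw [hμ]; exact K.inv_mem k3)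
  obtain ⟨μ, hμ⟩ := exists_root (gg2 τ / gg3 τ) (n := 2) (by norm_num)
  have hμ0 : μ ≠ 0 := by
    rintro rfl
    rw [zero_pow (by norm_num)] at hμ
    exact (div_ne_zero h2 h3) hμ.symm
  have ht : IsAlgebraic ℚ (gg2 τ ^ 3 / gg3 τ ^ 2) := by
    set J : ℂ := 1728 * gg2 τ ^ 3 / (gg2 τ ^ 3 - 27 * gg3 τ ^ 2) with hJd
    have e1 : J - 1728 = 1728 * 27 * gg3 τ ^ 2 / (gg2 τ ^ 3 - 27 * gg3 τ ^ 2) := by
      rw [hJd]
      field_simp
      ring
    have e0 : J - 1728 ≠ 0 := by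
      rw [e1]
      exact div_ne_zero (mul_ne_zero (by norm_num) (pow_ne_zero 2 h3)) hd
    have e2 : gg2 τ ^ 3 / gg3 τ ^ 2 = 27 * J * (J - 1728)⁻¹ := by
      rw [eq_mul_inv_iff_mul_eq₀ e0, e1, hJd]
      field_simp
    rw [e2]
    have a27 : IsAlgebraic ℚ (27 : ℂ) := by
      have := isAlgebraic_algebraMap (R := ℚ) (A := ℂ) (27 : ℚ)
      simpa using this
    have a1728 : IsAlgebraic ℚ (1728 : ℂ) := by
      have := isAlgebraic_algebraMap (R := ℚ) (A := ℂ) (1728 : ℚ)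
      simpa using this
    exact (a27.mul hJ).mul (hJ.sub a1728).inv
  have m4 : μ ^ 4 * gg2 τ = gg2 τ ^ 3 / gg3 τ ^ 2 := by
    rw [show μ ^ 4 = (μ ^ 2) ^ 2 by ring, hμ]
    field_simp
  have m6 : μ ^ 6 * gg3 τ = gg2 τ ^ 3 / gg3 τ ^ 2 := by
    rw [show μ ^ 6 = (μ ^ 2) ^ 3 by ring, hμ]
    field_simp
  refine ⟨μ, ⟨hτ, hμ0, ?_, ?_⟩, ?_⟩
  · rw [m4]; exact ht
  · rw [m6]; exact ht
  · intro K k2 k3
    exact alg_of_pow (n := 2) (by norm_num) (by rw [hμ]; exact K.div_mem k2 k3)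

end Pool.Agent.Work.MP_8da9ea_nt.EB
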