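import Pool.Agent.Work.MP_8da9ea_nt.EB.StmtsT
import Pool.Agent.Work.MP_8da9ea_nt.Bd.B01
import Pool.Agent.Work.MP_327059_nt.GL.StmtsT

/-!
# Elliptic block, item D6: the criterion step
-/

set_option autoImplicit false

namespace Pool.Agent.Work.MP_8da9ea_nt.EB

open MvPolynomial Metric Filter Topology Pool.Agent.Work.MP_327059_nt.GL
  Pool.Agent.Work.MP_8da9ea_nt.S

namespace CritE

/-- `℘'` vanishes only at the points of order two. -/
lemma wpd_ne {τ u : ℂ} (hτ : 0 < τ.im) (hu : u ∉ Lam τ) (h2 : u + u ∉ Lam τ) : wpd τ u ≠ 0 := by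
  intro e3
  have k1 := Fx.zt_add_lin hτ hu hu h2
  have k3 := Fx.zt_add_quad hτ hu hu h2
  have k4 := Fx.zt_add_sq hτ hu hu h2
  have hy := wpd_sq hτ hu
  rw [e3] at hy k1 k3
  set s := zt 1 τ (u + u) - zt 1 τ u - zt 1 τ u
  set x := wp 1 τ u
  set x3 := wp 1 τ (u + u)
  set y3 := wpd τ (u + u)
  have e4 : 12 * x ^ 2 = gg2 τ := by
    linear_combination (-1) * k3 + 2 * s * k1 - 4 * (x - x3) * k4
  apply Fx.disc_ne hτ
  have e5 : gg3 τ = -8 * x ^ 3 := by
    rw [← e4] at hy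
    linear_combination hy
  rw [← e4, e5]
  ring

/-- Roots of an integer polynomial are isolated. -/
lemma isol {α : ℂ} (h : IsAlgebraic ℚ α) : ∃ f : Polynomial ℤ, f ≠ 0 ∧ Polynomial.aeval α f = 0 ∧
    ∃ η : ℝ, 0 < η ∧ ∀ t : ℂ, ‖t - α‖ ≤ η → Polynomial.aeval t f = 0 → t = α := by
  have h' : IsAlgebraic ℤ α := (IsFractionRing.isAlgebraic_iff ℤ ℚ ℂ).2 h
  obtain ⟨f, hf0, hfa⟩ := h'
  refine ⟨f, hf0, hfa, ?_⟩
  have hfin : (f.rootSet ℂ).Finite := f.rootSet_finite ℂ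
  have hfin' : (f.rootSet ℂ \ {α}).Finite := hfin.subset Set.sdiff_subset
  have hop : IsOpen (f.rootSet ℂ \ {α})ᶜ := hfin'.isClosed.isOpen_compl
  have hmem : α ∈ (f.rootSet ℂ \ {α})ᶜ := by simp
  obtain ⟨ε, hε, hball⟩ := Metric.isOpen_iff.1 hop α hmem
  refine ⟨ε / 2, by positivity, ?_⟩
  intro t ht hft
  by_contra hne
  have h1 : t ∈ ball α ε := by
    rw [mem_ball, dist_eq_norm]
    linarith
  have h2 := hball h1
  apply h2
  refine ⟨?_, hne⟩
  rw [Polynomial.mem_rootSet]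
  exact ⟨hf0, hft⟩

/-- Bounds for finitely many polynomials. -/
lemma fin_bd {σ : Type} (S : Finset (MvPolynomial σ ℤ)) : ∃ K : ℕ, ∀ P ∈ S,
    P.totalDegree ≤ K ∧ len P ≤ Real.exp K := by
  refine ⟨∑ P ∈ S, (P.totalDegree + ⌈len P⌉₊), ?_⟩
  intro P hP
  have h1 : P.totalDegree + ⌈len P⌉₊ ≤ ∑ P ∈ S, (P.totalDegree + ⌈len P⌉₊) :=
    Finset.single_le_sum (f := fun P : MvPolynomial σ ℤ => P.totalDegree + ⌈len P⌉₊)
      (fun _ _ => Nat.zero_le _) hP
  constructor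
  · omega
  · have h2 : len P ≤ (⌈len P⌉₊ : ℝ) := Nat.le_ceil _
    have h3 : (⌈len P⌉₊ : ℝ) ≤ ((∑ P ∈ S, (P.totalDegree + ⌈len P⌉₊) : ℕ) : ℝ) := by
      exact_mod_cast (by omega : ⌈len P⌉₊ ≤ ∑ P ∈ S, (P.totalDegree + ⌈len P⌉₊))
    have h4 := Real.add_one_le_exp (((∑ P ∈ S, (P.totalDegree + ⌈len P⌉₊) : ℕ) : ℝ))
    linarith

lemma pc_mul {n m : ℕ} (b : Fin m → ℂ) (x : Fin n → ℂ) (s : Fin n → ℤ) (j : Fin m) :
    pc (fun i j => b j * x i) s j = b j * cmb s x := by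
  unfold pc cmb
  rw [Finset.mul_sum]
  refine Finset.sum_congr rfl fun i _ => ?_
  ring

/-- Small multiples of points close to the given ones are not lattice points. -/
lemma near_good {τ : ℂ} (hτ : 0 < τ.im) {n m : ℕ} {b : Fin m → ℂ} {x : Fin n → ℂ}
    (hNT : NT τ b x) (K : ℕ) : ∃ η : ℝ, 0 < η ∧ ∀ u : Fin n → Fin m → ℂ,
      (∀ i j, ‖u i j - b j * x i‖ ≤ η) → ∀ s : Fin n → ℤ, s ≠ 0 → (∀ i, |s i| ≤ (K : ℤ)) →
        ∀ j, pc u s j ∉ Lam τ := by
  have hev : ∀ᶠ u : Fin n → Fin m → ℂ in 𝓝 (fun i j => b j * x i),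
      ∀ s ∈ {s : Fin n → ℤ | s ≠ 0 ∧ ∀ i, |s i| ≤ (K : ℤ)}, ∀ j ∈ (Set.univ : Set (Fin m)),
        pc u s j ∉ Lam τ := by
    have hfin : {s : Fin n → ℤ | s ≠ 0 ∧ ∀ i, |s i| ≤ (K : ℤ)}.Finite := by
      refine (Set.finite_Icc (fun _ : Fin n => -(K : ℤ)) (fun _ => (K : ℤ))).subset ?_
      rintro s ⟨_, hs⟩
      constructor
      · intro i; exact (abs_le.1 (hs i)).1
      · intro i; exact (abs_le.1 (hs i)).2
    rw [Filter.eventually_all_finite hfin]
    intro s hs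
    rw [Filter.eventually_all_finite Set.finite_univ]
    intro j _
    have hc : Continuous (fun u : Fin n → Fin m → ℂ => pc u s j) := by
      unfold pc
      fun_prop
    have h0 : pc (fun i j => b j * x i) s j ∈ (Lam τ)ᶜ := by
      rw [pc_mul]
      exact hNT s hs.1 j
    exact hc.continuousAt.eventually ((Lam_compl_open hτ).mem_nhds h0)
  obtain ⟨ε, hε, hball⟩ := Metric.eventually_nhds_iff_ball.1 hev
  refine ⟨ε / 2, by positivity, ?_⟩
  intro u hu s hs0 hs j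
  refine hball u ?_ s ⟨hs0, hs⟩ j (Set.mem_univ j)
  rw [mem_ball]
  refine lt_of_le_of_lt ?_ (half_lt_self hε)
  rw [dist_pi_le_iff (by positivity)]
  intro i
  rw [dist_pi_le_iff (by positivity)]
  intro j
  rw [dist_eq_norm]
  exact hu i j

/-- A polynomial from the coefficients. -/
lemma mkF {m W : ℕ} (hW : 1 ≤ W) {μ : ℂ} (hμ : μ ≠ 0) (r : (Fin m → Fin W) → ℂ) (hr : r ≠ 0) :
    ∃ F : MvPolynomial (Fin m) ℂ, F ≠ 0 ∧ (∀ j, F.degreeOf j < W) ∧
      ∀ v : Fin m → ℂ, eval v F = ∑ a, r a * ∏ j, (μ ^ 2 * v j) ^ (a j : ℕ) := by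
  classical
  set D : (Fin m → Fin W) → (Fin m →₀ ℕ) := fun a => Finsupp.equivFunOnFinite.symm (fun j => (a j : ℕ))
    with hD
  have hDinj : Function.Injective D := by
    intro a a' h
    funext j
    have := DFunLike.congr_fun h j
    simp only [hD, Finsupp.equivFunOnFinite_symm_apply_apply] at this
    exact Fin.ext this
  set F : MvPolynomial (Fin m) ℂ := ∑ a, monomial (D a) (r a * ∏ j, (μ ^ 2) ^ (a j : ℕ)) with hF
  have hco : ∀ d, F.coeff d = ∑ a, if D a = d then (r a * ∏ j, (μ ^ 2) ^ (a j : ℕ)) else 0 := by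
    intro d
    rw [hF, coeff_sum]
    refine Finset.sum_congr rfl fun a _ => ?_
    rw [coeff_monomial]
  refine ⟨F, ?_, ?_, ?_⟩
  · obtain ⟨a, ha⟩ := Function.ne_iff.1 hr
    intro h0
    have h1 : F.coeff (D a) = r a * ∏ j, (μ ^ 2) ^ (a j : ℕ) := by
      rw [hco, Finset.sum_eq_single a]
      · simp
      · intro a' _ hne
        rw [if_neg (fun h => hne (hDinj h))]
      · intro h; exact absurd (Finset.mem_univ a) h
    rw [h0, coeff_zero] at h1
    have h2 : (∏ j, (μ ^ 2) ^ (a j : ℕ)) ≠ 0 :=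
      Finset.prod_ne_zero_iff.2 fun j _ => pow_ne_zero _ (pow_ne_zero _ hμ)
    exact (mul_ne_zero ha h2) h1.symm
  · intro j
    rw [degreeOf_lt_iff (by omega)]
    intro d hd
    rw [mem_support_iff, hco] at hd
    obtain ⟨a, _, ha⟩ := Finset.exists_ne_zero_of_sum_ne_zero hd
    have hda : D a = d := by
      by_contra hne
      exact ha (if_neg hne)
    rw [← hda]
    simp only [hD, Finsupp.equivFunOnFinite_symm_apply_apply]
    exact (a j).isLt
  · intro v
    rw [hF, map_sum]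
    refine Finset.sum_congr rfl fun a _ => ?_
    rw [eval_monomial, Finsupp.prod_fintype _ _ (by simp)]
    simp only [hD, Finsupp.equivFunOnFinite_symm_apply_apply, mul_pow, Finset.prod_mul_distrib]
    ring


lemma small {T c : ℝ} (hc : 0 < c) (h : 1 / c ≤ T) : Real.exp (-T) ≤ c := by
  have hT : 0 < T := lt_of_lt_of_le (by positivity) h
  rw [Real.exp_neg]
  have h1 := Real.add_one_le_exp T
  have h2 : 1 / c ≤ Real.exp T := by linarith
  rw [inv_le_comm₀ (Real.exp_pos _) hc, ← one_div]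
  exact h2

/-- The values at the true point. -/
lemma true_bd {τ μ : ℂ} {n m G W : ℕ} {θ : VI n m → ℂ} {C2 h : ℝ} (hh : 0 ≤ h)
    (hZ : ∀ (z : ℂ) (h : ℝ) (V : Tri n m), 0 ≤ h → Val τ μ θ z V → Siz h V →
      ‖aeval θ V.Z‖ ≤ Real.exp (C2 * (h + 1)) * d1 τ z ^ 2)
    (hPE : S_PEval) (p : (Fin G → Fin m → Fin W) → ℤ) (V : Fin G → Fin m → Tri n m)
    (b : Fin m → ℂ) (y : Fin G → ℂ)
    (hV : ∀ r j, Val τ μ θ (b j * y r) (V r j)) (hS : ∀ r j, Siz h (V r j)) :
    ‖aeval θ (PE p V)‖ ≤ Real.exp (G * m * W * (C2 * (h + 1))) *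
      (‖AF τ μ b p y‖ * ∏ r, ∏ j, d1 τ (b j * y r) ^ (2 * W)) := by
  rw [((hPE n m G W p V).1 τ μ θ (fun r j => b j * y r) hV)]
  rw [norm_mul, norm_prod]
  have h1 : ∏ r, ‖∏ j, aeval θ (V r j).Z ^ W‖ ≤
      Real.exp (G * m * W * (C2 * (h + 1))) * ∏ r, ∏ j, d1 τ (b j * y r) ^ (2 * W) := by
    calc ∏ r, ‖∏ j, aeval θ (V r j).Z ^ W‖
        ≤ ∏ r, ∏ j, (Real.exp (W * (C2 * (h + 1))) * d1 τ (b j * y r) ^ (2 * W)) := by
          refine Finset.prod_le_prod (fun r _ => norm_nonneg _) fun r _ => ?_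
          rw [norm_prod]
          refine Finset.prod_le_prod (fun j _ => norm_nonneg _) fun j _ => ?_
          rw [norm_pow]
          calc ‖aeval θ (V r j).Z‖ ^ W
              ≤ (Real.exp (C2 * (h + 1)) * d1 τ (b j * y r) ^ 2) ^ W :=
                pow_le_pow_left₀ (norm_nonneg _) (hZ _ h _ hh (hV r j) (hS r j)) W
            _ = _ := by rw [mul_pow, ← Real.exp_nat_mul, ← pow_mul]
      _ = _ := by
          simp only [Finset.prod_mul_distrib, Finset.prod_const, Finset.card_univ,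
            Fintype.card_fin]
          rw [← Real.exp_nat_mul, ← Real.exp_nat_mul]
          ring_nf
  calc (∏ r, ‖∏ j, aeval θ (V r j).Z ^ W‖) * ‖AF τ μ b p y‖
      ≤ (Real.exp (G * m * W * (C2 * (h + 1))) * ∏ r, ∏ j, d1 τ (b j * y r) ^ (2 * W)) *
          ‖AF τ μ b p y‖ := mul_le_mul_of_nonneg_right h1 (norm_nonneg _)
    _ = _ := by ring

/-- The curve equation. -/
noncomputable def EQ {n m : ℕ} (i : Fin n) (j : Fin m) : MvPolynomial (VI n m) ℤ :=
  X (Sum.inr (i, j, true)) ^ 2 - 4 * X (Sum.inr (i, j, false)) ^ 3 +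
    X (Sum.inl 0) * X (Sum.inr (i, j, false)) + X (Sum.inl 1)

lemma EQ_aeval {n m : ℕ} (i : Fin n) (j : Fin m) (θ : VI n m → ℂ) :
    aeval θ (EQ i j) = θ (Sum.inr (i, j, true)) ^ 2 - 4 * θ (Sum.inr (i, j, false)) ^ 3 +
      θ (Sum.inl 0) * θ (Sum.inr (i, j, false)) + θ (Sum.inl 1) := by
  unfold EQ
  simp

lemma pt0 (τ μ : ℂ) {n m : ℕ} (u : Fin n → Fin m → ℂ) :
    ptE τ μ u (Sum.inl 0) = μ ^ 4 * gg2 τ := by simp [ptE]

lemma pt1 (τ μ : ℂ) {n m : ℕ} (u : Fin n → Fin m → ℂ) :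
    ptE τ μ u (Sum.inl 1) = μ ^ 6 * gg3 τ := by simp [ptE]

lemma ptx (τ μ : ℂ) {n m : ℕ} (u : Fin n → Fin m → ℂ) (i : Fin n) (j : Fin m) :
    ptE τ μ u (Sum.inr (i, j, false)) = xe τ μ (u i j) := by simp [ptE]

lemma pty (τ μ : ℂ) {n m : ℕ} (u : Fin n → Fin m → ℂ) (i : Fin n) (j : Fin m) :
    ptE τ μ u (Sum.inr (i, j, true)) = ye τ μ (u i j) := by simp [ptE]

/-- The points close to the given point satisfying the equations come from complex numbers. -/
lemma lift {τ μ : ℂ} {n m : ℕ} {b : Fin m → ℂ} {x : Fin n → ℂ} (hN : Nrm τ μ) (hNT : NT τ b x)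
    (hLI : S_LocInv) : ∃ (S : Finset (MvPolynomial (VI n m) ℤ)) (C η : ℝ), 1 ≤ C ∧ 0 < η ∧
      (∀ P ∈ S, aeval (ptE τ μ (fun i j => b j * x i)) P = 0) ∧
      ∀ (θ' : VI n m → ℂ) (ε : ℝ), ε ≤ η → (∀ P ∈ S, aeval θ' P = 0) →
        (∀ i, ‖θ' i - ptE τ μ (fun i j => b j * x i) i‖ ≤ ε) →
        ∃ u : Fin n → Fin m → ℂ, ptE τ μ u = θ' ∧ ∀ i j, ‖u i j - b j * x i‖ ≤ C * ε := by
  classical
  have hx : ∀ i j, b j * x i ∉ Lam τ := by
    intro i j
    have h1 : (Pi.single i 1 : Fin n → ℤ) ≠ 0 := by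
      intro h
      have := congrFun h i
      simp at this
    have h2 := hNT _ h1 j
    have h3 : cmb (Pi.single i 1 : Fin n → ℤ) x = x i := by
      unfold cmb
      rw [Finset.sum_eq_single i]
      · simp
      · intro k _ hk; simp [Pi.single_eq_of_ne hk]
      · intro h; exact absurd (Finset.mem_univ i) h
    rwa [h3] at h2
  have hx2 : ∀ i j, b j * x i + b j * x i ∉ Lam τ := by
    intro i j
    have h1 : (Pi.single i 2 : Fin n → ℤ) ≠ 0 := by
      intro h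
      have := congrFun h i
      simp at this
    have h2 := hNT _ h1 j
    have h3 : b j * cmb (Pi.single i 2 : Fin n → ℤ) x = b j * x i + b j * x i := by
      unfold cmb
      rw [Finset.sum_eq_single i]
      · simp; ring
      · intro k _ hk; simp [Pi.single_eq_of_ne hk]
      · intro h; exact absurd (Finset.mem_univ i) h
    rwa [h3] at h2
  have hL := fun i j => hLI τ hN.im (b j * x i) (hx i j) (wpd_ne hN.im (hx i j) (hx2 i j))
  choose CL eL hCL heL hLo using hL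
  obtain ⟨f2, hf20, hf2a, e2, he2, hf2⟩ := isol hN.g2
  obtain ⟨f3, hf30, hf3a, e3, he3, hf3⟩ := isol hN.g3
  have hμ : 0 < ‖μ‖ := norm_pos_iff.2 hN.mu
  set κ : ℝ := 1 / ‖μ‖ ^ 2 + 1 / ‖μ‖ ^ 3 with hκ
  have hκ2 : 1 / ‖μ‖ ^ 2 ≤ κ := by
    have : 0 < 1 / ‖μ‖ ^ 3 := by positivity
    linarith
  have hκ3 : 1 / ‖μ‖ ^ 3 ≤ κ := by
    have : 0 < 1 / ‖μ‖ ^ 2 := by positivity
    linarith
  have hκ0 : 0 < κ := by positivity
  set q2 : MvPolynomial (VI n m) ℤ := Polynomial.aeval (X (Sum.inl 0)) f2 with hq2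
  set q3 : MvPolynomial (VI n m) ℤ := Polynomial.aeval (X (Sum.inl 1)) f3 with hq3
  have hq2a : ∀ θ : VI n m → ℂ, aeval θ q2 = Polynomial.aeval (θ (Sum.inl 0)) f2 := by
    intro θ
    rw [hq2, ← Polynomial.aeval_algHom_apply, aeval_X]
  have hq3a : ∀ θ : VI n m → ℂ, aeval θ q3 = Polynomial.aeval (θ (Sum.inl 1)) f3 := by
    intro θ
    rw [hq3, ← Polynomial.aeval_algHom_apply, aeval_X]
  -- the constants
  obtain ⟨η, hη0, hη2, hη3, hηe⟩ : ∃ η : ℝ, 0 < η ∧ η ≤ e2 ∧ η ≤ e3 ∧ ∀ i j, κ * η ≤ eL i j := by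
    refine ⟨(1 / e2 + 1 / e3 + ∑ i, ∑ j, κ / eL i j)⁻¹, ?_, ?_, ?_, ?_⟩
    · have : 0 ≤ ∑ i, ∑ j, κ / eL i j :=
        Finset.sum_nonneg fun i _ => Finset.sum_nonneg fun j _ => by have := heL i j; positivity
      positivity
    · have : 0 ≤ ∑ i, ∑ j, κ / eL i j :=
        Finset.sum_nonneg fun i _ => Finset.sum_nonneg fun j _ => by have := heL i j; positivity
      apply inv_le_of_inv_le₀ he2
      rw [← one_div]
      have : 0 < 1 / e3 := by positivity
      linarith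
    · have : 0 ≤ ∑ i, ∑ j, κ / eL i j :=
        Finset.sum_nonneg fun i _ => Finset.sum_nonneg fun j _ => by have := heL i j; positivity
      apply inv_le_of_inv_le₀ he3
      rw [← one_div]
      have : 0 < 1 / e2 := by positivity
      linarith
    · intro i j
      have h1 : κ / eL i j ≤ ∑ i, ∑ j, κ / eL i j := by
        refine (Finset.single_le_sum (f := fun j => κ / eL i j) (fun j _ => ?_)
          (Finset.mem_univ j)).trans
          (Finset.single_le_sum (f := fun i => ∑ j, κ / eL i j) (fun i _ => ?_)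
            (Finset.mem_univ i))
        · have := heL i j; positivity
        · exact Finset.sum_nonneg fun j _ => by have := heL i j; positivity
      have h2 : 0 < 1 / e2 := by positivity
      have h3 : 0 < 1 / e3 := by positivity
      have h4 := heL i j
      have h5 : 0 < κ / eL i j := by positivity
      have h6 : (1 / e2 + 1 / e3 + ∑ i, ∑ j, κ / eL i j)⁻¹ ≤ (κ / eL i j)⁻¹ :=
        inv_anti₀ h5 (by linarith)
      calc κ * (1 / e2 + 1 / e3 + ∑ i, ∑ j, κ / eL i j)⁻¹ ≤ κ * (κ / eL i j)⁻¹ :=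
            mul_le_mul_of_nonneg_left h6 hκ0.le
        _ = eL i j := by field_simp
  refine ⟨{q2, q3} ∪ Finset.univ.image (fun ij : Fin n × Fin m => EQ ij.1 ij.2),
    1 + ∑ i, ∑ j, CL i j * κ, η, ?_, hη0, ?_, ?_⟩
  · have : 0 ≤ ∑ i, ∑ j, CL i j * κ := Finset.sum_nonneg fun i _ => Finset.sum_nonneg fun j _ => by
      have := hCL i j
      positivity
    linarith
  · intro P hP
    rw [Finset.mem_union, Finset.mem_insert, Finset.mem_singleton, Finset.mem_image] at hP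
    rcases hP with (h | h) | ⟨⟨i, j⟩, _, h⟩
    · rw [h, hq2a, pt0, hf2a]
    · rw [h, hq3a, pt1, hf3a]
    · rw [← h, EQ_aeval, pt0, pt1, ptx, pty]
      unfold xe ye
      have := wpd_sq hN.im (hx i j)
      linear_combination μ ^ 6 * this
  · intro θ' ε hε hS hcl
    have hP : ∀ P, P = q2 ∨ P = q3 ∨ (∃ i j, P = EQ i j) → aeval θ' P = 0 := by
      intro P hP
      apply hS
      rw [Finset.mem_union, Finset.mem_insert, Finset.mem_singleton, Finset.mem_image]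
      rcases hP with h | h | ⟨i, j, h⟩
      · exact Or.inl (Or.inl h)
      · exact Or.inl (Or.inr h)
      · exact Or.inr ⟨(i, j), Finset.mem_univ _, h.symm⟩
    have g2 : θ' (Sum.inl 0) = μ ^ 4 * gg2 τ := by
      apply hf2
      · have := hcl (Sum.inl 0)
        rw [pt0] at this
        linarith
      · rw [← hq2a]
        exact hP _ (Or.inl rfl)
    have g3 : θ' (Sum.inl 1) = μ ^ 6 * gg3 τ := by
      apply hf3
      · have := hcl (Sum.inl 1)
        rw [pt1] at this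
        linarith
      · rw [← hq3a]
        exact hP _ (Or.inr (Or.inl rfl))
    have hε0 : 0 ≤ ε := (norm_nonneg _).trans (hcl (Sum.inl 0))
    have hxc : ∀ i j, ‖θ' (Sum.inr (i, j, false)) / μ ^ 2 - wp 1 τ (b j * x i)‖ ≤ κ * ε := by
      intro i j
      have h1 := hcl (Sum.inr (i, j, false))
      rw [ptx] at h1
      have h2 : θ' (Sum.inr (i, j, false)) / μ ^ 2 - wp 1 τ (b j * x i) =
          (θ' (Sum.inr (i, j, false)) - xe τ μ (b j * x i)) / μ ^ 2 := by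
        unfold xe
        have := hN.mu
        field_simp
      rw [h2, norm_div, norm_pow]
      calc ‖θ' (Sum.inr (i, j, false)) - xe τ μ (b j * x i)‖ / ‖μ‖ ^ 2 ≤ ε / ‖μ‖ ^ 2 := by gcongr
        _ = 1 / ‖μ‖ ^ 2 * ε := by ring
        _ ≤ κ * ε := mul_le_mul_of_nonneg_right hκ2 hε0
    have hyc : ∀ i j, ‖θ' (Sum.inr (i, j, true)) / μ ^ 3 - wpd τ (b j * x i)‖ ≤ κ * ε := by
      intro i j
      have h1 := hcl (Sum.inr (i, j, true))
      rw [pty] at h1
      have h2 : θ' (Sum.inr (i, j, true)) / μ ^ 3 - wpd τ (b j * x i) =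
          (θ' (Sum.inr (i, j, true)) - ye τ μ (b j * x i)) / μ ^ 3 := by
        unfold ye
        have := hN.mu
        field_simp
      rw [h2, norm_div, norm_pow]
      calc ‖θ' (Sum.inr (i, j, true)) - ye τ μ (b j * x i)‖ / ‖μ‖ ^ 3 ≤ ε / ‖μ‖ ^ 3 := by gcongr
        _ = 1 / ‖μ‖ ^ 3 * ε := by ring
        _ ≤ κ * ε := mul_le_mul_of_nonneg_right hκ3 hε0
    have hu : ∀ i j, ∃ u ∉ Lam τ, wp 1 τ u = θ' (Sum.inr (i, j, false)) / μ ^ 2 ∧
        wpd τ u = θ' (Sum.inr (i, j, true)) / μ ^ 3 ∧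
        ‖u - b j * x i‖ ≤ CL i j * ‖θ' (Sum.inr (i, j, false)) / μ ^ 2 - wp 1 τ (b j * x i)‖ := by
      intro i j
      have hke : κ * ε ≤ eL i j := (mul_le_mul_of_nonneg_left hε hκ0.le).trans (hηe i j)
      apply hLo i j
      · exact (hxc i j).trans hke
      · exact (hyc i j).trans hke
      · have h1 := hP _ (Or.inr (Or.inr ⟨i, j, rfl⟩))
        rw [EQ_aeval, g2, g3] at h1
        have := hN.mu
        field_simp
        linear_combination h1
    choose u huL hux huy huc using hu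
    refine ⟨u, ?_, ?_⟩
    · funext k
      rcases k with q | ⟨i, j, c⟩
      · fin_cases q
        · exact (pt0 τ μ u).trans g2.symm
        · exact (pt1 τ μ u).trans g3.symm
      · cases c
        · rw [ptx]
          unfold xe
          rw [hux]
          have := hN.mu
          field_simp
        · rw [pty]
          unfold ye
          rw [huy]
          have := hN.mu
          field_simp
    · intro i j
      refine (huc i j).trans ?_
      have h1 : CL i j * ‖θ' (Sum.inr (i, j, false)) / μ ^ 2 - wp 1 τ (b j * x i)‖ ≤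
          CL i j * (κ * ε) :=
        mul_le_mul_of_nonneg_left (hxc i j) (by have := hCL i j; linarith)
      refine h1.trans ?_
      rw [← mul_assoc]
      apply mul_le_mul_of_nonneg_right _ hε0
      have h2 : CL i j * κ ≤ ∑ i, ∑ j, CL i j * κ := by
        refine (Finset.single_le_sum (f := fun j => CL i j * κ) (fun j _ => ?_)
          (Finset.mem_univ j)).trans
          (Finset.single_le_sum (f := fun i => ∑ j, CL i j * κ) (fun i _ => ?_)
            (Finset.mem_univ i))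
        · have := hCL i j; positivity
        · exact Finset.sum_nonneg fun j _ => by have := hCL i j; positivity
      linarith

end CritE

theorem CritE_pf (hTree : S_Tree) (hTV : S_TrueVal) (hZ : S_ZUp) (hPE : S_PEval) (hTr : S_TrExt)
    (hLI : S_LocInv) (hCrit : S_Crit) (hTen : S_Tensor) : S_CritE := by
  intro m n G hm hn hG τ μ b x hN hNT htr
  have hθ := hTr τ μ n m (m - 2) b x hN hNT htr
  set θ : VI n m → ℂ := ptE τ μ (fun i j => b j * x i) with hθdef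
  obtain ⟨C0, hC01, hC0⟩ := hCrit (VI n m) (m - 2) θ hθ
  obtain ⟨C1, K1, hC11, hT1⟩ := hTree n m hn
  obtain ⟨C2, hC21, hC2⟩ := hZ τ μ hN.im hN.mu n m θ
  obtain ⟨S, C3, η, hC31, hη0, hSv, hlift⟩ := CritE.lift (b := b) (x := x) hN hNT hLI
  obtain ⟨η4, hη4, hgood⟩ := CritE.near_good hN.im hNT K1
  obtain ⟨KS, hKS⟩ := CritE.fin_bd S
  set K : ℝ := G * m * (C1 + 1) + 1 with hK
  have hK1 : 1 ≤ K := by
    have : 0 ≤ (G : ℝ) * m * (C1 + 1) := by positivity
    linarith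
  have hA0 : 0 ≤ 2 * (G * m * (C2 * (C1 + 1))) := by positivity
  have hB0 : 0 ≤ 4 * C0 * (2 * K) ^ (m - 1) := by positivity
  set C : ℝ := 2 * (G * m * (C2 * (C1 + 1))) + 4 * C0 * (2 * K) ^ (m - 1) + 1 with hC
  have hC1' : 1 ≤ C := by linarith
  refine ⟨C, ⌈1 + KS + 1 / η + 1 / η4 + C3⌉₊, hC1', ?_⟩
  intro T hT W h U hW hh hU p hp0 hpb hsm
  have hTr1 : 1 + KS + 1 / η + 1 / η4 + C3 ≤ (T : ℝ) := (Nat.le_ceil _).trans (by exact_mod_cast hT)
  have hKS0 : (0 : ℝ) ≤ KS := Nat.cast_nonneg _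
  have hη' : 0 < 1 / η := by positivity
  have hη4' : 0 < 1 / η4 := by positivity
  have hT1r : (1 : ℝ) ≤ T := by linarith
  have hT1n : 1 ≤ T := by exact_mod_cast hT1r
  have hWr : (1 : ℝ) ≤ W := by exact_mod_cast hW
  have hT11 : (1 : ℝ) ≤ (T : ℝ) ^ 11 := one_le_pow₀ hT1r
  have hT10 : (1 : ℝ) ≤ (T : ℝ) ^ 10 := one_le_pow₀ hT1r
  have hTT : (T : ℝ) ≤ (T : ℝ) ^ 11 := by
    calc (T : ℝ) = (T : ℝ) ^ 1 := (pow_one _).symm
      _ ≤ (T : ℝ) ^ 11 := pow_le_pow_right₀ hT1r (by norm_num)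
  have hTT10 : (T : ℝ) ^ 10 ≤ (T : ℝ) ^ 11 := pow_le_pow_right₀ hT1r (by norm_num)
  have hWT : (T : ℝ) ^ 11 ≤ W * (T : ℝ) ^ 11 := by nlinarith
  set N : ℝ := W * (T : ℝ) ^ 11 + h with hNN
  have hTN : (T : ℝ) ≤ N := by linarith
  have hN1 : 1 ≤ N := by linarith
  have hN0 : 0 < N := by linarith
  have hNp : 1 ≤ N ^ (m - 1) := one_le_pow₀ hN1
  have hNNp : N ≤ N ^ (m - 1) := by
    calc N = N ^ 1 := (pow_one _).symm
      _ ≤ N ^ (m - 1) := pow_le_pow_right₀ hN1 (by omega)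
  set X : ℕ := ⌈K * N⌉₊ with hX
  have hXlo : K * N ≤ X := Nat.le_ceil _
  have hKN : 1 ≤ K * N := by nlinarith
  have hXhi : (X : ℝ) ≤ 2 * K * N := by
    have := (Nat.ceil_lt_add_one (a := K * N) (by linarith)).le
    linarith
  have hNX : N ≤ X := by nlinarith
  have hX1r : (1 : ℝ) ≤ X := by linarith
  have hX1 : 1 ≤ X := by exact_mod_cast hX1r
  have hX0 : (0 : ℝ) < X := by linarith
  have hm1 : m - 2 + 1 = m - 1 := by omega
  have hU0 : 0 < U := by
    have : 0 < C * N ^ (m - 1) := by positivity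
    linarith
  have hCr : C0 * (X : ℝ) ^ (m - 2 + 1) ≤ U / 2 := by
    rw [hm1]
    have h1 : (X : ℝ) ^ (m - 1) ≤ (2 * K * N) ^ (m - 1) := pow_le_pow_left₀ hX0.le hXhi _
    rw [mul_pow] at h1
    have h2 : C0 * (X : ℝ) ^ (m - 1) ≤ C0 * ((2 * K) ^ (m - 1) * N ^ (m - 1)) :=
      mul_le_mul_of_nonneg_left h1 (by linarith)
    have h3 : 4 * C0 * (2 * K) ^ (m - 1) * N ^ (m - 1) ≤ C * N ^ (m - 1) := by
      apply mul_le_mul_of_nonneg_right _ (by linarith)
      linarith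
    have h4 : 0 ≤ C0 * ((2 * K) ^ (m - 1) * N ^ (m - 1)) := by positivity
    nlinarith
  -- the set of polynomials
  let PP : Set (MvPolynomial (VI n m) ℤ) := {P | P ∈ S ∨
    ∃ (s : Fin G → Fin n → ℤ) (V : Fin G → Fin m → Tri n m),
      (∀ r, s r ≠ 0 ∧ ∀ i, 0 ≤ s r i ∧ s r i ≤ (T : ℤ)) ∧ (∀ r j, VP j (s r) (V r j)) ∧
      (∀ r j, Siz (C1 * T ^ 10) (V r j)) ∧ P = PE p V}
  have hh1 : (0 : ℝ) ≤ C1 * (T : ℝ) ^ 10 := by positivity
  have hPP : ∀ P ∈ PP, P.totalDegree ≤ X ∧ len P ≤ Real.exp X ∧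
      ‖aeval θ P‖ ≤ Real.exp (-(U / 2)) := by
    intro P hP
    rcases hP with hP | ⟨s, V, hs, hVP, hVs, rfl⟩
    · obtain ⟨h1, h2⟩ := hKS P hP
      have h3 : (KS : ℝ) ≤ X := by linarith
      refine ⟨h1.trans (by exact_mod_cast h3), h2.trans (Real.exp_le_exp.2 h3), ?_⟩
      rw [hSv P hP, norm_zero]
      exact (Real.exp_pos _).le
    · have hval : ∀ r j, Val τ μ θ (b j * cmb (s r) x) (V r j) := fun r j =>
        hTV τ μ hN.im hN.mu n m b x hNT j (s r) (V r j) (hVP r j)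
      have hsz := (hPE n m G W p V).2 (C1 * T ^ 10) h hh1 (by linarith) hVs hpb
      have h5 : (W : ℝ) * (C1 * (T : ℝ) ^ 10 + 1) ≤ (C1 + 1) * (W * (T : ℝ) ^ 11) := by
        have h6 : C1 * (T : ℝ) ^ 10 + 1 ≤ (C1 + 1) * (T : ℝ) ^ 11 := by nlinarith
        nlinarith
      have h5' : (G : ℝ) * m * W * (C1 * (T : ℝ) ^ 10 + 1) ≤
          G * m * (C1 + 1) * (W * (T : ℝ) ^ 11) := by
        have h6 : (0 : ℝ) ≤ (G : ℝ) * m := by positivity
        nlinarith
      have h7 : (G : ℝ) * m * W * (C1 * (T : ℝ) ^ 10 + 1) + h ≤ X := by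
        refine le_trans ?_ hXlo
        have h8 : (0 : ℝ) ≤ (G : ℝ) * m * (C1 + 1) := by positivity
        rw [hK, hNN]
        nlinarith
      refine ⟨?_, ?_, ?_⟩
      · have := hsz.1.trans h7
        exact_mod_cast this
      · exact hsz.2.trans (Real.exp_le_exp.2 h7)
      · refine (CritE.true_bd hh1 hC2 hPE p V b (fun r => cmb (s r) x) hval hVs).trans ?_
        have h9 := hsm s hs
        calc Real.exp (G * m * W * (C2 * (C1 * (T : ℝ) ^ 10 + 1))) *
              (‖AF τ μ b p (fun r => cmb (s r) x)‖ *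
                ∏ r, ∏ j, d1 τ (b j * cmb (s r) x) ^ (2 * W))
            ≤ Real.exp (G * m * W * (C2 * (C1 * (T : ℝ) ^ 10 + 1))) * Real.exp (-U) :=
              mul_le_mul_of_nonneg_left h9 (Real.exp_pos _).le
          _ = Real.exp (G * m * W * (C2 * (C1 * (T : ℝ) ^ 10 + 1)) + -U) := by rw [Real.exp_add]
          _ ≤ Real.exp (-(U / 2)) := by
              apply Real.exp_le_exp.2
              have h10 : (G : ℝ) * m * W * (C2 * (C1 * (T : ℝ) ^ 10 + 1)) ≤
                  G * m * (C2 * (C1 + 1)) * N := by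
                have h11 : (W : ℝ) * (T : ℝ) ^ 11 ≤ N := by linarith
                calc (G : ℝ) * m * W * (C2 * (C1 * (T : ℝ) ^ 10 + 1))
                    = C2 * (G * m * W * (C1 * (T : ℝ) ^ 10 + 1)) := by ring
                  _ ≤ C2 * (G * m * (C1 + 1) * (W * (T : ℝ) ^ 11)) :=
                      mul_le_mul_of_nonneg_left h5' (by linarith)
                  _ ≤ C2 * (G * m * (C1 + 1) * N) := by
                      apply mul_le_mul_of_nonneg_left _ (by linarith)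
                      exact mul_le_mul_of_nonneg_left h11 (by positivity)
                  _ = _ := by ring
              have h12 : G * m * (C2 * (C1 + 1)) * N ≤ G * m * (C2 * (C1 + 1)) * N ^ (m - 1) :=
                mul_le_mul_of_nonneg_left hNNp (by positivity)
              have h13 : 2 * (G * m * (C2 * (C1 + 1))) * N ^ (m - 1) ≤ C * N ^ (m - 1) := by
                apply mul_le_mul_of_nonneg_right _ (by linarith)
                linarith
              nlinarith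
  obtain ⟨θ', hz, hclose⟩ := hC0 X (U / 2) hX1 hCr PP hPP
  -- the size of the error
  set R : ℝ := (U / 2) / (C0 * (X : ℝ) ^ (m - 2)) with hR
  have hRe : -(U / 2) / (C0 * (X : ℝ) ^ (m - 2)) = -R := by rw [hR, neg_div]
  rw [hRe] at hclose
  have hNm : 0 < N ^ (m - 2) := by positivity
  have hXm : 0 < (X : ℝ) ^ (m - 2) := by positivity
  have hC0p : 0 < C0 := by linarith
  have hCp : 0 < C := by linarith
  set Q : ℝ := U / N ^ (m - 2) with hQ
  have hQC : N ≤ Q / C := by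
    rw [le_div_iff₀ hCp, hQ, le_div_iff₀ hNm]
    have : N ^ (m - 1) = N ^ (m - 2) * N := by rw [← hm1, pow_succ]
    rw [this] at hU
    linarith
  have hRQ : 2 * (Q / C) ≤ R := by
    rw [hR, le_div_iff₀ (by positivity), hQ]
    have h1 : (X : ℝ) ^ (m - 2) ≤ (2 * K) ^ (m - 2) * N ^ (m - 2) := by
      rw [← mul_pow]
      exact pow_le_pow_left₀ hX0.le hXhi _
    have h2 : (2 * K) ^ (m - 2) ≤ (2 * K) ^ (m - 1) := pow_le_pow_right₀ (by linarith) (by omega)
    have h3 : 4 * C0 * (2 * K) ^ (m - 2) ≤ C := by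
      have : 4 * C0 * (2 * K) ^ (m - 2) ≤ 4 * C0 * (2 * K) ^ (m - 1) :=
        mul_le_mul_of_nonneg_left h2 (by linarith)
      linarith
    have h4 : C0 * (X : ℝ) ^ (m - 2) ≤ C0 * ((2 * K) ^ (m - 2) * N ^ (m - 2)) :=
      mul_le_mul_of_nonneg_left h1 hC0p.le
    have h5 : 4 * (C0 * (X : ℝ) ^ (m - 2)) ≤ C * N ^ (m - 2) := by
      calc 4 * (C0 * (X : ℝ) ^ (m - 2)) ≤ 4 * (C0 * ((2 * K) ^ (m - 2) * N ^ (m - 2))) := by
            linarith
        _ = (4 * C0 * (2 * K) ^ (m - 2)) * N ^ (m - 2) := by ring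
        _ ≤ C * N ^ (m - 2) := mul_le_mul_of_nonneg_right h3 hNm.le
    have h6 : 2 * (U / N ^ (m - 2) / C) * (C0 * (X : ℝ) ^ (m - 2)) =
        (U / 2) * ((4 * (C0 * (X : ℝ) ^ (m - 2))) / (C * N ^ (m - 2))) := by
      field_simp
      ring
    rw [h6]
    have h7 : (4 * (C0 * (X : ℝ) ^ (m - 2))) / (C * N ^ (m - 2)) ≤ 1 :=
      (div_le_one (by positivity)).2 h5
    calc (U / 2) * ((4 * (C0 * (X : ℝ) ^ (m - 2))) / (C * N ^ (m - 2))) ≤ (U / 2) * 1 :=
          mul_le_mul_of_nonneg_left h7 (by linarith)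
      _ = U / 2 := mul_one _
  have hε1 : Real.exp (-R) ≤ η := by
    have h1 : Real.exp (-R) ≤ Real.exp (-(T : ℝ)) := Real.exp_le_exp.2 (by linarith)
    exact h1.trans (CritE.small hη0 (by linarith))
  have hε2 : C3 * Real.exp (-R) ≤ Real.exp (-(Q / C)) := by
    have h1 : C3 ≤ Real.exp T := by
      have := Real.add_one_le_exp (T : ℝ)
      linarith
    calc C3 * Real.exp (-R) ≤ Real.exp T * Real.exp (-R) :=
          mul_le_mul_of_nonneg_right h1 (Real.exp_pos _).le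
      _ = Real.exp (T + -R) := by rw [Real.exp_add]
      _ ≤ Real.exp (-(Q / C)) := Real.exp_le_exp.2 (by linarith)
  obtain ⟨u, hu, huc⟩ := hlift θ' (Real.exp (-R)) hε1 (fun P hP => hz P (Or.inl hP)) hclose
  have huc2 : ∀ i j, ‖u i j - b j * x i‖ ≤ Real.exp (-(Q / C)) := fun i j =>
    (huc i j).trans hε2
  have huc4 : ∀ i j, ‖u i j - b j * x i‖ ≤ η4 := by
    intro i j
    refine (huc2 i j).trans ?_
    have h1 : Real.exp (-(Q / C)) ≤ Real.exp (-(T : ℝ)) := Real.exp_le_exp.2 (by linarith)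
    exact h1.trans (CritE.small hη4 (by linarith))
  have hgd := hgood u huc4
  -- the tensor argument
  have hpC : (fun a => (p a : ℂ)) ≠ 0 := by
    intro h0
    apply hp0
    funext a
    have := congrFun h0 a
    simpa using this
  have hj0 : 0 < m := by omega
  have hs0 : ∀ s : Fin n → ℤ, (∀ j, pc u s j ∉ Lam τ) → s ≠ 0 := by
    intro s hs h0
    apply hs ⟨0, hj0⟩
    rw [h0]
    have : pc u (0 : Fin n → ℤ) ⟨0, hj0⟩ = 0 := by simp [pc]
    rw [this, mem_Lam]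
    exact ⟨0, 0, by simp⟩
  obtain ⟨r, hr0, hr⟩ := hTen (Fin m → Fin W)
    {s : Fin n → ℤ // (∀ i, 0 ≤ s i ∧ s i ≤ (T : ℤ)) ∧ ∀ j, pc u s j ∉ Lam τ} G
    (fun a s => ∏ j, xe τ μ (pc u s.1 j) ^ (a j : ℕ)) (fun a => (p a : ℂ)) hpC (by
      intro y
      have hV : ∀ r j, ∃ V : Tri n m, VP j (y r).1 V ∧
          Val τ μ (ptE τ μ u) (pc u (y r).1 j) V ∧ Siz (C1 * T ^ 10) V := by
        intro r j
        refine hT1 τ μ hN.im hN.mu j u (fun s hs hsK => hgd s hs hsK j) T (y r).1 hT1n ?_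
          ((y r).2.2 j)
        intro i
        obtain ⟨h1, h2⟩ := (y r).2.1 i
        rw [abs_of_nonneg h1]
        exact h2
      choose V hVP hVv hVs using hV
      have h0 : aeval θ' (PE p V) = 0 := by
        apply hz
        refine Or.inr ⟨fun r => (y r).1, V, ?_, hVP, hVs, rfl⟩
        intro r
        exact ⟨hs0 _ (y r).2.2, (y r).2.1⟩
      rw [← hu, (hPE n m G W p V).1 τ μ (ptE τ μ u) (fun r j => pc u (y r).1 j) hVv] at h0
      rcases mul_eq_zero.1 h0 with h1 | h1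
      · exfalso
        rw [Finset.prod_eq_zero_iff] at h1
        obtain ⟨r, _, h1⟩ := h1
        rw [Finset.prod_eq_zero_iff] at h1
        obtain ⟨j, _, h1⟩ := h1
        exact (pow_ne_zero _ (hVv r j).z0) h1
      · exact h1)
  obtain ⟨F, hF0, hFd, hFv⟩ := CritE.mkF hW hN.mu r hr0
  refine ⟨u, F, ?_, hF0, hFd, ?_⟩
  · intro i j
    refine (huc2 i j).trans (le_of_eq ?_)
    congr 1
    rw [hQ]
    field_simp
  · intro s hs hsL
    rw [hFv]
    exact hr ⟨s, hs, hsL⟩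

end Pool.Agent.Work.MP_8da9ea_nt.EB
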