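import Pool.Agent.Work.MP_8da9ea_nt.EB.StmtsT
import Pool.Agent.Work.MP_8da9ea_nt.Bd.B04

/-! Item LMk of the block EB. -/

set_option autoImplicit false

namespace Pool.Agent.Work.MP_8da9ea_nt.EB

open MvPolynomial Pool.Agent.Work.MP_327059_nt.GL Pool.Agent.Work.MP_8da9ea_nt.S

theorem I_LMk.main {k : ℕ} (Q : ℕ) (b : Fin k → ℂ) (hFT : FT Q b) (c : ℕ) (K : ℝ) (hK : 1 ≤ K) :
    ∃ T₀ : ℕ, ∀ T : ℕ, T₀ ≤ T → ∀ P : MvPolynomial (Fin k) ℤ, P.totalDegree ≤ 2 →
      len P ≤ K * (T : ℝ) ^ c → aeval b P ≠ 0 → Real.exp (-(T : ℝ)) ≤ ‖aeval b P‖ := by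
  obtain ⟨C, hC, h⟩ := hFT
  have hlK : 0 ≤ Real.log K := Real.log_nonneg hK
  have hc0 : (0 : ℝ) ≤ c := by positivity
  obtain ⟨T₀, hT₀⟩ := FTLM_lim Q C (2 + Real.log K + c) hC (by linarith)
  refine ⟨max T₀ 3, fun T hT P hdeg hlen hne => ?_⟩
  have hT3 : 3 ≤ T := (le_max_right _ _).trans hT
  have hT3' : (3 : ℝ) ≤ T := by exact_mod_cast hT3
  have hTpos : (0 : ℝ) < T := by linarith
  have hlog1 : 1 ≤ Real.log T := by
    rw [Real.le_log_iff_exp_le hTpos]
    have := Real.exp_one_lt_d9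
    linarith
  have hlim := hT₀ T ((le_max_left _ _).trans hT)
  set t : ℝ := 2 + Real.log K + c * Real.log T with ht
  have h2 : 0 ≤ (c : ℝ) * Real.log T := mul_nonneg hc0 (by linarith)
  have ht1 : 1 ≤ t := by linarith
  have htK : t ≤ (2 + Real.log K + c) * Real.log T := by
    have e1 : 2 + Real.log K ≤ (2 + Real.log K) * Real.log T :=
      le_mul_of_one_le_right (by linarith) hlog1
    rw [ht]
    nlinarith
  have key := h P t ht1 (by
    have : (P.totalDegree : ℝ) ≤ 2 := by exact_mod_cast hdeg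
    linarith) (by
    refine hlen.trans ?_
    have hTc : (0 : ℝ) < (T : ℝ) ^ c := by positivity
    have hKp : 0 < K := by linarith
    have e1 : Real.exp t = Real.exp 2 * K * (T : ℝ) ^ c := by
      rw [ht, Real.exp_add, Real.exp_add, Real.exp_log hKp, ← Real.log_pow, Real.exp_log hTc]
    rw [e1]
    have e2 : (1 : ℝ) ≤ Real.exp 2 := Real.one_le_exp (by norm_num)
    have e3 : K ≤ Real.exp 2 * K := le_mul_of_one_le_left hKp.le e2
    exact mul_le_mul_of_nonneg_right e3 hTc.le) hne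
  refine le_trans ?_ key
  apply Real.exp_le_exp.mpr
  apply neg_le_neg
  refine le_trans ?_ hlim
  apply mul_le_mul_of_nonneg_left _ (by linarith)
  exact pow_le_pow_left₀ (by linarith) htK Q

/-- Bounds for the coordinates. -/
theorem I_LMk.coord (τ : ℂ) (him : 0 < τ.im) (p q : ℤ) (w : ℂ) (hw : w = p + q * τ) :
    |(p : ℝ)| + |(q : ℝ)| ≤ (1 + ‖τ‖ / τ.im + 1 / τ.im) * ‖w‖ := by
  have h1 : w.im = q * τ.im := by
    rw [hw]
    simp
  have h2 : |(q : ℝ)| * τ.im ≤ ‖w‖ := by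
    have h3 : |w.im| ≤ ‖w‖ := Complex.abs_im_le_norm w
    rw [h1, abs_mul, abs_of_pos him] at h3
    exact h3
  have h4 : |(q : ℝ)| ≤ 1 / τ.im * ‖w‖ := by
    rw [one_div, inv_mul_eq_div, le_div_iff₀ him]
    exact h2
  have h5 : |(p : ℝ)| ≤ ‖w‖ + |(q : ℝ)| * ‖τ‖ := by
    have h6 : ((p : ℝ) : ℂ) = w - q * τ := by
      rw [hw]
      push_cast
      ring
    have h7 : ‖((p : ℝ) : ℂ)‖ ≤ ‖w‖ + ‖(q : ℂ) * τ‖ := by
      rw [h6]
      exact norm_sub_le _ _
    rw [Complex.norm_real, Real.norm_eq_abs, norm_mul] at h7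
    have h8 : ‖(q : ℂ)‖ = |(q : ℝ)| := by
      rw [← Complex.ofReal_intCast, Complex.norm_real, Real.norm_eq_abs]
    rw [h8] at h7
    exact h7
  have h9 : |(q : ℝ)| * ‖τ‖ ≤ 1 / τ.im * ‖w‖ * ‖τ‖ :=
    mul_le_mul_of_nonneg_right h4 (norm_nonneg _)
  have h10 : (1 + ‖τ‖ / τ.im + 1 / τ.im) * ‖w‖ =
      ‖w‖ + 1 / τ.im * ‖w‖ * ‖τ‖ + 1 / τ.im * ‖w‖ := by ring
  rw [h10]
  linarith

/-- The polynomial in the case of an algebraic `τ`. -/
noncomputable def I_LMk.PA {m : ℕ} (p q : Fin m → ℤ) : MvPolynomial (Fin (m + 1)) ℤ :=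
  ∑ j, (C (p j) + C (q j) * X (Fin.natAdd m 0)) * X (Fin.castAdd 1 j)

theorem I_LMk.PA_eval {m : ℕ} (p q : Fin m → ℤ) (b : Fin m → ℂ) (τ : ℂ) :
    aeval (Fin.append b (fun _ : Fin 1 => τ)) (I_LMk.PA p q) =
      ∑ j, ((p j : ℂ) + (q j : ℂ) * τ) * b j := by
  unfold I_LMk.PA
  rw [map_sum]
  refine Finset.sum_congr rfl fun j _ => ?_
  rw [map_mul, map_add, map_mul, aeval_X, aeval_X, aeval_C, aeval_C, Fin.append_left,
    Fin.append_right]
  simp

theorem I_LMk.PA_deg {m : ℕ} (p q : Fin m → ℤ) : (I_LMk.PA p q).totalDegree ≤ 2 := by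
  unfold I_LMk.PA
  refine totalDegree_finsetSum_le fun j _ => ?_
  refine (totalDegree_mul _ _).trans ?_
  have h1 : (C (p j) + C (q j) * X (Fin.natAdd m 0) :
      MvPolynomial (Fin (m + 1)) ℤ).totalDegree ≤ 1 := by
    refine (totalDegree_add _ _).trans (max_le ?_ ?_)
    · rw [totalDegree_C]
      exact Nat.zero_le _
    · refine (totalDegree_mul _ _).trans ?_
      rw [totalDegree_C, totalDegree_X]
  rw [totalDegree_X]
  omega

theorem I_LMk.PA_len {m : ℕ} (p q : Fin m → ℤ) (B : ℝ)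
    (hB : ∀ j, |(p j : ℝ)| + |(q j : ℝ)| ≤ B) : len (I_LMk.PA p q) ≤ m * B := by
  unfold I_LMk.PA
  refine (Val_len_sum Finset.univ _).trans ?_
  have h2 : ∀ j ∈ (Finset.univ : Finset (Fin m)),
      len ((C (p j) + C (q j) * X (Fin.natAdd m 0)) * X (Fin.castAdd 1 j) :
        MvPolynomial (Fin (m + 1)) ℤ) ≤ B := by
    intro j _
    refine (Val_len_mul _ _).trans ?_
    have e1 : len (C (p j) + C (q j) * X (Fin.natAdd m 0) : MvPolynomial (Fin (m + 1)) ℤ) ≤
        |(p j : ℝ)| + |(q j : ℝ)| := by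
      refine (Val_len_add _ _).trans (add_le_add (Val_len_C _) ?_)
      refine (Val_len_mul _ _).trans ?_
      calc len (C (q j) : MvPolynomial (Fin (m + 1)) ℤ) *
            len (X (Fin.natAdd m 0) : MvPolynomial (Fin (m + 1)) ℤ)
          ≤ |(q j : ℝ)| * 1 :=
            mul_le_mul (Val_len_C _) (Val_len_X _) (Val_len_nonneg _) (abs_nonneg _)
        _ = |(q j : ℝ)| := mul_one _
    have e2 := Val_len_X (σ := Fin (m + 1)) (Fin.castAdd 1 j)
    have e3 := Val_len_nonneg (X (Fin.castAdd 1 j) : MvPolynomial (Fin (m + 1)) ℤ)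
    have e4 : 0 ≤ |(p j : ℝ)| + |(q j : ℝ)| := by positivity
    refine (mul_le_mul e1 e2 e3 e4).trans ?_
    rw [mul_one]
    exact hB j
  refine (Finset.sum_le_sum h2).trans ?_
  rw [Finset.sum_const, Finset.card_univ, Fintype.card_fin, nsmul_eq_mul]

/-- If `τ` is transcendental, the integral endomorphisms are integers. -/
theorem I_LMk.trans_int (τ : ℂ) (hτ : ¬ IsAlgebraic ℚ τ) (p q : ℤ)
    (h : ((p : ℂ) + q * τ) * τ ∈ Lam τ) : q = 0 := by
  obtain ⟨p', q', hpq⟩ := mem_Lam.mp h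
  by_contra hq
  apply hτ
  refine ⟨Polynomial.C (q : ℚ) * Polynomial.X ^ 2 + Polynomial.C ((p : ℚ) - q') * Polynomial.X -
    Polynomial.C (p' : ℚ), ?_, ?_⟩
  · intro h0
    have h1 : (Polynomial.C (q : ℚ) * Polynomial.X ^ 2 + Polynomial.C ((p : ℚ) - q') *
        Polynomial.X - Polynomial.C (p' : ℚ)).coeff 2 = (0 : Polynomial ℚ).coeff 2 := by
      rw [h0]
    rw [Polynomial.coeff_sub, Polynomial.coeff_add, Polynomial.coeff_C_mul,
      Polynomial.coeff_C_mul, Polynomial.coeff_X_pow, Polynomial.coeff_X, Polynomial.coeff_C,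
      Polynomial.coeff_zero, if_pos rfl, if_neg (by norm_num), if_neg (by norm_num)] at h1
    have h2 : (q : ℚ) = 0 := by linarith
    exact hq (by exact_mod_cast h2)
  · simp only [map_sub, map_add, map_mul, map_pow, Polynomial.aeval_C, Polynomial.aeval_X,
      eq_ratCast, Rat.cast_intCast]
    linear_combination hpq

theorem LMk_pf (h1 : S_FText) : S_LMk := by
  intro Q m τ b him hFT hKLI c
  set L : ℝ := 1 + ‖τ‖ / τ.im + 1 / τ.im with hL
  have hL1 : 1 ≤ L := by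
    have e1 : 0 ≤ ‖τ‖ / τ.im := div_nonneg (norm_nonneg _) him.le
    have e2 : 0 ≤ 1 / τ.im := div_nonneg zero_le_one him.le
    rw [hL]
    linarith
  have hK : 1 ≤ ((m : ℝ) + 1) * L := by
    have : (0 : ℝ) ≤ m := Nat.cast_nonneg m
    nlinarith
  have hne : ∀ w : Fin m → ℂ, w ≠ 0 → (∀ j, IsI τ (w j)) → ∑ j, w j * b j ≠ 0 := by
    intro w hw hI h0
    apply hw
    refine hKLI w (fun j => ⟨1, one_ne_zero, ?_, ?_⟩) h0
    · rw [Int.cast_one, one_mul]
      exact (hI j).1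
    · rw [Int.cast_one, one_mul]
      exact (hI j).2
  have hmB : ∀ T : ℕ, (m : ℝ) * (L * (T : ℝ) ^ c) ≤ ((m : ℝ) + 1) * L * (T : ℝ) ^ c := by
    intro T
    have e1 : 0 ≤ L * (T : ℝ) ^ c := by positivity
    nlinarith
  by_cases hτ : IsAlgebraic ℚ τ
  · have hFT2 := h1 Q m 1 b (fun _ => τ) hFT (fun _ => hτ)
    obtain ⟨T₀, hT₀⟩ := I_LMk.main (Q + 1) _ hFT2 c (((m : ℝ) + 1) * L) hK
    refine ⟨T₀, fun T hT w hw hI hb => ?_⟩
    choose p q hpq using fun j => mem_Lam.mp (hI j).1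
    have hev : aeval (Fin.append b (fun _ : Fin 1 => τ)) (I_LMk.PA p q) = ∑ j, w j * b j := by
      rw [I_LMk.PA_eval]
      refine Finset.sum_congr rfl fun j _ => ?_
      rw [hpq j]
    rw [← hev]
    apply hT₀ T hT _ (I_LMk.PA_deg p q)
    · refine (I_LMk.PA_len p q (L * (T : ℝ) ^ c) (fun j => ?_)).trans (hmB T)
      refine (I_LMk.coord τ him (p j) (q j) (w j) (hpq j)).trans ?_
      apply mul_le_mul_of_nonneg_left _ (by linarith)
      refine (hb j).trans ?_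
      push_cast
      exact le_rfl
    · rw [hev]
      exact hne w hw hI
  · obtain ⟨T₀, hT₀⟩ := I_LMk.main Q b hFT c (((m : ℝ) + 1) * L) hK
    refine ⟨T₀, fun T hT w hw hI hb => ?_⟩
    choose p q hpq using fun j => mem_Lam.mp (hI j).1
    have hq : ∀ j, q j = 0 := by
      intro j
      apply I_LMk.trans_int τ hτ (p j) (q j)
      rw [← hpq j]
      exact (hI j).2
    have hev : aeval b (FTLM_P p) = ∑ j, w j * b j := by
      rw [FTLM_aeval]
      refine Finset.sum_congr rfl fun j _ => ?_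
      rw [hpq j, hq j]
      simp
    rw [← hev]
    apply hT₀ T hT _ ((FTLM_deg p).trans (by norm_num))
    · refine (FTLM_len p (L * (T : ℝ) ^ c) (fun j => ?_)).trans (hmB T)
      have h3 := I_LMk.coord τ him (p j) (q j) (w j) (hpq j)
      have h4 : |(p j : ℝ)| ≤ |(p j : ℝ)| + |(q j : ℝ)| := by
        have := abs_nonneg (q j : ℝ)
        linarith
      refine h4.trans (h3.trans ?_)
      apply mul_le_mul_of_nonneg_left _ (by linarith)
      refine (hb j).trans ?_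
      push_cast
      exact le_rfl
    · rw [hev]
      exact hne w hw hI

end Pool.Agent.Work.MP_8da9ea_nt.EB
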