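import Pool.Agent.Work.MP_8da9ea_nt.EB.StmtsT

/-!
# Item TIE of the elliptic block
-/

set_option autoImplicit false

namespace Pool.Agent.Work.MP_8da9ea_nt.EB

open MvPolynomial Metric Filter Topology Pool.Agent.Work.MP_327059_nt.GL
  Pool.Agent.Work.MP_8da9ea_nt.S

namespace I_TIE

lemma norm_cmb_le {n : ℕ} (x : Fin n → ℂ) (s : Fin n → ℤ) (T : ℕ)
    (hs : ∀ i, 0 ≤ s i ∧ s i ≤ (T : ℤ)) : ‖cmb s x‖ ≤ (1 + ∑ i, ‖x i‖) * T := by
  have h1 : ‖cmb s x‖ ≤ ∑ i, (T : ℝ) * ‖x i‖ := by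
    unfold cmb
    refine (norm_sum_le _ _).trans (Finset.sum_le_sum fun i _ => ?_)
    rw [norm_mul]
    refine mul_le_mul_of_nonneg_right ?_ (norm_nonneg _)
    rw [Complex.norm_intCast]
    have h0 : (0 : ℝ) ≤ (s i : ℝ) := by exact_mod_cast (hs i).1
    have h2 : (s i : ℝ) ≤ (T : ℝ) := by exact_mod_cast (hs i).2
    rw [abs_of_nonneg h0]
    exact h2
  rw [← Finset.mul_sum] at h1
  have h3 : (0 : ℝ) ≤ (T : ℝ) := Nat.cast_nonneg _
  nlinarith

lemma arith (Q' q m : ℕ) (hm : 2 ≤ m) (C B T : ℝ) (hC : 1 ≤ C) (hB : 1 ≤ B)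
    (hT2 : 2 ≤ T) (hTC : C ≤ T) (hTB : B < T) :
    C * (T ^ q * T ^ 11 + T ^ (q + 4)) ^ (m - 1) ≤ T ^ ((q + 12) * (m - 1) + (3 * Q' + 4)) ∧
    B * T ^ (3 * Q') + T < T ^ ((q + 12) * (m - 1) + (3 * Q' + 4)) /
      (C * (T ^ q * T ^ 11 + T ^ (q + 4)) ^ (m - 2)) := by
  have hT1 : 1 ≤ T := by linarith
  have hT0 : 0 < T := by linarith
  set A := T ^ q * T ^ 11 + T ^ (q + 4) with hA
  have hA1 : 1 ≤ A := by
    have := one_le_pow₀ hT1 (n := q + 4)
    have h2 : 0 < T ^ q * T ^ 11 := by positivity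
    linarith
  have hA2 : A ≤ T ^ (q + 12) := by
    have h1 : T ^ (q + 4) ≤ T ^ (q + 11) := pow_le_pow_right₀ hT1 (by omega)
    have h2 : T ^ q * T ^ 11 = T ^ (q + 11) := by rw [← pow_add]
    have h3 : T ^ (q + 12) = T ^ (q + 11) * T := by rw [← pow_succ]
    have h4 : 0 < T ^ (q + 11) := by positivity
    rw [hA, h2, h3]
    nlinarith
  have hA3 : A ^ (m - 1) ≤ T ^ ((q + 12) * (m - 1)) := by
    rw [pow_mul]
    exact pow_le_pow_left₀ (by linarith) hA2 _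
  have hA4 : A ^ (m - 2) ≤ T ^ ((q + 12) * (m - 1)) :=
    (pow_le_pow_right₀ hA1 (by omega)).trans hA3
  have hP : 0 < T ^ ((q + 12) * (m - 1)) := by positivity
  have hCT : C ≤ T ^ (3 * Q' + 4) := by
    have h5 : T ^ 1 ≤ T ^ (3 * Q' + 4) := pow_le_pow_right₀ hT1 (by omega)
    rw [pow_one] at h5
    linarith
  constructor
  · calc C * A ^ (m - 1) ≤ T ^ (3 * Q' + 4) * T ^ ((q + 12) * (m - 1)) :=
        mul_le_mul hCT hA3 (by positivity) (by positivity)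
      _ = T ^ ((q + 12) * (m - 1) + (3 * Q' + 4)) := by
          rw [pow_add T ((q + 12) * (m - 1)) (3 * Q' + 4), mul_comm]
  · have hden : 0 < C * A ^ (m - 2) := by positivity
    rw [lt_div_iff₀ hden]
    have hden2 : C * A ^ (m - 2) ≤ T * T ^ ((q + 12) * (m - 1)) :=
      mul_le_mul hTC hA4 (by positivity) (by positivity)
    set y := T ^ (3 * Q') with hy
    have hy1 : 1 ≤ y := one_le_pow₀ hT1
    have hlt : B * y + T < T ^ 3 * y := by
      have h6 : B * y < T * y := mul_lt_mul_of_pos_right hTB (by linarith)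
      have h7 : T ≤ T * y := by nlinarith
      have h8 : T * y + T * y ≤ T ^ 3 * y := by
        have : T ^ 3 * y = (T * y) * (T * T) := by ring
        rw [this]
        have h9 : 4 ≤ T * T := by nlinarith
        have h10 : 0 < T * y := by positivity
        nlinarith
      linarith
    calc (B * y + T) * (C * A ^ (m - 2))
        ≤ (B * y + T) * (T * T ^ ((q + 12) * (m - 1))) :=
          mul_le_mul_of_nonneg_left hden2 (by positivity)
      _ < (T ^ 3 * y) * (T * T ^ ((q + 12) * (m - 1))) :=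
          mul_lt_mul_of_pos_right hlt (by positivity)
      _ = T ^ ((q + 12) * (m - 1) + (3 * Q' + 4)) := by
          rw [hy, pow_add T ((q + 12) * (m - 1)) (3 * Q' + 4), pow_add T (3 * Q') 4]
          ring

end I_TIE

open I_TIE in
theorem TIE_pf (h1 : S_PsiE) (h2 : S_CritE) (h3 : S_NZ) (h4 : S_MeasE) : S_TIE := by
  intro Q m hm
  obtain ⟨Q', n₁, hM⟩ := h4 Q m hm
  obtain ⟨q, hq⟩ := h1 m 12 (3 * Q' + 4) hm
  obtain ⟨n₂, hN⟩ := h3 Q m q (by omega)
  refine ⟨max 2 (max n₁ n₂), ?_⟩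
  intro τ μ b hnrm hFT hKLI n hn x hx hNT hTr
  have hn2 : 2 ≤ n := (le_max_left _ _).trans hn
  have hn1 : n₁ ≤ n := ((le_max_left _ _).trans (le_max_right _ _)).trans hn
  have hn3 : n₂ ≤ n := ((le_max_right _ _).trans (le_max_right _ _)).trans hn
  obtain ⟨B, hB, hMS⟩ := hM τ μ b hnrm hFT hKLI n hn1 x hx hNT hTr
  obtain ⟨C, T₁, hC, hCr⟩ := h2 m n (m + 1) hm hn2 (by omega) τ μ b x hnrm hNT hTr
  have hsum0 : 0 ≤ ∑ i, ‖x i‖ := Finset.sum_nonneg fun i _ => norm_nonneg _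
  obtain ⟨T₂, hPs⟩ := hq q le_rfl τ μ hnrm.im hnrm.mu b (1 + ∑ i, ‖x i‖) (by linarith)
  obtain ⟨T₃, hNZ⟩ := hN τ hnrm.im b hFT hKLI n hn3 x
  obtain ⟨T₄, hT4⟩ := exists_nat_gt (max C B)
  set T := max 2 (max (max T₁ T₂) (max T₃ T₄)) with hTdef
  have hTa : 2 ≤ T := le_max_left _ _
  have hTb : T₁ ≤ T := ((le_max_left _ _).trans (le_max_left _ _)).trans (le_max_right _ _)
  have hTc : T₂ ≤ T := ((le_max_right _ _).trans (le_max_left _ _)).trans (le_max_right _ _)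
  have hTd : T₃ ≤ T := ((le_max_left _ _).trans (le_max_right _ _)).trans (le_max_right _ _)
  have hTe : T₄ ≤ T := ((le_max_right _ _).trans (le_max_right _ _)).trans (le_max_right _ _)
  have hTr2 : (2 : ℝ) ≤ T := by exact_mod_cast hTa
  have hTe' : (T₄ : ℝ) ≤ T := by exact_mod_cast hTe
  have hTC : C ≤ T := ((le_max_left C B).trans hT4.le).trans hTe'
  have hTB : B < T := lt_of_le_of_lt (le_max_right C B) (hT4.trans_le hTe')
  obtain ⟨p, hp0, hpb, hpAF⟩ := hPs T hTc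
  obtain ⟨ar1, ar2⟩ := arith Q' q m hm C B T hC hB hTr2 hTC hTB
  have hW1 : 1 ≤ T ^ q := Nat.one_le_pow _ _ (by omega)
  have hh1 : (1 : ℝ) ≤ (T : ℝ) ^ (q + 4) := one_le_pow₀ (by linarith)
  obtain ⟨u, F, hu, hF0, hFd, hFz⟩ := hCr T hTb (T ^ q) ((T : ℝ) ^ (q + 4))
    ((T : ℝ) ^ ((q + 12) * (m - 1) + (3 * Q' + 4))) hW1 hh1 (by push_cast; exact ar1) p hp0
    (by
      intro y
      have h5 := hpb y
      have h6 : |(p y : ℝ)| ≤ (2 : ℝ) ^ (T ^ (q + 4)) := by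
        have : ((|p y| : ℤ) : ℝ) ≤ (((2 : ℤ) ^ (T ^ (q + 4)) : ℤ) : ℝ) := by exact_mod_cast h5
        rw [Int.cast_abs] at this
        push_cast at this
        exact this
      refine h6.trans ?_
      have h7 : (2 : ℝ) ≤ Real.exp 1 := by
        have := Real.add_one_le_exp (1 : ℝ)
        linarith
      calc (2 : ℝ) ^ (T ^ (q + 4)) ≤ (Real.exp 1) ^ (T ^ (q + 4)) :=
            pow_le_pow_left₀ (by norm_num) h7 _
        _ = Real.exp ((T : ℝ) ^ (q + 4)) := by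
            rw [← Real.exp_nat_mul]
            push_cast
            rw [mul_one])
    (by
      intro s hs
      refine hpAF (fun r => cmb (s r) x) (fun i => norm_cmb_le x (s i) T (hs i).2) ?_
      intro i j
      exact hNT (s i) (hs i).1 j)
  push_cast at hu
  set E := (T : ℝ) ^ ((q + 12) * (m - 1) + (3 * Q' + 4)) /
      (C * ((T : ℝ) ^ q * (T : ℝ) ^ 11 + (T : ℝ) ^ (q + 4)) ^ (m - 2)) with hE
  have hu' : ∀ i j, ‖u i j - b j * x i‖ ≤ Real.exp (-E) := by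
    intro i j
    have := hu i j
    rwa [neg_div] at this
  have hT0 : (0 : ℝ) ≤ T := Nat.cast_nonneg _
  have hE0 : 0 ≤ E := by
    have : 0 ≤ B * (T : ℝ) ^ (3 * Q') + T := by positivity
    linarith
  obtain ⟨s, hs0, hsb, hsn⟩ := hNZ T hTd (Real.exp (-E)) u F (Real.exp_pos _).le
    (Real.exp_le_one_iff.2 (by linarith)) hu' hF0 (fun j => (hFd j).le) hFz
  have hms := hMS s hs0 ((T : ℝ) ^ 3) (one_le_pow₀ (by linarith)) (by
    intro i
    have h8 := hsb i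
    have : ((|s i| : ℤ) : ℝ) ≤ (((T ^ 3 : ℕ) : ℤ) : ℝ) := by exact_mod_cast h8
    rw [Int.cast_abs] at this
    push_cast at this
    exact this)
  have h9 : Real.exp (-(B * ((T : ℝ) ^ 3) ^ Q')) ≤ Real.exp (-E) * Real.exp T := hms.trans hsn
  rw [← Real.exp_add, Real.exp_le_exp, ← pow_mul] at h9
  linarith

end Pool.Agent.Work.MP_8da9ea_nt.EB
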