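import Pool.Agent.Work.MP_8da9ea_nt.EB.StmtsG

/-!
# Item AK1s: the relations of the first kind are spanned by the `k`-rational ones
-/

set_option autoImplicit false

namespace Pool.Agent.Work.MP_8da9ea_nt.EB

open MvPolynomial Pool.Agent.Work.MP_327059_nt.GL Pool.Agent.Work.MP_8da9ea_nt.S

namespace I_AK1s

theorem isE_zero (τ : ℂ) : IsE τ 0 := by
  have h0 : (0 : ℂ) ∈ Lam τ := mem_Lam.2 ⟨0, 0, by simp⟩
  exact ⟨1, one_ne_zero, by simpa using h0, by simpa using h0⟩

theorem aux (hAK1 : S_AK1) (hKf : S_Kf) (τ μ : ℂ) (hN : Nrm τ μ) (E : IntermediateField ℚ ℂ)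
    (hE : Countable E) (hA : ACl E) (N : ℕ) (u : Fin N → ℂ)
    (hu : ∀ i, ∀ k : ℕ, k ≠ 0 → (k : ℂ) * u i ∉ Lam τ) :
    ∀ (m : ℕ) (c : Fin N → ℂ), (Finset.univ.filter fun i => c i ≠ 0).card ≤ m →
    (∀ i, c i ∈ E) → (∀ δ ∈ DK E, ∑ i, c i * lam τ μ δ (u i) = 0) →
      c ∈ Submodule.span ℂ {g : Fin N → ℂ | (∀ i, IsE τ (g i)) ∧
        ∀ δ ∈ DK E, ∑ i, g i * lam τ μ δ (u i) = 0} := by
  classical
  intro m
  induction m with
  | zero =>
    intro c hc _ _
    have h1 : c = 0 := by
      funext i
      by_contra h
      have : i ∈ (Finset.univ.filter fun i => c i ≠ 0) := by simpa using h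
      have h2 := Finset.card_pos.2 ⟨i, this⟩
      omega
    rw [h1]
    exact Submodule.zero_mem _
  | succ m ih =>
    intro c hc hcE hrel
    set s : Finset (Fin N) := Finset.univ.filter fun i => c i ≠ 0 with hs
    by_cases hs0 : s = ∅
    · have h1 : c = 0 := by
        funext i
        by_contra h
        have : i ∈ s := by simpa [hs] using h
        rw [hs0] at this
        simp at this
      rw [h1]
      exact Submodule.zero_mem _
    · obtain ⟨i₁, hi₁⟩ := Finset.nonempty_iff_ne_empty.2 hs0
      let e : Fin s.card ≃ s := s.equivFin.symm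
      have hsum : ∀ (F : Fin N → ℂ), (∀ i, i ∉ s → F i = 0) →
          ∑ i, F i = ∑ k : Fin s.card, F ((e k : s) : Fin N) := by
        intro F hF
        rw [← Finset.sum_subset (Finset.subset_univ s) (fun i _ hi => hF i hi),
          ← Finset.sum_coe_sort s F]
        exact (Equiv.sum_comp e (fun x : s => F x)).symm
      have hcs : ∀ i, i ∉ s → c i = 0 := by
        intro i hi
        by_contra h
        exact hi (by simpa [hs] using h)
      obtain ⟨g, hg0, hgE, hgrel⟩ := hAK1 τ μ hN E hE hA s.card (fun k => u ((e k : s) : Fin N))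
        (fun k => c ((e k : s) : Fin N)) (fun k => hu _) (fun k => hcE _) (by
          intro h0
          have h1 := congrFun h0 (e.symm ⟨i₁, hi₁⟩)
          simp only [Equiv.apply_symm_apply, Pi.zero_apply] at h1
          exact (Finset.mem_filter.1 hi₁).2 h1) (by
          intro δ hδ
          rw [← hrel δ hδ, hsum]
          intro i hi
          rw [hcs i hi, zero_mul])
      let G : Fin N → ℂ := fun i => if h : i ∈ s then g (e.symm ⟨i, h⟩) else 0
      have hGe : ∀ k, G ((e k : s) : Fin N) = g k := by
        intro k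
        have : ((e k : s) : Fin N) ∈ s := (e k).2
        simp only [G, dif_pos this]
        congr 1
        exact e.symm_apply_apply k
      have hGE : ∀ i, IsE τ (G i) := by
        intro i
        by_cases h : i ∈ s
        · simp only [G, dif_pos h]; exact hgE _
        · simp only [G, dif_neg h]; exact isE_zero τ
      have hGrel : ∀ δ ∈ DK E, ∑ i, G i * lam τ μ δ (u i) = 0 := by
        intro δ hδ
        rw [hsum]
        · rw [← hgrel δ hδ]
          refine Finset.sum_congr rfl fun k _ => ?_
          rw [hGe]
        · intro i hi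
          simp only [G, dif_neg hi, zero_mul]
      have hGmem : G ∈ Submodule.span ℂ {g : Fin N → ℂ | (∀ i, IsE τ (g i)) ∧
          ∀ δ ∈ DK E, ∑ i, g i * lam τ μ δ (u i) = 0} := Submodule.subset_span ⟨hGE, hGrel⟩
      have hGinE : ∀ i, G i ∈ E := by
        intro i
        apply hA
        exact ((hKf τ hN.im).1 _ (hGE i)).tower_top E
      obtain ⟨k₀, hk₀⟩ : ∃ k, g k ≠ 0 := by
        by_contra h
        push Not at h
        exact hg0 (funext h)
      set i₀ : Fin N := ((e k₀ : s) : Fin N) with hi₀
      have hi₀s : i₀ ∈ s := (e k₀).2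
      have hG0 : G i₀ ≠ 0 := by rw [hi₀, hGe]; exact hk₀
      set a : ℂ := c i₀ / G i₀ with ha
      have haE : a ∈ E := E.div_mem (hcE _) (hGinE _)
      have hc' := ih (fun i => c i - a * G i) (by
        have hsub : (Finset.univ.filter fun i => c i - a * G i ≠ 0) ⊆ s.erase i₀ := by
          intro i hi
          rw [Finset.mem_filter] at hi
          rw [Finset.mem_erase]
          constructor
          · rintro rfl
            apply hi.2
            rw [ha, div_mul_cancel₀ _ hG0, sub_self]
          · by_contra hcon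
            apply hi.2
            rw [hcs i hcon]
            simp only [G, dif_neg hcon]
            ring
        have h1 := Finset.card_le_card hsub
        rw [Finset.card_erase_of_mem hi₀s] at h1
        omega) (fun i => E.sub_mem (hcE i) (E.mul_mem haE (hGinE i))) (by
          intro δ hδ
          have h1 : ∑ i, (c i - a * G i) * lam τ μ δ (u i) =
              ∑ i, c i * lam τ μ δ (u i) - a * ∑ i, G i * lam τ μ δ (u i) := by
            rw [Finset.mul_sum, ← Finset.sum_sub_distrib]
            refine Finset.sum_congr rfl fun i _ => ?_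
            ring
          rw [h1, hrel δ hδ, hGrel δ hδ]
          ring)
      have hfin : c = (fun i => c i - a * G i) + a • G := by
        funext i
        simp only [Pi.add_apply, Pi.smul_apply, smul_eq_mul]
        ring
      rw [hfin]
      exact Submodule.add_mem _ hc' (Submodule.smul_mem _ _ hGmem)

end I_AK1s

theorem AK1s_pf (hAK1 : S_AK1) (hKf : S_Kf) : S_AK1s := by
  intro τ μ hN E hE hA N u c hu hcE hrel
  exact I_AK1s.aux hAK1 hKf τ μ hN E hE hA N u hu _ c le_rfl hcE hrel

end Pool.Agent.Work.MP_8da9ea_nt.EB
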