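import Pool.Agent.Work.MP_8da9ea_nt.EB.StmtsG
import Pool.Agent.Work.MP_8da9ea_nt.Bd.B11

/-!
# G6: relations of the second kind
-/

set_option autoImplicit false

namespace Pool.Agent.Work.MP_8da9ea_nt.EB

open Filter Topology Pool.Agent.Work.MP_327059_nt.GL Pool.Agent.Work.MP_8da9ea_nt.S

namespace I_AK2

/-- a constant pulled out of a derivation over `ℂ` -/
lemma der_alg {u₀ : ℂ} (D : Derivation ℂ (MG u₀) (MG u₀)) (c : ℂ) (m : MG u₀) :
    D (algebraMap ℂ (MG u₀) c * m) = algebraMap ℂ (MG u₀) c * D m := by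
  rw [← Algebra.smul_def, ← Algebra.smul_def]
  exact D.map_smul c m

/-- algebraic numbers lie in an algebraically closed subfield -/
lemma alg_mem {E : IntermediateField ℚ ℂ} (hE : ACl E) {x : ℂ} (hx : IsAlgebraic ℚ x) : x ∈ E :=
  hE x (hx.tower_top E)

end I_AK2

open I_AK2 Fx in
theorem AK2_pf (hEmb : S_Emb) (FX : FXprop) : S_AK2 := by
  intro τ μ hN E hEc hEa u κ hκ hrel δ hδ
  by_cases hu : u ∈ Lam τ
  · unfold lam
    rw [if_pos hu]
  by_cases hw : wpd τ u = 0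
  · unfold lam
    rw [if_neg hu]
    have : ye τ μ u = 0 := by
      unfold ye
      rw [hw, mul_zero]
    rw [this, div_zero]
  have hμ : μ ≠ 0 := hN.mu
  have hye : ye τ μ u ≠ 0 := mul_ne_zero (pow_ne_zero 3 hμ) hw
  set f : Fin 3 → ℂ := ![xe τ μ u, ye τ μ u, ze τ μ u] with hf
  obtain ⟨u₀, Φ, hΦ1, hΦ2, hΦ3, hΦ4⟩ := hEmb E hEc hEa (Fin 3) f
  have hmem : ∀ t, f t ∈ IntermediateField.adjoin E (Set.range f) := fun t =>
    IntermediateField.subset_adjoin E _ ⟨t, rfl⟩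
  set x : IntermediateField.adjoin E (Set.range f) := ⟨f 0, hmem 0⟩ with hx
  set y : IntermediateField.adjoin E (Set.range f) := ⟨f 1, hmem 1⟩ with hy
  set z : IntermediateField.adjoin E (Set.range f) := ⟨f 2, hmem 2⟩ with hz
  have vx : (x : ℂ) = xe τ μ u := rfl
  have vy : (y : ℂ) = ye τ μ u := rfl
  have vz : (z : ℂ) = ze τ μ u := rfl
  have ax : SpecAux.IsAn (Φ x) (xe τ μ u) := by
    obtain ⟨F, hF, h0, h1⟩ := hΦ2 0 x rfl
    exact ⟨F, hF, h1, h0⟩
  have ay : SpecAux.IsAn (Φ y) (ye τ μ u) := by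
    obtain ⟨F, hF, h0, h1⟩ := hΦ2 1 y rfl
    exact ⟨F, hF, h1, h0⟩
  -- the curve
  have hG2 : μ ^ 4 * gg2 τ ∈ E := alg_mem hEa hN.g2
  have hG3 : μ ^ 6 * gg3 τ ∈ E := alg_mem hEa hN.g3
  have hcurve : y ^ 2 = 4 * x ^ 3 - algebraMap E _ ⟨_, hG2⟩ * x - algebraMap E _ ⟨_, hG3⟩ := by
    apply Subtype.ext
    have h1 : (ye τ μ u) ^ 2 = 4 * (xe τ μ u) ^ 3 - (μ ^ 4 * gg2 τ) * xe τ μ u -
        μ ^ 6 * gg3 τ := by
      have h2 := wpd_sq hN.im hu
      unfold ye xe
      linear_combination μ ^ 6 * h2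
    exact h1
  have hcurve' := congrArg Φ hcurve
  rw [map_pow, map_sub, map_sub, map_mul, map_mul, map_pow, map_ofNat, hΦ1, hΦ1] at hcurve'
  simp only [map_mul, map_pow] at hcurve'
  have hm0 : algebraMap ℂ (MG u₀) μ ≠ 0 := by
    rw [Ne, map_eq_zero]
    exact hμ
  have hmi : algebraMap ℂ (MG u₀) μ * algebraMap ℂ (MG u₀) μ⁻¹ = 1 := by
    rw [← map_mul, mul_inv_cancel₀ hμ, map_one]
  set M := algebraMap ℂ (MG u₀) μ with hM
  set I := algebraMap ℂ (MG u₀) μ⁻¹ with hI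
  set X' := I ^ 2 * Φ x with hX'
  set Y' := I ^ 3 * Φ y with hY'
  have hXY : Y' ^ 2 = 4 * X' ^ 3 - algebraMap ℂ (MG u₀) (gg2 τ) * X' -
      algebraMap ℂ (MG u₀) (gg3 τ) := by
    have e1 : Y' ^ 2 = I ^ 6 * (Φ y) ^ 2 := by rw [hY']; ring
    rw [e1, hcurve', hX']
    have e2 : (M * I) = 1 := hmi
    have e3 : M ^ 4 * I ^ 4 = 1 := by rw [← mul_pow, e2, one_pow]
    have e4 : M ^ 6 * I ^ 6 = 1 := by rw [← mul_pow, e2, one_pow]
    linear_combination (-(algebraMap ℂ (MG u₀) (gg2 τ)) * I ^ 2 * Φ x) * e3 -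
      algebraMap ℂ (MG u₀) (gg3 τ) * e4
  have aX' : SpecAux.IsAn X' (wp 1 τ u) := by
    have h := (((SpecAux.isAn_const (τ₁ := u₀) μ⁻¹).pow 2).mul ax)
    have h2 : (μ⁻¹) ^ 2 * xe τ μ u = wp 1 τ u := by
      unfold xe
      field_simp
    rwa [h2] at h
  have aY' : SpecAux.IsAn Y' (wpd τ u) := by
    have h := (((SpecAux.isAn_const (τ₁ := u₀) μ⁻¹).pow 3).mul ay)
    have h2 : (μ⁻¹) ^ 3 * ye τ μ u = wpd τ u := by
      unfold ye
      field_simp
    rwa [h2] at h
  obtain ⟨zz, az, v0, ex, ey, -, -⟩ := loc_one (τ := τ) (s₁ := u₀) hN.im true X' Y' u hu hw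
    aX' aY' (by simpa using hXY)
  have ex' : gm u₀ (fun s => wp 1 τ (zz s)) = X' := ex
  have ey' : gm u₀ (fun s => wpd τ (zz s)) = Y' := ey
  have hy0 : y ≠ 0 := by
    intro h
    apply hye
    rw [← vy, h]
    rfl
  have hΦy0 : Φ y ≠ 0 := by
    rw [Ne, map_eq_zero]
    exact hy0
  have hI0 : I ≠ 0 := by
    intro h
    rw [h, mul_zero] at hmi
    exact zero_ne_one hmi
  -- the relation
  have hr : ∀ D : Derivation ℂ (MG u₀) (MG u₀),
      D (Φ z) + Φ ((x - algebraMap E _ ⟨κ, hκ⟩) / y) * D (Φ x) = 0 := by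
    intro D
    have h := hΦ3 2 ![1, (x - algebraMap E _ ⟨κ, hκ⟩) / y] ![z, x] (by
      intro δ' hδ'
      rw [Fin.sum_univ_two]
      have h1 := hrel δ' hδ'
      unfold etf at h1
      rw [if_neg hu] at h1
      have h2 : lam τ μ δ' u = δ' (xe τ μ u) / ye τ μ u := by
        unfold lam
        rw [if_neg hu]
      rw [h2] at h1
      have h3 : ((((![1, (x - algebraMap E _ ⟨κ, hκ⟩) / y] :
          Fin 2 → IntermediateField.adjoin E (Set.range f)) 1 :
          IntermediateField.adjoin E (Set.range f))) : ℂ) = (xe τ μ u - κ) / ye τ μ u := rfl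
      have h4 : ((((![1, (x - algebraMap E _ ⟨κ, hκ⟩) / y] :
          Fin 2 → IntermediateField.adjoin E (Set.range f)) 0 :
          IntermediateField.adjoin E (Set.range f))) : ℂ) = 1 := rfl
      rw [h3, h4]
      change 1 * δ' (ze τ μ u) + (xe τ μ u - κ) / ye τ μ u * δ' (xe τ μ u) = 0
      field_simp at h1 ⊢
      linear_combination h1) D
    rw [Fin.sum_univ_two] at h
    have h5 : Φ ((![1, (x - algebraMap E _ ⟨κ, hκ⟩) / y] :
          Fin 2 → IntermediateField.adjoin E (Set.range f)) 0) = 1 := by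
      change Φ 1 = 1
      exact map_one Φ
    rw [h5, one_mul] at h
    exact h
  have hFX := FX Unit Empty τ u₀ hN.im (fun _ => zz) (fun _ => az)
    (fun _ => by rw [v0]; exact ⟨hu, hw⟩) (fun l => l.elim) (fun l => l.elim)
    (fun _ => -κ * μ⁻¹) (fun _ => μ) (fun l => l.elim)
    (by
      rintro ⟨-, h, -⟩
      exact hμ (congrFun h ()))
    (-(Φ z)) (by
      intro D
      have h1 := hr D
      simp only [Finset.univ_unique, Finset.sum_singleton, Finset.univ_eq_empty,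
        Finset.sum_empty, add_zero]
      rw [ex', ey', hX', hY', map_neg, map_mul, map_neg]
      have h2 : D (I ^ 2 * Φ x) = I ^ 2 * D (Φ x) := by
        have := der_alg D (μ⁻¹ ^ 2) (Φ x)
        rwa [map_pow] at this
      rw [h2]
      rw [map_div₀, map_sub, hΦ1] at h1
      have h3 : D (Φ z) = -((Φ x - algebraMap ℂ (MG u₀) κ) / Φ y * D (Φ x)) := by
        linear_combination h1
      rw [h3]
      have e2 : (M * I) = 1 := hmi
      rw [← hM, ← hI]
      field_simp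
      linear_combination (Φ x * D (Φ x)) * e2)
  have hconst : ∃ C : ℂ, ∀ᶠ s in 𝓝 u₀, zz s = C := by
    rcases hFX with ⟨g, hg, -, C, hC⟩ | ⟨m, hm, -⟩
    · have hg0 : g () ≠ 0 := by
        intro h
        apply hg
        funext i
        exact h
      refine ⟨C / g (), ?_⟩
      filter_upwards [hC] with s hs
      simp only [Finset.univ_unique, Finset.sum_singleton] at hs
      rw [eq_div_iff hg0, mul_comm]
      exact hs
    · exfalso
      apply hm
      funext l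
      exact l.elim
  obtain ⟨C, hC⟩ := hconst
  have hDX : MG.DD (Φ x) = 0 := by
    have h1 : X' = algebraMap ℂ (MG u₀) (wp 1 τ C) := by
      rw [← ex', ← gm_const]
      refine gm_eq_of ?_ ?_
      · have := fx_wp az hN.im (by rw [v0]; exact hu)
        exact this
      · filter_upwards [hC] with s hs
        rw [hs]
    have h2 : Φ x = algebraMap ℂ (MG u₀) (μ ^ 2 * wp 1 τ C) := by
      rw [map_mul, ← h1, map_pow, hX', ← mul_assoc, ← mul_pow, hmi, one_pow, one_mul]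
    rw [h2]
    exact MG.DD.map_algebraMap _
  have h4 := hΦ4 1 (fun _ => 1) (fun _ => x) (by
    simp only [Finset.univ_unique, Finset.sum_singleton]
    rw [hDX, mul_zero]) δ hδ
  simp only [Finset.univ_unique, Finset.sum_singleton] at h4
  have h5 : δ (xe τ μ u) = 0 := by
    have h6 : ((1 : IntermediateField.adjoin E (Set.range f)) : ℂ) = 1 := rfl
    rw [h6, one_mul] at h4
    exact h4
  unfold lam
  rw [if_neg hu, h5, zero_div]

end Pool.Agent.Work.MP_8da9ea_nt.EB
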