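import Pool.Agent.Work.MP_8da9ea_nt.EB.StmtsT
import Pool.Agent.Work.MP_8da9ea_nt.Bd.B01

set_option autoImplicit false

namespace Pool.Agent.Work.MP_8da9ea_nt.EB

open MvPolynomial Pool.Agent.Work.MP_327059_nt.GL Pool.Agent.Work.MP_8da9ea_nt.S

namespace I_AddVal

/-- The algebra of the addition formula. -/
theorem key {A1 B1 Z1 A2 B2 Z2 X1 Y1 X2 Y2 X3 Y3 s : ℂ}
    (hA1 : A1 = Z1 * X1) (hB1 : B1 = Z1 * Y1) (hA2 : A2 = Z2 * X2) (hB2 : B2 = Z2 * Y2)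
    (hs : s ^ 2 = X1 + X2 + X3) (h1 : 2 * s * (X1 - X3) = Y1 + Y3)
    (h2 : 2 * s * (X2 - X3) = Y2 + Y3) :
    (A1 * Z2 - A2 * Z1) * ((B1 * Z2 - B2 * Z1) ^ 2 * Z1 * Z2 -
      4 * (A1 * Z2 - A2 * Z1) ^ 2 * (A1 * Z2 + A2 * Z1)) =
        4 * (A1 * Z2 - A2 * Z1) ^ 3 * Z1 * Z2 * X3 ∧
    (B1 * Z2 - B2 * Z1) * (4 * (A1 * Z2 - A2 * Z1) ^ 2 * (2 * A1 * Z2 + A2 * Z1) -
      (B1 * Z2 - B2 * Z1) ^ 2 * Z1 * Z2) - 4 * (A1 * Z2 - A2 * Z1) ^ 3 * B1 * Z2 =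
        4 * (A1 * Z2 - A2 * Z1) ^ 3 * Z1 * Z2 * Y3 := by
  obtain rfl : Y1 = 2 * s * (X1 - X3) - Y3 := by linear_combination -h1
  obtain rfl : Y2 = 2 * s * (X2 - X3) - Y3 := by linear_combination -h2
  obtain rfl : X3 = s ^ 2 - X1 - X2 := by linear_combination -hs
  subst hA1 hB1 hA2 hB2
  constructor <;> ring

theorem neg_notMem {τ z : ℂ} (h : z ∉ Lam τ) : -z ∉ Lam τ := fun h' => h (neg_mem_Lam.1 h')

end I_AddVal

open I_AddVal Pool.Agent.Work.MP_8da9ea_nt.Fx in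
theorem AddVal_pf : S_AddVal := by
  intro τ μ hτ hμ n m θ z z' V W hV hW
  refine ⟨⟨neg_notMem hV.nl, hV.z0, ?_, ?_⟩, fun hp hm => ?_⟩
  · show aeval θ V.A = aeval θ V.Z * xe τ μ (-z)
    rw [hV.a, xe, xe, wp_neg]
  · show aeval θ (-V.B) = aeval θ V.Z * ye τ μ (-z)
    rw [map_neg, hV.b, ye, ye, wpd_neg hτ]
    ring
  · have hne : xe τ μ z - xe τ μ z' ≠ 0 := by
      intro h
      have h' : wp 1 τ z = wp 1 τ z' := by
        have : μ ^ 2 * (wp 1 τ z - wp 1 τ z') = 0 := by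
          unfold xe at h
          linear_combination h
        rcases mul_eq_zero.1 this with h0 | h0
        · exact absurd h0 (pow_ne_zero 2 hμ)
        · exact sub_eq_zero.1 h0
      rcases wp_inj hτ hV.nl hW.nl h' with h1 | h1
      · exact hm h1
      · exact hp h1
    have hs := zt_add_sq hτ hV.nl hW.nl hp
    have hl1 := zt_add_lin hτ hV.nl hW.nl hp
    have hp' : z' + z ∉ Lam τ := by rwa [add_comm]
    have hl2 := zt_add_lin hτ hW.nl hV.nl hp'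
    rw [add_comm z' z] at hl2
    have hk := key (A1 := aeval θ V.A) (B1 := aeval θ V.B) (Z1 := aeval θ V.Z)
      (A2 := aeval θ W.A) (B2 := aeval θ W.B) (Z2 := aeval θ W.Z)
      (X1 := xe τ μ z) (Y1 := ye τ μ z) (X2 := xe τ μ z') (Y2 := ye τ μ z')
      (X3 := xe τ μ (z + z')) (Y3 := ye τ μ (z + z'))
      (s := μ * (zt 1 τ (z + z') - zt 1 τ z - zt 1 τ z')) hV.a hV.b hW.a hW.b
      (by unfold xe; linear_combination μ ^ 2 * hs)
      (by unfold xe ye; linear_combination μ ^ 3 * hl1)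
      (by unfold xe ye; linear_combination μ ^ 3 * hl2)
    have hD : aeval θ V.A * aeval θ W.Z - aeval θ W.A * aeval θ V.Z =
        aeval θ V.Z * aeval θ W.Z * (xe τ μ z - xe τ μ z') := by
      rw [hV.a, hW.a]; ring
    refine ⟨hp, ?_, ?_, ?_⟩
    · have : aeval θ (addT V W).Z = 4 * (aeval θ V.A * aeval θ W.Z - aeval θ W.A * aeval θ V.Z) ^ 3 *
          aeval θ V.Z * aeval θ W.Z := by
        simp [addT]
      rw [this, hD]
      exact mul_ne_zero (mul_ne_zero (mul_ne_zero (by norm_num) (pow_ne_zero 3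
        (mul_ne_zero (mul_ne_zero hV.z0 hW.z0) hne))) hV.z0) hW.z0
    · have := hk.1
      simpa [addT] using this
    · have := hk.2
      simpa [addT] using this

end Pool.Agent.Work.MP_8da9ea_nt.EB
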