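import Pool.Agent.Work.MP_8da9ea_nt.EB.StmtsG

/-!
# Item AxImgE: image of the derivations killing `E`
-/

set_option autoImplicit false

namespace Pool.Agent.Work.MP_8da9ea_nt.EB

open Pool.Agent.Work.MP_327059_nt.GL Pool.Agent.Work.MP_8da9ea_nt.S

namespace I_AxImgE

/-- closedness of the forms -/
lemma comm (hC : S_Closed) {τ μ : ℂ} (hN : Nrm τ μ) {n m : ℕ} (u : Fin n → Fin m → ℂ)
    (v : Fin n → ℂ) (D δ : Derivation ℚ ℂ ℂ) (hD : ∀ i, D (v i) = 0)
    (hδ : ∀ i, δ (v i) = 0) (j : Fin m) :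
    D (omE τ μ u v δ j) = omE τ μ u v ⁅D, δ⁆ j + δ (omE τ μ u v D j) := by
  change D (∑ i, v i * lam τ μ δ (u i j)) =
    ∑ i, v i * lam τ μ ⁅D, δ⁆ (u i j) + δ (∑ i, v i * lam τ μ D (u i j))
  rw [map_sum, map_sum, ← Finset.sum_add_distrib]
  refine Finset.sum_congr rfl fun i _ => ?_
  have h := (hC τ μ hN D δ (u i j)).1
  rw [Derivation.leibniz, Derivation.leibniz, hD i, hδ i, ← h]
  simp only [smul_eq_mul, mul_zero, add_zero]
  ring

/-- relations with coefficients in `E` are orthogonal to `β` -/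
lemma rel (hA : S_AK1s) {τ μ : ℂ} (hN : Nrm τ μ) {n m : ℕ} (u : Fin n → Fin m → ℂ)
    (E : IntermediateField ℚ ℂ) (hcE : Countable E) (haE : ACl E)
    (hu : ∀ i j, ∀ k : ℕ, k ≠ 0 → (k : ℂ) * u i j ∉ Lam τ) (β : Fin n → Fin m → ℂ)
    (hβ : ∀ g : Fin n → Fin m → ℂ, (∀ i j, IsE τ (g i j)) →
        (∀ δ ∈ DK E, ∑ i, ∑ j, g i j * lam τ μ δ (u i j) = 0) → ∑ i, ∑ j, g i j * β i j = 0)
    (c : Fin n → Fin m → ℂ) (hc : ∀ i j, c i j ∈ E)
    (h : ∀ δ ∈ DK E, ∑ i, ∑ j, c i j * lam τ μ δ (u i j) = 0) :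
    ∑ i, ∑ j, c i j * β i j = 0 := by
  let e := (finProdFinEquiv : Fin n × Fin m ≃ Fin (n * m)).symm
  have hsum : ∀ f : Fin n → Fin m → ℂ,
      ∑ t : Fin (n * m), f (e t).1 (e t).2 = ∑ i, ∑ j, f i j := by
    intro f
    rw [← Fintype.sum_prod_type' (f := f)]
    exact Fintype.sum_equiv e _ _ fun t => rfl
  have hmem := hA τ μ hN E hcE haE (n * m) (fun t => u (e t).1 (e t).2)
    (fun t => c (e t).1 (e t).2) (fun t => hu _ _) (fun t => hc _ _) (by
      intro δ hδ
      rw [hsum (fun i j => c i j * lam τ μ δ (u i j))]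
      exact h δ hδ)
  let F : (Fin (n * m) → ℂ) →ₗ[ℂ] ℂ :=
    { toFun := fun a => ∑ t, a t * β (e t).1 (e t).2
      map_add' := by
        intro a a'
        simp only [Pi.add_apply, add_mul, Finset.sum_add_distrib]
      map_smul' := by
        intro c a
        simp only [Pi.smul_apply, smul_eq_mul, RingHom.id_apply]
        rw [Finset.mul_sum]
        exact Finset.sum_congr rfl fun j _ => by ring }
  have hle : Submodule.span ℂ {g : Fin (n * m) → ℂ | (∀ i, IsE τ (g i)) ∧
      ∀ δ ∈ DK E, ∑ t, g t * lam τ μ δ (u (e t).1 (e t).2) = 0} ≤ LinearMap.ker F := by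
    rw [Submodule.span_le]
    rintro g ⟨hg, hg0⟩
    have hg' : ∀ (i : Fin n) (j : Fin m), IsE τ (g (e.symm (i, j))) := fun i j => hg _
    have h1 : ∀ f : Fin n → Fin m → ℂ,
        ∑ t, g t * f (e t).1 (e t).2 = ∑ i, ∑ j, g (e.symm (i, j)) * f i j := by
      intro f
      rw [← hsum (fun i j => g (e.symm (i, j)) * f i j)]
      refine Finset.sum_congr rfl fun t _ => ?_
      rw [Prod.mk.eta, Equiv.symm_apply_apply]
    have h2 := hβ (fun i j => g (e.symm (i, j))) hg' (by
      intro δ hδ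
      have h3 := hg0 δ hδ
      rw [h1 (fun i j => lam τ μ δ (u i j))] at h3
      exact h3)
    change ∑ t, g t * β (e t).1 (e t).2 = 0
    rw [h1 β]
    exact h2
  have h5 := hle hmem
  change ∑ t, c (e t).1 (e t).2 * β (e t).1 (e t).2 = 0 at h5
  rw [hsum (fun i j => c i j * β i j)] at h5
  exact h5

end I_AxImgE

open I_AxImgE in
theorem AxImgE_pf (hA : S_AK1s) (hC : S_Closed) (hS : S_Stab) : S_AxImgE := by
  intro τ μ hN n m k u v b E hcE haE hu hE β hβ
  have hv : ∀ i, v i ∈ E := fun i => (hE (v i)).2 fun δ hδ _ => hδ.1 i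
  set DS : Set (Derivation ℚ ℂ ℂ) := {D | D ∈ TT v ⊓ TT b ∧ omE τ μ u v D = 0} with hDS
  have hEDS : ∀ c : ℂ, (∀ D ∈ DS, D c = 0) → c ∈ E := fun c hc =>
    (hE c).2 fun δ hδ ho => hc δ ⟨hδ, ho⟩
  have hDSE : ∀ D ∈ DS, ∀ e ∈ E, D e = 0 := fun D hD e he => (hE e).1 he D hD.1 hD.2
  let L : Derivation ℚ ℂ ℂ →ₗ[ℂ] (Fin m → ℂ) := omE τ μ u v
  let I : Submodule ℂ (Fin m → ℂ) := (DK E).map L
  let W : Submodule ℂ (Fin m → ℂ) :=
    { carrier := {a | ∀ u ∈ I, ∑ j, a j * u j = 0}
      add_mem' := by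
        intro a a' ha ha' u hu
        have e1 := ha u hu
        have e2 := ha' u hu
        simp only [Pi.add_apply, add_mul, Finset.sum_add_distrib, e1, e2, add_zero]
      zero_mem' := by
        intro u _
        simp
      smul_mem' := by
        intro c a ha u hu
        have e1 := ha u hu
        have e2 : ∑ j, (c • a) j * u j = c * ∑ j, a j * u j := by
          rw [Finset.mul_sum]
          refine Finset.sum_congr rfl fun j _ => ?_
          simp only [Pi.smul_apply, smul_eq_mul]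
          ring
        rw [e2, e1, mul_zero] }
  have hW : ∀ a, a ∈ W ↔ ∀ u ∈ I, ∑ j, a j * u j = 0 := fun a => Iff.rfl
  have hstab : ∀ D ∈ DS, ∀ a ∈ W, (fun j => D (a j)) ∈ W := by
    intro D hD a ha
    rw [hW]
    rintro _ ⟨δ, hδ, rfl⟩
    have hcomm : ⁅D, δ⁆ ∈ DK E := by
      intro e he
      rw [Derivation.commutator_apply, hδ e he, hDSE D hD e he, map_zero, map_zero, sub_zero]
    have e1 : ∑ j, a j * L δ j = 0 := ha _ ⟨δ, hδ, rfl⟩
    have e2 : ∑ j, a j * L ⁅D, δ⁆ j = 0 := ha _ ⟨⁅D, δ⁆, hcomm, rfl⟩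
    have e3 : ∀ j, D (L δ j) = L ⁅D, δ⁆ j := by
      intro j
      have h1 := comm hC hN u v D δ (fun i => hD.1.1 i) (fun i => hδ _ (hv i)) j
      have h2 : omE τ μ u v D j = 0 := by
        rw [hD.2]
        rfl
      rw [h2, map_zero, add_zero] at h1
      exact h1
    have e4 := congrArg D e1
    rw [map_sum, map_zero] at e4
    have e5 : ∑ j, D (a j * L δ j) = ∑ j, D (a j) * L δ j + ∑ j, a j * L ⁅D, δ⁆ j := by
      rw [← Finset.sum_add_distrib]
      refine Finset.sum_congr rfl fun j _ => ?_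
      rw [Derivation.leibniz, e3 j]
      simp only [smul_eq_mul]
      ring
    rw [e5, e2, add_zero] at e4
    exact e4
  have hspan := hS m W DS hstab
  -- vectors of `W` are orthogonal to `mv v β`
  have horth : ∀ a ∈ W, ∑ j, a j * mv v β j = 0 := by
    intro a ha
    have hmem := hspan a ha
    let f : (Fin m → ℂ) →ₗ[ℂ] ℂ :=
      { toFun := fun a => ∑ j, a j * mv v β j
        map_add' := by
          intro a a'
          simp only [Pi.add_apply, add_mul, Finset.sum_add_distrib]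
        map_smul' := by
          intro c a
          simp only [Pi.smul_apply, smul_eq_mul, RingHom.id_apply]
          rw [Finset.mul_sum]
          exact Finset.sum_congr rfl fun j _ => by ring }
    have hle : Submodule.span ℂ {e : Fin m → ℂ | e ∈ W ∧ ∀ j, ∀ D ∈ DS, D (e j) = 0} ≤
        LinearMap.ker f := by
      rw [Submodule.span_le]
      rintro e ⟨heW, heD⟩
      have heE : ∀ j, e j ∈ E := fun j => hEDS _ (heD j)
      have hsw : ∀ F : Fin n → Fin m → ℂ,
          ∑ j, e j * ∑ i, v i * F i j = ∑ i, ∑ j, v i * e j * F i j := by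
        intro F
        rw [Finset.sum_comm]
        refine Finset.sum_congr rfl fun j _ => ?_
        rw [Finset.mul_sum]
        refine Finset.sum_congr rfl fun i _ => ?_
        ring
      have h3 := rel hA hN u E hcE haE hu β hβ (fun i j => v i * e j)
        (fun i j => E.mul_mem (hv i) (heE j)) (by
          intro δ hδ
          have h4 : ∑ j, e j * ∑ i, v i * lam τ μ δ (u i j) = 0 := heW _ ⟨δ, hδ, rfl⟩
          rw [hsw] at h4
          exact h4)
      change ∑ j, e j * ∑ i, v i * β i j = 0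
      rw [hsw]
      exact h3
    exact hle hmem
  -- double orthogonal
  have hI : mv v β ∈ I := by
    by_contra hnot
    obtain ⟨f, hf1, hf2⟩ := Submodule.exists_le_ker_of_notMem hnot
    apply hf1
    have hfe : ∀ u : Fin m → ℂ, f u = ∑ j, f (fun j' => if j = j' then 1 else 0) * u j := by
      intro u
      rw [LinearMap.pi_apply_eq_sum_univ f u]
      exact Finset.sum_congr rfl fun j _ => by rw [smul_eq_mul, mul_comm]
    rw [hfe]
    refine horth (fun j => f (fun j' => if j = j' then 1 else 0)) ?_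
    rw [hW]
    intro u hu
    rw [← hfe]
    exact hf2 hu
  obtain ⟨δ, hδ, hδL⟩ := hI
  exact ⟨δ, hδ, hδL⟩

end Pool.Agent.Work.MP_8da9ea_nt.EB
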