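import Pool.Agent.Work.MP_8da9ea_nt.EB.StmtsG
import Pool.Agent.Work.MP_8da9ea_nt.Der

/-!
# Elliptic block, item AxOutE: the output of the Ax type argument
-/

set_option autoImplicit false

namespace Pool.Agent.Work.MP_8da9ea_nt.EB

open MvPolynomial Pool.Agent.Work.MP_327059_nt.GL Pool.Agent.Work.MP_8da9ea_nt.S Pool.Agent.ED

namespace I_AxOutE

/-- the constants -/
noncomputable def EE {m : ℕ} (L : Submodule ℂ (Derivation ℚ ℂ ℂ))
    (φ : Derivation ℚ ℂ ℂ →ₗ[ℂ] (Fin m → ℂ)) : IntermediateField ℚ ℂ where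
  carrier := {c | ∀ δ ∈ L, φ δ = 0 → δ c = 0}
  mul_mem' := by
    intro a b ha hb δ hδ ho
    rw [Derivation.leibniz, ha δ hδ ho, hb δ hδ ho, smul_zero, smul_zero, add_zero]
  one_mem' := by
    intro δ _ _
    exact δ.map_one_eq_zero
  add_mem' := by
    intro a b ha hb δ hδ ho
    rw [map_add, ha δ hδ ho, hb δ hδ ho, add_zero]
  zero_mem' := by
    intro δ _ _
    exact map_zero δ
  algebraMap_mem' := by
    intro r δ _ _
    exact δ.map_algebraMap r
  inv_mem' := by
    intro a ha δ hδ ho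
    rw [Derivation.leibniz_inv, ha δ hδ ho, smul_zero]

theorem mem_EE {m : ℕ} (L : Submodule ℂ (Derivation ℚ ℂ ℂ))
    (φ : Derivation ℚ ℂ ℂ →ₗ[ℂ] (Fin m → ℂ)) (c : ℂ) :
    c ∈ EE L φ ↔ ∀ δ ∈ L, φ δ = 0 → δ c = 0 := Iff.rfl

theorem acl {m : ℕ} (L : Submodule ℂ (Derivation ℚ ℂ ℂ))
    (φ : Derivation ℚ ℂ ℂ →ₗ[ℂ] (Fin m → ℂ)) : ACl (EE L φ) := by
  intro x hx δ hδ ho
  exact der_zero_alg (EE L φ) δ (fun s hs => hs δ hδ ho) x hx

/-- dual derivations -/
theorem dual {k : ℕ} {F : Set ℂ} (f : Fin k → ℂ)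
    (hf : AlgebraicIndependent (IntermediateField.adjoin ℚ F) f) (s : Fin k) :
    ∃ δ : Derivation ℚ ℂ ℂ, (∀ z ∈ F, δ z = 0) ∧ ∀ t, δ (f t) = if t = s then 1 else 0 := by
  obtain ⟨X, hX⟩ := exists_derivation hf (fun t => if t = s then (1 : ℂ) else 0)
  refine ⟨X.restrictScalars ℚ, ?_, hX⟩
  intro z hz
  exact X.map_algebraMap (⟨z, IntermediateField.subset_adjoin _ _ hz⟩ :
    IntermediateField.adjoin ℚ F)

/-- the rank argument -/
theorem rank_arg {m k r : ℕ} (L : Submodule ℂ (Derivation ℚ ℂ ℂ))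
    (φ : Derivation ℚ ℂ ℂ →ₗ[ℂ] (Fin m → ℂ)) (f : Fin k → ℂ) (hfE : ∀ t, f t ∈ EE L φ)
    (δ : Fin k → Derivation ℚ ℂ ℂ) (hδL : ∀ s, δ s ∈ L)
    (hδf : ∀ s t, δ s (f t) = if t = s then 1 else 0)
    (δ' : Fin r → Derivation ℚ ℂ ℂ) (hδ'L : ∀ s, δ' s ∈ L)
    (hδ'f : ∀ s t, δ' s (f t) = 0) (hli : LinearIndependent ℂ (fun s => φ (δ' s))) :
    k + r ≤ Module.finrank ℂ (L.map φ) := by
  classical
  let g : Fin k ⊕ Fin r → Derivation ℚ ℂ ℂ := Sum.elim δ δ'
  have hgL : ∀ s, g s ∈ L := by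
    rintro (s | c)
    · exact hδL s
    · exact hδ'L c
  have hli2 : LinearIndependent ℂ (fun s => φ (g s)) := by
    rw [Fintype.linearIndependent_iff]
    intro c hc
    have hD0 : φ (∑ s, c s • g s) = 0 := by
      rw [map_sum]
      simp only [map_smul]
      exact hc
    have hDL : (∑ s, c s • g s) ∈ L :=
      Submodule.sum_mem _ fun s _ => Submodule.smul_mem _ _ (hgL s)
    have hinl : ∀ t : Fin k, c (Sum.inl t) = 0 := by
      intro t
      have e1 : (∑ s, c s • g s) (f t) = 0 := hfE t _ hDL hD0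
      have e2 : (∑ s, c s • g s) (f t) = ∑ s, c s * (g s) (f t) := by
        rw [← Derivation.coeFnAddMonoidHom_apply, map_sum, Finset.sum_apply]
        rfl
      rw [e2, Fintype.sum_sum_type] at e1
      have e3 : ∑ s : Fin r, c (Sum.inr s) * (g (Sum.inr s)) (f t) = 0 := by
        refine Finset.sum_eq_zero fun s _ => ?_
        have : g (Sum.inr s) (f t) = 0 := hδ'f s t
        rw [this, mul_zero]
      have e4 : ∑ s : Fin k, c (Sum.inl s) * (g (Sum.inl s)) (f t) = c (Sum.inl t) := by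
        rw [Finset.sum_eq_single t]
        · have : g (Sum.inl t) (f t) = 1 := by
            change δ t (f t) = 1
            rw [hδf, if_pos rfl]
          rw [this, mul_one]
        · intro s _ hs
          have : g (Sum.inl s) (f t) = 0 := by
            change δ s (f t) = 0
            rw [hδf, if_neg (Ne.symm hs)]
          rw [this, mul_zero]
        · intro h
          exact absurd (Finset.mem_univ t) h
      rw [e3, e4, add_zero] at e1
      exact e1
    have hinr : ∀ s : Fin r, c (Sum.inr s) = 0 := by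
      refine Fintype.linearIndependent_iff.1 hli (fun s => c (Sum.inr s)) ?_
      rw [Fintype.sum_sum_type] at hc
      have e3 : ∑ s : Fin k, c (Sum.inl s) • φ (g (Sum.inl s)) = 0 :=
        Finset.sum_eq_zero fun s _ => by rw [hinl s, zero_smul]
      rw [e3, zero_add] at hc
      exact hc
    rintro (t | s)
    · exact hinl t
    · exact hinr s
  have hli' : LinearIndependent ℂ (fun s => (⟨φ (g s), ⟨g s, hgL s, rfl⟩⟩ : L.map φ)) :=
    LinearIndependent.of_comp (Submodule.subtype _) hli2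
  have hcard := hli'.fintype_card_le_finrank
  rw [Fintype.card_sum, Fintype.card_fin, Fintype.card_fin] at hcard
  exact hcard

theorem countable_adj (S : Set ℂ) (hS : S.Countable) :
    Countable (IntermediateField.adjoin ℚ S) := by
  rw [← Cardinal.mk_le_aleph0_iff]
  refine (IntermediateField.cardinalMk_adjoin_le ℚ S).trans ?_
  refine sup_le (sup_le ?_ ?_) le_rfl
  · exact Cardinal.mk_le_aleph0_iff.2 inferInstance
  · exact Cardinal.mk_le_aleph0_iff.2 hS.to_subtype

/-- the field of constants is countable -/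
theorem countable_EE {m : ℕ} (L : Submodule ℂ (Derivation ℚ ℂ ℂ))
    (φ : Derivation ℚ ℂ ℂ →ₗ[ℂ] (Fin m → ℂ)) (F : Set ℂ) (hF : F.Countable)
    (hL : ∀ δ : Derivation ℚ ℂ ℂ, (∀ z ∈ F, δ z = 0) → δ ∈ L) : Countable (EE L φ) := by
  classical
  let P : ℕ → Prop := fun k => ∃ f : Fin k → ℂ, (∀ t, f t ∈ EE L φ) ∧
    AlgebraicIndependent (IntermediateField.adjoin ℚ F) f
  have hP0 : P 0 := ⟨Fin.elim0, fun t => Fin.elim0 t, algebraicIndependent_empty_type_iff.2
    (algebraMap (IntermediateField.adjoin ℚ F) ℂ).injective⟩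
  have hPm : ∀ k, P k → k ≤ m := by
    rintro k ⟨f, hfE, hf⟩
    choose δ hδ hδf using fun s => dual f hf s
    have h1 := rank_arg (r := 0) L φ f hfE δ (fun s => hL _ (hδ s)) hδf (fun t => Fin.elim0 t)
      (fun t => Fin.elim0 t) (fun t => Fin.elim0 t) linearIndependent_empty_type
    have h2 : Module.finrank ℂ (L.map φ) ≤ m := by
      have := Submodule.finrank_le (L.map φ)
      rwa [Module.finrank_fintype_fun_eq_card, Fintype.card_fin] at this
    omega
  obtain ⟨k, hPk, hmax⟩ : ∃ k, P k ∧ ¬ P (k + 1) := by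
    refine ⟨Nat.findGreatest P m, Nat.findGreatest_spec (Nat.zero_le m) hP0, ?_⟩
    intro h6
    have h7 := hPm _ h6
    exact absurd (Nat.le_findGreatest h7 h6) (by omega)
  obtain ⟨f, hfE, hf⟩ := hPk
  have hcF := countable_adj F hF
  have hcR : Countable (Algebra.adjoin (IntermediateField.adjoin ℚ F) (Set.range f)) := by
    rw [← Cardinal.mk_le_aleph0_iff]
    refine (Algebra.cardinalMk_adjoin_le _ (Set.range f)).trans ?_
    refine sup_le (sup_le ?_ ?_) le_rfl
    · exact Cardinal.mk_le_aleph0_iff.2 inferInstance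
    · exact Cardinal.mk_le_aleph0_iff.2 (Set.finite_range f).countable.to_subtype
  have hcount := Algebraic.countable
    (Algebra.adjoin (IntermediateField.adjoin ℚ F) (Set.range f)) ℂ
  refine Set.Countable.to_subtype (hcount.mono ?_)
  intro e he
  by_contra hne
  apply hmax
  have h7 := (hf.option_iff_transcendental e).2 hne
  refine ⟨fun t => (finSuccEquiv k t).elim e f, ?_, ?_⟩
  · intro t
    refine Fin.cases ?_ (fun t => ?_) t
    · change (finSuccEquiv k 0).elim e f ∈ EE L φ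
      rw [finSuccEquiv_zero]
      exact he
    · change (finSuccEquiv k t.succ).elim e f ∈ EE L φ
      rw [finSuccEquiv_succ]
      exact hfE t
  · exact h7.comp (finSuccEquiv k) (finSuccEquiv k).injective

end I_AxOutE

open I_AxOutE in
theorem AxOutE_pf (h1 : S_AxImgE) (h2 : S_LamZero) (h3 : S_LamAdd) (h4 : S_LamMul) (h5 : S_Kf) :
    S_AxOutE := by
  classical
  intro τ μ hN n m u v b hu
  obtain ⟨hk1, hk2, hk3, hk4⟩ := h5 τ hN.im
  set L : Submodule ℂ (Derivation ℚ ℂ ℂ) := TT v ⊓ TT b with hL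
  set E := EE L (omE τ μ u v) with hE
  have hLF : ∀ δ : Derivation ℚ ℂ ℂ, (∀ z ∈ Set.range v ∪ Set.range b, δ z = 0) → δ ∈ L :=
    fun δ hδ => ⟨fun i => hδ _ (Or.inl ⟨i, rfl⟩), fun i => hδ _ (Or.inr ⟨i, rfl⟩)⟩
  have hEc : Countable E := countable_EE L _ (Set.range v ∪ Set.range b)
    ((Set.finite_range v).countable.union (Set.finite_range b).countable) hLF
  have hEa : ACl E := acl L _
  have hvE : ∀ i, v i ∈ E := fun i D hD _ => hD.1 i
  have hbE : ∀ i, b i ∈ E := fun i D hD _ => hD.2 i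
  have hDKL : ∀ δ ∈ DK E, δ ∈ L := fun δ hδ => ⟨fun i => hδ _ (hvE i), fun i => hδ _ (hbE i)⟩
  let G : Submodule (kf τ) (Fin n → Fin m → kf τ) :=
    { carrier := {ξ | ∀ δ ∈ DK E, ∑ i, ∑ j, (ξ i j : ℂ) * lam τ μ δ (u i j) = 0}
      add_mem' := by
        intro a c ha hc δ hδ
        have e1 := ha δ hδ
        have e2 := hc δ hδ
        have e3 : ∑ i, ∑ j, (((a + c) i j : kf τ) : ℂ) * lam τ μ δ (u i j) =
            ∑ i, ∑ j, (a i j : ℂ) * lam τ μ δ (u i j) +
              ∑ i, ∑ j, (c i j : ℂ) * lam τ μ δ (u i j) := by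
          rw [← Finset.sum_add_distrib]
          refine Finset.sum_congr rfl fun i _ => ?_
          rw [← Finset.sum_add_distrib]
          refine Finset.sum_congr rfl fun j _ => ?_
          rw [Pi.add_apply, Pi.add_apply]
          push_cast
          ring
        rw [e3, e1, e2, add_zero]
      zero_mem' := by
        intro δ _
        refine Finset.sum_eq_zero fun i _ => Finset.sum_eq_zero fun j _ => ?_
        rw [Pi.zero_apply, Pi.zero_apply]
        push_cast
        ring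
      smul_mem' := by
        intro r a ha δ hδ
        have e1 := ha δ hδ
        have e3 : ∑ i, ∑ j, (((r • a) i j : kf τ) : ℂ) * lam τ μ δ (u i j) =
            (r : ℂ) * ∑ i, ∑ j, (a i j : ℂ) * lam τ μ δ (u i j) := by
          rw [Finset.mul_sum]
          refine Finset.sum_congr rfl fun i _ => ?_
          rw [Finset.mul_sum]
          refine Finset.sum_congr rfl fun j _ => ?_
          rw [Pi.smul_apply, Pi.smul_apply, smul_eq_mul]
          push_cast
          ring
        rw [e3, e1, mul_zero] }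
  refine ⟨G, ?_⟩
  intro k f hf hind
  have hlam0 : ∀ δ, lam τ μ δ 0 = 0 := by
    intro δ
    have e1 := h3 τ μ hN δ 0 0
    rw [add_zero] at e1
    have e2 : lam τ μ δ 0 + 0 = lam τ μ δ 0 + lam τ μ δ 0 := by rw [add_zero]; exact e1
    exact (add_left_cancel e2).symm
  have hsum : ∀ (δ : Derivation ℚ ℂ ℂ) {ι : Type} (s : Finset ι) (w : ι → ℂ),
      lam τ μ δ (∑ i ∈ s, w i) = ∑ i ∈ s, lam τ μ δ (w i) := by
    intro δ ι s w
    induction s using Finset.induction_on with
    | empty => rw [Finset.sum_empty, Finset.sum_empty, hlam0]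
    | insert a s ha ih => rw [Finset.sum_insert ha, Finset.sum_insert ha, h3 τ μ hN, ih]
  have hfE : ∀ t, f t ∈ E := by
    intro t
    obtain ⟨ξ, hξ, hnl, hft⟩ := hf t
    have e1 : ∀ δ ∈ DK E, lam τ μ δ (∑ i, ∑ j, (ξ i j : ℂ) * u i j) = 0 := by
      intro δ hδ
      rw [hsum]
      have e2 := hξ δ hδ
      rw [← e2]
      refine Finset.sum_congr rfl fun i _ => ?_
      rw [hsum]
      refine Finset.sum_congr rfl fun j _ => ?_
      exact h4 τ μ hN δ _ _ ((hk2 _).1 (ξ i j).2)
    rcases (h2 τ μ hN E hEa _).1 e1 with h6 | h6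
    · exact absurd h6 hnl
    · rw [hft]
      exact h6
  choose δ hδ hδf using fun s => dual f hind s
  let S : Submodule ℂ (Fin m → ℂ) := (annK G).map (mv v)
  let B := Module.finBasis ℂ S
  have hB : ∀ c : Fin (Module.finrank ℂ S), ∃ δ' ∈ DK E,
      omE τ μ u v δ' = (B c : Fin m → ℂ) := by
    intro c
    obtain ⟨β, hβ, hβc⟩ := (B c).2
    obtain ⟨δ', h6, h7⟩ := h1 τ μ hN n m m u v b E hEc hEa hu (mem_EE L _) β (by
      intro g hg hrel
      have h8 : (fun i j => (⟨g i j, (hk2 _).2 (hg i j)⟩ : kf τ)) ∈ G := hrel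
      exact hβ _ h8)
    exact ⟨δ', h6, by rw [h7, hβc]⟩
  choose δ' hδ'E hδ'o using hB
  have hfin := rank_arg L (omE τ μ u v) f hfE δ (fun s => hLF _ (hδ s)) hδf δ'
    (fun s => hDKL _ (hδ'E s)) (fun s t => hδ'E s _ (hfE t)) (by
      have h6 : (fun s => omE τ μ u v (δ' s)) = fun s => (B s : Fin m → ℂ) := by
        funext s
        exact hδ'o s
      rw [h6]
      exact B.linearIndependent.map' (Submodule.subtype _) (Submodule.ker_subtype _))
  exact hfin

end Pool.Agent.Work.MP_8da9ea_nt.EB
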