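import Pool.Agent.Work.MP_8da9ea_nt.EB.StmtsT
import Pool.Agent.Work.MP_327059_nt.Bd.B11

/-!
# Elliptic block, item CoefE (M2): a zero close to the origin forces a high order of vanishing
-/

set_option autoImplicit false

namespace Pool.Agent.Work.MP_8da9ea_nt.EB

open MvPolynomial Metric Filter Topology Pool.Agent.Work.MP_327059_nt.GL
  Pool.Agent.Work.MP_8da9ea_nt.S

namespace I_CoefE

/-! ## Power series -/

theorem ps_sum (c : ℕ → ℂ) (f : ℂ → ℂ) (r : ℝ) (hr : 0 < r)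
    (h : ∀ w : ℂ, ‖w‖ < r → HasSum (fun k => c k * w ^ k) (f w)) :
    Summable (fun k => ‖c k‖ * (r / 2) ^ k) := by
  have h1 := (h ((r / 2 : ℝ) : ℂ) (by
    rw [Complex.norm_real, Real.norm_eq_abs, abs_of_pos (by positivity)]
    linarith)).summable.norm
  refine h1.congr fun k => ?_
  rw [norm_mul, norm_pow, Complex.norm_real, Real.norm_eq_abs, abs_of_pos (by positivity)]

theorem ps_diff' (c : ℕ → ℂ) (ρ : ℝ) (h : Summable (fun k => ‖c k‖ * ρ ^ k)) :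
    DifferentiableOn ℂ (fun w => ∑' k, c k * w ^ k) (ball 0 ρ) := by
  refine Complex.differentiableOn_tsum_of_summable_norm h (fun k => ?_) isOpen_ball fun k w hw => ?_
  · fun_prop
  · rw [norm_mul, norm_pow]
    have : ‖w‖ ≤ ρ := (mem_ball_zero_iff.1 hw).le
    gcongr

theorem ps_diff (c : ℕ → ℂ) (f : ℂ → ℂ) (r : ℝ) (hr : 0 < r)
    (h : ∀ w : ℂ, ‖w‖ < r → HasSum (fun k => c k * w ^ k) (f w)) :
    DifferentiableOn ℂ f (ball 0 (r / 2)) := by
  refine (ps_diff' c (r / 2) (ps_sum c f r hr h)).congr fun w hw => ?_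
  have hw' : ‖w‖ < r := by
    have := mem_ball_zero_iff.1 hw
    linarith
  exact (h w hw').tsum_eq.symm

theorem ps_bound (c : ℕ → ℂ) (f : ℂ → ℂ) (r : ℝ) (hr : 0 < r)
    (h : ∀ w : ℂ, ‖w‖ < r → HasSum (fun k => c k * w ^ k) (f w)) :
    ∀ w ∈ ball (0 : ℂ) (r / 2), ‖f w‖ ≤ ∑' k, ‖c k‖ * (r / 2) ^ k := by
  intro w hw
  have hw0 := mem_ball_zero_iff.1 hw
  have hw' : ‖w‖ < r := by linarith
  rw [← (h w hw').tsum_eq]
  refine tsum_of_norm_bounded (ps_sum c f r hr h).hasSum fun k => ?_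
  rw [norm_mul, norm_pow]
  gcongr

theorem ps_rem (c : ℕ → ℂ) (f : ℂ → ℂ) (r : ℝ) (hr : 0 < r)
    (h : ∀ w : ℂ, ‖w‖ < r → HasSum (fun k => c k * w ^ k) (f w)) (K : ℕ) :
    ∃ e : ℂ → ℂ, DifferentiableOn ℂ e (ball 0 (r / 2)) ∧ ∀ w ∈ ball (0 : ℂ) (r / 2),
      f w = ∑ i ∈ Finset.range (K + 1), c i * w ^ i + w ^ (K + 1) * e w := by
  have hs := ps_sum c f r hr h
  have hs1 : Summable (fun k => ‖c (k + (K + 1))‖ * (r / 2) ^ k) := by
    have h1 := (summable_nat_add_iff (K + 1)).2 hs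
    have h2 := h1.mul_left (((r / 2) ^ (K + 1))⁻¹)
    refine h2.congr fun k => ?_
    rw [pow_add (r / 2) k (K + 1)]
    have h3 : (r / 2) ^ (K + 1) ≠ 0 := by positivity
    generalize (r / 2) ^ (K + 1) = A at h3
    rw [show A⁻¹ * (‖c (k + (K + 1))‖ * ((r / 2) ^ k * A)) =
      ‖c (k + (K + 1))‖ * (r / 2) ^ k * (A⁻¹ * A) by ring, inv_mul_cancel₀ h3, mul_one]
  refine ⟨fun w => ∑' k, c (k + (K + 1)) * w ^ k, ps_diff' _ _ hs1, ?_⟩
  intro w hw
  have hw' : ‖w‖ < r := by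
    have := mem_ball_zero_iff.1 hw
    linarith
  have h1 := h w hw'
  have h2 := h1.summable.sum_add_tsum_nat_add (K + 1)
  rw [h1.tsum_eq] at h2
  rw [← h2, ← tsum_mul_left]
  congr 1
  refine tsum_congr fun k => ?_
  rw [pow_add]
  ring

/-! ## Smallness of the first coefficient -/

theorem small (G : ℂ → ℂ) (ρ B : ℝ) (hρ : 0 < ρ) (a : ℂ) (k₀ : ℕ) (e : ℂ → ℂ) (t₀ : ℂ)
    (hG : DifferentiableOn ℂ G (ball 0 ρ)) (hB : ∀ t ∈ ball (0 : ℂ) ρ, ‖G t‖ ≤ B)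
    (he : AnalyticAt ℂ e 0) (hGe : ∀ᶠ t in 𝓝 (0 : ℂ), G t = t ^ k₀ * (a + t * e t))
    (ht₀ : t₀ ≠ 0) (ht₁ : ‖t₀‖ ≤ ρ / 4) (hG₀ : G t₀ = 0) :
    ‖a‖ ≤ 4 * B * ‖t₀‖ / (ρ * (ρ / 2) ^ k₀) := by
  classical
  set H : ℂ → ℂ := fun t => if t = 0 then a else G t / t ^ k₀ with hH
  have hHe : ∀ᶠ t in 𝓝 (0 : ℂ), H t = a + t * e t := by
    filter_upwards [hGe] with t ht
    simp only [hH]
    split_ifs with h0
    · rw [h0, zero_mul, add_zero]
    · rw [ht]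
      field_simp
  have hHd : DifferentiableOn ℂ H (ball 0 ρ) := by
    intro t ht
    by_cases h0 : t = 0
    · subst h0
      have h1 : AnalyticAt ℂ (fun t => a + t * e t) 0 := by fun_prop
      exact (h1.differentiableAt.congr_of_eventuallyEq hHe).differentiableWithinAt
    · have h1 : DifferentiableAt ℂ G t := hG.differentiableAt (isOpen_ball.mem_nhds ht)
      have h2 : DifferentiableAt ℂ (fun t => G t / t ^ k₀) t :=
        h1.div (by fun_prop) (pow_ne_zero _ h0)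
      refine (h2.congr_of_eventuallyEq ?_).differentiableWithinAt
      filter_upwards [isOpen_ne.mem_nhds h0] with s hs
      simp only [hH]
      rw [if_neg hs]
  have ht₀ρ : t₀ ∈ ball (0 : ℂ) ρ := by
    rw [mem_ball_zero_iff]
    linarith
  have hD : DifferentiableOn ℂ (dslope H t₀) (ball 0 ρ) :=
    (Complex.differentiableOn_dslope (isOpen_ball.mem_nhds ht₀ρ)).2 hHd
  have hH₀ : H t₀ = 0 := by
    simp only [hH]
    rw [if_neg ht₀, hG₀, zero_div]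
  have hH0 : H 0 = a := by simp [hH]
  have hB0 : 0 ≤ B := (norm_nonneg _).trans (hB 0 (by simpa using hρ))
  have hfr : ∀ t ∈ frontier (ball (0 : ℂ) (ρ / 2)), ‖dslope H t₀ t‖ ≤
      4 * B / (ρ * (ρ / 2) ^ k₀) := by
    intro t ht
    rw [frontier_ball _ (by positivity), mem_sphere_zero_iff_norm] at ht
    have htt : t ≠ t₀ := by
      intro h
      rw [h] at ht
      linarith
    have ht0 : t ≠ 0 := by
      intro h
      rw [h, norm_zero] at ht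
      linarith
    rw [dslope_of_ne _ htt, slope_def_field, hH₀, sub_zero]
    simp only [hH]
    rw [if_neg ht0, norm_div, norm_div, norm_pow, ht]
    have h1 : ρ / 4 ≤ ‖t - t₀‖ := by
      have := norm_sub_norm_le t t₀
      linarith
    have h2 : ‖G t‖ ≤ B := hB t (by
      rw [mem_ball_zero_iff, ht]
      linarith)
    have h3 : 0 < (ρ / 2) ^ k₀ := by positivity
    calc ‖G t‖ / (ρ / 2) ^ k₀ / ‖t - t₀‖ ≤ B / (ρ / 2) ^ k₀ / (ρ / 4) := by gcongr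
      _ = 4 * B / (ρ * (ρ / 2) ^ k₀) := by
        field_simp
  have hmax : ‖dslope H t₀ 0‖ ≤ 4 * B / (ρ * (ρ / 2) ^ k₀) := by
    refine Complex.norm_le_of_forall_mem_frontier_norm_le isBounded_ball ?_ hfr
      (subset_closure (by
        rw [mem_ball_zero_iff, norm_zero]
        positivity))
    refine (hD.mono ?_).diffContOnCl
    rw [closure_ball _ (by positivity)]
    exact closedBall_subset_ball (by linarith)
  rw [dslope_of_ne _ (Ne.symm ht₀), slope_def_field, hH₀, hH0, sub_zero, zero_sub, norm_div,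
    norm_neg, div_le_iff₀ (norm_pos_iff.2 ht₀)] at hmax
  calc ‖a‖ ≤ 4 * B / (ρ * (ρ / 2) ^ k₀) * ‖t₀‖ := hmax
    _ = _ := by ring

/-! ## Taylor polynomials given by integer polynomials -/

/-- The variables. -/
abbrev Sg (m : ℕ) : Type := Fin m ⊕ Fin 2

/-- The point `(t b, g)`. -/
noncomputable def pt {m : ℕ} (b : Fin m → ℂ) (g : Fin 2 → ℂ) (t : ℂ) : Sg m → ℂ :=
  Sum.elim (fun j => t * b j) g

/-- `f` equals the polynomial `Φ` up to order `K`. -/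
def Ta {m : ℕ} (K : ℕ) (b : Fin m → ℂ) (g : Fin 2 → ℂ) (f : ℂ → ℂ)
    (Φ : MvPolynomial (Sg m) ℤ) : Prop :=
  ∃ e : ℂ → ℂ, AnalyticAt ℂ e 0 ∧ ∀ᶠ t in 𝓝 (0 : ℂ),
    f t = aeval (pt b g t) Φ + t ^ (K + 1) * e t

theorem pt_an {m : ℕ} (b : Fin m → ℂ) (g : Fin 2 → ℂ) (Φ : MvPolynomial (Sg m) ℤ) :
    AnalyticAt ℂ (fun t => aeval (pt b g t) Φ) 0 := by
  refine AnalyticAt.aeval_mvPolynomial (fun i => ?_) Φ
  rcases i with j | j
  · simp only [pt, Sum.elim_inl]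
    fun_prop
  · simp only [pt, Sum.elim_inr]
    fun_prop

theorem Ta_self {m : ℕ} (K : ℕ) (b : Fin m → ℂ) (g : Fin 2 → ℂ) (Φ : MvPolynomial (Sg m) ℤ)
    (f : ℂ → ℂ) (h : ∀ t, f t = aeval (pt b g t) Φ) : Ta K b g f Φ :=
  ⟨fun _ => 0, analyticAt_const, Eventually.of_forall fun t => by rw [h t]; simp⟩

theorem Ta_add {m : ℕ} {K : ℕ} {b : Fin m → ℂ} {g : Fin 2 → ℂ} {f₁ f₂ : ℂ → ℂ}
    {Φ₁ Φ₂ : MvPolynomial (Sg m) ℤ} (h1 : Ta K b g f₁ Φ₁) (h2 : Ta K b g f₂ Φ₂) :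
    Ta K b g (fun t => f₁ t + f₂ t) (Φ₁ + Φ₂) := by
  obtain ⟨e1, a1, h1⟩ := h1
  obtain ⟨e2, a2, h2⟩ := h2
  refine ⟨fun t => e1 t + e2 t, a1.add a2, ?_⟩
  filter_upwards [h1, h2] with t ht1 ht2
  rw [ht1, ht2, map_add]
  ring

theorem Ta_mul {m : ℕ} {K : ℕ} {b : Fin m → ℂ} {g : Fin 2 → ℂ} {f₁ f₂ : ℂ → ℂ}
    {Φ₁ Φ₂ : MvPolynomial (Sg m) ℤ} (h1 : Ta K b g f₁ Φ₁) (h2 : Ta K b g f₂ Φ₂) :
    Ta K b g (fun t => f₁ t * f₂ t) (Φ₁ * Φ₂) := by
  obtain ⟨e1, a1, h1⟩ := h1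
  obtain ⟨e2, a2, h2⟩ := h2
  refine ⟨fun t => aeval (pt b g t) Φ₁ * e2 t + aeval (pt b g t) Φ₂ * e1 t +
    t ^ (K + 1) * e1 t * e2 t, ?_, ?_⟩
  · have p1 := pt_an b g Φ₁
    have p2 := pt_an b g Φ₂
    fun_prop
  filter_upwards [h1, h2] with t ht1 ht2
  rw [ht1, ht2, map_mul]
  ring

theorem Ta_prod {m : ℕ} {K : ℕ} {b : Fin m → ℂ} {g : Fin 2 → ℂ} {κ : Type} (s : Finset κ)
    (f : κ → ℂ → ℂ) (Φ : κ → MvPolynomial (Sg m) ℤ) (h : ∀ i ∈ s, Ta K b g (f i) (Φ i)) :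
    Ta K b g (fun t => ∏ i ∈ s, f i t) (∏ i ∈ s, Φ i) := by
  classical
  induction s using Finset.induction_on with
  | empty =>
    simp only [Finset.prod_empty]
    exact Ta_self _ _ _ _ _ fun t => by simp
  | insert i s hi ih =>
    simp only [Finset.prod_insert hi]
    exact Ta_mul (h i (Finset.mem_insert_self _ _))
      (ih fun j hj => h j (Finset.mem_insert_of_mem hj))

theorem Ta_sum {m : ℕ} {K : ℕ} {b : Fin m → ℂ} {g : Fin 2 → ℂ} {κ : Type} (s : Finset κ)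
    (f : κ → ℂ → ℂ) (Φ : κ → MvPolynomial (Sg m) ℤ) (h : ∀ i ∈ s, Ta K b g (f i) (Φ i)) :
    Ta K b g (fun t => ∑ i ∈ s, f i t) (∑ i ∈ s, Φ i) := by
  classical
  induction s using Finset.induction_on with
  | empty =>
    simp only [Finset.sum_empty]
    exact Ta_self _ _ _ _ _ fun t => by simp
  | insert i s hi ih =>
    simp only [Finset.sum_insert hi]
    exact Ta_add (h i (Finset.mem_insert_self _ _))
      (ih fun j hj => h j (Finset.mem_insert_of_mem hj))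

theorem Ta_pow {m : ℕ} {K : ℕ} {b : Fin m → ℂ} {g : Fin 2 → ℂ} {f : ℂ → ℂ}
    {Φ : MvPolynomial (Sg m) ℤ} (h : Ta K b g f Φ) (k : ℕ) :
    Ta K b g (fun t => f t ^ k) (Φ ^ k) := by
  have h1 := Ta_prod (Finset.range k) (fun _ => f) (fun _ => Φ) (fun _ _ => h)
  simpa using h1

/-! ## Weights -/

/-- The degree in the first variables. -/
def wt {m : ℕ} (d : Sg m →₀ ℕ) : ℕ := ∑ j, d (Sum.inl j)

/-- The component of weight `k`. -/
noncomputable def cp {m : ℕ} (k : ℕ) (Φ : MvPolynomial (Sg m) ℤ) : MvPolynomial (Sg m) ℤ :=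
  ∑ d ∈ Φ.support.filter (fun d => wt d = k), monomial d (Φ.coeff d)

theorem cp_eval {m : ℕ} (b : Fin m → ℂ) (g : Fin 2 → ℂ) (t : ℂ) (Φ : MvPolynomial (Sg m) ℤ)
    (k : ℕ) : aeval (pt b g t) (cp k Φ) = t ^ k * aeval (pt b g 1) (cp k Φ) := by
  unfold cp
  rw [map_sum, map_sum, Finset.mul_sum]
  refine Finset.sum_congr rfl fun d hd => ?_
  have hk := (Finset.mem_filter.1 hd).2
  rw [aeval_monomial, aeval_monomial, Finsupp.prod_fintype _ _ (fun _ => pow_zero _),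
    Finsupp.prod_fintype _ _ (fun _ => pow_zero _), Fintype.prod_sum_type, Fintype.prod_sum_type]
  simp only [pt, Sum.elim_inl, Sum.elim_inr, one_mul, mul_pow, Finset.prod_mul_distrib]
  rw [Finset.prod_pow_eq_pow_sum]
  unfold wt at hk
  rw [hk]
  ring

theorem wt_le {m : ℕ} {Φ : MvPolynomial (Sg m) ℤ} {d : Sg m →₀ ℕ} (hd : d ∈ Φ.support) :
    wt d ≤ Φ.totalDegree := by
  have h1 := le_totalDegree hd
  refine le_trans ?_ h1
  rw [Finsupp.sum_fintype _ _ (fun _ => rfl), Fintype.sum_sum_type]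
  unfold wt
  exact Nat.le_add_right _ _

theorem cp_sum {m : ℕ} (Φ : MvPolynomial (Sg m) ℤ) (N : ℕ) (hN : Φ.totalDegree ≤ N) :
    Φ = ∑ k ∈ Finset.range (N + 1), cp k Φ := by
  classical
  unfold cp
  conv_lhs => rw [Φ.as_sum]
  rw [← Finset.sum_fiberwise_of_maps_to (s := Φ.support) (t := Finset.range (N + 1)) (g := wt)]
  intro d hd
  rw [Finset.mem_range]
  have := wt_le hd
  omega

theorem cp_len {m : ℕ} (k : ℕ) (Φ : MvPolynomial (Sg m) ℤ) : len (cp k Φ) ≤ len Φ := by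
  unfold cp
  refine (Val_len_sum _ _).trans ?_
  refine (Finset.sum_le_sum fun d _ => Val_len_monomial d _).trans ?_
  unfold len
  exact Finset.sum_le_sum_of_subset_of_nonneg (Finset.filter_subset _ _)
    fun _ _ _ => abs_nonneg _

theorem cp_deg {m : ℕ} (k : ℕ) (Φ : MvPolynomial (Sg m) ℤ) :
    (cp k Φ).totalDegree ≤ Φ.totalDegree := by
  unfold cp
  refine totalDegree_finsetSum_le fun d hd => ?_
  refine (totalDegree_monomial_le _ _).trans ?_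
  exact le_totalDegree (Finset.mem_filter.1 hd).1

/-- First alternative: all components of weight at most `K` vanish. -/
theorem Ta_all {m : ℕ} {K : ℕ} {b : Fin m → ℂ} {g : Fin 2 → ℂ} {f : ℂ → ℂ}
    {Φ : MvPolynomial (Sg m) ℤ} (h : Ta K b g f Φ)
    (h0 : ∀ k ≤ K, aeval (pt b g 1) (cp k Φ) = 0) :
    ∃ e : ℂ → ℂ, AnalyticAt ℂ e 0 ∧ ∀ᶠ t in 𝓝 (0 : ℂ), f t = t ^ (K + 1) * e t := by
  obtain ⟨e, he, hf⟩ := h
  set N := max K Φ.totalDegree with hN
  refine ⟨fun t => (∑ k ∈ Finset.Ico (K + 1) (N + 1), t ^ (k - (K + 1)) *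
    aeval (pt b g 1) (cp k Φ)) + e t, ?_, ?_⟩
  · refine AnalyticAt.add ?_ he
    refine Finset.analyticAt_fun_sum _ fun k _ => ?_
    fun_prop
  filter_upwards [hf] with t ht
  rw [ht, mul_add]
  congr 1
  conv_lhs => rw [cp_sum Φ N (le_max_right _ _)]
  rw [map_sum, Finset.mul_sum, ← Finset.sum_range_add_sum_Ico _ (show K + 1 ≤ N + 1 by omega),
    Finset.sum_eq_zero, zero_add]
  · refine Finset.sum_congr rfl fun k hk => ?_
    rw [cp_eval, ← mul_assoc, ← pow_add]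
    congr 2
    have := (Finset.mem_Ico.1 hk).1
    omega
  · intro k hk
    rw [cp_eval, h0 k (by
      have := Finset.mem_range.1 hk
      omega), mul_zero]

/-- Second alternative: the first non-zero component. -/
theorem Ta_first {m : ℕ} {K : ℕ} {b : Fin m → ℂ} {g : Fin 2 → ℂ} {f : ℂ → ℂ}
    {Φ : MvPolynomial (Sg m) ℤ} (h : Ta K b g f Φ) (k₀ : ℕ) (hk₀ : k₀ ≤ K)
    (h0 : ∀ k < k₀, aeval (pt b g 1) (cp k Φ) = 0) :
    ∃ e : ℂ → ℂ, AnalyticAt ℂ e 0 ∧ ∀ᶠ t in 𝓝 (0 : ℂ),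
      f t = t ^ k₀ * (aeval (pt b g 1) (cp k₀ Φ) + t * e t) := by
  obtain ⟨e, he, hf⟩ := h
  set N := max K Φ.totalDegree with hN
  refine ⟨fun t => (∑ k ∈ Finset.Ico (k₀ + 1) (N + 1), t ^ (k - (k₀ + 1)) *
    aeval (pt b g 1) (cp k Φ)) + t ^ (K - k₀) * e t, ?_, ?_⟩
  · refine AnalyticAt.add ?_ (by fun_prop)
    refine Finset.analyticAt_fun_sum _ fun k _ => ?_
    fun_prop
  filter_upwards [hf] with t ht
  have h1 : aeval (pt b g t) Φ = t ^ k₀ * aeval (pt b g 1) (cp k₀ Φ) +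
      ∑ k ∈ Finset.Ico (k₀ + 1) (N + 1), t ^ k * aeval (pt b g 1) (cp k Φ) := by
    conv_lhs => rw [cp_sum Φ N (le_max_right _ _)]
    rw [map_sum, ← Finset.sum_range_add_sum_Ico _ (show k₀ + 1 ≤ N + 1 by omega),
      Finset.sum_range_succ, Finset.sum_eq_zero, zero_add, cp_eval]
    · congr 1
      exact Finset.sum_congr rfl fun k _ => cp_eval _ _ _ _ _
    · intro k hk
      rw [cp_eval, h0 k (Finset.mem_range.1 hk), mul_zero]
  rw [ht, h1, mul_add, mul_add, mul_add, Finset.mul_sum, Finset.mul_sum, add_assoc]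
  congr 1
  congr 1
  · refine Finset.sum_congr rfl fun k hk => ?_
    have hk' := (Finset.mem_Ico.1 hk).1
    rw [← mul_assoc, ← mul_assoc, ← pow_succ, ← pow_add]
    congr 2
    omega
  · rw [← mul_assoc, ← mul_assoc, ← pow_succ, ← pow_add]
    congr 2
    omega


/-! ## The polynomials -/

/-- The polynomial of `φ(M b_j t)`. -/
noncomputable def Th {m : ℕ} (K : ℕ) (ψ : ℕ → MvPolynomial (Fin 2) ℤ) (j : Fin m) :
    MvPolynomial (Sg m) ℤ :=
  ∑ i ∈ Finset.range (K + 1), rename Sum.inr (ψ i) * X (Sum.inl j) ^ i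

/-- The polynomial of a monomial. -/
noncomputable def Mo {m : ℕ} (M D K : ℕ) (ψ : ℕ → MvPolynomial (Fin 2) ℤ) (d : Fin m →₀ ℕ) :
    MvPolynomial (Sg m) ℤ :=
  ∏ j, ((C (M : ℤ) * X (Sum.inl j)) ^ (2 * (D - d j)) * Th K ψ j ^ d j)

/-- The polynomial of the function. -/
noncomputable def Ph {m : ℕ} (M D K : ℕ) (ψ : ℕ → MvPolynomial (Fin 2) ℤ)
    (R : MvPolynomial (Fin m) ℤ) : MvPolynomial (Sg m) ℤ :=
  ∑ d ∈ R.support, C (R.coeff d) * Mo M D K ψ d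

/-- The function. -/
noncomputable def GG {m : ℕ} (φ : ℂ → ℂ) (M D : ℕ) (b : Fin m → ℂ) (R : MvPolynomial (Fin m) ℤ)
    (t : ℂ) : ℂ :=
  ∑ d ∈ R.support, ((R.coeff d : ℤ) : ℂ) *
    ∏ j, ((((M : ℂ) * (t * b j)) ^ (2 * (D - d j))) * φ ((M : ℂ) * (t * b j)) ^ d j)

theorem Ta_Th {m : ℕ} (K M : ℕ) (ψ : ℕ → MvPolynomial (Fin 2) ℤ) (b : Fin m → ℂ) (g : Fin 2 → ℂ)
    (φ : ℂ → ℂ) (c : ℕ → ℂ) (r : ℝ) (hr : 0 < r)
    (h : ∀ w : ℂ, ‖w‖ < r → HasSum (fun k => c k * w ^ k) (φ w))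
    (hc : ∀ k, k ≤ K → (M : ℂ) ^ k * c k = aeval g (ψ k)) (j : Fin m) :
    Ta K b g (fun t => φ ((M : ℂ) * (t * b j))) (Th K ψ j) := by
  obtain ⟨e, he, hf⟩ := ps_rem c φ r hr h K
  have he0 : AnalyticAt ℂ e ((M : ℂ) * (0 * b j)) := by
    rw [zero_mul, mul_zero]
    exact he.analyticAt (ball_mem_nhds _ (by positivity))
  refine ⟨fun t => ((M : ℂ) * b j) ^ (K + 1) * e ((M : ℂ) * (t * b j)), ?_, ?_⟩
  · refine analyticAt_const.mul ?_
    exact he0.comp (f := fun t : ℂ => (M : ℂ) * (t * b j)) (by fun_prop)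
  have hcont : Continuous (fun t : ℂ => (M : ℂ) * (t * b j)) := by fun_prop
  have hev : ∀ᶠ t in 𝓝 (0 : ℂ), (M : ℂ) * (t * b j) ∈ ball (0 : ℂ) (r / 2) := by
    refine hcont.continuousAt.eventually (isOpen_ball.mem_nhds ?_)
    simp only [zero_mul, mul_zero]
    exact mem_ball_self (by positivity)
  filter_upwards [hev] with t ht
  rw [hf _ ht]
  congr 1
  · unfold Th
    rw [map_sum]
    refine Finset.sum_congr rfl fun i hi => ?_
    have hi' : i ≤ K := by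
      have := Finset.mem_range.1 hi
      omega
    rw [map_mul, map_pow, aeval_X, aeval_rename]
    have e1 : (pt b g t ∘ Sum.inr : Fin 2 → ℂ) = g := by
      funext q
      simp [pt]
    rw [e1, ← hc i hi']
    simp only [pt, Sum.elim_inl]
    ring
  · ring

theorem Ta_GG {m : ℕ} (K M D : ℕ) (ψ : ℕ → MvPolynomial (Fin 2) ℤ) (b : Fin m → ℂ)
    (g : Fin 2 → ℂ) (φ : ℂ → ℂ) (c : ℕ → ℂ) (r : ℝ) (hr : 0 < r)
    (h : ∀ w : ℂ, ‖w‖ < r → HasSum (fun k => c k * w ^ k) (φ w))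
    (hc : ∀ k, k ≤ K → (M : ℂ) ^ k * c k = aeval g (ψ k)) (R : MvPolynomial (Fin m) ℤ) :
    Ta K b g (GG φ M D b R) (Ph M D K ψ R) := by
  unfold Ph
  refine Ta_sum _ (fun d t => ((R.coeff d : ℤ) : ℂ) *
    ∏ j, ((((M : ℂ) * (t * b j)) ^ (2 * (D - d j))) * φ ((M : ℂ) * (t * b j)) ^ d j)) _
    fun d _ => ?_
  refine Ta_mul (f₁ := fun _ => ((R.coeff d : ℤ) : ℂ)) (Ta_self _ _ _ _ _ fun t => by simp) ?_
  unfold Mo
  refine Ta_prod _ (fun j t => (((M : ℂ) * (t * b j)) ^ (2 * (D - d j))) *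
    φ ((M : ℂ) * (t * b j)) ^ d j) _ fun j _ => ?_
  refine Ta_mul (f₁ := fun t => ((M : ℂ) * (t * b j)) ^ (2 * (D - d j)))
    (Ta_self _ _ _ _ _ fun t => ?_) (Ta_pow (Ta_Th K M ψ b g φ c r hr h hc j) _)
  rw [map_pow, map_mul, aeval_X]
  simp [pt]

/-! ## Sizes of the polynomials -/

theorem ren_deg {σ ρ : Type} (f : σ → ρ) (P : MvPolynomial σ ℤ) :
    (rename f P).totalDegree ≤ P.totalDegree := totalDegree_rename_le f P

theorem ren_len {σ ρ : Type} {f : σ → ρ} (hf : Function.Injective f)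
    (P : MvPolynomial σ ℤ) : len (rename f P) = len P := by
  classical
  unfold len
  rw [support_rename_of_injective hf,
    Finset.sum_image (fun x _ y _ h => Finsupp.mapDomain_injective hf h)]
  refine Finset.sum_congr rfl (fun d _ => ?_)
  rw [coeff_rename_mapDomain f hf]

theorem Th_len {m : ℕ} (K M : ℕ) (hM : 1 ≤ M) (ψ : ℕ → MvPolynomial (Fin 2) ℤ)
    (h : ∀ k, k ≤ K → len (ψ k) ≤ (M : ℝ) ^ k) (j : Fin m) :
    len (Th K ψ j) ≤ ((K : ℝ) + 1) * (M : ℝ) ^ K := by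
  have hM' : (1 : ℝ) ≤ M := by exact_mod_cast hM
  unfold Th
  refine (Val_len_sum _ _).trans ?_
  have : ∀ i ∈ Finset.range (K + 1),
      len (rename Sum.inr (ψ i) * X (Sum.inl j) ^ i : MvPolynomial (Sg m) ℤ) ≤ (M : ℝ) ^ K := by
    intro i hi
    have hi' : i ≤ K := by
      have := Finset.mem_range.1 hi
      omega
    refine (Val_len_mul _ _).trans ?_
    rw [ren_len Sum.inr_injective]
    have h1 : len (X (Sum.inl j) ^ i : MvPolynomial (Sg m) ℤ) ≤ 1 := by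
      refine (Val_len_pow _ _).trans ?_
      exact pow_le_one₀ (Val_len_nonneg _) (Val_len_X _)
    calc len (ψ i) * len (X (Sum.inl j) ^ i : MvPolynomial (Sg m) ℤ) ≤ (M : ℝ) ^ i * 1 :=
          mul_le_mul (h i hi') h1 (Val_len_nonneg _) (by positivity)
      _ ≤ (M : ℝ) ^ K := by
        rw [mul_one]
        exact pow_le_pow_right₀ hM' hi'
  refine (Finset.sum_le_sum this).trans ?_
  rw [Finset.sum_const, Finset.card_range, nsmul_eq_mul]
  push_cast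
  exact le_rfl

theorem Th_deg {m : ℕ} (K : ℕ) (ψ : ℕ → MvPolynomial (Fin 2) ℤ)
    (h : ∀ k, k ≤ K → (ψ k).totalDegree ≤ k) (j : Fin m) :
    (Th K ψ j).totalDegree ≤ 2 * K := by
  unfold Th
  refine totalDegree_finsetSum_le fun i hi => ?_
  have hi' : i ≤ K := by
    have := Finset.mem_range.1 hi
    omega
  refine (totalDegree_mul _ _).trans ?_
  have h1 := (ren_deg Sum.inr (ψ i) : (rename Sum.inr (ψ i) :
    MvPolynomial (Sg m) ℤ).totalDegree ≤ _)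
  have h2 := h i hi'
  have h3 : (X (Sum.inl j) ^ i : MvPolynomial (Sg m) ℤ).totalDegree ≤ i := by
    refine (totalDegree_pow _ _).trans ?_
    rw [totalDegree_X, mul_one]
  omega

theorem Mo_len {m : ℕ} (M D K : ℕ) (hM : 1 ≤ M) (ψ : ℕ → MvPolynomial (Fin 2) ℤ)
    (h : ∀ k, k ≤ K → len (ψ k) ≤ (M : ℝ) ^ k) (d : Fin m →₀ ℕ) (hd : ∀ j, d j ≤ D) :
    len (Mo M D K ψ d) ≤ ((M : ℝ) ^ (2 * D) * (((K : ℝ) + 1) * (M : ℝ) ^ K) ^ D) ^ m := by
  have hM' : (1 : ℝ) ≤ M := by exact_mod_cast hM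
  unfold Mo
  refine (Val_len_prod _ _).trans ?_
  have h1 : ∀ j ∈ (Finset.univ : Finset (Fin m)),
      len ((C (M : ℤ) * X (Sum.inl j)) ^ (2 * (D - d j)) * Th K ψ j ^ d j :
        MvPolynomial (Sg m) ℤ) ≤ (M : ℝ) ^ (2 * D) * (((K : ℝ) + 1) * (M : ℝ) ^ K) ^ D := by
    intro j _
    refine (Val_len_mul _ _).trans ?_
    refine mul_le_mul ?_ ?_ (Val_len_nonneg _) (by positivity)
    · refine (Val_len_pow _ _).trans ?_
      have a1 : len (C (M : ℤ) * X (Sum.inl j) : MvPolynomial (Sg m) ℤ) ≤ M := by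
        refine (Val_len_mul _ _).trans ?_
        have a2 := Val_len_C (σ := Sg m) (M : ℤ)
        have a3 := Val_len_X (σ := Sg m) (Sum.inl j)
        rw [Int.cast_natCast, abs_of_nonneg (by positivity)] at a2
        calc _ ≤ (M : ℝ) * 1 := mul_le_mul a2 a3 (Val_len_nonneg _) (by positivity)
          _ = M := mul_one _
      refine (pow_le_pow_left₀ (Val_len_nonneg _) a1 _).trans ?_
      exact pow_le_pow_right₀ hM' (by omega)
    · refine (Val_len_pow _ _).trans ?_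
      refine (pow_le_pow_left₀ (Val_len_nonneg _) (Th_len K M hM ψ h j) _).trans ?_
      refine pow_le_pow_right₀ ?_ (hd j)
      have b1 : (1 : ℝ) ≤ (M : ℝ) ^ K := one_le_pow₀ hM'
      have b2 : (1 : ℝ) ≤ (K : ℝ) + 1 := by
        have : (0 : ℝ) ≤ K := Nat.cast_nonneg K
        linarith
      calc (1 : ℝ) = 1 * 1 := (one_mul _).symm
        _ ≤ ((K : ℝ) + 1) * (M : ℝ) ^ K := mul_le_mul b2 b1 zero_le_one (by positivity)
  refine (Finset.prod_le_prod (fun _ _ => Val_len_nonneg _) h1).trans ?_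
  rw [Finset.prod_const, Finset.card_univ, Fintype.card_fin]

theorem Mo_deg {m : ℕ} (M D K : ℕ) (ψ : ℕ → MvPolynomial (Fin 2) ℤ)
    (h : ∀ k, k ≤ K → (ψ k).totalDegree ≤ k) (d : Fin m →₀ ℕ) (hd : ∀ j, d j ≤ D) :
    (Mo M D K ψ d).totalDegree ≤ m * (2 * D + D * (2 * K)) := by
  unfold Mo
  refine (totalDegree_finsetProd _ _).trans ?_
  have h1 : ∀ j ∈ (Finset.univ : Finset (Fin m)),
      ((C (M : ℤ) * X (Sum.inl j)) ^ (2 * (D - d j)) * Th K ψ j ^ d j :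
        MvPolynomial (Sg m) ℤ).totalDegree ≤ 2 * D + D * (2 * K) := by
    intro j _
    refine (totalDegree_mul _ _).trans ?_
    refine Nat.add_le_add ?_ ?_
    · refine (totalDegree_pow _ _).trans ?_
      have a1 : (C (M : ℤ) * X (Sum.inl j) : MvPolynomial (Sg m) ℤ).totalDegree ≤ 1 := by
        refine (totalDegree_mul _ _).trans ?_
        rw [totalDegree_C, zero_add, totalDegree_X]
      calc 2 * (D - d j) * _ ≤ 2 * (D - d j) * 1 := Nat.mul_le_mul_left _ a1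
        _ ≤ 2 * D := by omega
    · refine (totalDegree_pow _ _).trans ?_
      exact Nat.mul_le_mul (hd j) (Th_deg K ψ h j)
  refine (Finset.sum_le_sum h1).trans ?_
  rw [Finset.sum_const, Finset.card_univ, Fintype.card_fin, smul_eq_mul]

theorem supp_card {m : ℕ} (D : ℕ) (R : MvPolynomial (Fin m) ℤ)
    (hR : ∀ d ∈ R.support, ∀ j, d j ≤ D) : R.support.card ≤ (D + 1) ^ m := by
  classical
  have h1 : R.support.card ≤ (Finset.univ : Finset (Fin m → Fin (D + 1))).card := by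
    refine Finset.card_le_card_of_injOn
      (fun d j => ⟨min (d j) D, Nat.lt_succ_of_le (min_le_right _ _)⟩) (fun _ _ => by simp) ?_
    intro d hd d' hd' he
    ext j
    have h2 := congrFun he j
    rw [Fin.mk.injEq, min_eq_left (hR d hd j), min_eq_left (hR d' hd' j)] at h2
    exact h2
  rw [Finset.card_univ, Fintype.card_fun, Fintype.card_fin, Fintype.card_fin] at h1
  exact h1

theorem Ph_len {m : ℕ} (M D K : ℕ) (hM : 1 ≤ M) (ψ : ℕ → MvPolynomial (Fin 2) ℤ)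
    (h : ∀ k, k ≤ K → len (ψ k) ≤ (M : ℝ) ^ k) (R : MvPolynomial (Fin m) ℤ) (H : ℝ)
    (hR : ∀ d ∈ R.support, ∀ j, d j ≤ D) (hH : ∀ d, |((R.coeff d : ℤ) : ℝ)| ≤ Real.exp H) :
    len (Ph M D K ψ R) ≤ ((D : ℝ) + 1) ^ m * (Real.exp H *
      ((M : ℝ) ^ (2 * D) * (((K : ℝ) + 1) * (M : ℝ) ^ K) ^ D) ^ m) := by
  unfold Ph
  refine (Val_len_sum _ _).trans ?_
  have h1 : ∀ d ∈ R.support, len (C (R.coeff d) * Mo M D K ψ d) ≤ Real.exp H *
      ((M : ℝ) ^ (2 * D) * (((K : ℝ) + 1) * (M : ℝ) ^ K) ^ D) ^ m := by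
    intro d hd
    refine (Val_len_mul _ _).trans ?_
    exact mul_le_mul ((Val_len_C _).trans (hH d)) (Mo_len M D K hM ψ h d (hR d hd))
      (Val_len_nonneg _) (Real.exp_pos _).le
  refine (Finset.sum_le_sum h1).trans ?_
  rw [Finset.sum_const, nsmul_eq_mul]
  have h2 : ((R.support.card : ℕ) : ℝ) ≤ ((D : ℝ) + 1) ^ m := by
    exact_mod_cast supp_card D R hR
  refine mul_le_mul_of_nonneg_right h2 ?_
  positivity

theorem Ph_deg {m : ℕ} (M D K : ℕ) (ψ : ℕ → MvPolynomial (Fin 2) ℤ)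
    (h : ∀ k, k ≤ K → (ψ k).totalDegree ≤ k) (R : MvPolynomial (Fin m) ℤ)
    (hR : ∀ d ∈ R.support, ∀ j, d j ≤ D) :
    (Ph M D K ψ R).totalDegree ≤ m * (2 * D + D * (2 * K)) := by
  unfold Ph
  refine totalDegree_finsetSum_le fun d hd => ?_
  refine (totalDegree_mul _ _).trans ?_
  rw [totalDegree_C, zero_add]
  exact Mo_deg M D K ψ h d (hR d hd)

/-! ## The function -/

theorem GG_diff {m : ℕ} (φ : ℂ → ℂ) (r : ℝ) (hφ : DifferentiableOn ℂ φ (ball 0 r)) (M D : ℕ)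
    (b : Fin m → ℂ) (R : MvPolynomial (Fin m) ℤ) (ρ : ℝ)
    (hρ : ∀ t ∈ ball (0 : ℂ) ρ, ∀ j, (M : ℂ) * (t * b j) ∈ ball (0 : ℂ) r) :
    DifferentiableOn ℂ (GG φ M D b R) (ball 0 ρ) := by
  unfold GG
  refine DifferentiableOn.fun_sum fun d _ => ?_
  refine (differentiableOn_const _).mul ?_
  refine DifferentiableOn.fun_finsetProd fun j _ => ?_
  refine DifferentiableOn.mul (by fun_prop) (DifferentiableOn.pow ?_ _)
  exact hφ.comp (g := φ) (f := fun t : ℂ => (M : ℂ) * (t * b j)) (by fun_prop)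
    fun t ht => hρ t ht j

theorem GG_bound {m : ℕ} (φ : ℂ → ℂ) (B₁ : ℝ) (hB₁ : 1 ≤ B₁) (M D : ℕ)
    (b : Fin m → ℂ) (R : MvPolynomial (Fin m) ℤ) (H : ℝ)
    (hR : ∀ d ∈ R.support, ∀ j, d j ≤ D) (hH : ∀ d, |((R.coeff d : ℤ) : ℝ)| ≤ Real.exp H) (t : ℂ)
    (h1 : ∀ j, ‖(M : ℂ) * (t * b j)‖ ≤ 1) (h2 : ∀ j, ‖φ ((M : ℂ) * (t * b j))‖ ≤ B₁) :
    ‖GG φ M D b R t‖ ≤ ((D : ℝ) + 1) ^ m * (Real.exp H * (B₁ ^ D) ^ m) := by
  unfold GG
  refine (norm_sum_le _ _).trans ?_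
  have h3 : ∀ d ∈ R.support, ‖((R.coeff d : ℤ) : ℂ) *
      ∏ j, ((((M : ℂ) * (t * b j)) ^ (2 * (D - d j))) * φ ((M : ℂ) * (t * b j)) ^ d j)‖ ≤
      Real.exp H * (B₁ ^ D) ^ m := by
    intro d hd
    rw [norm_mul, Complex.norm_intCast, norm_prod]
    refine mul_le_mul (hH d) ?_ (Finset.prod_nonneg fun _ _ => norm_nonneg _) (Real.exp_pos _).le
    have h4 : ∀ j ∈ (Finset.univ : Finset (Fin m)),
        ‖(((M : ℂ) * (t * b j)) ^ (2 * (D - d j))) * φ ((M : ℂ) * (t * b j)) ^ d j‖ ≤ B₁ ^ D := by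
      intro j _
      rw [norm_mul, norm_pow, norm_pow]
      calc _ ≤ 1 * B₁ ^ d j := mul_le_mul (pow_le_one₀ (norm_nonneg _) (h1 j))
            (pow_le_pow_left₀ (norm_nonneg _) (h2 j) _) (by positivity) zero_le_one
        _ ≤ B₁ ^ D := by
          rw [one_mul]
          exact pow_le_pow_right₀ hB₁ (hR d hd j)
    refine (Finset.prod_le_prod (fun _ _ => norm_nonneg _) h4).trans ?_
    rw [Finset.prod_const, Finset.card_univ, Fintype.card_fin]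
  refine (Finset.sum_le_sum h3).trans ?_
  rw [Finset.sum_const, nsmul_eq_mul]
  have h5 : ((R.support.card : ℕ) : ℝ) ≤ ((D : ℝ) + 1) ^ m := by
    exact_mod_cast supp_card D R hR
  refine mul_le_mul_of_nonneg_right h5 ?_
  positivity

theorem GG_rel {m : ℕ} (τ μ : ℂ) (hμ : μ ≠ 0) (φ : ℂ → ℂ)
    (hφ : ∀ w : ℂ, w ≠ 0 → φ w = w ^ 2 * xe τ μ (μ * w)) (M D : ℕ) (hM : 1 ≤ M)
    (b : Fin m → ℂ) (hb : ∀ j, b j ≠ 0) (R : MvPolynomial (Fin m) ℤ)
    (hR : ∀ d ∈ R.support, ∀ j, d j ≤ D) (z : ℂ) (hz : z ≠ 0) :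
    (∏ j, (b j * z) ^ (2 * D)) * aeval (fun j => xe τ μ (b j * z)) R =
      (μ ^ (2 * D)) ^ m * GG φ M D b R (z / (μ * M)) := by
  have hM' : (M : ℂ) ≠ 0 := by
    have : M ≠ 0 := by omega
    exact_mod_cast this
  unfold GG
  rw [aeval_def, eval₂_eq', Finset.mul_sum, Finset.mul_sum]
  refine Finset.sum_congr rfl fun d hd => ?_
  have e1 : ((algebraMap ℤ ℂ) (coeff d R) : ℂ) = ((R.coeff d : ℤ) : ℂ) := rfl
  rw [e1]
  have e2 : (μ ^ (2 * D)) ^ m = ∏ _j : Fin m, μ ^ (2 * D) := by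
    rw [Finset.prod_const, Finset.card_univ, Fintype.card_fin]
  rw [e2]
  calc (∏ j, (b j * z) ^ (2 * D)) * (((R.coeff d : ℤ) : ℂ) * ∏ j, xe τ μ (b j * z) ^ d j)
      = ((R.coeff d : ℤ) : ℂ) * ∏ j, ((b j * z) ^ (2 * D) * xe τ μ (b j * z) ^ d j) := by
        rw [Finset.prod_mul_distrib]
        ring
    _ = ((R.coeff d : ℤ) : ℂ) * ∏ j, (μ ^ (2 * D) *
          ((((M : ℂ) * (z / (μ * M) * b j)) ^ (2 * (D - d j))) *
            φ ((M : ℂ) * (z / (μ * M) * b j)) ^ d j)) := by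
        congr 1
        refine Finset.prod_congr rfl fun j _ => ?_
        have e3 : (M : ℂ) * (z / (μ * M) * b j) = b j * z / μ := by
          field_simp
        have e4 : b j * z / μ ≠ 0 := div_ne_zero (mul_ne_zero (hb j) hz) hμ
        have e5 : μ * (b j * z / μ) = b j * z := by
          field_simp
        rw [e3, hφ _ e4, e5]
        generalize b j * z / μ = w at e5
        rw [← e5]
        generalize xe τ μ (μ * w) = x
        have e6 : w ^ (2 * D) = w ^ (2 * (D - d j)) * w ^ (2 * d j) := by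
          rw [← pow_add]
          congr 1
          have := hR d hd j
          omega
        rw [mul_pow μ w, e6, mul_pow (w ^ 2) x, ← pow_mul]
        ring
    _ = _ := by
        rw [Finset.prod_mul_distrib]
        ring


/-! ## The function `φ` -/

/-- `w² X(μ w)`. -/
noncomputable def phi (τ μ : ℂ) (w : ℂ) : ℂ := if w = 0 then 1 else w ^ 2 * xe τ μ (μ * w)

theorem phi_data (hP : S_PhiT) (τ μ : ℂ) (hτ : 0 < τ.im) (hμ : μ ≠ 0) (K : ℕ) :
    ∃ (M : ℕ) (ψ : ℕ → MvPolynomial (Fin 2) ℤ) (c : ℕ → ℂ) (r : ℝ), 1 ≤ M ∧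
      M ≤ (2 * K + 3).factorial ^ 2 ∧ (∀ k, k ≤ K → (ψ k).totalDegree ≤ k) ∧
      (∀ k, k ≤ K → len (ψ k) ≤ (M : ℝ) ^ k) ∧ 0 < r ∧
      (∀ w : ℂ, ‖w‖ < r → HasSum (fun k => c k * w ^ k) (phi τ μ w)) ∧
      ∀ k, k ≤ K → (M : ℂ) ^ k * c k = aeval ![μ ^ 4 * gg2 τ, μ ^ 6 * gg3 τ] (ψ k) := by
  obtain ⟨M, ψ, hM, hM2, hψ0, hψ, h⟩ := hP K
  obtain ⟨c, r, hr, hs, hc⟩ := h τ μ hτ hμ
  refine ⟨M, ψ, c, r, hM, hM2, fun k hk => (hψ k hk).1, fun k hk => (hψ k hk).2, hr, ?_, hc⟩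
  intro w hw
  unfold phi
  split_ifs with h0
  · subst h0
    have c0 : c 0 = 1 := by
      have := hc 0 (Nat.zero_le _)
      rw [hψ0, pow_zero, one_mul, map_one] at this
      exact this
    have h1 := hasSum_single (f := fun k : ℕ => c k * (0 : ℂ) ^ k) 0 (by
      intro k hk
      simp [hk])
    simpa [c0] using h1
  · exact hs w hw h0

/-! ## Numerical estimates -/

theorem pow_exp (y : ℝ) (hy : 0 ≤ y) (k : ℕ) : (y + 1) ^ k ≤ Real.exp (k * y) := by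
  calc (y + 1) ^ k ≤ (Real.exp y) ^ k :=
        pow_le_pow_left₀ (by linarith) (Real.add_one_le_exp y) k
    _ = Real.exp (k * y) := by rw [← Real.exp_nat_mul]

theorem M_le (K M : ℕ) (hM : M ≤ (2 * K + 3).factorial ^ 2) :
    (M : ℝ) ≤ Real.exp (2 * (2 * (K : ℝ) + 3) ^ 2) := by
  have h1 : (M : ℝ) ≤ (((2 * K + 3).factorial : ℕ) : ℝ) ^ 2 := by exact_mod_cast hM
  have h2 : (((2 * K + 3).factorial : ℕ) : ℝ) ≤ Real.exp ((2 * (K : ℝ) + 3) ^ 2) := by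
    have f1 : (2 * K + 3).factorial ≤ (2 * K + 3) ^ (2 * K + 3) := Nat.factorial_le_pow _
    have f2 : (((2 * K + 3).factorial : ℕ) : ℝ) ≤ (2 * (K : ℝ) + 3) ^ (2 * K + 3) := by
      exact_mod_cast f1
    refine f2.trans ?_
    have h0 : (0 : ℝ) ≤ 2 * (K : ℝ) + 3 := by positivity
    have h3 : 2 * (K : ℝ) + 3 ≤ Real.exp (2 * (K : ℝ) + 3) := by
      linarith [Real.add_one_le_exp (2 * (K : ℝ) + 3)]
    calc (2 * (K : ℝ) + 3) ^ (2 * K + 3) ≤ (Real.exp (2 * (K : ℝ) + 3)) ^ (2 * K + 3) :=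
          pow_le_pow_left₀ h0 h3 _
      _ = Real.exp ((2 * (K : ℝ) + 3) ^ 2) := by
          rw [← Real.exp_nat_mul]
          congr 1
          push_cast
          ring
  calc (M : ℝ) ≤ (((2 * K + 3).factorial : ℕ) : ℝ) ^ 2 := h1
    _ ≤ (Real.exp ((2 * (K : ℝ) + 3) ^ 2)) ^ 2 := pow_le_pow_left₀ (by positivity) h2 2
    _ = _ := by
      rw [← Real.exp_nat_mul]
      push_cast
      rfl

theorem len_num (m D K M : ℕ) (H Y : ℝ) (hH : 1 ≤ H) (hY : (K : ℝ) + D + H = Y)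
    (hM1 : 1 ≤ M) (hM : (M : ℝ) ≤ Real.exp (50 * Y ^ 2)) :
    ((D : ℝ) + 1) ^ m * (Real.exp H *
      ((M : ℝ) ^ (2 * D) * (((K : ℝ) + 1) * (M : ℝ) ^ K) ^ D) ^ m) ≤
        Real.exp (152 * ((m : ℝ) + 1) * Y ^ 4) := by
  have hK0 : (0 : ℝ) ≤ K := Nat.cast_nonneg K
  have hD0 : (0 : ℝ) ≤ D := Nat.cast_nonneg D
  have hm0 : (0 : ℝ) ≤ m := Nat.cast_nonneg m
  have hY1 : 1 ≤ Y := by linarith
  have hKY : (K : ℝ) ≤ Y := by linarith
  have hDY : (D : ℝ) ≤ Y := by linarith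
  have hHY : H ≤ Y := by linarith
  have e1 : ((D : ℝ) + 1) ^ m ≤ Real.exp (m * D) := pow_exp _ hD0 m
  have e2 : (M : ℝ) ^ (2 * D) ≤ Real.exp (2 * D * (50 * Y ^ 2)) := by
    calc (M : ℝ) ^ (2 * D) ≤ (Real.exp (50 * Y ^ 2)) ^ (2 * D) :=
          pow_le_pow_left₀ (by positivity) hM _
      _ = _ := by
        rw [← Real.exp_nat_mul]
        push_cast
        rfl
  have e3 : (M : ℝ) ^ K ≤ Real.exp (K * (50 * Y ^ 2)) := by
    calc (M : ℝ) ^ K ≤ (Real.exp (50 * Y ^ 2)) ^ K :=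
          pow_le_pow_left₀ (by positivity) hM _
      _ = _ := by
        rw [← Real.exp_nat_mul]
  have e4 : (((K : ℝ) + 1) * (M : ℝ) ^ K) ^ D ≤ Real.exp (D * (K + K * (50 * Y ^ 2))) := by
    have e5 : ((K : ℝ) + 1) * (M : ℝ) ^ K ≤ Real.exp (K + K * (50 * Y ^ 2)) := by
      rw [Real.exp_add]
      exact mul_le_mul (Real.add_one_le_exp _) e3 (by positivity) (Real.exp_pos _).le
    calc _ ≤ (Real.exp (K + K * (50 * Y ^ 2))) ^ D := pow_le_pow_left₀ (by positivity) e5 _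
      _ = _ := by rw [← Real.exp_nat_mul]
  have e6 : ((M : ℝ) ^ (2 * D) * (((K : ℝ) + 1) * (M : ℝ) ^ K) ^ D) ^ m ≤
      Real.exp (m * (2 * D * (50 * Y ^ 2) + D * (K + K * (50 * Y ^ 2)))) := by
    have e7 : (M : ℝ) ^ (2 * D) * (((K : ℝ) + 1) * (M : ℝ) ^ K) ^ D ≤
        Real.exp (2 * D * (50 * Y ^ 2) + D * (K + K * (50 * Y ^ 2))) := by
      rw [Real.exp_add]
      exact mul_le_mul e2 e4 (by positivity) (Real.exp_pos _).le
    calc _ ≤ (Real.exp (2 * D * (50 * Y ^ 2) + D * (K + K * (50 * Y ^ 2)))) ^ m :=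
          pow_le_pow_left₀ (by positivity) e7 _
      _ = _ := by rw [← Real.exp_nat_mul]
  calc _ ≤ Real.exp (m * D) * (Real.exp H *
        Real.exp (m * (2 * D * (50 * Y ^ 2) + D * (K + K * (50 * Y ^ 2))))) := by gcongr
    _ = Real.exp (m * D + (H + m * (2 * D * (50 * Y ^ 2) + D * (K + K * (50 * Y ^ 2))))) := by
      rw [Real.exp_add, Real.exp_add]
    _ ≤ _ := by
      refine Real.exp_le_exp.2 ?_
      have y2 : Y ≤ Y ^ 4 := le_self_pow₀ hY1 (by norm_num)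
      have y3 : Y ^ 3 ≤ Y ^ 4 := pow_le_pow_right₀ hY1 (by norm_num)
      have y4 : Y ^ 2 ≤ Y ^ 4 := pow_le_pow_right₀ hY1 (by norm_num)
      have i1 : 2 * D * (50 * Y ^ 2) ≤ 100 * Y ^ 4 := by
        calc 2 * D * (50 * Y ^ 2) ≤ 2 * Y * (50 * Y ^ 2) := by gcongr
          _ = 100 * Y ^ 3 := by ring
          _ ≤ 100 * Y ^ 4 := by linarith
      have i2 : (D : ℝ) * (K + K * (50 * Y ^ 2)) ≤ 51 * Y ^ 4 := by
        calc (D : ℝ) * (K + K * (50 * Y ^ 2)) ≤ Y * (Y + Y * (50 * Y ^ 2)) := by gcongr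
          _ = Y ^ 2 + 50 * Y ^ 4 := by ring
          _ ≤ 51 * Y ^ 4 := by linarith
      have i3 : (m : ℝ) * (2 * D * (50 * Y ^ 2) + D * (K + K * (50 * Y ^ 2))) ≤
          m * (151 * Y ^ 4) := by
        refine mul_le_mul_of_nonneg_left ?_ hm0
        linarith
      have i4 : (m : ℝ) * D ≤ m * Y ^ 4 := by
        refine mul_le_mul_of_nonneg_left ?_ hm0
        linarith
      have i5 : (0 : ℝ) ≤ Y ^ 4 := by positivity
      nlinarith

theorem deg_num (m D K : ℕ) (H Y : ℝ) (hH : 1 ≤ H) (hY : (K : ℝ) + D + H = Y) :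
    ((m * (2 * D + D * (2 * K)) : ℕ) : ℝ) ≤ 152 * ((m : ℝ) + 1) * Y ^ 4 := by
  have hK0 : (0 : ℝ) ≤ K := Nat.cast_nonneg K
  have hD0 : (0 : ℝ) ≤ D := Nat.cast_nonneg D
  have hm0 : (0 : ℝ) ≤ m := Nat.cast_nonneg m
  have hY1 : 1 ≤ Y := by linarith
  have hKY : (K : ℝ) ≤ Y := by linarith
  have hDY : (D : ℝ) ≤ Y := by linarith
  push_cast
  have y2 : Y ≤ Y ^ 4 := le_self_pow₀ hY1 (by norm_num)
  have y4 : Y ^ 2 ≤ Y ^ 4 := pow_le_pow_right₀ hY1 (by norm_num)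
  have i2 : 2 * (D : ℝ) + D * (2 * K) ≤ 4 * Y ^ 4 := by
    calc 2 * (D : ℝ) + D * (2 * K) ≤ 2 * Y + Y * (2 * Y) := by gcongr
      _ = 2 * Y + 2 * Y ^ 2 := by ring
      _ ≤ 4 * Y ^ 4 := by linarith
  have i5 : (0 : ℝ) ≤ Y ^ 4 := by positivity
  calc (m : ℝ) * (2 * D + D * (2 * K)) ≤ m * (4 * Y ^ 4) := by gcongr
    _ ≤ 152 * ((m : ℝ) + 1) * Y ^ 4 := by nlinarith

theorem up_num (m D K k₀ M : ℕ) (H Y U lam bb l ρ μn zn : ℝ) (hH : 1 ≤ H)
    (hY : (K : ℝ) + D + H = Y) (hM1 : 1 ≤ M) (hM : (M : ℝ) ≤ Real.exp (50 * Y ^ 2))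
    (hk : k₀ ≤ K) (hρ : 0 < ρ) (hμ : 0 < μn) (hz : zn ≤ Real.exp (-U)) (hz0 : 0 ≤ zn)
    (hl : 4 / (μn * ρ) = Real.exp lam) (hll : 2 / ρ = Real.exp l) (hl0 : 0 ≤ l) (hbb : 0 ≤ bb) :
    4 * (((D : ℝ) + 1) ^ m * (Real.exp H * ((Real.exp bb) ^ D) ^ m)) * (zn / (μn * M)) /
      (ρ / M * (ρ / M / 2) ^ k₀) ≤
        Real.exp ((|lam| + m + 1 + m * bb + 50 + l) * Y ^ 4 - U) := by
  have hK0 : (0 : ℝ) ≤ K := Nat.cast_nonneg K
  have hD0 : (0 : ℝ) ≤ D := Nat.cast_nonneg D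
  have hm0 : (0 : ℝ) ≤ m := Nat.cast_nonneg m
  have hM0 : (1 : ℝ) ≤ M := by exact_mod_cast hM1
  have hY1 : 1 ≤ Y := by linarith
  have hKY : (K : ℝ) ≤ Y := by linarith
  have hDY : (D : ℝ) ≤ Y := by linarith
  have hHY : H ≤ Y := by linarith
  have e0 : 4 * (((D : ℝ) + 1) ^ m * (Real.exp H * ((Real.exp bb) ^ D) ^ m)) * (zn / (μn * M)) /
      (ρ / M * (ρ / M / 2) ^ k₀) = (4 / (μn * ρ)) * (((D : ℝ) + 1) ^ m * (Real.exp H *
        ((Real.exp bb) ^ D) ^ m)) * ((2 / ρ) * M) ^ k₀ * zn := by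
    have a1 : (ρ / M / 2) ^ k₀ ≠ 0 := by positivity
    have a2 : ((2 / ρ) * M) ^ k₀ = ((ρ / M / 2) ^ k₀)⁻¹ := by
      rw [← inv_pow]
      congr 1
      field_simp
    rw [a2]
    field_simp
  rw [e0, hl, hll]
  have e1 : ((D : ℝ) + 1) ^ m ≤ Real.exp (m * D) := pow_exp _ hD0 m
  have e2 : ((Real.exp bb) ^ D) ^ m = Real.exp (m * (D * bb)) := by
    rw [← Real.exp_nat_mul, ← Real.exp_nat_mul]
  have e3 : (Real.exp l * M) ^ k₀ ≤ Real.exp (K * (l + 50 * Y ^ 2)) := by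
    have a1 : Real.exp l * M ≤ Real.exp (l + 50 * Y ^ 2) := by
      rw [Real.exp_add]
      gcongr
    have a2 : 1 ≤ Real.exp (l + 50 * Y ^ 2) := Real.one_le_exp (by positivity)
    calc (Real.exp l * M) ^ k₀ ≤ (Real.exp (l + 50 * Y ^ 2)) ^ k₀ :=
          pow_le_pow_left₀ (by positivity) a1 _
      _ ≤ (Real.exp (l + 50 * Y ^ 2)) ^ K := pow_le_pow_right₀ a2 hk
      _ = _ := by rw [← Real.exp_nat_mul]
  rw [e2]
  calc _ ≤ Real.exp lam * (Real.exp (m * D) * (Real.exp H * Real.exp (m * (D * bb)))) *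
        Real.exp (K * (l + 50 * Y ^ 2)) * Real.exp (-U) := by gcongr
    _ = Real.exp (lam + (m * D + (H + m * (D * bb))) + K * (l + 50 * Y ^ 2) + -U) := by
      simp only [Real.exp_add]
    _ ≤ _ := by
      refine Real.exp_le_exp.2 ?_
      have y1 : 1 ≤ Y ^ 4 := one_le_pow₀ hY1
      have y2 : Y ≤ Y ^ 4 := le_self_pow₀ hY1 (by norm_num)
      have y3 : Y ^ 3 ≤ Y ^ 4 := pow_le_pow_right₀ hY1 (by norm_num)
      have i1 : lam ≤ |lam| * Y ^ 4 := by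
        calc lam ≤ |lam| := le_abs_self _
          _ = |lam| * 1 := (mul_one _).symm
          _ ≤ |lam| * Y ^ 4 := by gcongr
      have i2 : (m : ℝ) * D ≤ m * Y ^ 4 := by
        refine mul_le_mul_of_nonneg_left ?_ hm0
        linarith
      have i3 : (m : ℝ) * (D * bb) ≤ m * bb * Y ^ 4 := by
        calc (m : ℝ) * (D * bb) = m * bb * D := by ring
          _ ≤ m * bb * Y ^ 4 := by
            refine mul_le_mul_of_nonneg_left ?_ (by positivity)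
            linarith
      have i4 : (K : ℝ) * (l + 50 * Y ^ 2) ≤ (l + 50) * Y ^ 4 := by
        calc (K : ℝ) * (l + 50 * Y ^ 2) ≤ Y * (l + 50 * Y ^ 2) := by gcongr
          _ = l * Y + 50 * Y ^ 3 := by ring
          _ ≤ l * Y ^ 4 + 50 * Y ^ 4 := by gcongr
          _ = _ := by ring
      linarith

end I_CoefE

open I_CoefE

theorem CoefE_pf (h1 : S_FText) (h2 : S_PhiT) : S_CoefE := by
  classical
  intro Q m
  refine ⟨4 * (Q + 1), ?_⟩
  intro τ μ b hN hFT hb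
  have hμ := hN.mu
  have hμn : 0 < ‖μ‖ := norm_pos_iff.2 hμ
  set g : Fin 2 → ℂ := ![μ ^ 4 * gg2 τ, μ ^ 6 * gg3 τ] with hg
  have hga : ∀ i, IsAlgebraic ℚ (g i) := by
    intro i
    fin_cases i
    · exact hN.g2
    · exact hN.g3
  obtain ⟨C₁, hC₁, hF⟩ := h1 Q m 2 b g hFT hga
  -- the function `φ`
  obtain ⟨M0, ψ0, c0, r0, -, -, -, -, hr0, hs0, -⟩ := phi_data h2 τ μ hN.im hμ 0
  have hφd := ps_diff c0 (phi τ μ) r0 hr0 hs0
  have hφb := ps_bound c0 (phi τ μ) r0 hr0 hs0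
  set B₁ : ℝ := max 1 (∑' k, ‖c0 k‖ * (r0 / 2) ^ k) with hB₁
  have hB₁1 : 1 ≤ B₁ := le_max_left _ _
  set bb : ℝ := Real.log B₁ with hbb
  have hbb0 : 0 ≤ bb := Real.log_nonneg hB₁1
  have hbbe : Real.exp bb = B₁ := Real.exp_log (by linarith)
  set β : ℝ := 1 + ∑ j, ‖b j‖ with hβ
  have hβ1 : 1 ≤ β := by
    have : 0 ≤ ∑ j, ‖b j‖ := Finset.sum_nonneg fun _ _ => norm_nonneg _
    linarith
  have hβj : ∀ j, ‖b j‖ < β := by
    intro j
    have := Finset.single_le_sum (f := fun j => ‖b j‖) (fun _ _ => norm_nonneg _)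
      (Finset.mem_univ j)
    linarith
  have hmin : 0 < min (r0 / 2) 1 := lt_min (by positivity) one_pos
  set ρ : ℝ := min (r0 / 2) 1 / β with hρ
  have hρ0 : 0 < ρ := by positivity
  have hρ1 : ρ ≤ 1 := by
    rw [hρ, div_le_one (by linarith)]
    exact (min_le_right _ _).trans hβ1
  have hρj : ∀ j, ρ * ‖b j‖ < min (r0 / 2) 1 := by
    intro j
    calc ρ * ‖b j‖ < ρ * β := by
          exact mul_lt_mul_of_pos_left (hβj j) hρ0
      _ = min (r0 / 2) 1 := by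
          rw [hρ]
          field_simp
  set lam : ℝ := Real.log (4 / (‖μ‖ * ρ)) with hlam
  have hlame : 4 / (‖μ‖ * ρ) = Real.exp lam := (Real.exp_log (by positivity)).symm
  set l : ℝ := Real.log (2 / ρ) with hl
  have hle : 2 / ρ = Real.exp l := (Real.exp_log (by positivity)).symm
  have hl0 : 0 ≤ l := by
    refine Real.log_nonneg ?_
    rw [le_div_iff₀ hρ0]
    linarith
  set κ : ℝ := 152 * ((m : ℝ) + 1) with hκ
  have hm0 : (0 : ℝ) ≤ m := Nat.cast_nonneg m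
  have hκ1 : 1 ≤ κ := by
    rw [hκ]
    linarith
  set C₂ : ℝ := |lam| + m + 1 + m * bb + 50 + l with hC₂
  have hC₂0 : 1 ≤ C₂ := by
    have a1 := abs_nonneg lam
    have a2 : 0 ≤ (m : ℝ) * bb := by positivity
    rw [hC₂]
    linarith
  have hlamC : |lam| ≤ C₂ := by
    have a2 : 0 ≤ (m : ℝ) * bb := by positivity
    rw [hC₂]
    linarith
  have hCk : 0 ≤ C₁ * κ ^ (Q + 1) := by positivity
  refine ⟨C₁ * κ ^ (Q + 1) + C₂ + 1, by linarith, ?_⟩
  intro D K h U R z₀ hh hRd hRc hU hz₀ hz₀U hR0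
  obtain ⟨M, ψ, c, r, hM1, hM2, hψd, hψl, hr, hs, hc⟩ := phi_data h2 τ μ hN.im hμ K
  have hM0 : (1 : ℝ) ≤ M := by exact_mod_cast hM1
  have hMc : (M : ℂ) ≠ 0 := by
    have : M ≠ 0 := by omega
    exact_mod_cast this
  have hRs : ∀ d ∈ R.support, ∀ j, d j ≤ D := by
    intro d hd j
    exact (monomial_le_degreeOf j hd).trans (hRd j)
  set Y : ℝ := (K : ℝ) + D + h with hY
  have hK0 : (0 : ℝ) ≤ K := Nat.cast_nonneg K
  have hD0 : (0 : ℝ) ≤ D := Nat.cast_nonneg D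
  have hY1 : 1 ≤ Y := by
    rw [hY]
    linarith
  have hMe : (M : ℝ) ≤ Real.exp (50 * Y ^ 2) := by
    refine (M_le K M hM2).trans (Real.exp_le_exp.2 ?_)
    have : 2 * (K : ℝ) + 3 ≤ 5 * Y := by
      rw [hY]
      linarith
    have h3 : (2 * (K : ℝ) + 3) ^ 2 ≤ (5 * Y) ^ 2 := pow_le_pow_left₀ (by positivity) this 2
    linarith
  have hTa : Ta K b g (GG (phi τ μ) M D b R) (Ph M D K ψ R) :=
    Ta_GG K M D ψ b g (phi τ μ) c r hr hs hc R
  have hφ : ∀ w : ℂ, w ≠ 0 → phi τ μ w = w ^ 2 * xe τ μ (μ * w) := by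
    intro w hw
    unfold phi
    rw [if_neg hw]
  by_cases hall : ∀ k ≤ K, aeval (pt b g 1) (cp k (Ph M D K ψ R)) = 0
  · -- all coefficients vanish
    obtain ⟨e, he, hev⟩ := Ta_all hTa hall
    refine ⟨fun z => (μ ^ (2 * D)) ^ m * ((1 / (μ * M)) ^ (K + 1) * e (z / (μ * M))), ?_, ?_⟩
    · have he0 : AnalyticAt ℂ e (0 / (μ * M)) := by
        rw [zero_div]
        exact he
      have hlin : AnalyticAt ℂ (fun z : ℂ => z / (μ * M)) 0 := by fun_prop (disch := simp_all)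
      have h3 := he0.comp (f := fun z : ℂ => z / (μ * M)) hlin
      exact analyticAt_const.mul (analyticAt_const.mul h3)
    · have hcont : ContinuousAt (fun z : ℂ => z / (μ * M)) 0 := by fun_prop
      have h4 : Tendsto (fun z : ℂ => z / (μ * M)) (𝓝 0) (𝓝 0) := by
        have := hcont.tendsto
        rwa [zero_div] at this
      have h5 := (h4.eventually hev).filter_mono (nhdsWithin_le_nhds (s := {0}ᶜ))
      filter_upwards [h5, self_mem_nhdsWithin] with z hz hz0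
      rw [GG_rel τ μ hμ (phi τ μ) hφ M D hM1 b hb R hRs z hz0, hz, div_pow, div_pow, one_pow]
      ring
  · -- the first non-zero coefficient
    exfalso
    push Not at hall
    set k₀ := Nat.find hall with hk₀
    obtain ⟨hk₀K, hk₀n⟩ := Nat.find_spec hall
    rw [← hk₀] at hk₀K hk₀n
    have hlow : ∀ k < k₀, aeval (pt b g 1) (cp k (Ph M D K ψ R)) = 0 := by
      intro k hk
      have := Nat.find_min hall hk
      push Not at this
      exact this (by omega)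
    obtain ⟨e, he, hev⟩ := Ta_first hTa k₀ hk₀K hlow
    set α : ℂ := aeval (pt b g 1) (cp k₀ (Ph M D K ψ R)) with hα
    -- lower bound
    set P : MvPolynomial (Fin (m + 2)) ℤ := rename finSumFinEquiv (cp k₀ (Ph M D K ψ R)) with hP
    have hPα : aeval (Fin.append b g) P = α := by
      rw [hP, hα, aeval_rename]
      congr 1
      congr 1
      funext i
      rcases i with j | j
      · simp [I_CoefE.pt]
      · simp [I_CoefE.pt]
    have hlow2 : Real.exp (-(C₁ * (κ * Y ^ 4) ^ (Q + 1))) ≤ ‖α‖ := by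
      rw [← hPα]
      refine hF P (κ * Y ^ 4) ?_ ?_ ?_ ?_
      · have : 1 ≤ Y ^ 4 := one_le_pow₀ hY1
        nlinarith
      · have a1 : P.totalDegree ≤ m * (2 * D + D * (2 * K)) :=
          (ren_deg _ _).trans ((cp_deg _ _).trans (Ph_deg M D K ψ hψd R hRs))
        have a2 : (P.totalDegree : ℝ) ≤ ((m * (2 * D + D * (2 * K)) : ℕ) : ℝ) := by
          exact_mod_cast a1
        exact a2.trans (deg_num m D K h Y hh hY.symm)
      · rw [hP, ren_len finSumFinEquiv.injective]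
        exact ((cp_len _ _).trans (Ph_len M D K hM1 ψ hψl R h hRs hRc)).trans
          (len_num m D K M h Y hh hY.symm hM1 hMe)
      · rw [hPα]
        exact hk₀n
    -- upper bound
    have ht₀ : z₀ / (μ * M) ≠ 0 := div_ne_zero hz₀ (mul_ne_zero hμ hMc)
    have hYc : 1 ≤ Y ^ (4 * (Q + 1)) := one_le_pow₀ hY1
    have hUC : C₁ * κ ^ (Q + 1) + C₂ + 1 ≤ U := by
      refine le_trans ?_ hU
      have : 0 ≤ C₁ * κ ^ (Q + 1) + C₂ + 1 := by linarith
      exact le_mul_of_one_le_right this hYc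
    have ht₁ : ‖z₀ / (μ * M)‖ ≤ ρ / M / 4 := by
      rw [norm_div, norm_mul, Complex.norm_natCast, div_le_iff₀ (by positivity)]
      have a1 : ‖z₀‖ ≤ ρ * ‖μ‖ / 4 := by
        refine hz₀U.trans ?_
        have a2 : Real.exp (-U) ≤ Real.exp (-lam) := by
          refine Real.exp_le_exp.2 ?_
          have := le_abs_self lam
          linarith
        refine a2.trans (le_of_eq ?_)
        rw [Real.exp_neg, ← hlame]
        field_simp
      refine a1.trans (le_of_eq ?_)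
      field_simp
    have hball : ∀ t ∈ ball (0 : ℂ) (ρ / M), ∀ j, ‖(M : ℂ) * (t * b j)‖ < min (r0 / 2) 1 := by
      intro t ht j
      have ht' : ‖t‖ < ρ / M := mem_ball_zero_iff.1 ht
      rw [norm_mul, norm_mul, Complex.norm_natCast]
      have a1 : (M : ℝ) * ‖t‖ ≤ ρ := by
        have := ht'.le
        rw [le_div_iff₀ (by positivity)] at this
        linarith
      calc (M : ℝ) * (‖t‖ * ‖b j‖) = ((M : ℝ) * ‖t‖) * ‖b j‖ := by ring
        _ ≤ ρ * ‖b j‖ := by gcongr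
        _ < _ := hρj j
    have hup := small (GG (phi τ μ) M D b R) (ρ / M)
      (((D : ℝ) + 1) ^ m * (Real.exp h * (B₁ ^ D) ^ m)) (by positivity) α k₀ e (z₀ / (μ * M))
      (GG_diff (phi τ μ) (r0 / 2) hφd M D b R (ρ / M) fun t ht j => by
        rw [mem_ball_zero_iff]
        exact (hball t ht j).trans_le (min_le_left _ _))
      (fun t ht => GG_bound (phi τ μ) B₁ hB₁1 M D b R h hRs hRc t
        (fun j => ((hball t ht j).trans_le (min_le_right _ _)).le)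
        (fun j => (hφb _ (by
          rw [mem_ball_zero_iff]
          exact (hball t ht j).trans_le (min_le_left _ _))).trans (le_max_right _ _)))
      he hev ht₀ ht₁ (by
        have a1 := GG_rel τ μ hμ (phi τ μ) hφ M D hM1 b hb R hRs z₀ hz₀
        rw [hR0, mul_zero] at a1
        exact (mul_eq_zero.1 a1.symm).resolve_left (pow_ne_zero _ (pow_ne_zero _ hμ)))
    rw [norm_div, norm_mul, Complex.norm_natCast, ← hbbe] at hup
    have hup2 := hup.trans (up_num m D K k₀ M h Y U lam bb l ρ ‖μ‖ ‖z₀‖ hh hY.symm hM1 hMe hk₀K hρ0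
      hμn hz₀U (norm_nonneg _) hlame hle hl0 hbb0)
    rw [← hC₂] at hup2
    have hfin := Real.exp_le_exp.1 (hlow2.trans hup2)
    have a1 : (κ * Y ^ 4) ^ (Q + 1) = κ ^ (Q + 1) * Y ^ (4 * (Q + 1)) := by
      rw [mul_pow, ← pow_mul]
    have a2 : Y ^ 4 ≤ Y ^ (4 * (Q + 1)) := pow_le_pow_right₀ hY1 (by omega)
    rw [a1] at hfin
    have a3 : C₂ * Y ^ 4 ≤ C₂ * Y ^ (4 * (Q + 1)) := by
      have : 0 ≤ C₂ := by linarith
      gcongr
    have a4 : (C₁ * κ ^ (Q + 1) + C₂ + 1) * Y ^ (4 * (Q + 1)) =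
        C₁ * (κ ^ (Q + 1) * Y ^ (4 * (Q + 1))) + C₂ * Y ^ (4 * (Q + 1)) +
          Y ^ (4 * (Q + 1)) := by ring
    linarith


end Pool.Agent.Work.MP_8da9ea_nt.EB
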