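import Pool.Agent.Work.MP_8da9ea_nt.EB.StmtsG

/-!
# Elliptic block: item `EllRank` (G12)
-/

set_option autoImplicit false

namespace Pool.Agent.Work.MP_8da9ea_nt.EB

open MvPolynomial Pool.Agent.Work.MP_327059_nt.GL Pool.Agent.Work.MP_8da9ea_nt.S

/-- G12: the rank at rational points -/
theorem EllRank_pf (h1 : S_GCoreE) (h2 : S_GPE) : S_EllRank := by
  intro Q m
  obtain ⟨n₀, h⟩ := h1 Q m
  refine ⟨n₀, fun τ μ b hN hF hK n hn x hx κ hκ => ?_⟩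
  obtain ⟨v, hv⟩ := h τ μ b hN hF hK n hn x hx κ hκ
  obtain ⟨P, hP0, hPh, hP⟩ := h2 τ μ hN n m (m - (1 + κ)) x b v (by omega)
  refine ⟨P, hP0, hPh.totalDegree_le.trans (Nat.sub_le _ _), fun w hw => ?_⟩
  have h3 := hP w hw
  omega

end Pool.Agent.Work.MP_8da9ea_nt.EB
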