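import Pool.Agent.Work.MP_8da9ea_nt.EB.StmtsG
import Pool.Agent.Work.MP_8da9ea_nt.Bd.B02

/-!
# Item Emb: embedding of a finitely generated extension into a field of germs
-/

set_option autoImplicit false

namespace Pool.Agent.Work.MP_8da9ea_nt.EB

open MvPolynomial Pool.Agent.Work.MP_327059_nt.GL Pool.Agent.Work.MP_8da9ea_nt.S

namespace I_Emb

open Filter Topology Pool.Agent.ED

lemma an_ex (c : ℂ) (x : ℂ) : AnalyticAt ℂ (fun u : ℂ => Complex.exp (c * u)) x := by
  fun_prop

/-- the germ of `exp (c u)` at the origin -/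
noncomputable def ex (c : ℂ) : MG (0 : ℂ) :=
  MG.mk (fun u => Complex.exp (c * u)) (an_ex c 0).meromorphicAt

lemma ex_zero : ex 0 = 1 := by
  unfold ex
  rw [MG.mk_one, MG.mk_eq_iff]
  exact Eventually.of_forall fun x => by simp

lemma ex_add (c d : ℂ) : ex (c + d) = ex c * ex d := by
  unfold ex
  rw [MG.mk_mul, MG.mk_eq_iff]
  exact Eventually.of_forall fun x => by
    simp only
    rw [add_mul, Complex.exp_add]

lemma ex_ne_zero (c : ℂ) : ex c ≠ 0 := by
  intro h
  have h1 := ex_add c (-c)
  rw [add_neg_cancel, ex_zero, h, zero_mul] at h1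
  exact one_ne_zero h1

lemma DD_ex (c : ℂ) : MG.DD (ex c) = c • ex c := by
  unfold ex
  rw [MG.DD_mk, MG.smul_mk, MG.mk_eq_iff]
  refine Eventually.of_forall fun x => ?_
  have h1 : HasDerivAt (fun u : ℂ => Complex.exp (c * u)) (Complex.exp (c * x) * (c * 1)) x :=
    ((hasDerivAt_id x).const_mul c).cexp
  rw [h1.deriv]
  ring

/-- `ex` as a homomorphism. -/
noncomputable def exh : Multiplicative ℂ →* MG (0 : ℂ) where
  toFun c := ex (Multiplicative.toAdd c)
  map_one' := ex_zero
  map_mul' a b := ex_add _ _

lemma ex_prod {ι : Type} [Fintype ι] (α : ι → ℂ) (d : ι → ℕ) :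
    ∏ i, ex (α i) ^ d i = ex (∑ i, (d i : ℂ) * α i) := by
  classical
  have h : ∀ s : Finset ι, ∏ i ∈ s, ex (α i) ^ d i = ex (∑ i ∈ s, (d i : ℂ) * α i) := by
    intro s
    induction s using Finset.induction_on with
    | empty => simp [ex_zero]
    | insert i s hi ih =>
      rw [Finset.prod_insert hi, Finset.sum_insert hi, ex_add, ih]
      congr 1
      have h2 : ∀ n : ℕ, ex (α i) ^ n = ex ((n : ℂ) * α i) := by
        intro n
        induction n with
        | zero => simp [ex_zero]
        | succ n ihn => rw [pow_succ, ihn, ← ex_add]; congr 1; push_cast; ring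
      exact h2 _
  exact h Finset.univ

/-- exponentials with distinct exponents are linearly independent -/
lemma lin_ex : LinearIndependent ℂ ex := by
  refine Module.End.eigenvectors_linearIndependent' (R := ℂ) (M := MG (0 : ℂ))
    (MG.DD (τ₀ := 0)).toLinearMap (fun c => c) Function.injective_id ex ?_
  intro c
  rw [Module.End.hasEigenvector_iff]
  refine ⟨?_, ex_ne_zero c⟩
  rw [Module.End.mem_eigenspace_iff]
  exact DD_ex c

/-- exponentials are algebraically independent -/
lemma alg_ex {ι : Type} [Fintype ι] (α : ι → ℂ)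
    (hα : Function.Injective fun d : ι →₀ ℕ => ∑ i, (d i : ℂ) * α i) :
    AlgebraicIndependent ℂ (fun i => ex (α i)) := by
  rw [algebraicIndependent_iff]
  intro P hP
  have h1 : LinearIndependent ℂ (fun d : ι →₀ ℕ => ex (∑ i, (d i : ℂ) * α i)) :=
    lin_ex.comp _ hα
  rw [MvPolynomial.aeval_def, MvPolynomial.eval₂_eq'] at hP
  have h2 : ∑ d ∈ P.support, P.coeff d • ex (∑ i, (d i : ℂ) * α i) = 0 := by
    rw [← hP]
    refine Finset.sum_congr rfl fun d _ => ?_
    rw [ex_prod, Algebra.smul_def]
  have h3 := linearIndependent_iff'.1 h1 P.support (fun d => P.coeff d) h2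
  ext d
  rw [MvPolynomial.coeff_zero]
  by_cases hd : d ∈ P.support
  · exact h3 d hd
  · exact MvPolynomial.notMem_support_iff.1 hd

/-- independent numbers over a countable field -/
lemma exists_alpha (K : IntermediateField ℚ ℂ) [Countable K] (ι : Type) [Finite ι] :
    ∃ α : ι → ℂ, AlgebraicIndependent K α := by
  obtain ⟨s, hs⟩ := exists_isTranscendenceBasis K ℂ
  have h1 : Cardinal.mk ℂ = Cardinal.mk s :=
    IsAlgClosed.cardinal_eq_cardinal_transcendence_basis_of_aleph0_lt' _ hs
      (Cardinal.mk_le_aleph0_iff.2 inferInstance) (by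
        rw [Cardinal.mk_complex]
        exact Cardinal.aleph0_lt_continuum)
  have h2 : Infinite s := by
    rw [Cardinal.infinite_iff, ← h1, Cardinal.mk_complex]
    exact Cardinal.aleph0_lt_continuum.le
  obtain ⟨n, ⟨e⟩⟩ := Finite.exists_equiv_fin ι
  let g : ι → s := fun i => Infinite.natEmbedding s (e i : ℕ)
  have hg : Function.Injective g := by
    intro i j hij
    have h3 := (Infinite.natEmbedding s).injective hij
    exact e.injective (Fin.ext h3)
  exact ⟨_, hs.1.comp g hg⟩

/-- expansion of a derivation along a homomorphism -/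
lemma expand {τ₁ : ℂ} {k L B : Type} [Field k] [CharZero k] [Field L] [Algebra k L] [Fintype B]
    [DecidableEq B] (b : B → L) [FiniteDimensional (IntermediateField.adjoin k (Set.range b)) L]
    (D : B → Derivation k L L) (hD : ∀ i j, D i (b j) = if i = j then 1 else 0)
    (Φ : L →+* MG τ₁) (X : L → MG τ₁) (hXadd : ∀ u v, X (u + v) = X u + X v)
    (hXmul : ∀ u v, X (u * v) = Φ u * X v + Φ v * X u)
    (hXk : ∀ c : k, X (algebraMap k L c) = 0) (u : L) :
    X u = ∑ j, X (b j) * Φ (D j u) := by
  set E : L → MG τ₁ := fun u => X u - ∑ j, X (b j) * Φ (D j u) with hE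
  have hadd : ∀ u v, E (u + v) = E u + E v := by
    intro u v
    simp only [hE, map_add, hXadd, mul_add, Finset.sum_add_distrib]
    ring
  have hmul : ∀ u v, E (u * v) = Φ u * E v + Φ v * E u := by
    intro u v
    simp only [hE, Derivation.leibniz, smul_eq_mul, hXmul, map_add, map_mul]
    rw [mul_sub, mul_sub, Finset.mul_sum, Finset.mul_sum]
    have h1 : ∑ x, X (b x) * (Φ u * Φ (D x v) + Φ v * Φ (D x u)) =
        ∑ x, Φ u * (X (b x) * Φ (D x v)) + ∑ x, Φ v * (X (b x) * Φ (D x u)) := by
      rw [← Finset.sum_add_distrib]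
      exact Finset.sum_congr rfl fun x _ => by ring
    rw [h1]
    ring
  have hF : ∀ u ∈ IntermediateField.adjoin k (Set.range b), E u = 0 := by
    intro u hu
    induction hu using IntermediateField.adjoin_induction with
    | mem x hx =>
      obtain ⟨s, rfl⟩ := hx
      simp only [hE, hD]
      rw [Finset.sum_eq_single s]
      · simp
      · intro j _ hj
        simp [hj]
      · simp
    | algebraMap x =>
      simp only [hE, Derivation.map_algebraMap, hXk]
      simp
    | add x y _ _ h1 h2 => rw [hadd, h1, h2, add_zero]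
    | inv x _ h =>
      by_cases hx : x = 0
      · rw [hx, inv_zero]
        rw [hx] at h
        exact h
      · have h1 : E (x * x⁻¹) = 0 := by
          rw [mul_inv_cancel₀ hx]
          have h2 := hXk 1
          rw [map_one] at h2
          simp [hE, h2]
        rw [hmul, h, mul_zero, add_zero] at h1
        exact (mul_eq_zero.1 h1).resolve_left (fun h3 => hx ((map_eq_zero Φ).1 h3))
    | mul x y _ _ h1 h2 => rw [hmul, h1, h2, mul_zero, mul_zero, add_zero]
  exact sub_eq_zero.1 (SpecAux.der_zero _ Φ E hadd hmul hF u)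

end I_Emb

open Filter Topology Pool.Agent.ED I_Emb in
theorem Emb_pf : S_Emb := by
  classical
  intro E hEc hE T _ f
  -- a transcendence basis
  obtain ⟨s, -, hs, halg⟩ := exists_max_indep (K := E) f (∅ : Finset T) (by
    rw [algebraicIndependent_empty_type_iff]
    exact (algebraMap E ℂ).injective)
  have hdep : ∀ t, ¬ AlgebraicIndependent E (fun o : Option s => o.elim (f t) (fun i : s => f i)) := by
    intro t h
    rw [AlgebraicIndependent.option_iff] at h
    exact h.2 (IntermediateField.isAlgebraic_adjoin_iff.1 (halg t))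
  have hmemL : ∀ t, f t ∈ IntermediateField.adjoin E (Set.range f) := fun t =>
    IntermediateField.subset_adjoin E _ ⟨t, rfl⟩
  obtain ⟨hb', hfd⟩ := fin_setup hs f hdep (fun i : s => hmemL i)
  set L := IntermediateField.adjoin E (Set.range f) with hL
  set g : T → L := fun t => ⟨f t, hmemL t⟩ with hg
  set b' : s → L := fun i => g i with hb'def
  have hex : ∀ i : s, ∃ D : Derivation E L L, ∀ j : s, D (b' j) = if i = j then 1 else 0 :=
    fun i => exists_derivation hb' (fun j => if i = j then (1 : L) else 0)
  choose D hD using hex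
  -- the countable field of all constants
  set K0 : IntermediateField ℚ ℂ := IntermediateField.adjoin ℚ ((E : Set ℂ) ∪ Set.range f) with hK0
  have hK0c : Countable K0 := by
    refine countable_adjoin _ (Set.Countable.union ?_ (Set.countable_range f))
    exact Set.countable_coe_iff.1 hEc
  obtain ⟨α, hα⟩ := exists_alpha K0 s
  -- the curve
  set G : s → ℂ → ℂ := fun i u => f i - 1 + Complex.exp (α i * u) with hGdef
  have hG : ∀ i, AnalyticAt ℂ (G i) 0 := fun i => analyticAt_const.add (an_ex (α i) 0)
  have hG1 : ∀ i, G i 0 = L.val (b' i) := by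
    intro i
    simp only [hGdef, mul_zero, Complex.exp_zero]
    have : L.val (b' i) = f i := rfl
    rw [this]
    ring
  obtain ⟨Φ, hΦC, hΦb, hΦan, -⟩ := SP b' hb' L.val 0 G hG hG1
  have hΦb' : ∀ i, Φ (b' i) = algebraMap ℂ (MG (0 : ℂ)) (f i - 1) + ex (α i) := by
    intro i
    rw [hΦb, MG.algebraMap_eq, ex, MG.mk_add]
  -- expansions
  have hX1 : ∀ (X : Derivation ℂ (MG (0 : ℂ)) (MG (0 : ℂ))) (u : L),
      X (Φ u) = ∑ j, X (Φ (b' j)) * Φ (D j u) := by
    intro X u
    refine expand b' D hD Φ (fun u => X (Φ u)) ?_ ?_ ?_ u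
    · intro u v
      rw [map_add, map_add]
    · intro u v
      rw [map_mul, Derivation.leibniz]
      rfl
    · intro c
      rw [hΦC]
      exact X.map_algebraMap _
  have hX2 : ∀ δ ∈ DK E, ∀ u : L, δ (u : ℂ) = ∑ j : s, δ (f j) * (D j u : ℂ) := by
    intro δ hδ u
    have h := expand b' D hD ((algebraMap ℂ (MG (0 : ℂ))).comp L.val.toRingHom)
      (fun u => algebraMap ℂ (MG (0 : ℂ)) (δ (u : ℂ))) (by
        intro u v
        rw [← map_add, ← map_add]
        rfl) (by
        intro u v
        have h1 : ((u * v : L) : ℂ) = (u : ℂ) * (v : ℂ) := rfl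
        rw [h1, Derivation.leibniz, smul_eq_mul, smul_eq_mul, map_add, map_mul, map_mul]
        rfl) (by
        intro c
        have h1 : ((algebraMap E L c : L) : ℂ) = (c : ℂ) := rfl
        rw [h1, hδ _ c.2, map_zero]) u
    apply (algebraMap ℂ (MG (0 : ℂ))).injective
    rw [map_sum]
    refine h.trans (Finset.sum_congr rfl fun j _ => ?_)
    rw [map_mul]
    rfl
  refine ⟨0, Φ, fun a => hΦC a, ?_, ?_, ?_⟩
  · intro t x hx
    obtain ⟨F, hF, h1, h2⟩ := hΦan x
    exact ⟨F, hF, by rw [h2, ← hx]; rfl, h1⟩
  · intro N a y h X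
    have hj : ∀ j : s, ∑ i, a i * D j (y i) = 0 := by
      intro j
      obtain ⟨Y, hY⟩ := exists_derivation hs (fun i : s => if j = i then (1 : ℂ) else 0)
      have hYE : Y.restrictScalars ℚ ∈ DK E := fun x hx => Y.map_algebraMap (⟨x, hx⟩ : E)
      have h1 := h _ hYE
      have h2 : ∀ u : L, (Y.restrictScalars ℚ) (u : ℂ) = (D j u : ℂ) := by
        intro u
        rw [hX2 _ hYE u, Finset.sum_eq_single j]
        · have : (Y.restrictScalars ℚ) (f j) = 1 := by
            refine (hY j).trans ?_
            simp
          rw [this, one_mul]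
        · intro i _ hi
          have : (Y.restrictScalars ℚ) (f i) = 0 := by
            refine (hY i).trans ?_
            rw [if_neg (Ne.symm hi)]
          rw [this, zero_mul]
        · intro h; exact absurd (Finset.mem_univ _) h
      simp only [h2] at h1
      apply Subtype.ext
      push_cast
      exact h1
    calc ∑ i, Φ (a i) * X (Φ (y i)) = ∑ i, ∑ j, X (Φ (b' j)) * (Φ (a i) * Φ (D j (y i))) := by
          refine Finset.sum_congr rfl fun i _ => ?_
          rw [hX1, Finset.mul_sum]
          exact Finset.sum_congr rfl fun j _ => by ring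
      _ = ∑ j, X (Φ (b' j)) * Φ (∑ i, a i * D j (y i)) := by
          rw [Finset.sum_comm]
          refine Finset.sum_congr rfl fun j _ => ?_
          rw [map_sum, Finset.mul_sum]
          exact Finset.sum_congr rfl fun i _ => by rw [map_mul]
      _ = 0 := by
          refine Finset.sum_eq_zero fun j _ => ?_
          rw [hj, map_zero, mul_zero]
  · intro N a y h δ hδ
    set c : s → L := fun j => ∑ i, a i * D j (y i) with hc
    -- the relation between the `α j`
    have hrel : ∑ j, algebraMap ℂ (MG (0 : ℂ)) (α j) * (ex (α j) * Φ (c j)) = 0 := by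
      rw [← h]
      calc ∑ j, algebraMap ℂ (MG (0 : ℂ)) (α j) * (ex (α j) * Φ (c j))
          = ∑ j, ∑ i, MG.DD (Φ (b' j)) * (Φ (a i) * Φ (D j (y i))) := by
            refine Finset.sum_congr rfl fun j _ => ?_
            rw [hΦb', map_add, Derivation.map_algebraMap, zero_add, DD_ex, Algebra.smul_def, hc]
            simp only
            rw [map_sum, Finset.mul_sum, Finset.mul_sum]
            refine Finset.sum_congr rfl fun i _ => ?_
            rw [map_mul]
            ring
        _ = ∑ i, Φ (a i) * MG.DD (Φ (y i)) := by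
            rw [Finset.sum_comm]
            refine Finset.sum_congr rfl fun i _ => ?_
            rw [hX1, Finset.mul_sum]
            exact Finset.sum_congr rfl fun j _ => by ring
    -- independence
    have hinj : Function.Injective fun d : s →₀ ℕ => ∑ i, (d i : ℂ) * α i := by
      intro d d' hdd
      simp only at hdd
      have hlin := hα.linearIndependent
      have h1 : ∑ i, ((d i : K0) - (d' i : K0)) • α i = 0 := by
        have h2 : ∑ i, ((d i : K0) - (d' i : K0)) • α i =
            ∑ i, (d i : ℂ) * α i - ∑ i, (d' i : ℂ) * α i := by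
          rw [← Finset.sum_sub_distrib]
          refine Finset.sum_congr rfl fun i _ => ?_
          rw [sub_smul, Algebra.smul_def, Algebra.smul_def, map_natCast, map_natCast]
        rw [h2, hdd, sub_self]
      have h2 := Fintype.linearIndependent_iff.1 hlin _ h1
      ext i
      have h3 := sub_eq_zero.1 (h2 i)
      exact_mod_cast h3
    have he : AlgebraicIndependent ℂ (fun i : s => ex (α i)) := alg_ex α hinj
    have hboth : AlgebraicIndependent K0
        (Sum.elim (fun i : s => ex (α i)) (algebraMap ℂ (MG (0 : ℂ)) ∘ α)) :=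
      AlgebraicIndependent.sumElim_comp hα he
    have hboth' : AlgebraicIndependent K0
        (Sum.elim (algebraMap ℂ (MG (0 : ℂ)) ∘ α) (fun i : s => ex (α i))) := by
      have h1 := hboth.comp Sum.swap (Equiv.sumComm s s).injective
      convert h1 using 1
      funext o
      rcases o with o | o <;> rfl
    rw [AlgebraicIndependent.sumElim_iff] at hboth'
    set F0 := IntermediateField.adjoin K0 (Set.range fun i : s => ex (α i)) with hF0
    have hα' : AlgebraicIndependent F0 (algebraMap ℂ (MG (0 : ℂ)) ∘ α) :=
      IntermediateField.algebraicIndependent_adjoin_iff.2 hboth'.2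
    -- all `c j` vanish
    have hcz : ∀ j, c j = 0 := by
      intro j
      obtain ⟨X, hX⟩ := exists_derivation hα' (fun i : s => if i = j then (1 : MG (0 : ℂ)) else 0)
      have hX0 : ∀ x ∈ F0, X x = 0 := fun x hx => X.map_algebraMap (⟨x, hx⟩ : F0)
      have hexm : ∀ i, ex (α i) ∈ F0 := fun i => IntermediateField.subset_adjoin _ _ ⟨i, rfl⟩
      have hKm : ∀ x ∈ K0, algebraMap ℂ (MG (0 : ℂ)) x ∈ F0 := fun x hx =>
        F0.algebraMap_mem (⟨x, hx⟩ : K0)
      have hEm : ∀ x ∈ E, algebraMap ℂ (MG (0 : ℂ)) x ∈ F0 := fun x hx =>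
        hKm x (IntermediateField.subset_adjoin _ _ (Or.inl hx))
      have hfm : ∀ t, f t ∈ K0 := fun t => IntermediateField.subset_adjoin _ _ (Or.inr ⟨t, rfl⟩)
      -- `X` vanishes on the image of `Φ`
      have hXΦ : ∀ u : L, X (Φ u) = 0 := by
        intro u
        have h1 := expand b' D hD Φ (fun u => X (Φ u)) (fun u v => by
          rw [map_add, map_add]) (fun u v => by
          rw [map_mul, Derivation.leibniz]
          rfl) (fun c => by
          rw [hΦC]
          exact hX0 _ (hEm _ c.2)) u
        refine h1.trans (Finset.sum_eq_zero fun i _ => ?_)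
        have h2 : X (Φ (b' i)) = 0 := by
          rw [hΦb', map_add, hX0 _ (hexm i), add_zero]
          exact hX0 _ (hKm _ (sub_mem (hfm _) (one_mem _)))
        rw [h2, zero_mul]
      have h1 := congrArg X hrel
      rw [map_sum, map_zero, Finset.sum_eq_single j] at h1
      · rw [Derivation.leibniz, Derivation.leibniz, hX0 _ (hexm j), hXΦ, smul_zero, smul_zero,
          add_zero, smul_zero, zero_add, smul_eq_mul] at h1
        have h2 : X (algebraMap ℂ (MG (0 : ℂ)) (α j)) = 1 := by
          refine (hX j).trans ?_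
          simp
        rw [h2, mul_one] at h1
        rcases mul_eq_zero.1 h1 with h3 | h3
        · exact absurd h3 (ex_ne_zero _)
        · rwa [map_eq_zero] at h3
      · intro i _ hi
        rw [Derivation.leibniz, Derivation.leibniz, hX0 _ (hexm i), hXΦ, smul_zero, smul_zero,
          add_zero, smul_zero, zero_add]
        have h2 : X (algebraMap ℂ (MG (0 : ℂ)) (α i)) = 0 := by
          refine (hX i).trans ?_
          rw [if_neg hi]
        rw [h2, smul_zero]
      · intro h; exact absurd (Finset.mem_univ _) h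
    calc ∑ i, (a i : ℂ) * δ (y i : ℂ) =
          ∑ i, ∑ j : s, δ (f j) * ((a i : ℂ) * (D j (y i) : ℂ)) := by
          refine Finset.sum_congr rfl fun i _ => ?_
          rw [hX2 δ hδ, Finset.mul_sum]
          exact Finset.sum_congr rfl fun j _ => by ring
      _ = ∑ j : s, δ (f j) * (c j : ℂ) := by
          rw [Finset.sum_comm]
          refine Finset.sum_congr rfl fun j _ => ?_
          rw [hc, ← Finset.mul_sum]
          congr 1
          push_cast
          rfl
      _ = 0 := by
          refine Finset.sum_eq_zero fun j _ => ?_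
          rw [hcz j]
          simp

end Pool.Agent.Work.MP_8da9ea_nt.EB
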