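import Pool.Agent.Work.MP_8da9ea_nt.EB.StmtsT
import Pool.Agent.Work.MP_8da9ea_nt.Bd.B04

/-!
A1 of the elliptic block: adjoining algebraic numbers preserves finite transcendence type. The
estimates of norms of `Bd/B03.lean` (item NL of MP_327059_nt) for several variables.
-/

set_option autoImplicit false

namespace Pool.Agent.Work.MP_8da9ea_nt.EB

open MvPolynomial Pool.Agent.Work.MP_327059_nt.GL Pool.Agent.Work.MP_327059_nt
  Pool.Agent.Work.MP_8da9ea_nt.S

namespace I_FText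

/-- Algebraic over the field generated by `θ`. -/
def AlgM {n : ℕ} (θ : Fin n → ℂ) (x : ℂ) : Prop :=
  IsAlgebraic (IntermediateField.adjoin ℚ (Set.range θ)) x

theorem clear {n : ℕ} (P : MvPolynomial (Fin n) ℚ) :
    ∃ (N : ℤ) (P' : MvPolynomial (Fin n) ℤ), N ≠ 0 ∧
      ∀ θ : Fin n → ℂ, aeval θ P' = (N : ℂ) * aeval θ P := by
  induction P using MvPolynomial.induction_on with
  | C a =>
    refine ⟨a.den, C a.num, by exact_mod_cast a.den_nz, fun θ => ?_⟩
    have h1 : aeval θ (C a : MvPolynomial (Fin n) ℚ) = (a : ℂ) := by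
      rw [aeval_C]; simp
    have h2 : aeval θ (C a.num : MvPolynomial (Fin n) ℤ) = (a.num : ℂ) := by
      rw [aeval_C]; simp
    rw [h1, h2]
    have h3 : (a : ℂ) = (a.num : ℂ) / (a.den : ℂ) := by
      exact_mod_cast congrArg (fun q : ℚ => (q : ℂ)) (Rat.num_div_den a).symm
    have h4 : (a.den : ℂ) ≠ 0 := by exact_mod_cast a.den_nz
    rw [h3]
    push_cast
    field_simp
  | add p q hp hq =>
    obtain ⟨N1, P1, h1, h2⟩ := hp
    obtain ⟨N2, P2, h3, h4⟩ := hq
    refine ⟨N1 * N2, C N2 * P1 + C N1 * P2, mul_ne_zero h1 h3, fun θ => ?_⟩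
    have hc : ∀ z : ℤ, aeval θ (C z : MvPolynomial (Fin n) ℤ) = (z : ℂ) := fun z => by
      rw [aeval_C]; simp
    rw [map_add, map_mul, map_mul, hc, hc, h2, h4, map_add]
    push_cast
    ring
  | mul_X p i hp =>
    obtain ⟨N1, P1, h1, h2⟩ := hp
    refine ⟨N1, P1 * X i, h1, fun θ => ?_⟩
    rw [map_mul, map_mul, h2, aeval_X, aeval_X]
    ring

theorem len_zero {n : ℕ} : len (0 : MvPolynomial (Fin n) ℤ) = 0 := by simp [len]

theorem aeval_bd {n : ℕ} (θ : Fin n → ℂ) (M : ℝ) (hM : 1 ≤ M) (hθ : ∀ i, ‖θ i‖ ≤ M)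
    (P : MvPolynomial (Fin n) ℤ) (k : ℕ) (h : P.totalDegree ≤ k) :
    ‖aeval θ P‖ ≤ len P * M ^ k := by
  have h0 : aeval θ P = ∑ e ∈ P.support, ((P.coeff e : ℤ) : ℂ) * ∏ i ∈ e.support, θ i ^ e i := by
    conv_lhs => rw [P.as_sum, map_sum]
    refine Finset.sum_congr rfl fun e _ => ?_
    rw [aeval_monomial]
    simp [Finsupp.prod]
  rw [h0]
  unfold len
  rw [Finset.sum_mul]
  refine (norm_sum_le _ _).trans ?_
  apply Finset.sum_le_sum
  intro e he
  rw [norm_mul, Complex.norm_intCast, norm_prod]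
  apply mul_le_mul_of_nonneg_left _ (abs_nonneg _)
  have h1 : ∏ i ∈ e.support, ‖θ i ^ e i‖ ≤ ∏ i ∈ e.support, M ^ e i := by
    apply Finset.prod_le_prod
    · intro i _
      exact norm_nonneg _
    · intro i _
      rw [norm_pow]
      exact pow_le_pow_left₀ (norm_nonneg _) (hθ i) _
  refine h1.trans ?_
  rw [Finset.prod_pow_eq_pow_sum]
  apply pow_le_pow_right₀ hM
  exact (le_totalDegree he).trans h

/-- elements of `ℚ(θ)` are quotients of values of integer polynomials -/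
theorem NL_frac {n : ℕ} (θ : Fin n → ℂ) (f : ℂ)
    (hf : f ∈ IntermediateField.adjoin ℚ (Set.range θ)) :
    ∃ A q : MvPolynomial (Fin n) ℤ, aeval θ q ≠ 0 ∧ aeval θ q * f = aeval θ A := by
  obtain ⟨r, s, h⟩ := (IntermediateField.mem_adjoin_range_iff ℚ θ f).1 hf
  by_cases hs : aeval θ s = 0
  · refine ⟨0, 1, by simp, ?_⟩
    rw [h, hs]; simp
  · obtain ⟨b, r', hb0, hr1⟩ := clear r
    obtain ⟨c, s', hc0, hs1⟩ := clear s
    have hC : ∀ z : ℤ, aeval θ (C z : MvPolynomial (Fin n) ℤ) = (z : ℂ) := fun z => by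
      rw [aeval_C]; simp
    refine ⟨C c * r', C b * s', ?_, ?_⟩
    · rw [map_mul, hs1, hC]
      have h1 : (b : ℂ) ≠ 0 := by exact_mod_cast hb0
      have h2 : (c : ℂ) ≠ 0 := by exact_mod_cast hc0
      exact mul_ne_zero h1 (mul_ne_zero h2 hs)
    · rw [map_mul, map_mul, hs1, hr1, h, hC, hC]
      field_simp

theorem NL_common {κ : Type} [Fintype κ] {n : ℕ} (θ : Fin n → ℂ) (f : κ → ℂ)
    (hf : ∀ t, f t ∈ IntermediateField.adjoin ℚ (Set.range θ)) :
    ∃ q : MvPolynomial (Fin n) ℤ, aeval θ q ≠ 0 ∧ ∀ t, ∃ A : MvPolynomial (Fin n) ℤ, aeval θ q * f t = aeval θ A := by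
  classical
  choose A q hq hA using fun t => NL_frac θ (f t) (hf t)
  refine ⟨∏ t, q t, ?_, ?_⟩
  · rw [map_prod]
    exact Finset.prod_ne_zero_iff.2 fun t _ => hq t
  · intro t
    refine ⟨A t * ∏ u ∈ Finset.univ.erase t, q u, ?_⟩
    rw [map_mul, ← hA t, ← Finset.mul_prod_erase Finset.univ q (Finset.mem_univ t), map_mul]
    ring

/-! ### Determinants -/

theorem NL_det_deg {n g : ℕ} (A : Matrix (Fin g) (Fin g) (MvPolynomial (Fin n) ℤ)) (m : ℕ)
    (h : ∀ i j, (A i j).totalDegree ≤ m) : A.det.totalDegree ≤ g * m := by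
  rw [Matrix.det_apply]
  refine totalDegree_finsetSum_le fun σ _ => ?_
  refine (totalDegree_smul_le _ _).trans ?_
  refine (totalDegree_finsetProd _ _).trans ?_
  refine (Finset.sum_le_sum fun i _ => h (σ i) i).trans ?_
  simp

theorem len_neg {n : ℕ} (P : MvPolynomial (Fin n) ℤ) : len (-P) = len P := by
  unfold len
  rw [MvPolynomial.support_neg]
  apply Finset.sum_congr rfl
  intro i _
  rw [coeff_neg]
  push_cast
  rw [abs_neg]

theorem NL_det_len {n g : ℕ} (A : Matrix (Fin g) (Fin g) (MvPolynomial (Fin n) ℤ)) :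
    len A.det ≤ ∏ i, ∑ j, len (A i j) := by
  classical
  rw [← Matrix.det_transpose, Matrix.det_apply, Finset.prod_univ_sum]
  refine (Val_len_sum _ _).trans ?_
  have h1 : ∀ σ : Equiv.Perm (Fin g), len (Equiv.Perm.sign σ • ∏ i, A.transpose (σ i) i) ≤
      ∏ i, len (A i (σ i)) := by
    intro σ
    have h2 : len (Equiv.Perm.sign σ • ∏ i, A.transpose (σ i) i) =
        len (∏ i, A.transpose (σ i) i) := by
      rcases Int.units_eq_one_or (Equiv.Perm.sign σ) with hs | hs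
      · rw [hs, one_smul]
      · rw [hs, Units.neg_smul, one_smul, len_neg]
    rw [h2]
    exact Val_len_prod _ _
  refine (Finset.sum_le_sum fun σ _ => h1 σ).trans ?_
  have h3 : ∑ σ : Equiv.Perm (Fin g), ∏ i, len (A i (σ i)) =
      ∑ p ∈ (Finset.univ : Finset (Equiv.Perm (Fin g))).map
        ⟨fun (σ : Equiv.Perm (Fin g)) => (σ : Fin g → Fin g), Equiv.coe_fn_injective⟩,
          ∏ i, len (A i (p i)) := by
    rw [Finset.sum_map]
    rfl
  rw [h3]
  apply Finset.sum_le_sum_of_subset_of_nonneg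
  · intro p _
    simp
  · intro p _ _
    exact Finset.prod_nonneg fun i _ => Val_len_nonneg _

/-! ### The matrices -/

theorem NL_setup {r : ℕ} {n : ℕ} (θ : Fin n → ℂ) (x : Fin r → ℂ) (hx : ∀ i, AlgM θ (x i)) :
    ∃ (g : ℕ) (v : Fin g → ℂ) (K : Type) (_ : Field K) (ι : K →+* ℂ)
      (N : K →+* Matrix (Fin g) (Fin g) ℂ), 0 < g ∧ (∀ i, v i ≠ 0) ∧ (∀ i, ∃ y : K, ι y = x i) ∧
      (∀ y i j, N y i j ∈ IntermediateField.adjoin ℚ (Set.range θ)) ∧
      ∀ y j, ∑ i, v i * N y i j = ι y * v j := by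
  classical
  let F : IntermediateField ℚ ℂ := IntermediateField.adjoin ℚ (Set.range θ)
  let E : IntermediateField F ℂ := IntermediateField.adjoin F (Set.range x)
  have hfin : FiniteDimensional F E := by
    apply IntermediateField.finiteDimensional_adjoin
    rintro _ ⟨i, rfl⟩
    exact (hx i).isIntegral
  let b := Module.finBasis F E
  refine ⟨Module.finrank F E, fun i => (b i : ℂ), E, inferInstance, algebraMap E ℂ,
    ((algebraMap F ℂ).mapMatrix).comp (Algebra.leftMulMatrix b).toRingHom,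
    Module.finrank_pos, ?_, ?_, ?_, ?_⟩
  · intro i h
    apply b.ne_zero i
    exact Subtype.ext h
  · intro i
    exact ⟨⟨x i, IntermediateField.subset_adjoin _ _ ⟨i, rfl⟩⟩, rfl⟩
  · intro y i j
    exact ((Algebra.leftMulMatrix b y) i j).2
  · intro y j
    have h1 : y * b j = ∑ i, (Algebra.leftMulMatrix b y i j) • b i := by
      simp_rw [Algebra.leftMulMatrix_eq_repr_mul]
      exact (b.sum_repr (y * b j)).symm
    have h2 := congrArg (algebraMap E ℂ) h1
    rw [map_mul, map_sum] at h2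
    have h3 : algebraMap E ℂ (b j) = (b j : ℂ) := rfl
    rw [h3] at h2
    rw [h2]
    apply Finset.sum_congr rfl
    intro i _
    rw [Algebra.smul_def, map_mul, mul_comm]
    rfl

theorem NL_claim {r g : ℕ} {n : ℕ} (θ : Fin n → ℂ) (x : Fin r → ℂ) (K : Type) [Field K] (ι : K →+* ℂ)
    (N : K →+* Matrix (Fin g) (Fin g) ℂ) (q : MvPolynomial (Fin n) ℤ) (a : ℕ) (c : ℝ) (hc : 1 ≤ c)
    (hq : len q ≤ c) (hqa : q.totalDegree ≤ a)
    (hvar : ∀ i, ∃ y : K, ι y = x i ∧ ∃ A : Matrix (Fin g) (Fin g) (MvPolynomial (Fin n) ℤ),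
      (∀ j k, aeval θ q * N y j k = aeval θ (A j k)) ∧ (∀ j k, (A j k).totalDegree ≤ a) ∧
      ∀ j, ∑ k, len (A j k) ≤ c) {D : ℕ} {H : ℝ} {ξ : ℂ} (h : AA.IsVal x D H ξ) :
    0 ≤ H ∧ ∃ y : K, ι y = ξ ∧ ∃ A : Matrix (Fin g) (Fin g) (MvPolynomial (Fin n) ℤ),
      (∀ j k, aeval θ q ^ D * N y j k = aeval θ (A j k)) ∧
      (∀ j k, (A j k).totalDegree ≤ a * D) ∧ ∀ j, ∑ k, len (A j k) ≤ H * c ^ D := by
  classical
  have hc0 : 0 ≤ c := by linarith
  induction h with
  | int z =>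
    refine ⟨abs_nonneg _, (z : K), by simp, fun j k => if j = k then C z else 0, ?_, ?_, ?_⟩
    · intro j k
      show _ = aeval θ (if j = k then C z else 0)
      rw [map_intCast, pow_zero, one_mul, Matrix.intCast_apply]
      by_cases hjk : j = k
      · rw [if_pos hjk, if_pos hjk, aeval_C]; simp
      · rw [if_neg hjk, if_neg hjk]; simp
    · intro j k
      show (if j = k then C z else (0 : MvPolynomial (Fin n) ℤ)).totalDegree ≤ _
      by_cases hjk : j = k
      · rw [if_pos hjk, totalDegree_C]; exact Nat.zero_le _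
      · rw [if_neg hjk]; simp
    · intro j
      show ∑ k, len (if j = k then C z else (0 : MvPolynomial (Fin n) ℤ)) ≤ _
      rw [Finset.sum_eq_single j]
      · simp only [if_true, pow_zero, mul_one]
        exact Val_len_C z
      · intro k _ hk
        rw [if_neg (Ne.symm hk), len_zero]
      · intro h
        exact absurd (Finset.mem_univ _) h
  | var i =>
    obtain ⟨y, hy, A, hA1, hA2, hA3⟩ := hvar i
    refine ⟨zero_le_one, y, hy, A, ?_, ?_, ?_⟩
    · intro j k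
      rw [pow_one, hA1]
    · intro j k
      rw [mul_one]
      exact hA2 j k
    · intro j
      rw [pow_one, one_mul]
      exact hA3 j
  | add _ _ ih1 ih2 =>
    obtain ⟨hH1, y1, hy1, A1, h11, h12, h13⟩ := ih1
    obtain ⟨hH2, y2, hy2, A2, h21, h22, h23⟩ := ih2
    refine ⟨add_nonneg hH1 hH2, y1 + y2, by rw [map_add, hy1, hy2], A1 + A2, ?_, ?_, ?_⟩
    · intro j k
      rw [map_add, Matrix.add_apply, Matrix.add_apply, mul_add, h11, h21, map_add]
    · intro j k
      rw [Matrix.add_apply]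
      exact (totalDegree_add _ _).trans (max_le (h12 j k) (h22 j k))
    · intro j
      calc ∑ k, len ((A1 + A2) j k) ≤ ∑ k, (len (A1 j k) + len (A2 j k)) :=
            Finset.sum_le_sum fun k _ => Val_len_add _ _
        _ = ∑ k, len (A1 j k) + ∑ k, len (A2 j k) := Finset.sum_add_distrib
        _ ≤ _ := by
            have := h13 j
            have := h23 j
            linarith
  | @mul D1 D2 H1 H2 ξ1 ξ2 _ _ ih1 ih2 =>
    obtain ⟨hH1, y1, hy1, A1, h11, h12, h13⟩ := ih1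
    obtain ⟨hH2, y2, hy2, A2, h21, h22, h23⟩ := ih2
    refine ⟨mul_nonneg hH1 hH2, y1 * y2, by rw [map_mul, hy1, hy2], A1 * A2, ?_, ?_, ?_⟩
    · intro j k
      rw [map_mul, Matrix.mul_apply, Matrix.mul_apply, map_sum, Finset.mul_sum]
      apply Finset.sum_congr rfl
      intro l _
      rw [map_mul, ← h11, ← h21, pow_add]
      ring
    · intro j k
      rw [Matrix.mul_apply]
      refine totalDegree_finsetSum_le fun l _ => ?_
      refine (totalDegree_mul _ _).trans ?_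
      rw [mul_add]
      exact add_le_add (h12 j l) (h22 l k)
    · intro j
      have hcD : 0 ≤ H2 * c ^ D2 := mul_nonneg hH2 (pow_nonneg hc0 _)
      calc ∑ k, len ((A1 * A2) j k) ≤ ∑ k, ∑ l, len (A1 j l) * len (A2 l k) := by
            apply Finset.sum_le_sum
            intro k _
            rw [Matrix.mul_apply]
            exact (Val_len_sum _ _).trans (Finset.sum_le_sum fun l _ => Val_len_mul _ _)
        _ = ∑ l, len (A1 j l) * ∑ k, len (A2 l k) := by
            rw [Finset.sum_comm]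
            exact Finset.sum_congr rfl fun l _ => (Finset.mul_sum _ _ _).symm
        _ ≤ ∑ l, len (A1 j l) * (H2 * c ^ D2) :=
            Finset.sum_le_sum fun l _ => mul_le_mul_of_nonneg_left (h23 l) (Val_len_nonneg _)
        _ = (∑ l, len (A1 j l)) * (H2 * c ^ D2) := (Finset.sum_mul _ _ _).symm
        _ ≤ (H1 * c ^ D1) * (H2 * c ^ D2) := mul_le_mul_of_nonneg_right (h13 j) hcD
        _ = _ := by rw [pow_add]; ring
  | @mono D1 D2 H1 H2 ξ1 hD hH _ ih =>
    obtain ⟨hH1, y, hy, A, h1, h2, h3⟩ := ih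
    obtain ⟨m, rfl⟩ := Nat.exists_eq_add_of_le hD
    refine ⟨hH1.trans hH, y, hy, fun j k => q ^ m * A j k, ?_, ?_, ?_⟩
    · intro j k
      rw [map_mul, ← h1, map_pow, pow_add]
      ring
    · intro j k
      refine (totalDegree_mul _ _).trans ?_
      have h4 : (q ^ m).totalDegree ≤ a * m := by
        refine (totalDegree_pow _ _).trans ?_
        rw [mul_comm]
        exact Nat.mul_le_mul_right _ hqa
      have := h2 j k
      rw [mul_add]
      omega
    · intro j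
      have h5 : len (q ^ m) ≤ c ^ m :=
        (Val_len_pow q m).trans (pow_le_pow_left₀ (Val_len_nonneg _) hq _)
      calc ∑ k, len (q ^ m * A j k) ≤ ∑ k, c ^ m * len (A j k) :=
            Finset.sum_le_sum fun k _ => (Val_len_mul _ _).trans
              (mul_le_mul_of_nonneg_right h5 (Val_len_nonneg _))
        _ = c ^ m * ∑ k, len (A j k) := (Finset.mul_sum _ _ _).symm
        _ ≤ c ^ m * (H1 * c ^ D1) := mul_le_mul_of_nonneg_left (h3 j) (pow_nonneg hc0 _)
        _ ≤ c ^ m * (H2 * c ^ D1) := by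
            apply mul_le_mul_of_nonneg_left _ (pow_nonneg hc0 _)
            exact mul_le_mul_of_nonneg_right hH (pow_nonneg hc0 _)
        _ = _ := by rw [pow_add]; ring

set_option maxHeartbeats 1000000 in
/-- Norms. -/
theorem NLm (h : AA.S_Cramer) {r n : ℕ} (θ : Fin n → ℂ) (x : Fin r → ℂ)
    (hx : ∀ i, AlgM θ (x i)) :
    ∃ C : ℝ, 1 ≤ C ∧ ∀ (D : ℕ) (H : ℝ) (ξ : ℂ), 1 ≤ H → AA.IsVal x D H ξ → ξ ≠ 0 →
      ∃ P : MvPolynomial (Fin n) ℤ, aeval θ P ≠ 0 ∧ (P.totalDegree : ℝ) ≤ C * (D + 1) ∧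
        Real.log (len P) ≤ C * (D + 1 + Real.log H) ∧
        ‖aeval θ P‖ ≤ ‖ξ‖ * Real.exp (C * (D + 1 + Real.log H)) := by
  classical
  obtain ⟨g, v, K, _, ι, N, hg, hv, hι, hN, hmul⟩ := NL_setup θ x hx
  choose y hy using hι
  obtain ⟨q, hq, hA⟩ := NL_common θ (fun t : Fin r × Fin g × Fin g => N (y t.1) t.2.1 t.2.2)
    (fun t => hN _ _ _)
  choose A hA using hA
  -- constants
  obtain ⟨a, ha1, ha2⟩ : ∃ a : ℕ, q.totalDegree ≤ a ∧ ∀ t, (A t).totalDegree ≤ a := by
    refine ⟨q.totalDegree + ∑ t, (A t).totalDegree, by omega, fun t => ?_⟩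
    have := Finset.single_le_sum (f := fun t => (A t).totalDegree) (fun _ _ => Nat.zero_le _)
      (Finset.mem_univ t)
    omega
  obtain ⟨c, hc1, hc2, hc3⟩ : ∃ c : ℝ, 1 ≤ c ∧ len q ≤ c ∧
      ∀ i j, ∑ k, len (A (i, j, k)) ≤ c := by
    have h0 : 0 ≤ ∑ i, ∑ j, ∑ k, len (A (i, j, k)) :=
      Finset.sum_nonneg fun _ _ => Finset.sum_nonneg fun _ _ => Finset.sum_nonneg fun _ _ =>
        Val_len_nonneg _
    have h1 := Val_len_nonneg q
    refine ⟨1 + len q + ∑ i, ∑ j, ∑ k, len (A (i, j, k)), by linarith, by linarith, ?_⟩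
    intro i j
    have h2 : ∑ k, len (A (i, j, k)) ≤ ∑ j, ∑ k, len (A (i, j, k)) :=
      Finset.single_le_sum (f := fun j => ∑ k, len (A (i, j, k)))
        (fun _ _ => Finset.sum_nonneg fun _ _ => Val_len_nonneg _) (Finset.mem_univ j)
    have h3 : ∑ j, ∑ k, len (A (i, j, k)) ≤ ∑ i, ∑ j, ∑ k, len (A (i, j, k)) :=
      Finset.single_le_sum (f := fun i => ∑ j, ∑ k, len (A (i, j, k)))
        (fun _ _ => Finset.sum_nonneg fun _ _ => Finset.sum_nonneg fun _ _ => Val_len_nonneg _)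
        (Finset.mem_univ i)
    linarith
  have hvar : ∀ i, ∃ y : K, ι y = x i ∧ ∃ A : Matrix (Fin g) (Fin g) (MvPolynomial (Fin n) ℤ),
      (∀ j k, aeval θ q * N y j k = aeval θ (A j k)) ∧ (∀ j k, (A j k).totalDegree ≤ a) ∧
      ∀ j, ∑ k, len (A j k) ≤ c := by
    intro i
    exact ⟨y i, hy i, fun j k => A (i, j, k), fun j k => hA (i, j, k), fun j k => ha2 _,
      fun j => hc3 i j⟩
  set i₀ : Fin g := ⟨0, hg⟩ with hi₀
  have hv0 : 0 < ‖v i₀‖ := norm_pos_iff.2 (hv i₀)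
  have hVs : ‖v i₀‖ ≤ ∑ j, ‖v j‖ :=
    Finset.single_le_sum (f := fun j => ‖v j‖) (fun _ _ => norm_nonneg _) (Finset.mem_univ i₀)
  have hg1 : (1 : ℝ) ≤ g := by exact_mod_cast hg
  obtain ⟨LV, hLV0, hLV⟩ : ∃ L : ℝ, 0 ≤ L ∧ (∑ j, ‖v j‖) / ‖v i₀‖ = Real.exp L := by
    have h1 : 1 ≤ (∑ j, ‖v j‖) / ‖v i₀‖ := by rwa [le_div_iff₀ hv0, one_mul]
    exact ⟨Real.log _, Real.log_nonneg h1, (Real.exp_log (by linarith)).symm⟩
  obtain ⟨LQ, hLQ0, hLQ⟩ : ∃ L : ℝ, 0 ≤ L ∧ max 1 ‖aeval θ q‖ = Real.exp L :=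
    ⟨Real.log _, Real.log_nonneg (le_max_left _ _),
      (Real.exp_log (lt_of_lt_of_le one_pos (le_max_left _ _))).symm⟩
  obtain ⟨LM, hLM0, hLM⟩ : ∃ L : ℝ, 0 ≤ L ∧ max 1 ‖θ‖ = Real.exp L :=
    ⟨Real.log _, Real.log_nonneg (le_max_left _ _),
      (Real.exp_log (lt_of_lt_of_le one_pos (le_max_left _ _))).symm⟩
  obtain ⟨Lc, hLc0, hLc⟩ : ∃ L : ℝ, 0 ≤ L ∧ c = Real.exp L :=
    ⟨Real.log c, Real.log_nonneg hc1, (Real.exp_log (by linarith)).symm⟩
  obtain ⟨Lg, hLg0, hLg⟩ : ∃ L : ℝ, 0 ≤ L ∧ (g : ℝ) = Real.exp L :=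
    ⟨Real.log g, Real.log_nonneg hg1, (Real.exp_log (by linarith)).symm⟩
  have hga0 : (0 : ℝ) ≤ g * a := by positivity
  have hgc0 : (0 : ℝ) ≤ g * Lc := by positivity
  have hgg0 : (0 : ℝ) ≤ g * Lg := by positivity
  have hgm0 : (0 : ℝ) ≤ g * a * LM := by positivity
  refine ⟨1 + g * a + g * Lc + g + LV + LQ + g * Lg + g * a * LM, by linarith, ?_⟩
  intro D H ξ hH hval hξ
  obtain ⟨_, η, hη, B, hB1, hB2, hB3⟩ := NL_claim θ x K ι N q a c hc1 hc2 ha1 hvar hval
  obtain ⟨LH, hLH0, hLH⟩ : ∃ L : ℝ, 0 ≤ L ∧ H = Real.exp L :=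
    ⟨Real.log H, Real.log_nonneg hH, (Real.exp_log (by linarith)).symm⟩
  have hlogH : Real.log H = LH := by rw [hLH, Real.log_exp]
  have hD0 : (0 : ℝ) ≤ D := Nat.cast_nonneg D
  have hη0 : η ≠ 0 := by
    rintro rfl
    rw [map_zero] at hη
    exact hξ hη.symm
  have hdetN : (N η).det ≠ 0 := by
    intro h0
    have h1 : N η * N η⁻¹ = 1 := by rw [← map_mul, mul_inv_cancel₀ hη0, map_one]
    have h2 := congrArg Matrix.det h1
    rw [Matrix.det_mul, h0, zero_mul, Matrix.det_one] at h2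
    exact zero_ne_one h2
  set Bθ : Matrix (Fin g) (Fin g) ℂ := (aeval θ : MvPolynomial (Fin n) ℤ →ₐ[ℤ] ℂ).mapMatrix B with hBθ
  have hBθ1 : Bθ = (aeval θ q ^ D) • N η := by
    ext j k
    rw [Matrix.smul_apply, smul_eq_mul, hB1 j k]
    rfl
  have hP : aeval θ B.det = Bθ.det := AlgHom.map_det _ _
  have hc0 : 0 ≤ c := by linarith
  have hlen : len B.det ≤ (H * c ^ D) ^ g := by
    refine (NL_det_len B).trans ?_
    refine (Finset.prod_le_prod (fun i _ => Finset.sum_nonneg fun _ _ => Val_len_nonneg _)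
      fun i _ => hB3 i).trans ?_
    simp
  have hT1 : (1 : ℝ) ≤ D + 1 + LH := by linarith
  have hTD : (D : ℝ) ≤ D + 1 + LH := by linarith
  have hTH : LH ≤ D + 1 + LH := by linarith
  refine ⟨B.det, ?_, ?_, ?_, ?_⟩
  · rw [hP, hBθ1, Matrix.det_smul]
    exact mul_ne_zero (pow_ne_zero _ (pow_ne_zero _ hq)) hdetN
  · have h1 := NL_det_deg B (a * D) hB2
    have h2 : (B.det.totalDegree : ℝ) ≤ g * (a * D) := by exact_mod_cast h1
    have h3 : (g : ℝ) * (a * D) ≤ (g * a) * (D + 1) := by nlinarith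
    have h4 : (g * a : ℝ) * (D + 1) ≤
        (1 + g * a + g * Lc + g + LV + LQ + g * Lg + g * a * LM) * (D + 1) := by
      apply mul_le_mul_of_nonneg_right _ (by linarith)
      linarith
    linarith
  · rw [hlogH]
    have h1 : Real.log (len B.det) ≤ g * (LH + D * Lc) := by
      have h2 : (H * c ^ D) ^ g = Real.exp (g * (LH + D * Lc)) := by
        rw [hLH, hLc, ← Real.exp_nat_mul, ← Real.exp_add, ← Real.exp_nat_mul]
      rcases (Val_len_nonneg B.det).eq_or_lt with h0 | h0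
      · rw [← h0, Real.log_zero]
        positivity
      · rw [h2] at hlen
        calc Real.log (len B.det) ≤ Real.log (Real.exp (g * (LH + D * Lc))) :=
              Real.log_le_log h0 hlen
          _ = _ := Real.log_exp _
    have h3 : g * (LH + D * Lc) ≤ g * (D + 1 + LH) + (g * Lc) * (D + 1 + LH) := by
      have e1 : (g : ℝ) * LH ≤ g * (D + 1 + LH) :=
        mul_le_mul_of_nonneg_left hTH (by linarith)
      have e2 : (g * Lc) * D ≤ (g * Lc) * (D + 1 + LH) := mul_le_mul_of_nonneg_left hTD hgc0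
      nlinarith
    have h4 : g * (D + 1 + LH) + (g * Lc) * (D + 1 + LH) ≤
        (1 + g * a + g * Lc + g + LV + LQ + g * Lg + g * a * LM) * (D + 1 + LH) := by
      have e3 : (g + g * Lc) * (D + 1 + LH) ≤
          (1 + g * a + g * Lc + g + LV + LQ + g * Lg + g * a * LM) * (D + 1 + LH) := by
        apply mul_le_mul_of_nonneg_right _ (by linarith)
        linarith
      linarith
    linarith
  · rw [hlogH]
    have hent : ∀ j k, ‖Bθ j k‖ ≤ H * c ^ D * (max 1 ‖θ‖) ^ (a * D) := by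
      intro j k
      have h1 : Bθ j k = aeval θ (B j k) := rfl
      rw [h1]
      refine (aeval_bd θ (max 1 ‖θ‖) (le_max_left _ _)
        (fun i => (norm_le_pi_norm θ i).trans (le_max_right _ _)) (B j k) (a * D) (hB2 j k)).trans ?_
      apply mul_le_mul_of_nonneg_right _ (by positivity)
      exact (Finset.single_le_sum (f := fun k => len (B j k)) (fun _ _ => Val_len_nonneg _)
        (Finset.mem_univ k)).trans (hB3 j)
    have hcr := h g Bθ.transpose v (fun k => aeval θ q ^ D * (ξ * v k))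
      (fun _ => g * (H * c ^ D * (max 1 ‖θ‖) ^ (a * D))) i₀ (by
        funext k
        have h1 : Matrix.mulVec Bθ.transpose v k = ∑ j, Bθ j k * v j := rfl
        rw [h1]
        have h2 : ∀ j, Bθ j k * v j = aeval θ q ^ D * (v j * N η j k) := by
          intro j
          rw [hBθ1, Matrix.smul_apply, smul_eq_mul]
          ring
        rw [Finset.sum_congr rfl fun j _ => h2 j, ← Finset.mul_sum, hmul, hη])
      (by
        intro k
        refine (Finset.sum_le_sum fun j _ => hent j k).trans ?_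
        simp)
      (by
        intro k
        have e1 : (1 : ℝ) ≤ c ^ D := one_le_pow₀ hc1
        have e2 : (1 : ℝ) ≤ (max 1 ‖θ‖) ^ (a * D) := one_le_pow₀ (le_max_left _ _)
        have e3 : (1 : ℝ) ≤ H * c ^ D := one_le_mul_of_one_le_of_one_le hH e1
        have e4 : (1 : ℝ) ≤ H * c ^ D * (max 1 ‖θ‖) ^ (a * D) :=
          one_le_mul_of_one_le_of_one_le e3 e2
        exact one_le_mul_of_one_le_of_one_le hg1 e4)
    rw [Matrix.det_transpose, ← hP] at hcr
    have hw : ∑ j, ‖aeval θ q ^ D * (ξ * v j)‖ = ‖aeval θ q‖ ^ D * (‖ξ‖ * ∑ j, ‖v j‖) := by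
      rw [Finset.mul_sum, Finset.mul_sum]
      apply Finset.sum_congr rfl
      intro j _
      rw [norm_mul, norm_mul, norm_pow]
    rw [hw, Finset.prod_const, Finset.card_univ, Fintype.card_fin] at hcr
    have hqD : ‖aeval θ q‖ ^ D ≤ (max 1 ‖aeval θ q‖) ^ D :=
      pow_le_pow_left₀ (norm_nonneg _) (le_max_right _ _) _
    have h5 : ‖aeval θ B.det‖ * ‖v i₀‖ ≤ (max 1 ‖aeval θ q‖) ^ D * (‖ξ‖ * ∑ j, ‖v j‖) *
        (g * (H * c ^ D * (max 1 ‖θ‖) ^ (a * D))) ^ g := by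
      refine hcr.trans ?_
      apply mul_le_mul_of_nonneg_right _ (by positivity)
      exact mul_le_mul_of_nonneg_right hqD (by positivity)
    have h6 : ‖aeval θ B.det‖ ≤ ‖ξ‖ * (((∑ j, ‖v j‖) / ‖v i₀‖) * (max 1 ‖aeval θ q‖) ^ D *
        (g * (H * c ^ D * (max 1 ‖θ‖) ^ (a * D))) ^ g) := by
      rw [← le_div_iff₀ hv0] at h5
      refine h5.trans (le_of_eq ?_)
      ring
    refine h6.trans ?_
    apply mul_le_mul_of_nonneg_left _ (norm_nonneg _)
    have h7 : ((∑ j, ‖v j‖) / ‖v i₀‖) * (max 1 ‖aeval θ q‖) ^ D *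
        (g * (H * c ^ D * (max 1 ‖θ‖) ^ (a * D))) ^ g =
        Real.exp (LV + D * LQ + g * (Lg + (LH + D * Lc + (a * D : ℕ) * LM))) := by
      rw [hLV, hLQ, hLM, hLH, hLc]
      rw [show (g : ℝ) * (Real.exp LH * Real.exp Lc ^ D * Real.exp LM ^ (a * D)) =
        Real.exp Lg * (Real.exp LH * Real.exp Lc ^ D * Real.exp LM ^ (a * D)) by rw [← hLg]]
      rw [← Real.exp_nat_mul, ← Real.exp_nat_mul, ← Real.exp_nat_mul, ← Real.exp_add,
        ← Real.exp_add, ← Real.exp_add, ← Real.exp_add, ← Real.exp_nat_mul, ← Real.exp_add]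
    rw [h7]
    apply Real.exp_le_exp.2
    push_cast
    have f1 : LV ≤ LV * (D + 1 + LH) := by nlinarith
    have f2 : D * LQ ≤ LQ * (D + 1 + LH) := by nlinarith
    have f3 : g * Lg ≤ (g * Lg) * (D + 1 + LH) := by nlinarith
    have f4 : (g : ℝ) * LH ≤ g * (D + 1 + LH) := mul_le_mul_of_nonneg_left hTH (by linarith)
    have f5 : (g * Lc) * D ≤ (g * Lc) * (D + 1 + LH) := mul_le_mul_of_nonneg_left hTD hgc0
    have f6 : (g * a * LM) * D ≤ (g * a * LM) * (D + 1 + LH) :=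
      mul_le_mul_of_nonneg_left hTD hgm0
    have f7 : (0 : ℝ) ≤ (1 + g * a) * (D + 1 + LH) := by positivity
    nlinarith


end I_FText

open I_FText in
theorem FText_pf : S_FText := by
  intro Q m r b a hF ha
  obtain ⟨Cb, hCb1, hCb⟩ := hF
  have hx : ∀ i, AlgM b (Fin.append b a i) := by
    intro i
    refine Fin.addCases (fun j => ?_) (fun j => ?_) i
    · rw [Fin.append_left]
      have h1 : b j ∈ IntermediateField.adjoin ℚ (Set.range b) :=
        IntermediateField.subset_adjoin _ _ ⟨j, rfl⟩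
      exact isAlgebraic_algebraMap (⟨b j, h1⟩ : IntermediateField.adjoin ℚ (Set.range b))
    · rw [Fin.append_right]
      exact (ha j).tower_top _
  obtain ⟨C, hC1, hC⟩ := NLm (AA.pr_Cramer AA.pr_DetRow) b (Fin.append b a) hx
  have hC0 : 0 ≤ C := by linarith
  refine ⟨Cb * (3 * C) ^ Q + 3 * C, ?_, ?_⟩
  · have : 0 ≤ Cb * (3 * C) ^ Q := by positivity
    linarith
  intro P t ht hD hlen h0
  have hH : (1 : ℝ) ≤ Real.exp t := Real.one_le_exp (by linarith)
  obtain ⟨R, hR0, hR1, hR2, hR3⟩ := hC P.totalDegree (Real.exp t) _ hH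
    (AA.IsVal.mono le_rfl hlen (FTalg_isVal (Fin.append b a) P)) h0
  rw [Real.log_exp] at hR2 hR3
  have h2 : C * ((P.totalDegree : ℝ) + 1 + t) ≤ 3 * C * t := by nlinarith
  have h3 : C * ((P.totalDegree : ℝ) + 1) ≤ 3 * C * t := by nlinarith
  have h4 : 1 ≤ 3 * C * t := by nlinarith
  have hlenR : len R ≤ Real.exp (3 * C * t) := by
    rcases (Val_len_nonneg R).eq_or_lt with h5 | h5
    · rw [← h5]
      exact (Real.exp_pos _).le
    · rw [← Real.log_le_iff_le_exp h5]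
      exact hR2.trans h2
  have h6 := hCb R (3 * C * t) h4 (hR1.trans h3) hlenR hR0
  have h7 : Real.exp (-(Cb * (3 * C * t) ^ Q)) ≤ ‖aeval (Fin.append b a) P‖ *
      Real.exp (3 * C * t) :=
    (h6.trans hR3).trans (mul_le_mul_of_nonneg_left (Real.exp_le_exp.2 h2) (norm_nonneg _))
  have h8 : Real.exp (-(Cb * (3 * C * t) ^ Q)) * Real.exp (-(3 * C * t)) ≤
      ‖aeval (Fin.append b a) P‖ := by
    have h9 := mul_le_mul_of_nonneg_right h7 (Real.exp_pos (-(3 * C * t))).le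
    have h10 : Real.exp (3 * C * t) * Real.exp (-(3 * C * t)) = 1 := by
      rw [← Real.exp_add, add_neg_cancel, Real.exp_zero]
    calc _ ≤ ‖aeval (Fin.append b a) P‖ * Real.exp (3 * C * t) * Real.exp (-(3 * C * t)) := h9
      _ = ‖aeval (Fin.append b a) P‖ * (Real.exp (3 * C * t) * Real.exp (-(3 * C * t))) := by
          ring
      _ = _ := by rw [h10, mul_one]
  refine le_trans ?_ h8
  rw [← Real.exp_add]
  apply Real.exp_le_exp.2
  have h10 : t ^ Q ≤ t ^ (Q + 1) := pow_le_pow_right₀ ht (Nat.le_succ Q)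
  have h11 : t ≤ t ^ (Q + 1) := by
    calc t = t ^ 1 := (pow_one t).symm
      _ ≤ t ^ (Q + 1) := pow_le_pow_right₀ ht (by omega)
  have h12 : Cb * (3 * C * t) ^ Q ≤ Cb * (3 * C) ^ Q * t ^ (Q + 1) := by
    rw [mul_pow, ← mul_assoc]
    exact mul_le_mul_of_nonneg_left h10 (by positivity)
  have h13 : 3 * C * t ≤ 3 * C * t ^ (Q + 1) := mul_le_mul_of_nonneg_left h11 (by linarith)
  nlinarith

end Pool.Agent.Work.MP_8da9ea_nt.EB
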