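import Pool.Agent.Work.MP_8da9ea_nt.EB.StmtsT
import Pool.Agent.Work.MP_8da9ea_nt.Bd.B04

/-!
# Item FTpol: images under polynomials of numbers of finite type
-/

set_option autoImplicit false

namespace Pool.Agent.Work.MP_8da9ea_nt.EB

open MvPolynomial Pool.Agent.Work.MP_327059_nt.GL Pool.Agent.Work.MP_8da9ea_nt.S

namespace I_FTpol

/-- clearing the denominators of one polynomial -/
theorem clear1 {m : ℕ} (F : MvPolynomial (Fin m) ℚ) :
    ∃ (N : ℕ) (G : MvPolynomial (Fin m) ℤ), 1 ≤ N ∧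
      MvPolynomial.map (algebraMap ℤ ℚ) G = C (N : ℚ) * F := by
  induction F using MvPolynomial.induction_on with
  | C a =>
    refine ⟨a.den, C a.num, Nat.one_le_iff_ne_zero.2 a.den_nz, ?_⟩
    rw [map_C, ← C_mul, Rat.den_mul_eq_num]
    rfl
  | add p q hp hq =>
    obtain ⟨N1, G1, h1, e1⟩ := hp
    obtain ⟨N2, G2, h2, e2⟩ := hq
    refine ⟨N1 * N2, C (N2 : ℤ) * G1 + C (N1 : ℤ) * G2, Nat.mul_pos h1 h2, ?_⟩
    rw [map_add, map_mul, map_mul, e1, e2, map_C, map_C]
    simp only [algebraMap_int_eq, eq_intCast, Int.cast_natCast, Nat.cast_mul, C_mul]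
    ring
  | mul_X p i hp =>
    obtain ⟨N, G, h, e⟩ := hp
    refine ⟨N, G * X i, h, ?_⟩
    rw [map_mul, e, map_X, mul_assoc]

/-- clearing the denominators of finitely many polynomials -/
theorem clear {k m : ℕ} (F : Fin k → MvPolynomial (Fin m) ℚ) :
    ∃ (N : ℕ) (G : Fin k → MvPolynomial (Fin m) ℤ), 1 ≤ N ∧
      ∀ t, MvPolynomial.map (algebraMap ℤ ℚ) (G t) = C (N : ℚ) * F t := by
  choose N G h e using fun t => clear1 (F t)
  refine ⟨∏ t, N t, fun t => C ((∏ s ∈ Finset.univ.erase t, N s : ℕ) : ℤ) * G t, ?_, ?_⟩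
  · exact Nat.one_le_iff_ne_zero.2 (Finset.prod_ne_zero_iff.2 fun t _ => by have := h t; omega)
  · intro t
    rw [map_mul, e, map_C, ← mul_assoc, ← C_mul]
    congr 2
    rw [← Finset.prod_erase_mul _ _ (Finset.mem_univ t)]
    simp

/-- the cleared polynomial -/
noncomputable def FTP {k m : ℕ} (G : Fin k → MvPolynomial (Fin m) ℤ) (N : ℕ)
    (P : MvPolynomial (Fin k) ℤ) : MvPolynomial (Fin m) ℤ :=
  ∑ μ ∈ P.support, C (P.coeff μ) * C ((N : ℤ) ^ (P.totalDegree - ∑ t, μ t)) *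
    ∏ t, (G t) ^ (μ t)

theorem FTP_aeval {k m : ℕ} (F : Fin k → MvPolynomial (Fin m) ℚ)
    (G : Fin k → MvPolynomial (Fin m) ℤ) (N : ℕ)
    (hN : ∀ t, MvPolynomial.map (algebraMap ℤ ℚ) (G t) = C (N : ℚ) * F t) (b : Fin m → ℂ)
    (P : MvPolynomial (Fin k) ℤ) :
    aeval b (FTP G N P) = (N : ℂ) ^ P.totalDegree * aeval (fun t => aeval b (F t)) P := by
  have hb : ∀ t, aeval b (G t) = (N : ℂ) * aeval b (F t) := by
    intro t
    have h1 : aeval b (MvPolynomial.map (algebraMap ℤ ℚ) (G t)) = aeval b (G t) :=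
      aeval_map_algebraMap ℚ b (G t)
    rw [← h1, hN, map_mul, aeval_C]
    simp
  rw [FTP, map_sum]
  conv_rhs => rw [aeval_def, eval₂_eq', Finset.mul_sum]
  refine Finset.sum_congr rfl fun μ hμ => ?_
  rw [map_mul, map_mul, map_prod]
  have h1 : ∀ t, aeval b ((G t) ^ (μ t)) = (N : ℂ) ^ (μ t) * (aeval b (F t)) ^ (μ t) := by
    intro t
    rw [map_pow, hb, mul_pow]
  rw [Finset.prod_congr rfl fun t _ => h1 t, Finset.prod_mul_distrib, Finset.prod_pow_eq_pow_sum]
  rw [aeval_C, aeval_C]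
  have h2 : (N : ℂ) ^ P.totalDegree =
      (N : ℂ) ^ (P.totalDegree - ∑ t, μ t) * (N : ℂ) ^ (∑ t, μ t) := by
    rw [← pow_add]; congr 1; have := FTlin_deg P μ hμ; omega
  rw [h2]
  simp only [algebraMap_int_eq, eq_intCast, Int.cast_pow, Int.cast_natCast]
  ring

theorem FTP_totalDegree {k m : ℕ} (G : Fin k → MvPolynomial (Fin m) ℤ) (N : ℕ)
    (P : MvPolynomial (Fin k) ℤ) :
    (FTP G N P).totalDegree ≤ P.totalDegree * ∑ t, (G t).totalDegree := by
  refine totalDegree_finsetSum_le fun μ hμ => ?_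
  refine (totalDegree_mul _ _).trans ?_
  have h1 : (C (P.coeff μ) * C ((N : ℤ) ^ (P.totalDegree - ∑ t, μ t)) :
      MvPolynomial (Fin m) ℤ).totalDegree = 0 := by
    rw [← C_mul, totalDegree_C]
  rw [h1, zero_add]
  refine (totalDegree_finsetProd _ _).trans ?_
  refine le_trans ?_ (Nat.mul_le_mul_right _ (FTlin_deg P μ hμ))
  rw [Finset.sum_mul]
  refine Finset.sum_le_sum fun t _ => ?_
  refine (totalDegree_pow _ _).trans ?_
  exact Nat.mul_le_mul_left _ (Finset.single_le_sum (f := fun t => (G t).totalDegree)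
    (fun t _ => Nat.zero_le _) (Finset.mem_univ t))

theorem FTP_len {k m : ℕ} (G : Fin k → MvPolynomial (Fin m) ℤ) (N : ℕ) (hN : 1 ≤ N)
    (P : MvPolynomial (Fin k) ℤ) :
    len (FTP G N P) ≤ len P * ((N : ℝ) + ∑ t, len (G t)) ^ P.totalDegree := by
  set E : ℝ := (N : ℝ) + ∑ t, len (G t) with hE
  have hS : (0 : ℝ) ≤ ∑ t, len (G t) := Finset.sum_nonneg fun t _ => Val_len_nonneg _
  have hN1 : (1 : ℝ) ≤ N := by exact_mod_cast hN
  have hE1 : 1 ≤ E := by rw [hE]; linarith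
  have hE0 : 0 ≤ E := by linarith
  have hNE : (N : ℝ) ≤ E := by rw [hE]; linarith
  rw [FTP]
  refine (Val_len_sum _ _).trans ?_
  rw [len, Finset.sum_mul]
  refine Finset.sum_le_sum fun μ hμ => ?_
  refine (Val_len_mul _ _).trans ?_
  have h1 : len (C (P.coeff μ) * C ((N : ℤ) ^ (P.totalDegree - ∑ t, μ t)) :
      MvPolynomial (Fin m) ℤ) ≤ |((P.coeff μ : ℤ) : ℝ)| * E ^ (P.totalDegree - ∑ t, μ t) := by
    rw [← C_mul]
    refine (Val_len_C _).trans ?_
    push_cast
    rw [abs_mul]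
    refine mul_le_mul_of_nonneg_left ?_ (abs_nonneg _)
    rw [abs_of_nonneg (by positivity)]
    exact pow_le_pow_left₀ (by positivity) hNE _
  have h2 : len (∏ t, (G t) ^ (μ t)) ≤ E ^ (∑ t, μ t) := by
    refine (Val_len_prod _ _).trans ?_
    rw [← Finset.prod_pow_eq_pow_sum]
    refine Finset.prod_le_prod (fun t _ => Val_len_nonneg _) fun t _ => ?_
    refine (Val_len_pow _ _).trans ?_
    refine pow_le_pow_left₀ (Val_len_nonneg _) ?_ _
    have h4 : len (G t) ≤ ∑ t, len (G t) :=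
      Finset.single_le_sum (f := fun t => len (G t))
        (fun t _ => Val_len_nonneg _) (Finset.mem_univ t)
    rw [hE]; linarith
  calc _ ≤ (|((P.coeff μ : ℤ) : ℝ)| * E ^ (P.totalDegree - ∑ t, μ t)) * E ^ (∑ t, μ t) :=
        mul_le_mul h1 h2 (Val_len_nonneg _) (by positivity)
    _ = |((P.coeff μ : ℤ) : ℝ)| * E ^ P.totalDegree := by
        rw [mul_assoc, ← pow_add]
        congr 2
        have := FTlin_deg P μ hμ
        omega

end I_FTpol

open I_FTpol in
/-- A2: images under polynomials -/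
theorem FTpol_pf : S_FTpol := by
  intro Q m k b F hFT
  obtain ⟨C, hC1, hC⟩ := hFT
  obtain ⟨N, G, hN, hn⟩ := I_FTpol.clear F
  set E : ℝ := (N : ℝ) + ∑ t, len (G t) with hE
  set D : ℕ := ∑ t, (G t).totalDegree with hD
  have hS : (0 : ℝ) ≤ ∑ t, len (G t) := Finset.sum_nonneg fun t _ => Val_len_nonneg _
  have hN1 : (1 : ℝ) ≤ N := by exact_mod_cast hN
  have hE1 : 1 ≤ E := by rw [hE]; linarith
  have hE0 : 0 < E := by linarith
  have hlE : 0 ≤ Real.log E := Real.log_nonneg hE1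
  have hlN : 0 ≤ Real.log N := Real.log_nonneg hN1
  have hD0 : (0 : ℝ) ≤ D := Nat.cast_nonneg _
  set L : ℝ := 1 + D + Real.log E with hL
  have hL1 : 1 ≤ L := by rw [hL]; linarith
  have hCL : 1 ≤ C * L ^ Q := by
    have : 1 ≤ L ^ Q := one_le_pow₀ hL1
    nlinarith
  refine ⟨C * L ^ Q + Real.log N, by linarith, ?_⟩
  intro P t ht hdeg hlen hne
  have hd : (P.totalDegree : ℝ) ≤ t := hdeg
  have hae := FTP_aeval F G N hn b P
  have hNC : (N : ℂ) ≠ 0 := by
    have : N ≠ 0 := by omega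
    exact_mod_cast this
  have hne' : aeval b (FTP G N P) ≠ 0 := by
    rw [hae]; exact mul_ne_zero (pow_ne_zero _ hNC) hne
  have ht0 : 0 ≤ t := by linarith
  have hdeg' : ((FTP G N P).totalDegree : ℝ) ≤ L * t := by
    have h1 : ((FTP G N P).totalDegree : ℝ) ≤ P.totalDegree * D := by
      exact_mod_cast FTP_totalDegree G N P
    have h2 : (P.totalDegree : ℝ) * D ≤ t * D := mul_le_mul_of_nonneg_right hd hD0
    have h3 : 0 ≤ (1 + Real.log E) * t := by positivity
    calc ((FTP G N P).totalDegree : ℝ) ≤ t * D := h1.trans h2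
      _ ≤ L * t := by rw [hL]; linarith
  have hlen' : len (FTP G N P) ≤ Real.exp (L * t) := by
    refine (FTP_len G N hN P).trans ?_
    have h1 : E ^ P.totalDegree ≤ Real.exp (Real.log E * t) := by
      rw [← Real.exp_log hE0, ← Real.exp_nat_mul, Real.log_exp]
      apply Real.exp_le_exp.2
      nlinarith
    calc len P * E ^ P.totalDegree ≤ Real.exp t * Real.exp (Real.log E * t) :=
          mul_le_mul hlen h1 (by positivity) (Real.exp_pos _).le
      _ = Real.exp ((1 + Real.log E) * t) := by rw [← Real.exp_add]; congr 1; ring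
      _ ≤ Real.exp (L * t) := by
          apply Real.exp_le_exp.2
          apply mul_le_mul_of_nonneg_right _ ht0
          rw [hL]; linarith
  have h := hC (FTP G N P) (L * t) (by nlinarith) hdeg' hlen' hne'
  rw [hae, norm_mul, norm_pow] at h
  have hNn : ‖(N : ℂ)‖ = N := by simp
  rw [hNn] at h
  have hNd : (N : ℝ) ^ P.totalDegree ≤ Real.exp (t * Real.log N) := by
    have hN0 : (0 : ℝ) < N := by linarith
    rw [← Real.exp_log hN0, ← Real.exp_nat_mul, Real.log_exp]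
    apply Real.exp_le_exp.2
    nlinarith
  have h3 : Real.exp (-(C * (L * t) ^ Q)) ≤ Real.exp (t * Real.log N) *
      ‖aeval (fun t => aeval b (F t)) P‖ :=
    h.trans (mul_le_mul_of_nonneg_right hNd (norm_nonneg _))
  have h4 : Real.exp (-(C * (L * t) ^ Q) - t * Real.log N) ≤
      ‖aeval (fun t => aeval b (F t)) P‖ := by
    rw [sub_eq_add_neg, Real.exp_add]
    calc _ ≤ Real.exp (t * Real.log N) * ‖aeval (fun t => aeval b (F t)) P‖ *
        Real.exp (-(t * Real.log N)) := mul_le_mul_of_nonneg_right h3 (Real.exp_pos _).le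
      _ = (Real.exp (t * Real.log N) * Real.exp (-(t * Real.log N))) *
        ‖aeval (fun t => aeval b (F t)) P‖ := by ring
      _ = _ := by rw [← Real.exp_add, add_neg_cancel, Real.exp_zero, one_mul]
  refine le_trans (Real.exp_le_exp.2 ?_) h4
  have h5 : t ^ Q ≤ t ^ (Q + 1) := pow_le_pow_right₀ ht (by omega)
  have h6 : t ≤ t ^ (Q + 1) := by
    calc t = t ^ 1 := (pow_one t).symm
      _ ≤ t ^ (Q + 1) := pow_le_pow_right₀ ht (by omega)
  have h7 : C * (L * t) ^ Q ≤ C * L ^ Q * t ^ (Q + 1) := by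
    rw [mul_pow, ← mul_assoc]
    exact mul_le_mul_of_nonneg_left h5 (by positivity)
  have h8 : t * Real.log N ≤ Real.log N * t ^ (Q + 1) := by
    rw [mul_comm]
    exact mul_le_mul_of_nonneg_left h6 hlN
  nlinarith

end Pool.Agent.Work.MP_8da9ea_nt.EB
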