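import Pool.Agent.Work.MP_8da9ea_nt.EB.Defs

/-!
# Elliptic block: statements of the items of Part T (transcendence)
-/

set_option autoImplicit false

namespace Pool.Agent.Work.MP_8da9ea_nt.EB

open MvPolynomial Metric Filter Topology Pool.Agent.Work.MP_327059_nt.GL
  Pool.Agent.Work.MP_8da9ea_nt.S

/-! ## A. Arithmetic -/

/-- A1: adjoining algebraic numbers -/
def S_FText : Prop := ∀ (Q m r : ℕ) (b : Fin m → ℂ) (a : Fin r → ℂ), FT Q b →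
  (∀ i, IsAlgebraic ℚ (a i)) → FT (Q + 1) (Fin.append b a)

/-- A2: images under polynomials -/
def S_FTpol : Prop := ∀ (Q m k : ℕ) (b : Fin m → ℂ) (F : Fin k → MvPolynomial (Fin m) ℚ), FT Q b →
  FT (Q + 1) (fun t => aeval b (F t))

/-- A3: measure of linear independence over `k` -/
def S_LMk : Prop := ∀ (Q m : ℕ) (τ : ℂ) (b : Fin m → ℂ), 0 < τ.im → FT Q b → KLI τ b →
  ∀ c : ℕ, ∃ T₀ : ℕ, ∀ T : ℕ, T₀ ≤ T → ∀ w : Fin m → ℂ, w ≠ 0 → (∀ j, IsI τ (w j)) →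
    (∀ j, ‖w j‖ ≤ ((T ^ c : ℕ) : ℝ)) → Real.exp (-(T : ℝ)) ≤ ‖∑ j, w j * b j‖

/-! ## B. The function `℘` -/

/-- B1 -/
def S_WpUp : Prop := ∀ τ : ℂ, 0 < τ.im → ∃ C : ℝ, 1 ≤ C ∧ ∀ u ∉ Lam τ,
  ‖wp 1 τ u‖ * d1 τ u ^ 2 ≤ C

/-- B2 -/
def S_WpLow : Prop := ∀ τ : ℂ, 0 < τ.im → ∃ C : ℝ, 1 ≤ C ∧ ∀ u ∉ Lam τ,
  1 ≤ C * d1 τ u ^ 2 * (1 + ‖wp 1 τ u‖)

/-- B3: local inverse -/
def S_LocInv : Prop := ∀ τ : ℂ, 0 < τ.im → ∀ u₀ ∉ Lam τ, wpd τ u₀ ≠ 0 →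
  ∃ C ε₀ : ℝ, 1 ≤ C ∧ 0 < ε₀ ∧ ∀ x y : ℂ, ‖x - wp 1 τ u₀‖ ≤ ε₀ → ‖y - wpd τ u₀‖ ≤ ε₀ →
    y ^ 2 = 4 * x ^ 3 - gg2 τ * x - gg3 τ →
      ∃ u ∉ Lam τ, wp 1 τ u = x ∧ wpd τ u = y ∧ ‖u - u₀‖ ≤ C * ‖x - wp 1 τ u₀‖

/-- B4: clearing the poles -/
def S_QT : Prop := ∀ τ : ℂ, 0 < τ.im → ∃ C : ℝ, 1 ≤ C ∧ ∀ R : ℝ, 1 ≤ R →
  ∃ q g : ℂ → ℂ, Differentiable ℂ q ∧ DifferentiableOn ℂ g (ball 0 (4 * R)) ∧ q 0 = 0 ∧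
    (∀ u ∈ ball (0 : ℂ) (4 * R), ‖q u‖ ≤ Real.exp (C * R ^ 3) ∧ ‖g u‖ ≤ Real.exp (C * R ^ 3) ∧
      (u ∉ Lam τ → g u = q u ^ 2 * wp 1 τ u)) ∧
    ∀ u : ℂ, ‖u‖ ≤ R → Real.exp (-(C * R ^ 3)) * d1 τ u ≤ ‖q u‖

/-- B5 -/
def S_Surj : Prop := ∀ τ : ℂ, 0 < τ.im → ∀ x : ℂ, ∃ u ∉ Lam τ, wp 1 τ u = x

/-! ## C. Zero estimate -/

/-- C1: the norm of a translate in one variable -/
def S_Op1 : Prop := ∀ τ : ℂ, 0 < τ.im → ∀ (m : ℕ) (j : Fin m) (h : ℂ)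
  (F : MvPolynomial (Fin m) ℂ), F ≠ 0 → ∃ G : MvPolynomial (Fin m) ℂ, G ≠ 0 ∧
    (∀ i, G.degreeOf i ≤ 6 * F.degreeOf i) ∧
    (∀ (x : Fin m → ℂ) (v : ℂ), v ∉ Lam τ → v + h ∉ Lam τ →
      eval (Function.update x j (wp 1 τ (v + h))) F = 0 →
        eval (Function.update x j (wp 1 τ v)) G = 0) ∧
    (∀ (x : Fin m → ℂ) (v : ℂ), v ∉ Lam τ → v + h ∉ Lam τ → v - h ∉ Lam τ →
      eval (Function.update x j (wp 1 τ v)) G = 0 →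
        eval (Function.update x j (wp 1 τ (v + h))) F = 0 ∨
        eval (Function.update x j (wp 1 τ (v - h))) F = 0)

/-- C2: the norm of a translate in all variables -/
def S_OpA : Prop := ∀ τ : ℂ, 0 < τ.im → ∀ (m : ℕ) (δ : ℂ) (h : Fin m → ℂ)
  (F : MvPolynomial (Fin (m + 1)) ℂ), F ≠ 0 → ∃ G : MvPolynomial (Fin (m + 1)) ℂ, G ≠ 0 ∧
    (∀ i, G.degreeOf i ≤ 6 ^ (m + 1) * F.degreeOf i) ∧ Tr1 τ F G δ h ∧ Tr2 τ F G δ h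

/-- C3: popular differences -/
def S_Pop : Prop := ∀ (n S K : ℕ) (A : Finset (Fin n → ℤ)), 1 ≤ K →
  (∀ s ∈ A, ∀ i, 0 ≤ s i ∧ s i ≤ (S : ℤ)) → (S + 1) ^ n ≤ K * A.card →
    ∃ D : Finset (Fin n → ℤ), (∀ d ∈ D, ∀ i, |d i| ≤ (S : ℤ)) ∧ (S + 1) ^ n ≤ 2 * K * D.card ∧
      ∀ d ∈ D, (S + 1) ^ n ≤ 2 ^ (n + 1) * K ^ 2 * (A.filter fun s => s + d ∈ A).card

/-- C3': pigeonhole for the irreducible factors involving the first variable -/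
def S_Fac : Prop := ∀ (m : ℕ) (F : MvPolynomial (Fin (m + 1)) ℂ), F ≠ 0 →
  ∀ (ι : Type) (D : Finset ι) (f : ι → MvPolynomial (Fin (m + 1)) ℂ), D.Nonempty →
    (∀ d ∈ D, Irreducible (f d) ∧ (f d).degreeOf 0 ≠ 0 ∧ f d ∣ F) →
      ∃ g ∈ D, ∃ D' ⊆ D, D.card ≤ F.degreeOf 0 * D'.card ∧ ∀ d ∈ D', Associated (f g) (f d)

/-- C4: a branch -/
def S_Branch : Prop := ∀ τ : ℂ, 0 < τ.im → ∀ (m : ℕ) (f : MvPolynomial (Fin (m + 1)) ℂ),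
  Irreducible f → f.degreeOf 0 ≠ 0 →
    ∃ (v₀ : Fin m → ℂ) (r : ℝ) (L : (Fin m → ℂ) → ℂ), 0 < r ∧ AnalyticOnNhd ℂ L (ball v₀ r) ∧
      ∀ v ∈ ball v₀ r, (∀ i, v i ∉ Lam τ) ∧ L v ∉ Lam τ ∧ eval (pw τ v (L v)) f = 0

/-- C5: splitting along a branch -/
def S_Split : Prop := ∀ τ : ℂ, 0 < τ.im → ∀ (m : ℕ) (f F : MvPolynomial (Fin (m + 1)) ℂ),
  ∀ (v₀ : Fin m → ℂ) (r : ℝ) (L : (Fin m → ℂ) → ℂ), 0 < r → AnalyticOnNhd ℂ L (ball v₀ r) →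
  (∀ v ∈ ball v₀ r, (∀ i, v i ∉ Lam τ) ∧ L v ∉ Lam τ ∧ eval (pw τ v (L v)) f = 0) →
  ∀ (ι : Type) (D : Finset ι) (δ : ι → ℂ) (h : ι → Fin m → ℂ), (∀ d ∈ D, Tr2 τ F f (δ d) (h d)) →
    (∃ D' ⊆ D, D.card ≤ 4 * D'.card ∧ ∀ d ∈ D', ∀ d' ∈ D', δ d - δ d' ∈ Lam τ) ∨
    (∃ D' ⊆ D, D.card ≤ 2 ^ (m + 2) * D'.card ∧
      ∃ (v₁ : Fin m → ℂ) (r₁ : ℝ) (L₁ : (Fin m → ℂ) → ℂ), 0 < r₁ ∧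
        AnalyticOnNhd ℂ L₁ (ball v₁ r₁) ∧ ∀ v ∈ ball v₁ r₁, ∀ d ∈ D', (∀ i, v i + h d i ∉ Lam τ) ∧
          L₁ v + δ d ∉ Lam τ ∧ eval (pw τ (fun i => v i + h d i) (L₁ v + δ d)) F = 0)

/-- C6: the increments of a branch lie in a countable set -/
def S_Cnt : Prop := ∀ τ : ℂ, 0 < τ.im → ∀ (m : ℕ) (F : MvPolynomial (Fin (m + 1)) ℂ), F ≠ 0 →
  ∀ h : Fin m → ℂ, ∃ Z : Set ℂ, Z.Countable ∧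
    ∀ (δ : ℂ) (G g : MvPolynomial (Fin (m + 1)) ℂ), Irreducible g → g.degreeOf 0 ≠ 0 → g ∣ F →
      g ∣ G → Tr2 τ F G δ h → δ ∈ Z

/-- C6': a function with locally constant increments is linear -/
def S_Lin : Prop := ∀ (m : ℕ) (v₀ : Fin m → ℂ) (r : ℝ) (L : (Fin m → ℂ) → ℂ), 0 < r →
  AnalyticOnNhd ℂ L (ball v₀ r) →
  (∀ h : Fin m → ℂ, ∃ Z : Set ℂ, Z.Countable ∧
    ∀ v, v ∈ ball v₀ r → v + h ∈ ball v₀ r → L (v + h) - L v ∈ Z) →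
  ∃ (c : ℂ) (α : Fin m → ℂ) (r' : ℝ), 0 < r' ∧ r' ≤ r ∧
    ∀ v ∈ ball v₀ r', L v = c + ∑ i, α i * v i

/-- C7: continuation of the identity -/
def S_Glob : Prop := ∀ τ : ℂ, 0 < τ.im → ∀ (m : ℕ) (F : MvPolynomial (Fin (m + 1)) ℂ) (c : ℂ)
  (α v₀ : Fin m → ℂ) (r : ℝ), 0 < r →
  (∀ v ∈ ball v₀ r, (∀ i, v i ∉ Lam τ) ∧ c + ∑ i, α i * v i ∉ Lam τ ∧
    eval (pw τ v (c + ∑ i, α i * v i)) F = 0) →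
  ∀ v : Fin m → ℂ, (∀ i, v i ∉ Lam τ) → c + ∑ i, α i * v i ∉ Lam τ →
    eval (pw τ v (c + ∑ i, α i * v i)) F = 0

/-- C8: a linear branch is an endomorphism relation -/
def S_Fin : Prop := ∀ τ : ℂ, 0 < τ.im → ∃ C : ℕ, 1 ≤ C ∧ ∀ (m B : ℕ)
  (F : MvPolynomial (Fin (m + 1)) ℂ) (α : Fin m → ℂ) (ι : Type) (D : Finset ι) (κ : ι → ℂ),
  1 ≤ B → F ≠ 0 → (∀ i, F.degreeOf i ≤ B) → D.Nonempty →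
  (∀ d ∈ D, ∃ v : Fin m → ℂ, κ d + ∑ i, α i * v i ∉ Lam τ) →
  (∀ d ∈ D, ∀ v : Fin m → ℂ, (∀ i, v i ∉ Lam τ) → κ d + ∑ i, α i * v i ∉ Lam τ →
    eval (pw τ v (κ d + ∑ i, α i * v i)) F = 0) →
  ∃ N : ℕ, N ≠ 0 ∧ N ≤ (4 * B * B) ^ m ∧ (∀ i, IsI τ ((N : ℂ) * α i)) ∧
    (∀ i, ‖α i‖ ≤ ((C * B : ℕ) : ℝ)) ∧
    ∃ D' ⊆ D, D.card ≤ 2 * B * D'.card ∧ ∀ d ∈ D', ∀ d' ∈ D', κ d - κ d' ∈ Lam τ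

/-- C9: the induction step -/
def S_ZStepE : Prop := ∀ m : ℕ, ZEE m → ZEE (m + 1)

/-- C10: the zero estimate -/
def S_ZEE : Prop := ∀ m : ℕ, ZEE m

/-! ## D. Points, criterion -/

/-- D1: the addition formula -/
def S_AddVal : Prop := ∀ (τ μ : ℂ), 0 < τ.im → μ ≠ 0 → ∀ (n m : ℕ) (θ : VI n m → ℂ) (z z' : ℂ)
  (V W : Tri n m), Val τ μ θ z V → Val τ μ θ z' W →
    Val τ μ θ (-z) (negT V) ∧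
    (z + z' ∉ Lam τ → z - z' ∉ Lam τ → Val τ μ θ (z + z') (addT V W))

/-- D1': sizes -/
def S_AddSiz : Prop := ∀ (n m : ℕ) (h h' : ℝ) (V W : Tri n m), 0 ≤ h → 0 ≤ h' → Siz h V →
  Siz h' W → Siz h (negT V) ∧ Siz (4 * (h + h') + 6) (addT V W)

/-- D2: trees -/
def S_Tree : Prop := ∀ (n m : ℕ), 2 ≤ n → ∃ (C : ℝ) (K₁ : ℕ), 1 ≤ C ∧
  ∀ (τ μ : ℂ), 0 < τ.im → μ ≠ 0 → ∀ (j : Fin m) (u : Fin n → Fin m → ℂ),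
    (∀ s : Fin n → ℤ, s ≠ 0 → (∀ i, |s i| ≤ (K₁ : ℤ)) → pc u s j ∉ Lam τ) →
    ∀ (T : ℕ) (s : Fin n → ℤ), 1 ≤ T → (∀ i, |s i| ≤ (T : ℤ)) → pc u s j ∉ Lam τ →
      ∃ V : Tri n m, VP j s V ∧ Val τ μ (ptE τ μ u) (pc u s j) V ∧ Siz (C * T ^ 10) V

/-- D2': all triples are valid at the true point -/
def S_TrueVal : Prop := ∀ (τ μ : ℂ), 0 < τ.im → μ ≠ 0 → ∀ (n m : ℕ) (b : Fin m → ℂ)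
  (x : Fin n → ℂ), NT τ b x → ∀ (j : Fin m) (s : Fin n → ℤ) (V : Tri n m), VP j s V →
    Val τ μ (ptE τ μ (fun i j => b j * x i)) (b j * cmb s x) V

/-- D3: bound for `Z` -/
def S_ZUp : Prop := ∀ (τ μ : ℂ), 0 < τ.im → μ ≠ 0 → ∀ (n m : ℕ) (θ : VI n m → ℂ),
  ∃ C : ℝ, 1 ≤ C ∧ ∀ (z : ℂ) (h : ℝ) (V : Tri n m), 0 ≤ h → Val τ μ θ z V → Siz h V →
    ‖aeval θ V.Z‖ ≤ Real.exp (C * (h + 1)) * d1 τ z ^ 2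

/-- D4: the auxiliary function -/
def S_PsiE : Prop := ∀ (m e₁ e₂ : ℕ), 2 ≤ m → ∃ q₀ : ℕ, ∀ q : ℕ, q₀ ≤ q →
  ∀ (τ μ : ℂ), 0 < τ.im → μ ≠ 0 → ∀ (b : Fin m → ℂ) (R₀ : ℝ), 1 ≤ R₀ →
    ∃ T₀ : ℕ, ∀ T : ℕ, T₀ ≤ T → ∃ p : (Fin (m + 1) → Fin m → Fin (T ^ q)) → ℤ,
      p ≠ 0 ∧ (∀ x, |p x| ≤ (2 : ℤ) ^ (T ^ (q + 4))) ∧
      ∀ z : Fin (m + 1) → ℂ, (∀ i, ‖z i‖ ≤ R₀ * T) → (∀ i j, b j * z i ∉ Lam τ) →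
        ‖AF τ μ b p z‖ * ∏ i, ∏ j, d1 τ (b j * z i) ^ (2 * T ^ q) ≤
          Real.exp (-((T : ℝ) ^ ((q + e₁) * (m - 1) + e₂)))

/-- D5: values and sizes of the polynomials `PE` -/
def S_PEval : Prop := ∀ (n m G W : ℕ) (p : (Fin G → Fin m → Fin W) → ℤ)
  (V : Fin G → Fin m → Tri n m),
  (∀ (τ μ : ℂ) (θ : VI n m → ℂ) (z : Fin G → Fin m → ℂ), (∀ r j, Val τ μ θ (z r j) (V r j)) →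
    aeval θ (PE p V) = (∏ r, ∏ j, aeval θ (V r j).Z ^ W) *
      ∑ x : Fin G → Fin m → Fin W, (p x : ℂ) * ∏ r, ∏ j, xe τ μ (z r j) ^ (x r j : ℕ)) ∧
  (∀ (h H : ℝ), 0 ≤ h → 0 ≤ H → (∀ r j, Siz h (V r j)) → (∀ x, |(p x : ℝ)| ≤ Real.exp H) →
    SizP (G * m * W * (h + 1) + H) (PE p V))

/-- D5': transcendence degree of the coordinates -/
def S_TrExt : Prop := ∀ (τ μ : ℂ) (n m k : ℕ) (b : Fin m → ℂ) (x : Fin n → ℂ), Nrm τ μ →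
  NT τ b x → TrLe k (tx τ μ b x) → TrLe k (ptE τ μ (fun i j => b j * x i))

/-- D6: the criterion step -/
def S_CritE : Prop := ∀ (m n G : ℕ), 2 ≤ m → 2 ≤ n → 1 ≤ G → ∀ (τ μ : ℂ) (b : Fin m → ℂ)
  (x : Fin n → ℂ), Nrm τ μ → NT τ b x → TrLe (m - 2) (tx τ μ b x) →
  ∃ (C : ℝ) (T₀ : ℕ), 1 ≤ C ∧ ∀ T : ℕ, T₀ ≤ T → ∀ (W : ℕ) (h U : ℝ), 1 ≤ W → 1 ≤ h →
    C * (W * (T : ℝ) ^ 11 + h) ^ (m - 1) ≤ U →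
    ∀ p : (Fin G → Fin m → Fin W) → ℤ, p ≠ 0 → (∀ x, |(p x : ℝ)| ≤ Real.exp h) →
    (∀ s : Fin G → Fin n → ℤ, (∀ r, s r ≠ 0 ∧ ∀ i, 0 ≤ s r i ∧ s r i ≤ (T : ℤ)) →
      ‖AF τ μ b p (fun r => cmb (s r) x)‖ * ∏ r, ∏ j, d1 τ (b j * cmb (s r) x) ^ (2 * W) ≤
        Real.exp (-U)) →
    ∃ (u : Fin n → Fin m → ℂ) (F : MvPolynomial (Fin m) ℂ),
      (∀ i j, ‖u i j - b j * x i‖ ≤ Real.exp (-U / (C * (W * (T : ℝ) ^ 11 + h) ^ (m - 2)))) ∧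
      F ≠ 0 ∧ (∀ j, F.degreeOf j < W) ∧
      ∀ s : Fin n → ℤ, (∀ i, 0 ≤ s i ∧ s i ≤ (T : ℤ)) → (∀ j, pc u s j ∉ Lam τ) →
        eval (fun j => wp 1 τ (pc u s j)) F = 0

/-- D7: a polynomial vanishing at the perturbed points gives a small point -/
def S_NZ : Prop := ∀ (Q m q : ℕ), 1 ≤ m → ∃ n₀ : ℕ, ∀ τ : ℂ, 0 < τ.im → ∀ b : Fin m → ℂ,
  FT Q b → KLI τ b → ∀ n : ℕ, n₀ ≤ n → ∀ x : Fin n → ℂ, ∃ T₀ : ℕ, ∀ T : ℕ, T₀ ≤ T →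
    ∀ (ε : ℝ) (u : Fin n → Fin m → ℂ) (F : MvPolynomial (Fin m) ℂ), 0 ≤ ε → ε ≤ 1 →
      (∀ i j, ‖u i j - b j * x i‖ ≤ ε) → F ≠ 0 → (∀ j, F.degreeOf j ≤ T ^ q) →
      (∀ s : Fin n → ℤ, (∀ i, 0 ≤ s i ∧ s i ≤ (T : ℤ)) → (∀ j, pc u s j ∉ Lam τ) →
        eval (fun j => wp 1 τ (pc u s j)) F = 0) →
      ∃ s : Fin n → ℤ, s ≠ 0 ∧ (∀ i, |s i| ≤ ((T ^ 3 : ℕ) : ℤ)) ∧
        ‖cmb s x‖ ≤ ε * Real.exp T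

/-! ## M. Measure -/

/-- M1: Laurent coefficients of `℘` at the origin -/
def S_PhiT : Prop := ∀ K : ℕ, ∃ (M : ℕ) (ψ : ℕ → MvPolynomial (Fin 2) ℤ), 1 ≤ M ∧
  M ≤ (2 * K + 3).factorial ^ 2 ∧ ψ 0 = 1 ∧
  (∀ k, k ≤ K → (ψ k).totalDegree ≤ k ∧ len (ψ k) ≤ (M : ℝ) ^ k) ∧
  ∀ (τ μ : ℂ), 0 < τ.im → μ ≠ 0 → ∃ (c : ℕ → ℂ) (r : ℝ), 0 < r ∧
    (∀ z : ℂ, ‖z‖ < r → z ≠ 0 → HasSum (fun k => c k * z ^ k) (z ^ 2 * xe τ μ (μ * z))) ∧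
    ∀ k, k ≤ K → (M : ℂ) ^ k * c k = aeval ![μ ^ 4 * gg2 τ, μ ^ 6 * gg3 τ] (ψ k)

/-- M2: a zero close to the origin forces a high order of vanishing -/
def S_CoefE : Prop := ∀ (Q m : ℕ), ∃ c : ℕ, ∀ (τ μ : ℂ) (b : Fin m → ℂ), Nrm τ μ → FT Q b →
  (∀ j, b j ≠ 0) → ∃ C : ℝ, 1 ≤ C ∧ ∀ (D K : ℕ) (h U : ℝ) (R : MvPolynomial (Fin m) ℤ) (z₀ : ℂ),
    1 ≤ h → (∀ j, R.degreeOf j ≤ D) → (∀ d, |((R.coeff d : ℤ) : ℝ)| ≤ Real.exp h) →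
    C * (K + D + h) ^ c ≤ U → z₀ ≠ 0 → ‖z₀‖ ≤ Real.exp (-U) →
    aeval (fun j => xe τ μ (b j * z₀)) R = 0 →
      ∃ g : ℂ → ℂ, AnalyticAt ℂ g 0 ∧ ∀ᶠ z in 𝓝[≠] (0 : ℂ),
        (∏ j, (b j * z) ^ (2 * D)) * aeval (fun j => xe τ μ (b j * z)) R = z ^ (K + 1) * g z

/-- M3: an algebraic relation between the values at one point -/
def S_RelPt : Prop := ∀ (m n : ℕ), 2 ≤ m → 2 ≤ n → ∀ (τ μ : ℂ) (b : Fin m → ℂ) (x : Fin n → ℂ),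
  Nrm τ μ → NT τ b x → TrLe (m - 2) (tx τ μ b x) → ∃ S₀ : ℕ, ∀ S : ℕ, S₀ ≤ S →
    ∀ s : Fin n → ℤ, s ≠ 0 → (∀ i, |s i| ≤ (S : ℤ)) → ∃ R : MvPolynomial (Fin m) ℤ, R ≠ 0 ∧
      (∀ j, R.degreeOf j ≤ S ^ (5 * m)) ∧
      (∀ d, |((R.coeff d : ℤ) : ℝ)| ≤ Real.exp ((S : ℝ) ^ (5 * m + 12))) ∧
      aeval (fun j => xe τ μ (b j * cmb s x)) R = 0

/-- M4: Schwarz lemma -/
def S_SchwE : Prop := ∀ (m : ℕ) (τ μ : ℂ) (b : Fin m → ℂ) (R₀ : ℝ), 0 < τ.im → μ ≠ 0 →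
  (∀ j, b j ≠ 0) → 1 ≤ R₀ → ∃ C : ℝ, 1 ≤ C ∧ ∀ (D K T : ℕ) (h : ℝ) (R : MvPolynomial (Fin m) ℤ),
    1 ≤ h → 1 ≤ T → (∀ j, R.degreeOf j ≤ D) → (∀ d, |((R.coeff d : ℤ) : ℝ)| ≤ Real.exp h) →
    (∃ g : ℂ → ℂ, AnalyticAt ℂ g 0 ∧ ∀ᶠ z in 𝓝[≠] (0 : ℂ),
      (∏ j, (b j * z) ^ (2 * D)) * aeval (fun j => xe τ μ (b j * z)) R = z ^ (K + 1) * g z) →
    ∀ z : ℂ, ‖z‖ ≤ R₀ * T → (∀ j, b j * z ∉ Lam τ) →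
      ‖aeval (fun j => xe τ μ (b j * z)) R‖ * ∏ j, d1 τ (b j * z) ^ (2 * D) ≤
        Real.exp (C * ((D + 1) * (T : ℝ) ^ 3 + h) - K)

/-- M5: descent -/
def S_StepM : Prop := ∀ (Q m : ℕ), 2 ≤ m → ∃ e a n₀ : ℕ, 1 ≤ e ∧ 1 ≤ a ∧ ∀ (τ μ : ℂ)
  (b : Fin m → ℂ), Nrm τ μ → FT Q b → KLI τ b → ∀ n : ℕ, n₀ ≤ n → ∀ x : Fin n → ℂ,
    LinearIndependent ℚ x → NT τ b x → TrLe (m - 2) (tx τ μ b x) →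
      ∃ T₀ : ℕ, ∀ T : ℕ, T₀ ≤ T → ∀ a' : ℕ, a ≤ a' →
        (∃ s : Fin n → ℤ, s ≠ 0 ∧ (∀ i, |s i| ≤ ((T ^ e : ℕ) : ℤ)) ∧
          ‖cmb s x‖ ≤ Real.exp (-((T : ℝ) ^ (e * a')))) →
        ∃ s : Fin n → ℤ, s ≠ 0 ∧ (∀ i, |s i| ≤ (T : ℤ)) ∧
          ‖cmb s x‖ ≤ Real.exp (-((T : ℝ) ^ (2 * a')))

/-- M6: the measure is automatic -/
def S_MeasE : Prop := ∀ (Q m : ℕ), 2 ≤ m → ∃ Q' n₀ : ℕ, ∀ (τ μ : ℂ) (b : Fin m → ℂ), Nrm τ μ →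
  FT Q b → KLI τ b → ∀ n : ℕ, n₀ ≤ n → ∀ x : Fin n → ℂ, LinearIndependent ℚ x → NT τ b x →
    TrLe (m - 2) (tx τ μ b x) → MS Q' x

/-- T1: the transcendence input under (NT) -/
def S_TIE : Prop := ∀ (Q m : ℕ), 2 ≤ m → ∃ n₀ : ℕ, ∀ (τ μ : ℂ) (b : Fin m → ℂ), Nrm τ μ →
  FT Q b → KLI τ b → ∀ n : ℕ, n₀ ≤ n → ∀ x : Fin n → ℂ, LinearIndependent ℚ x → NT τ b x →
    ¬ TrLe (m - 2) (tx τ μ b x)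

/-- T2: reduction to (NT) -/
def S_RedNT : Prop := ∀ (τ : ℂ) (m n : ℕ) (b : Fin m → ℂ) (x : Fin n → ℂ), 0 < τ.im →
  (∀ j, b j ≠ 0) → LinearIndependent ℚ x → ∃ (n' : ℕ) (g : Fin n' → Fin n → ℤ), n ≤ n' + 2 * m ∧
    LinearIndependent ℚ (fun i => cmb (g i) x) ∧ NT τ b (fun i => cmb (g i) x)

end Pool.Agent.Work.MP_8da9ea_nt.EB
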