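import Mathlib
import Pool.Agent.Work.MP_8da9ea_nt.EB.StmtsT

/-!
# Item Fac: pigeonhole for the irreducible factors involving the first variable
-/

set_option autoImplicit false

namespace Pool.Agent.Work.MP_8da9ea_nt.EB

open MvPolynomial

theorem Fac_pf : S_Fac := by
  intro m F hF ι D f hD hf
  classical
  set T : Finset (Associates (MvPolynomial (Fin (m + 1)) ℂ)) :=
    D.image fun d => Associates.mk (f d) with hT
  have hTne : T.Nonempty := hD.image _
  have hι : Nonempty ι := ⟨hD.choose⟩
  -- representatives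
  have hrep : ∀ a ∈ T, ∃ d ∈ D, Associates.mk (f d) = a := by
    intro a ha
    exact Finset.mem_image.1 ha
  choose! rep hrepD hrepa using hrep
  -- the product of the representatives divides `F`
  have hprod : ∏ a ∈ T, f (rep a) ∣ F := by
    have h1 : Associates.mk (∏ a ∈ T, f (rep a)) = ∏ a ∈ T, a := by
      rw [← Associates.finsetProd_mk]
      exact Finset.prod_congr rfl fun a ha => hrepa a ha
    rw [← Associates.mk_dvd_mk, h1]
    refine Finset.prod_primes_dvd _ (fun a ha => ?_) (fun a ha => ?_)
    · rw [← hrepa a ha, Associates.prime_mk]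
      exact (hf _ (hrepD a ha)).1.prime
    · rw [← hrepa a ha, Associates.mk_dvd_mk]
      exact (hf _ (hrepD a ha)).2.2
  have hne : ∀ a ∈ T, f (rep a) ≠ 0 := fun a ha => (hf _ (hrepD a ha)).1.ne_zero
  have hcard : T.card ≤ F.degreeOf 0 := by
    obtain ⟨Q, hQ⟩ := hprod
    have hQ0 : Q ≠ 0 := by
      rintro rfl
      exact hF (by rw [hQ, mul_zero])
    have hP0 : ∏ a ∈ T, f (rep a) ≠ 0 := Finset.prod_ne_zero_iff.2 hne
    rw [hQ, degreeOf_mul_eq hP0 hQ0, degreeOf_prod_eq T _ hne]
    refine le_trans ?_ (Nat.le_add_right _ _)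
    calc T.card = ∑ _a ∈ T, 1 := by simp
      _ ≤ ∑ a ∈ T, (f (rep a)).degreeOf 0 := by
          refine Finset.sum_le_sum fun a ha => ?_
          exact Nat.one_le_iff_ne_zero.2 (hf _ (hrepD a ha)).2.1
  -- pigeonhole
  obtain ⟨a, ha, hmax⟩ := Finset.exists_max_image T
    (fun a => (D.filter fun d => Associates.mk (f d) = a).card) hTne
  refine ⟨rep a, hrepD a ha, D.filter fun d => Associates.mk (f d) = a,
    Finset.filter_subset _ _, ?_, ?_⟩
  · calc D.card = ∑ b ∈ T, (D.filter fun d => Associates.mk (f d) = b).card :=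
          Finset.card_eq_sum_card_fiberwise fun d hd => Finset.mem_image_of_mem _ hd
      _ ≤ ∑ _b ∈ T, (D.filter fun d => Associates.mk (f d) = a).card :=
          Finset.sum_le_sum fun b hb => hmax b hb
      _ = T.card * (D.filter fun d => Associates.mk (f d) = a).card := by
          rw [Finset.sum_const, smul_eq_mul]
      _ ≤ _ := Nat.mul_le_mul_right _ hcard
  · intro d hd
    rw [Finset.mem_filter] at hd
    rw [← Associates.mk_eq_mk_iff_associated, hd.2, hrepa a ha]

end Pool.Agent.Work.MP_8da9ea_nt.EB
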