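import Pool.Agent.Work.MP_8da9ea_nt.EB.Gen

/-!
# Elliptic block, item Fin: a linear branch is an endomorphism relation
-/

set_option autoImplicit false

namespace Pool.Agent.Work.MP_8da9ea_nt.EB

open MvPolynomial Metric Filter Topology Pool.Agent.Work.MP_8da9ea_nt

namespace XFin

variable {m : ℕ} {τ : ℂ}

/-- The lattice as a subgroup. -/
def LG (τ : ℂ) : AddSubgroup ℂ where
  carrier := Lam τ
  zero_mem' := mem_Lam.2 ⟨0, 0, by simp⟩
  add_mem' := Fx.Lam_add
  neg_mem' := fun h => neg_mem_Lam.2 h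

lemma mem_LG {l : ℂ} : l ∈ LG τ ↔ l ∈ Lam τ := Iff.rfl

lemma wp_per (hτ : 0 < τ.im) (z : ℂ) {l : ℂ} (hl : l ∈ Lam τ) : wp 1 τ (z + l) = wp 1 τ z :=
  Fx.ef_add_per hτ true z hl

lemma add_mem_iff {z l : ℂ} (hl : l ∈ Lam τ) : z + l ∈ Lam τ ↔ z ∈ Lam τ := by
  constructor
  · intro h
    have h1 := (LG τ).sub_mem h hl
    rw [add_sub_cancel_right] at h1
    exact h1
  · intro h
    exact Fx.Lam_add h hl

/-- The hyperplane `y = c + α.v` is in the zero set. -/
def Hy (τ : ℂ) (F : MvPolynomial (Fin (m + 1)) ℂ) (α : Fin m → ℂ) (c : ℂ) : Prop :=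
  (∃ v : Fin m → ℂ, c + ∑ i, α i * v i ∉ Lam τ) ∧
  ∀ v : Fin m → ℂ, (∀ i, v i ∉ Lam τ) → c + ∑ i, α i * v i ∉ Lam τ →
    eval (pw τ v (c + ∑ i, α i * v i)) F = 0

lemma Hy.or {F : MvPolynomial (Fin (m + 1)) ℂ} {α : Fin m → ℂ} {c : ℂ} (h : Hy τ F α c) :
    α ≠ 0 ∨ c ∉ Lam τ := by
  by_cases hα : α = 0
  · right
    obtain ⟨v, hv⟩ := h.1
    simpa [hα] using hv
  · exact Or.inl hα

/-- at most `2B` classes -/
theorem cnt (hτ : 0 < τ.im) {F : MvPolynomial (Fin (m + 1)) ℂ} {B : ℕ} (hF : F ≠ 0)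
    (hB : F.degreeOf 0 ≤ B) (α : Fin m → ℂ) (X : Finset ℂ) (hX : ∀ c ∈ X, Hy τ F α c)
    (hc : 2 * B < X.card) : ∃ c ∈ X, ∃ c' ∈ X, c ≠ c' ∧ c - c' ∈ Lam τ := by
  classical
  obtain ⟨v, -, hv1, hv2, hv3⟩ := Gen.generic hτ (U := (Set.univ : Set (Fin m → ℂ))) isOpen_univ
    Set.univ_nonempty (ι := Unit) (κ := X) (fun _ => Gen.lc0 F) (fun _ => 0) (fun _ => α)
    (fun c => (c : ℂ)) (fun _ => Gen.lc0_ne hF) (fun c => (hX c c.2).or)
  have h1 := (hv2 ()).2
  simp only [Pi.zero_apply, add_zero] at h1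
  have hinj : Function.Injective (fun c : ℂ => c + ∑ i, α i * v i) := fun a b h => by
    simpa using h
  obtain ⟨z, hz, z', hz', hne, hl⟩ := Gen.fibre hτ h1 hB (X.image (fun c => c + ∑ i, α i * v i))
    (by rw [Finset.card_image_of_injective _ hinj]; exact hc) (by
      intro z hz
      rw [Finset.mem_image] at hz
      obtain ⟨c, hc, rfl⟩ := hz
      have h2 := hv3 ⟨c, hc⟩
      exact ⟨h2, (hX c hc).2 v hv1 h2⟩)
  rw [Finset.mem_image] at hz hz'
  obtain ⟨c, hc1, rfl⟩ := hz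
  obtain ⟨c', hc2, rfl⟩ := hz'
  refine ⟨c, hc1, c', hc2, fun h => hne (by rw [h]), ?_⟩
  have h3 : c - c' = c + ∑ i, α i * v i - (c' + ∑ i, α i * v i) := by ring
  rw [h3]
  exact hl

/-- translation by a lattice vector -/
lemma Hy.shift (hτ : 0 < τ.im) {F : MvPolynomial (Fin (m + 1)) ℂ} {α : Fin m → ℂ} {c : ℂ}
    (h : Hy τ F α c) (i : Fin m) {l : ℂ} (hl : l ∈ Lam τ) : Hy τ F α (c + α i * l) := by
  have hsum : ∀ (v : Fin m → ℂ) (x : ℂ), ∑ j, α j * (v + Pi.single i x : Fin m → ℂ) j =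
      ∑ j, α j * v j + α i * x := by
    intro v x
    simp [mul_add, Finset.sum_add_distrib, Pi.single_apply]
  constructor
  · obtain ⟨v, hv⟩ := h.1
    refine ⟨v + Pi.single i (-l), ?_⟩
    rw [hsum]
    have : c + α i * l + (∑ j, α j * v j + α i * -l) = c + ∑ j, α j * v j := by ring
    rw [this]
    exact hv
  · intro v hv1 hv2
    have h1 : c + α i * l + ∑ j, α j * v j =
        c + ∑ j, α j * (v + Pi.single i l : Fin m → ℂ) j := by
      rw [hsum]
      ring
    have hper : ∀ j, wp 1 τ ((v + Pi.single i l : Fin m → ℂ) j) = wp 1 τ (v j) := by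
      intro j
      rw [Pi.add_apply, Pi.single_apply]
      split_ifs
      · exact wp_per hτ _ hl
      · rw [add_zero]
    have h2 := h.2 (v + Pi.single i l) (by
      intro j
      rw [Pi.add_apply, Pi.single_apply]
      split_ifs
      · rw [add_mem_iff hl]
        exact hv1 j
      · rw [add_zero]
        exact hv1 j) (by rw [← h1]; exact hv2)
    rw [← h1] at h2
    have h3 : pw τ (v + Pi.single i l) (c + α i * l + ∑ j, α j * v j) =
        pw τ v (c + α i * l + ∑ j, α j * v j) := by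
      unfold pw
      congr 1
      exact _root_.funext hper
    rw [h3] at h2
    exact h2

/-- `N α_i λ ∈ Lam` -/
lemma Hy.int1 (hτ : 0 < τ.im) {F : MvPolynomial (Fin (m + 1)) ℂ} {B : ℕ} (hF : F ≠ 0)
    (hB1 : 1 ≤ B) (hB : F.degreeOf 0 ≤ B) {α : Fin m → ℂ} {c : ℂ} (h : Hy τ F α c) (i : Fin m)
    {l : ℂ} (hl : l ∈ Lam τ) : ∃ N : ℕ, 1 ≤ N ∧ N ≤ 2 * B ∧ (N : ℂ) * (α i * l) ∈ Lam τ := by
  classical
  by_cases h0 : α i * l = 0
  · exact ⟨1, le_rfl, by omega, by rw [h0, mul_zero]; exact (LG τ).zero_mem⟩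
  have hinj : Function.Injective (fun k : ℕ => c + α i * ((k : ℂ) * l)) := by
    intro a b hab
    have h1 : (a : ℂ) * (α i * l) = b * (α i * l) := by
      have : c + α i * ((a : ℂ) * l) = c + α i * ((b : ℂ) * l) := hab
      linear_combination this
    exact_mod_cast mul_right_cancel₀ h0 h1
  obtain ⟨z, hz, z', hz', hne, hd⟩ := cnt hτ hF hB α
    ((Finset.range (2 * B + 1)).image (fun k : ℕ => c + α i * ((k : ℂ) * l))) (by
      intro z hz
      rw [Finset.mem_image] at hz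
      obtain ⟨k, -, rfl⟩ := hz
      exact h.shift hτ i (by
        have := (LG τ).nsmul_mem (x := l) hl k
        rw [nsmul_eq_mul] at this
        exact this)) (by
      rw [Finset.card_image_of_injective _ hinj, Finset.card_range]
      omega)
  rw [Finset.mem_image] at hz hz'
  obtain ⟨a, ha, rfl⟩ := hz
  obtain ⟨b, hb, rfl⟩ := hz'
  rw [Finset.mem_range] at ha hb
  have hab : a ≠ b := fun h => hne (by rw [h])
  have key : ∀ a b : ℕ, b < a → a < 2 * B + 1 →
      c + α i * ((a : ℂ) * l) - (c + α i * ((b : ℂ) * l)) ∈ Lam τ →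
      ∃ N : ℕ, 1 ≤ N ∧ N ≤ 2 * B ∧ (N : ℂ) * (α i * l) ∈ Lam τ := by
    intro a b h1 h2 h3
    refine ⟨a - b, by omega, by omega, ?_⟩
    rw [Nat.cast_sub h1.le]
    have : ((a : ℂ) - b) * (α i * l) =
        c + α i * ((a : ℂ) * l) - (c + α i * ((b : ℂ) * l)) := by ring
    rw [this]
    exact h3
  rcases lt_or_gt_of_ne hab with h1 | h1
  · refine key b a h1 hb ?_
    have := (LG τ).neg_mem hd
    rwa [neg_sub] at this
  · exact key a b h1 ha hd

/-- `N α_i` is an integral endomorphism -/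
lemma Hy.int (hτ : 0 < τ.im) {F : MvPolynomial (Fin (m + 1)) ℂ} {B : ℕ} (hF : F ≠ 0)
    (hB1 : 1 ≤ B) (hB : F.degreeOf 0 ≤ B) {α : Fin m → ℂ} {c : ℂ} (h : Hy τ F α c) (i : Fin m) :
    ∃ N : ℕ, 1 ≤ N ∧ N ≤ 4 * B * B ∧ IsI τ ((N : ℂ) * α i) := by
  obtain ⟨a, ha1, ha2, ha3⟩ := h.int1 hτ hF hB1 hB i (l := 1) (mem_Lam.2 ⟨1, 0, by simp⟩)
  obtain ⟨b, hb1, hb2, hb3⟩ := h.int1 hτ hF hB1 hB i (l := τ) (mem_Lam.2 ⟨0, 1, by simp⟩)
  refine ⟨a * b, Nat.mul_pos ha1 hb1, ?_, ?_, ?_⟩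
  · calc a * b ≤ (2 * B) * (2 * B) := Nat.mul_le_mul ha2 hb2
      _ = 4 * B * B := by ring
  · have := (LG τ).nsmul_mem (x := (a : ℂ) * (α i * 1)) ha3 b
    rw [nsmul_eq_mul] at this
    have h1 : ((a * b : ℕ) : ℂ) * α i = b * ((a : ℂ) * (α i * 1)) := by push_cast; ring
    rw [h1]
    exact this
  · have := (LG τ).nsmul_mem (x := (b : ℂ) * (α i * τ)) hb3 a
    rw [nsmul_eq_mul] at this
    have h1 : ((a * b : ℕ) : ℂ) * α i * τ = a * ((b : ℂ) * (α i * τ)) := by push_cast; ring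
    rw [h1]
    exact this

/-! ### Size -/

/-- the leading coefficient vanishes where the branch has a pole -/
lemma lc_zero (hτ : 0 < τ.im) {F : MvPolynomial (Fin (m + 1)) ℂ} {α : Fin m → ℂ} {c : ℂ}
    (h : Hy τ F α c) {i : Fin m} (hi : α i ≠ 0) {v : Fin m → ℂ} (hv : ∀ j, v j ∉ Lam τ)
    (hl : c + ∑ j, α j * v j ∈ Lam τ) :
    eval (fun j => wp 1 τ (v j)) (Gen.lc0 F) = 0 := by
  set l : ℂ := c + ∑ j, α j * v j with hldef
  set e : ℕ := (finSuccEquiv ℂ m F).natDegree with he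
  -- the moving point
  have hsum : ∀ s : ℂ, c + ∑ j, α j * (v + Pi.single i (s / α i) : Fin m → ℂ) j = s + l := by
    intro s
    have h1 : ∑ j, α j * (v + Pi.single i (s / α i) : Fin m → ℂ) j = ∑ j, α j * v j + s := by
      simp only [Pi.add_apply, mul_add, Finset.sum_add_distrib, Pi.single_apply, mul_ite, mul_zero,
        Finset.sum_ite_eq', Finset.mem_univ, if_true]
      field_simp
    rw [h1, hldef]
    ring
  have hcont : ContinuousAt (fun s : ℂ => v + (Pi.single i (s / α i) : Fin m → ℂ)) 0 := by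
    apply Continuous.continuousAt
    refine continuous_const.add ?_
    exact (continuous_single i).comp (by fun_prop)
  have h0 : v + (Pi.single i ((0 : ℂ) / α i) : Fin m → ℂ) = v := by simp
  have hreg : ∀ᶠ s : ℂ in 𝓝 0, ∀ j, (v + (Pi.single i (s / α i) : Fin m → ℂ)) j + (0 : Fin m → ℂ) j ∉ Lam τ := by
    have h2 : {w : Fin m → ℂ | ∀ j, w j + (0 : Fin m → ℂ) j ∉ Lam τ} ∈ 𝓝 v :=
      (Gen.isOpen_off hτ (0 : Fin m → ℂ)).mem_nhds (by simpa using hv)
    have h3 : Tendsto (fun s : ℂ => v + (Pi.single i (s / α i) : Fin m → ℂ)) (𝓝 0) (𝓝 v) := by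
      have := hcont.tendsto
      rwa [h0] at this
    exact h3.eventually h2
  have hzero : ∀ᶠ s : ℂ in 𝓝[≠] 0, ∑ k ∈ Finset.range (e + 1),
      eval (fun j => wp 1 τ ((v + (Pi.single i (s / α i) : Fin m → ℂ)) j + (0 : Fin m → ℂ) j))
        ((finSuccEquiv ℂ m F).coeff k) * ((s ^ 2 * wp 1 τ s) ^ k * (s ^ 2) ^ (e - k)) = 0 := by
    filter_upwards [eventually_notMem hτ, hreg.filter_mono nhdsWithin_le_nhds] with s hs1 hs2
    have h2 := h.2 (v + (Pi.single i (s / α i) : Fin m → ℂ)) (by simpa using hs2) (by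
      rw [hsum, add_mem_iff hl]
      exact hs1)
    rw [hsum, Gen.pw_eq, Gen.eval_cons, wp_per hτ _ hl, Polynomial.eval_map,
      Polynomial.eval₂_eq_sum_range] at h2
    have h3 := congrArg (fun x => (s ^ 2) ^ e * x) h2
    simp only [mul_zero, Finset.mul_sum] at h3
    rw [← h3]
    refine Finset.sum_congr rfl fun k hk => ?_
    rw [Finset.mem_range] at hk
    have h4 : (s ^ 2) ^ e = (s ^ 2) ^ k * (s ^ 2) ^ (e - k) := by
      rw [← pow_add]
      congr 1
      omega
    simp only [Pi.zero_apply, add_zero]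
    rw [h4, mul_pow]
    ring
  have hlim : Tendsto (fun s : ℂ => ∑ k ∈ Finset.range (e + 1),
      eval (fun j => wp 1 τ ((v + (Pi.single i (s / α i) : Fin m → ℂ)) j + (0 : Fin m → ℂ) j))
        ((finSuccEquiv ℂ m F).coeff k) * ((s ^ 2 * wp 1 τ s) ^ k * (s ^ 2) ^ (e - k))) (𝓝[≠] 0)
      (𝓝 (∑ k ∈ Finset.range (e + 1),
        eval (fun j => wp 1 τ (v j + (0 : Fin m → ℂ) j)) ((finSuccEquiv ℂ m F).coeff k) *
          (1 ^ k * ((0 : ℂ) ^ 2) ^ (e - k)))) := by
    refine tendsto_finsetSum _ fun k _ => Tendsto.mul ?_ (Tendsto.mul ?_ ?_)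
    · have h5 := (Gen.continuousAt_eval hτ ((finSuccEquiv ℂ m F).coeff k) 0
        (v := v) (by simpa using hv)).tendsto
      have h6 : Tendsto (fun s : ℂ => v + (Pi.single i (s / α i) : Fin m → ℂ)) (𝓝 0) (𝓝 v) := by
        have := hcont.tendsto
        rwa [h0] at this
      exact h5.comp (h6.mono_left nhdsWithin_le_nhds)
    · exact (lim_sq_wp hτ).pow k
    · have h7 : Tendsto (fun s : ℂ => (s ^ 2) ^ (e - k)) (𝓝 0) (𝓝 (((0 : ℂ) ^ 2) ^ (e - k))) :=
        Continuous.tendsto (by fun_prop) 0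
      exact h7.mono_left nhdsWithin_le_nhds
  have huniq := tendsto_nhds_unique (hlim.congr' hzero) tendsto_const_nhds
  rw [Finset.sum_eq_single e] at huniq
  · simp only [Pi.zero_apply, add_zero, one_pow, Nat.sub_self, pow_zero, mul_one] at huniq
    exact huniq
  · intro k hk hke
    rw [Finset.mem_range] at hk
    have h8 : e - k ≠ 0 := by omega
    rw [zero_pow (by norm_num), zero_pow h8, mul_zero, mul_zero]
  · intro hk
    exact absurd (Finset.mem_range.2 (Nat.lt_succ_self e)) hk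

/-- a positive lower bound for the non-zero lattice points -/
lemma exists_delta (hτ : 0 < τ.im) : ∃ δ : ℝ, 0 < δ ∧ ∀ l ∈ Lam τ, l ≠ 0 → δ ≤ ‖l‖ := by
  have h := eventually_notMem hτ
  rw [eventually_nhdsWithin_iff] at h
  obtain ⟨δ, hδ, hb⟩ := Metric.eventually_nhds_iff.1 h
  refine ⟨δ, hδ, fun l hl h0 => ?_⟩
  by_contra hcon
  push Not at hcon
  exact hb (by rwa [dist_zero_right]) h0 hl

/-- three points of a fibre of `wp` -/
lemma two_fibre (hτ : 0 < τ.im) (R Z : Finset ℂ) (hZ : 2 * R.card < Z.card)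
    (hz : ∀ z ∈ Z, z ∉ Lam τ ∧ wp 1 τ z ∈ R) : ∃ z ∈ Z, ∃ z' ∈ Z, z ≠ z' ∧ z - z' ∈ Lam τ := by
  classical
  obtain ⟨y, _, hy⟩ := Finset.exists_lt_card_fiber_of_mul_lt_card_of_maps_to
    (fun z h => (hz z h).2) (by omega : R.card * 2 < Z.card)
  obtain ⟨a, b, c, ha, hb, hc, hab, hac, hbc⟩ := Finset.two_lt_card_iff.1 hy
  simp only [Finset.mem_filter] at ha hb hc
  by_contra hcon
  push Not at hcon
  have h3 : ∀ z ∈ Z, ∀ z' ∈ Z, z ≠ z' → wp 1 τ z = wp 1 τ z' → z + z' ∈ Lam τ := by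
    intro z hzz z' hz' hne heq
    exact (Fx.wp_inj hτ (hz z hzz).1 (hz z' hz').1 heq).resolve_left (hcon z hzz z' hz' hne)
  have h4 := h3 a ha.1 b hb.1 hab (ha.2.trans hb.2.symm)
  have h5 := h3 a ha.1 c hc.1 hac (ha.2.trans hc.2.symm)
  apply hcon b hb.1 c hc.1 hbc
  have h6 : b - c = (a + b) + -(a + c) := by ring
  rw [h6]
  exact Fx.Lam_add h4 (neg_mem_Lam.2 h5)

/-- specialisation of all variables but one -/
noncomputable def uni (i : Fin m) (x : Fin m → ℂ) (L : MvPolynomial (Fin m) ℂ) : Polynomial ℂ :=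
  aeval (fun j => if j = i then Polynomial.X else Polynomial.C (x j)) L

lemma eval_uni (i : Fin m) (x : Fin m → ℂ) (L : MvPolynomial (Fin m) ℂ) (y : ℂ) :
    Polynomial.eval y (uni i x L) = eval (Function.update x i y) L := by
  have h1 : Polynomial.eval y (uni i x L) = (Polynomial.aeval y) (uni i x L) := by
    rw [Polynomial.coe_aeval_eq_eval]
  have h2 : (Polynomial.aeval y) (uni i x L) =
      aeval (fun j => (Polynomial.aeval y) (if j = i then Polynomial.X else Polynomial.C (x j))) L := by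
    rw [uni, ← MvPolynomial.comp_aeval_apply]
  rw [h1, h2, MvPolynomial.aeval_eq_eval]
  congr 1
  congr 1
  funext j
  by_cases hj : j = i
  · subst hj
    simp
  · simp [hj]

lemma natDegree_uni (i : Fin m) (x : Fin m → ℂ) (L : MvPolynomial (Fin m) ℂ) :
    (uni i x L).natDegree ≤ L.degreeOf i := by
  rw [uni, aeval_def, eval₂_eq']
  refine Polynomial.natDegree_sum_le_of_forall_le _ _ fun d hd => ?_
  refine Polynomial.natDegree_mul_le.trans ?_
  have h1 : (algebraMap ℂ (Polynomial ℂ) (coeff d L)).natDegree = 0 := Polynomial.natDegree_C _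
  rw [h1, zero_add]
  refine (Polynomial.natDegree_prod_le _ _).trans ?_
  have h2 : ∀ j, ((if j = i then Polynomial.X else Polynomial.C (x j) : Polynomial ℂ) ^ d j).natDegree ≤
      if j = i then d i else 0 := by
    intro j
    by_cases hj : j = i
    · subst hj
      simp
    · simp only [hj, if_false]
      rw [← Polynomial.C_pow, Polynomial.natDegree_C]
  refine (Finset.sum_le_sum fun j _ => h2 j).trans ?_
  rw [Finset.sum_ite_eq' Finset.univ i (fun _ => d i)]
  simp only [Finset.mem_univ, if_true]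
  exact le_degreeOf_of_mem_support i hd

theorem size (hτ : 0 < τ.im) {δ : ℝ} (hδ : 0 < δ) (hδl : ∀ l ∈ Lam τ, l ≠ 0 → δ ≤ ‖l‖)
    {F : MvPolynomial (Fin (m + 1)) ℂ} {B : ℕ} (hF : F ≠ 0)
    (hB : ∀ j, F.degreeOf j ≤ B) {α : Fin m → ℂ} {c : ℂ} (h : Hy τ F α c) (i : Fin m) :
    ‖α i‖ ≤ (2 * B + 1) / δ := by
  classical
  by_cases hi : α i = 0
  · rw [hi, norm_zero]
    positivity
  obtain ⟨v, -, hv1, hv2, -⟩ := Gen.generic hτ (U := (Set.univ : Set (Fin m → ℂ))) isOpen_univ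
    Set.univ_nonempty (ι := Unit) (κ := Empty) (fun _ => Gen.lc0 F) (fun _ => 0) (fun _ => 0)
    (fun _ => 0) (fun _ => Gen.lc0_ne hF) (fun c => c.elim)
  have h1 := (hv2 ()).2
  simp only [Pi.zero_apply, add_zero] at h1
  set p := uni i (fun j => wp 1 τ (v j)) (Gen.lc0 F) with hp
  have hp0 : p ≠ 0 := by
    intro h2
    apply h1
    have h3 := eval_uni i (fun j => wp 1 τ (v j)) (Gen.lc0 F) (wp 1 τ (v i))
    rw [← hp, h2, Polynomial.eval_zero] at h3
    rw [← Function.update_eq_self i (fun j => wp 1 τ (v j))]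
    exact h3.symm
  have hpd : p.roots.toFinset.card ≤ B := by
    refine (Multiset.toFinset_card_le _).trans ((Polynomial.card_roots' _).trans ?_)
    exact (natDegree_uni i _ _).trans ((Gen.lc0_degreeOf F i).trans (hB _))
  set c' : ℂ := c + ∑ j, α j * v j - α i * v i with hc'
  set y : ℕ → ℂ := fun k => ((k : ℂ) - c') / α i with hy
  have hyinj : Function.Injective y := by
    intro a b hab
    have h2 : ((a : ℂ) - c') / α i = ((b : ℂ) - c') / α i := hab
    rw [div_left_inj' hi] at h2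
    exact_mod_cast sub_left_injective h2
  have hval : ∀ k : ℕ, c + ∑ j, α j * Function.update v i (y k) j = k := by
    intro k
    have h2 : ∑ j, α j * Function.update v i (y k) j =
        ∑ j, α j * v j + α i * (y k - v i) := by
      rw [← Finset.add_sum_erase _ _ (Finset.mem_univ i),
        ← Finset.add_sum_erase Finset.univ (fun j => α j * v j) (Finset.mem_univ i)]
      rw [Function.update_self]
      have h3 : ∑ j ∈ Finset.univ.erase i, α j * Function.update v i (y k) j =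
          ∑ j ∈ Finset.univ.erase i, α j * v j := by
        refine Finset.sum_congr rfl fun j hj => ?_
        rw [Function.update_of_ne (Finset.ne_of_mem_erase hj)]
      rw [h3]
      ring
    rw [h2]
    have h4 : α i * y k = k - c' := by
      rw [hy]
      field_simp
    have h5 : c + (∑ j, α j * v j + α i * (y k - v i)) = α i * y k + c' := by
      rw [hc']
      ring
    rw [h5, h4]
    ring
  have hroot : ∀ k : ℕ, y k ∉ Lam τ → wp 1 τ (y k) ∈ p.roots.toFinset := by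
    intro k hk
    rw [Multiset.mem_toFinset, Polynomial.mem_roots hp0, Polynomial.IsRoot, hp, eval_uni]
    have h2 := lc_zero hτ h hi (v := Function.update v i (y k)) (by
      intro j
      by_cases hj : j = i
      · subst hj
        rwa [Function.update_self]
      · rw [Function.update_of_ne hj]
        exact hv1 j) (by
      rw [hval]
      exact mem_Lam.2 ⟨k, 0, by simp⟩)
    have h3 : (fun j => wp 1 τ (Function.update v i (y k) j)) =
        Function.update (fun j => wp 1 τ (v j)) i (wp 1 τ (y k)) := by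
      funext j
      by_cases hj : j = i
      · subst hj
        simp
      · simp [hj]
    rw [← h3]
    exact h2
  have hex : ∃ a ∈ Finset.range (2 * B + 2), ∃ b ∈ Finset.range (2 * B + 2), a ≠ b ∧
      y a - y b ∈ Lam τ := by
    by_contra hcon
    push Not at hcon
    set K1 := (Finset.range (2 * B + 2)).filter (fun k => y k ∈ Lam τ) with hK1
    set K2 := (Finset.range (2 * B + 2)).filter (fun k => ¬ y k ∈ Lam τ) with hK2
    have hK : K1.card + K2.card = 2 * B + 2 := by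
      rw [hK1, hK2, Finset.card_filter_add_card_filter_not, Finset.card_range]
    have hK1c : K1.card ≤ 1 := by
      rw [Finset.card_le_one]
      intro a ha b hb
      by_contra hab
      rw [hK1, Finset.mem_filter] at ha hb
      exact hcon a ha.1 b hb.1 hab ((LG τ).sub_mem ha.2 hb.2)
    obtain ⟨z, hz, z', hz', hne, hl⟩ := two_fibre hτ p.roots.toFinset (K2.image y) (by
      rw [Finset.card_image_of_injective _ hyinj]
      omega) (by
      intro z hz
      rw [Finset.mem_image] at hz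
      obtain ⟨k, hk, rfl⟩ := hz
      rw [hK2, Finset.mem_filter] at hk
      exact ⟨hk.2, hroot k hk.2⟩)
    rw [Finset.mem_image] at hz hz'
    obtain ⟨a, ha, rfl⟩ := hz
    obtain ⟨b, hb, rfl⟩ := hz'
    rw [hK2, Finset.mem_filter] at ha hb
    exact hcon a ha.1 b hb.1 (fun h => hne (by rw [h])) hl
  obtain ⟨a, ha, b, hb, hab, hl⟩ := hex
  rw [Finset.mem_range] at ha hb
  have h2 : y a - y b = ((a : ℂ) - b) / α i := by
    rw [hy]
    field_simp
    ring
  have h3 : ((a : ℂ) - b) ≠ 0 := sub_ne_zero.2 (by exact_mod_cast hab)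
  have h4 := hδl _ hl (by
    rw [h2]
    exact div_ne_zero h3 hi)
  rw [h2, norm_div, le_div_iff₀ (norm_pos_iff.2 hi)] at h4
  have h5 : ‖(a : ℂ) - b‖ ≤ 2 * B + 1 := by
    have h6 : ((a : ℂ) - b) = ((((a : ℤ) - b : ℤ)) : ℂ) := by push_cast; ring
    rw [h6, Complex.norm_intCast]
    have h7 : |((a : ℤ) - b)| ≤ 2 * B + 1 := by
      rw [abs_le]
      constructor <;> omega
    exact_mod_cast h7
  rw [le_div_iff₀ hδ]
  linarith

/-- congruence classes -/
theorem classes (hτ : 0 < τ.im) {F : MvPolynomial (Fin (m + 1)) ℂ} {B : ℕ} (hF : F ≠ 0)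
    (hB1 : 1 ≤ B) (hB : F.degreeOf 0 ≤ B) (α : Fin m → ℂ) {ι : Type} (D : Finset ι) (κ : ι → ℂ)
    (hD : D.Nonempty) (hH : ∀ d ∈ D, Hy τ F α (κ d)) :
    ∃ D' ⊆ D, D.card ≤ 2 * B * D'.card ∧ ∀ d ∈ D', ∀ d' ∈ D', κ d - κ d' ∈ Lam τ := by
  classical
  set f : ι → ℂ ⧸ LG τ := fun d => QuotientAddGroup.mk (κ d) with hf
  have hfe : ∀ d d', f d = f d' → κ d - κ d' ∈ Lam τ := by
    intro d d' h
    rw [hf] at h
    have h1 := QuotientAddGroup.eq.1 h
    have h2 := (LG τ).neg_mem h1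
    have h3 : -(-κ d + κ d') = κ d - κ d' := by ring
    rw [h3] at h2
    exact h2
  have hfe' : ∀ d d', κ d - κ d' ∈ Lam τ → f d = f d' := by
    intro d d' h
    apply QuotientAddGroup.eq.2
    have h2 := (LG τ).neg_mem h
    have h3 : -(κ d - κ d') = -κ d + κ d' := by ring
    rw [h3] at h2
    exact h2
  -- at most `2B` classes
  have himg : (D.image f).card ≤ 2 * B := by
    by_contra hcon
    push Not at hcon
    have hch : ∀ q : ℂ ⧸ LG τ, ∃ c : ℂ, q ∈ D.image f → (Hy τ F α c ∧ (c : ℂ ⧸ LG τ) = q) := by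
      intro q
      by_cases hq : q ∈ D.image f
      · obtain ⟨d, hd, hdq⟩ := Finset.mem_image.1 hq
        exact ⟨κ d, fun _ => ⟨hH d hd, hdq⟩⟩
      · exact ⟨0, fun h => absurd h hq⟩
    choose g hg using hch
    have hginj : Set.InjOn g (D.image f : Finset (ℂ ⧸ LG τ)) := by
      intro q hq q' hq' h
      rw [← (hg q hq).2, ← (hg q' hq').2, h]
    obtain ⟨z, hz, z', hz', hne, hl⟩ := cnt hτ hF hB α ((D.image f).image g) (by
      intro c hc
      obtain ⟨q, hq, rfl⟩ := Finset.mem_image.1 hc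
      exact (hg q hq).1) (by
      rw [Finset.card_image_of_injOn hginj]
      exact hcon)
    obtain ⟨q, hq, rfl⟩ := Finset.mem_image.1 hz
    obtain ⟨q', hq', rfl⟩ := Finset.mem_image.1 hz'
    apply hne
    have h1 : (g q : ℂ ⧸ LG τ) = g q' := by
      apply QuotientAddGroup.eq.2
      have h2 := (LG τ).neg_mem hl
      have h3 : -(g q - g q') = -g q + g q' := by ring
      rw [h3] at h2
      exact h2
    rw [(hg q hq).2, (hg q' hq').2] at h1
    rw [h1]
  by_contra hcon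
  push Not at hcon
  have hDc : 0 < D.card := hD.card_pos
  have h1 : D.card ≤ (D.card - 1) / (2 * B) * (D.image f).card := by
    refine Finset.card_le_mul_card_image D _ fun q hq => ?_
    rw [Nat.le_div_iff_mul_le (by omega)]
    by_contra h2
    push Not at h2
    have h3 : D.card ≤ 2 * B * (D.filter (fun x => f x = q)).card := by
      rw [mul_comm]
      omega
    obtain ⟨d, hd, d', hd', h4⟩ := hcon _ (Finset.filter_subset _ _) h3
    rw [Finset.mem_filter] at hd hd'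
    exact h4 (hfe d d' (hd.2.trans hd'.2.symm))
  have h2 : (D.card - 1) / (2 * B) * (D.image f).card ≤ (D.card - 1) / (2 * B) * (2 * B) :=
    Nat.mul_le_mul_left _ himg
  have h3 : (D.card - 1) / (2 * B) * (2 * B) ≤ D.card - 1 := Nat.div_mul_le_self _ _
  omega

end XFin

theorem Fin_pf : S_Fin := by
  classical
  intro τ hτ
  obtain ⟨δ, hδ, hδl⟩ := XFin.exists_delta hτ
  refine ⟨⌈3 / δ⌉₊ + 1, by omega, ?_⟩
  intro m B F α ι D κ hB1 hF hB hD h1 h2
  have hH : ∀ d ∈ D, XFin.Hy τ F α (κ d) := fun d hd => ⟨h1 d hd, h2 d hd⟩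
  obtain ⟨d₀, hd₀⟩ := hD
  choose N hN1 hN2 hN3 using fun i => (hH d₀ hd₀).int hτ hF hB1 (hB 0) i
  refine ⟨∏ i, N i, ?_, ?_, ?_, ?_, ?_⟩
  · exact Finset.prod_ne_zero_iff.2 fun i _ => by have := hN1 i; omega
  · calc ∏ i, N i ≤ ∏ _i : Fin m, (4 * B * B) := Finset.prod_le_prod' fun i _ => hN2 i
      _ = (4 * B * B) ^ m := by simp
  · intro i
    have h3 : (((∏ j, N j : ℕ)) : ℂ) * α i =
        ((∏ j ∈ Finset.univ.erase i, N j : ℕ) : ℂ) * ((N i : ℂ) * α i) := by
      rw [← Finset.mul_prod_erase Finset.univ N (Finset.mem_univ i)]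
      push_cast
      ring
    constructor
    · rw [h3, ← nsmul_eq_mul]
      exact (XFin.LG τ).nsmul_mem (hN3 i).1 _
    · rw [h3, mul_assoc, ← nsmul_eq_mul]
      exact (XFin.LG τ).nsmul_mem (hN3 i).2 _
  · intro i
    refine (XFin.size hτ hδ hδl hF hB (hH d₀ hd₀) i).trans ?_
    have h3 : (2 * (B : ℝ) + 1) / δ ≤ 3 / δ * B := by
      rw [div_mul_eq_mul_div]
      apply div_le_div_of_nonneg_right _ hδ.le
      have : (1 : ℝ) ≤ B := by exact_mod_cast hB1
      linarith
    refine h3.trans ?_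
    push_cast
    apply mul_le_mul_of_nonneg_right _ (Nat.cast_nonneg B)
    exact (Nat.le_ceil _).trans (by linarith)
  · exact XFin.classes hτ hF hB1 (hB 0) α D κ ⟨d₀, hd₀⟩ hH

end Pool.Agent.Work.MP_8da9ea_nt.EB
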