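import Pool.Agent.Work.MP_8da9ea_nt.EB.StmtsG
import Pool.Agent.Work.MP_8da9ea_nt.EB.StmtsT
import Pool.Agent.Work.MP_8da9ea_nt.S.Stmts

/-!
# Item GCoreE0: the rank at a generic point
-/

set_option autoImplicit false

namespace Pool.Agent.Work.MP_8da9ea_nt.EB

open MvPolynomial Pool.Agent.Work.MP_327059_nt.GL Pool.Agent.Work.MP_8da9ea_nt.S

namespace I_GCoreE0

/-- Algebraic independence over a subfield. -/
theorem mono {n : Type} {K L : IntermediateField ℚ ℂ} (h : K ≤ L) (v : n → ℂ)
    (hv : AlgebraicIndependent L v) : AlgebraicIndependent K v := by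
  let _ : Algebra K L := (IntermediateField.inclusion h).toRingHom.toAlgebra
  have _ : IsScalarTower K L ℂ := IsScalarTower.of_algebraMap_eq fun x => rfl
  exact hv.restrictScalars (IntermediateField.inclusion h).toRingHom.injective

theorem cmb_single {n : ℕ} (i : Fin n) (k : ℤ) (x : Fin n → ℂ) :
    cmb (Pi.single i k) x = (k : ℂ) * x i := by
  classical
  unfold cmb
  rw [Finset.sum_eq_single i]
  · rw [Pi.single_eq_same]
  · intro j _ hj
    rw [Pi.single_eq_of_ne hj]
    simp
  · intro h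
    exact absurd (Finset.mem_univ _) h

/-- rational numbers are endomorphisms up to denominators -/
theorem isE_rat (τ : ℂ) (q : ℚ) : IsE τ (q : ℂ) := by
  have h : ((q.den : ℤ) : ℂ) * (q : ℂ) = ((q.num : ℤ) : ℂ) := by
    have := Rat.den_mul_eq_num q
    exact_mod_cast this
  refine ⟨(q.den : ℤ), by exact_mod_cast q.den_nz, ?_, ?_⟩
  · rw [h, mem_Lam]
    exact ⟨q.num, 0, by simp⟩
  · rw [h, mem_Lam]
    exact ⟨0, q.num, by simp⟩

/-- independence over `k` of combinations with coefficients in `k` -/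
theorem kli {τ : ℂ} (hk : ∀ g : ℂ, g ∈ kf τ ↔ IsE τ g) {n n' : ℕ} (l : Fin n → ℂ) (hl : KLI τ l)
    (w : Fin n' → Fin n → kf τ) (hw : LinearIndependent (kf τ) w) :
    KLI τ (fun s => ∑ i, (w s i : ℂ) * l i) := by
  classical
  intro g hg h
  have hg' : ∀ s, g s ∈ kf τ := fun s => (hk _).2 (hg s)
  set γ : Fin n' → kf τ := fun s => ⟨g s, hg' s⟩ with hγ
  have h1 : ∑ i, ((∑ s, γ s * w s i : kf τ) : ℂ) * l i = 0 := by
    rw [← h]
    simp only [Finset.mul_sum]
    rw [Finset.sum_comm]
    refine Finset.sum_congr rfl fun i _ => ?_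
    rw [IntermediateField.coe_sum, Finset.sum_mul]
    refine Finset.sum_congr rfl fun s _ => ?_
    rw [IntermediateField.coe_mul]
    ring
  have h2 := hl (fun i => ((∑ s, γ s * w s i : kf τ) : ℂ)) (fun i => (hk _).1 (Subtype.mem _)) h1
  have h3 := Fintype.linearIndependent_iff.1 hw γ (by
    funext i
    rw [Finset.sum_apply]
    simp only [Pi.smul_apply, smul_eq_mul, Pi.zero_apply]
    have := congrFun h2 i
    exact Subtype.ext this)
  funext s
  have := congrArg (fun z : kf τ => (z : ℂ)) (h3 s)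
  exact this

theorem lin_of_kli {τ : ℂ} {n : ℕ} (x : Fin n → ℂ) (h : KLI τ x) : LinearIndependent ℚ x := by
  rw [Fintype.linearIndependent_iff]
  intro g hg i
  have h1 := h (fun i => (g i : ℂ)) (fun i => isE_rat τ (g i)) (by
    rw [← hg]
    refine Finset.sum_congr rfl fun i _ => ?_
    rw [Algebra.smul_def, eq_ratCast])
  have := congrFun h1 i
  simpa using this

/-- finite type for combinations with algebraic coefficients -/
theorem ft (h5 : S_FText) (h6 : S_FTpol) {Q m k : ℕ} (b : Fin m → ℂ) (hb : FT Q b)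
    (c : Fin k → Fin m → ℂ) (hc : ∀ t j, IsAlgebraic ℚ (c t j)) :
    FT (Q + 2) (fun t => ∑ j, c t j * b j) := by
  classical
  set a : Fin (k * m) → ℂ := fun r => c (finProdFinEquiv.symm r).1 (finProdFinEquiv.symm r).2
    with ha
  have h1 := h5 Q m (k * m) b a hb (fun i => hc _ _)
  have h2 := h6 (Q + 1) (m + k * m) k (Fin.append b a)
    (fun t => ∑ j, X (Fin.natAdd m (finProdFinEquiv (t, j))) * X (Fin.castAdd (k * m) j)) h1
  have h3 : (fun t => aeval (Fin.append b a) (∑ j : Fin m,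
      (X (Fin.natAdd m (finProdFinEquiv (t, j))) * X (Fin.castAdd (k * m) j) :
        MvPolynomial (Fin (m + k * m)) ℚ))) = fun t => ∑ j, c t j * b j := by
    funext t
    rw [map_sum]
    refine Finset.sum_congr rfl fun j _ => ?_
    rw [map_mul, aeval_X, aeval_X, Fin.append_right, Fin.append_left, ha]
    simp
  rw [h3] at h2
  exact h2

end I_GCoreE0

open I_GCoreE0 in
/-- G10: the rank at a generic point -/
theorem GCoreE0_pf (h1 : S_TIE) (h2 : S_RedNT) (h3 : S_AxOutE) (h4 : S_LinAlgK) (h5 : S_FText)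
    (h6 : S_FTpol) (h7 : S_Kf) (h9 : S_DenseK) (h10 : S_CntB) : S_GCoreE0 := by
  classical
  intro Q m
  have hM : ∀ k : ℕ, ∃ n₀ : ℕ, 2 ≤ k → ∀ (τ μ : ℂ) (b : Fin k → ℂ), Nrm τ μ → FT (Q + 2) b →
      KLI τ b → ∀ n : ℕ, n₀ ≤ n → ∀ x : Fin n → ℂ, LinearIndependent ℚ x → NT τ b x →
        ¬ TrLe (k - 2) (tx τ μ b x) := by
    intro k
    by_cases hk : 2 ≤ k
    · obtain ⟨n₀, h⟩ := h1 (Q + 2) k hk
      exact ⟨n₀, fun _ => h⟩
    · exact ⟨0, fun h => absurd h hk⟩
  choose M hM using hM
  refine ⟨m * m + 2 * m + (Finset.range (m + 1)).sup M, ?_⟩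
  intro τ μ b hN hb hbK n hn x hx hNT κ hκ
  obtain ⟨hk1, hk2, hk3, hk4⟩ := h7 τ hN.im
  have hkalg : ∀ z ∈ kf τ, IsAlgebraic ℚ z := fun z hz => hk1 z ((hk2 z).1 hz)
  set u : Fin n → Fin m → ℂ := fun i j => b j * x i with hu
  have hu0 : ∀ i j, ∀ k : ℕ, k ≠ 0 → (k : ℂ) * u i j ∉ Lam τ := by
    intro i j k hk
    have := hNT (Pi.single i (k : ℤ)) (by
      intro h
      have := congrFun h i
      rw [Pi.single_eq_same, Pi.zero_apply] at this
      exact hk (by exact_mod_cast this)) j
    rw [cmb_single] at this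
    intro h
    refine this ?_
    have e : b j * (((k : ℤ) : ℂ) * x i) = (k : ℂ) * u i j := by
      rw [hu]
      push_cast
      ring
    rw [e]
    exact h
  -- the generic point
  set S1 : Set ℂ := {z | ∃ ξ : Fin n → Fin m → kf τ, z = xe τ μ (∑ i, ∑ j, (ξ i j : ℂ) * u i j)}
    with hS1
  have hkc : Countable (kf τ) := by
    have h := (Algebraic.countable ℚ ℂ).mono (s₁ := (kf τ : Set ℂ)) fun z hz => hkalg z hz
    exact h.to_subtype
  have hS1c : S1.Countable := by
    have : S1 = Set.range fun ξ : Fin n → Fin m → kf τ =>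
        xe τ μ (∑ i, ∑ j, (ξ i j : ℂ) * u i j) := by
      ext z
      constructor
      · rintro ⟨ξ, rfl⟩
        exact ⟨ξ, rfl⟩
      · rintro ⟨ξ, rfl⟩
        exact ⟨ξ, rfl⟩
    rw [this]
    exact Set.countable_range _
  obtain ⟨v, hv, -⟩ := h9 (Fin n) S1 hS1c (fun _ => 0) 1 one_pos
  refine ⟨v, ?_⟩
  by_contra hne
  have hlt : 1 + κ + rkE τ μ u v b < m := not_le.1 hne
  obtain ⟨G, hG⟩ := h3 τ μ hN n m u v b hu0
  have huG : ugK G v ≤ rkE τ μ u v b := by
    have := hG 0 Fin.elim0 (fun t => t.elim0) (by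
      rw [algebraicIndependent_empty_type_iff]
      exact (algebraMap (IntermediateField.adjoin ℚ (Set.range v ∪ Set.range b)) ℂ).injective)
    omega
  have hvQ : AlgebraicIndependent ℚ v :=
    hv.restrictScalars (K := IntermediateField.adjoin ℚ S1) (algebraMap ℚ _).injective
  obtain ⟨Cs, Vs, hCs, hVs, hCV⟩ := h4 (kf τ) hkalg n m G v hvQ
  obtain ⟨k, hk⟩ : ∃ k, m = ugK G v + k := ⟨m - ugK G v, by omega⟩
  have hk2' : 2 ≤ k := by omega
  have hkC : k ≤ Module.finrank (kf τ) Cs := by omega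
  obtain ⟨c, hc⟩ := exists_linearIndependent_of_le_finrank hkC
  have hc' : LinearIndependent (kf τ) (fun t => (c t : Fin m → kf τ)) :=
    hc.map' Cs.subtype (Submodule.ker_subtype _)
  obtain ⟨w, hw⟩ := exists_linearIndependent_of_le_finrank (le_refl (Module.finrank (kf τ) Vs))
  have hw' : LinearIndependent (kf τ) (fun t => (w t : Fin n → kf τ)) :=
    hw.map' Vs.subtype (Submodule.ker_subtype _)
  set b' : Fin k → ℂ := fun t => ∑ j, ((c t : Fin m → kf τ) j : ℂ) * b j with hb'
  set x' : Fin (Module.finrank (kf τ) Vs) → ℂ :=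
    fun s => ∑ i, ((w s : Fin n → kf τ) i : ℂ) * x i with hx'
  have hb'K : KLI τ b' := kli hk2 b hbK _ hc'
  have hx'K : KLI τ x' := kli hk2 x hx _ hw'
  have hb'FT : FT (Q + 2) b' := ft h5 h6 b hb _ fun t j => hkalg _ (Subtype.mem _)
  have hb'0 : ∀ j, b' j ≠ 0 := by
    intro j hj
    have := hb'K (Pi.single j 1) (by
      intro i
      rcases eq_or_ne i j with rfl | hij
      · rw [Pi.single_eq_same]
        have := isE_rat τ 1
        simpa using this
      · rw [Pi.single_eq_of_ne hij]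
        have := isE_rat τ 0
        simpa using this) (by
      rw [Finset.sum_eq_single j]
      · rw [hj, mul_zero]
      · intro i _ hij
        rw [Pi.single_eq_of_ne hij, zero_mul]
      · intro h
        exact absurd (Finset.mem_univ _) h)
    have := congrFun this j
    rw [Pi.single_eq_same, Pi.zero_apply] at this
    exact one_ne_zero this
  obtain ⟨n', g, hn', hlin, hNT'⟩ := h2 τ k _ b' x' hN.im hb'0 (lin_of_kli x' hx'K)
  have hMn : M k ≤ n' := by
    have h6 : M k ≤ (Finset.range (m + 1)).sup M :=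
      Finset.le_sup (Finset.mem_range.2 (by omega))
    omega
  have hTr := hM k hk2' τ μ b' hN hb'FT hb'K n' hMn _ hlin hNT'
  unfold TrLe at hTr
  push Not at hTr
  obtain ⟨s, hs⟩ := hTr
  set f : Fin (k - 2 + 1) → ℂ := fun i => tx τ μ b' (fun i => cmb (g i) x') (s i) with hf
  -- the values are of the right form
  have hval : ∀ i, ∃ ξ ∈ G, ∑ i, ∑ j, (ξ i j : ℂ) * u i j ∉ Lam τ ∧
      f i = xe τ μ (∑ i, ∑ j, (ξ i j : ℂ) * u i j) := by
    intro i
    have hW : ∀ p, ∃ W ∈ Vs, cmb (g p) x' = ∑ i, (W i : ℂ) * x i := by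
      intro p
      refine ⟨∑ s, (g p s : kf τ) • (w s : Fin n → kf τ),
        Submodule.sum_mem _ fun s _ => Submodule.smul_mem _ _ (w s).2, ?_⟩
      unfold cmb
      rw [hx']
      simp only [Finset.mul_sum]
      rw [Finset.sum_comm]
      refine Finset.sum_congr rfl fun i _ => ?_
      rw [Finset.sum_apply, IntermediateField.coe_sum, Finset.sum_mul]
      refine Finset.sum_congr rfl fun s _ => ?_
      rw [Pi.smul_apply, smul_eq_mul, IntermediateField.coe_mul]
      push_cast
      ring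
    obtain ⟨W, hWV, hW⟩ := hW (s i).1
    have e : ∑ i', ∑ j, ((W i' * (c (s i).2 : Fin m → kf τ) j : kf τ) : ℂ) * u i' j =
        b' (s i).2 * cmb (g (s i).1) x' := by
      rw [hW, hb']
      simp only
      rw [Finset.sum_mul_sum, Finset.sum_comm]
      refine Finset.sum_congr rfl fun j _ => Finset.sum_congr rfl fun i' _ => ?_
      rw [IntermediateField.coe_mul, hu]
      ring
    refine ⟨fun i' j => W i' * (c (s i).2 : Fin m → kf τ) j, hCV _ (c (s i).2).2 W hWV, ?_, ?_⟩
    · rw [e]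
      have := hNT' (Pi.single (s i).1 1) (by
        intro h
        have := congrFun h (s i).1
        rw [Pi.single_eq_same, Pi.zero_apply] at this
        exact one_ne_zero this) (s i).2
      rw [cmb_single] at this
      simpa using this
    · rw [e]
      rfl
  have hfS : Set.range f ⊆ Set.range (algebraMap (IntermediateField.adjoin ℚ S1) ℂ) := by
    rintro _ ⟨i, rfl⟩
    obtain ⟨ξ, -, -, h⟩ := hval i
    exact ⟨⟨f i, IntermediateField.subset_adjoin ℚ _ ⟨ξ, h⟩⟩, rfl⟩
  have hvf : AlgebraicIndependent ℚ (Sum.elim v f) := hs.sumElim_of_tower hfS hv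
  have hfv : AlgebraicIndependent ℚ (Sum.elim f v) := by
    have := hvf.comp (Equiv.sumComm (Fin (k - 2 + 1)) (Fin n))
      (Equiv.sumComm (Fin (k - 2 + 1)) (Fin n)).injective
    convert this using 1
    funext q
    cases q <;> rfl
  have hfV : AlgebraicIndependent (IntermediateField.adjoin ℚ (Set.range v)) f :=
    IntermediateField.algebraicIndependent_adjoin_iff.2 (AlgebraicIndependent.sumElim_iff.1 hfv).2
  have hVb : IntermediateField.adjoin ℚ (Set.range v ∪ Set.range b) ≤
      IntermediateField.adjoin ℚ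
        (((IntermediateField.adjoin ℚ (Set.range v) : IntermediateField ℚ ℂ) : Set ℂ) ∪
          Set.range b) := by
    apply IntermediateField.adjoin.mono
    apply Set.union_subset_union_left
    exact IntermediateField.subset_adjoin ℚ _
  have hfin := h10 m κ (rkE τ μ u v b - ugK G v) (IntermediateField.adjoin ℚ (Set.range v)) b
    {z | ∃ ξ ∈ G, ∑ i, ∑ j, (ξ i j : ℂ) * u i j ∉ Lam τ ∧
      z = xe τ μ (∑ i, ∑ j, (ξ i j : ℂ) * u i j)} hκ (by
      intro k f hf hfi
      have := hG k f hf (mono hVb f hfi)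
      omega) (k - 2 + 1) f (fun t => Or.inl (hval t)) hfV
  omega

end Pool.Agent.Work.MP_8da9ea_nt.EB
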