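import Pool.Agent.Work.MP_8da9ea_nt.EB.StmtsT

/-!
# Elliptic block, item Glob: continuation of the identity along complex lines
-/

set_option autoImplicit false

namespace Pool.Agent.Work.MP_8da9ea_nt.EB

open MvPolynomial Metric Filter Topology Pool.Agent.Work.MP_327059_nt.GL
  Pool.Agent.Work.MP_8da9ea_nt.S

namespace I_Glob

/-- The bad parameters of an affine function form a closed countable set. -/
theorem bad {τ : ℂ} (hτ : 0 < τ.im) (p q : ℂ) (hp : p ∉ Lam τ) :
    IsClosed {s : ℂ | p + s * q ∈ Lam τ} ∧ {s : ℂ | p + s * q ∈ Lam τ}.Countable := by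
  constructor
  · have hc : Continuous (fun s : ℂ => p + s * q) := by fun_prop
    exact (Lam_closed hτ).preimage hc
  · by_cases hq : q = 0
    · have h0 : {s : ℂ | p + s * q ∈ Lam τ} = ∅ := by
        ext s
        constructor
        · intro hs
          have h1 : p + s * q ∈ Lam τ := hs
          rw [hq, mul_zero, add_zero] at h1
          exact absurd h1 hp
        · intro hs
          exact absurd hs (Set.notMem_empty s)
      rw [h0]
      exact Set.countable_empty
    · have hinj : Function.Injective (fun s : ℂ => p + s * q) := by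
        intro a b hab
        exact mul_right_cancel₀ hq (add_left_cancel hab)
      exact (Lam_countable τ).preimage hinj

end I_Glob

theorem Glob_pf : S_Glob := by
  intro τ hτ m F c α v₀ r hr hball v hv hcv
  -- the line
  obtain ⟨g, hg⟩ : ∃ g : Fin m → ℂ → ℂ, g = fun i s => v₀ i + s * (v i - v₀ i) := ⟨_, rfl⟩
  obtain ⟨p, hp⟩ : ∃ p : ℂ, p = c + ∑ i, α i * v₀ i := ⟨_, rfl⟩
  obtain ⟨q, hq⟩ : ∃ q : ℂ, q = ∑ i, α i * (v i - v₀ i) := ⟨_, rfl⟩
  have hl : ∀ s : ℂ, c + ∑ i, α i * g i s = p + s * q := by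
    intro s
    rw [hp, hq, hg, Finset.mul_sum, add_assoc, ← Finset.sum_add_distrib]
    congr 1
    exact Finset.sum_congr rfl fun i _ => by ring
  have hv₀ := hball v₀ (mem_ball_self hr)
  have hp0 : p ∉ Lam τ := by rw [hp]; exact hv₀.2.1
  -- the good parameters
  obtain ⟨B, hB⟩ : ∃ B : Set ℂ, B = (⋃ i, {s : ℂ | v₀ i + s * (v i - v₀ i) ∈ Lam τ}) ∪
      {s : ℂ | p + s * q ∈ Lam τ} := ⟨_, rfl⟩
  have hBclosed : IsClosed B := by
    rw [hB]
    exact (isClosed_iUnion_of_finite fun i =>
      (I_Glob.bad hτ (v₀ i) (v i - v₀ i) (hv₀.1 i)).1).union (I_Glob.bad hτ p q hp0).1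
  have hBcount : B.Countable := by
    rw [hB]
    exact (Set.countable_iUnion fun i =>
      (I_Glob.bad hτ (v₀ i) (v i - v₀ i) (hv₀.1 i)).2).union (I_Glob.bad hτ p q hp0).2
  have hconn : IsPreconnected Bᶜ :=
    (Set.Countable.isConnected_compl_of_one_lt_rank (by simp) hBcount).2
  have hgood : ∀ s ∈ Bᶜ, (∀ i, g i s ∉ Lam τ) ∧ p + s * q ∉ Lam τ := by
    intro s hs
    constructor
    · intro i hi
      apply hs
      rw [hB]
      left
      rw [Set.mem_iUnion]
      refine ⟨i, ?_⟩
      rw [hg] at hi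
      exact hi
    · intro hi
      apply hs
      rw [hB]
      right
      exact hi
  -- the function
  obtain ⟨Φ, hΦ⟩ : ∃ Φ : ℂ → ℂ, Φ = fun s => eval (pw τ (fun i => g i s) (p + s * q)) F :=
    ⟨_, rfl⟩
  have han : AnalyticOnNhd ℂ Φ Bᶜ := by
    intro s hs
    have hs' := hgood s hs
    have hcoord : ∀ j : Fin (m + 1), AnalyticAt ℂ (fun x => pw τ (fun i => g i x) (p + x * q) j) s := by
      intro j
      refine Fin.cases ?_ (fun i => ?_) j
      · have h1 : AnalyticAt ℂ (fun x : ℂ => p + x * q) s :=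
          analyticAt_const.add (analyticAt_id.mul analyticAt_const)
        have h2 : AnalyticAt ℂ (fun z => wp 1 τ z) (p + s * q) := analyticOn_wp hτ _ hs'.2
        have h5 := AnalyticAt.fun_comp (g := fun z => wp 1 τ z)
          (f := fun x : ℂ => p + x * q) h2 h1
        exact h5
      · have h1 : AnalyticAt ℂ (fun x : ℂ => v₀ i + x * (v i - v₀ i)) s :=
          analyticAt_const.add (analyticAt_id.mul analyticAt_const)
        have h3 : v₀ i + s * (v i - v₀ i) ∈ (Lam τ)ᶜ := by
          have h4 := hs'.1 i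
          rw [hg] at h4
          exact h4
        have h2 : AnalyticAt ℂ (fun z => wp 1 τ z) (v₀ i + s * (v i - v₀ i)) :=
          analyticOn_wp hτ _ h3
        have h5 := AnalyticAt.fun_comp (g := fun z => wp 1 τ z)
          (f := fun x : ℂ => v₀ i + x * (v i - v₀ i)) h2 h1
        rw [hg]
        exact h5
    rw [hΦ]
    exact AnalyticAt.aeval_mvPolynomial hcoord F
  -- the function vanishes near `0`
  have h0B : (0 : ℂ) ∈ Bᶜ := by
    intro h
    rw [hB] at h
    rcases h with h | h
    · rw [Set.mem_iUnion] at h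
      obtain ⟨i, hi⟩ := h
      have h1 : v₀ i + 0 * (v i - v₀ i) ∈ Lam τ := hi
      rw [zero_mul, add_zero] at h1
      exact hv₀.1 i h1
    · have h1 : p + 0 * q ∈ Lam τ := h
      rw [zero_mul, add_zero] at h1
      exact hp0 h1
  have h1B : (1 : ℂ) ∈ Bᶜ := by
    intro h
    rw [hB] at h
    rcases h with h | h
    · rw [Set.mem_iUnion] at h
      obtain ⟨i, hi⟩ := h
      have h1 : v₀ i + 1 * (v i - v₀ i) ∈ Lam τ := hi
      rw [one_mul, add_sub_cancel] at h1
      exact hv i h1
    · have h1 : p + 1 * q ∈ Lam τ := h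
      rw [← hl 1, hg] at h1
      simp only [one_mul, add_sub_cancel] at h1
      exact hcv h1
  have hev : Φ =ᶠ[𝓝 0] 0 := by
    have hcont : Continuous (fun s : ℂ => (fun i => g i s : Fin m → ℂ)) := by
      rw [hg]
      fun_prop
    have h0 : (fun i => g i 0 : Fin m → ℂ) = v₀ := by
      rw [hg]
      funext i
      show v₀ i + 0 * (v i - v₀ i) = v₀ i
      ring
    have hmem : ∀ᶠ s : ℂ in 𝓝 0, (fun i => g i s : Fin m → ℂ) ∈ ball v₀ r := by
      apply hcont.continuousAt.eventually_mem
      rw [h0]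
      exact ball_mem_nhds v₀ hr
    filter_upwards [hmem] with s hs
    have h1 := (hball _ hs).2.2
    rw [hl s] at h1
    rw [hΦ]
    exact h1
  have hz : Φ 1 = 0 := han.eqOn_zero_of_preconnected_of_eventuallyEq_zero hconn h0B hev h1B
  have hg1 : (fun i => g i 1 : Fin m → ℂ) = v := by
    rw [hg]
    funext i
    show v₀ i + 1 * (v i - v₀ i) = v i
    ring
  have hl1 : c + ∑ i, α i * v i = p + 1 * q := by
    rw [← hl 1]
    congr 1
    exact Finset.sum_congr rfl fun i _ => by rw [← congrFun hg1 i]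
  have hfin : Φ 1 = eval (pw τ v (c + ∑ i, α i * v i)) F := by
    rw [hΦ, hl1]
    show eval (pw τ (fun i => g i 1) (p + 1 * q)) F = _
    rw [hg1]
  rw [← hfin]
  exact hz

end Pool.Agent.Work.MP_8da9ea_nt.EB
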