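import Pool.Agent.Work.MP_8da9ea_nt.EB.StmtsG

/-!
# [Kf] the field of endomorphisms
-/

set_option autoImplicit false

namespace Pool.Agent.Work.MP_8da9ea_nt.EB

open MvPolynomial Pool.Agent.Work.MP_327059_nt.GL Pool.Agent.Work.MP_8da9ea_nt.S

namespace I_Kf

/-- The rational span of the lattice. -/
noncomputable def V (τ : ℂ) : Submodule ℚ ℂ := Submodule.span ℚ {1, τ}

theorem mem_V {τ z : ℂ} : z ∈ V τ ↔ ∃ p q : ℚ, z = (p : ℂ) + (q : ℂ) * τ := by
  unfold V
  rw [Submodule.mem_span_pair]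
  constructor
  · rintro ⟨a, b, h⟩
    refine ⟨a, b, ?_⟩
    rw [← h, Rat.smul_def, Rat.smul_def]
    ring
  · rintro ⟨a, b, h⟩
    refine ⟨a, b, ?_⟩
    rw [h, Rat.smul_def, Rat.smul_def]
    ring

theorem mem_V_iff {τ z : ℂ} : z ∈ V τ ↔ ∃ N : ℤ, N ≠ 0 ∧ (N : ℂ) * z ∈ Lam τ := by
  rw [mem_V]
  constructor
  · rintro ⟨p, q, h⟩
    refine ⟨(p.den : ℤ) * (q.den : ℤ), mul_ne_zero (by exact_mod_cast p.den_nz)
      (by exact_mod_cast q.den_nz), ?_⟩
    rw [mem_Lam]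
    refine ⟨(q.den : ℤ) * p.num, (p.den : ℤ) * q.num, ?_⟩
    have hp : (p : ℂ) * (p.den : ℂ) = (p.num : ℂ) := by
      have := Rat.mul_den_eq_num p
      exact_mod_cast this
    have hq : (q : ℂ) * (q.den : ℂ) = (q.num : ℂ) := by
      have := Rat.mul_den_eq_num q
      exact_mod_cast this
    push_cast
    rw [h, ← hp, ← hq]
    ring
  · rintro ⟨N, hN, h⟩
    rw [mem_Lam] at h
    obtain ⟨m, n, h⟩ := h
    refine ⟨(m : ℚ) / N, (n : ℚ) / N, ?_⟩
    have hN' : (N : ℂ) ≠ 0 := by exact_mod_cast hN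
    push_cast
    have h1 : z = ((m : ℂ) + n * τ) / N := by
      rw [eq_div_iff hN', mul_comm]
      exact h
    rw [h1]
    field_simp

theorem Lam_int_mul {τ z : ℂ} (k : ℤ) (h : z ∈ Lam τ) : (k : ℂ) * z ∈ Lam τ := by
  rw [mem_Lam] at h ⊢
  obtain ⟨m, n, rfl⟩ := h
  refine ⟨k * m, k * n, ?_⟩
  push_cast
  ring

theorem isE_iff {τ g : ℂ} : IsE τ g ↔ g ∈ V τ ∧ g * τ ∈ V τ := by
  constructor
  · rintro ⟨N, hN, h1, h2⟩
    exact ⟨mem_V_iff.mpr ⟨N, hN, h1⟩, mem_V_iff.mpr ⟨N, hN, by rwa [← mul_assoc]⟩⟩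
  · rintro ⟨h1, h2⟩
    obtain ⟨N, hN, h1⟩ := mem_V_iff.mp h1
    obtain ⟨N', hN', h2⟩ := mem_V_iff.mp h2
    refine ⟨N' * N, mul_ne_zero hN' hN, ?_, ?_⟩
    · have := Lam_int_mul N' h1
      rw [← mul_assoc] at this
      exact_mod_cast this
    · have := Lam_int_mul N h2
      have h3 : ((N' * N : ℤ) : ℂ) * g * τ = (N : ℂ) * ((N' : ℂ) * (g * τ)) := by
        push_cast
        ring
      rw [h3]
      exact this

/-- The ring of the multipliers of the rational span. -/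
noncomputable def kA (τ : ℂ) : Subalgebra ℚ ℂ where
  carrier := {g | ∀ v ∈ V τ, g * v ∈ V τ}
  mul_mem' {a b} ha hb v hv := by
    rw [mul_assoc]
    exact ha _ (hb v hv)
  one_mem' v hv := by rwa [one_mul]
  add_mem' {a b} ha hb v hv := by
    rw [add_mul]
    exact Submodule.add_mem _ (ha v hv) (hb v hv)
  zero_mem' v hv := by
    rw [zero_mul]
    exact Submodule.zero_mem _
  algebraMap_mem' r v hv := by
    have h : (algebraMap ℚ ℂ r) * v = r • v := by rw [Algebra.smul_def]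
    rw [h]
    exact Submodule.smul_mem _ _ hv

theorem one_mem_V (τ : ℂ) : (1 : ℂ) ∈ V τ := Submodule.subset_span (by simp)

theorem tau_mem_V (τ : ℂ) : τ ∈ V τ := Submodule.subset_span (by simp)

theorem mem_kA {τ g : ℂ} : g ∈ kA τ ↔ IsE τ g := by
  rw [isE_iff]
  constructor
  · intro h
    refine ⟨?_, h τ (tau_mem_V τ)⟩
    have := h 1 (one_mem_V τ)
    rwa [mul_one] at this
  · rintro ⟨h1, h2⟩ v hv
    rw [mem_V] at hv
    obtain ⟨p, q, rfl⟩ := hv
    have h3 : g * ((p : ℂ) + q * τ) = p • g + q • (g * τ) := by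
      rw [Rat.smul_def, Rat.smul_def]
      ring
    rw [h3]
    exact Submodule.add_mem _ (Submodule.smul_mem _ _ h1) (Submodule.smul_mem _ _ h2)

theorem kA_le (τ : ℂ) : Subalgebra.toSubmodule (kA τ) ≤ V τ := by
  intro g hg
  have := hg 1 (one_mem_V τ)
  rwa [mul_one] at this

theorem finite_kA (τ : ℂ) : Module.Finite ℚ (kA τ) := by
  have h1 : Module.Finite ℚ (V τ) := by
    unfold V
    exact Module.Finite.span_of_finite ℚ (Set.toFinite _)
  have h2 : Module.Finite ℚ (Subalgebra.toSubmodule (kA τ)) :=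
    Submodule.finiteDimensional_of_le (kA_le τ)
  exact h2

theorem alg_of_mem {τ g : ℂ} (hg : g ∈ kA τ) : IsAlgebraic ℚ g := by
  have := finite_kA τ
  have h1 : IsAlgebraic ℚ (⟨g, hg⟩ : kA τ) :=
    (Algebra.IsAlgebraic.of_finite ℚ (kA τ)).isAlgebraic _
  exact (isAlgebraic_algHom_iff (kA τ).val Subtype.val_injective).mpr h1

/-- The field. -/
noncomputable def kI (τ : ℂ) : IntermediateField ℚ ℂ :=
  (kA τ).toIntermediateField (fun x hx => by
    have := (kA τ).inv_mem_of_algebraic (x := ⟨x, hx⟩) (alg_of_mem hx)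
    exact this)

theorem mem_kI {τ g : ℂ} : g ∈ kI τ ↔ IsE τ g := by
  rw [← mem_kA]
  exact Iff.rfl

end I_Kf

open I_Kf in
/-- **[Kf]** endomorphisms are algebraic and form the field `k`. -/
theorem Kf_pf : S_Kf := by
  intro τ _
  refine ⟨fun g hg => alg_of_mem (mem_kA.mpr hg), fun g => ?_, fun g hg => ?_, fun g u hg hu => ?_⟩
  · constructor
    · intro h
      have h1 : kf τ ≤ kI τ := by
        unfold kf
        rw [IntermediateField.adjoin_le_iff]
        intro x hx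
        exact mem_kI.mpr hx
      exact mem_kI.mp (h1 h)
    · intro h
      unfold kf
      exact IntermediateField.subset_adjoin ℚ _ h
  · obtain ⟨N, hN, h1, h2⟩ := hg
    refine ⟨N.natAbs, Int.natAbs_ne_zero.mpr hN, ?_⟩
    rcases Int.natAbs_eq N with h | h
    · have h3 : ((N.natAbs : ℕ) : ℂ) = (N : ℂ) := by
        conv_rhs => rw [h]
        simp
      exact ⟨by rwa [h3], by rwa [h3]⟩
    · have h3 : ((N.natAbs : ℕ) : ℂ) = ((-1 : ℤ) : ℂ) * (N : ℂ) := by
        conv_rhs => rw [h]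
        simp
      refine ⟨?_, ?_⟩
      · rw [h3, mul_assoc]
        exact Lam_int_mul _ h1
      · rw [h3, mul_assoc, mul_assoc, ← mul_assoc (N : ℂ)]
        exact Lam_int_mul _ h2
  · obtain ⟨h1, h2⟩ := hg
    rw [mem_Lam] at hu
    obtain ⟨m, n, rfl⟩ := hu
    have h3 := Lam_int_mul m h1
    have h4 := Lam_int_mul n h2
    rw [mem_Lam] at h3 h4 ⊢
    obtain ⟨a, b, h3⟩ := h3
    obtain ⟨c, d, h4⟩ := h4
    refine ⟨a + c, b + d, ?_⟩
    push_cast
    linear_combination h3 + h4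

end Pool.Agent.Work.MP_8da9ea_nt.EB
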