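import Pool.Agent.Work.MP_8da9ea_nt.EB.StmtsG
import Pool.Agent.Work.MP_8da9ea_nt.Bd.B01

/-!
# Elliptic block: the invariant differential is additive
-/

set_option autoImplicit false

namespace Pool.Agent.Work.MP_8da9ea_nt.EB

namespace I_LamAdd

lemma wpd_add_Lam {τ : ℂ} (hτ : 0 < τ.im) (z : ℂ) {l : ℂ} (hl : l ∈ Lam τ) :
    wpd τ (z + l) = wpd τ z := by
  obtain ⟨m, n, rfl⟩ := mem_Lam.1 hl
  have p1 : Function.Periodic (wpd τ) 1 := wpd_add_one hτ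
  have p2 : Function.Periodic (wpd τ) τ := wpd_add_tau hτ
  have := (p1.int_mul m).add_period (p2.int_mul n) z
  rw [mul_one] at this
  exact this

lemma wp_add_Lam {τ : ℂ} (hτ : 0 < τ.im) (z : ℂ) {l : ℂ} (hl : l ∈ Lam τ) :
    wp 1 τ (z + l) = wp 1 τ z := by
  obtain ⟨m, n, rfl⟩ := mem_Lam.1 hl
  exact wp_add_lp hτ z m n

lemma add_mem_iff {τ z l : ℂ} (hl : l ∈ Lam τ) : z + l ∈ Lam τ ↔ z ∈ Lam τ := by
  obtain ⟨m, n, rfl⟩ := mem_Lam.1 hl
  exact add_mem_Lam_iff m n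

lemma der_alg (δ : Derivation ℚ ℂ ℂ) {x : ℂ} (hx : IsAlgebraic ℚ x) : δ x = 0 := by
  have hi : IsIntegral ℚ x := hx.isIntegral
  have h1 := δ.map_aeval (minpoly ℚ x) x
  rw [minpoly.aeval, map_zero, smul_eq_mul] at h1
  have h2 : Polynomial.aeval x (Polynomial.derivative (minpoly ℚ x)) ≠ 0 :=
    (minpoly.irreducible hi).separable.aeval_derivative_ne_zero (minpoly.aeval ℚ x)
  exact (mul_eq_zero.1 h1.symm).resolve_left h2

lemma one (δ : Derivation ℚ ℂ ℂ) {G2 G3 M C X Y : ℂ} (h2 : δ G2 = 0) (h3 : δ G3 = 0)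
    (hd : G2 ^ 3 - 27 * G3 ^ 2 ≠ 0) (hc : Y ^ 2 = 4 * X ^ 3 - G2 * X - G3) (hl : Y = M * X + C) :
    δ X / Y * (12 * X ^ 2 - G2 - 2 * M * Y) = 2 * (X * δ M + δ C) := by
  have e1 : 2 * Y * δ Y = (12 * X ^ 2 - G2) * δ X := by
    have h := congrArg δ hc
    have h4 : δ (4 : ℂ) = 0 := by
      have := δ.map_natCast 4
      simpa using this
    simp only [map_sub, Derivation.leibniz, Derivation.leibniz_pow, h2, h3, h4, smul_eq_mul,
      nsmul_eq_mul] at h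
    push_cast at h
    linear_combination h
  have e2 : δ Y = M * δ X + X * δ M + δ C := by
    rw [hl, map_add, Derivation.leibniz, smul_eq_mul, smul_eq_mul]
  by_cases hY : Y = 0
  · have hne : 12 * X ^ 2 - G2 ≠ 0 := by
      intro h
      apply hd
      have hG : G2 = 12 * X ^ 2 := by linear_combination -h
      rw [hY, hG] at hc
      have hG3 : G3 = -8 * X ^ 3 := by linear_combination hc
      rw [hG, hG3]
      ring
    have hX : δ X = 0 := by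
      have : (12 * X ^ 2 - G2) * δ X = 0 := by rw [← e1, hY]; ring
      exact (mul_eq_zero.1 this).resolve_left hne
    have hY2 : δ Y = 0 := by rw [hY, map_zero]
    rw [hX, hY2] at e2
    rw [hX, hY]
    linear_combination 2 * e2
  · have e3 : (12 * X ^ 2 - G2 - 2 * M * Y) * δ X = Y * (2 * (X * δ M + δ C)) := by
      linear_combination 2 * Y * e2 - e1
    field_simp
    linear_combination e3

lemma lag {A1 A2 A3 X1 X2 X3 p q : ℂ} (h12 : X1 ≠ X2) (h13 : X1 ≠ X3) (h23 : X2 ≠ X3)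
    (e1 : A1 * (4 * (X1 - X2) * (X1 - X3)) = 2 * (X1 * p + q))
    (e2 : A2 * (4 * (X2 - X1) * (X2 - X3)) = 2 * (X2 * p + q))
    (e3 : A3 * (4 * (X3 - X1) * (X3 - X2)) = 2 * (X3 * p + q)) : A1 + A2 + A3 = 0 := by
  have a12 := sub_ne_zero.2 h12
  have a13 := sub_ne_zero.2 h13
  have a23 := sub_ne_zero.2 h23
  have h : (4 * (X1 - X2) * (X1 - X3) * (X2 - X3)) * (A1 + A2 + A3) = 0 := by
    linear_combination (X2 - X3) * e1 - (X1 - X3) * e2 + (X1 - X2) * e3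
  exact (mul_eq_zero.1 h).resolve_left
    (mul_ne_zero (mul_ne_zero (mul_ne_zero (by norm_num) a12) a13) a23)

lemma gen {τ μ : ℂ} (hN : Nrm τ μ) (δ : Derivation ℚ ℂ ℂ) {a b : ℂ} (ha : a ∉ Lam τ)
    (hb : b ∉ Lam τ) (hab : a + b ∉ Lam τ) (h12 : wp 1 τ a ≠ wp 1 τ b)
    (h13 : wp 1 τ a ≠ wp 1 τ (a + b)) (h23 : wp 1 τ b ≠ wp 1 τ (a + b)) :
    lam τ μ δ (a + b) = lam τ μ δ a + lam τ μ δ b := by
  have hτ := hN.im
  have hμ := hN.mu
  have k1 := Fx.zt_add_sq hτ ha hb hab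
  have k2 := Fx.zt_add_lin hτ ha hb hab
  have k3 := Fx.zt_add_lin hτ hb ha (by rwa [add_comm])
  rw [add_comm b a] at k3
  have c1 := wpd_sq hτ ha
  have c2 := wpd_sq hτ hb
  have c3 := wpd_sq hτ hab
  have d2 := der_alg δ hN.g2
  have d3 := der_alg δ hN.g3
  have hdisc : (μ ^ 4 * gg2 τ) ^ 3 - 27 * (μ ^ 6 * gg3 τ) ^ 2 ≠ 0 := by
    have h := Fx.disc_ne hτ
    have e : (μ ^ 4 * gg2 τ) ^ 3 - 27 * (μ ^ 6 * gg3 τ) ^ 2 =
        μ ^ 12 * (gg2 τ ^ 3 - 27 * gg3 τ ^ 2) := by ring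
    rw [e]
    exact mul_ne_zero (pow_ne_zero _ hμ) h
  unfold lam
  rw [if_neg ha, if_neg hb, if_neg hab]
  unfold xe ye
  set s : ℂ := zt 1 τ (a + b) - zt 1 τ a - zt 1 τ b with hs
  have k3' : 2 * s * (wp 1 τ b - wp 1 τ (a + b)) = wpd τ b + wpd τ (a + b) := by
    rw [← k3, hs]
    ring
  set x1 := wp 1 τ a
  set x2 := wp 1 τ b
  set x3 := wp 1 τ (a + b)
  set y1 := wpd τ a
  set y2 := wpd τ b
  set y3 := wpd τ (a + b)
  set g2 := gg2 τ
  set g3 := gg3 τ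
  have hμ2 : μ ^ 2 ≠ 0 := pow_ne_zero _ hμ
  -- the line
  have l1 : μ ^ 3 * y1 = 2 * μ * s * (μ ^ 2 * x1) + μ ^ 3 * (y1 - 2 * s * x1) := by ring
  have l2 : μ ^ 3 * y2 = 2 * μ * s * (μ ^ 2 * x2) + μ ^ 3 * (y1 - 2 * s * x1) := by
    linear_combination μ ^ 3 * (k2 - k3')
  have l3 : -(μ ^ 3 * y3) = 2 * μ * s * (μ ^ 2 * x3) + μ ^ 3 * (y1 - 2 * s * x1) := by
    linear_combination μ ^ 3 * k2
  have q1 : (μ ^ 3 * y1) ^ 2 = 4 * (μ ^ 2 * x1) ^ 3 - μ ^ 4 * g2 * (μ ^ 2 * x1) - μ ^ 6 * g3 := by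
    linear_combination μ ^ 6 * c1
  have q2 : (μ ^ 3 * y2) ^ 2 = 4 * (μ ^ 2 * x2) ^ 3 - μ ^ 4 * g2 * (μ ^ 2 * x2) - μ ^ 6 * g3 := by
    linear_combination μ ^ 6 * c2
  have q3 : (-(μ ^ 3 * y3)) ^ 2 =
      4 * (μ ^ 2 * x3) ^ 3 - μ ^ 4 * g2 * (μ ^ 2 * x3) - μ ^ 6 * g3 := by
    linear_combination μ ^ 6 * c3
  have m1 : (2 * μ * s) ^ 2 = 4 * (μ ^ 2 * x1 + μ ^ 2 * x2 + μ ^ 2 * x3) := by
    linear_combination 4 * μ ^ 2 * k1
  have f1 := one δ d2 d3 hdisc q1 l1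
  have f2 := one δ d2 d3 hdisc q2 l2
  have f3 := one δ d2 d3 hdisc q3 l3
  set G2 := μ ^ 4 * g2
  set G3 := μ ^ 6 * g3
  set X1 := μ ^ 2 * x1
  set X2 := μ ^ 2 * x2
  set X3 := μ ^ 2 * x3
  set Y1 := μ ^ 3 * y1
  set Y2 := μ ^ 3 * y2
  set Y3 := μ ^ 3 * y3
  set M := 2 * μ * s
  set K := μ ^ 3 * (y1 - 2 * s * x1)
  have n12 : X1 ≠ X2 := fun h => h12 (mul_left_cancel₀ hμ2 h)
  have n13 : X1 ≠ X3 := fun h => h13 (mul_left_cancel₀ hμ2 h)
  have n23 : X2 ≠ X3 := fun h => h23 (mul_left_cancel₀ hμ2 h)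
  have m2 : -G2 - 2 * M * K = 4 * (X1 * X2 + X1 * X3 + X2 * X3) := by
    have h : (X1 - X2) * (-G2 - 2 * M * K - 4 * (X1 * X2 + X1 * X3 + X2 * X3)) = 0 := by
      rw [l1] at q1
      rw [l2] at q2
      linear_combination q2 - q1 + (X1 ^ 2 - X2 ^ 2) * m1
    have h' := (mul_eq_zero.1 h).resolve_left (sub_ne_zero.2 n12)
    linear_combination h'
  have g1 : 12 * X1 ^ 2 - G2 - 2 * M * Y1 = 4 * (X1 - X2) * (X1 - X3) := by
    rw [l1]
    linear_combination m2 - 2 * X1 * m1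
  have g2' : 12 * X2 ^ 2 - G2 - 2 * M * Y2 = 4 * (X2 - X1) * (X2 - X3) := by
    rw [l2]
    linear_combination m2 - 2 * X2 * m1
  have g3' : 12 * X3 ^ 2 - G2 - 2 * M * -Y3 = 4 * (X3 - X1) * (X3 - X2) := by
    rw [l3]
    linear_combination m2 - 2 * X3 * m1
  rw [g1] at f1
  rw [g2'] at f2
  rw [g3'] at f3
  have := lag n12 n13 n23 f1 f2 f3
  rw [div_neg] at this
  linear_combination -this

/-- generic additivity in terms of the lattice -/
lemma gen2 {τ μ : ℂ} (hN : Nrm τ μ) (δ : Derivation ℚ ℂ ℂ) {a b : ℂ} (ha : a ∉ Lam τ)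
    (hb : b ∉ Lam τ) (hab : a + b ∉ Lam τ) (h1 : a - b ∉ Lam τ) (h2 : 2 * a + b ∉ Lam τ)
    (h3 : a + 2 * b ∉ Lam τ) :
    lam τ μ δ (a + b) = lam τ μ δ a + lam τ μ δ b := by
  have hτ := hN.im
  refine gen hN δ ha hb hab ?_ ?_ ?_
  · intro h
    rcases Fx.wp_inj hτ ha hb h with h | h
    · exact h1 h
    · exact hab h
  · intro h
    rcases Fx.wp_inj hτ ha hab h with h | h
    · apply hb
      rw [← neg_mem_Lam]
      have e : a - (a + b) = -b := by ring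
      rwa [e] at h
    · apply h2
      have e : a + (a + b) = 2 * a + b := by ring
      rwa [e] at h
  · intro h
    rcases Fx.wp_inj hτ hb hab h with h | h
    · apply ha
      rw [← neg_mem_Lam]
      have e : b - (a + b) = -a := by ring
      rwa [e] at h
    · apply h3
      have e : b + (a + b) = a + 2 * b := by ring
      rwa [e] at h

lemma lam_of_mem {τ μ : ℂ} (δ : Derivation ℚ ℂ ℂ) {u : ℂ} (h : u ∈ Lam τ) : lam τ μ δ u = 0 := by
  unfold lam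
  rw [if_pos h]

lemma lam_add_Lam {τ μ : ℂ} (hN : Nrm τ μ) (δ : Derivation ℚ ℂ ℂ) (u : ℂ) {l : ℂ}
    (hl : l ∈ Lam τ) : lam τ μ δ (u + l) = lam τ μ δ u := by
  by_cases hu : u ∈ Lam τ
  · rw [lam_of_mem δ hu, lam_of_mem δ ((add_mem_iff hl).2 hu)]
  · have hu' : u + l ∉ Lam τ := fun h => hu ((add_mem_iff hl).1 h)
    unfold lam xe ye
    rw [if_neg hu, if_neg hu', wp_add_Lam hN.im u hl, wpd_add_Lam hN.im u hl]

lemma lam_neg {τ μ : ℂ} (hN : Nrm τ μ) (δ : Derivation ℚ ℂ ℂ) (u : ℂ) :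
    lam τ μ δ (-u) = -lam τ μ δ u := by
  by_cases hu : u ∈ Lam τ
  · rw [lam_of_mem δ hu, lam_of_mem δ (neg_mem_Lam.2 hu), neg_zero]
  · have hu' : -u ∉ Lam τ := fun h => hu (neg_mem_Lam.1 h)
    unfold lam xe ye
    rw [if_neg hu, if_neg hu', wp_neg, wpd_neg hN.im, mul_neg, div_neg]

lemma cv {S : Set ℂ} {a b : ℂ} (h : a ∉ S) (e : a = b) : b ∉ S := e ▸ h

/-- finitely many linear conditions can be avoided -/
lemma avoid {τ : ℂ} (S : Finset (ℂ × ℂ)) (hS : ∀ p ∈ S, p.1 ≠ 0) :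
    ∃ t : ℂ, ∀ p ∈ S, p.1 * t + p.2 ∉ Lam τ := by
  have hc : (⋃ p ∈ S, {t : ℂ | p.1 * t + p.2 ∈ Lam τ}).Countable := by
    refine S.countable_toSet.biUnion fun p hp => ?_
    refine (Lam_countable τ).preimage (f := fun t : ℂ => p.1 * t + p.2) ?_
    intro x y hxy
    exact mul_left_cancel₀ (hS p hp) (add_right_cancel hxy)
  obtain ⟨t, ht⟩ := (hc.dense_compl ℂ).nonempty
  refine ⟨t, fun p hp h => ht ?_⟩
  simp only [Set.mem_iUnion, Set.mem_setOf_eq]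
  exact ⟨p, hp, h⟩

end I_LamAdd

open I_LamAdd in
theorem LamAdd_pf : S_LamAdd := by
  intro τ μ hN δ u v
  by_cases hu : u ∈ Lam τ
  · rw [add_comm, lam_add_Lam hN δ v hu, lam_of_mem δ hu, zero_add]
  by_cases hv : v ∈ Lam τ
  · rw [lam_add_Lam hN δ u hv, lam_of_mem δ hv, add_zero]
  by_cases huv : u + v ∈ Lam τ
  · have e : v = -u + (u + v) := by ring
    rw [lam_of_mem δ huv, e, lam_add_Lam hN δ (-u) huv, lam_neg hN]
    ring
  obtain ⟨t, ht⟩ := avoid (τ := τ) {((1 : ℂ), (0 : ℂ)), (1, u + v), (-1, u + v),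
    (1, 2 * (u + v)), (2, u + v), (1, v), (-1, v), (1, 2 * v), (2, v), (-1, u - v),
    (1, 2 * u + v), (2, u + 2 * v)} (by
      intro p hp
      simp only [Finset.mem_insert, Finset.mem_singleton] at hp
      rcases hp with rfl | rfl | rfl | rfl | rfl | rfl | rfl | rfl | rfl | rfl | rfl | rfl <;>
        norm_num)
  simp only [Finset.mem_insert, Finset.mem_singleton, forall_eq_or_imp, forall_eq] at ht
  obtain ⟨t1, t2, t3, t4, t5, t6, t7, t8, t9, t10, t11, t12⟩ := ht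
  have r1 : lam τ μ δ (u + v + t) = lam τ μ δ (u + v) + lam τ μ δ t := by
    refine gen2 hN δ huv (by simpa using t1) ?_ ?_ ?_ ?_
    · exact cv t2 (by ring)
    · exact cv t3 (by ring)
    · exact cv t4 (by ring)
    · exact cv t5 (by ring)
  have r2 : lam τ μ δ (v + t) = lam τ μ δ v + lam τ μ δ t := by
    refine gen2 hN δ hv (by simpa using t1) ?_ ?_ ?_ ?_
    · exact cv t6 (by ring)
    · exact cv t7 (by ring)
    · exact cv t8 (by ring)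
    · exact cv t9 (by ring)
  have r3 : lam τ μ δ (u + (v + t)) = lam τ μ δ u + lam τ μ δ (v + t) := by
    refine gen2 hN δ hu ?_ ?_ ?_ ?_ ?_
    · exact cv t6 (by ring)
    · exact cv t2 (by ring)
    · exact cv t10 (by ring)
    · exact cv t11 (by ring)
    · exact cv t12 (by ring)
  rw [← add_assoc] at r3
  linear_combination r3 - r1 + r2

end Pool.Agent.Work.MP_8da9ea_nt.EB
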