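import Pool.Agent.Work.MP_8da9ea_nt.EB.StmtsG
import Pool.Agent.Work.MP_8da9ea_nt.Bd.B06
import Pool.Agent.Work.MP_8da9ea_nt.CD.Sum
import Pool.Agent.Work.MP_8da9ea_nt.CD.Mul

/-!
# Elliptic block, item LamMul: `λ` and multiplication by endomorphisms
-/

set_option autoImplicit false

namespace Pool.Agent.Work.MP_8da9ea_nt.EB

open MvPolynomial Pool.Agent.Work.MP_327059_nt.GL Pool.Agent.Work.MP_8da9ea_nt.S

namespace I_LamMul

/-- A derivation kills the algebraic numbers. -/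
lemma der_alg (δ : Derivation ℚ ℂ ℂ) {x : ℂ} (hx : IsAlgebraic ℚ x) : δ x = 0 := by
  have hint : IsIntegral ℚ x := hx.isIntegral
  have hmin : Polynomial.aeval x (minpoly ℚ x) = 0 := minpoly.aeval ℚ x
  have h1 : δ (Polynomial.aeval x (minpoly ℚ x)) = 0 := by rw [hmin, map_zero]
  rw [Derivation.map_aeval] at h1
  have hsep : Polynomial.aeval x (Polynomial.derivative (minpoly ℚ x)) ≠ 0 :=
    (minpoly.irreducible hint).separable.aeval_derivative_ne_zero hmin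
  rcases smul_eq_zero.1 h1 with h | h
  · exact absurd h hsep
  · exact h

lemma lam_mem {τ μ u : ℂ} (δ : Derivation ℚ ℂ ℂ) (hu : u ∈ Lam τ) : lam τ μ δ u = 0 := by
  unfold lam
  rw [if_pos hu]

lemma lam_not {τ μ u : ℂ} (δ : Derivation ℚ ℂ ℂ) (hu : u ∉ Lam τ) :
    lam τ μ δ u = δ (xe τ μ u) / ye τ μ u := by
  unfold lam
  rw [if_neg hu]

lemma der_cub (δ : Derivation ℚ ℂ ℂ) {X a b : ℂ} (ha : δ a = 0) (hb : δ b = 0)
    (h : 4 * X ^ 3 - a * X - b = 0) : (12 * X ^ 2 - a) * δ X = 0 := by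
  have h4 : δ (4 : ℂ) = 0 := by
    have h5 := δ.map_algebraMap (4 : ℚ)
    simpa using h5
  have hd : δ (4 * (X * (X * X)) - a * X - b) = 0 := by
    have e : 4 * (X * (X * X)) - a * X - b = 0 := by linear_combination h
    rw [e, map_zero]
  rw [map_sub, map_sub] at hd
  simp only [Derivation.leibniz, smul_eq_mul] at hd
  rw [ha, hb, h4] at hd
  linear_combination hd

/-- The derivation of the first coordinate, without division. -/
lemma der_xe {τ μ : ℂ} (hN : Nrm τ μ) (δ : Derivation ℚ ℂ ℂ) {z : ℂ} (hz : z ∉ Lam τ) :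
    δ (xe τ μ z) = lam τ μ δ z * ye τ μ z := by
  by_cases hy : ye τ μ z = 0
  · rw [hy, mul_zero]
    have hw : wpd τ z = 0 := by
      rcases mul_eq_zero.1 hy with h5 | h5
      · exact absurd h5 (pow_ne_zero 3 hN.mu)
      · exact h5
    have hsq := wpd_sq hN.im hz
    rw [hw] at hsq
    have hsq' : 4 * xe τ μ z ^ 3 - (μ ^ 4 * gg2 τ) * xe τ μ z - μ ^ 6 * gg3 τ = 0 := by
      unfold xe
      linear_combination -μ ^ 6 * hsq
    have hne : 12 * xe τ μ z ^ 2 - μ ^ 4 * gg2 τ ≠ 0 := by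
      intro h
      have e4 : 12 * wp 1 τ z ^ 2 = gg2 τ := by
        have h6 : μ ^ 4 * (12 * wp 1 τ z ^ 2 - gg2 τ) = 0 := by
          unfold xe at h
          linear_combination h
        rcases mul_eq_zero.1 h6 with h7 | h7
        · exact absurd h7 (pow_ne_zero 4 hN.mu)
        · linear_combination h7
      apply Fx.disc_ne hN.im
      have e5 : gg3 τ = -8 * wp 1 τ z ^ 3 := by
        rw [← e4] at hsq
        linear_combination hsq
      rw [← e4, e5]
      ring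
    rcases mul_eq_zero.1 (der_cub δ (der_alg δ hN.g2) (der_alg δ hN.g3) hsq') with h6 | h6
    · exact absurd h6 hne
    · exact h6
  · rw [lam_not δ hz, div_mul_cancel₀ _ hy]

/-- Multiplication by natural numbers. -/
lemma lam_nat (hAdd : S_LamAdd) {τ μ : ℂ} (hN : Nrm τ μ) (δ : Derivation ℚ ℂ ℂ) (n : ℕ) (u : ℂ) :
    lam τ μ δ ((n : ℂ) * u) = (n : ℂ) * lam τ μ δ u := by
  have h := map_nsmul (AddMonoidHom.mk' (lam τ μ δ) (hAdd τ μ hN δ)) n u
  simpa [nsmul_eq_mul] using h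

/-- Multiplication by integers. -/
lemma lam_int (hAdd : S_LamAdd) {τ μ : ℂ} (hN : Nrm τ μ) (δ : Derivation ℚ ℂ ℂ) (n : ℤ) (u : ℂ) :
    lam τ μ δ ((n : ℂ) * u) = (n : ℂ) * lam τ μ δ u := by
  have h := map_zsmul (AddMonoidHom.mk' (lam τ μ δ) (hAdd τ μ hN δ)) n u
  simpa [zsmul_eq_mul] using h

/-- Torsion points. -/
lemma lam_tor (hAdd : S_LamAdd) {τ μ : ℂ} (hN : Nrm τ μ) (δ : Derivation ℚ ℂ ℂ) {n : ℕ} {w : ℂ}
    (hn : 0 < n) (hw : (n : ℂ) * w ∈ Lam τ) : lam τ μ δ w = 0 := by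
  have h := lam_nat hAdd hN δ n w
  rw [lam_mem δ hw] at h
  rcases mul_eq_zero.1 h.symm with h1 | h1
  · exact absurd h1 (by exact_mod_cast hn.ne')
  · exact h1

/-- The differentiated sum formula. -/
lemma sum_der {τ g c : ℂ} (hτ : 0 < τ.im) (hg : CD.IsInt τ g) {W : Finset ℂ}
    (hW : ∀ w ∈ W, g * w ∈ Lam τ)
    (h : ∀ z : ℂ, g * z ∉ Lam τ → g ^ 2 * wp 1 τ (g * z) = ∑ w ∈ W, wp 1 τ (z + w) + c)
    {z : ℂ} (hz : g * z ∉ Lam τ) :
    g ^ 3 * wpd τ (g * z) = ∑ w ∈ W, wpd τ (z + w) := by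
  have hopen : IsOpen {z : ℂ | g * z ∉ Lam τ} :=
    (Lam_compl_open hτ).preimage (continuous_const.mul continuous_id)
  have hgd : HasDerivAt (fun z : ℂ => g * z) g z := by
    simpa using (hasDerivAt_id z).const_mul g
  have d1 : HasDerivAt (fun z => g ^ 2 * wp 1 τ (g * z)) (g ^ 2 * (wpd τ (g * z) * g)) z :=
    (HasDerivAt.comp (h₂ := fun z => wp 1 τ z) z (hasDerivAt_wp_z hτ hz) hgd).const_mul (g ^ 2)
  have d2 : HasDerivAt (fun z => ∑ w ∈ W, wp 1 τ (z + w) + c) (∑ w ∈ W, wpd τ (z + w)) z := by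
    refine (HasDerivAt.fun_sum fun w hw => ?_).add_const c
    refine (hasDerivAt_wp_z hτ fun h => hz ?_).comp_add_const z w
    have h1 : g * z = g * (z + w) - g * w := by ring
    rw [h1]
    exact CD.Sum_sub (CD.Sum_mul hg h) (hW w hw)
  have e : (fun z => g ^ 2 * wp 1 τ (g * z)) =ᶠ[nhds z] fun z => ∑ w ∈ W, wp 1 τ (z + w) + c := by
    filter_upwards [hopen.mem_nhds hz] with y hy
    exact h y hy
  have h2 := (d1.congr_of_eventuallyEq e.symm).unique d2
  linear_combination h2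

/-- Integral endomorphisms. -/
lemma lam_end (hAdd : S_LamAdd) (hSum : CD.StSum) {τ μ : ℂ} (hN : Nrm τ μ)
    (δ : Derivation ℚ ℂ ℂ) {g : ℂ} (hg : CD.IsInt τ g) (hga : δ g = 0) (u : ℂ) :
    lam τ μ δ (g * u) = g * lam τ μ δ u := by
  by_cases hg0 : g = 0
  · rw [hg0, zero_mul, zero_mul]
    exact lam_mem δ CD.Mul_zero_mem
  obtain ⟨M, hM, hMz⟩ := CD.Sum_norm hN.im hg hg0
  by_cases hu : g * u ∈ Lam τ
  · rw [lam_mem δ hu, lam_tor hAdd hN δ hM (hMz u hu), mul_zero]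
  obtain ⟨W, c, c₁, c₀, hW, hz⟩ := hSum τ hN.im g hg hg0
  have hWg : ∀ w ∈ W, g * w ∈ Lam τ := fun w hw => (hW w hw).1
  have hwp : ∀ z : ℂ, g * z ∉ Lam τ →
      g ^ 2 * wp 1 τ (g * z) = ∑ w ∈ W, wp 1 τ (z + w) + c := fun z h => (hz z h).1
  have hnot : ∀ z : ℂ, g * z ∉ Lam τ → ∀ w ∈ W, z + w ∉ Lam τ := by
    intro z hgz w hw h
    refine hgz ?_
    have h1 := CD.Sum_sub (CD.Sum_mul hg h) (hW w hw).1
    have e : g * (z + w) - g * w = g * z := by ring
    rwa [e] at h1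
  have hlw : ∀ z : ℂ, ∀ w ∈ W, lam τ μ δ (z + w) = lam τ μ δ z := by
    intro z w hw
    obtain ⟨n, hn, hnw⟩ := (hW w hw).2
    rw [hAdd τ μ hN δ z w, lam_tor hAdd hN δ hn hnw, add_zero]
  -- the normalised formulas
  have hx : ∀ z : ℂ, g * z ∉ Lam τ →
      g ^ 2 * xe τ μ (g * z) = ∑ w ∈ W, xe τ μ (z + w) + μ ^ 2 * c := by
    intro z h
    have h1 := hwp z h
    unfold xe
    rw [← Finset.mul_sum]
    linear_combination μ ^ 2 * h1
  have hy : ∀ z : ℂ, g * z ∉ Lam τ →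
      g ^ 3 * ye τ μ (g * z) = ∑ w ∈ W, ye τ μ (z + w) := by
    intro z h
    have h1 := sum_der hN.im hg hWg hwp h
    unfold ye
    rw [← Finset.mul_sum]
    linear_combination μ ^ 3 * h1
  have hg2 : δ (g ^ 2) = 0 := by
    rw [pow_two, Derivation.leibniz, hga, smul_zero, add_zero]
  -- the derivative of the formula
  have hd : ∀ z : ℂ, g * z ∉ Lam τ →
      g ^ 2 * (lam τ μ δ (g * z) * ye τ μ (g * z)) =
        lam τ μ δ z * (g ^ 3 * ye τ μ (g * z)) + δ (μ ^ 2 * c) := by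
    intro z h
    have h1 := congrArg δ (hx z h)
    rw [Derivation.leibniz, hg2, smul_zero, add_zero, smul_eq_mul, der_xe hN δ h, map_add,
      map_sum] at h1
    rw [h1, hy z h, Finset.mul_sum]
    congr 1
    refine Finset.sum_congr rfl fun w hw => ?_
    rw [der_xe hN δ (hnot z h w hw), hlw z w hw]
  have hc : δ (μ ^ 2 * c) = 0 := by
    obtain ⟨n, z, hn, hnz, hgz⟩ := CD.Mul_exists_tor hN.im hg.1 hg0
    have h1 := hd z hgz
    have h2 : (n : ℂ) * z ∈ Lam τ := by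
      rw [hnz]
      exact CD.Mul_one_mem
    have h3 : (n : ℂ) * (g * z) ∈ Lam τ := by
      have e : (n : ℂ) * (g * z) = g * (n * z) := by ring
      rw [e]
      exact CD.Sum_mul hg h2
    rw [lam_tor hAdd hN δ hn h2, lam_tor hAdd hN δ hn h3, zero_mul, mul_zero, zero_mul,
      zero_add] at h1
    exact h1.symm
  by_cases hyu : ye τ μ (g * u) = 0
  · have hw : wpd τ (g * u) = 0 := by
      rcases mul_eq_zero.1 hyu with h5 | h5
      · exact absurd h5 (pow_ne_zero 3 hN.mu)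
      · exact h5
    have h2 := wpd_zero hN.im hu hw
    have h3 : g * (2 * u) ∈ Lam τ := by
      have e : g * (2 * u) = 2 * (g * u) := by ring
      rw [e]
      exact h2
    have h4 := hMz _ h3
    have h5 : ((M * 2 : ℕ) : ℂ) * u ∈ Lam τ := by
      push_cast
      rw [mul_assoc]
      exact h4
    have h6 : ((2 : ℕ) : ℂ) * (g * u) ∈ Lam τ := by
      push_cast
      exact h2
    rw [lam_tor hAdd hN δ (Nat.mul_pos hM two_pos) h5, lam_tor hAdd hN δ two_pos h6, mul_zero]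
  · have h1 := hd u hu
    rw [hc, add_zero] at h1
    have h2 : g ^ 2 * ye τ μ (g * u) ≠ 0 := mul_ne_zero (pow_ne_zero 2 hg0) hyu
    apply mul_left_cancel₀ h2
    linear_combination h1

end I_LamMul

/-- G2: `λ` and multiplication by endomorphisms. -/
theorem LamMul_pf (hAdd : S_LamAdd) (hKf : S_Kf) (hSum : CD.StSum) : S_LamMul := by
  intro τ μ hN δ g u hg
  have hga : δ g = 0 := I_LamMul.der_alg δ ((hKf τ hN.im).1 g hg)
  obtain ⟨n, hn, h1, h2⟩ := hg
  have hint : CD.IsInt τ ((n : ℂ) * g) := ⟨h1, h2⟩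
  have hn0 : (n : ℂ) ≠ 0 := by exact_mod_cast hn
  have hna : δ ((n : ℂ) * g) = 0 := by
    have h3 : δ ((n : ℂ)) = 0 := by
      simp
    rw [Derivation.leibniz, hga, h3, smul_zero, smul_zero, add_zero]
  have h3 := I_LamMul.lam_end hAdd hSum hN δ hint hna u
  rw [mul_assoc, I_LamMul.lam_int hAdd hN δ n (g * u), mul_assoc] at h3
  exact mul_left_cancel₀ hn0 h3

end Pool.Agent.Work.MP_8da9ea_nt.EB
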