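import Pool.Agent.Work.MP_8da9ea_nt.EB.StmtsG
import Pool.Agent.Work.MP_8da9ea_nt.Der

/-!
# Elliptic block, item LamZero
-/

set_option autoImplicit false

namespace Pool.Agent.Work.MP_8da9ea_nt.EB

open MvPolynomial Pool.Agent.Work.MP_327059_nt.GL Pool.Agent.Work.MP_8da9ea_nt.S

namespace I_LamZero

/-- The curve equation for the normalised functions. -/
lemma ye_sq {τ μ u : ℂ} (h : Nrm τ μ) (hu : u ∉ Lam τ) :
    ye τ μ u ^ 2 = 4 * xe τ μ u ^ 3 - (μ ^ 4 * gg2 τ) * xe τ μ u - μ ^ 6 * gg3 τ := by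
  have h1 := wpd_sq h.im hu
  unfold ye xe
  linear_combination μ ^ 6 * h1

/-- An algebraic number is algebraic over every intermediate field. -/
lemma alg_up (E : IntermediateField ℚ ℂ) {x : ℂ} (hx : IsAlgebraic ℚ x) : IsAlgebraic E x :=
  hx.tower_top E

/-- `X(u)` is algebraic at the points of order two. -/
lemma xe_alg {τ μ u : ℂ} (h : Nrm τ μ) (hu : u ∉ Lam τ) (h0 : ye τ μ u = 0) :
    IsAlgebraic ℚ (xe τ μ u) := by
  have h1 := ye_sq h hu
  rw [h0] at h1
  -- algebraic closure of ℚ in ℂ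
  let A := integralClosure ℚ ℂ
  have hg2 : IsIntegral ℚ (μ ^ 4 * gg2 τ) := h.g2.isIntegral
  have hg3 : IsIntegral ℚ (μ ^ 6 * gg3 τ) := h.g3.isIntegral
  let a2 : A := ⟨μ ^ 4 * gg2 τ, hg2⟩
  let a3 : A := ⟨μ ^ 6 * gg3 τ, hg3⟩
  let q : A := algebraMap ℚ A (1 / 4)
  let p : Polynomial A := Polynomial.X ^ 3 - (Polynomial.C (q * a2) * Polynomial.X +
    Polynomial.C (q * a3))
  have hp : p.Monic := by
    apply Polynomial.monic_X_pow_sub
    refine lt_of_le_of_lt Polynomial.degree_linear_le ?_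
    norm_num
  have hint : IsIntegral A (xe τ μ u) := by
    refine ⟨p, hp, ?_⟩
    have hq : (algebraMap A ℂ q) = 1 / 4 := by
      show ((algebraMap ℚ A (1 / 4) : A) : ℂ) = 1 / 4
      have : ((algebraMap ℚ A (1 / 4) : A) : ℂ) = algebraMap ℚ ℂ (1 / 4) := rfl
      rw [this]
      norm_num
    have ha2 : (algebraMap A ℂ a2) = μ ^ 4 * gg2 τ := rfl
    have ha3 : (algebraMap A ℂ a3) = μ ^ 6 * gg3 τ := rfl
    simp only [p, Polynomial.eval₂_sub, Polynomial.eval₂_pow, Polynomial.eval₂_X,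
      Polynomial.eval₂_add, Polynomial.eval₂_mul, Polynomial.eval₂_C, map_mul, hq, ha2, ha3]
    linear_combination (-1 / 4 : ℂ) * h1
  have : IsIntegral ℚ (xe τ μ u) := isIntegral_trans _ hint
  exact this.isAlgebraic

end I_LamZero

open I_LamZero

theorem LamZero_pf : S_LamZero := by
  intro τ μ hN E hE u
  constructor
  · intro h
    by_cases hu : u ∈ Lam τ
    · exact Or.inl hu
    right
    by_cases h0 : ye τ μ u = 0
    · exact hE _ (alg_up E (xe_alg hN hu h0))
    · apply hE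
      have h1 := Pool.Agent.ED.isAlgebraic_of_derivation (K := ℚ) (E : Set ℂ) (xe τ μ u) (by
        intro X hX
        have h2 := h X hX
        unfold lam at h2
        rw [if_neg hu, div_eq_zero_iff] at h2
        exact h2.resolve_right h0)
      have h3 : IntermediateField.adjoin ℚ (E : Set ℂ) = E := IntermediateField.adjoin_self ℚ E
      rw [h3] at h1
      exact h1
  · rintro (hu | hx) δ hδ
    · unfold lam
      rw [if_pos hu]
    · unfold lam
      split_ifs
      · rfl
      · rw [hδ _ hx, zero_div]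

end Pool.Agent.Work.MP_8da9ea_nt.EB
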