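import Pool.Agent.Work.MP_8da9ea_nt.EB.StmtsT

/-!
# Elliptic block, item C6' (`Lin`): a function with countably many increments is linear
-/

set_option autoImplicit false

namespace Pool.Agent.Work.MP_8da9ea_nt.EB

open MvPolynomial Metric Filter Topology Pool.Agent.Work.MP_327059_nt.GL
  Pool.Agent.Work.MP_8da9ea_nt.S

namespace I_Lin

/-- a continuous function on a convex set with countably many values is constant -/
theorem const_of_countable {E : Type*} [NormedAddCommGroup E] [NormedSpace ℝ E] {s : Set E}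
    (hs : Convex ℝ s) {f : E → ℂ} (hf : ContinuousOn f s) {Z : Set ℂ} (hZ : Z.Countable)
    (hfZ : ∀ v ∈ s, f v ∈ Z) {v w : E} (hv : v ∈ s) (hw : w ∈ s) : f v = f w := by
  have h1 : IsPreconnected (f '' s) := hs.isPreconnected.image f hf
  have h2 : (f '' s).Countable := hZ.mono (by
    rintro _ ⟨x, hx, rfl⟩
    exact hfZ x hx)
  have h3 : (f '' s).Subsingleton := by
    by_contra hns
    rw [Set.not_subsingleton_iff] at hns
    have := h1.infinite_of_nontrivial hns
    -- use the distance function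
    obtain ⟨a, ha, b, hb, hab⟩ := hns
    have h4 : IsPreconnected ((fun z => dist z a) '' (f '' s)) :=
      h1.image _ (by fun_prop)
    have h5 : ((fun z => dist z a) '' (f '' s)).Countable := h2.image _
    have h6 : Set.Icc (0 : ℝ) (dist b a) ⊆ (fun z => dist z a) '' (f '' s) := by
      apply h4.Icc_subset
      · exact ⟨a, ha, by simp⟩
      · exact ⟨b, hb, rfl⟩
    have h7 : (Set.Icc (0 : ℝ) (dist b a)).Countable := h5.mono h6
    have h8 : ¬ (Set.Icc (0 : ℝ) (dist b a)).Countable := by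
      rw [Cardinal.Real.Icc_countable_iff]
      have : 0 < dist b a := dist_pos.2 (Ne.symm hab)
      exact not_le.2 this
    exact h8 h7
  exact h3 ⟨v, hv, rfl⟩ ⟨w, hw, rfl⟩

/-- constant increments, at the level of derivatives -/
theorem fderiv_const {m : ℕ} {v₀ : Fin m → ℂ} {r : ℝ} {L : (Fin m → ℂ) → ℂ}
    (hL : AnalyticOnNhd ℂ L (ball v₀ r))
    (hinc : ∀ h : Fin m → ℂ, ∃ Z : Set ℂ, Z.Countable ∧
      ∀ v, v ∈ ball v₀ r → v + h ∈ ball v₀ r → L (v + h) - L v ∈ Z)
    {w : Fin m → ℂ} (hv₀ : v₀ ∈ ball v₀ r) (hw : w ∈ ball v₀ r) :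
    fderiv ℂ L w = fderiv ℂ L v₀ := by
  set h : Fin m → ℂ := w - v₀ with hh
  obtain ⟨Z, hZ, hZ'⟩ := hinc h
  set s : Set (Fin m → ℂ) := ball v₀ r ∩ (fun v => v + h) ⁻¹' ball v₀ r with hs
  have hso : IsOpen s := isOpen_ball.inter (isOpen_ball.preimage (by fun_prop))
  have hsc : Convex ℝ s := by
    apply (convex_ball v₀ r).inter
    have : (fun v => v + h) ⁻¹' ball v₀ r = ball (v₀ - h) r := by
      ext v
      simp only [Set.mem_preimage, mem_ball, dist_eq_norm]
      rw [show v + h - v₀ = v - (v₀ - h) by abel]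
    rw [this]
    exact convex_ball _ r
  have hv₀s : v₀ ∈ s := by
    refine ⟨hv₀, ?_⟩
    simp only [Set.mem_preimage, hh]
    rw [show v₀ + (w - v₀) = w by abel]
    exact hw
  have hcont : ContinuousOn (fun v => L (v + h) - L v) s := by
    apply ContinuousOn.sub
    · exact (hL.continuousOn).comp (by fun_prop) (fun v hv => hv.2)
    · exact hL.continuousOn.mono (fun v hv => hv.1)
  have hcst : ∀ v ∈ s, L (v + h) - L v = L (v₀ + h) - L v₀ := fun v hv =>
    const_of_countable hsc hcont hZ (fun x hx => hZ' x hx.1 hx.2) hv hv₀s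
  -- differentiate at v₀
  have hD1 : HasFDerivAt L (fderiv ℂ L v₀) v₀ :=
    (hL v₀ hv₀).differentiableAt.hasFDerivAt
  have hD2 : HasFDerivAt L (fderiv ℂ L w) (v₀ + h) := by
    rw [show v₀ + h = w by rw [hh]; abel]
    exact (hL w hw).differentiableAt.hasFDerivAt
  have hD3 : HasFDerivAt (fun v => L (v + h)) (fderiv ℂ L w) v₀ := by
    have h0 : HasFDerivAt (fun v : Fin m → ℂ => v + h)
        (ContinuousLinearMap.id ℂ (Fin m → ℂ)) v₀ := (hasFDerivAt_id v₀).add_const h
    have := HasFDerivAt.comp v₀ hD2 h0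
    rw [ContinuousLinearMap.comp_id] at this
    exact this
  have hD4 : HasFDerivAt (fun v => L (v + h) - L v) (fderiv ℂ L w - fderiv ℂ L v₀) v₀ :=
    hD3.sub hD1
  have hD5 : HasFDerivAt (fun v => L (v + h) - L v) (0 : (Fin m → ℂ) →L[ℂ] ℂ) v₀ := by
    refine (hasFDerivAt_const (L (v₀ + h) - L v₀) v₀).congr_of_eventuallyEq ?_
    filter_upwards [hso.mem_nhds hv₀s] with v hv
    exact hcst v hv
  exact sub_eq_zero.1 (hD4.unique hD5)

end I_Lin

/-- **Item C6' (`Lin`).** -/
theorem Lin_pf : S_Lin := by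
  intro m v₀ r L hr hL hinc
  have hv₀ : v₀ ∈ ball v₀ r := mem_ball_self hr
  set A : (Fin m → ℂ) →L[ℂ] ℂ := fderiv ℂ L v₀ with hA
  have hcst : ∀ v ∈ ball v₀ r, L v - A v = L v₀ - A v₀ := by
    intro v hv
    have hd : DifferentiableOn ℂ (fun v => L v - A v) (ball v₀ r) :=
      (hL.differentiableOn).sub A.differentiable.differentiableOn
    refine (convex_ball v₀ r).is_const_of_fderivWithin_eq_zero (𝕜 := ℂ) hd ?_ hv hv₀
    intro w hw
    rw [fderivWithin_of_isOpen isOpen_ball hw]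
    have h1 : HasFDerivAt (fun v => L v - A v) (fderiv ℂ L w - A) w :=
      (hL w hw).differentiableAt.hasFDerivAt.sub A.hasFDerivAt
    rw [h1.fderiv, I_Lin.fderiv_const hL hinc hv₀ hw, sub_self]
  refine ⟨L v₀ - A v₀, fun i => A (Pi.single i 1), r, hr, le_rfl, ?_⟩
  intro v hv
  have h1 := hcst v hv
  have h2 : A v = ∑ i, A (Pi.single i 1) * v i := by
    have h3 : v = ∑ i, v i • (Pi.single i (1 : ℂ) : Fin m → ℂ) := by
      conv_lhs => rw [pi_eq_sum_univ' v]
    conv_lhs => rw [h3]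
    rw [map_sum]
    refine Finset.sum_congr rfl fun i _ => ?_
    rw [map_smul, smul_eq_mul, mul_comm]
  rw [← h2]
  linear_combination h1

end Pool.Agent.Work.MP_8da9ea_nt.EB
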