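import Pool.Agent.Work.MP_8da9ea_nt.EB.StmtsT

/-!
# Elliptic block, item LocInv: local inverse of `℘`
-/

set_option autoImplicit false

namespace Pool.Agent.Work.MP_8da9ea_nt.EB

open MvPolynomial Metric Filter Topology Pool.Agent.Work.MP_327059_nt.GL
  Pool.Agent.Work.MP_8da9ea_nt.S

namespace I_LocInv

/-- `℘` is strictly differentiable off the lattice. -/
lemma strict {τ u : ℂ} (hτ : 0 < τ.im) (hu : u ∉ Lam τ) :
    HasStrictDerivAt (fun z => wp 1 τ z) (wpd τ u) u := by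
  have hopen : IsOpen (Lam τ)ᶜ := Lam_compl_open hτ
  have hd : DifferentiableOn ℂ (fun z => wp 1 τ z) (Lam τ)ᶜ := fun z hz =>
    (hasDerivAt_wp_z hτ hz).differentiableAt.differentiableWithinAt
  have ha : AnalyticAt ℂ (fun z => wp 1 τ z) u := hd.analyticAt (hopen.mem_nhds hu)
  have hs := ha.hasStrictDerivAt
  rwa [(hasDerivAt_wp_z hτ hu).deriv] at hs

end I_LocInv

open I_LocInv in
theorem LocInv_pf : S_LocInv := by
  intro τ hτ u₀ hu₀ hne
  have hf := strict hτ hu₀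
  have hg0 : hf.localInverse (fun z => wp 1 τ z) (wpd τ u₀) u₀ hne (wp 1 τ u₀) = u₀ :=
    HasStrictFDerivAt.localInverse_apply_image ..
  have hright : ∀ᶠ x in 𝓝 (wp 1 τ u₀),
      wp 1 τ (hf.localInverse (fun z => wp 1 τ z) (wpd τ u₀) u₀ hne x) = x :=
    HasStrictDerivAt.eventually_right_inverse ..
  have hgd := hf.to_localInverse hne
  generalize hf.localInverse (fun z => wp 1 τ z) (wpd τ u₀) u₀ hne = g at hg0 hright hgd
  have hgc : Tendsto g (𝓝 (wp 1 τ u₀)) (𝓝 u₀) := by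
    have h := hgd.hasDerivAt.continuousAt.tendsto
    rwa [hg0] at h
  -- the lattice
  have hL : ∀ᶠ x in 𝓝 (wp 1 τ u₀), g x ∉ Lam τ :=
    hgc.eventually ((Lam_compl_open hτ).mem_nhds hu₀)
  -- the sign
  have hw : ∀ᶠ x in 𝓝 (wp 1 τ u₀), ‖wpd τ (g x) - wpd τ u₀‖ < ‖wpd τ u₀‖ := by
    have h1 : Tendsto (fun u => wpd τ u) (𝓝 u₀) (𝓝 (wpd τ u₀)) :=
      (hasDerivAt_wpd_z hτ hu₀).continuousAt.tendsto
    have h2 := (h1.comp hgc).eventually (Metric.ball_mem_nhds (wpd τ u₀) (norm_pos_iff.2 hne))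
    filter_upwards [h2] with x hx
    rwa [dist_eq_norm] at hx
  -- the Lipschitz bound
  obtain ⟨C, hC⟩ := hgd.hasDerivAt.isBigO_sub.bound
  rw [hg0] at hC
  obtain ⟨ε, hε, H⟩ := Metric.eventually_nhds_iff.1 (((hright.and hL).and hw).and hC)
  refine ⟨max 1 C, min (ε / 2) (‖wpd τ u₀‖ / 2), le_max_left _ _, ?_, ?_⟩
  · have := norm_pos_iff.2 hne
    positivity
  intro x y hx hy hxy
  have hx1 : dist x (wp 1 τ u₀) < ε := by
    rw [dist_eq_norm]
    have := min_le_left (ε / 2) (‖wpd τ u₀‖ / 2)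
    linarith
  obtain ⟨⟨⟨h1, h2⟩, h3⟩, h4⟩ := H hx1
  refine ⟨g x, h2, h1, ?_, ?_⟩
  · have h5 := wpd_sq hτ h2
    rw [h1, ← hxy] at h5
    rcases sq_eq_sq_iff_eq_or_eq_neg.1 h5 with h6 | h6
    · exact h6
    · exfalso
      have h7 := norm_pos_iff.2 hne
      have h8 := min_le_right (ε / 2) (‖wpd τ u₀‖ / 2)
      have h9 : (2 : ℂ) * wpd τ u₀ = -(y - wpd τ u₀) - (wpd τ (g x) - wpd τ u₀) := by
        rw [h6]; ring
      have h10 : ‖(2 : ℂ) * wpd τ u₀‖ ≤ ‖y - wpd τ u₀‖ + ‖wpd τ (g x) - wpd τ u₀‖ := by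
        rw [h9]
        refine (norm_sub_le _ _).trans ?_
        rw [norm_neg]
      rw [norm_mul, Complex.norm_ofNat] at h10
      linarith
  · refine h4.trans (mul_le_mul_of_nonneg_right (le_max_right _ _) (norm_nonneg _))

end Pool.Agent.Work.MP_8da9ea_nt.EB
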