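import Pool.Agent.Work.MP_8da9ea_nt.EB.StmtsT

set_option autoImplicit false

namespace Pool.Agent.Work.MP_8da9ea_nt.EB

open MvPolynomial Pool.Agent.Work.MP_327059_nt.GL Pool.Agent.Work.MP_8da9ea_nt.S

namespace I_MeasE

/-- A small value of a linear form with coefficients at most `S`. -/
def Vi {n : ℕ} (x : Fin n → ℂ) (S α : ℕ) : Prop :=
  ∃ s : Fin n → ℤ, s ≠ 0 ∧ (∀ i, |s i| ≤ (S : ℤ)) ∧ ‖cmb s x‖ ≤ Real.exp (-((S : ℝ) ^ α))

theorem cmb_ne {n : ℕ} {x : Fin n → ℂ} (hx : LinearIndependent ℚ x) {s : Fin n → ℤ} (hs : s ≠ 0) :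
    cmb s x ≠ 0 := by
  intro h
  apply hs
  rw [Fintype.linearIndependent_iff] at hx
  have h1 := hx (fun i => (s i : ℚ)) (by
    rw [← h]
    unfold cmb
    refine Finset.sum_congr rfl fun i _ => ?_
    rw [Algebra.smul_def]
    simp)
  funext i
  exact_mod_cast h1 i

theorem exists_min {n : ℕ} {x : Fin n → ℂ} (hx : LinearIndependent ℚ x) (R : ℕ) :
    ∃ δ : ℝ, 0 < δ ∧ ∀ s : Fin n → ℤ, s ≠ 0 → (∀ i, |s i| ≤ (R : ℤ)) → δ ≤ ‖cmb s x‖ := by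
  classical
  set F : Finset (Fin n → ℤ) :=
    (Finset.Icc (fun _ => -(R : ℤ)) (fun _ => (R : ℤ))).filter (fun s => s ≠ 0) with hF
  have hmem : ∀ s : Fin n → ℤ, s ≠ 0 → (∀ i, |s i| ≤ (R : ℤ)) → s ∈ F := by
    intro s hs hb
    rw [hF, Finset.mem_filter, Finset.mem_Icc]
    exact ⟨⟨fun i => (abs_le.1 (hb i)).1, fun i => (abs_le.1 (hb i)).2⟩, hs⟩
  rcases F.eq_empty_or_nonempty with h0 | h0
  · refine ⟨1, one_pos, fun s hs hb => ?_⟩
    have := hmem s hs hb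
    rw [h0] at this
    exact absurd this (Finset.notMem_empty _)
  · obtain ⟨s₀, hs₀, hmin⟩ := Finset.exists_min_image F (fun s => ‖cmb s x‖) h0
    refine ⟨‖cmb s₀ x‖, norm_pos_iff.2 (cmb_ne hx ?_), fun s hs hb => hmin s (hmem s hs hb)⟩
    rw [hF, Finset.mem_filter] at hs₀
    exact hs₀.2

theorem not_Vi {n : ℕ} {x : Fin n → ℂ} (hx : LinearIndependent ℚ x) (R : ℕ) (hR : 2 ≤ R) :
    ∃ α₀ : ℕ, ∀ α : ℕ, α₀ ≤ α → ¬ Vi x R α := by
  obtain ⟨δ, hδ, hmin⟩ := exists_min hx R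
  obtain ⟨N, hN⟩ := exists_nat_gt (-Real.log δ)
  refine ⟨N, fun α hα => ?_⟩
  rintro ⟨s, hs, hb, hle⟩
  have h1 := (hmin s hs hb).trans hle
  have h2 := Real.log_le_log hδ h1
  rw [Real.log_exp] at h2
  have h3 : (N : ℝ) ≤ (R : ℝ) ^ α := by
    have h4 : N ≤ R ^ α := by
      calc N ≤ α := hα
        _ ≤ 2 ^ α := Nat.lt_two_pow_self.le
        _ ≤ R ^ α := Nat.pow_le_pow_left hR α
    exact_mod_cast h4
  linarith

theorem iter {n : ℕ} {x : Fin n → ℂ} {e a T₀ : ℕ} (he : 1 ≤ e)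
    (hstep : ∀ T : ℕ, T₀ ≤ T → ∀ a' : ℕ, a ≤ a' → Vi x (T ^ e) a' → Vi x T (2 * a'))
    (R : ℕ) (hR : 1 ≤ R) (hRT : T₀ ≤ R) (k : ℕ) : ∀ a' : ℕ, a ≤ a' → Vi x (R ^ e ^ k) a' →
      Vi x R (2 ^ k * a') := by
  induction k with
  | zero =>
    intro a' _ h
    simpa using h
  | succ k ih =>
    intro a' ha' h
    have h1 : T₀ ≤ R ^ e ^ k := by
      calc T₀ ≤ R := hRT
        _ = R ^ 1 := (pow_one R).symm
        _ ≤ R ^ e ^ k := Nat.pow_le_pow_right hR (Nat.one_le_pow _ _ he)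
    have h2 : Vi x (R ^ e ^ k) (2 * a') := by
      refine hstep _ h1 a' ha' ?_
      rw [← pow_mul, ← pow_succ]
      exact h
    have h3 := ih (2 * a') (by omega) h2
    have h4 : 2 ^ (k + 1) * a' = 2 ^ k * (2 * a') := by ring
    rw [h4]
    exact h3

/-- the bound that results from the absence of a small value -/
theorem of_not_Vi {n : ℕ} {x : Fin n → ℂ} {S α : ℕ} (h : ¬ Vi x S α) {s : Fin n → ℤ} (hs : s ≠ 0)
    (hb : ∀ i, |s i| ≤ (S : ℤ)) : Real.exp (-((S : ℝ) ^ α)) ≤ ‖cmb s x‖ := by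
  by_contra hcon
  exact h ⟨s, hs, hb, (not_le.1 hcon).le⟩

theorem core {n : ℕ} {x : Fin n → ℂ} (hx : LinearIndependent ℚ x) {e a T₀ : ℕ} (he : 1 ≤ e)
    (ha : 1 ≤ a)
    (hstep : ∀ T : ℕ, T₀ ≤ T → ∀ a' : ℕ, a ≤ a' → Vi x (T ^ e) a' → Vi x T (2 * a')) :
    MS (e * a) x := by
  set R : ℕ := max T₀ 2 with hRdef
  have hR2 : 2 ≤ R := le_max_right _ _
  have hRT : T₀ ≤ R := le_max_left _ _
  rcases Nat.lt_or_ge e 2 with he1 | he2
  · -- `e = 1`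
    obtain rfl : e = 1 := by omega
    have hno : ∀ S : ℕ, R ≤ S → ¬ Vi x S a := by
      intro S hS hV
      obtain ⟨α₀, hα⟩ := not_Vi hx S (hR2.trans hS)
      have h1 := iter (k := α₀) he hstep S (by omega) (hRT.trans hS) a le_rfl (by simpa using hV)
      refine hα _ ?_ h1
      calc α₀ ≤ 2 ^ α₀ := Nat.lt_two_pow_self.le
        _ = 2 ^ α₀ * 1 := (mul_one _).symm
        _ ≤ 2 ^ α₀ * a := Nat.mul_le_mul_left _ ha
    refine ⟨((R : ℝ) + 2) ^ a, one_le_pow₀ (by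
      have : (0 : ℝ) ≤ R := Nat.cast_nonneg _
      linarith), fun s hs S hS hb => ?_⟩
    set N : ℕ := max R ⌈S⌉₊ with hN
    have hNb : ∀ i, |s i| ≤ (N : ℤ) := by
      intro i
      have h1 : |(s i : ℝ)| ≤ (N : ℝ) := by
        refine (hb i).trans ((Nat.le_ceil S).trans ?_)
        exact_mod_cast le_max_right R ⌈S⌉₊
      exact_mod_cast h1
    have h2 := of_not_Vi (hno N (le_max_left _ _)) hs hNb
    refine le_trans (Real.exp_le_exp.2 (neg_le_neg ?_)) h2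
    rw [one_mul, ← mul_pow]
    refine pow_le_pow_left₀ (Nat.cast_nonneg _) ?_ a
    have hRn : (0 : ℝ) ≤ R := Nat.cast_nonneg _
    rw [hN, Nat.cast_max]
    refine max_le ?_ ?_
    · nlinarith
    · have h3 := (Nat.ceil_lt_add_one (show (0 : ℝ) ≤ S by linarith)).le
      nlinarith
  · -- `2 ≤ e`
    obtain ⟨k₀, hk₀⟩ := not_Vi hx R hR2
    have hno : ∀ k : ℕ, k₀ ≤ k → ¬ Vi x (R ^ e ^ k) a := by
      intro k hk hV
      have h1 := iter (k := k) he hstep R (by omega) hRT a le_rfl hV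
      refine hk₀ _ ?_ h1
      calc k₀ ≤ k := hk
        _ ≤ 2 ^ k := Nat.lt_two_pow_self.le
        _ = 2 ^ k * 1 := (mul_one _).symm
        _ ≤ 2 ^ k * a := Nat.mul_le_mul_left _ ha
    have hR1 : (1 : ℝ) ≤ R := by
      have : 1 ≤ R := by omega
      exact_mod_cast this
    refine ⟨((R : ℝ) ^ e ^ k₀) ^ a, one_le_pow₀ (one_le_pow₀ hR1), fun s hs S hS hb => ?_⟩
    -- the least `k ≥ k₀` with `S ≤ R ^ e ^ k`
    have hex : ∃ k : ℕ, k₀ ≤ k ∧ S ≤ (R : ℝ) ^ e ^ k := by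
      obtain ⟨N, hN⟩ := exists_nat_gt S
      refine ⟨max k₀ N, le_max_left _ _, hN.le.trans ?_⟩
      have h1 : N ≤ R ^ e ^ (max k₀ N) := by
        calc N ≤ max k₀ N := le_max_right _ _
          _ ≤ 2 ^ (max k₀ N) := Nat.lt_two_pow_self.le
          _ ≤ e ^ (max k₀ N) := Nat.pow_le_pow_left he2 _
          _ ≤ 2 ^ e ^ (max k₀ N) := Nat.lt_two_pow_self.le
          _ ≤ R ^ e ^ (max k₀ N) := Nat.pow_le_pow_left hR2 _
      exact_mod_cast h1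
    classical
    set k := Nat.find hex with hk
    obtain ⟨hk1, hk2⟩ := Nat.find_spec hex
    rw [← hk] at hk1 hk2
    have hkb : ∀ i, |s i| ≤ ((R ^ e ^ k : ℕ) : ℤ) := by
      intro i
      have h1 : |(s i : ℝ)| ≤ ((R ^ e ^ k : ℕ) : ℝ) := by
        push_cast
        exact (hb i).trans hk2
      exact_mod_cast h1
    have h2 := of_not_Vi (hno k hk1) hs hkb
    refine le_trans (Real.exp_le_exp.2 (neg_le_neg ?_)) h2
    push_cast
    rcases Nat.eq_or_lt_of_le hk1 with h3 | h3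
    · rw [← h3]
      have : (1 : ℝ) ≤ S ^ (e * a) := one_le_pow₀ hS
      have h4 : (0 : ℝ) ≤ ((R : ℝ) ^ e ^ k₀) ^ a := by positivity
      nlinarith
    · obtain ⟨j, hj⟩ : ∃ j, k = j + 1 := ⟨k - 1, by omega⟩
      have h4 : (R : ℝ) ^ e ^ j < S := by
        by_contra hcon
        exact Nat.find_min hex (m := j) (by rw [← hk]; omega) ⟨by omega, not_lt.1 hcon⟩
      rw [hj, pow_succ, pow_mul, ← pow_mul _ e a]
      have h5 : ((R : ℝ) ^ e ^ j) ^ (e * a) ≤ S ^ (e * a) :=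
        pow_le_pow_left₀ (by positivity) h4.le _
      have h6 : (1 : ℝ) ≤ ((R : ℝ) ^ e ^ k₀) ^ a := one_le_pow₀ (one_le_pow₀ hR1)
      have h7 : (0 : ℝ) ≤ S ^ (e * a) := by positivity
      nlinarith

end I_MeasE

open I_MeasE in
theorem MeasE_pf (h1 : S_StepM) : S_MeasE := by
  intro Q m hm
  obtain ⟨e, a, n₀, he, ha, H⟩ := h1 Q m hm
  refine ⟨e * a, n₀, fun τ μ b hN hFT hK n hn x hx hNT hTr => ?_⟩
  obtain ⟨T₀, hT₀⟩ := H τ μ b hN hFT hK n hn x hx hNT hTr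
  refine core hx he ha (T₀ := T₀) fun T hT a' ha' hV => ?_
  obtain ⟨s, hs, hb, hle⟩ := hV
  obtain ⟨s', hs', hb', hle'⟩ := hT₀ T hT a' ha' ⟨s, hs, hb, by
    have h2 : ((T ^ e : ℕ) : ℝ) ^ a' = (T : ℝ) ^ (e * a') := by
      push_cast
      rw [pow_mul]
    rw [h2] at hle
    exact hle⟩
  exact ⟨s', hs', hb', hle'⟩

end Pool.Agent.Work.MP_8da9ea_nt.EB
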