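import Pool.Agent.Work.MP_8da9ea_nt.EB.StmtsT
import Pool.Agent.Work.MP_8da9ea_nt.Bd.B01

/-!
# Elliptic block, item Op1: the norm of a translate in one variable

We work in `R[y]/(y² - f(x_j))` (`QuadraticAlgebra R f 0`), `R` the polynomial ring, and take the norm
of the numerator of `F(.., ℘(v + h), ..)`.
-/

set_option autoImplicit false

namespace Pool.Agent.Work.MP_8da9ea_nt.EB

open MvPolynomial Pool.Agent.Work.MP_327059_nt.GL Pool.Agent.Work.MP_8da9ea_nt.S

namespace I_Op1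

variable {m : ℕ}

/-- the polynomial ring -/
abbrev RR (m : ℕ) := MvPolynomial (Fin m) ℂ

/-- weights: twice the degree in `x_i`; `y` has the weight `e` -/
def W {f : RR m} (i : Fin m) (e : ℕ) (z : QuadraticAlgebra (RR m) f 0) (n : ℕ) : Prop :=
  2 * z.re.degreeOf i ≤ n ∧ (z.im = 0 ∨ 2 * z.im.degreeOf i + e ≤ n)

lemma W_mono {f : RR m} {i : Fin m} {e : ℕ} {z : QuadraticAlgebra (RR m) f 0} {n k : ℕ}
    (h : W i e z n) (hk : n ≤ k) : W i e z k :=
  ⟨h.1.trans hk, h.2.imp id fun h' => h'.trans hk⟩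

lemma W_add {f : RR m} {i : Fin m} {e : ℕ} {z w : QuadraticAlgebra (RR m) f 0} {n : ℕ}
    (hz : W i e z n) (hw : W i e w n) : W i e (z + w) n := by
  obtain ⟨h1, h2⟩ := hz
  obtain ⟨h3, h4⟩ := hw
  constructor
  · rw [QuadraticAlgebra.re_add]
    have := degreeOf_add_le i z.re w.re
    omega
  · rw [QuadraticAlgebra.im_add]
    rcases h2 with h2 | h2 <;> rcases h4 with h4 | h4
    · left; rw [h2, h4, add_zero]
    · right; rw [h2, zero_add]; exact h4
    · right; rw [h4, add_zero]; exact h2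
    · right
      have := degreeOf_add_le i z.im w.im
      omega

lemma W_zero {f : RR m} {i : Fin m} {e : ℕ} {n : ℕ} :
    W i e (0 : QuadraticAlgebra (RR m) f 0) n := by
  constructor
  · rw [QuadraticAlgebra.re_zero, degreeOf_zero]; omega
  · left; rfl

lemma W_sum {f : RR m} {i : Fin m} {e : ℕ} {n : ℕ} {ι : Type} (s : Finset ι)
    (g : ι → QuadraticAlgebra (RR m) f 0) (h : ∀ k ∈ s, W i e (g k) n) :
    W i e (∑ k ∈ s, g k) n := by
  classical
  induction s using Finset.induction_on with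
  | empty => rw [Finset.sum_empty]; exact W_zero
  | insert a s ha ih =>
    rw [Finset.sum_insert ha]
    exact W_add (h a (Finset.mem_insert_self _ _))
      (ih fun k hk => h k (Finset.mem_insert_of_mem hk))

lemma W_mul {f : RR m} {i : Fin m} {e : ℕ} (hf : f.degreeOf i ≤ e)
    {z w : QuadraticAlgebra (RR m) f 0} {n k : ℕ}
    (hz : W i e z n) (hw : W i e w k) : W i e (z * w) (n + k) := by
  obtain ⟨h1, h2⟩ := hz
  obtain ⟨h3, h4⟩ := hw
  constructor
  · rw [QuadraticAlgebra.re_mul]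
    have a1 := degreeOf_add_le i (z.re * w.re) (f * z.im * w.im)
    have a2 := degreeOf_mul_le i z.re w.re
    rcases h2 with h2 | h2
    · rw [h2, mul_zero, zero_mul, add_zero]; omega
    rcases h4 with h4 | h4
    · rw [h4, mul_zero, add_zero]; omega
    have a3 := degreeOf_mul_le i (f * z.im) w.im
    have a4 := degreeOf_mul_le i f z.im
    omega
  · rw [QuadraticAlgebra.im_mul, zero_mul, zero_mul, add_zero]
    rcases h2 with h2 | h2 <;> rcases h4 with h4 | h4
    · left; rw [h2, h4, mul_zero, zero_mul, add_zero]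
    · right; rw [h2, zero_mul, add_zero]
      have a2 := degreeOf_mul_le i z.re w.im
      omega
    · right; rw [h4, mul_zero, zero_add]
      have a2 := degreeOf_mul_le i z.im w.re
      omega
    · right
      have a1 := degreeOf_add_le i (z.re * w.im) (z.im * w.re)
      have a2 := degreeOf_mul_le i z.re w.im
      have a3 := degreeOf_mul_le i z.im w.re
      omega

lemma W_one {f : RR m} {i : Fin m} {e : ℕ} :
    W i e (1 : QuadraticAlgebra (RR m) f 0) 0 := by
  constructor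
  · show 2 * (1 : RR m).degreeOf i ≤ 0
    rw [degreeOf_one]
  · left; rfl

lemma W_pow {f : RR m} {i : Fin m} {e : ℕ} (hf : f.degreeOf i ≤ e)
    {z : QuadraticAlgebra (RR m) f 0} {n : ℕ} (hz : W i e z n) (k : ℕ) :
    W i e (z ^ k) (k * n) := by
  induction k with
  | zero => rw [pow_zero, zero_mul]; exact W_one
  | succ k ih =>
    rw [pow_succ, add_mul, one_mul]
    exact W_mul hf ih hz

lemma W_norm {f : RR m} {i : Fin m} {e : ℕ} (hf : f.degreeOf i ≤ e)
    {z : QuadraticAlgebra (RR m) f 0} {n : ℕ} (hz : W i e z n) :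
    (QuadraticAlgebra.norm z).degreeOf i ≤ n := by
  obtain ⟨h1, h2⟩ := hz
  rw [QuadraticAlgebra.norm_def]
  rw [zero_mul, zero_mul, add_zero]
  have a2 := degreeOf_mul_le i z.re z.re
  rcases h2 with h2 | h2
  · rw [h2, mul_zero, sub_zero]; omega
  have a1 := degreeOf_add_le i (z.re * z.re) (-(f * z.im * z.im))
  rw [← sub_eq_add_neg] at a1
  have a3 := degreeOf_mul_le i (f * z.im) z.im
  have a4 := degreeOf_mul_le i f z.im
  have a5 : (-(f * z.im * z.im)).degreeOf i = (f * z.im * z.im).degreeOf i := by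
    rw [degreeOf_eq_sup, degreeOf_eq_sup, support_neg]
  omega

/-- evaluation at a point `p` and a root `y` of `y² = f(p)` -/
noncomputable def ev (f : RR m) (p : Fin m → ℂ) (y : ℂ) (hy : y ^ 2 = eval p f) :
    QuadraticAlgebra (RR m) f 0 →+* ℂ where
  toFun z := eval p z.re + eval p z.im * y
  map_one' := by
    show eval p 1 + eval p 0 * y = 1
    rw [map_one, map_zero]; ring
  map_zero' := by
    show eval p 0 + eval p 0 * y = 0
    rw [map_zero]; ring
  map_add' z w := by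
    rw [QuadraticAlgebra.re_add, QuadraticAlgebra.im_add, map_add, map_add]; ring
  map_mul' z w := by
    rw [QuadraticAlgebra.re_mul, QuadraticAlgebra.im_mul]
    simp only [map_add, map_mul, map_zero]
    linear_combination (-(eval p z.im * eval p w.im)) * hy

lemma ev_apply (f : RR m) (p : Fin m → ℂ) (y : ℂ) (hy : y ^ 2 = eval p f)
    (z : QuadraticAlgebra (RR m) f 0) : ev f p y hy z = eval p z.re + eval p z.im * y := rfl

lemma ev_norm (f : RR m) (p : Fin m → ℂ) (y : ℂ) (hy : y ^ 2 = eval p f)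
    (hy' : (-y) ^ 2 = eval p f) (z : QuadraticAlgebra (RR m) f 0) :
    eval p (QuadraticAlgebra.norm z) = ev f p y hy z * ev f p (-y) hy' z := by
  rw [QuadraticAlgebra.norm_def, ev_apply, ev_apply]
  simp only [map_add, map_sub, map_mul, map_zero]
  linear_combination (eval p z.im * eval p z.im) * hy

/-- the homogenised substitution `x_j = A / B` -/
noncomputable def Hs {f : RR m} (A B : QuadraticAlgebra (RR m) f 0) (j : Fin m) (F : RR m) :
    QuadraticAlgebra (RR m) f 0 :=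
  ∑ d ∈ F.support, algebraMap (RR m) _ (C (coeff d F) * ∏ i ∈ Finset.univ.erase j, X i ^ d i) *
    A ^ d j * B ^ (F.degreeOf j - d j)

lemma ev_Hs {f : RR m} (A B : QuadraticAlgebra (RR m) f 0) (j : Fin m) (F : RR m)
    (p : Fin m → ℂ) (y : ℂ) (hy : y ^ 2 = eval p f) (U : ℂ)
    (hA : ev f p y hy A = ev f p y hy B * U) :
    ev f p y hy (Hs A B j F) = ev f p y hy B ^ F.degreeOf j * eval (Function.update p j U) F := by
  rw [Hs, map_sum, eval_eq', Finset.mul_sum]
  refine Finset.sum_congr rfl fun d hd => ?_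
  have hd' : d j ≤ F.degreeOf j := le_degreeOf_of_mem_support j hd
  have h1 : ∏ i, Function.update p j U i ^ d i = U ^ d j * ∏ i ∈ Finset.univ.erase j, p i ^ d i := by
    rw [← Finset.mul_prod_erase Finset.univ _ (Finset.mem_univ j), Function.update_self]
    congr 1
    refine Finset.prod_congr rfl fun i hi => ?_
    rw [Function.update_of_ne (Finset.ne_of_mem_erase hi)]
  have h2 : ev f p y hy (algebraMap (RR m) _
      (C (coeff d F) * ∏ i ∈ Finset.univ.erase j, X i ^ d i)) =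
      coeff d F * ∏ i ∈ Finset.univ.erase j, p i ^ d i := by
    rw [ev_apply, QuadraticAlgebra.algebraMap_re, QuadraticAlgebra.algebraMap_im, map_zero,
      zero_mul, add_zero, map_mul, eval_C, map_prod]
    congr 1
    refine Finset.prod_congr rfl fun i _ => ?_
    rw [map_pow, eval_X]
  have h3 : ev f p y hy B ^ F.degreeOf j =
      ev f p y hy B ^ d j * ev f p y hy B ^ (F.degreeOf j - d j) := by
    rw [← pow_add, Nat.add_sub_cancel' hd']
  rw [map_mul, map_mul, map_pow, map_pow, h1, h2, hA, h3, mul_pow]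
  ring

lemma W_Hs {f : RR m} {A B : QuadraticAlgebra (RR m) f 0} {j : Fin m} (F : RR m) {i : Fin m}
    {e n k : ℕ} (hf : f.degreeOf i ≤ e) (hA : W i e A n) (hB : W i e B n)
    (hk : ∀ d ∈ F.support, 2 * (∏ l ∈ Finset.univ.erase j, (X l : RR m) ^ d l).degreeOf i ≤ k) :
    W i e (Hs A B j F) (k + F.degreeOf j * n) := by
  refine W_sum _ _ fun d hd => ?_
  have hd' : d j ≤ F.degreeOf j := le_degreeOf_of_mem_support j hd
  have h1 : W i e (algebraMap (RR m) (QuadraticAlgebra (RR m) f 0)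
      (C (coeff d F) * ∏ i ∈ Finset.univ.erase j, X i ^ d i)) k := by
    constructor
    · rw [QuadraticAlgebra.algebraMap_re]
      have := degreeOf_C_mul_le (∏ l ∈ Finset.univ.erase j, (X l : RR m) ^ d l) i (coeff d F)
      have := hk d hd
      omega
    · left; rw [QuadraticAlgebra.algebraMap_im]
  have h2 := W_mul hf (W_mul hf h1 (W_pow hf hA (d j))) (W_pow hf hB (F.degreeOf j - d j))
  refine W_mono h2 (le_of_eq ?_)
  rw [add_assoc, ← add_mul, Nat.add_sub_cancel' hd']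

/-- `f(x_j) = 4 x_j³ - g₂ x_j - g₃` -/
noncomputable def ff (g2 g3 : ℂ) (j : Fin m) : RR m := C 4 * X j ^ 3 - C g2 * X j - C g3

/-- the numerator of `℘(v + h)` -/
noncomputable def AA (g2 g3 a b : ℂ) (j : Fin m) : QuadraticAlgebra (RR m) (ff g2 g3 j) 0 :=
  ⟨C (4 * a) * X j ^ 2 + C (4 * a ^ 2 - g2) * X j - C (g2 * a + 2 * g3), C (-2 * b)⟩

/-- the denominator of `℘(v + h)` -/
noncomputable def BB (g2 g3 a : ℂ) (j : Fin m) : QuadraticAlgebra (RR m) (ff g2 g3 j) 0 :=
  ⟨C 4 * (X j - C a) ^ 2, 0⟩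

lemma deg_ff_self (g2 g3 : ℂ) (j : Fin m) : (ff g2 g3 j).degreeOf j ≤ 3 := by
  have a1 := degreeOf_add_le j (C 4 * X j ^ 3 - C g2 * X j : RR m) (-C g3)
  have a2 := degreeOf_add_le j (C 4 * X j ^ 3 : RR m) (-(C g2 * X j))
  rw [← sub_eq_add_neg] at a1 a2
  have a3 := degreeOf_C_mul_le (X j ^ 3 : RR m) j 4
  have a4 := degreeOf_X_self_pow (R := ℂ) j 3
  have a5 : (-(C g2 * X j) : RR m) = C (-g2) * X j := by rw [map_neg]; ring
  have a6 := degreeOf_C_mul_le (X j : RR m) j (-g2)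
  have a7 := degreeOf_X_self (R := ℂ) j
  have a8 : (-C g3 : RR m) = C (-g3) := by rw [map_neg]
  have a9 := degreeOf_C (-g3) j
  rw [a8, a9] at a1
  rw [a5] at a2
  rw [ff]
  omega

lemma deg_of_X {i j : Fin m} (hij : i ≠ j) (p : Polynomial ℂ) :
    (Polynomial.aeval (X j : RR m) p).degreeOf i = 0 := by
  rw [Polynomial.aeval_eq_sum_range]
  refine Nat.le_zero.1 ((degreeOf_sum_le i _ _).trans ?_)
  refine Finset.sup_le fun k _ => ?_
  rw [smul_eq_C_mul]
  exact (degreeOf_C_mul_le _ i _).trans (le_of_eq (degreeOf_X_pow_of_ne k hij))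

lemma deg_ff_ne (g2 g3 : ℂ) {i j : Fin m} (hij : i ≠ j) : (ff g2 g3 j).degreeOf i ≤ 0 := by
  have h := deg_of_X hij (Polynomial.C 4 * Polynomial.X ^ 3 - Polynomial.C g2 * Polynomial.X -
    Polynomial.C g3)
  simp only [map_sub, map_mul, map_pow, Polynomial.aeval_X, Polynomial.aeval_C,
    MvPolynomial.algebraMap_eq] at h
  exact h.le

lemma W_AA_ne (g2 g3 a b : ℂ) {i j : Fin m} (hij : i ≠ j) : W i 0 (AA g2 g3 a b j) 0 := by
  have h := deg_of_X hij (Polynomial.C (4 * a) * Polynomial.X ^ 2 +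
    Polynomial.C (4 * a ^ 2 - g2) * Polynomial.X - Polynomial.C (g2 * a + 2 * g3))
  simp only [map_sub, map_add, map_mul, map_pow, Polynomial.aeval_X, Polynomial.aeval_C,
    MvPolynomial.algebraMap_eq] at h
  constructor
  · have h' : (AA g2 g3 a b j).re.degreeOf i = 0 := by
      rw [AA]
      simp only [map_sub, map_add, map_mul, map_pow]
      exact h
    omega
  · right
    have h' : (AA g2 g3 a b j).im.degreeOf i = 0 := degreeOf_C _ _
    omega

lemma W_BB_ne (g2 g3 a : ℂ) {i j : Fin m} (hij : i ≠ j) : W i 0 (BB g2 g3 a j) 0 := by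
  have h := deg_of_X hij (Polynomial.C 4 * (Polynomial.X - Polynomial.C a) ^ 2)
  simp only [map_sub, map_mul, map_pow, Polynomial.aeval_X, Polynomial.aeval_C,
    MvPolynomial.algebraMap_eq] at h
  constructor
  · have h' : (BB g2 g3 a j).re.degreeOf i = 0 := h
    omega
  · left; rfl

lemma W_AA_self (g2 g3 a b : ℂ) (j : Fin m) : W j 3 (AA g2 g3 a b j) 4 := by
  constructor
  · have a1 := degreeOf_add_le j (C (4 * a) * X j ^ 2 + C (4 * a ^ 2 - g2) * X j : RR m)
      (-C (g2 * a + 2 * g3))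
    have a2 := degreeOf_add_le j (C (4 * a) * X j ^ 2 : RR m) (C (4 * a ^ 2 - g2) * X j)
    rw [← sub_eq_add_neg] at a1
    have a3 := degreeOf_C_mul_le (X j ^ 2 : RR m) j (4 * a)
    have a4 := degreeOf_X_self_pow (R := ℂ) j 2
    have a6 := degreeOf_C_mul_le (X j : RR m) j (4 * a ^ 2 - g2)
    have a7 := degreeOf_X_self (R := ℂ) j
    have a8 : (-C (g2 * a + 2 * g3) : RR m) = C (-(g2 * a + 2 * g3)) := by rw [map_neg]
    have a9 := degreeOf_C (-(g2 * a + 2 * g3)) j
    rw [a8, a9] at a1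
    show 2 * (C (4 * a) * X j ^ 2 + C (4 * a ^ 2 - g2) * X j - C (g2 * a + 2 * g3) : RR m).degreeOf
      j ≤ 4
    omega
  · right
    have h' : (AA g2 g3 a b j).im.degreeOf j = 0 := degreeOf_C _ _
    omega

lemma W_BB_self (g2 g3 a : ℂ) (j : Fin m) : W j 3 (BB g2 g3 a j) 4 := by
  constructor
  · have a1 := degreeOf_C_mul_le ((X j - C a : RR m) ^ 2) j 4
    have a2 := degreeOf_pow_le j (X j - C a : RR m) 2
    have a3 := degreeOf_add_le j (X j : RR m) (-C a)
    rw [← sub_eq_add_neg] at a3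
    have a8 : (-C a : RR m) = C (-a) := by rw [map_neg]
    have a9 := degreeOf_C (-a) j
    rw [a8, a9, degreeOf_X_self] at a3
    show 2 * (C 4 * (X j - C a) ^ 2 : RR m).degreeOf j ≤ 4
    omega
  · left; rfl

variable {τ : ℂ}

/-- The addition formula, also at `℘(v) = ℘(h)`. -/
lemma add_formula (hτ : 0 < τ.im) {v h : ℂ} (hv : v ∉ Lam τ) (hh : h ∉ Lam τ)
    (hvh : v + h ∉ Lam τ) :
    4 * wp 1 τ h * wp 1 τ v ^ 2 + (4 * wp 1 τ h ^ 2 - gg2 τ) * wp 1 τ v -
      (gg2 τ * wp 1 τ h + 2 * gg3 τ) + (-2 * wpd τ h) * wpd τ v =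
      4 * (wp 1 τ v - wp 1 τ h) ^ 2 * wp 1 τ (v + h) := by
  have hs := Fx.zt_add_sq hτ hv hh hvh
  have hl1 := Fx.zt_add_lin hτ hv hh hvh
  have hl2 := Fx.zt_add_lin hτ hh hv (by rwa [add_comm])
  rw [add_comm h v] at hl2
  have hy := wpd_sq hτ hv
  have hb := wpd_sq hτ hh
  set s := zt 1 τ (v + h) - zt 1 τ v - zt 1 τ h with hsd
  have e2 : zt 1 τ (v + h) - zt 1 τ h - zt 1 τ v = s := by rw [hsd]; ring
  rw [e2] at hl2
  have e1 : wpd τ v - wpd τ h = 2 * s * (wp 1 τ v - wp 1 τ h) := by linear_combination hl2 - hl1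
  have e3 : (wpd τ v - wpd τ h) ^ 2 =
      4 * (wp 1 τ v + wp 1 τ h + wp 1 τ (v + h)) * (wp 1 τ v - wp 1 τ h) ^ 2 := by
    rw [e1, ← hs]; ring
  linear_combination e3 - hy - hb

lemma neg_notMem {z : ℂ} (h : z ∉ Lam τ) : -z ∉ Lam τ := fun h' => h (neg_mem_Lam.1 h')

lemma fib_countable (hτ : 0 < τ.im) (r : ℂ) : {w : ℂ | w ∉ Lam τ ∧ wp 1 τ w = r}.Countable := by
  by_cases hne : ∃ u, u ∉ Lam τ ∧ wp 1 τ u = r
  · obtain ⟨u, hu1, hu2⟩ := hne
    refine (((Lam_countable τ).preimage (f := fun w => w - u) (sub_left_injective)).union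
      ((Lam_countable τ).preimage (f := fun w => w + u) (add_left_injective u))).mono ?_
    rintro w ⟨h1, h2⟩
    exact Fx.wp_inj hτ h1 hu1 (h2.trans hu2.symm)
  · refine Set.countable_empty.mono ?_
    rintro w ⟨h1, h2⟩
    exact hne ⟨w, h1, h2⟩

/-- a generic translate -/
lemma exists_gen (hτ : 0 < τ.im) (h : ℂ) {Z : Set ℂ} (hZ : Z.Finite) :
    ∃ v, v ∉ Lam τ ∧ v + h ∉ Lam τ ∧ v - h ∉ Lam τ ∧ wp 1 τ (v + h) ∉ Z ∧ wp 1 τ (v - h) ∉ Z := by
  have hc : (⋃ r ∈ Z, {w : ℂ | w ∉ Lam τ ∧ wp 1 τ w = r}).Countable :=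
    hZ.countable.biUnion fun r _ => fib_countable hτ r
  have hb := (((Lam_countable τ).union ((Lam_countable τ).preimage (f := fun w => w + h)
    (add_left_injective h))).union ((Lam_countable τ).preimage (f := fun w => w - h)
    (sub_left_injective))).union ((hc.preimage (f := fun w => w + h) (add_left_injective h)).union
    (hc.preimage (f := fun w => w - h) (sub_left_injective)))
  obtain ⟨v, hv⟩ := (hb.dense_compl ℝ).nonempty
  simp only [Set.mem_compl_iff, Set.mem_union, Set.mem_preimage, Set.mem_iUnion, not_or] at hv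
  obtain ⟨⟨⟨h1, h2⟩, h3⟩, h4, h5⟩ := hv
  refine ⟨v, h1, h2, h3, fun hz => h4 ⟨_, hz, h2, rfl⟩, fun hz => h5 ⟨_, hz, h3, rfl⟩⟩

/-- the zeros on a line parallel to an axis -/
lemma finite_zeros {F : RR m} {p : Fin m → ℂ} (hp : eval p F ≠ 0) (j : Fin m) :
    {t : ℂ | eval (Function.update p j t) F = 0}.Finite := by
  classical
  set q : Polynomial ℂ := aeval (fun i => if i = j then Polynomial.X else Polynomial.C (p i)) F
    with hq
  have hev : ∀ t, q.eval t = eval (Function.update p j t) F := by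
    intro t
    have h1 : (Polynomial.evalRingHom t).comp
        ((aeval (fun i => if i = j then (Polynomial.X : Polynomial ℂ) else Polynomial.C (p i)) :
          RR m →ₐ[ℂ] Polynomial ℂ) : RR m →+* Polynomial ℂ) = eval (Function.update p j t) := by
      refine MvPolynomial.ringHom_ext (fun r => ?_) fun i => ?_
      · simp
      · by_cases hi : i = j
        · subst hi; simp
        · simp [hi]
    exact congrArg (fun g => g F) h1
  have hq0 : q ≠ 0 := by
    intro h0
    apply hp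
    have := hev (p j)
    rw [h0, Polynomial.eval_zero, Function.update_eq_self] at this
    exact this.symm
  refine (Polynomial.finite_setOfPred_isRoot hq0).subset ?_
  intro t ht
  show q.eval t = 0
  rw [hev t]
  exact ht

lemma wp_per (hτ : 0 < τ.im) (z : ℂ) {l : ℂ} (hl : l ∈ Lam τ) : wp 1 τ (z + l) = wp 1 τ z :=
  Fx.ef_add_per hτ true z hl

lemma eval_ff (g2 g3 : ℂ) (j : Fin m) (p : Fin m → ℂ) :
    eval p (ff g2 g3 j) = 4 * p j ^ 3 - g2 * p j - g3 := by
  simp [ff]

lemma ev_AA (g2 g3 a b : ℂ) (j : Fin m) (p : Fin m → ℂ) (y : ℂ)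
    (hy : y ^ 2 = eval p (ff g2 g3 j)) : ev _ p y hy (AA g2 g3 a b j) =
      4 * a * p j ^ 2 + (4 * a ^ 2 - g2) * p j - (g2 * a + 2 * g3) + (-2 * b) * y := by
  rw [ev_apply, AA]
  simp

lemma ev_BB (g2 g3 a : ℂ) (j : Fin m) (p : Fin m → ℂ) (y : ℂ)
    (hy : y ^ 2 = eval p (ff g2 g3 j)) : ev _ p y hy (BB g2 g3 a j) = 4 * (p j - a) ^ 2 := by
  rw [ev_apply, BB]
  simp

/-- The two values of the numerator. -/
lemma key (hτ : 0 < τ.im) {h : ℂ} (hh : h ∉ Lam τ) (j : Fin m) (F : RR m) (x : Fin m → ℂ) {v : ℂ}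
    (hv : v ∉ Lam τ) (hvh : v + h ∉ Lam τ) :
    ∃ c : ℂ, (v - h ∉ Lam τ →
      eval (Function.update x j (wp 1 τ v)) (QuadraticAlgebra.norm
        (Hs (AA (gg2 τ) (gg3 τ) (wp 1 τ h) (wpd τ h) j) (BB (gg2 τ) (gg3 τ) (wp 1 τ h) j) j F)) =
      (4 * (wp 1 τ v - wp 1 τ h) ^ 2) ^ F.degreeOf j *
        eval (Function.update x j (wp 1 τ (v + h))) F *
      ((4 * (wp 1 τ v - wp 1 τ h) ^ 2) ^ F.degreeOf j *
        eval (Function.update x j (wp 1 τ (v - h))) F)) ∧
      eval (Function.update x j (wp 1 τ v)) (QuadraticAlgebra.norm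
        (Hs (AA (gg2 τ) (gg3 τ) (wp 1 τ h) (wpd τ h) j) (BB (gg2 τ) (gg3 τ) (wp 1 τ h) j) j F)) =
      (4 * (wp 1 τ v - wp 1 τ h) ^ 2) ^ F.degreeOf j *
        eval (Function.update x j (wp 1 τ (v + h))) F * c := by
  set p := Function.update x j (wp 1 τ v) with hp
  have hpj : p j = wp 1 τ v := by rw [hp, Function.update_self]
  have hupd : ∀ t : ℂ, Function.update p j t = Function.update x j t := by
    intro t; rw [hp, Function.update_idem]
  have hy : wpd τ v ^ 2 = eval p (ff (gg2 τ) (gg3 τ) j) := by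
    rw [eval_ff, hpj, wpd_sq hτ hv]
  have hy' : (-wpd τ v) ^ 2 = eval p (ff (gg2 τ) (gg3 τ) j) := by
    rw [← hy]; ring
  have h1 := ev_Hs (AA (gg2 τ) (gg3 τ) (wp 1 τ h) (wpd τ h) j) (BB (gg2 τ) (gg3 τ) (wp 1 τ h) j) j F
    p (wpd τ v) hy (wp 1 τ (v + h)) (by
      rw [ev_AA, ev_BB, hpj]
      exact add_formula hτ hv hh hvh)
  rw [ev_BB, hpj, hupd] at h1
  refine ⟨ev _ p (-wpd τ v) hy' (Hs (AA (gg2 τ) (gg3 τ) (wp 1 τ h) (wpd τ h) j)
    (BB (gg2 τ) (gg3 τ) (wp 1 τ h) j) j F), fun hvh' => ?_, ?_⟩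
  rotate_left
  · rw [ev_norm _ p _ hy hy', h1]
  · have hneg : v + -h ∉ Lam τ := by rwa [← sub_eq_add_neg]
    have h2 := ev_Hs (AA (gg2 τ) (gg3 τ) (wp 1 τ h) (wpd τ h) j) (BB (gg2 τ) (gg3 τ) (wp 1 τ h) j) j
      F p (-wpd τ v) hy' (wp 1 τ (v - h)) (by
        rw [ev_AA, ev_BB, hpj]
        have h3 := add_formula hτ hv (neg_notMem hh) hneg
        rw [wp_neg, wpd_neg hτ, ← sub_eq_add_neg] at h3
        rw [← h3]
        ring)
    rw [ev_BB, hpj, hupd] at h2
    rw [ev_norm _ p _ hy hy', h1, h2]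

end I_Op1

open I_Op1 in
theorem Op1_pf : S_Op1 := by
  intro τ hτ m j h F hF
  by_cases hh : h ∈ Lam τ
  · refine ⟨F, hF, fun i => by omega, ?_, ?_⟩
    · intro x v _ _ h0
      rwa [wp_per hτ v hh] at h0
    · intro x v _ _ _ h0
      left
      rwa [wp_per hτ v hh]
  refine ⟨QuadraticAlgebra.norm
    (Hs (AA (gg2 τ) (gg3 τ) (wp 1 τ h) (wpd τ h) j) (BB (gg2 τ) (gg3 τ) (wp 1 τ h) j) j F),
    ?_, ?_, ?_, ?_⟩
  · intro h0
    obtain ⟨x, hx⟩ : ∃ x, eval x F ≠ 0 := by
      by_contra hcon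
      push Not at hcon
      exact hF (MvPolynomial.funext fun x => by rw [hcon x, map_zero])
    obtain ⟨v, hv1, hv2, hv3, hv4, hv5⟩ := exists_gen hτ h (finite_zeros hx j)
    obtain ⟨c, hk, -⟩ := key hτ hh j F x hv1 hv2
    have h1 := hk hv3
    rw [h0, map_zero] at h1
    have hne : wp 1 τ v - wp 1 τ h ≠ 0 := by
      intro h2
      rcases Fx.wp_inj hτ hv1 hh (sub_eq_zero.1 h2) with h3 | h3
      · exact hv3 h3
      · exact hv2 h3
    have hne' : (4 * (wp 1 τ v - wp 1 τ h) ^ 2) ^ F.degreeOf j ≠ 0 :=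
      pow_ne_zero _ (mul_ne_zero (by norm_num) (pow_ne_zero 2 hne))
    exact (mul_ne_zero (mul_ne_zero hne' hv4) (mul_ne_zero hne' hv5)) h1.symm
  · intro i
    by_cases hij : i = j
    · subst hij
      have h1 := W_norm (deg_ff_self (gg2 τ) (gg3 τ) i)
        (W_Hs (j := i) F (deg_ff_self (gg2 τ) (gg3 τ) i) (W_AA_self (gg2 τ) (gg3 τ) (wp 1 τ h) (wpd τ h) i)
          (W_BB_self (gg2 τ) (gg3 τ) (wp 1 τ h) i) (k := 0) (by
            intro d hd
            have h2 := degreeOf_prod_le i (Finset.univ.erase i) fun l => (X l : RR m) ^ d l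
            have h3 : ∑ l ∈ Finset.univ.erase i, ((X l : RR m) ^ d l).degreeOf i = 0 :=
              Finset.sum_eq_zero fun l hl =>
                degreeOf_X_pow_of_ne _ (Finset.ne_of_mem_erase hl).symm
            omega))
      omega
    · have h1 := W_norm (deg_ff_ne (gg2 τ) (gg3 τ) hij)
        (W_Hs (j := j) F (deg_ff_ne (gg2 τ) (gg3 τ) hij) (W_AA_ne (gg2 τ) (gg3 τ) (wp 1 τ h) (wpd τ h) hij)
          (W_BB_ne (gg2 τ) (gg3 τ) (wp 1 τ h) hij) (k := 2 * F.degreeOf i) (by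
            intro d hd
            have h2 := degreeOf_prod_le i (Finset.univ.erase j) fun l => (X l : RR m) ^ d l
            have h3 : ∑ l ∈ Finset.univ.erase j, ((X l : RR m) ^ d l).degreeOf i = d i := by
              rw [Finset.sum_eq_single i]
              · exact degreeOf_X_self_pow i (d i)
              · intro l _ hl
                exact degreeOf_X_pow_of_ne _ hl.symm
              · intro hn
                exact absurd (Finset.mem_erase.2 ⟨hij, Finset.mem_univ i⟩) hn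
            have h4 : d i ≤ F.degreeOf i := le_degreeOf_of_mem_support i hd
            omega))
      omega
  · intro x v hv hvh h0
    obtain ⟨c, -, hk⟩ := key hτ hh j F x hv hvh
    rw [hk, h0, mul_zero, zero_mul]
  · intro x v hv hvh hvh' h0
    obtain ⟨c, hk, -⟩ := key hτ hh j F x hv hvh
    have h1 := hk hvh'
    rw [h0] at h1
    have hne : wp 1 τ v - wp 1 τ h ≠ 0 := by
      intro h2
      rcases Fx.wp_inj hτ hv hh (sub_eq_zero.1 h2) with h3 | h3
      · exact hvh' h3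
      · exact hvh h3
    have hne' : (4 * (wp 1 τ v - wp 1 τ h) ^ 2) ^ F.degreeOf j ≠ 0 :=
      pow_ne_zero _ (mul_ne_zero (by norm_num) (pow_ne_zero 2 hne))
    rcases mul_eq_zero.1 h1.symm with h2 | h2
    · left; exact (mul_eq_zero.1 h2).resolve_left hne'
    · right; exact (mul_eq_zero.1 h2).resolve_left hne'

end Pool.Agent.Work.MP_8da9ea_nt.EB
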