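import Pool.Agent.Work.MP_8da9ea_nt.EB.StmtsT

/-!
# Elliptic block, item OpA: the norm of a translate in all variables
-/

set_option autoImplicit false

namespace Pool.Agent.Work.MP_8da9ea_nt.EB

open MvPolynomial Pool.Agent.Work.MP_8da9ea_nt.S

namespace I_OpA

/-- Partial shift of the coordinates in `T`. -/
noncomputable def pvec {n : ℕ} (T : Finset (Fin n)) (a x : Fin n → ℂ) : Fin n → ℂ :=
  fun i => if i ∈ T then a i else x i

theorem pvec_empty {n : ℕ} (a x : Fin n → ℂ) : pvec ∅ a x = x := by
  funext i
  simp [pvec]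

theorem pvec_insert {n : ℕ} {T : Finset (Fin n)} {j : Fin n} (hj : j ∉ T) (a x : Fin n → ℂ) :
    pvec (insert j T) a x = pvec T a (Function.update x j (a j)) := by
  funext i
  unfold pvec
  by_cases hij : i = j
  · subst hij
    simp [hj]
  · simp [hij]

theorem pvec_update {n : ℕ} {T : Finset (Fin n)} {j : Fin n} (hj : j ∉ T) (a x : Fin n → ℂ)
    (c : ℂ) : pvec T a (Function.update x j c) = Function.update (pvec (insert j T) a x) j c := by
  funext i
  unfold pvec
  by_cases hij : i = j
  · subst hij
    simp [hj]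
  · simp [hij]

theorem pvec_self {n : ℕ} {T : Finset (Fin n)} {j : Fin n} (a x : Fin n → ℂ) :
    Function.update (pvec (insert j T) a x) j (a j) = pvec (insert j T) a x := by
  funext i
  unfold pvec
  by_cases hij : i = j
  · subst hij
    simp
  · simp [hij]

theorem main (hO : S_Op1) (τ : ℂ) (hτ : 0 < τ.im) (n : ℕ) (H : Fin n → ℂ)
    (F : MvPolynomial (Fin n) ℂ) (hF : F ≠ 0) (T : Finset (Fin n)) :
    ∃ G : MvPolynomial (Fin n) ℂ, G ≠ 0 ∧
      (∀ i, G.degreeOf i ≤ 6 ^ T.card * F.degreeOf i) ∧
      (∀ x w : Fin n → ℂ, (∀ i ∈ T, w i ∉ Lam τ) → (∀ i ∈ T, w i + H i ∉ Lam τ) →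
        eval (pvec T (fun i => wp 1 τ (w i + H i)) x) F = 0 →
          eval (pvec T (fun i => wp 1 τ (w i)) x) G = 0) ∧
      (∀ x w : Fin n → ℂ, (∀ i ∈ T, w i ∉ Lam τ) → (∀ i ∈ T, w i + H i ∉ Lam τ) →
        (∀ i ∈ T, w i - H i ∉ Lam τ) → eval (pvec T (fun i => wp 1 τ (w i)) x) G = 0 →
          ∃ e : Fin n → Bool,
            eval (pvec T (fun i => wp 1 τ (w i + sg (e i) * H i)) x) F = 0) := by
  induction T using Finset.induction_on with
  | empty =>
    refine ⟨F, hF, fun i => by simp, ?_, ?_⟩
    · intro x w _ _ h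
      rw [pvec_empty] at h ⊢
      exact h
    · intro x w _ _ _ h
      refine ⟨fun _ => true, ?_⟩
      rw [pvec_empty] at h ⊢
      exact h
  | insert j T hj ih =>
    obtain ⟨G', hG', hd, h1, h2⟩ := ih
    obtain ⟨G, hG, hdG, k1, k2⟩ := hO τ hτ n j (H j) G' hG'
    refine ⟨G, hG, ?_, ?_, ?_⟩
    · intro i
      rw [Finset.card_insert_of_notMem hj, pow_succ]
      calc G.degreeOf i ≤ 6 * G'.degreeOf i := hdG i
        _ ≤ 6 * (6 ^ T.card * F.degreeOf i) := Nat.mul_le_mul_left _ (hd i)
        _ = 6 ^ T.card * 6 * F.degreeOf i := by ring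
    · intro x w hw hwH h
      rw [pvec_insert hj] at h
      have h3 := h1 _ w (fun i hi => hw i (Finset.mem_insert_of_mem hi))
        (fun i hi => hwH i (Finset.mem_insert_of_mem hi)) h
      rw [pvec_update hj] at h3
      have h4 := k1 _ (w j) (hw j (Finset.mem_insert_self j T))
        (hwH j (Finset.mem_insert_self j T)) h3
      have h5 := pvec_self (T := T) (j := j) (fun i => wp 1 τ (w i)) x
      rw [← h5]
      exact h4
    · intro x w hw hwH hwH' h
      have h5 := pvec_self (T := T) (j := j) (fun i => wp 1 τ (w i)) x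
      rw [← h5] at h
      have h6 := k2 _ (w j) (hw j (Finset.mem_insert_self j T))
        (hwH j (Finset.mem_insert_self j T)) (hwH' j (Finset.mem_insert_self j T)) h
      have h7 : ∃ c : Bool, eval (Function.update (pvec (insert j T) (fun i => wp 1 τ (w i)) x) j
          (wp 1 τ (w j + sg c * H j))) G' = 0 := by
        rcases h6 with h6 | h6
        · refine ⟨true, ?_⟩
          simpa [sg] using h6
        · refine ⟨false, ?_⟩
          have h8 : w j + sg false * H j = w j - H j := by
            simp [sg]
            ring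
          rw [h8]
          exact h6
      obtain ⟨c, hc⟩ := h7
      rw [← pvec_update hj] at hc
      obtain ⟨e, he⟩ := h2 _ w (fun i hi => hw i (Finset.mem_insert_of_mem hi))
        (fun i hi => hwH i (Finset.mem_insert_of_mem hi))
        (fun i hi => hwH' i (Finset.mem_insert_of_mem hi)) hc
      refine ⟨Function.update e j c, ?_⟩
      rw [pvec_insert hj]
      have h9 : pvec T (fun i => wp 1 τ (w i + sg (Function.update e j c i) * H i))
          (Function.update x j (wp 1 τ (w j + sg (Function.update e j c j) * H j))) =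
          pvec T (fun i => wp 1 τ (w i + sg (e i) * H i))
            (Function.update x j (wp 1 τ (w j + sg c * H j))) := by
        funext i
        unfold pvec
        by_cases hi : i ∈ T
        · have hij : i ≠ j := fun hh => hj (hh ▸ hi)
          simp [hi, hij]
        · simp [hi]
      rw [h9]
      exact he

end I_OpA

open I_OpA in
/-- The norm of a translate in all variables. -/
theorem OpA_pf (hO : S_Op1) : S_OpA := by
  intro τ hτ m δ h F hF
  obtain ⟨G, hG, hd, h1, h2⟩ := main hO τ hτ (m + 1) (Fin.cons δ h) F hF Finset.univ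
  have hpw : ∀ (a : Fin (m + 1) → ℂ) (x : Fin (m + 1) → ℂ), pvec Finset.univ a x = a := by
    intro a x
    funext i
    simp [pvec]
  refine ⟨G, hG, ?_, ?_, ?_⟩
  · intro i
    have := hd i
    rwa [Finset.card_univ, Fintype.card_fin] at this
  · intro v y hv hy hvh hyd hz
    have h3 := h1 0 (Fin.cons y v) (fun i _ => by
        refine Fin.cases ?_ (fun i => ?_) i
        · simpa using hy
        · simpa using hv i) (fun i _ => by
        refine Fin.cases ?_ (fun i => ?_) i
        · simpa using hyd
        · simpa using hvh i) (by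
        rw [hpw]
        have h4 : (fun i => wp 1 τ ((Fin.cons y v : Fin (m + 1) → ℂ) i +
            (Fin.cons δ h : Fin (m + 1) → ℂ) i)) = pw τ (fun i => v i + h i) (y + δ) := by
          funext i
          refine Fin.cases ?_ (fun i => ?_) i
          · simp [pw]
          · simp [pw]
        rw [h4]
        exact hz)
    rw [hpw] at h3
    have h5 : (fun i => wp 1 τ ((Fin.cons y v : Fin (m + 1) → ℂ) i)) = pw τ v y := by
      funext i
      refine Fin.cases ?_ (fun i => ?_) i
      · simp [pw]
      · simp [pw]
    rw [h5] at h3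
    exact h3
  · intro v y hv hy hvh hvh' hyd hyd' hz
    obtain ⟨e, he⟩ := h2 0 (Fin.cons y v) (fun i _ => by
        refine Fin.cases ?_ (fun i => ?_) i
        · simpa using hy
        · simpa using hv i) (fun i _ => by
        refine Fin.cases ?_ (fun i => ?_) i
        · simpa using hyd
        · simpa using hvh i) (fun i _ => by
        refine Fin.cases ?_ (fun i => ?_) i
        · simpa using hyd'
        · simpa using hvh' i) (by
        rw [hpw]
        have h5 : (fun i => wp 1 τ ((Fin.cons y v : Fin (m + 1) → ℂ) i)) = pw τ v y := by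
          funext i
          refine Fin.cases ?_ (fun i => ?_) i
          · simp [pw]
          · simp [pw]
        rw [h5]
        exact hz)
    refine ⟨fun i => e i.succ, e 0, ?_⟩
    rw [hpw] at he
    have h4 : (fun i => wp 1 τ ((Fin.cons y v : Fin (m + 1) → ℂ) i +
        sg (e i) * (Fin.cons δ h : Fin (m + 1) → ℂ) i)) =
        pw τ (fun i => v i + sg (e i.succ) * h i) (y + sg (e 0) * δ) := by
      funext i
      refine Fin.cases ?_ (fun i => ?_) i
      · simp [pw]
      · simp [pw]
    rw [h4] at he
    exact he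

end Pool.Agent.Work.MP_8da9ea_nt.EB
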