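import Pool.Agent.Work.MP_8da9ea_nt.EB.StmtsT
import Pool.Agent.Work.MP_327059_nt.Bd.B11

/-!
# Elliptic block, item PEval: values and sizes of the polynomials `PE`
-/

set_option autoImplicit false

namespace Pool.Agent.Work.MP_8da9ea_nt.EB

open MvPolynomial Pool.Agent.Work.MP_327059_nt.GL

namespace I_PEval

theorem aev {n m G W : ℕ} (p : (Fin G → Fin m → Fin W) → ℤ) (V : Fin G → Fin m → Tri n m)
    (τ μ : ℂ) (θ : VI n m → ℂ) (z : Fin G → Fin m → ℂ)
    (hV : ∀ r j, Val τ μ θ (z r j) (V r j)) :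
    aeval θ (PE p V) = (∏ r, ∏ j, aeval θ (V r j).Z ^ W) *
      ∑ x : Fin G → Fin m → Fin W, (p x : ℂ) * ∏ r, ∏ j, xe τ μ (z r j) ^ (x r j : ℕ) := by
  unfold PE
  rw [map_sum, Finset.mul_sum]
  refine Finset.sum_congr rfl fun x _ => ?_
  rw [map_mul, map_prod]
  have h1 : (aeval θ) (C (p x) : MvPolynomial (VI n m) ℤ) = (p x : ℂ) := by simp
  rw [h1]
  have h2 : ∏ r, (aeval θ) (∏ j, ((V r j).A ^ (x r j : ℕ) * (V r j).Z ^ (W - (x r j : ℕ)))) =
      (∏ r, ∏ j, aeval θ (V r j).Z ^ W) * ∏ r, ∏ j, xe τ μ (z r j) ^ (x r j : ℕ) := by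
    rw [← Finset.prod_mul_distrib]
    refine Finset.prod_congr rfl fun r _ => ?_
    rw [map_prod, ← Finset.prod_mul_distrib]
    refine Finset.prod_congr rfl fun j _ => ?_
    rw [map_mul, map_pow, map_pow, (hV r j).a, mul_pow]
    have h3 : W = (x r j : ℕ) + (W - (x r j : ℕ)) := by
      have := (x r j).2
      omega
    have h4 : aeval θ (V r j).Z ^ W =
        aeval θ (V r j).Z ^ (x r j : ℕ) * aeval θ (V r j).Z ^ (W - (x r j : ℕ)) := by
      rw [← pow_add, ← h3]
    rw [h4]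
    ring
  rw [h2]
  ring

theorem deg {n m G W : ℕ} (p : (Fin G → Fin m → Fin W) → ℤ) (V : Fin G → Fin m → Tri n m)
    (D : ℕ) (hA : ∀ r j, (V r j).A.totalDegree ≤ D) (hZ : ∀ r j, (V r j).Z.totalDegree ≤ D) :
    (PE p V).totalDegree ≤ G * (m * (W * D)) := by
  unfold PE
  refine totalDegree_finsetSum_le ?_
  intro x _
  refine (totalDegree_mul _ _).trans ?_
  rw [totalDegree_C, zero_add]
  refine (totalDegree_finsetProd _ _).trans ?_
  have hr : ∀ r ∈ (Finset.univ : Finset (Fin G)),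
      (∏ j, ((V r j).A ^ (x r j : ℕ) * (V r j).Z ^ (W - (x r j : ℕ)))).totalDegree ≤
        m * (W * D) := by
    intro r _
    refine (totalDegree_finsetProd _ _).trans ?_
    have hj : ∀ j ∈ (Finset.univ : Finset (Fin m)),
        ((V r j).A ^ (x r j : ℕ) * (V r j).Z ^ (W - (x r j : ℕ))).totalDegree ≤ W * D := by
      intro j _
      refine (totalDegree_mul _ _).trans ?_
      have h1 : ((V r j).A ^ (x r j : ℕ)).totalDegree ≤ (x r j : ℕ) * D :=
        (totalDegree_pow _ _).trans (Nat.mul_le_mul_left _ (hA r j))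
      have h2 : ((V r j).Z ^ (W - (x r j : ℕ))).totalDegree ≤ (W - (x r j : ℕ)) * D :=
        (totalDegree_pow _ _).trans (Nat.mul_le_mul_left _ (hZ r j))
      refine (add_le_add h1 h2).trans ?_
      rw [← add_mul]
      refine Nat.mul_le_mul_right _ ?_
      have := (x r j).2
      omega
    refine (Finset.sum_le_card_nsmul _ _ _ hj).trans ?_
    rw [Finset.card_univ, Fintype.card_fin, smul_eq_mul]
  refine (Finset.sum_le_card_nsmul _ _ _ hr).trans ?_
  rw [Finset.card_univ, Fintype.card_fin, smul_eq_mul]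

theorem leng {n m G W : ℕ} (p : (Fin G → Fin m → Fin W) → ℤ) (V : Fin G → Fin m → Tri n m)
    (h H : ℝ) (hA : ∀ r j, len (V r j).A ≤ Real.exp h) (hZ : ∀ r j, len (V r j).Z ≤ Real.exp h)
    (hp : ∀ x, |(p x : ℝ)| ≤ Real.exp H) :
    len (PE p V) ≤ Real.exp (G * m * W * (h + 1) + H) := by
  unfold PE
  refine (Val_len_sum _ _).trans ?_
  have hx : ∀ x ∈ (Finset.univ : Finset (Fin G → Fin m → Fin W)),
      len (C (p x) * ∏ r, ∏ j, ((V r j).A ^ (x r j : ℕ) * (V r j).Z ^ (W - (x r j : ℕ)))) ≤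
        Real.exp H * ((Real.exp h ^ W) ^ m) ^ G := by
    intro x _
    refine (Val_len_mul _ _).trans ?_
    refine mul_le_mul ((Val_len_C _).trans (hp x)) ?_ (Val_len_nonneg _) (Real.exp_pos _).le
    refine (Val_len_prod _ _).trans ?_
    have hr : ∀ r ∈ (Finset.univ : Finset (Fin G)),
        len (∏ j, ((V r j).A ^ (x r j : ℕ) * (V r j).Z ^ (W - (x r j : ℕ)))) ≤
          (Real.exp h ^ W) ^ m := by
      intro r _
      refine (Val_len_prod _ _).trans ?_
      have hj : ∀ j ∈ (Finset.univ : Finset (Fin m)),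
          len ((V r j).A ^ (x r j : ℕ) * (V r j).Z ^ (W - (x r j : ℕ))) ≤ Real.exp h ^ W := by
        intro j _
        refine (Val_len_mul _ _).trans ?_
        have h1 : len ((V r j).A ^ (x r j : ℕ)) ≤ Real.exp h ^ (x r j : ℕ) :=
          (Val_len_pow _ _).trans (pow_le_pow_left₀ (Val_len_nonneg _) (hA r j) _)
        have h2 : len ((V r j).Z ^ (W - (x r j : ℕ))) ≤ Real.exp h ^ (W - (x r j : ℕ)) :=
          (Val_len_pow _ _).trans (pow_le_pow_left₀ (Val_len_nonneg _) (hZ r j) _)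
        refine (mul_le_mul h1 h2 (Val_len_nonneg _) (by positivity)).trans ?_
        rw [← pow_add]
        have h3 : (x r j : ℕ) + (W - (x r j : ℕ)) = W := by
          have := (x r j).2
          omega
        rw [h3]
      refine (Finset.prod_le_prod (fun _ _ => Val_len_nonneg _) hj).trans ?_
      rw [Finset.prod_const, Finset.card_univ, Fintype.card_fin]
    refine (Finset.prod_le_prod (fun _ _ => Val_len_nonneg _) hr).trans ?_
    rw [Finset.prod_const, Finset.card_univ, Fintype.card_fin]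
  refine (Finset.sum_le_card_nsmul _ _ _ hx).trans ?_
  have hc : ((Finset.univ : Finset (Fin G → Fin m → Fin W)).card : ℝ) ≤
      Real.exp (G * m * W) := by
    rw [Finset.card_univ, Fintype.card_pi_const, Fintype.card_pi_const, Fintype.card_fin]
    push_cast
    have h1 : (W : ℝ) ≤ Real.exp W := by
      have := Real.add_one_le_exp (W : ℝ)
      linarith
    have h2 : (W : ℝ) ^ m ≤ Real.exp W ^ m := pow_le_pow_left₀ (Nat.cast_nonneg _) h1 _
    refine (pow_le_pow_left₀ (by positivity) h2 G).trans (le_of_eq ?_)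
    rw [← Real.exp_nat_mul, ← Real.exp_nat_mul]
    congr 1
    ring
  rw [nsmul_eq_mul]
  refine (mul_le_mul_of_nonneg_right hc (by positivity)).trans (le_of_eq ?_)
  rw [← Real.exp_nat_mul, ← Real.exp_nat_mul, ← Real.exp_nat_mul, ← Real.exp_add, ← Real.exp_add]
  congr 1
  ring

end I_PEval

open I_PEval in
/-- Values and sizes of the polynomials `PE`. -/
theorem PEval_pf : S_PEval := by
  intro n m G W p V
  refine ⟨fun τ μ θ z hV => aev p V τ μ θ z hV, ?_⟩
  intro h H hh hH hV hp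
  refine ⟨?_, leng p V h H (fun r j => (hV r j).A.2) (fun r j => (hV r j).Z.2) hp⟩
  have h1 := deg p V ⌊h⌋₊ (fun r j => Nat.le_floor (hV r j).A.1)
    (fun r j => Nat.le_floor (hV r j).Z.1)
  have h2 : ((PE p V).totalDegree : ℝ) ≤ ((G * (m * (W * ⌊h⌋₊)) : ℕ) : ℝ) := by
    exact_mod_cast h1
  have h3 : ((⌊h⌋₊ : ℕ) : ℝ) ≤ h := Nat.floor_le hh
  refine h2.trans ?_
  push_cast
  have h4 : (0 : ℝ) ≤ (G : ℝ) * m * W := by positivity
  have h5 : (G : ℝ) * m * W * (⌊h⌋₊ : ℝ) ≤ (G : ℝ) * m * W * h :=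
    mul_le_mul_of_nonneg_left h3 h4
  nlinarith

end Pool.Agent.Work.MP_8da9ea_nt.EB
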