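import Pool.Agent.Work.MP_8da9ea_nt.EB.StmtsG

/-! Item Pencil of the block EB. -/

set_option autoImplicit false

namespace Pool.Agent.Work.MP_8da9ea_nt.EB

theorem I_Pencil.key (m : ℕ) (a a' b b' : Fin m → ℂ)
    (H : ∀ i j, a i * b' j + a j * b' i = a' i * b j + a' j * b i) (i j : Fin m)
    (hd : a i * a' j - a j * a' i ≠ 0) :
    ∃ κ : ℂ, (∀ e, b e = κ * a e) ∧ ∀ e, b' e = κ * a' e := by
  have h1 : ∀ e, (a i * a' j - a j * a' i) * b' e + a e * (a' j * b' i - a' i * b' j) =
      a' e * (a' j * b i - a' i * b j) := by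
    intro e
    linear_combination a' j * H i e - a' i * H j e
  have h2 : ∀ e, a e * (a i * b' j - a j * b' i) =
      (a i * a' j - a j * a' i) * b e + a' e * (a i * b j - a j * b i) := by
    intro e
    linear_combination a i * H j e - a j * H i e
  have hX : a' j * b' i - a' i * b' j = 0 := by
    have h : (a i * a' j - a j * a' i) * (a' j * b' i - a' i * b' j) = 0 := by
      linear_combination (1 / 2) * a' j * h1 i - (1 / 2) * a' i * h1 j
    exact (mul_eq_zero.mp h).resolve_left hd
  have hW : a i * b j - a j * b i = 0 := by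
    have h : (a i * a' j - a j * a' i) * (a i * b j - a j * b i) = 0 := by
      linear_combination (1 / 2) * a j * h2 i - (1 / 2) * a i * h2 j
    exact (mul_eq_zero.mp h).resolve_left hd
  have hZ : a i * b' j - a j * b' i = a' j * b i - a' i * b j := by
    have h : (a i * a' j - a j * a' i) *
        ((a i * b' j - a j * b' i) - (a' j * b i - a' i * b j)) = 0 := by
      linear_combination a i * h1 j - a j * h1 i
    exact sub_eq_zero.mp ((mul_eq_zero.mp h).resolve_left hd)
  refine ⟨(a' j * b i - a' i * b j) / (a i * a' j - a j * a' i), ?_, ?_⟩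
  · intro e
    have h := h2 e
    rw [hZ, hW] at h
    rw [div_mul_eq_mul_div, eq_div_iff hd]
    linear_combination -h
  · intro e
    have h := h1 e
    rw [hX] at h
    rw [div_mul_eq_mul_div, eq_div_iff hd]
    linear_combination h

theorem I_Pencil.minor (m : ℕ) (a a' : Fin m → ℂ) (h : LinearIndependent ℂ ![a, a']) :
    ∃ i j, a i * a' j - a j * a' i ≠ 0 := by
  by_contra hc
  push Not at hc
  have ha : a ≠ 0 := h.ne_zero 0
  obtain ⟨i, hi⟩ := Function.ne_iff.mp ha
  have hi' : a i ≠ 0 := hi
  rw [LinearIndependent.pair_iff] at h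
  have := h (a' i) (- a i) (by
    ext j
    have := hc i j
    simp only [Pi.add_apply, Pi.smul_apply, smul_eq_mul, Pi.zero_apply]
    linear_combination -this)
  exact hi' (neg_eq_zero.mp this.2)

theorem Pencil_pf : S_Pencil := by
  intro T _ _ m A B hAB hrank
  -- polarisation
  have hpol : ∀ (δ δ' : T) (i j : Fin m), A δ i * B δ' j + A δ j * B δ' i =
      A δ' i * B δ j + A δ' j * B δ i := by
    intro δ δ' i j
    have hs : ∀ (i : Fin m) (x : Fin m → ℂ),
        (∑ l, (((Pi.single i 1 : Fin m → ℚ) l : ℚ) : ℂ) * x l) = x i := by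
      intro i x
      rw [Finset.sum_eq_single i]
      · simp
      · intro l _ hl
        rw [Pi.single_eq_of_ne hl]
        simp
      · intro h
        exact absurd (Finset.mem_univ i) h
    have hs2 : ∀ (i j : Fin m) (x : Fin m → ℂ),
        (∑ l, (((Pi.single i 1 + Pi.single j 1 : Fin m → ℚ) l : ℚ) : ℂ) * x l) = x i + x j := by
      intro i j x
      rw [← hs i x, ← hs j x, ← Finset.sum_add_distrib]
      apply Finset.sum_congr rfl
      intro l _
      rw [Pi.add_apply]
      push_cast
      ring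
    have e1 := hAB (Pi.single i 1) δ δ'
    have e2 := hAB (Pi.single j 1) δ δ'
    have e3 := hAB (Pi.single i 1 + Pi.single j 1) δ δ'
    rw [hs, hs, hs, hs] at e1 e2
    rw [hs2, hs2, hs2, hs2] at e3
    linear_combination e3 - e1 - e2
  obtain ⟨f, hf⟩ := exists_linearIndependent_of_le_finrank hrank
  obtain ⟨d0, hd0⟩ := (f 0).2
  obtain ⟨d1, hd1⟩ := (f 1).2
  have hf' : LinearIndependent ℂ ![A d0, A d1] := by
    have h := hf.map' (LinearMap.range A).subtype (Submodule.ker_subtype _)
    have e : (⇑(LinearMap.range A).subtype ∘ f) = ![A d0, A d1] := by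
      funext l
      fin_cases l
      · exact hd0.symm
      · exact hd1.symm
    rw [e] at h
    exact h
  obtain ⟨i0, j0, h01⟩ := I_Pencil.minor m _ _ hf'
  obtain ⟨κ, k0, k1⟩ := I_Pencil.key m (A d0) (A d1) (B d0) (B d1) (hpol d0 d1) i0 j0 h01
  refine ⟨κ, fun δ => ?_⟩
  have hne0 : A d0 ≠ 0 := hf'.ne_zero 0
  have hne1 : A d1 ≠ 0 := hf'.ne_zero 1
  -- if `A d` and `A δ` are independent
  have step : ∀ d : T, (∀ e, B d e = κ * A d e) → A d ≠ 0 → LinearIndependent ℂ ![A d, A δ] →
      B δ = κ • A δ := by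
    intro d hd hne hind
    obtain ⟨i, j, hij⟩ := I_Pencil.minor m _ _ hind
    obtain ⟨κ', k2, k3⟩ := I_Pencil.key m (A d) (A δ) (B d) (B δ) (hpol d δ) i j hij
    obtain ⟨l, hl⟩ := Function.ne_iff.mp hne
    have hk : κ' = κ := by
      have h := (k2 l).symm.trans (hd l)
      exact mul_right_cancel₀ hl h
    subst hk
    ext e
    rw [k3 e]
    rfl
  by_cases c0 : LinearIndependent ℂ ![A d0, A δ]
  · exact step d0 k0 hne0 c0
  by_cases c1 : LinearIndependent ℂ ![A d1, A δ]
  · exact step d1 k1 hne1 c1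
  -- now `A δ = 0`
  have hz : A δ = 0 := by
    rw [LinearIndependent.pair_iff' hne0] at c0
    rw [LinearIndependent.pair_iff' hne1] at c1
    push Not at c0 c1
    obtain ⟨r0, hr0⟩ := c0
    obtain ⟨r1, hr1⟩ := c1
    rw [LinearIndependent.pair_iff] at hf'
    have h := hf' r0 (-r1) (by rw [neg_smul, hr0, hr1, add_neg_cancel])
    rw [← hr0, h.1, zero_smul]
  have hB : B δ = 0 := by
    obtain ⟨l, hl⟩ := Function.ne_iff.mp hne0
    have hl' : A d0 l ≠ 0 := hl
    have hzl : ∀ e, A δ e = 0 := fun e => congrFun hz e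
    have hBl : B δ l = 0 := by
      have h := hpol d0 δ l l
      rw [hzl] at h
      have : A d0 l * B δ l = 0 := by linear_combination (1 / 2) * h
      exact (mul_eq_zero.mp this).resolve_left hl'
    ext e
    have h := hpol d0 δ l e
    rw [hzl, hzl, hBl] at h
    have : A d0 l * B δ e = 0 := by linear_combination h
    exact (mul_eq_zero.mp this).resolve_left hl'
  rw [hB, hz, smul_zero]

end Pool.Agent.Work.MP_8da9ea_nt.EB
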