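import Pool.Agent.Work.MP_8da9ea_nt.EB.StmtsT
import Pool.Agent.Work.MP_327059_nt.Bd.B11

/-!
# Elliptic block: Laurent coefficients of the Weierstrass function at the origin
-/

set_option autoImplicit false

namespace Pool.Agent.Work.MP_8da9ea_nt.EB.I_PhiT

open MvPolynomial Metric Filter Topology Pool.Agent.Work.MP_327059_nt.GL
  Pool.Agent.Work.MP_8da9ea_nt.S Pool.Agent.Work.MP_8da9ea_nt.EB

/-! ### The polynomials -/

/-- The universal polynomials: `M ^ k c_k = M ^ 3 phi_k`. -/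
noncomputable def phi (M : ℕ) (k : ℕ) : MvPolynomial (Fin 2) ℤ :=
  if k = 4 then C ((M / 20 : ℕ) : ℤ) * X 0
  else if k = 6 then C ((M ^ 3 / 28 : ℕ) : ℤ) * X 1
  else if h : 7 ≤ k then C ((6 * (M ^ 3 / ((k - 6) * (k + 1))) : ℕ) : ℤ) *
    ∑ i : Fin (k - 1), phi M (i.val + 1) * phi M (k - 1 - i.val)
  else 0
termination_by k
decreasing_by
  · have := i.isLt; omega
  · omega

theorem phi_small (M k : ℕ) (h : k < 4) : phi M k = 0 := by
  rw [phi, if_neg (by omega), if_neg (by omega), dif_neg (by omega)]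

theorem phi_four (M : ℕ) : phi M 4 = C ((M / 20 : ℕ) : ℤ) * X 0 := by
  rw [phi, if_pos rfl]

theorem phi_five (M : ℕ) : phi M 5 = 0 := by
  rw [phi, if_neg (by omega), if_neg (by omega), dif_neg (by omega)]

theorem phi_six (M : ℕ) : phi M 6 = C ((M ^ 3 / 28 : ℕ) : ℤ) * X 1 := by
  rw [phi, if_neg (by omega), if_pos rfl]

theorem phi_rec (M k : ℕ) (h : 7 ≤ k) : phi M k =
    C ((6 * (M ^ 3 / ((k - 6) * (k + 1))) : ℕ) : ℤ) *
      ∑ i ∈ Finset.range (k - 1), phi M (i + 1) * phi M (k - 1 - i) := by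
  rw [phi, if_neg (by omega), if_neg (by omega), dif_pos h, Finset.sum_range]

theorem len_zero' {σ : Type} : len (0 : MvPolynomial σ ℤ) = 0 := by
  simp [len]

theorem phi_size (M : ℕ) (hM : 1 ≤ M) (k : ℕ) : (phi M k).totalDegree ≤ k ∧
    (4 ≤ k → len (phi M k) ≤ (M : ℝ) ^ (k - 3)) := by
  have hM' : (1 : ℝ) ≤ M := by exact_mod_cast hM
  induction k using Nat.strong_induction_on with
  | _ k ih =>
    rcases Nat.lt_or_ge k 4 with h4 | h4
    · rw [phi_small M k h4]
      exact ⟨by simp, fun h => absurd h (by omega)⟩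
    rcases Nat.lt_or_ge k 7 with h7 | h7
    · have : k = 4 ∨ k = 5 ∨ k = 6 := by omega
      rcases this with rfl | rfl | rfl
      · rw [phi_four]
        refine ⟨?_, fun _ => ?_⟩
        · refine (totalDegree_mul _ _).trans ?_
          rw [totalDegree_C, totalDegree_X]
          omega
        · refine (Val_len_mul _ _).trans ?_
          have h1 := Val_len_C (σ := Fin 2) ((M / 20 : ℕ) : ℤ)
          have h2 := Val_len_X (0 : Fin 2)
          have h3 : |((((M / 20 : ℕ) : ℤ)) : ℝ)| ≤ M := by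
            rw [Int.cast_natCast, Nat.abs_cast]
            exact_mod_cast Nat.div_le_self M 20
          calc len (C ((M / 20 : ℕ) : ℤ)) * len (X 0) ≤ M * 1 :=
                mul_le_mul (h1.trans h3) h2 (Val_len_nonneg _) (by positivity)
            _ = (M : ℝ) ^ (4 - 3) := by norm_num
      · rw [phi_five]
        refine ⟨by simp, fun _ => ?_⟩
        rw [len_zero']
        positivity
      · rw [phi_six]
        refine ⟨?_, fun _ => ?_⟩
        · refine (totalDegree_mul _ _).trans ?_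
          rw [totalDegree_C, totalDegree_X]
          omega
        · refine (Val_len_mul _ _).trans ?_
          have h1 := Val_len_C (σ := Fin 2) ((M ^ 3 / 28 : ℕ) : ℤ)
          have h2 := Val_len_X (1 : Fin 2)
          have h3 : |((((M ^ 3 / 28 : ℕ) : ℤ)) : ℝ)| ≤ (M : ℝ) ^ 3 := by
            rw [Int.cast_natCast, Nat.abs_cast]
            exact_mod_cast Nat.div_le_self (M ^ 3) 28
          calc len (C ((M ^ 3 / 28 : ℕ) : ℤ)) * len (X 1) ≤ (M : ℝ) ^ 3 * 1 :=
                mul_le_mul (h1.trans h3) h2 (Val_len_nonneg _) (by positivity)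
            _ = (M : ℝ) ^ (6 - 3) := by norm_num
    · rw [phi_rec M k h7]
      refine ⟨?_, fun _ => ?_⟩
      · refine (totalDegree_mul _ _).trans ?_
        rw [totalDegree_C, zero_add]
        refine (totalDegree_finsetSum_le (d := k) ?_)
        intro i hi
        rw [Finset.mem_range] at hi
        refine (totalDegree_mul _ _).trans ?_
        have h1 := (ih (i + 1) (by omega)).1
        have h2 := (ih (k - 1 - i) (by omega)).1
        omega
      · refine (Val_len_mul _ _).trans ?_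
        have h1 := Val_len_C (σ := Fin 2) ((6 * (M ^ 3 / ((k - 6) * (k + 1))) : ℕ) : ℤ)
        rw [Int.cast_natCast, Nat.abs_cast] at h1
        have h2 : len (∑ i ∈ Finset.range (k - 1), phi M (i + 1) * phi M (k - 1 - i)) ≤
            ((k - 7 : ℕ) : ℝ) * (M : ℝ) ^ (k - 6) := by
          refine (Val_len_sum _ _).trans ?_
          have h3 : ∀ i ∈ Finset.range (k - 1), len (phi M (i + 1) * phi M (k - 1 - i)) ≤
              if i ∈ Finset.Ico 3 (k - 4) then (M : ℝ) ^ (k - 6) else 0 := by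
            intro i hi
            rw [Finset.mem_range] at hi
            split_ifs with h
            · rw [Finset.mem_Ico] at h
              refine (Val_len_mul _ _).trans ?_
              have h5 := (ih (i + 1) (by omega)).2 (by omega)
              have h6 := (ih (k - 1 - i) (by omega)).2 (by omega)
              calc len (phi M (i + 1)) * len (phi M (k - 1 - i))
                  ≤ (M : ℝ) ^ (i + 1 - 3) * (M : ℝ) ^ (k - 1 - i - 3) :=
                    mul_le_mul h5 h6 (Val_len_nonneg _) (by positivity)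
                _ = (M : ℝ) ^ (k - 6) := by
                    rw [← pow_add]
                    congr 1
                    omega
            · rw [Finset.mem_Ico] at h
              have h5 : i + 1 < 4 ∨ k - 1 - i < 4 := by omega
              rcases h5 with h5 | h5
              · rw [phi_small M _ h5, zero_mul, len_zero']
              · rw [phi_small M _ h5, mul_zero, len_zero']
          refine (Finset.sum_le_sum h3).trans ?_
          rw [Finset.sum_ite_mem, Finset.sum_const, nsmul_eq_mul]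
          refine mul_le_mul_of_nonneg_right ?_ (by positivity)
          have h5 : (Finset.range (k - 1) ∩ Finset.Ico 3 (k - 4)).card ≤ k - 7 := by
            refine (Finset.card_le_card Finset.inter_subset_right).trans ?_
            rw [Nat.card_Ico]
            omega
          exact_mod_cast h5
        calc len (C ((6 * (M ^ 3 / ((k - 6) * (k + 1))) : ℕ) : ℤ)) *
              len (∑ i ∈ Finset.range (k - 1), phi M (i + 1) * phi M (k - 1 - i))
            ≤ ((6 * (M ^ 3 / ((k - 6) * (k + 1))) : ℕ) : ℝ) *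
                (((k - 7 : ℕ) : ℝ) * (M : ℝ) ^ (k - 6)) :=
              mul_le_mul h1 h2 (Val_len_nonneg _) (by positivity)
          _ = ((6 * (M ^ 3 / ((k - 6) * (k + 1))) * (k - 7) : ℕ) : ℝ) * (M : ℝ) ^ (k - 6) := by
              push_cast
              ring
          _ ≤ ((M ^ 3 : ℕ) : ℝ) * (M : ℝ) ^ (k - 6) := by
              refine mul_le_mul_of_nonneg_right ?_ (by positivity)
              have h5 : 6 * (M ^ 3 / ((k - 6) * (k + 1))) * (k - 7) ≤ M ^ 3 := by
                calc 6 * (M ^ 3 / ((k - 6) * (k + 1))) * (k - 7)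
                    = (M ^ 3 / ((k - 6) * (k + 1))) * (6 * (k - 7)) := by ring
                  _ ≤ (M ^ 3 / ((k - 6) * (k + 1))) * ((k - 6) * (k + 1)) := by
                      refine Nat.mul_le_mul_left _ ?_
                      obtain ⟨t, rfl⟩ : ∃ t, k = t + 7 := ⟨k - 7, by omega⟩
                      have e1 : t + 7 - 7 = t := by omega
                      have e2 : t + 7 - 6 = t + 1 := by omega
                      rw [e1, e2]
                      nlinarith
                  _ ≤ M ^ 3 := Nat.div_mul_le_self _ _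
              exact_mod_cast h5
          _ = (M : ℝ) ^ (k - 3) := by
              push_cast
              rw [← pow_add]
              congr 1
              omega

/-! ### Power series -/

/-- `F` is the sum of the power series `a` on a punctured disc. -/
def PS (a : PowerSeries ℂ) (F : ℂ → ℂ) : Prop := ∃ r : ℝ, 0 < r ∧ ∀ z : ℂ, z ≠ 0 → ‖z‖ < r →
  HasSum (fun k => PowerSeries.coeff k a * z ^ k) (F z)

theorem PS.congr {a : PowerSeries ℂ} {F G : ℂ → ℂ} (h : PS a F)
    (hr : ∀ᶠ z in 𝓝[≠] (0 : ℂ), F z = G z) : PS a G := by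
  obtain ⟨r, hr0, h⟩ := h
  rw [eventually_nhdsWithin_iff, Metric.eventually_nhds_iff] at hr
  obtain ⟨s, hs, h'⟩ := hr
  refine ⟨min r s, lt_min hr0 hs, fun z hz hz2 => ?_⟩
  rw [← h' (by rw [dist_zero_right]; exact hz2.trans_le (min_le_right _ _)) hz]
  exact h z hz (hz2.trans_le (min_le_left _ _))

theorem PS.add {a b : PowerSeries ℂ} {F G : ℂ → ℂ} (ha : PS a F) (hb : PS b G) :
    PS (a + b) (fun z => F z + G z) := by
  obtain ⟨r, hr, h⟩ := ha
  obtain ⟨s, hs, h'⟩ := hb
  refine ⟨min r s, lt_min hr hs, fun z hz hz2 => ?_⟩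
  have h1 := (h z hz (hz2.trans_le (min_le_left _ _))).add
    (h' z hz (hz2.trans_le (min_le_right _ _)))
  have h7 : (fun k => PowerSeries.coeff k (a + b) * z ^ k) = fun k =>
      PowerSeries.coeff k a * z ^ k + PowerSeries.coeff k b * z ^ k := by
    funext k
    rw [map_add]
    ring
  rw [h7]
  exact h1

theorem PS.mul {a b : PowerSeries ℂ} {F G : ℂ → ℂ} (ha : PS a F) (hb : PS b G) :
    PS (a * b) (fun z => F z * G z) := by
  obtain ⟨r, hr, h⟩ := ha
  obtain ⟨s, hs, h'⟩ := hb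
  refine ⟨min r s, lt_min hr hs, fun z hz hz2 => ?_⟩
  have h1 := h z hz (hz2.trans_le (min_le_left _ _))
  have h2 := h' z hz (hz2.trans_le (min_le_right _ _))
  have h3 := (summable_norm_iff.2 h1.summable)
  have h4 := (summable_norm_iff.2 h2.summable)
  have h5 := tsum_mul_tsum_eq_tsum_sum_antidiagonal_of_summable_norm h3 h4
  have h6 := summable_norm_sum_mul_antidiagonal_of_summable_norm h3 h4
  have h7 : (fun k => PowerSeries.coeff k (a * b) * z ^ k) = fun n =>
      ∑ kl ∈ Finset.HasAntidiagonal.antidiagonal n, PowerSeries.coeff kl.1 a * z ^ kl.1 *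
        (PowerSeries.coeff kl.2 b * z ^ kl.2) := by
    funext n
    rw [PowerSeries.coeff_mul, Finset.sum_mul]
    refine Finset.sum_congr rfl fun kl hkl => ?_
    rw [Finset.HasAntidiagonal.mem_antidiagonal] at hkl
    rw [← hkl, pow_add]
    ring
  rw [h7]
  have h8 := (summable_norm_iff.1 h6).hasSum
  rw [← h5, h1.tsum_eq, h2.tsum_eq] at h8
  exact h8

theorem PS.mono (c : ℂ) (m : ℕ) : PS (PowerSeries.C c * PowerSeries.X ^ m) (fun z => c * z ^ m) := by
  refine ⟨1, one_pos, fun z _ _ => ?_⟩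
  have h := hasSum_single (f := fun k => PowerSeries.coeff k (PowerSeries.C c * PowerSeries.X ^ m) *
    z ^ k) m (fun k hk => by rw [PowerSeries.coeff_C_mul, PowerSeries.coeff_X_pow, if_neg hk]; ring)
  have e : PowerSeries.coeff m (PowerSeries.C c * PowerSeries.X ^ m) * z ^ m = c * z ^ m := by
    rw [PowerSeries.coeff_C_mul, PowerSeries.coeff_X_pow, if_pos rfl, mul_one]
  rw [e] at h
  exact h

theorem PS.zero {a : PowerSeries ℂ} (h : PS a (fun _ => 0)) : a = 0 := by
  obtain ⟨r, hr, h⟩ := h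
  set d : ℕ → ℂ := fun k => PowerSeries.coeff k a with hd
  set p := FormalMultilinearSeries.ofScalars ℂ d with hp
  have hr2 : (0 : ℝ) < r / 2 := by positivity
  have hrad : (((r / 2).toNNReal : NNReal) : ENNReal) ≤ p.radius := by
    refine p.le_radius_of_summable_norm ?_
    have h1 := summable_norm_iff.2 (h ((r / 2 : ℝ) : ℂ) (by exact_mod_cast hr2.ne')
      (by rw [Complex.norm_real, Real.norm_of_nonneg hr2.le]; linarith)).summable
    refine h1.congr fun n => ?_
    rw [hp, FormalMultilinearSeries.ofScalars_norm, norm_mul, norm_pow, Complex.norm_real,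
      Real.norm_of_nonneg hr2.le, Real.coe_toNNReal _ hr2.le]
  have hpos : 0 < p.radius := lt_of_lt_of_le (by simpa using hr2) hrad
  have h1 := p.hasFPowerSeriesOnBall hpos
  have h2 : ∀ z : ℂ, z ≠ 0 → ‖z‖ < r → p.sum z = 0 := by
    intro z hz hz2
    have h3 := (h z hz hz2).tsum_eq
    have h4 : p.sum z = ∑' b : ℕ, PowerSeries.coeff b a * z ^ b := by
      rw [FormalMultilinearSeries.sum]
      refine tsum_congr fun n => ?_
      rw [hp, FormalMultilinearSeries.ofScalars_apply_eq, smul_eq_mul]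
    rw [h4, h3]
  have h3 : ContinuousAt p.sum 0 := h1.continuousOn.continuousAt (Metric.eball_mem_nhds 0 hpos)
  have h4 : ∀ᶠ z in 𝓝[≠] (0 : ℂ), p.sum z = 0 := by
    rw [eventually_nhdsWithin_iff, Metric.eventually_nhds_iff]
    refine ⟨r, hr, fun z hz hz0 => h2 z hz0 ?_⟩
    rwa [dist_zero_right] at hz
  have h5 : p.sum 0 = 0 := by
    have h6 : Tendsto p.sum (𝓝[≠] (0 : ℂ)) (𝓝 0) :=
      tendsto_const_nhds.congr' (h4.mono fun z hz => hz.symm)
    exact tendsto_nhds_unique (h3.tendsto.mono_left nhdsWithin_le_nhds) h6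
  have h6 : ∀ᶠ z in 𝓝 (0 : ℂ), p.sum z = (0 : ℂ → ℂ) z := by
    rw [Metric.eventually_nhds_iff]
    refine ⟨r, hr, fun z hz => ?_⟩
    rw [dist_zero_right] at hz
    rcases eq_or_ne z 0 with rfl | h0
    · exact h5
    · exact h2 z h0 hz
  have h7 := (h1.hasFPowerSeriesAt.congr h6).eq_zero
  rw [hp, FormalMultilinearSeries.ofScalars_series_eq_zero] at h7
  ext k
  exact congrFun h7 k

theorem PS.unique {a b : PowerSeries ℂ} {F : ℂ → ℂ} (ha : PS a F) (hb : PS b F) : a = b := by
  have h1 := ha.add ((PS.mono (-1) 0).mul hb)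
  have h2 : PS (a + PowerSeries.C (-1) * PowerSeries.X ^ 0 * b) (fun _ => 0) :=
    h1.congr (Eventually.of_forall fun z => by ring)
  have h3 := h2.zero
  rw [pow_zero, mul_one, map_neg, map_one] at h3
  linear_combination h3

/-! ### The expansion of the Weierstrass function -/

/-- The Taylor coefficients of `u ^ 2 ℘(u)`. -/
noncomputable def ac (τ : ℂ) (k : ℕ) : ℂ :=
  if k = 0 then 1 else if k ≤ 2 then 0 else ((k : ℂ) - 1) * gk k 1 τ

/-- The first order equation between the power series of `u ^ 2 ℘` and `u ^ 3 ℘'`. -/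
theorem lattice_gap {τ : ℂ} (hτ : 0 < τ.im) : ∃ r : ℝ, 0 < r ∧
    ∀ l : (PP hτ).lattice, l.1 ≠ 0 → r ≤ ‖l.1‖ := by
  obtain ⟨r, hr, h⟩ := Metric.mem_nhds_iff.1 ((PP hτ).compl_lattice_sdiff_singleton_mem_nhds 0)
  refine ⟨r, hr, fun l hl => ?_⟩
  by_contra hlt
  have h1 : l.1 ∈ Metric.ball (0 : ℂ) r := by
    rw [Metric.mem_ball, dist_zero_right]
    exact not_le.1 hlt
  exact h h1 ⟨l.2, hl⟩

theorem PS_wp {τ : ℂ} (hτ : 0 < τ.im) : ∃ r : ℝ, 0 < r ∧ ∀ z : ℂ, z ≠ 0 → ‖z‖ < r →
    HasSum (fun k => ac τ k * z ^ k) (z ^ 2 * wp 1 τ z) := by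
  obtain ⟨r, hr, hgap⟩ := lattice_gap hτ
  refine ⟨r, hr, fun z hz hz2 => ?_⟩
  have h1 := (PP hτ).weierstrassPExceptSeries_hasSum 0 z 0 (by
    intro l hl
    rw [sub_zero, sub_zero]
    exact hz2.trans_le (hgap l hl))
  have h2 := h1.mul_left (z ^ 2)
  have h3 := (hasSum_nat_add_iff' (f := fun k => ac τ k * z ^ k)
    (g := z ^ 2 * wp 1 τ z) 2).1
  refine h3 ?_
  have h4 : z ^ 2 * wp 1 τ z - ∑ i ∈ Finset.range 2, ac τ i * z ^ i =
      z ^ 2 * (PP hτ).weierstrassPExcept 0 z := by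
    rw [← wpE_PP hτ, wp_eq_E hτ, Finset.sum_range_succ, Finset.sum_range_one]
    simp only [ac]
    norm_num
    field_simp
    ring
  rw [h4]
  have h5 : (fun n => ac τ (n + 2) * z ^ (n + 2)) =
      fun n => z ^ 2 * (((PP hτ).weierstrassPExceptSeries 0 0).coeff n * (z - 0) ^ n) := by
    funext n
    unfold PeriodPair.weierstrassPExceptSeries
    rw [FormalMultilinearSeries.coeff_ofScalars, sub_zero]
    rcases Nat.eq_zero_or_pos n with rfl | hn
    · rw [if_pos rfl, (PP hτ).weierstrassPExcept_zero]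
      simp [ac]
    · rw [if_neg hn.ne', if_pos (zero_mem _), (PP hτ).sumInvPow_zero, ← gk_PP hτ]
      simp only [ac]
      rw [if_neg (by omega), if_neg (by omega), sub_zero, zero_pow (by omega), inv_zero, sub_zero]
      push_cast
      ring
  rw [h5]
  exact h2

theorem PS_wpd {τ : ℂ} (hτ : 0 < τ.im) : ∃ r : ℝ, 0 < r ∧ ∀ z : ℂ, z ≠ 0 → ‖z‖ < r →
    HasSum (fun k : ℕ => ((k : ℂ) - 2) * ac τ k * z ^ k) (z ^ 3 * wpd τ z) := by
  obtain ⟨r, hr, hgap⟩ := lattice_gap hτ
  refine ⟨r / 2, by positivity, fun z hz hz2 => ?_⟩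
  have hr2 : (0 : ℝ) < r / 2 := by positivity
  have h0 := (PP hτ).hasFPowerSeriesOnBall_derivWeierstrassPExcept 0 0 ⟨r / 2, hr2.le⟩ hr2 (by
    intro x hx hx2
    obtain ⟨hx2, hx3⟩ := hx2
    rw [Metric.mem_closedBall, dist_zero_right] at hx
    have := hgap ⟨x, hx2⟩ hx3
    have hx' : ‖x‖ ≤ r / 2 := hx
    have h' : r ≤ ‖x‖ := this
    linarith)
  have h1 := h0.hasSum (y := z) (by
    rw [Metric.mem_eball, edist_zero_right, enorm_eq_nnnorm]
    have : ‖z‖₊ < ⟨r / 2, hr2.le⟩ := hz2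
    exact ENNReal.coe_lt_coe.2 this)
  rw [zero_add] at h1
  have h2 := h1.mul_left (z ^ 3)
  refine (hasSum_nat_add_iff' (f := fun k : ℕ => ((k : ℂ) - 2) * ac τ k * z ^ k)
    (g := z ^ 3 * wpd τ z) 3).1 ?_
  have h4 : z ^ 3 * wpd τ z - ∑ i ∈ Finset.range 3, ((i : ℂ) - 2) * ac τ i * z ^ i =
      z ^ 3 * (PP hτ).derivWeierstrassPExcept 0 z := by
    rw [← wpdE_PP hτ, wpd_eq_E hτ, Finset.sum_range_succ, Finset.sum_range_succ,
      Finset.sum_range_one]
    simp only [ac]
    norm_num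
    field_simp
    ring
  rw [h4]
  have h5 : (fun n => (((n + 3 : ℕ) : ℂ) - 2) * ac τ (n + 3) * z ^ (n + 3)) =
      fun n => z ^ 3 * ((PP hτ).derivWeierstrassPExceptSeries 0 0 n fun _ => z) := by
    funext n
    unfold PeriodPair.derivWeierstrassPExceptSeries
    rw [FormalMultilinearSeries.ofScalars_apply_eq, smul_eq_mul, if_pos (zero_mem _),
      (PP hτ).sumInvPow_zero, ← gk_PP hτ]
    simp only [ac]
    rw [if_neg (by omega), if_neg (by omega), sub_zero, zero_pow (by omega), inv_zero, sub_zero]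
    push_cast
    ring
  rw [h5]
  exact h2

/-! ### The recursion -/

/-- The power series of `u ^ 2 ℘(u)`. -/
noncomputable def hh (τ : ℂ) : PowerSeries ℂ := PowerSeries.mk (ac τ)

/-- The power series of `u ^ 3 ℘'(u)`. -/
noncomputable def ww (τ : ℂ) : PowerSeries ℂ := PowerSeries.mk (fun k => ((k : ℂ) - 2) * ac τ k)

theorem first_order {τ : ℂ} (hτ : 0 < τ.im) : ww τ * ww τ =
    4 * (hh τ * hh τ * hh τ) - PowerSeries.C (gg2 τ) * PowerSeries.X ^ 4 * hh τ -
      PowerSeries.C (gg3 τ) * PowerSeries.X ^ 6 := by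
  have h1 : PS (hh τ) (fun z => z ^ 2 * wp 1 τ z) := by
    obtain ⟨r, hr, h⟩ := PS_wp hτ
    refine ⟨r, hr, fun z hz hz2 => ?_⟩
    simp only [hh, PowerSeries.coeff_mk]
    exact h z hz hz2
  have h2 : PS (ww τ) (fun z => z ^ 3 * wpd τ z) := by
    obtain ⟨r, hr, h⟩ := PS_wpd hτ
    refine ⟨r, hr, fun z hz hz2 => ?_⟩
    simp only [ww, PowerSeries.coeff_mk]
    exact h z hz hz2
  have h3 := h2.mul h2
  have h4 := (((PS.mono 4 0).mul ((h1.mul h1).mul h1)).add
    ((PS.mono (-gg2 τ) 4).mul h1)).add (PS.mono (-gg3 τ) 6)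
  have h5 := h3.congr (G := fun z => 4 * z ^ 0 * (z ^ 2 * wp 1 τ z * (z ^ 2 * wp 1 τ z) *
      (z ^ 2 * wp 1 τ z)) + -gg2 τ * z ^ 4 * (z ^ 2 * wp 1 τ z) + -gg3 τ * z ^ 6) (by
    filter_upwards [eventually_notMem hτ] with z hz
    have := wpd_sq hτ hz
    linear_combination z ^ 6 * this)
  rw [h5.unique h4, map_neg, map_neg, pow_zero, mul_one]
  have h6 : (PowerSeries.C 4 : PowerSeries ℂ) = 4 := by
    rw [show (4 : ℂ) = ((4 : ℕ) : ℂ) by norm_num, map_natCast]
    norm_num
  rw [h6]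
  ring

theorem theta_coeff (f : PowerSeries ℂ) (k : ℕ) :
    PowerSeries.coeff k (PowerSeries.X * PowerSeries.derivative ℂ f) =
      (k : ℂ) * PowerSeries.coeff k f := by
  rcases k with _ | k
  · simp
  · rw [PowerSeries.coeff_succ_X_mul, PowerSeries.coeff_derivative]
    push_cast
    ring

theorem theta_hh (τ : ℂ) : PowerSeries.X * PowerSeries.derivative ℂ (hh τ) =
    ww τ + 2 * hh τ := by
  ext k
  have h2 : PowerSeries.coeff k (2 * hh τ) = 2 * ac τ k := by
    rw [two_mul, map_add, hh, PowerSeries.coeff_mk]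
    ring
  rw [theta_coeff, map_add, h2]
  simp only [hh, ww, PowerSeries.coeff_mk]
  ring

theorem second_order {τ : ℂ} (hτ : 0 < τ.im) :
    2 * (PowerSeries.X * PowerSeries.derivative ℂ (ww τ)) =
      12 * (hh τ * hh τ) - PowerSeries.C (gg2 τ) * PowerSeries.X ^ 4 + 6 * ww τ := by
  have h1 := first_order hτ
  have h2 := theta_hh τ
  have h3 := congrArg (PowerSeries.derivative ℂ) h1
  have hX : PowerSeries.derivative ℂ (PowerSeries.X : PowerSeries ℂ) = 1 :=
    PowerSeries.derivative_X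
  have hC : ∀ c : ℂ, PowerSeries.derivative ℂ (PowerSeries.C c) = 0 := fun c =>
    PowerSeries.derivative_C
  have h4 : PowerSeries.derivative ℂ (4 : PowerSeries ℂ) = 0 := by
    have h6 : (PowerSeries.C 4 : PowerSeries ℂ) = 4 := by
      rw [show (4 : ℂ) = ((4 : ℕ) : ℂ) by norm_num, map_natCast]
      norm_num
    rw [← h6]
    exact hC 4
  simp only [map_sub, Derivation.leibniz, Derivation.leibniz_pow, hX, hC, h4, smul_eq_mul,
    nsmul_eq_mul] at h3
  have hw : ww τ ≠ 0 := by
    intro h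
    have h5 := congrArg (PowerSeries.coeff 0) h
    simp [ww, ac] at h5
  have h6 : ww τ * (2 * (PowerSeries.X * PowerSeries.derivative ℂ (ww τ)) -
      (12 * (hh τ * hh τ) - PowerSeries.C (gg2 τ) * PowerSeries.X ^ 4 + 6 * ww τ)) = 0 := by
    push_cast at h3
    norm_num at h3
    linear_combination PowerSeries.X * h3 - 6 * h1 + (12 * (hh τ * hh τ) - PowerSeries.C (gg2 τ) *
      PowerSeries.X ^ 4) * h2
  exact sub_eq_zero.1 ((mul_eq_zero.1 h6).resolve_left hw)

theorem ac_rec {τ : ℂ} (hτ : 0 < τ.im) (k : ℕ) (hk : 7 ≤ k) :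
    ((((k - 6) * (k + 1) : ℕ)) : ℂ) * ac τ k =
      6 * ∑ i ∈ Finset.range (k - 1), ac τ (i + 1) * ac τ (k - 1 - i) := by
  have h1 := congrArg (PowerSeries.coeff k) (second_order hτ)
  have e2 : ∀ f : PowerSeries ℂ, PowerSeries.coeff k (2 * f) = 2 * PowerSeries.coeff k f := by
    intro f
    rw [two_mul, map_add]
    ring
  have e6 : ∀ f : PowerSeries ℂ, PowerSeries.coeff k (6 * f) = 6 * PowerSeries.coeff k f := by
    intro f
    have : (6 : PowerSeries ℂ) = PowerSeries.C 6 := by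
      rw [show (6 : ℂ) = ((6 : ℕ) : ℂ) by norm_num, map_natCast]
      norm_num
    rw [this, PowerSeries.coeff_C_mul]
  have e12 : ∀ f : PowerSeries ℂ, PowerSeries.coeff k (12 * f) = 12 * PowerSeries.coeff k f := by
    intro f
    have : (12 : PowerSeries ℂ) = PowerSeries.C 12 := by
      rw [show (12 : ℂ) = ((12 : ℕ) : ℂ) by norm_num, map_natCast]
      norm_num
    rw [this, PowerSeries.coeff_C_mul]
  rw [e2, theta_coeff, map_add, map_sub, e12, e6, PowerSeries.coeff_C_mul,
    PowerSeries.coeff_X_pow, if_neg (by omega), PowerSeries.coeff_mul,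
    Finset.Nat.sum_antidiagonal_eq_sum_range_succ (f := fun i j =>
      PowerSeries.coeff i (hh τ) * PowerSeries.coeff j (hh τ))] at h1
  simp only [hh, ww, PowerSeries.coeff_mk] at h1
  obtain ⟨m, rfl⟩ : ∃ m, k = m + 7 := ⟨k - 7, by omega⟩
  rw [Finset.sum_range_succ, Finset.sum_range_succ'] at h1
  have h2 : ∑ i ∈ Finset.range (m + 6), ac τ (i + 1) * ac τ (m + 7 - (i + 1)) =
      ∑ i ∈ Finset.range (m + 7 - 1), ac τ (i + 1) * ac τ (m + 7 - 1 - i) := by
    refine Finset.sum_congr rfl fun i hi => ?_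
    congr 2
    omega
  rw [h2] at h1
  have h3 : ac τ 0 = 1 := by simp [ac]
  have e5 : m + 7 - 6 = m + 1 := by omega
  rw [Nat.sub_zero, Nat.sub_self, h3] at h1
  rw [e5]
  push_cast at h1 ⊢
  linear_combination h1 / 2

theorem ac_small {τ : ℂ} (hτ : 0 < τ.im) (k : ℕ) (h1 : 1 ≤ k) (h : k < 4) : ac τ k = 0 := by
  have : k = 1 ∨ k = 2 ∨ k = 3 := by omega
  rcases this with rfl | rfl | rfl
  · simp [ac]
  · simp [ac]
  · have h3 := G3_zero hτ
    rw [← gk_PP hτ] at h3
    simp only [ac]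
    rw [if_neg (by omega), if_neg (by omega), h3, mul_zero]

theorem ac_four (τ : ℂ) : ac τ 4 = gg2 τ / 20 := by
  simp only [ac]
  rw [if_neg (by omega), if_neg (by omega), gg2]
  push_cast
  ring

theorem ac_five {τ : ℂ} (hτ : 0 < τ.im) : ac τ 5 = 0 := by
  have h3 := (PP hτ).G_eq_zero_of_odd 5 (by decide)
  rw [← gk_PP hτ] at h3
  simp only [ac]
  rw [if_neg (by omega), if_neg (by omega), h3, mul_zero]

theorem ac_six (τ : ℂ) : ac τ 6 = gg3 τ / 28 := by
  simp only [ac]
  rw [if_neg (by omega), if_neg (by omega), gg3]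
  push_cast
  ring

/-! ### Divisibility -/

theorem dvd_M (K k : ℕ) (hk : 7 ≤ k) (hK : k ≤ K) :
    (k - 6) * (k + 1) ∣ ((2 * K + 3).factorial ^ 2) ^ 3 := by
  have h1 : (k - 6) ∣ (2 * K + 3).factorial := Nat.dvd_factorial (by omega) (by omega)
  have h2 : (k + 1) ∣ (2 * K + 3).factorial := Nat.dvd_factorial (by omega) (by omega)
  have h3 := Nat.mul_dvd_mul h1 h2
  rw [← pow_two] at h3
  exact h3.trans (dvd_pow_self _ (by norm_num))

theorem dvd_20 (K : ℕ) (hK : 4 ≤ K) : 20 ∣ (2 * K + 3).factorial ^ 2 := by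
  have h1 : 4 ∣ (2 * K + 3).factorial := Nat.dvd_factorial (by omega) (by omega)
  have h2 : 5 ∣ (2 * K + 3).factorial := Nat.dvd_factorial (by omega) (by omega)
  have h3 := Nat.mul_dvd_mul h1 h2
  rw [← pow_two] at h3
  exact h3

theorem dvd_28 (K : ℕ) (hK : 6 ≤ K) : 28 ∣ ((2 * K + 3).factorial ^ 2) ^ 3 := by
  have h1 : 4 ∣ (2 * K + 3).factorial := Nat.dvd_factorial (by omega) (by omega)
  have h2 : 7 ∣ (2 * K + 3).factorial := Nat.dvd_factorial (by omega) (by omega)
  have h3 := Nat.mul_dvd_mul h1 h2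
  rw [← pow_two] at h3
  exact h3.trans (dvd_pow_self _ (by norm_num))

theorem aeval_phi {τ μ : ℂ} (hτ : 0 < τ.im) (K : ℕ) (k : ℕ) (h1 : 1 ≤ k) (hk : k ≤ K) :
    ((((2 * K + 3).factorial ^ 2 : ℕ)) : ℂ) ^ 3 *
      aeval ![μ ^ 4 * gg2 τ, μ ^ 6 * gg3 τ] (phi ((2 * K + 3).factorial ^ 2) k) =
      ((((2 * K + 3).factorial ^ 2 : ℕ)) : ℂ) ^ k * (ac τ k * μ ^ k) := by
  set M := (2 * K + 3).factorial ^ 2 with hM
  induction k using Nat.strong_induction_on with
  | _ k ih =>
    rcases Nat.lt_or_ge k 4 with h4 | h4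
    · rw [phi_small M k h4, ac_small hτ k h1 h4, map_zero]
      ring
    rcases Nat.lt_or_ge k 7 with h7 | h7
    · have : k = 4 ∨ k = 5 ∨ k = 6 := by omega
      rcases this with rfl | rfl | rfl
      · obtain ⟨d, hd⟩ := dvd_20 K hk
        rw [← hM] at hd
        have hd2 : M / 20 = d := by rw [hd]; omega
        rw [phi_four, ac_four, map_mul, hd2, aeval_X, aeval_C, Matrix.cons_val_zero, hd]
        simp only [algebraMap_int_eq, Int.coe_castRingHom]
        push_cast
        ring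
      · rw [phi_five, ac_five hτ, map_zero]
        ring
      · obtain ⟨d, hd⟩ := dvd_28 K hk
        rw [← hM] at hd
        have hd2 : M ^ 3 / 28 = d := by rw [hd]; omega
        have hd3 : ((M : ℕ) : ℂ) ^ 3 = 28 * d := by exact_mod_cast congrArg (fun n : ℕ => (n : ℂ)) hd
        rw [phi_six, ac_six, map_mul, hd2, aeval_X, aeval_C, Matrix.cons_val_one,
          Matrix.cons_val_fin_one]
        have e : ((M : ℕ) : ℂ) ^ 6 = ((M : ℕ) : ℂ) ^ 3 * ((M : ℕ) : ℂ) ^ 3 := by ring
        rw [e, hd3]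
        simp only [algebraMap_int_eq, Int.coe_castRingHom]
        push_cast
        ring
    · obtain ⟨d, hd⟩ := dvd_M K k h7 hk
      rw [← hM] at hd
      have hpos : 0 < (k - 6) * (k + 1) := Nat.mul_pos (by omega) (by omega)
      have hd2 : M ^ 3 / ((k - 6) * (k + 1)) = d := by
        rw [hd]
        exact Nat.mul_div_cancel_left d hpos
      have hd3 : ((M : ℕ) : ℂ) ^ 3 = (((k - 6) * (k + 1) : ℕ) : ℂ) * d := by
        exact_mod_cast congrArg (fun n : ℕ => (n : ℂ)) hd
      have hne : ((((k - 6) * (k + 1) : ℕ)) : ℂ) ≠ 0 := by exact_mod_cast hpos.ne'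
      apply mul_left_cancel₀ hne
      rw [phi_rec M k h7, hd2, map_mul, map_sum, aeval_C]
      simp only [algebraMap_int_eq, Int.coe_castRingHom, map_mul]
      have h8 : ∀ i ∈ Finset.range (k - 1),
          (((M : ℕ) : ℂ) ^ 3 * ((M : ℕ) : ℂ) ^ 3) *
          (aeval ![μ ^ 4 * gg2 τ, μ ^ 6 * gg3 τ] (phi M (i + 1)) *
            aeval ![μ ^ 4 * gg2 τ, μ ^ 6 * gg3 τ] (phi M (k - 1 - i))) =
          (((M : ℕ) : ℂ) ^ k * μ ^ k) * (ac τ (i + 1) * ac τ (k - 1 - i)) := by
        intro i hi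
        rw [Finset.mem_range] at hi
        have h9 := ih (i + 1) (by omega) (by omega) (by omega)
        have h10 := ih (k - 1 - i) (by omega) (by omega) (by omega)
        have e : k = (i + 1) + (k - 1 - i) := by omega
        have e1 : ((M : ℕ) : ℂ) ^ k = ((M : ℕ) : ℂ) ^ (i + 1) * ((M : ℕ) : ℂ) ^ (k - 1 - i) := by
          rw [← pow_add, ← e]
        have e2 : μ ^ k = μ ^ (i + 1) * μ ^ (k - 1 - i) := by
          rw [← pow_add, ← e]
        rw [e1, e2]
        calc _ = (((M : ℕ) : ℂ) ^ 3 * aeval ![μ ^ 4 * gg2 τ, μ ^ 6 * gg3 τ] (phi M (i + 1))) *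
              (((M : ℕ) : ℂ) ^ 3 *
                aeval ![μ ^ 4 * gg2 τ, μ ^ 6 * gg3 τ] (phi M (k - 1 - i))) := by ring
          _ = _ := by rw [h9, h10]; ring
      have h9 := Finset.sum_congr rfl h8
      rw [← Finset.mul_sum, ← Finset.mul_sum] at h9
      have h10 := ac_rec hτ k h7
      push_cast at hd3 h10 ⊢
      linear_combination 6 * h9 - (((M : ℕ) : ℂ) ^ 3 * 6 * (∑ i ∈ Finset.range (k - 1),
        aeval ![μ ^ 4 * gg2 τ, μ ^ 6 * gg3 τ] (phi M (i + 1)) *
            aeval ![μ ^ 4 * gg2 τ, μ ^ 6 * gg3 τ] (phi M (k - 1 - i)))) * hd3 -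
        (((M : ℕ) : ℂ) ^ k * μ ^ k) * h10

end Pool.Agent.Work.MP_8da9ea_nt.EB.I_PhiT

namespace Pool.Agent.Work.MP_8da9ea_nt.EB

open MvPolynomial Metric Filter Topology Pool.Agent.Work.MP_327059_nt.GL
  Pool.Agent.Work.MP_8da9ea_nt.S I_PhiT

theorem PhiT_pf : S_PhiT := by
  intro K
  have hM : 1 ≤ (2 * K + 3).factorial ^ 2 := Nat.one_le_pow _ _ (Nat.factorial_pos _)
  have hM' : (1 : ℝ) ≤ (((2 * K + 3).factorial ^ 2 : ℕ) : ℝ) := by exact_mod_cast hM
  refine ⟨(2 * K + 3).factorial ^ 2, fun k => if k = 0 then 1 else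
    C ((((2 * K + 3).factorial ^ 2) ^ 3 : ℕ) : ℤ) * phi ((2 * K + 3).factorial ^ 2) k,
    hM, le_refl _, if_pos rfl, ?_, ?_⟩
  · intro k _
    dsimp only
    by_cases h0 : k = 0
    · subst h0
      rw [if_pos rfl, totalDegree_one, pow_zero]
      exact ⟨le_refl _, Val_len_one⟩
    · rw [if_neg h0]
      obtain ⟨h1, h2⟩ := phi_size _ hM k
      refine ⟨?_, ?_⟩
      · refine (totalDegree_mul _ _).trans ?_
        rw [totalDegree_C, zero_add]
        exact h1
      · refine (Val_len_mul _ _).trans ?_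
        rcases Nat.lt_or_ge k 4 with h4 | h4
        · rw [phi_small _ k h4, len_zero', mul_zero]
          positivity
        · have h3 := Val_len_C (σ := Fin 2) ((((2 * K + 3).factorial ^ 2) ^ 3 : ℕ) : ℤ)
          rw [Int.cast_natCast, Nat.abs_cast] at h3
          calc _ ≤ (((((2 * K + 3).factorial ^ 2) ^ 3 : ℕ)) : ℝ) *
                ((((2 * K + 3).factorial ^ 2 : ℕ)) : ℝ) ^ (k - 3) :=
                mul_le_mul h3 (h2 h4) (Val_len_nonneg _) (by positivity)
            _ = ((((2 * K + 3).factorial ^ 2 : ℕ)) : ℝ) ^ k := by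
                rw [Nat.cast_pow ((2 * K + 3).factorial ^ 2) 3, ← pow_add]
                congr 1
                omega
  · intro τ μ hτ hμ
    obtain ⟨r, hr, h⟩ := PS_wp hτ
    have hμ' : 0 < ‖μ‖ := norm_pos_iff.2 hμ
    refine ⟨fun k => ac τ k * μ ^ k, r / ‖μ‖, by positivity, ?_, ?_⟩
    · intro z hz hz0
      have h1 := h (μ * z) (mul_ne_zero hμ hz0) (by
        rw [norm_mul, mul_comm]
        exact (lt_div_iff₀ hμ').1 hz)
      have e : z ^ 2 * xe τ μ (μ * z) = (μ * z) ^ 2 * wp 1 τ (μ * z) := by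
        unfold xe
        ring
      rw [e]
      have e2 : (fun k => ac τ k * μ ^ k * z ^ k) = fun k => ac τ k * (μ * z) ^ k := by
        funext k
        rw [mul_pow]
        ring
      rw [e2]
      exact h1
    · intro k hk
      dsimp only
      by_cases h0 : k = 0
      · subst h0
        simp [ac]
      · rw [if_neg h0, map_mul, aeval_C, ← aeval_phi hτ K k (by omega) hk]
        simp only [algebraMap_int_eq, Int.coe_castRingHom]
        push_cast
        ring

end Pool.Agent.Work.MP_8da9ea_nt.EB
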