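import Pool.Agent.Work.MP_8da9ea_nt.EB.StmtsT

/-!
# Elliptic block: the auxiliary function
-/

set_option autoImplicit false

namespace Pool.Agent.Work.MP_8da9ea_nt.EB.I_PsiE

open MvPolynomial Metric Filter Topology Pool.Agent.Work.MP_327059_nt.GL
  Pool.Agent.Work.MP_8da9ea_nt.S Pool.Agent.Work.MP_8da9ea_nt.EB

theorem Psi_pow_le (t : ℝ) (ht : 0 ≤ t) (n : ℕ) : t ^ n ≤ Real.exp (n * t) := by
  have h1 : t ≤ Real.exp t := by linarith [Real.add_one_le_exp t]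
  calc t ^ n ≤ Real.exp t ^ n := pow_le_pow_left₀ ht h1 n
    _ = Real.exp (n * t) := (Real.exp_nat_mul t n).symm

theorem Psi_two_le (n : ℕ) : (2 : ℝ) ^ n ≤ Real.exp n := by
  have h2 : (2 : ℝ) ≤ Real.exp 1 := by linarith [Real.add_one_le_exp (1 : ℝ)]
  calc (2 : ℝ) ^ n ≤ Real.exp 1 ^ n := pow_le_pow_left₀ (by norm_num) h2 n
    _ = Real.exp (n * 1) := (Real.exp_nat_mul 1 n).symm
    _ = Real.exp n := by rw [mul_one]

theorem Psi_le_two (n : ℕ) : Real.exp ((n : ℝ) / 2) ≤ (2 : ℝ) ^ n := by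
  have h0 : Real.exp (1 / 2 : ℝ) ≤ 2 := by
    have h1 : Real.exp (1 / 2 : ℝ) * Real.exp (1 / 2 : ℝ) = Real.exp 1 := by
      rw [← Real.exp_add]; norm_num
    have h2 := Real.exp_one_lt_d9
    have h3 := Real.exp_pos (1 / 2 : ℝ)
    by_contra hc
    rw [not_le] at hc
    nlinarith
  calc Real.exp ((n : ℝ) / 2) = Real.exp (n * (1 / 2 : ℝ)) := by ring_nf
    _ = Real.exp (1 / 2 : ℝ) ^ n := Real.exp_nat_mul _ n
    _ ≤ 2 ^ n := pow_le_pow_left₀ (Real.exp_pos _).le h0 n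

theorem tay (f : ℂ → ℂ) (ρ M : ℝ) (hρ : 0 < ρ) (hf : DifferentiableOn ℂ f (ball 0 (4 * ρ)))
    (hM : ∀ z ∈ ball (0 : ℂ) (4 * ρ), ‖f z‖ ≤ M) :
    ∃ c : ℕ → ℂ, (∀ z : ℂ, ‖z‖ ≤ ρ → HasSum (fun k => c k * z ^ k) (f z)) ∧
      ∀ k, ‖c k‖ * ρ ^ k ≤ M / 2 ^ k := by
  refine ⟨fun k => (k.factorial : ℂ)⁻¹ * iteratedDeriv k f 0, ?_, ?_⟩
  · intro z hz
    have hr : z ∈ ball (0 : ℂ) (⟨4 * ρ, by positivity⟩ : NNReal) := by
      rw [mem_ball_zero_iff]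
      show ‖z‖ < 4 * ρ
      linarith
    have h1 := Complex.hasSum_taylorSeries_on_ball (f := f) (c := 0)
      (r := (⟨4 * ρ, by positivity⟩ : NNReal)) hf hr
    refine h1.congr_fun ?_
    intro n
    simp only [sub_zero, smul_eq_mul]
    ring
  · intro k
    have h2 : DiffContOnCl ℂ f (ball 0 (2 * ρ)) := by
      have h3 : DifferentiableOn ℂ f (closure (ball 0 (2 * ρ))) := by
        refine hf.mono ?_
        rw [closure_ball _ (by positivity)]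
        intro w hw
        rw [mem_closedBall_zero_iff] at hw
        rw [mem_ball_zero_iff]
        linarith
      exact h3.diffContOnCl
    have h4 := Complex.norm_iteratedDeriv_le_of_forall_mem_sphere_norm_le (n := k)
      (by positivity : (0 : ℝ) < 2 * ρ) h2 (C := M) (by
        intro w hw
        refine hM w ?_
        rw [mem_sphere_zero_iff_norm] at hw
        rw [mem_ball_zero_iff, hw]
        linarith)
    rw [norm_mul, norm_inv, Complex.norm_natCast]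
    have hk : (0 : ℝ) < (k.factorial : ℝ) := by exact_mod_cast k.factorial_pos
    have hr : (0 : ℝ) < ρ ^ k := by positivity
    calc (k.factorial : ℝ)⁻¹ * ‖iteratedDeriv k f 0‖ * ρ ^ k
        ≤ (k.factorial : ℝ)⁻¹ * (k.factorial * M / (2 * ρ) ^ k) * ρ ^ k := by gcongr
      _ = M / 2 ^ k := by
          rw [mul_pow]
          field_simp

theorem num (G q m k κ : ℕ) (C1 C3 : ℝ) (h1 : 0 ≤ C1) (h3 : 0 ≤ C3) (hk1 : κ + 1 ≤ k)
    (hk2 : q + 5 ≤ k) (T : ℕ) (hT4 : 4 ≤ T)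
    (hTC : 4 * ((4 + (G : ℝ) * 4 ^ G) + k * G + (q * m : ℕ) * G + 1 + G * C1 + C3) ≤ T) :
    Real.exp (C3 * (T : ℝ) ^ (q + 3)) * ((4 * ((T ^ k : ℕ) : ℝ) ^ G + G * 4 ^ G) *
      ((((T ^ q) ^ m : ℕ) : ℝ) ^ G * 2 ^ (T ^ (q + 4)) *
        Real.exp (C1 * (T : ℝ) ^ (q + 3)) ^ G) / 2 ^ (T ^ k)) ≤
      Real.exp (-((T : ℝ) ^ κ)) := by
  set t : ℝ := (T : ℝ) with ht
  have ht4 : (4 : ℝ) ≤ t := by rw [ht]; exact_mod_cast hT4
  have ht1 : (1 : ℝ) ≤ t := by linarith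
  have ht0 : (0 : ℝ) ≤ t := by linarith
  set X : ℝ := t ^ (q + 4) with hX
  have hX1 : 1 ≤ X := one_le_pow₀ ht1
  have hX0 : 0 ≤ X := by linarith
  have htX : t ≤ X := le_self_pow₀ ht1 (by omega)
  have hYX : t ^ (q + 3) ≤ X := pow_le_pow_right₀ ht1 (by omega)
  have ha : 4 * ((T ^ k : ℕ) : ℝ) ^ G + G * 4 ^ G ≤
      Real.exp ((4 + (G : ℝ) * 4 ^ G) * X + k * G * X) := by
    have e1 : ((T ^ k : ℕ) : ℝ) ^ G = t ^ (k * G) := by
      push_cast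
      rw [← pow_mul]
    rw [e1]
    have e2 : (1 : ℝ) ≤ t ^ (k * G) := one_le_pow₀ ht1
    have e3 : (0 : ℝ) ≤ (G : ℝ) * 4 ^ G := by positivity
    calc 4 * t ^ (k * G) + G * 4 ^ G ≤ (4 + (G : ℝ) * 4 ^ G) * t ^ (k * G) := by nlinarith
      _ ≤ Real.exp ((4 + (G : ℝ) * 4 ^ G) * X) * Real.exp (k * G * X) := by
          refine mul_le_mul ?_ ?_ (by positivity) (Real.exp_pos _).le
          · have e4 : (4 + (G : ℝ) * 4 ^ G) ≤ (4 + (G : ℝ) * 4 ^ G) * X :=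
              le_mul_of_one_le_right (by positivity) hX1
            linarith [Real.add_one_le_exp ((4 + (G : ℝ) * 4 ^ G) * X)]
          · refine (Psi_pow_le t ht0 (k * G)).trans (Real.exp_le_exp.2 ?_)
            push_cast
            exact mul_le_mul_of_nonneg_left htX (by positivity)
      _ = _ := by rw [← Real.exp_add]
  have hb : (((T ^ q) ^ m : ℕ) : ℝ) ^ G ≤ Real.exp (((q * m : ℕ) : ℝ) * G * X) := by
    have e1 : (((T ^ q) ^ m : ℕ) : ℝ) ^ G = t ^ (q * m * G) := by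
      push_cast
      rw [← pow_mul, ← pow_mul, mul_assoc]
    rw [e1]
    refine (Psi_pow_le t ht0 _).trans (Real.exp_le_exp.2 ?_)
    push_cast
    exact mul_le_mul_of_nonneg_left htX (by positivity)
  have hc : (2 : ℝ) ^ (T ^ (q + 4)) ≤ Real.exp X := by
    refine (Psi_two_le _).trans (le_of_eq ?_)
    congr 1
    push_cast
    rfl
  have hd : Real.exp (C1 * t ^ (q + 3)) ^ G ≤ Real.exp (G * C1 * X) := by
    rw [← Real.exp_nat_mul]
    refine Real.exp_le_exp.2 ?_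
    rw [← mul_assoc]
    exact mul_le_mul_of_nonneg_left hYX (by positivity)
  have he : Real.exp (C3 * t ^ (q + 3)) ≤ Real.exp (C3 * X) :=
    Real.exp_le_exp.2 (mul_le_mul_of_nonneg_left hYX h3)
  have hh := Psi_le_two (T ^ k)
  have hhp : (0 : ℝ) < 2 ^ (T ^ k) := by positivity
  rw [← mul_div_assoc, div_le_iff₀ hhp]
  calc Real.exp (C3 * t ^ (q + 3)) * ((4 * ((T ^ k : ℕ) : ℝ) ^ G + G * 4 ^ G) *
      ((((T ^ q) ^ m : ℕ) : ℝ) ^ G * 2 ^ (T ^ (q + 4)) * Real.exp (C1 * t ^ (q + 3)) ^ G))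
      ≤ Real.exp (C3 * X) * (Real.exp ((4 + (G : ℝ) * 4 ^ G) * X + k * G * X) *
        (Real.exp (((q * m : ℕ) : ℝ) * G * X) * Real.exp X * Real.exp (G * C1 * X))) := by
        gcongr
    _ = Real.exp (((4 + (G : ℝ) * 4 ^ G) + k * G + (q * m : ℕ) * G + 1 + G * C1 + C3) * X) := by
        rw [← Real.exp_add, ← Real.exp_add, ← Real.exp_add, ← Real.exp_add]
        congr 1
        ring
    _ ≤ Real.exp (-(t ^ κ) + t ^ k / 2) := by
        refine Real.exp_le_exp.2 ?_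
        have e1 : t * X ≤ t ^ k := by
          calc t * X = t ^ (q + 5) := by rw [hX]; ring
            _ ≤ t ^ k := pow_le_pow_right₀ ht1 hk2
        have e2 : 4 * t ^ κ ≤ t ^ k := by
          calc 4 * t ^ κ ≤ t * t ^ κ := mul_le_mul_of_nonneg_right ht4 (by positivity)
            _ = t ^ (κ + 1) := by ring
            _ ≤ t ^ k := pow_le_pow_right₀ ht1 hk1
        have e3 := mul_le_mul_of_nonneg_right hTC hX0
        linarith
    _ = Real.exp (-(t ^ κ)) * Real.exp (t ^ k / 2) := by rw [← Real.exp_add]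
    _ ≤ Real.exp (-(t ^ κ)) * 2 ^ (T ^ k) := by
        refine mul_le_mul_of_nonneg_left ?_ (Real.exp_pos _).le
        refine le_trans (le_of_eq ?_) hh
        push_cast
        rfl

theorem arith (m e₁ e₂ q T : ℕ) (hm : 2 ≤ m) (hq : e₁ * (m ^ 2 + m) + (e₂ + 5) * (m + 2) ≤ q)
    (hT : 4 ≤ T) :
    4 * (T ^ ((q + e₁) * (m - 1) + e₂ + 5)) ^ (m + 1 + 1) ≤
      T ^ (q + 4) * ((T ^ q) ^ m) ^ (m + 1) := by
  obtain ⟨a, rfl⟩ : ∃ a, m = a + 2 := ⟨m - 2, by omega⟩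
  have h1 : a + 2 - 1 = a + 1 := by omega
  rw [h1, ← pow_mul, ← pow_mul, ← pow_mul, ← pow_add]
  calc 4 * T ^ (((q + e₁) * (a + 1) + e₂ + 5) * (a + 2 + 1 + 1))
      ≤ T * T ^ (((q + e₁) * (a + 1) + e₂ + 5) * (a + 2 + 1 + 1)) :=
        Nat.mul_le_mul_right _ hT
    _ = T ^ (((q + e₁) * (a + 1) + e₂ + 5) * (a + 2 + 1 + 1) + 1) := by
        rw [pow_succ]; ring
    _ ≤ T ^ (q + 4 + q * ((a + 2) * (a + 2 + 1))) := by
        refine Nat.pow_le_pow_right (by omega) ?_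
        nlinarith [Nat.zero_le a, Nat.zero_le e₁, Nat.zero_le (a * e₁), Nat.zero_le e₂,
          Nat.zero_le (e₂ * a)]

theorem prod_split {m : ℕ} (W : ℕ) (M : ℂ) (x : Fin m → Fin W) (qv gv wv : Fin m → ℂ)
    (h : ∀ j, gv j = qv j ^ 2 * wv j) :
    ∏ j, ((M * gv j) ^ (x j : ℕ) * qv j ^ (2 * (W - (x j : ℕ)))) =
      (∏ j, qv j ^ (2 * W)) * ∏ j, (M * wv j) ^ (x j : ℕ) := by
  rw [← Finset.prod_mul_distrib]
  refine Finset.prod_congr rfl fun j _ => ?_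
  obtain ⟨r, hr⟩ : ∃ r, W = (x j : ℕ) + r := ⟨W - (x j : ℕ), by have := (x j).2; omega⟩
  have h1 : W - (x j : ℕ) = r := by omega
  have h2 : 2 * W = 2 * (x j : ℕ) + 2 * r := by omega
  rw [h1, h2, h j, pow_add, mul_pow, mul_pow, mul_pow, ← pow_mul]
  ring

theorem bnd {m : ℕ} (W : ℕ) (M : ℂ) (x : Fin m → Fin W) (qv gv : Fin m → ℂ) (E L : ℝ)
    (hE : 1 ≤ E) (hL : 1 ≤ L) (hM : ‖M‖ ≤ L) (hq : ∀ j, ‖qv j‖ ≤ E) (hg : ∀ j, ‖gv j‖ ≤ E) :
    ‖∏ j, ((M * gv j) ^ (x j : ℕ) * qv j ^ (2 * (W - (x j : ℕ))))‖ ≤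
      (L ^ W * E ^ (2 * W)) ^ m := by
  rw [norm_prod]
  calc ∏ j, ‖(M * gv j) ^ (x j : ℕ) * qv j ^ (2 * (W - (x j : ℕ)))‖
      ≤ ∏ _j : Fin m, L ^ W * E ^ (2 * W) := by
        refine Finset.prod_le_prod (fun _ _ => norm_nonneg _) fun j _ => ?_
        rw [norm_mul, norm_pow, norm_pow, norm_mul, mul_pow]
        have h1 := (x j).2
        have h2 : ‖M‖ ^ (x j : ℕ) ≤ L ^ W :=
          (pow_le_pow_left₀ (norm_nonneg _) hM _).trans (pow_le_pow_right₀ hL h1.le)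
        have h3 : ‖gv j‖ ^ (x j : ℕ) ≤ E ^ (x j : ℕ) := pow_le_pow_left₀ (norm_nonneg _) (hg j) _
        have h4 : ‖qv j‖ ^ (2 * (W - (x j : ℕ))) ≤ E ^ (2 * (W - (x j : ℕ))) :=
          pow_le_pow_left₀ (norm_nonneg _) (hq j) _
        calc ‖M‖ ^ (x j : ℕ) * ‖gv j‖ ^ (x j : ℕ) * ‖qv j‖ ^ (2 * (W - (x j : ℕ)))
            ≤ L ^ W * E ^ (x j : ℕ) * E ^ (2 * (W - (x j : ℕ))) := by gcongr
          _ = L ^ W * E ^ ((x j : ℕ) + 2 * (W - (x j : ℕ))) := by rw [mul_assoc, ← pow_add]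
          _ ≤ L ^ W * E ^ (2 * W) := by
              refine mul_le_mul_of_nonneg_left (pow_le_pow_right₀ hE (by omega)) (by positivity)
    _ = (L ^ W * E ^ (2 * W)) ^ m := by
        rw [Finset.prod_const, Finset.card_univ, Fintype.card_fin]

theorem fin_step {m G W : ℕ} (E A B : ℝ) (hE : 0 ≤ E) (d qn : Fin G → Fin m → ℝ)
    (hd : ∀ i j, 0 ≤ d i j) (hdq : ∀ i j, d i j ≤ E * qn i j) (hA : 0 ≤ A)
    (h : A * ∏ i, ∏ j, qn i j ^ (2 * W) ≤ B) :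
    A * ∏ i, ∏ j, d i j ^ (2 * W) ≤ (E ^ (2 * W)) ^ (m * G) * B := by
  have h1 : ∏ i, ∏ j, d i j ^ (2 * W) ≤ ∏ i, ∏ j, (E * qn i j) ^ (2 * W) := by
    refine Finset.prod_le_prod (fun i _ => Finset.prod_nonneg fun j _ => pow_nonneg (hd i j) _)
      fun i _ => ?_
    exact Finset.prod_le_prod (fun j _ => pow_nonneg (hd i j) _) fun j _ =>
      pow_le_pow_left₀ (hd i j) (hdq i j) _
  have h2 : ∏ i, ∏ j, (E * qn i j) ^ (2 * W) =
      (E ^ (2 * W)) ^ (m * G) * ∏ i, ∏ j, qn i j ^ (2 * W) := by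
    simp only [mul_pow, Finset.prod_mul_distrib, Finset.prod_const, Finset.card_univ,
      Fintype.card_fin]
    rw [← pow_mul _ m G]
  calc A * ∏ i, ∏ j, d i j ^ (2 * W) ≤ A * ∏ i, ∏ j, (E * qn i j) ^ (2 * W) :=
        mul_le_mul_of_nonneg_left h1 hA
    _ = (E ^ (2 * W)) ^ (m * G) * (A * ∏ i, ∏ j, qn i j ^ (2 * W)) := by rw [h2]; ring
    _ ≤ _ := mul_le_mul_of_nonneg_left h (by positivity)

end Pool.Agent.Work.MP_8da9ea_nt.EB.I_PsiE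

namespace Pool.Agent.Work.MP_8da9ea_nt.EB

open MvPolynomial Metric Filter Topology Pool.Agent.Work.MP_327059_nt.GL
  Pool.Agent.Work.MP_8da9ea_nt.S I_PsiE

theorem PsiE_pf (h1 : S_QT) (h2 : S_PLm) : S_PsiE := by
  intro m e₁ e₂ hm
  refine ⟨e₁ * (m ^ 2 + m) + (e₂ + 5) * (m + 2), ?_⟩
  intro q hq τ μ hτ hμ b R₀ hR₀
  obtain ⟨C, hC1, hC⟩ := h1 τ hτ
  obtain ⟨β, hβ⟩ : ∃ β : ℝ, β = 1 + ∑ j, ‖b j‖ := ⟨_, rfl⟩
  have hβ1 : 1 ≤ β := by
    have := Finset.sum_nonneg (s := Finset.univ) fun (j : Fin m) _ => norm_nonneg (b j)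
    linarith
  have hβj : ∀ j, ‖b j‖ ≤ β := by
    intro j
    have := Finset.single_le_sum (s := Finset.univ) (f := fun j => ‖b j‖)
      (fun j _ => norm_nonneg (b j)) (Finset.mem_univ j)
    linarith
  obtain ⟨L, hL⟩ : ∃ L : ℝ, L = ‖μ‖ ^ 2 := ⟨_, rfl⟩
  have hL0 : 0 ≤ L := by rw [hL]; positivity
  obtain ⟨B3, hB3⟩ : ∃ B3 : ℝ, B3 = C * (β * R₀) ^ 3 := ⟨_, rfl⟩
  have hB30 : 0 ≤ B3 := by rw [hB3]; positivity
  obtain ⟨C1, hC1'⟩ : ∃ C1 : ℝ, C1 = (L + 2 * B3) * m := ⟨_, rfl⟩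
  obtain ⟨C3, hC3'⟩ : ∃ C3 : ℝ, C3 = 2 * B3 * (m * (m + 1)) := ⟨_, rfl⟩
  have hC10 : 0 ≤ C1 := by rw [hC1']; positivity
  have hC30 : 0 ≤ C3 := by rw [hC3']; positivity
  obtain ⟨k, hk⟩ : ∃ k, k = (q + e₁) * (m - 1) + e₂ + 5 := ⟨_, rfl⟩
  obtain ⟨T₀, hT₀⟩ := exists_nat_ge (4 * ((4 + ((m + 1 : ℕ) : ℝ) * 4 ^ (m + 1)) +
    k * ((m + 1 : ℕ) : ℝ) + (q * m : ℕ) * ((m + 1 : ℕ) : ℝ) + 1 + ((m + 1 : ℕ) : ℝ) * C1 + C3))
  refine ⟨T₀ + 4, fun T hT => ?_⟩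
  have hT4 : 4 ≤ T := by omega
  have hT1 : 1 ≤ T := by omega
  have hTr : (1 : ℝ) ≤ T := by exact_mod_cast hT1
  have hTT : (T₀ : ℝ) ≤ T := by exact_mod_cast (by omega : T₀ ≤ T)
  have hρ1 : 1 ≤ R₀ * T := one_le_mul_of_one_le_of_one_le hR₀ hTr
  have hR1 : 1 ≤ β * (R₀ * T) := one_le_mul_of_one_le_of_one_le hβ1 hρ1
  obtain ⟨Q, g, hQd, hgd, -, hup, hlow⟩ := hC (β * (R₀ * T)) hR1
  have hCR : C * (β * (R₀ * T)) ^ 3 = B3 * (T : ℝ) ^ 3 := by rw [hB3]; ring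
  rw [hCR] at hup hlow
  obtain ⟨E, hE⟩ : ∃ E : ℝ, E = Real.exp (B3 * (T : ℝ) ^ 3) := ⟨_, rfl⟩
  have hE1 : 1 ≤ E := by
    rw [hE]
    exact Real.one_le_exp (by positivity)
  rw [← hE] at hup
  have hball : ∀ z ∈ ball (0 : ℂ) (4 * (R₀ * T)), ∀ j, b j * z ∈ ball (0 : ℂ)
      (4 * (β * (R₀ * T))) := by
    intro z hz j
    rw [mem_ball_zero_iff] at hz ⊢
    rw [norm_mul]
    calc ‖b j‖ * ‖z‖ ≤ β * ‖z‖ := mul_le_mul_of_nonneg_right (hβj j) (norm_nonneg _)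
      _ < β * (4 * (R₀ * T)) := mul_lt_mul_of_pos_left hz (by linarith)
      _ = 4 * (β * (R₀ * T)) := by ring
  have hμL : ‖μ ^ 2‖ ≤ Real.exp L := by
    rw [norm_pow, ← hL]
    linarith [Real.add_one_le_exp L]
  -- the functions
  have hfd : ∀ x : Fin m → Fin (T ^ q), DifferentiableOn ℂ
      (fun z => ∏ j, ((μ ^ 2 * g (b j * z)) ^ (x j : ℕ) *
        Q (b j * z) ^ (2 * (T ^ q - (x j : ℕ))))) (ball 0 (4 * (R₀ * T))) := by
    intro x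
    refine DifferentiableOn.fun_finsetProd fun j _ => ?_
    refine DifferentiableOn.mul ?_ ?_
    · refine DifferentiableOn.pow ?_ _
      refine DifferentiableOn.const_mul ?_ _
      exact hgd.comp (differentiableOn_id.const_mul _) fun z hz => hball z hz j
    · refine DifferentiableOn.pow ?_ _
      exact hQd.differentiableOn.comp (t := Set.univ) (differentiableOn_id.const_mul _)
        fun z _ => Set.mem_univ _
  have hfb : ∀ x : Fin m → Fin (T ^ q), ∀ z ∈ ball (0 : ℂ) (4 * (R₀ * T)),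
      ‖∏ j, ((μ ^ 2 * g (b j * z)) ^ (x j : ℕ) *
        Q (b j * z) ^ (2 * (T ^ q - (x j : ℕ))))‖ ≤ Real.exp (C1 * (T : ℝ) ^ (q + 3)) := by
    intro x z hz
    refine (bnd (T ^ q) (μ ^ 2) x (fun j => Q (b j * z)) (fun j => g (b j * z)) E (Real.exp L)
      hE1 (Real.one_le_exp hL0) hμL (fun j => (hup _ (hball z hz j)).1)
      (fun j => (hup _ (hball z hz j)).2.1)).trans ?_
    rw [hE, ← Real.exp_nat_mul, ← Real.exp_nat_mul, ← Real.exp_add, ← Real.exp_nat_mul]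
    refine Real.exp_le_exp.2 ?_
    push_cast
    have e1 : (T : ℝ) ^ q ≤ (T : ℝ) ^ (q + 3) := pow_le_pow_right₀ hTr (by omega)
    have e2 : (T : ℝ) ^ (q + 3) = (T : ℝ) ^ q * (T : ℝ) ^ 3 := by ring
    calc (m : ℝ) * ((T : ℝ) ^ q * L + 2 * (T : ℝ) ^ q * (B3 * (T : ℝ) ^ 3))
        = m * ((T : ℝ) ^ q * L) + m * (2 * B3 * (T : ℝ) ^ (q + 3)) := by rw [e2]; ring
      _ ≤ m * ((T : ℝ) ^ (q + 3) * L) + m * (2 * B3 * (T : ℝ) ^ (q + 3)) := by gcongr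
      _ = C1 * (T : ℝ) ^ (q + 3) := by rw [hC1']; ring
  choose c hc1 hc2 using fun x : Fin m → Fin (T ^ q) =>
    tay _ (R₀ * T) _ (by linarith) (hfd x) (hfb x)
  have hcard : Fintype.card (Fin m → Fin (T ^ q)) = (T ^ q) ^ m := by
    simp [Fintype.card_fin]
  have hA1 : (1 : ℝ) ≤ Real.exp (C1 * (T : ℝ) ^ (q + 3)) := Real.one_le_exp (by positivity)
  have hK1 : 1 ≤ T ^ k := Nat.one_le_pow _ _ hT1
  obtain ⟨p, hp0, hp, hz⟩ := h2 (Fin m → Fin (T ^ q)) (m + 1) (T ^ k) (T ^ (q + 4)) c (R₀ * T) _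
    (by linarith) hA1 hK1 (by omega) hc2 (by
      rw [hcard, hk]
      exact arith m e₁ e₂ q T hm hq hT4)
  refine ⟨p, hp0, hp, fun z hz' hzL => ?_⟩
  have h3 := hz z hz'
  have h4 : ∀ x : Fin (m + 1) → Fin m → Fin (T ^ q), ∀ i, ∑' k, c (x i) k * z i ^ k =
      (∏ j, Q (b j * z i) ^ (2 * T ^ q)) * ∏ j, xe τ μ (b j * z i) ^ (x i j : ℕ) := by
    intro x i
    rw [(hc1 (x i) (z i) (hz' i)).tsum_eq]
    refine prod_split (T ^ q) (μ ^ 2) (x i) (fun j => Q (b j * z i)) (fun j => g (b j * z i))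
      (fun j => wp 1 τ (b j * z i)) fun j => ?_
    refine (hup _ ?_).2.2 (hzL i j)
    refine hball _ ?_ j
    rw [mem_ball_zero_iff]
    have := hz' i
    linarith
  have h5 : ∑ x : Fin (m + 1) → Fin m → Fin (T ^ q), (p x : ℂ) * ∏ i, ∑' k, c (x i) k * z i ^ k =
      AF τ μ b p z * ∏ i, ∏ j, Q (b j * z i) ^ (2 * T ^ q) := by
    unfold AF
    rw [Finset.sum_mul]
    refine Finset.sum_congr rfl fun x _ => ?_
    simp only [h4]
    rw [Finset.prod_mul_distrib]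
    ring
  rw [h5, norm_mul, norm_prod] at h3
  simp only [norm_prod, norm_pow] at h3
  have h6 := fin_step (W := T ^ q) E ‖AF τ μ b p z‖ _ (by linarith)
    (fun i j => d1 τ (b j * z i)) (fun i j => ‖Q (b j * z i)‖)
    (fun i j => le_min zero_le_one Metric.infDist_nonneg) (fun i j => by
      have e1 : ‖b j * z i‖ ≤ β * (R₀ * T) := by
        rw [norm_mul]
        exact mul_le_mul (hβj j) (hz' i) (norm_nonneg _) (by linarith)
      have e2 := hlow _ e1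
      have e3 : E * (Real.exp (-(B3 * (T : ℝ) ^ 3)) * d1 τ (b j * z i)) = d1 τ (b j * z i) := by
        rw [hE, ← mul_assoc, ← Real.exp_add, add_neg_cancel, Real.exp_zero, one_mul]
      calc d1 τ (b j * z i) = E * (Real.exp (-(B3 * (T : ℝ) ^ 3)) * d1 τ (b j * z i)) := e3.symm
        _ ≤ E * ‖Q (b j * z i)‖ := mul_le_mul_of_nonneg_left e2 (by linarith))
    (norm_nonneg _) h3
  refine h6.trans ?_
  have h7 : (E ^ (2 * T ^ q)) ^ (m * (m + 1)) = Real.exp (C3 * (T : ℝ) ^ (q + 3)) := by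
    rw [hE, ← Real.exp_nat_mul, ← Real.exp_nat_mul]
    congr 1
    rw [hC3']
    push_cast
    ring
  rw [h7, hcard]
  refine num (m + 1) q m k _ C1 C3 hC10 hC30 ?_ ?_ T hT4 (hT₀.trans hTT)
  · omega
  · obtain ⟨a, rfl⟩ : ∃ a, m = a + 2 := ⟨m - 2, by omega⟩
    have e1 : a + 2 - 1 = a + 1 := by omega
    rw [hk, e1]
    nlinarith [Nat.zero_le (q * a), Nat.zero_le (e₁ * (a + 1))]

end Pool.Agent.Work.MP_8da9ea_nt.EB
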