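import Pool.Agent.Work.MP_8da9ea_nt.EB.StmtsT

/-! Item QT: clearing the poles of `℘`. -/

set_option autoImplicit false

namespace Pool.Agent.Work.MP_8da9ea_nt.EB

open Metric Filter Topology

namespace I_QT

theorem one_le_nr {q : ℤ × ℤ} (hq : q ≠ 0) : 1 ≤ nr q := by
  by_cases h1 : q.1 = 0
  · have h2 : q.2 ≠ 0 := fun h => hq (Prod.ext h1 h)
    refine le_trans ?_ (nr_ge_snd q)
    exact_mod_cast Int.one_le_abs h2
  · refine le_trans ?_ (nr_ge_fst q)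
    exact_mod_cast Int.one_le_abs h1

theorem lp_sub (τ : ℂ) (q q' : ℤ × ℤ) : lp 1 τ q - lp 1 τ q' = lp 1 τ (q - q') := by
  simp only [lp, Prod.fst_sub, Prod.snd_sub]
  push_cast
  ring

theorem norm_lp_le (τ : ℂ) (q : ℤ × ℤ) : ‖lp 1 τ q‖ ≤ (1 + ‖τ‖) * nr q := by
  unfold lp
  refine (norm_add_le _ _).trans ?_
  rw [mul_one, norm_mul, Complex.norm_intCast, Complex.norm_intCast]
  have h1 := nr_ge_fst q
  have h2 := nr_ge_snd q
  have h3 := norm_nonneg τ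
  nlinarith

/-- The finite index set. -/
noncomputable def SS (K : ℝ) : Finset (ℤ × ℤ) := (finite_nr K).toFinset

theorem mem_SS {K : ℝ} {q : ℤ × ℤ} : q ∈ SS K ↔ nr q ≤ K := by
  unfold SS
  rw [Set.Finite.mem_toFinset]
  exact Iff.rfl

theorem zero_mem_SS {K : ℝ} (hK : 0 ≤ K) : (0 : ℤ × ℤ) ∈ SS K := by
  rw [mem_SS, nr_zero]
  exact hK

theorem card_SS_le {K : ℝ} (hK : 0 ≤ K) : ((SS K).card : ℝ) ≤ (2 * K + 1) ^ 2 := by
  have hsub : SS K ⊆ Finset.Icc (-(⌊K⌋₊ : ℤ)) ⌊K⌋₊ ×ˢ Finset.Icc (-(⌊K⌋₊ : ℤ)) ⌊K⌋₊ := by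
    intro q hq
    rw [mem_SS] at hq
    have key : ∀ x : ℤ, |(x : ℝ)| ≤ nr q → x ∈ Finset.Icc (-(⌊K⌋₊ : ℤ)) ⌊K⌋₊ := by
      intro x hx
      have h1 : ((x.natAbs : ℕ) : ℝ) ≤ K := by
        rw [Nat.cast_natAbs]
        push_cast
        exact hx.trans hq
      have h2 : x.natAbs ≤ ⌊K⌋₊ := Nat.le_floor h1
      rw [Finset.mem_Icc]
      omega
    rw [Finset.mem_product]
    exact ⟨key _ (nr_ge_fst q), key _ (nr_ge_snd q)⟩
  have h1 := Finset.card_le_card hsub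
  rw [Finset.card_product, Int.card_Icc] at h1
  have h2 : (((⌊K⌋₊ : ℤ) + 1 - -(⌊K⌋₊ : ℤ)).toNat) = 2 * ⌊K⌋₊ + 1 := by omega
  rw [h2] at h1
  have h3 : ((SS K).card : ℝ) ≤ ((2 * ⌊K⌋₊ + 1 : ℕ) : ℝ) * ((2 * ⌊K⌋₊ + 1 : ℕ) : ℝ) := by
    exact_mod_cast h1
  refine h3.trans ?_
  push_cast
  have h4 := Nat.floor_le hK
  have h5 : (0 : ℝ) ≤ (⌊K⌋₊ : ℝ) := Nat.cast_nonneg _
  nlinarith

/-- The product of the linear factors. -/
noncomputable def pq (τ : ℂ) (S : Finset (ℤ × ℤ)) (u : ℂ) : ℂ := ∏ q ∈ S, (u - lp 1 τ q)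

theorem diff_pq (τ : ℂ) (S : Finset (ℤ × ℤ)) : Differentiable ℂ (pq τ S) := by
  unfold pq
  fun_prop

theorem pq_le {τ : ℂ} {S : Finset (ℤ × ℤ)} {u : ℂ} {b : ℝ}
    (h : ∀ q ∈ S, ‖u - lp 1 τ q‖ ≤ b) : ‖pq τ S u‖ ≤ b ^ S.card := by
  unfold pq
  rw [norm_prod]
  refine (Finset.prod_le_prod (fun _ _ => norm_nonneg _) h).trans ?_
  rw [Finset.prod_const]

/-- The lower bound of the product. -/
theorem pq_ge {τ : ℂ} {c : ℝ} (hc : 0 < c) (hlow : ∀ q : ℤ × ℤ, c * nr q ≤ ‖lp 1 τ q‖)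
    (S : Finset (ℤ × ℤ)) (u : ℂ) : (min 1 (c / 2)) ^ S.card * d1 τ u ≤ ‖pq τ S u‖ := by
  classical
  set κ : ℝ := min 1 (c / 2) with hκ
  have hκ0 : 0 < κ := lt_min one_pos (by linarith)
  have hκ1 : κ ≤ 1 := min_le_left _ _
  have hd1 : d1 τ u ≤ 1 := min_le_left _ _
  have hd0 : 0 ≤ d1 τ u := le_min zero_le_one Metric.infDist_nonneg
  unfold pq
  rw [norm_prod]
  by_cases h : ∃ q₀ ∈ S, ‖u - lp 1 τ q₀‖ < c / 2
  · obtain ⟨q₀, hq₀, hq₀'⟩ := h
    rw [← Finset.mul_prod_erase S _ hq₀]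
    have h1 : d1 τ u ≤ ‖u - lp 1 τ q₀‖ := by
      refine (min_le_right _ _).trans ?_
      rw [← dist_eq_norm]
      exact Metric.infDist_le_dist_of_mem ⟨q₀, rfl⟩
    have h2 : κ ^ (S.erase q₀).card ≤ ∏ q ∈ S.erase q₀, ‖u - lp 1 τ q‖ := by
      rw [← Finset.prod_const]
      refine Finset.prod_le_prod (fun _ _ => hκ0.le) (fun q hq => ?_)
      have h3 : q - q₀ ≠ 0 := sub_ne_zero.2 (Finset.ne_of_mem_erase hq)
      have h4 : c ≤ ‖lp 1 τ (q - q₀)‖ := by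
        refine le_trans ?_ (hlow _)
        have := one_le_nr h3
        nlinarith
      rw [← lp_sub] at h4
      have h5 : ‖lp 1 τ q - lp 1 τ q₀‖ ≤ ‖u - lp 1 τ q₀‖ + ‖u - lp 1 τ q‖ := by
        have e : lp 1 τ q - lp 1 τ q₀ = (u - lp 1 τ q₀) - (u - lp 1 τ q) := by ring
        rw [e]
        exact norm_sub_le _ _
      exact (min_le_right _ _).trans (by linarith)
    have h6 : κ ^ S.card ≤ κ ^ (S.erase q₀).card :=
      pow_le_pow_of_le_one hκ0.le hκ1 (Finset.card_le_card (Finset.erase_subset _ _))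
    calc κ ^ S.card * d1 τ u ≤ κ ^ (S.erase q₀).card * ‖u - lp 1 τ q₀‖ :=
          mul_le_mul h6 h1 hd0 (by positivity)
      _ = ‖u - lp 1 τ q₀‖ * κ ^ (S.erase q₀).card := by ring
      _ ≤ _ := mul_le_mul_of_nonneg_left h2 (norm_nonneg _)
  · have h2 : κ ^ S.card ≤ ∏ q ∈ S, ‖u - lp 1 τ q‖ := by
      rw [← Finset.prod_const]
      refine Finset.prod_le_prod (fun _ _ => hκ0.le) (fun q hq => ?_)
      refine (min_le_right _ _).trans ?_
      by_contra h3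
      exact h ⟨q, hq, not_le.1 h3⟩
    calc κ ^ S.card * d1 τ u ≤ κ ^ S.card * 1 :=
          mul_le_mul_of_nonneg_left hd1 (by positivity)
      _ = κ ^ S.card := mul_one _
      _ ≤ _ := h2

/-- The holomorphic continuation of `q^2 ℘`. -/
noncomputable def gq (τ : ℂ) (S : Finset (ℤ × ℤ)) (u : ℂ) : ℂ :=
  (∑ q ∈ S, pq τ (S.erase q) u ^ 2) - pq τ S u ^ 2 * (∑ q ∈ S, 1 / (lp 1 τ q) ^ 2) +
    pq τ S u ^ 2 * wpE (S : Set (ℤ × ℤ)) τ u

theorem gq_eq {τ : ℂ} (hτ : 0 < τ.im) (S : Finset (ℤ × ℤ)) {u : ℂ} (hu : u ∉ Lam τ) :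
    gq τ S u = pq τ S u ^ 2 * wp 1 τ u := by
  classical
  have h1 : wp 1 τ u = ∑ q ∈ S, wpT 1 τ u q + wpE (S : Set (ℤ × ℤ)) τ u := by
    unfold wp wpE
    refine tsum_split_aux S _ _ (fun q => ?_) (summable_exc _ (summable_wpT hτ u))
    by_cases hq : q ∈ S
    · rw [exc_mem (by exact_mod_cast hq), if_pos hq]
    · rw [exc_not_mem (by exact_mod_cast hq), if_neg hq]
  have h2 : ∑ q ∈ S, pq τ (S.erase q) u ^ 2 = pq τ S u ^ 2 * ∑ q ∈ S, 1 / (u - lp 1 τ q) ^ 2 := by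
    rw [Finset.mul_sum]
    refine Finset.sum_congr rfl fun q hq => ?_
    have h3 : pq τ S u = (u - lp 1 τ q) * pq τ (S.erase q) u := by
      unfold pq
      exact (Finset.mul_prod_erase S _ hq).symm
    have h4 : u - lp 1 τ q ≠ 0 := by
      intro h
      exact hu ⟨q, (sub_eq_zero.1 h).symm⟩
    rw [h3, mul_pow]
    field_simp
  unfold gq
  rw [h1, h2]
  unfold wpT
  rw [Finset.sum_sub_distrib]
  ring

theorem diff_slice {F : ℂ → ℂ → ℂ} {L : ℂ × ℂ →L[ℂ] ℂ} {τ z : ℂ}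
    (h : HasFDerivAt (fun p : ℂ × ℂ => F p.1 p.2) L (τ, z)) :
    DifferentiableAt ℂ (fun w => F τ w) z := by
  have h2 : HasFDerivAt (fun w : ℂ => ((τ, w) : ℂ × ℂ))
      ((0 : ℂ →L[ℂ] ℂ).prod (ContinuousLinearMap.id ℂ ℂ)) z :=
    (hasFDerivAt_const τ z).prodMk (hasFDerivAt_id z)
  exact (HasFDerivAt.comp z h h2).differentiableAt

theorem diff_wpE {τ : ℂ} (hτ : 0 < τ.im) (T : Set (ℤ × ℤ)) {u : ℂ}
    (hu : ∀ q ∉ T, u ≠ lp 1 τ q) : DifferentiableAt ℂ (fun z => wpE T τ z) u :=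
  diff_slice (F := wpE T) (hasFDerivAt_wpE T hτ hu)

theorem wpE_le {τ : ℂ} {c : ℝ} (hc : 0 < c) (hlow : ∀ q : ℤ × ℤ, c * nr q ≤ ‖lp 1 τ q‖)
    (T : Set (ℤ × ℤ)) {R : ℝ} (hR : 0 < R) {u : ℂ} (hu : ‖u‖ ≤ R)
    (hT : ∀ q ∉ T, 2 * R ≤ ‖lp 1 τ q‖ ∧ 0 < nr q) :
    ‖wpE T τ u‖ ≤ 10 * (R + R ^ 2) / c ^ 3 * ∑' q : ℤ × ℤ, (nr q ^ 3)⁻¹ := by
  unfold wpE
  rw [← tsum_mul_left]
  refine tsum_of_norm_bounded ((summable_nr.mul_left _).hasSum) fun q => ?_
  have hn := nr_nonneg q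
  by_cases hq : q ∈ T
  · rw [exc_mem hq, norm_zero]
    positivity
  · rw [exc_not_mem hq]
    obtain ⟨h1, h2⟩ := hT q hq
    refine (wpT_bound hR hu h1).trans ?_
    have h3 : (c * nr q) ^ 3 ≤ ‖lp 1 τ q‖ ^ 3 := by
      have := hlow q
      gcongr
    calc 10 * (R + R ^ 2) / ‖lp 1 τ q‖ ^ 3 ≤ 10 * (R + R ^ 2) / (c * nr q) ^ 3 := by
          gcongr
      _ = (10 * (R + R ^ 2) / c ^ 3) * (nr q ^ 3)⁻¹ := by
          rw [mul_pow]; field_simp

end I_QT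

theorem QT_pf : S_QT := by
  classical
  intro τ hτ
  obtain ⟨c, hc, hlow'⟩ := exists_lower |τ.re| τ.im hτ
  have hlow : ∀ q : ℤ × ℤ, c * nr q ≤ ‖lp 1 τ q‖ := hlow' τ le_rfl le_rfl
  set σ : ℝ := ∑' q : ℤ × ℤ, (nr q ^ 3)⁻¹ with hσ
  have hσ0 : 0 ≤ σ := tsum_nonneg fun q => by have := nr_nonneg q; positivity
  set a : ℝ := 4 + 8 * (1 + ‖τ‖) / c with ha
  have ha4 : 4 ≤ a := by
    have : 0 ≤ 8 * (1 + ‖τ‖) / c := by positivity
    linarith
  set C0 : ℝ := (16 / c + 1) ^ 2 with hC0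
  have hC00 : 0 ≤ C0 := by positivity
  set κ : ℝ := min 1 (c / 2) with hκ
  have hκ0 : 0 < κ := lt_min one_pos (by linarith)
  have hκ1 : κ ≤ 1 := min_le_left _ _
  set lam : ℝ := -Real.log κ with hlam
  have hlam0 : 0 ≤ lam := by
    have := Real.log_nonpos hκ0.le hκ1
    linarith
  set E : ℝ := a * C0 with hE
  have hE0 : 0 ≤ E := by positivity
  set D : ℝ := C0 + C0 / c ^ 2 + 200 * σ / c ^ 3 with hD
  have hD0 : 0 ≤ D := by positivity
  refine ⟨1 + 2 * E + D + lam * C0, by nlinarith [mul_nonneg hlam0 hC00], ?_⟩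
  intro R hR
  have hR0 : 0 < R := by linarith
  have hR3 : (0 : ℝ) < R ^ 3 := by positivity
  set K : ℝ := 8 * R / c with hK
  have hK0 : 0 ≤ K := by positivity
  set S : Finset (ℤ × ℤ) := I_QT.SS K with hS
  have hcard : (S.card : ℝ) ≤ C0 * R ^ 2 := by
    refine (I_QT.card_SS_le hK0).trans ?_
    have h1 : 2 * K + 1 ≤ (16 / c + 1) * R := by
      have : 2 * K = 16 / c * R := by rw [hK]; ring
      rw [this]
      nlinarith
    calc (2 * K + 1) ^ 2 ≤ ((16 / c + 1) * R) ^ 2 := pow_le_pow_left₀ (by positivity) h1 2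
      _ = C0 * R ^ 2 := by rw [hC0]; ring
  have hcard3 : (S.card : ℝ) ≤ C0 * R ^ 3 := by
    refine hcard.trans (mul_le_mul_of_nonneg_left ?_ hC00)
    exact pow_le_pow_right₀ hR (by norm_num)
  -- factors
  have haR : 1 ≤ a * R := by nlinarith
  have hfac : ∀ u ∈ ball (0 : ℂ) (4 * R), ∀ q ∈ S, ‖u - lp 1 τ q‖ ≤ a * R := by
    intro u hu q hq
    rw [mem_ball_zero_iff] at hu
    rw [hS, I_QT.mem_SS] at hq
    have h1 := I_QT.norm_lp_le τ q
    have h2 : (1 + ‖τ‖) * nr q ≤ (1 + ‖τ‖) * K := mul_le_mul_of_nonneg_left hq (by positivity)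
    have h3 : (1 + ‖τ‖) * K = 8 * (1 + ‖τ‖) / c * R := by rw [hK]; ring
    calc ‖u - lp 1 τ q‖ ≤ ‖u‖ + ‖lp 1 τ q‖ := norm_sub_le _ _
      _ ≤ 4 * R + 8 * (1 + ‖τ‖) / c * R := by linarith
      _ = a * R := by rw [ha]; ring
  have hprod : ∀ u ∈ ball (0 : ℂ) (4 * R), ∀ T ⊆ S, ‖I_QT.pq τ T u‖ ≤ Real.exp (E * R ^ 3) := by
    intro u hu T hT
    refine (I_QT.pq_le (fun q hq => hfac u hu q (hT hq))).trans ?_
    have h1 : (a * R) ^ T.card ≤ (a * R) ^ S.card :=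
      pow_le_pow_right₀ haR (Finset.card_le_card hT)
    refine h1.trans ?_
    have h2 : (a * R) ^ S.card ≤ Real.exp (a * R) ^ S.card := by
      refine pow_le_pow_left₀ (by positivity) ?_ _
      have := Real.add_one_le_exp (a * R)
      linarith
    refine h2.trans ?_
    rw [← Real.exp_nat_mul]
    apply Real.exp_le_exp.2
    calc (S.card : ℝ) * (a * R) ≤ (C0 * R ^ 2) * (a * R) :=
          mul_le_mul_of_nonneg_right hcard (by positivity)
      _ = E * R ^ 3 := by rw [hE]; ring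
  have hout : ∀ q ∉ (S : Set (ℤ × ℤ)), 2 * (4 * R) ≤ ‖lp 1 τ q‖ ∧ 0 < nr q := by
    intro q hq
    have h1 : ¬ nr q ≤ K := by
      intro h
      exact hq (by rw [hS]; exact_mod_cast I_QT.mem_SS.2 h)
    have h2 : K < nr q := not_le.1 h1
    refine ⟨?_, hK0.trans_lt h2⟩
    refine le_trans ?_ (hlow q)
    rw [hK, div_lt_iff₀ hc] at h2
    linarith
  have hne : ∀ u ∈ ball (0 : ℂ) (4 * R), ∀ q ∉ (S : Set (ℤ × ℤ)), u ≠ lp 1 τ q := by
    intro u hu q hq h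
    rw [mem_ball_zero_iff] at hu
    have := (hout q hq).1
    rw [← h] at this
    linarith
  refine ⟨I_QT.pq τ S, I_QT.gq τ S, I_QT.diff_pq τ S, ?_, ?_, ?_, ?_⟩
  · intro u hu
    apply DifferentiableAt.differentiableWithinAt
    unfold I_QT.gq
    have h1 : ∀ T : Finset (ℤ × ℤ), DifferentiableAt ℂ (fun u => I_QT.pq τ T u ^ 2) u :=
      fun T => ((I_QT.diff_pq τ T) u).pow 2
    have h2 : DifferentiableAt ℂ (fun u => ∑ q ∈ S, I_QT.pq τ (S.erase q) u ^ 2) u :=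
      DifferentiableAt.fun_sum fun q _ => h1 _
    exact (h2.sub ((h1 S).mul_const _)).add ((h1 S).mul (I_QT.diff_wpE hτ _ (hne u hu)))
  · unfold I_QT.pq
    apply Finset.prod_eq_zero (I_QT.zero_mem_SS hK0)
    simp [lp]
  · intro u hu
    have hpS := hprod u hu S subset_rfl
    refine ⟨hpS.trans ?_, ?_, I_QT.gq_eq hτ S⟩
    · apply Real.exp_le_exp.2
      apply mul_le_mul_of_nonneg_right _ hR3.le
      nlinarith [mul_nonneg hlam0 hC00]
    · have hsq : ∀ T ⊆ S, ‖I_QT.pq τ T u ^ 2‖ ≤ Real.exp (2 * E * R ^ 3) := by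
        intro T hT
        rw [norm_pow]
        refine (pow_le_pow_left₀ (norm_nonneg _) (hprod u hu T hT) 2).trans ?_
        rw [← Real.exp_nat_mul]
        apply Real.exp_le_exp.2
        push_cast
        linarith
      set X : ℝ := Real.exp (2 * E * R ^ 3) with hX
      have hX0 : 0 < X := Real.exp_pos _
      have t1 : ‖∑ q ∈ S, I_QT.pq τ (S.erase q) u ^ 2‖ ≤ X * (C0 * R ^ 2) := by
        refine (norm_sum_le _ _).trans ?_
        refine (Finset.sum_le_sum fun q _ => hsq _ (Finset.erase_subset q S)).trans ?_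
        rw [Finset.sum_const, nsmul_eq_mul]
        nlinarith
      have t2 : ‖∑ q ∈ S, 1 / (lp 1 τ q) ^ 2‖ ≤ (C0 / c ^ 2) * R ^ 2 := by
        refine (norm_sum_le _ _).trans ?_
        have h1 : ∀ q ∈ S, ‖1 / (lp 1 τ q) ^ 2‖ ≤ 1 / c ^ 2 := by
          intro q _
          by_cases hq : q = 0
          · have : lp 1 τ q = 0 := by rw [hq]; simp [lp]
            rw [this]
            norm_num
            positivity
          · have h2 : c ≤ ‖lp 1 τ q‖ := by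
              refine le_trans ?_ (hlow _)
              have := I_QT.one_le_nr hq
              nlinarith
            rw [norm_div, norm_one, norm_pow]
            apply one_div_le_one_div_of_le (by positivity)
            exact pow_le_pow_left₀ hc.le h2 2
        refine (Finset.sum_le_sum h1).trans ?_
        rw [Finset.sum_const, nsmul_eq_mul]
        calc (S.card : ℝ) * (1 / c ^ 2) ≤ (C0 * R ^ 2) * (1 / c ^ 2) :=
              mul_le_mul_of_nonneg_right hcard (by positivity)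
          _ = (C0 / c ^ 2) * R ^ 2 := by ring
      have t3 : ‖wpE (S : Set (ℤ × ℤ)) τ u‖ ≤ (200 * σ / c ^ 3) * R ^ 2 := by
        rw [mem_ball_zero_iff] at hu
        refine (I_QT.wpE_le hc hlow _ (by positivity : (0 : ℝ) < 4 * R) hu.le hout).trans ?_
        have h1 : 10 * (4 * R + (4 * R) ^ 2) ≤ 200 * R ^ 2 := by nlinarith
        calc 10 * (4 * R + (4 * R) ^ 2) / c ^ 3 * σ ≤ 200 * R ^ 2 / c ^ 3 * σ := by
              gcongr
          _ = (200 * σ / c ^ 3) * R ^ 2 := by ring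
      have hS2 := hsq S subset_rfl
      have t4 : ‖I_QT.gq τ S u‖ ≤ X * (D * R ^ 2) := by
        unfold I_QT.gq
        refine (norm_add_le _ _).trans ?_
        refine (add_le_add (norm_sub_le _ _) le_rfl).trans ?_
        rw [norm_mul, norm_mul]
        have h1 := mul_le_mul hS2 t2 (norm_nonneg _) hX0.le
        have h2 := mul_le_mul hS2 t3 (norm_nonneg _) hX0.le
        have h3 : X * (D * R ^ 2) = X * (C0 * R ^ 2) + X * ((C0 / c ^ 2) * R ^ 2) +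
            X * ((200 * σ / c ^ 3) * R ^ 2) := by rw [hD]; ring
        rw [h3]
        exact add_le_add (add_le_add t1 h1) h2
      refine t4.trans ?_
      have h5 : D * R ^ 2 ≤ Real.exp (D * R ^ 3) := by
        have h6 : D * R ^ 2 ≤ D * R ^ 3 :=
          mul_le_mul_of_nonneg_left (pow_le_pow_right₀ hR (by norm_num)) hD0
        have := Real.add_one_le_exp (D * R ^ 3)
        linarith
      calc X * (D * R ^ 2) ≤ X * Real.exp (D * R ^ 3) := mul_le_mul_of_nonneg_left h5 hX0.le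
        _ = Real.exp ((2 * E + D) * R ^ 3) := by rw [hX, ← Real.exp_add]; ring_nf
        _ ≤ _ := by
            apply Real.exp_le_exp.2
            apply mul_le_mul_of_nonneg_right _ hR3.le
            nlinarith [mul_nonneg hlam0 hC00]
  · intro u _
    refine le_trans ?_ (I_QT.pq_ge hc hlow S u)
    have hd0 : 0 ≤ d1 τ u := le_min zero_le_one Metric.infDist_nonneg
    apply mul_le_mul_of_nonneg_right _ hd0
    have h1 : κ = Real.exp (-lam) := by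
      rw [hlam, neg_neg, Real.exp_log hκ0]
    change _ ≤ κ ^ S.card
    rw [h1, ← Real.exp_nat_mul]
    apply Real.exp_le_exp.2
    have h2 : (S.card : ℝ) * lam ≤ (C0 * R ^ 3) * lam := mul_le_mul_of_nonneg_right hcard3 hlam0
    have h3 : 0 ≤ (1 + 2 * E + D) * R ^ 3 := by positivity
    nlinarith

end Pool.Agent.Work.MP_8da9ea_nt.EB
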