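import Pool.Agent.Work.MP_8da9ea_nt.EB.StmtsT

/-!
# Item RedNT of the elliptic block: reduction to (NT)
-/

set_option autoImplicit false

namespace Pool.Agent.Work.MP_8da9ea_nt.EB

namespace I_RedNT

/-- `s ↦ c ∑ s_i x_i`. -/
noncomputable def phi {n : ℕ} (c : ℂ) (x : Fin n → ℂ) : (Fin n → ℚ) →ₗ[ℚ] ℂ :=
  Fintype.linearCombination ℚ (fun i => c * x i)

lemma phi_apply {n : ℕ} (c : ℂ) (x : Fin n → ℂ) (s : Fin n → ℚ) :
    phi c x s = c * ∑ i, (s i : ℂ) * x i := by
  rw [phi, Fintype.linearCombination_apply, Finset.mul_sum]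
  refine Finset.sum_congr rfl fun i _ => ?_
  rw [Rat.smul_def]
  ring

lemma phi_inj {n : ℕ} {c : ℂ} {x : Fin n → ℂ} (hc : c ≠ 0) (hx : LinearIndependent ℚ x) :
    LinearMap.ker (phi c x) = ⊥ := by
  rw [LinearMap.ker_eq_bot']
  intro s hs
  rw [phi_apply] at hs
  have h := (mul_eq_zero.1 hs).resolve_left hc
  rw [Fintype.linearIndependent_iff] at hx
  funext i
  refine hx s ?_ i
  rw [← h]
  exact Finset.sum_congr rfl fun i _ => Rat.smul_def _ _

/-- The rational vectors with `c ∑ s_i x_i ∈ ℚ + ℚτ`. -/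
noncomputable def VV {n : ℕ} (τ c : ℂ) (x : Fin n → ℂ) : Submodule ℚ (Fin n → ℚ) :=
  (Submodule.span ℚ {1, τ}).comap (phi c x)

lemma VV_finrank {n : ℕ} (τ : ℂ) {c : ℂ} {x : Fin n → ℂ} (hc : c ≠ 0)
    (hx : LinearIndependent ℚ x) : Module.finrank ℚ (VV τ c x) ≤ 2 := by
  have hinj : Function.Injective (phi c x) := LinearMap.ker_eq_bot.1 (phi_inj hc hx)
  have hfin : Set.Finite ({1, τ} : Set ℂ) := by simp
  have : FiniteDimensional ℚ (Submodule.span ℚ ({1, τ} : Set ℂ)) :=
    FiniteDimensional.span_of_finite ℚ hfin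
  rw [LinearEquiv.finrank_eq (Submodule.equivMapOfInjective (phi c x) hinj (VV τ c x))]
  have h1 : (VV τ c x).map (phi c x) ≤ Submodule.span ℚ {1, τ} := Submodule.map_comap_le _ _
  refine (Submodule.finrank_mono h1).trans ?_
  classical
  have h2 : Module.finrank ℚ (Submodule.span ℚ (({1, τ} : Finset ℂ) : Set ℂ)) ≤
      ({1, τ} : Finset ℂ).card := finrank_span_finset_le_card _
  rw [Finset.coe_pair] at h2
  exact h2.trans Finset.card_le_two

lemma sup_finrank {n m : ℕ} (V : Fin m → Submodule ℚ (Fin n → ℚ))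
    (hV : ∀ j, Module.finrank ℚ (V j) ≤ 2) (s : Finset (Fin m)) :
    Module.finrank ℚ (s.sup V : Submodule ℚ (Fin n → ℚ)) ≤ 2 * s.card := by
  classical
  induction s using Finset.induction_on with
  | empty => simp
  | insert a s ha ih =>
    rw [Finset.sup_insert, Finset.card_insert_of_notMem ha]
    have := Submodule.finrank_add_le_finrank_add_finrank (V a) (s.sup V)
    have := hV a
    omega

lemma clear {n : ℕ} (v : Fin n → ℚ) : ∃ (N : ℤ) (g : Fin n → ℤ), N ≠ 0 ∧
    ∀ k, (g k : ℚ) = N * v k := by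
  obtain ⟨N, hN⟩ := IsLocalization.exist_integer_multiples_of_finite (nonZeroDivisors ℤ) v
  choose g hg using hN
  refine ⟨N, g, nonZeroDivisors.coe_ne_zero N, fun k => ?_⟩
  have := hg k
  simp only [algebraMap_int_eq, eq_intCast, zsmul_eq_mul] at this
  exact this

end I_RedNT

open I_RedNT in
/-- T2: reduction to (NT). -/
theorem RedNT_pf : S_RedNT := by
  intro τ m n b x _ hb hx
  obtain ⟨W, hW⟩ := Submodule.exists_isCompl
    ((Finset.univ : Finset (Fin m)).sup fun j => VV τ (b j) x)
  have hdim := Submodule.finrank_add_eq_of_isCompl hW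
  have hsup := sup_finrank (fun j => VV τ (b j) x) (fun j => VV_finrank τ (hb j) hx) Finset.univ
  rw [Module.finrank_fin_fun] at hdim
  rw [Finset.card_univ, Fintype.card_fin] at hsup
  set B := Module.finBasis ℚ W
  choose N g hN hg using fun i => clear ((B i : W) : Fin n → ℚ)
  have hgW : ∀ i, (fun k => (g i k : ℚ)) = (N i : ℚ) • ((B i : W) : Fin n → ℚ) := fun i => by
    funext k
    rw [hg i k]
    rfl
  have hBli : LinearIndependent ℚ (fun i => ((B i : W) : Fin n → ℚ)) :=
    B.linearIndependent.map' W.subtype (Submodule.ker_subtype W)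
  have hgli : LinearIndependent ℚ (fun i => (fun k => (g i k : ℚ) : Fin n → ℚ)) := by
    rw [Fintype.linearIndependent_iff]
    intro c hc i
    rw [Fintype.linearIndependent_iff] at hBli
    have h1 := hBli (fun i => c i * N i) (by
      rw [← hc]
      refine Finset.sum_congr rfl fun i _ => ?_
      rw [hgW i, smul_smul]) i
    exact (mul_eq_zero.1 h1).resolve_right (by exact_mod_cast hN i)
  have hcmb : ∀ i, cmb (g i) x = phi 1 x (fun k => (g i k : ℚ)) := fun i => by
    rw [phi_apply, one_mul]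
    simp [cmb]
  refine ⟨Module.finrank ℚ W, g, by omega, ?_, ?_⟩
  · have h1 := hgli.map' (phi 1 x) (phi_inj one_ne_zero hx)
    have h2 : (phi 1 x) ∘ (fun i => (fun k => (g i k : ℚ) : Fin n → ℚ)) =
        fun i => cmb (g i) x := by
      funext i
      exact (hcmb i).symm
    rwa [h2] at h1
  · intro s hs j hmem
    apply hs
    set t : Fin n → ℚ := ∑ i, (s i : ℚ) • (fun k => (g i k : ℚ) : Fin n → ℚ) with ht
    have htW : t ∈ W := by
      refine Submodule.sum_mem _ fun i _ => Submodule.smul_mem _ _ ?_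
      rw [hgW i]
      exact Submodule.smul_mem _ _ (B i).2
    have htV : t ∈ VV τ (b j) x := by
      rw [VV, Submodule.mem_comap]
      have h3 : phi (b j) x t = b j * cmb s (fun i => cmb (g i) x) := by
        rw [ht, map_sum]
        rw [cmb, Finset.mul_sum]
        refine Finset.sum_congr rfl fun i _ => ?_
        rw [map_smul, phi_apply, Rat.smul_def, cmb]
        push_cast
        ring
      rw [h3]
      obtain ⟨p, q, hpq⟩ := mem_Lam.1 hmem
      rw [hpq, Submodule.mem_span_pair]
      exact ⟨p, q, by simp [Rat.smul_def]⟩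
    have htS : t ∈ (Finset.univ : Finset (Fin m)).sup fun j => VV τ (b j) x :=
      (Finset.le_sup (f := fun j => VV τ (b j) x) (Finset.mem_univ j)) htV
    have ht0 : t = 0 := (Submodule.disjoint_def.1 hW.disjoint) t htS htW
    rw [Fintype.linearIndependent_iff] at hgli
    have h4 := hgli (fun i => (s i : ℚ)) (by rw [← ht, ht0])
    funext i
    exact_mod_cast h4 i

end Pool.Agent.Work.MP_8da9ea_nt.EB
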