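import Pool.Agent.Work.MP_8da9ea_nt.EB.StmtsG

/-!
# Elliptic block: item RelAll (R4, all points together)
-/

set_option autoImplicit false

namespace Pool.Agent.Work.MP_8da9ea_nt.EB

namespace I_RelAll

open Pool.Agent.Work.MP_327059_nt.GL Pool.Agent.Work.MP_8da9ea_nt.S

/-- the constants of a derivation -/
def cst (δ : Derivation ℚ ℂ ℂ) : IntermediateField ℚ ℂ where
  carrier := {x | δ x = 0}
  mul_mem' {a b} ha hb := by
    have ha' : δ a = 0 := ha
    have hb' : δ b = 0 := hb
    show δ (a * b) = 0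
    rw [Derivation.leibniz, ha', hb', smul_zero, smul_zero, add_zero]
  one_mem' := by
    show δ 1 = 0
    simp
  add_mem' {a b} ha hb := by
    have ha' : δ a = 0 := ha
    have hb' : δ b = 0 := hb
    show δ (a + b) = 0
    rw [map_add, ha', hb', add_zero]
  zero_mem' := by
    show δ 0 = 0
    simp
  algebraMap_mem' r := by
    show δ (algebraMap ℚ ℂ r) = 0
    exact δ.map_algebraMap r
  inv_mem' x hx := by
    have hx' : δ x = 0 := hx
    show δ x⁻¹ = 0
    rw [Derivation.leibniz_inv, hx', smul_zero]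

theorem mem_cst (δ : Derivation ℚ ℂ ℂ) (x : ℂ) : x ∈ cst δ ↔ δ x = 0 := Iff.rfl

theorem mem_DK (K : IntermediateField ℚ ℂ) (δ : Derivation ℚ ℂ ℂ) :
    δ ∈ DK K ↔ ∀ x ∈ K, δ x = 0 := Iff.rfl

/-- adjoining countably many elements gives a countable field -/
theorem countable_adjoin' (S : Set ℂ) (hS : S.Countable) :
    Countable (IntermediateField.adjoin ℚ S) := by
  have : Countable S := hS
  have h1 : ((IntermediateField.adjoin ℚ S : IntermediateField ℚ ℂ) : Set ℂ) ⊆
      Set.range (fun q : MvPolynomial S ℚ × MvPolynomial S ℚ =>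
        (MvPolynomial.aeval (Subtype.val : S → ℂ) q.1 / MvPolynomial.aeval Subtype.val q.2 : ℂ)) := by
    intro x hx
    obtain ⟨r, s, h⟩ := (IntermediateField.mem_adjoin_iff ℚ x).1 hx
    exact ⟨(r, s), h.symm⟩
  have hc : Countable (MvPolynomial S ℚ) := by
    rw [← Cardinal.mk_le_aleph0_iff]
    refine (MvPolynomial.cardinalMk_le_max_lift (σ := S) (R := ℚ)).trans ?_
    simp only [max_le_iff, Cardinal.lift_le_aleph0, Cardinal.mk_le_aleph0_iff, le_refl]
    exact ⟨⟨inferInstance, inferInstance⟩, trivial⟩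
  exact Set.countable_coe_iff.2 ((Set.countable_range _).mono h1)

/-! ### Independent forms -/

section forms

variable {V : Type} [AddCommGroup V] [Module ℂ V]

/-- the forms are linearly independent on the subspace -/
def Idp {ι : Type} [Fintype ι] (S : Submodule ℂ V) (f : ι → (V →ₗ[ℂ] ℂ)) : Prop :=
  ∀ a : ι → ℂ, (∀ δ ∈ S, ∑ i, a i * f i δ = 0) → a = 0

theorem Idp.equiv {ι κ : Type} [Fintype ι] [Fintype κ] {S : Submodule ℂ V}
    {f : ι → (V →ₗ[ℂ] ℂ)} (h : Idp S f) (e : κ ≃ ι) : Idp S (fun k => f (e k)) := by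
  intro a ha
  have h1 : (fun i => a (e.symm i)) = 0 := by
    apply h
    intro δ hδ
    have h2 := ha δ hδ
    rw [← h2]
    symm
    apply Fintype.sum_equiv e
    intro k
    simp
  funext k
  have := congrFun h1 (e k)
  simpa using this

theorem Idp.extend {ι κ : Type} [Fintype ι] [Fintype κ] {S S' : Submodule ℂ V}
    {f : ι → (V →ₗ[ℂ] ℂ)} {g : κ → (V →ₗ[ℂ] ℂ)}
    (hS : ∀ δ ∈ S', δ ∈ S ∧ ∀ i, f i δ = 0) (hf : Idp S f) (hg : Idp S' g) :
    Idp S (Sum.elim f g) := by
  intro a ha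
  have h1 : (fun k => a (Sum.inr k)) = 0 := by
    apply hg
    intro δ hδ
    obtain ⟨h2, h3⟩ := hS δ hδ
    have h4 := ha δ h2
    rw [Fintype.sum_sum_type] at h4
    simpa [h3] using h4
  have h2 : (fun i => a (Sum.inl i)) = 0 := by
    apply hf
    intro δ hδ
    have h4 := ha δ hδ
    rw [Fintype.sum_sum_type] at h4
    have h5 : ∀ k, a (Sum.inr k) = 0 := fun k => congrFun h1 k
    simpa [h5] using h4
  funext o
  rcases o with i | k
  · exact congrFun h2 i
  · exact congrFun h1 k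

/-- independent forms have a non-zero determinant -/
theorem Idp.det {ι : Type} [Fintype ι] [DecidableEq ι] {S : Submodule ℂ V}
    {f : ι → (V →ₗ[ℂ] ℂ)} (h : Idp S f) :
    ∃ δ : ι → V, (∀ o, δ o ∈ S) ∧ (Matrix.of fun o o' => f o' (δ o)).det ≠ 0 := by
  set M : S →ₗ[ℂ] (ι → ℂ) := LinearMap.pi fun i => (f i).comp S.subtype with hM
  have hsurj : LinearMap.range M = ⊤ := by
    by_contra hne
    obtain ⟨φ, hφ, hle⟩ := Submodule.exists_le_ker_of_lt_top _ (lt_top_iff_ne_top.2 hne)
    apply hφ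
    have ha : (fun i => φ (Pi.single i 1)) = 0 := by
      apply h
      intro δ hδ
      have h1 : φ (M ⟨δ, hδ⟩) = 0 := hle ⟨⟨δ, hδ⟩, rfl⟩
      have h2 : M ⟨δ, hδ⟩ = ∑ i, f i δ • (Pi.single i (1 : ℂ) : ι → ℂ) := by
        funext k
        rw [Finset.sum_apply]
        simp only [Pi.smul_apply, Pi.single_apply, smul_eq_mul, mul_ite, mul_one, mul_zero,
          Finset.sum_ite_eq, Finset.mem_univ, if_true]
        rfl
      rw [h2, map_sum] at h1
      rw [← h1]
      apply Finset.sum_congr rfl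
      intro i _
      rw [map_smul, smul_eq_mul, mul_comm]
    apply LinearMap.pi_ext'
    intro i
    ext
    simpa using congrFun ha i
  have hex : ∀ i, ∃ δ : S, M δ = Pi.single i 1 := fun i => by
    have : (Pi.single i 1 : ι → ℂ) ∈ LinearMap.range M := by rw [hsurj]; trivial
    exact this
  choose δ hδ using hex
  refine ⟨fun i => (δ i : V), fun i => (δ i).2, ?_⟩
  have h1 : (Matrix.of fun o o' => f o' (δ o : V)) = (1 : Matrix ι ι ℂ) := by
    ext o o'
    have h2 := congrFun (hδ o) o'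
    rw [Matrix.of_apply, Matrix.one_apply]
    have h3 : M (δ o) o' = f o' (δ o : V) := rfl
    rw [← h3, h2, Pi.single_apply]
    simp only [eq_comm]
  rw [h1, Matrix.det_one]
  exact one_ne_zero

/-- each condition lowers the rank by at most one -/
theorem rank_drop {κ : Type} [Fintype κ] {m : ℕ} (S S' : Submodule ℂ V)
    (L : V →ₗ[ℂ] (Fin m → ℂ)) (g : κ → (V →ₗ[ℂ] ℂ))
    (hS' : ∀ δ ∈ S, (∀ k, g k δ = 0) → δ ∈ S') :
    Module.finrank ℂ (S.map L) ≤ Module.finrank ℂ (S'.map L) + Fintype.card κ := by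
  set G : V →ₗ[ℂ] (κ → ℂ) := LinearMap.pi g with hG
  set P := S.map (L.prod G) with hP
  have h1 : S.map L = P.map (LinearMap.fst ℂ (Fin m → ℂ) (κ → ℂ)) := by
    rw [hP, ← Submodule.map_comp]
    rfl
  have h2 : Module.finrank ℂ (S.map L) ≤ Module.finrank ℂ P := by
    rw [h1]
    exact Submodule.finrank_map_le _ _
  set sn : P →ₗ[ℂ] (κ → ℂ) := (LinearMap.snd ℂ (Fin m → ℂ) (κ → ℂ)).comp P.subtype with hsn
  have h3 := LinearMap.finrank_range_add_finrank_ker sn
  have h4 : Module.finrank ℂ (LinearMap.range sn) ≤ Fintype.card κ := by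
    refine (Submodule.finrank_le _).trans ?_
    rw [Module.finrank_fintype_fun_eq_card]
  have h5 : Module.finrank ℂ (LinearMap.ker sn) ≤ Module.finrank ℂ (S'.map L) := by
    have hmem : ∀ x : LinearMap.ker sn, ((x : P) : (Fin m → ℂ) × (κ → ℂ)).1 ∈ S'.map L := by
      rintro ⟨⟨x, hx⟩, hk⟩
      obtain ⟨δ, hδ, rfl⟩ := hx
      have hk' : G δ = 0 := hk
      refine ⟨δ, hS' δ hδ fun k => congrFun hk' k, rfl⟩
    let φ : LinearMap.ker sn →ₗ[ℂ] (S'.map L) :=
      LinearMap.codRestrict _ (((LinearMap.fst ℂ (Fin m → ℂ) (κ → ℂ)).comp P.subtype).comp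
        (LinearMap.ker sn).subtype) hmem
    apply LinearMap.finrank_le_finrank_of_injective (f := φ)
    intro x y hxy
    apply Subtype.ext
    apply Subtype.ext
    apply Prod.ext
    · exact congrArg Subtype.val hxy
    · have hx : ((x : P) : (Fin m → ℂ) × (κ → ℂ)).2 = 0 := x.2
      have hy : ((y : P) : (Fin m → ℂ) × (κ → ℂ)).2 = 0 := y.2
      rw [hx, hy]
  omega

/-- selection of independent forms -/
theorem select {m : ℕ} (S : Submodule ℂ V) (F : Fin m → (V →ₗ[ℂ] ℂ))
    (L : V →ₗ[ℂ] (Fin m → ℂ)) (hL : ∀ δ j, L δ j = F j δ) (r : ℕ)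
    (h : r ≤ Module.finrank ℂ (S.map L)) :
    ∃ j : Fin r → Fin m, Idp S (fun i => F (j i)) := by
  induction r with
  | zero =>
    refine ⟨Fin.elim0, ?_⟩
    intro a _
    exact Subsingleton.elim _ _
  | succ r ih =>
    obtain ⟨j, hj⟩ := ih (by omega)
    set S' : Submodule ℂ V := S ⊓ ⨅ i, LinearMap.ker (F (j i)) with hS'
    have hmem : ∀ δ, δ ∈ S' ↔ δ ∈ S ∧ ∀ i, F (j i) δ = 0 := by
      intro δ
      rw [hS', Submodule.mem_inf, Submodule.mem_iInf]
      rfl
    have h1 := rank_drop S S' L (fun i => F (j i)) (fun δ h2 h3 => (hmem δ).2 ⟨h2, h3⟩)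
    rw [Fintype.card_fin] at h1
    have h2 : 0 < Module.finrank ℂ (S'.map L) := by omega
    have h3 : S'.map L ≠ ⊥ := by
      intro h0
      rw [h0, finrank_bot] at h2
      exact lt_irrefl _ h2
    obtain ⟨y, hy, hy0⟩ := Submodule.exists_mem_ne_zero_of_ne_bot h3
    obtain ⟨δ, hδ, rfl⟩ := hy
    obtain ⟨j0, hj0⟩ := Function.ne_iff.1 hy0
    rw [hL, Pi.zero_apply] at hj0
    have h4 : Idp S' (fun _ : Unit => F j0) := by
      intro a ha
      have h5 := ha δ hδ
      simp only [Finset.univ_unique, Finset.sum_singleton] at h5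
      funext x
      rcases mul_eq_zero.1 h5 with h6 | h6
      · exact h6
      · exact absurd h6 hj0
    have h5 := Idp.extend (fun δ hδ => (hmem δ).1 hδ) hj h4
    refine ⟨Fin.snoc j j0, ?_⟩
    have h6 := h5.equiv ((finSumFinEquiv (m := r) (n := 1)).symm.trans
      (Equiv.sumCongr (Equiv.refl _) (Equiv.ofUnique (Fin 1) Unit)))
    have h7 : (fun i : Fin (r + 1) => F ((Fin.snoc j j0 : Fin (r + 1) → Fin m) i)) =
        (fun k => (Sum.elim (fun i => F (j i)) (fun _ : Unit => F j0))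
          (((finSumFinEquiv (m := r) (n := 1)).symm.trans
            (Equiv.sumCongr (Equiv.refl _) (Equiv.ofUnique (Fin 1) Unit))) k)) := by
      funext i
      refine Fin.lastCases ?_ (fun i => ?_) i
      · rw [Fin.snoc_last]
        have : (finSumFinEquiv (m := r) (n := 1)).symm (Fin.last r) = Sum.inr 0 := by
          rw [Equiv.symm_apply_eq]
          rfl
        rw [Equiv.trans_apply, this]
        rfl
      · rw [Fin.snoc_castSucc]
        have : (finSumFinEquiv (m := r) (n := 1)).symm (Fin.castSucc i) = Sum.inl i := by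
          rw [Equiv.symm_apply_eq]
          rfl
        rw [Equiv.trans_apply, this]
        rfl
    rw [h7]
    exact h6

end forms

/-! ### The forms of the statement -/

/-- the form `λ(u)` -/
noncomputable def lamF (τ μ u : ℂ) : Derivation ℚ ℂ ℂ →ₗ[ℂ] ℂ :=
  (LinearMap.proj (0 : Fin 1)).comp (lamV τ μ (fun _ : Fin 1 => u))

/-- the form `η(u)` -/
noncomputable def etfF (τ μ u : ℂ) : Derivation ℚ ℂ ℂ →ₗ[ℂ] ℂ where
  toFun δ := etf τ μ δ u
  map_add' a b := by
    have h := (lamF τ μ u).map_add a b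
    have h' : lam τ μ (a + b) u = lam τ μ a u + lam τ μ b u := h
    unfold etf
    split_ifs
    · ring
    · rw [h', Derivation.add_apply]
      ring
  map_smul' c a := by
    have h := (lamF τ μ u).map_smul c a
    have h' : lam τ μ (c • a) u = c * lam τ μ a u := h
    simp only [smul_eq_mul, RingHom.id_apply]
    unfold etf
    split_ifs
    · ring
    · rw [h', Derivation.smul_apply, smul_eq_mul]
      ring

/-- the form `δ(e^u) / e^u` -/
noncomputable def lgF (u : ℂ) : Derivation ℚ ℂ ℂ →ₗ[ℂ] ℂ :=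
  (LinearMap.proj (0 : Fin 1)).comp (lgV (fun _ : Fin 1 => u))

/-- the elliptic forms -/
noncomputable def FF (τ μ : ℂ) {i : ℕ} (v : Fin i → ℂ) (q : Fin i × Bool) :
    Derivation ℚ ℂ ℂ →ₗ[ℂ] ℂ := if q.2 then etfF τ μ (v q.1) else lamF τ μ (v q.1)

theorem FF_true (τ μ : ℂ) {i : ℕ} (v : Fin i → ℂ) (l : Fin i) (δ : Derivation ℚ ℂ ℂ) :
    FF τ μ v (l, true) δ = etf τ μ δ (v l) := rfl

theorem FF_false (τ μ : ℂ) {i : ℕ} (v : Fin i → ℂ) (l : Fin i) (δ : Derivation ℚ ℂ ℂ) :
    FF τ μ v (l, false) δ = lam τ μ δ (v l) := rfl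

/-- the field `K(X(v), Z(v))` -/
noncomputable def KX (τ μ : ℂ) {i : ℕ} (K : IntermediateField ℚ ℂ) (v : Fin i → ℂ) :
    IntermediateField ℚ ℂ :=
  IntermediateField.adjoin ℚ ((K : Set ℂ) ∪ (Set.range (fun l => xe τ μ (v l)) ∪
    Set.range (fun l => ze τ μ (v l))))

theorem le_KX (τ μ : ℂ) {i : ℕ} (K : IntermediateField ℚ ℂ) (v : Fin i → ℂ) :
    K ≤ KX τ μ K v := fun _ hx =>
  IntermediateField.subset_adjoin ℚ _ (Or.inl hx)

theorem countable_KX (τ μ : ℂ) {i : ℕ} (K : IntermediateField ℚ ℂ) (hK : Countable K)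
    (v : Fin i → ℂ) : Countable (KX τ μ K v) := by
  apply countable_adjoin'
  have h1 : (K : Set ℂ).Countable := Set.countable_coe_iff.1 hK
  exact h1.union ((Set.countable_range _).union (Set.countable_range _))

theorem mem_DK_KX (τ μ : ℂ) {i : ℕ} (K : IntermediateField ℚ ℂ) (v : Fin i → ℂ)
    (hv : Idp (DK K) (FF τ μ v)) (δ : Derivation ℚ ℂ ℂ) :
    δ ∈ DK (KX τ μ K v) ↔ δ ∈ DK K ∧ ∀ q, FF τ μ v q δ = 0 := by
  classical
  have hne : ∀ l, ∃ δ ∈ DK K, lam τ μ δ (v l) ≠ 0 := by
    intro l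
    by_contra hcon
    push Not at hcon
    have h1 := hv (Pi.single (l, false) 1) (by
      intro δ hδ
      rw [Finset.sum_eq_single (l, false)]
      · rw [FF_false, hcon δ hδ, mul_zero]
      · intro q _ hq
        rw [Pi.single_eq_of_ne hq, zero_mul]
      · intro h
        exact absurd (Finset.mem_univ _) h)
    have h2 := congrFun h1 (l, false)
    rw [Pi.single_eq_same, Pi.zero_apply] at h2
    exact one_ne_zero h2
  have hlat : ∀ l, v l ∉ Lam τ := by
    intro l hl
    obtain ⟨δ, _, hδ⟩ := hne l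
    apply hδ
    unfold lam
    rw [if_pos hl]
  have hye : ∀ l, ye τ μ (v l) ≠ 0 := by
    intro l hl
    obtain ⟨δ, _, hδ⟩ := hne l
    apply hδ
    unfold lam
    rw [if_neg (hlat l), hl, div_zero]
  constructor
  · intro h
    have hx : ∀ l, δ (xe τ μ (v l)) = 0 := fun l =>
      h _ (IntermediateField.subset_adjoin ℚ _ (Or.inr (Or.inl ⟨l, rfl⟩)))
    have hz : ∀ l, δ (ze τ μ (v l)) = 0 := fun l =>
      h _ (IntermediateField.subset_adjoin ℚ _ (Or.inr (Or.inr ⟨l, rfl⟩)))
    have hl : ∀ l, lam τ μ δ (v l) = 0 := by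
      intro l
      unfold lam
      rw [if_neg (hlat l), hx l, zero_div]
    refine ⟨fun x hx => h x (le_KX τ μ K v hx), ?_⟩
    rintro ⟨l, b⟩
    cases b with
    | false => exact hl l
    | true =>
      rw [FF_true]
      unfold etf
      rw [if_neg (hlat l), hz l, hl l, mul_zero, add_zero]
  · rintro ⟨h1, h2⟩
    have hl : ∀ l, lam τ μ δ (v l) = 0 := fun l => h2 (l, false)
    have he : ∀ l, etf τ μ δ (v l) = 0 := fun l => h2 (l, true)
    have hx : ∀ l, δ (xe τ μ (v l)) = 0 := by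
      intro l
      have h3 := hl l
      unfold lam at h3
      rw [if_neg (hlat l)] at h3
      exact (div_eq_zero_iff.1 h3).resolve_right (hye l)
    have hz : ∀ l, δ (ze τ μ (v l)) = 0 := by
      intro l
      have h3 := he l
      unfold etf at h3
      rw [if_neg (hlat l), hl l, mul_zero, add_zero] at h3
      exact h3
    have h3 : KX τ μ K v ≤ cst δ := by
      unfold KX
      rw [IntermediateField.adjoin_le_iff]
      rintro x (hx' | ⟨l, rfl⟩ | ⟨l, rfl⟩)
      · exact h1 x hx'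
      · exact hx l
      · exact hz l
    exact fun x hx' => h3 hx'

/-- the points `v_1, …, v_i` -/
theorem exists_points (h1 : S_RelStepE) (τ μ : ℂ) (hN : Nrm τ μ) (K : IntermediateField ℚ ℂ)
    (hKc : Countable K) (hμ : μ ∈ K) (hτ : τ ∈ K) (he : et τ ∈ K) (hk : kap ∈ K) (m r' : ℕ)
    (β' : Fin m → ℂ) (hr : 2 * r' ≤ Module.finrank ℂ ((DK K).map (lamV τ μ β'))) (i : ℕ)
    (hi : i ≤ r') : ∃ c' : Fin i → Fin m → ℚ,
      Idp (DK K) (FF τ μ (fun l => ∑ j, (c' l j : ℂ) * β' j)) := by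
  induction i with
  | zero =>
    refine ⟨Fin.elim0, ?_⟩
    intro a _
    exact Subsingleton.elim _ _
  | succ i ih =>
    obtain ⟨c', hc'⟩ := ih (by omega)
    set v : Fin i → ℂ := fun l => ∑ j, (c' l j : ℂ) * β' j with hv
    have hmem := mem_DK_KX τ μ K v hc'
    have hdrop := rank_drop (DK K) (DK (KX τ μ K v)) (lamV τ μ β') (FF τ μ v)
      (fun δ h2 h3 => (hmem δ).2 ⟨h2, h3⟩)
    have hcard : Fintype.card (Fin i × Bool) = i * 2 := by
      rw [Fintype.card_prod, Fintype.card_fin, Fintype.card_bool]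
    rw [hcard] at hdrop
    have hle := le_KX τ μ K v
    obtain ⟨c, δ, hδ, δ', hδ', hne⟩ := h1 τ μ hN (KX τ μ K v) (countable_KX τ μ K hKc v)
      (hle hμ) (hle hτ) (hle he) (hle hk) m β' (by omega)
    refine ⟨Fin.snoc c' c, ?_⟩
    set w : ℂ := ∑ j, (c j : ℂ) * β' j with hw
    have hpts : (fun l : Fin (i + 1) => ∑ j, ((Fin.snoc c' c : Fin (i + 1) → Fin m → ℚ) l j : ℂ) *
        β' j) = Fin.snoc v w := by
      funext l
      refine Fin.lastCases ?_ (fun l => ?_) l
      · rw [Fin.snoc_last, Fin.snoc_last]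
      · rw [Fin.snoc_castSucc, Fin.snoc_castSucc]
    rw [hpts]
    intro a ha
    have hsplit : ∀ ε : Derivation ℚ ℂ ℂ,
        ∑ q : Fin (i + 1) × Bool, a q * FF τ μ (Fin.snoc v w : Fin (i + 1) → ℂ) q ε =
        ∑ q : Fin i × Bool, a (Fin.castSucc q.1, q.2) * FF τ μ v q ε +
          (a (Fin.last i, true) * etf τ μ ε w + a (Fin.last i, false) * lam τ μ ε w) := by
      intro ε
      rw [Fintype.sum_prod_type, Fin.sum_univ_castSucc, Fintype.sum_prod_type]
      congr 1
      · apply Finset.sum_congr rfl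
        intro l _
        rw [Fintype.sum_bool, Fintype.sum_bool]
        simp only [FF_true, FF_false, Fin.snoc_castSucc]
      · rw [Fintype.sum_bool]
        simp only [FF_true, FF_false, Fin.snoc_last]
    have hlast : a (Fin.last i, true) = 0 ∧ a (Fin.last i, false) = 0 := by
      have key : ∀ ε ∈ DK (KX τ μ K v),
          a (Fin.last i, true) * etf τ μ ε w + a (Fin.last i, false) * lam τ μ ε w = 0 := by
        intro ε hε
        obtain ⟨h2, h3⟩ := (hmem ε).1 hε
        have h4 := ha ε h2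
        rw [hsplit] at h4
        simpa [h3] using h4
      have e1 := key δ hδ
      have e2 := key δ' hδ'
      have hne' : lam τ μ δ w * etf τ μ δ' w - lam τ μ δ' w * etf τ μ δ w ≠ 0 :=
        sub_ne_zero.2 hne
      constructor
      · apply mul_right_cancel₀ hne'
        linear_combination lam τ μ δ w * e2 - lam τ μ δ' w * e1
      · apply mul_right_cancel₀ hne'
        linear_combination etf τ μ δ' w * e1 - etf τ μ δ w * e2
    have hrest : (fun q : Fin i × Bool => a (Fin.castSucc q.1, q.2)) = 0 := by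
      apply hc'
      intro ε hε
      have h4 := ha ε hε
      rw [hsplit, hlast.1, hlast.2] at h4
      simpa using h4
    funext q
    obtain ⟨l, b⟩ := q
    refine Fin.lastCases ?_ (fun l => ?_) l
    · cases b with
      | true => exact hlast.1
      | false => exact hlast.2
    · exact congrFun hrest (l, b)

end I_RelAll

open I_RelAll in
/-- **R4: all points together.** -/
theorem RelAll_pf (h1 : S_RelStepE) : S_RelAll := by
  classical
  intro τ μ hN K hKc hμ hτ he hk m r r' β β' hr' hr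
  obtain ⟨c', hc'⟩ := exists_points h1 τ μ hN K hKc hμ hτ he hk m r' β' hr' r' le_rfl
  set v : Fin r' → ℂ := fun l => ∑ j, (c' l j : ℂ) * β' j with hv
  have hmem := mem_DK_KX τ μ K v hc'
  have hdrop := rank_drop (DK K) (DK (KX τ μ K v)) (lgV β) (FF τ μ v)
    (fun δ h2 h3 => (hmem δ).2 ⟨h2, h3⟩)
  have hcard : Fintype.card (Fin r' × Bool) = r' * 2 := by
    rw [Fintype.card_prod, Fintype.card_fin, Fintype.card_bool]
  rw [hcard] at hdrop
  obtain ⟨j, hj⟩ := select (DK (KX τ μ K v)) (fun l => lgF (β l)) (lgV β) (fun _ _ => rfl) r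
    (by omega)
  have h2 := (Idp.extend (fun δ hδ => (hmem δ).1 hδ) hc' hj).equiv
    (Equiv.sumComm (Fin r) (Fin r' × Bool))
  obtain ⟨δ, hδ, hdet⟩ := h2.det
  refine ⟨fun i => Pi.single (j i) 1, c', δ, hδ, ?_⟩
  have hu : (fun i : Fin r => ∑ l, (((Pi.single (j i) 1 : Fin m → ℚ) l : ℚ) : ℂ) * β l) =
      fun i => β (j i) := by
    funext i
    rw [Finset.sum_eq_single (j i)]
    · simp
    · intro l _ hl
      rw [Pi.single_eq_of_ne hl]
      simp
    · intro h
      exact absurd (Finset.mem_univ _) h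
  rw [hu]
  convert hdet using 2
  ext o o'
  rw [Matrix.of_apply, Matrix.of_apply]
  rcases o' with i | ⟨l, b⟩
  · rfl
  · cases b with
    | true => rfl
    | false => rfl

end Pool.Agent.Work.MP_8da9ea_nt.EB
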