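import Pool.Agent.Work.MP_8da9ea_nt.EB.StmtsG
import Pool.Agent.Work.MP_8da9ea_nt.TG.RelH

/-!
# Elliptic block, item RelPol: the polynomial of the good pairs `(c, c')`
-/

set_option autoImplicit false

namespace Pool.Agent.Work.MP_8da9ea_nt.EB

open MvPolynomial Pool.Agent.Work.MP_327059_nt.GL Pool.Agent.Work.MP_8da9ea_nt.S

namespace I_RelPol

/-- additive functions are linear over the rational numbers -/
theorem addLin (f : ℂ → ℂ) (hf : ∀ u v, f (u + v) = f u + f v) {m : ℕ} (c : Fin m → ℚ)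
    (β : Fin m → ℂ) : f (∑ j, (c j : ℂ) * β j) = ∑ j, (c j : ℂ) * f (β j) := by
  have h0 : f 0 = 0 := by
    have e1 := hf 0 0
    rw [add_zero] at e1
    have e2 : f 0 + 0 = f 0 + f 0 := by rw [add_zero]; exact e1
    exact (add_left_cancel e2).symm
  let F : ℂ →+ ℂ := { toFun := f, map_zero' := h0, map_add' := hf }
  change F (∑ j, (c j : ℂ) * β j) = _
  rw [map_sum]
  refine Finset.sum_congr rfl fun j _ => ?_
  have h1 := map_rat_smul F (c j) (β j)
  rw [Rat.smul_def, Rat.smul_def] at h1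
  exact h1

/-- logarithmic derivatives are additive -/
theorem dlog_add (δ : Derivation ℚ ℂ ℂ) (u v : ℂ) :
    δ (Complex.exp (u + v)) / Complex.exp (u + v) =
      δ (Complex.exp u) / Complex.exp u + δ (Complex.exp v) / Complex.exp v := by
  have h1 := Complex.exp_ne_zero u
  have h2 := Complex.exp_ne_zero v
  rw [Complex.exp_add, Derivation.leibniz, smul_eq_mul, smul_eq_mul]
  field_simp
  ring

/-- the determinant of a matrix of forms of degree one is homogeneous -/
theorem detHom {σ ν : Type} [Fintype σ] [DecidableEq σ] (p : Matrix σ σ (MvPolynomial ν ℂ))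
    (hp : ∀ i j, (p i j).IsHomogeneous 1) : p.det.IsHomogeneous (Fintype.card σ) := by
  rw [Matrix.det_apply]
  refine MvPolynomial.IsHomogeneous.sum _ _ _ fun g _ => ?_
  have h1 : (∏ i, p (g i) i).IsHomogeneous (∑ _i : σ, 1) :=
    MvPolynomial.IsHomogeneous.prod _ _ _ fun i _ => hp _ _
  rw [Finset.sum_const, smul_eq_mul, mul_one, Finset.card_univ] at h1
  rcases Int.units_eq_one_or (Equiv.Perm.sign g) with h | h
  · rw [h, one_smul]
    exact h1
  · rw [h, Units.neg_smul, one_smul]
    exact h1.neg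

end I_RelPol

open I_RelPol in
theorem RelPol_pf (h1 : S_LamAdd) (h2 : S_EtaAdd) : S_RelPol := by
  classical
  intro τ μ hN K hμ hτ het hkap m r r' β β' c₀ c₀' δ hδ hdet
  have hp1 : ∀ o, δ o (μ * et τ) = 0 := fun o => hδ o _ (mul_mem hμ het)
  have hp2 : ∀ o, δ o (μ * (τ * et τ - kap)) = 0 :=
    fun o => hδ o _ (mul_mem hμ (sub_mem (mul_mem hτ het) hkap))
  -- the coefficients
  let g : Fin r ⊕ Fin r' × Bool → Fin m → Fin r ⊕ Fin r' × Bool → ℂ := fun o j =>
    Sum.elim (fun _ => δ o (Complex.exp (β j)) / Complex.exp (β j))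
      (fun q => if q.2 then etf τ μ (δ o) (β' j) else lam τ μ (δ o) (β' j))
  let p : Matrix (Fin r ⊕ Fin r' × Bool) (Fin r ⊕ Fin r' × Bool)
      (MvPolynomial (Fin r × Fin m ⊕ Fin r' × Fin m) ℂ) := fun o o' =>
    ∑ j, X (Sum.elim (fun i => Sum.inl (i, j)) (fun q => Sum.inr (q.1, j)) o') * C (g o j o')
  have hen : ∀ (c : Fin r → Fin m → ℚ) (c' : Fin r' → Fin m → ℚ) (o o'),
      MvPolynomial.eval (Sum.elim (fun q => (c q.1 q.2 : ℂ)) (fun q => (c' q.1 q.2 : ℂ)))
        (p o o') = enE τ μ (fun i => ∑ j, (c i j : ℂ) * β j)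
          (fun i => ∑ j, (c' i j : ℂ) * β' j) (δ o) o' := by
    intro c c' o o'
    simp only [p, map_sum, map_mul, MvPolynomial.eval_X, MvPolynomial.eval_C]
    rcases o' with i | ⟨i, b⟩
    · change ∑ j, (c i j : ℂ) * (δ o (Complex.exp (β j)) / Complex.exp (β j)) =
        δ o (Complex.exp (∑ j, (c i j : ℂ) * β j)) / Complex.exp (∑ j, (c i j : ℂ) * β j)
      exact (addLin (fun u => δ o (Complex.exp u) / Complex.exp u) (dlog_add (δ o)) (c i) β).symm
    · cases b with
      | true =>
        change ∑ j, (c' i j : ℂ) * etf τ μ (δ o) (β' j) =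
          etf τ μ (δ o) (∑ j, (c' i j : ℂ) * β' j)
        exact (addLin (fun u => etf τ μ (δ o) u)
          (h2 τ μ hN (δ o) (hp1 o) (hp2 o)) (c' i) β').symm
      | false =>
        change ∑ j, (c' i j : ℂ) * lam τ μ (δ o) (β' j) =
          lam τ μ (δ o) (∑ j, (c' i j : ℂ) * β' j)
        exact (addLin (fun u => lam τ μ (δ o) u) (h1 τ μ hN (δ o)) (c' i) β').symm
  have hPev : ∀ (c : Fin r → Fin m → ℚ) (c' : Fin r' → Fin m → ℚ),
      MvPolynomial.eval (Sum.elim (fun q => (c q.1 q.2 : ℂ)) (fun q => (c' q.1 q.2 : ℂ)))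
        p.det = (Matrix.of fun o o' => enE τ μ (fun i => ∑ j, (c i j : ℂ) * β j)
          (fun i => ∑ j, (c' i j : ℂ) * β' j) (δ o) o').det := by
    intro c c'
    rw [RingHom.map_det]
    congr 1
    ext o o'
    exact hen c c' o o'
  refine ⟨p.det, ?_, ?_, ?_⟩
  · intro h0
    have h6 := hPev c₀ c₀'
    rw [h0, map_zero] at h6
    exact hdet h6.symm
  · have h3 : Fintype.card (Fin r ⊕ Fin r' × Bool) = r + 2 * r' := by
      rw [Fintype.card_sum, Fintype.card_prod, Fintype.card_fin, Fintype.card_fin,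
        Fintype.card_bool, mul_comm]
    rw [← h3]
    refine detHom p fun o o' => ?_
    refine MvPolynomial.IsHomogeneous.sum _ _ _ fun j _ => ?_
    have h4 := (MvPolynomial.isHomogeneous_X ℂ (Sum.elim (fun i => Sum.inl (i, j))
      (fun q => Sum.inr (q.1, j)) o' : Fin r × Fin m ⊕ Fin r' × Fin m)).mul
      (MvPolynomial.isHomogeneous_C (Fin r × Fin m ⊕ Fin r' × Fin m) (g o j o'))
    rwa [add_zero] at h4
  · intro c c' hP
    rw [hPev] at hP
    set u : Fin r → ℂ := fun i => ∑ j, (c i j : ℂ) * β j with hu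
    set v : Fin r' → ℂ := fun i => ∑ j, (c' i j : ℂ) * β' j with hv
    have hvL : ∀ i, v i ∉ Lam τ := by
      intro i hi
      apply hP
      refine Matrix.det_eq_zero_of_column_eq_zero (Sum.inr (i, false)) fun o => ?_
      change lam τ μ (δ o) (v i) = 0
      unfold lam
      rw [if_pos hi]
    have hy : ∀ i, ye τ μ (v i) ≠ 0 := by
      intro i hi
      apply hP
      refine Matrix.det_eq_zero_of_column_eq_zero (Sum.inr (i, false)) fun o => ?_
      change lam τ μ (δ o) (v i) = 0
      unfold lam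
      rw [if_neg (hvL i), hi, div_zero]
    refine ⟨hvL, ?_⟩
    have hlam : ∀ o i, δ o (xe τ μ (v i)) = ye τ μ (v i) * lam τ μ (δ o) (v i) := by
      intro o i
      unfold lam
      rw [if_neg (hvL i), mul_div_cancel₀ _ (hy i)]
    have hetf : ∀ o i, δ o (ze τ μ (v i)) = etf τ μ (δ o) (v i) -
        xe τ μ (v i) * lam τ μ (δ o) (v i) := by
      intro o i
      unfold etf
      rw [if_neg (hvL i)]
      ring
    have hex : ∀ o i, δ o (Complex.exp (u i)) =
        Complex.exp (u i) * (δ o (Complex.exp (u i)) / Complex.exp (u i)) := by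
      intro o i
      rw [mul_div_cancel₀ _ (Complex.exp_ne_zero _)]
    refine TG.rel_jac K _ δ hδ ?_
    intro h0
    obtain ⟨a, ha, haJ⟩ := Matrix.exists_mulVec_eq_zero_iff.2 h0
    let a' : Fin r ⊕ Fin r' × Bool → ℂ := Sum.elim (fun i => Complex.exp (u i) * a (Sum.inl i))
      (fun q => if q.2 then a (Sum.inr (q.1, true)) else
        ye τ μ (v q.1) * a (Sum.inr (q.1, false)) - xe τ μ (v q.1) * a (Sum.inr (q.1, true)))
    have hM : (Matrix.of fun o o' => enE τ μ u v (δ o) o').mulVec a' = 0 := by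
      funext o
      have h3 := congrFun haJ o
      simp only [Matrix.mulVec, dotProduct, Matrix.of_apply, Fintype.sum_sum_type,
        Fintype.sum_prod_type, Fintype.sum_bool, Pi.zero_apply] at h3 ⊢
      simp only [Sum.elim_inl, Sum.elim_inr, if_true, Bool.false_eq_true, if_false] at h3
      rw [← h3]
      congr 1
      · refine Finset.sum_congr rfl fun i _ => ?_
        change δ o (Complex.exp (u i)) / Complex.exp (u i) * (Complex.exp (u i) * a (Sum.inl i)) =
          δ o (Complex.exp (u i)) * a (Sum.inl i)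
        rw [← mul_assoc, div_mul_cancel₀ _ (Complex.exp_ne_zero _)]
      · refine Finset.sum_congr rfl fun i _ => ?_
        change etf τ μ (δ o) (v i) * a (Sum.inr (i, true)) + lam τ μ (δ o) (v i) *
          (ye τ μ (v i) * a (Sum.inr (i, false)) - xe τ μ (v i) * a (Sum.inr (i, true))) =
          δ o (ze τ μ (v i)) * a (Sum.inr (i, true)) + δ o (xe τ μ (v i)) * a (Sum.inr (i, false))
        rw [hlam, hetf]
        ring
    have ha' : a' = 0 := by
      by_contra hne
      exact hP (Matrix.exists_mulVec_eq_zero_iff.1 ⟨a', hne, hM⟩)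
    apply ha
    funext o
    rcases o with i | ⟨i, b⟩
    · have h3 : Complex.exp (u i) * a (Sum.inl i) = 0 := congrFun ha' (Sum.inl i)
      exact (mul_eq_zero.1 h3).resolve_left (Complex.exp_ne_zero _)
    · have h3 : a (Sum.inr (i, true)) = 0 := congrFun ha' (Sum.inr (i, true))
      cases b with
      | true => exact h3
      | false =>
        have h4 : ye τ μ (v i) * a (Sum.inr (i, false)) - xe τ μ (v i) *
          a (Sum.inr (i, true)) = 0 := congrFun ha' (Sum.inr (i, false))
        rw [h3, mul_zero, sub_zero] at h4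
        exact (mul_eq_zero.1 h4).resolve_left (hy i)

end Pool.Agent.Work.MP_8da9ea_nt.EB
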