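import Pool.Agent.Work.MP_8da9ea_nt.EB.StmtsT
import Pool.Agent.Work.MP_8da9ea_nt.S.Stmts

/-!
# Elliptic block, item RelPt: an algebraic relation between the values at one point

For one `s ≠ 0` there is one triple of polynomials of size `C S ^ 10` for every `j`. The
`(S ^ (5 m)) ^ m` products of powers of the values are values of polynomials of degree and
logarithmic length at most `C' S ^ (5 m + 10)` at a point of transcendence degree at most `m - 2`,
and Siegel's lemma over a finitely generated field gives a relation.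
-/

set_option autoImplicit false

namespace Pool.Agent.Work.MP_8da9ea_nt.EB

open MvPolynomial Metric Filter Topology Pool.Agent.Work.MP_327059_nt.GL
  Pool.Agent.Work.MP_8da9ea_nt.S

namespace I_RelPt

/-- The exponent vector of `l`. -/
noncomputable def mon {m W : ℕ} (l : Fin m → Fin W) : Fin m →₀ ℕ :=
  Finsupp.equivFunOnFinite.symm (fun j => (l j : ℕ))

theorem mon_apply {m W : ℕ} (l : Fin m → Fin W) (j : Fin m) : mon l j = (l j : ℕ) := rfl

theorem mon_inj {m W : ℕ} : Function.Injective (mon : (Fin m → Fin W) → (Fin m →₀ ℕ)) := by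
  intro l l' h
  funext j
  have := DFunLike.congr_fun h j
  rw [mon_apply, mon_apply] at this
  exact Fin.ext this

/-- The polynomial with coefficients `p`. -/
noncomputable def RR {m W : ℕ} (p : (Fin m → Fin W) → ℤ) : MvPolynomial (Fin m) ℤ :=
  ∑ l, monomial (mon l) (p l)

theorem coeff_RR {m W : ℕ} (p : (Fin m → Fin W) → ℤ) (l : Fin m → Fin W) :
    (RR p).coeff (mon l) = p l := by
  classical
  rw [RR, coeff_sum, Finset.sum_eq_single l]
  · rw [coeff_monomial, if_pos rfl]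
  · intro l' _ hl'
    rw [coeff_monomial, if_neg]
    exact fun h => hl' (mon_inj h)
  · intro h
    exact absurd (Finset.mem_univ l) h

theorem coeff_RR' {m W : ℕ} (p : (Fin m → Fin W) → ℤ) (d : Fin m →₀ ℕ)
    (hd : ∀ l : Fin m → Fin W, mon l ≠ d) : (RR p).coeff d = 0 := by
  classical
  rw [RR, coeff_sum]
  refine Finset.sum_eq_zero fun l _ => ?_
  rw [coeff_monomial, if_neg (hd l)]

theorem RR_ne {m W : ℕ} (p : (Fin m → Fin W) → ℤ) (hp : p ≠ 0) : RR p ≠ 0 := by
  intro h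
  apply hp
  funext l
  rw [← coeff_RR p l, h, coeff_zero]
  rfl

theorem RR_bd {m W : ℕ} (p : (Fin m → Fin W) → ℤ) (B : ℝ) (hB : 0 ≤ B)
    (hp : ∀ l, |(p l : ℝ)| ≤ B) (d : Fin m →₀ ℕ) : |(((RR p).coeff d : ℤ) : ℝ)| ≤ B := by
  by_cases hd : ∃ l : Fin m → Fin W, mon l = d
  · obtain ⟨l, rfl⟩ := hd
    rw [coeff_RR]
    exact hp l
  · push Not at hd
    rw [coeff_RR' p d hd]
    simpa using hB

theorem RR_deg {m W : ℕ} (p : (Fin m → Fin W) → ℤ) (j : Fin m) : (RR p).degreeOf j ≤ W := by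
  classical
  rw [degreeOf_le_iff]
  intro d hd
  by_cases h : ∃ l : Fin m → Fin W, mon l = d
  · obtain ⟨l, rfl⟩ := h
    rw [mon_apply]
    exact (l j).2.le
  · push Not at h
    rw [mem_support_iff] at hd
    exact absurd (coeff_RR' p d h) hd

theorem RR_eval {m W : ℕ} (p : (Fin m → Fin W) → ℤ) (X : Fin m → ℂ) :
    aeval X (RR p) = ∑ l : Fin m → Fin W, (p l : ℂ) * ∏ j, X j ^ (l j : ℕ) := by
  rw [RR, map_sum]
  refine Finset.sum_congr rfl fun l _ => ?_
  rw [aeval_monomial, Finsupp.prod_fintype]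
  · simp [mon_apply]
  · intro i
    exact pow_zero _

/-- The coefficients of one product of powers, in the format of `PE`. -/
noncomputable def pl {m W : ℕ} (l : Fin m → Fin W) : (Fin 1 → Fin m → Fin W) → ℤ :=
  Pi.single (fun _ => l) 1

theorem pl_le {m W : ℕ} (l : Fin m → Fin W) (x : Fin 1 → Fin m → Fin W) :
    |((pl l x : ℤ) : ℝ)| ≤ Real.exp 0 := by
  classical
  rw [Real.exp_zero, pl]
  by_cases h : x = fun _ => l
  · subst h
    simp
  · rw [Pi.single_eq_of_ne h]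
    simp

theorem pl_sum {m W : ℕ} (l : Fin m → Fin W) (f : (Fin 1 → Fin m → Fin W) → ℂ) :
    ∑ x, ((pl l x : ℤ) : ℂ) * f x = f (fun _ => l) := by
  classical
  rw [Finset.sum_eq_single (fun _ => l)]
  · simp [pl]
  · intro x _ hx
    rw [pl, Pi.single_eq_of_ne hx]
    simp
  · intro h
    exact absurd (Finset.mem_univ _) h

/-- the true point -/
theorem pc_true {n m : ℕ} (b : Fin m → ℂ) (x : Fin n → ℂ) (s : Fin n → ℤ) (j : Fin m) :
    pc (fun i j => b j * x i) s j = b j * cmb s x := by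
  unfold pc cmb
  rw [Finset.mul_sum]
  exact Finset.sum_congr rfl fun i _ => by ring

/-- Powers of `S` absorb constants. -/
theorem big (A : ℝ) (k : ℕ) : ∃ S₀ : ℕ, 1 ≤ S₀ ∧ ∀ S : ℕ, S₀ ≤ S → A * (S : ℝ) ^ k ≤ (S : ℝ) ^ (k + 1) := by
  refine ⟨max 1 ⌈A⌉₊, le_max_left _ _, fun S hS => ?_⟩
  have h1 : A ≤ S := (Nat.le_ceil A).trans (by exact_mod_cast (le_max_right _ _).trans hS)
  rw [pow_succ']
  exact mul_le_mul_of_nonneg_right h1 (by positivity)

end I_RelPt

open I_RelPt in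
/-- M3: an algebraic relation between the values at one point -/
theorem RelPt_pf (h1 : S_Tree) (h2 : S_PEval) (h3 : S_TrExt) (h4 : S_FF) : S_RelPt := by
  intro m n hm hn τ μ b x hN hNT hTr
  obtain ⟨C, K₁, hC, htree⟩ := h1 n m hn
  have hTr' := h3 τ μ n m (m - 2) b x hN hNT hTr
  obtain ⟨c, hc, hFF⟩ := h4 (VI n m) (m - 2) (ptE τ μ (fun i j => b j * x i)) hTr'
  have hNT' : ∀ (s : Fin n → ℤ) (j : Fin m), s ≠ 0 → pc (fun i j => b j * x i) s j ∉ Lam τ := by
    intro s j hs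
    rw [pc_true]
    exact hNT s hs j
  -- constants
  set A : ℝ := 2 * m * C + 1 with hA
  have hA1 : 1 ≤ A := by
    have : (0 : ℝ) ≤ 2 * m * C := by positivity
    linarith
  have hc1 : (1 : ℝ) ≤ c := by exact_mod_cast hc
  obtain ⟨S₁, hS₁, hb₁⟩ := big (c * A ^ (m - 2)) ((5 * m + 10) * (m - 2))
  obtain ⟨S₂, hS₂, hb₂⟩ := big (5 * m * m + A + c * A) (5 * m + 10)
  refine ⟨max S₁ S₂, fun S hS s hs hsS => ?_⟩
  have hS1 : 1 ≤ S := hS₁.trans ((le_max_left _ _).trans hS)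
  have hSr : (1 : ℝ) ≤ S := by exact_mod_cast hS1
  have hS0 : (0 : ℝ) < S := by linarith
  have hb₁' := hb₁ S ((le_max_left _ _).trans hS)
  have hb₂' := hb₂ S ((le_max_right _ _).trans hS)
  have hV : ∀ j : Fin m, ∃ V : Tri n m,
      Val τ μ (ptE τ μ (fun i j => b j * x i)) (pc (fun i j => b j * x i) s j) V ∧
        Siz (C * (S : ℝ) ^ 10) V := by
    intro j
    obtain ⟨V, -, hv1, hv2⟩ := htree τ μ hN.im hN.mu j (fun i j => b j * x i)
      (fun s' hs' _ => hNT' s' j hs') S s hS1 hsS (hNT' s j hs)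
    exact ⟨V, hv1, hv2⟩
  choose V hV1 hV2 using hV
  set θ := ptE τ μ (fun i j => b j * x i) with hθ
  set W : ℕ := S ^ (5 * m) with hW
  set q : ℝ := m * W * (C * (S : ℝ) ^ 10 + 1) with hq
  have hP10 : (1 : ℝ) ≤ (S : ℝ) ^ 10 := one_le_pow₀ hSr
  have hq0 : 0 ≤ q := by positivity
  have hqA : q + 1 ≤ A * (S : ℝ) ^ (5 * m + 10) := by
    have e1 : C * (S : ℝ) ^ 10 + 1 ≤ 2 * C * (S : ℝ) ^ 10 := by
      have : 1 ≤ C * (S : ℝ) ^ 10 := one_le_mul_of_one_le_of_one_le hC hP10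
      linarith
    have e2 : q ≤ m * W * (2 * C * (S : ℝ) ^ 10) :=
      mul_le_mul_of_nonneg_left e1 (by positivity)
    have e3 : (m : ℝ) * W * (2 * C * (S : ℝ) ^ 10) = 2 * m * C * (S : ℝ) ^ (5 * m + 10) := by
      rw [hW, pow_add]
      push_cast
      ring
    have e4 : (1 : ℝ) ≤ (S : ℝ) ^ (5 * m + 10) := one_le_pow₀ hSr
    rw [hA, add_mul, one_mul]
    linarith
  set D : ℕ := ⌊q⌋₊ with hD
  have hDq : (D : ℝ) ≤ q := Nat.floor_le hq0
  have hDA : (D : ℝ) + 1 ≤ A * (S : ℝ) ^ (5 * m + 10) := by linarith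
  -- the polynomials
  have hsiz : ∀ l : Fin m → Fin W, SizP q (PE (pl l) (fun _ : Fin 1 => V)) := by
    intro l
    have := (h2 n m 1 W (pl l) (fun _ => V)).2 (C * (S : ℝ) ^ 10) 0 (by positivity) le_rfl
      (fun _ j => hV2 j) (pl_le l)
    have e : ((1 : ℕ) : ℝ) * m * W * (C * (S : ℝ) ^ 10 + 1) + 0 = q := by
      rw [hq]
      push_cast
      ring
    rwa [e] at this
  have hcard : Fintype.card (Fin m → Fin W) = S ^ (5 * m * m) := by
    rw [Fintype.card_fun, Fintype.card_fin, Fintype.card_fin, hW, ← pow_mul]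
  have hexp : (5 * m + 10) * (m - 2) + 1 ≤ 5 * m * m := by
    obtain ⟨k, rfl⟩ : ∃ k, m = k + 2 := ⟨m - 2, by omega⟩
    rw [Nat.add_sub_cancel]
    nlinarith
  have hcount : c * (D + 1) ^ (m - 2) ≤ Fintype.card (Fin m → Fin W) := by
    rw [hcard]
    have e1 : ((c * (D + 1) ^ (m - 2) : ℕ) : ℝ) ≤ ((S ^ (5 * m * m) : ℕ) : ℝ) := by
      push_cast
      calc (c : ℝ) * ((D : ℝ) + 1) ^ (m - 2)
          ≤ c * (A * (S : ℝ) ^ (5 * m + 10)) ^ (m - 2) := by gcongr
        _ = c * A ^ (m - 2) * (S : ℝ) ^ ((5 * m + 10) * (m - 2)) := by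
            rw [mul_pow, ← pow_mul]; ring
        _ ≤ (S : ℝ) ^ ((5 * m + 10) * (m - 2) + 1) := hb₁'
        _ ≤ (S : ℝ) ^ (5 * m * m) := pow_le_pow_right₀ hSr hexp
    exact_mod_cast e1
  obtain ⟨p, hp0, hp1, hp2⟩ := hFF (Fin m → Fin W) D (Real.exp q)
    (fun l => PE (pl l) (fun _ : Fin 1 => V)) (Real.one_le_exp hq0)
    (fun l => Nat.le_floor (hsiz l).1) (fun l => (hsiz l).2) hcount
  refine ⟨RR p, RR_ne p hp0, fun j => RR_deg p j, fun d => RR_bd p _ (Real.exp_nonneg _) ?_ d, ?_⟩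
  · intro l
    refine (hp1 l).trans ?_
    rw [hcard]
    have e1 : (((S ^ (5 * m * m) : ℕ)) : ℝ) ≤ Real.exp (5 * m * m * S) := by
      push_cast
      have : (S : ℝ) ≤ Real.exp S := by linarith [Real.add_one_le_exp (S : ℝ)]
      calc (S : ℝ) ^ (5 * m * m) ≤ (Real.exp S) ^ (5 * m * m) := by gcongr
        _ = Real.exp (5 * m * m * S) := by
            rw [← Real.exp_nat_mul]
            push_cast
            ring_nf
    have e2 : (c : ℝ) ^ (D + 1) ≤ Real.exp (c * (D + 1)) := by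
      have : (c : ℝ) ≤ Real.exp c := by linarith [Real.add_one_le_exp (c : ℝ)]
      calc (c : ℝ) ^ (D + 1) ≤ (Real.exp c) ^ (D + 1) := by gcongr
        _ = Real.exp (c * (D + 1)) := by
            rw [← Real.exp_nat_mul]
            push_cast
            ring_nf
    calc (((S ^ (5 * m * m) : ℕ)) : ℝ) * (Real.exp q * (c : ℝ) ^ (D + 1))
        ≤ Real.exp (5 * m * m * S) * (Real.exp q * Real.exp (c * (D + 1))) := by
          gcongr
      _ = Real.exp (5 * m * m * S + (q + c * (D + 1))) := by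
          rw [Real.exp_add, Real.exp_add]
      _ ≤ Real.exp ((S : ℝ) ^ (5 * m + 12)) := by
          rw [Real.exp_le_exp]
          have f1 : (S : ℝ) ≤ (S : ℝ) ^ (5 * m + 10) := by
            calc (S : ℝ) = (S : ℝ) ^ 1 := (pow_one _).symm
              _ ≤ _ := pow_le_pow_right₀ hSr (by omega)
          have f2 : 5 * (m : ℝ) * m * S ≤ 5 * m * m * (S : ℝ) ^ (5 * m + 10) := by gcongr
          have f3 : (c : ℝ) * (D + 1) ≤ c * (A * (S : ℝ) ^ (5 * m + 10)) := by gcongr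
          have f4 : (S : ℝ) ^ (5 * m + 10 + 1) ≤ (S : ℝ) ^ (5 * m + 12) :=
            pow_le_pow_right₀ hSr (by omega)
          have f5 : (5 * (m : ℝ) * m + A + c * A) * (S : ℝ) ^ (5 * m + 10) =
              5 * m * m * (S : ℝ) ^ (5 * m + 10) + A * (S : ℝ) ^ (5 * m + 10) +
                c * (A * (S : ℝ) ^ (5 * m + 10)) := by ring
          linarith
  · rw [RR_eval]
    have hval : ∀ l : Fin m → Fin W, aeval θ (PE (pl l) (fun _ : Fin 1 => V)) =
        (∏ j, aeval θ (V j).Z ^ W) * ∏ j, xe τ μ (b j * cmb s x) ^ (l j : ℕ) := by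
      intro l
      have := (h2 n m 1 W (pl l) (fun _ => V)).1 τ μ θ
        (fun _ j => pc (fun i j => b j * x i) s j) (fun _ j => hV1 j)
      rw [this, pl_sum l]
      simp only [Fintype.prod_unique, pc_true]
    have hZ : (∏ j, aeval θ (V j).Z ^ W) ≠ 0 :=
      Finset.prod_ne_zero_iff.2 fun j _ => pow_ne_zero _ (hV1 j).z0
    have e1 : (∏ j, aeval θ (V j).Z ^ W) *
        ∑ l : Fin m → Fin W, (p l : ℂ) * ∏ j, xe τ μ (b j * cmb s x) ^ (l j : ℕ) = 0 := by
      rw [← hp2, Finset.mul_sum]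
      refine Finset.sum_congr rfl fun l _ => ?_
      rw [hval l]
      ring
    exact (mul_eq_zero.1 e1).resolve_left hZ

end Pool.Agent.Work.MP_8da9ea_nt.EB
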