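import Pool.Agent.Work.MP_8da9ea_nt.EB.StmtsG
import Pool.Agent.Work.MP_8da9ea_nt.Der

/-!
Item RelStepE of the elliptic block: one elliptic point, zeta included.
-/

set_option autoImplicit false

namespace Pool.Agent.Work.MP_8da9ea_nt.EB

open Pool.Agent.Work.MP_8da9ea_nt

namespace I_RelStepE

/-- the algebraic closure in `ℂ` -/
noncomputable def acl (B : IntermediateField ℚ ℂ) : IntermediateField ℚ ℂ :=
  (algebraicClosure B ℂ).restrictScalars ℚ

lemma mem_acl {B : IntermediateField ℚ ℂ} {x : ℂ} : x ∈ acl B ↔ IsAlgebraic B x :=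
  mem_algebraicClosure_iff

lemma le_acl (B : IntermediateField ℚ ℂ) : B ≤ acl B := fun x hx =>
  mem_acl.2 (isAlgebraic_algebraMap (⟨x, hx⟩ : B))

lemma ACl_acl (B : IntermediateField ℚ ℂ) : ACl (acl B) := by
  intro x hx
  have h1 : IsAlgebraic (algebraicClosure B ℂ) x := hx
  exact mem_acl.2 (h1.restrictScalars B)

lemma countable_acl (B : IntermediateField ℚ ℂ) [Countable B] : Countable (acl B) := by
  have h1 : {x : ℂ | IsAlgebraic B x}.Countable := Algebraic.countable B ℂ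
  have h2 : ((acl B : IntermediateField ℚ ℂ) : Set ℂ) = {x : ℂ | IsAlgebraic B x} := by
    ext x
    exact mem_acl
  have h3 : ((acl B : IntermediateField ℚ ℂ) : Set ℂ).Countable := by
    rw [h2]
    exact h1
  exact h3.to_subtype

lemma DK_acl (B : IntermediateField ℚ ℂ) : DK (acl B) = DK B := by
  apply le_antisymm
  · intro δ hδ x hx
    exact hδ x (le_acl B hx)
  · intro δ hδ x hx
    exact Pool.Agent.ED.der_zero_alg B δ hδ x (mem_acl.1 hx)

lemma mem_acl_of_der (B : IntermediateField ℚ ℂ) (x : ℂ) (h : ∀ δ ∈ DK B, δ x = 0) :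
    x ∈ acl B := by
  have h1 := Pool.Agent.ED.isAlgebraic_of_derivation (K := ℚ) (B : Set ℂ) x (fun X hX => h X hX)
  rw [IntermediateField.adjoin_self] at h1
  exact mem_acl.2 h1

/-- The vector of the forms of the second kind. -/
noncomputable def etV (τ μ : ℂ) {m : ℕ} (β : Fin m → ℂ) : Derivation ℚ ℂ ℂ →ₗ[ℂ] (Fin m → ℂ) where
  toFun δ := fun j => etf τ μ δ (β j)
  map_add' a b := by
    funext j
    simp only [Pi.add_apply]
    unfold etf lam
    split_ifs
    · ring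
    · rw [Derivation.add_apply, Derivation.add_apply]
      ring
  map_smul' c a := by
    funext j
    simp only [Pi.smul_apply, smul_eq_mul, RingHom.id_apply]
    unfold etf lam
    split_ifs
    · ring
    · rw [Derivation.smul_apply, Derivation.smul_apply, smul_eq_mul, smul_eq_mul]
      ring

lemma sum_rat {m : ℕ} (f : ℂ → ℂ) (hf : ∀ u v, f (u + v) = f u + f v) (c : Fin m → ℚ)
    (β : Fin m → ℂ) : f (∑ j, (c j : ℂ) * β j) = ∑ j, (c j : ℂ) * f (β j) := by
  let F : ℂ →+ ℂ := AddMonoidHom.mk' f hf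
  have h1 : ∀ x, F x = f x := fun _ => rfl
  rw [← h1, map_sum]
  refine Finset.sum_congr rfl fun j _ => ?_
  have h2 : (c j : ℂ) * β j = (c j) • β j := by rw [Rat.smul_def]
  rw [h2, map_rat_smul F (c j) (β j), h1, Rat.smul_def]

lemma bracket_mem (K : IntermediateField ℚ ℂ) {δ δ' : Derivation ℚ ℂ ℂ} (h : δ ∈ DK K)
    (h' : δ' ∈ DK K) : ⁅δ, δ'⁆ ∈ DK K := by
  intro x hx
  rw [Derivation.commutator_apply, h x hx, h' x hx, map_zero, map_zero, sub_zero]

end I_RelStepE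

open I_RelStepE

theorem RelStepE_pf (hP : S_Pencil) (hC : S_Closed) (hA : S_AK2) (hL : S_LamAdd)
    (hE : S_EtaAdd) : S_RelStepE := by
  intro τ μ hN K hK hμ hτ het hkap m β hrk
  by_contra hcon
  push Not at hcon
  -- additivity
  have hk1 : ∀ δ ∈ DK K, δ (μ * et τ) = 0 := fun δ hδ => hδ _ (K.mul_mem hμ het)
  have hk2 : ∀ δ ∈ DK K, δ (μ * (τ * et τ - kap)) = 0 := fun δ hδ =>
    hδ _ (K.mul_mem hμ (K.sub_mem (K.mul_mem hτ het) hkap))
  have hlam : ∀ (c : Fin m → ℚ) (δ : Derivation ℚ ℂ ℂ),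
      lam τ μ δ (∑ j, (c j : ℂ) * β j) = ∑ j, (c j : ℂ) * lam τ μ δ (β j) :=
    fun c δ => sum_rat (lam τ μ δ) (hL τ μ hN δ) c β
  have heta : ∀ (c : Fin m → ℚ) (δ : Derivation ℚ ℂ ℂ), δ ∈ DK K →
      etf τ μ δ (∑ j, (c j : ℂ) * β j) = ∑ j, (c j : ℂ) * etf τ μ δ (β j) :=
    fun c δ hδ => sum_rat (etf τ μ δ) (hE τ μ hN δ (hk1 δ hδ) (hk2 δ hδ)) c β
  -- pencil
  obtain ⟨κ, hκ⟩ := hP (DK K) m ((lamV τ μ β).domRestrict (DK K)) ((etV τ μ β).domRestrict (DK K))
    (by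
      intro c δ δ'
      have h1 := hcon c δ.1 δ.2 δ'.1 δ'.2
      rw [hlam, hlam, heta c _ δ'.2, heta c _ δ.2] at h1
      exact h1)
    (by
      rw [LinearMap.range_domRestrict]
      exact hrk)
  have hκ' : ∀ δ ∈ DK K, ∀ j, etf τ μ δ (β j) = κ * lam τ μ δ (β j) := by
    intro δ hδ j
    exact congrFun (hκ ⟨δ, hδ⟩) j
  -- closedness
  have hcl : ∀ δ ∈ DK K, ∀ δ' ∈ DK K, ∀ j,
      δ κ * lam τ μ δ' (β j) = δ' κ * lam τ μ δ (β j) := by
    intro δ hδ δ' hδ' j
    obtain ⟨h1, h2⟩ := hC τ μ hN δ δ' (β j)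
    rw [hκ' _ (bracket_mem K hδ hδ') j, hκ' δ hδ j, hκ' δ' hδ' j, Derivation.leibniz,
      Derivation.leibniz, smul_eq_mul, smul_eq_mul, smul_eq_mul, smul_eq_mul, ← h1] at h2
    linear_combination h2
  -- `κ` is killed
  have hk0 : ∀ δ ∈ DK K, δ κ = 0 := by
    intro δ hδ
    by_contra hne
    have h3 : (DK K).map (lamV τ μ β) ≤ Submodule.span ℂ {lamV τ μ β δ} := by
      rintro _ ⟨δ', hδ', rfl⟩
      rw [Submodule.mem_span_singleton]
      refine ⟨δ' κ / δ κ, ?_⟩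
      funext j
      have h4 := hcl δ hδ δ' hδ' j
      show δ' κ / δ κ * lam τ μ δ (β j) = lam τ μ δ' (β j)
      rw [div_mul_eq_mul_div, div_eq_iff hne]
      linear_combination -h4
    have h5 := Submodule.finrank_mono h3
    have h6 := finrank_span_le_card (R := ℂ) ({lamV τ μ β δ} : Set (Fin m → ℂ))
    simp only [Set.toFinset_singleton, Finset.card_singleton] at h6
    omega
  -- conclusion
  have hcount : Countable (acl K) := countable_acl K
  have hz : ∀ j, ∀ δ ∈ DK (acl K), lam τ μ δ (β j) = 0 := by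
    intro j
    refine hA τ μ hN (acl K) hcount (ACl_acl K) (β j) κ (mem_acl_of_der K κ hk0) ?_
    intro δ hδ
    rw [DK_acl] at hδ
    exact hκ' δ hδ j
  have h7 : (DK K).map (lamV τ μ β) = ⊥ := by
    rw [eq_bot_iff]
    rintro _ ⟨δ, hδ, rfl⟩
    rw [Submodule.mem_bot]
    funext j
    exact hz j δ (by rw [DK_acl]; exact hδ)
  rw [h7, finrank_bot] at hrk
  omega

end Pool.Agent.Work.MP_8da9ea_nt.EB
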