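import Pool.Agent.Work.MP_8da9ea_nt.EB.StmtsT

/-! Item SchwE: the Schwarz lemma for the cleared function. -/

set_option autoImplicit false

namespace Pool.Agent.Work.MP_8da9ea_nt.EB

open MvPolynomial Metric Filter Topology

namespace I_SchwE

/-- Schwarz lemma with a zero of order `K + 1` at the origin. -/
theorem schwarz {G g₁ : ℂ → ℂ} {ρ M : ℝ} {K : ℕ} (hρ : 0 < ρ)
    (hG : DifferentiableOn ℂ G (ball 0 (4 * ρ))) (hM : ∀ z ∈ ball (0 : ℂ) (4 * ρ), ‖G z‖ ≤ M)
    (hg : AnalyticAt ℂ g₁ 0) (hv : ∀ᶠ z in 𝓝[≠] (0 : ℂ), G z = z ^ (K + 1) * g₁ z) :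
    ∀ z : ℂ, ‖z‖ ≤ ρ → ‖G z‖ ≤ Real.exp (-K) * M := by
  classical
  have h0b : (0 : ℂ) ∈ ball (0 : ℂ) (4 * ρ) := mem_ball_self (by linarith)
  have hM0 : 0 ≤ M := (norm_nonneg _).trans (hM 0 h0b)
  have hopen : IsOpen (ball (0 : ℂ) (4 * ρ)) := isOpen_ball
  set H : ℂ → ℂ := fun z => if z = 0 then g₁ 0 else G z / z ^ (K + 1) with hH
  -- `H` is holomorphic
  have hHd : DifferentiableOn ℂ H (ball 0 (4 * ρ)) := by
    intro z hz
    refine DifferentiableAt.differentiableWithinAt ?_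
    by_cases h0 : z = 0
    · subst h0
      have e : H =ᶠ[𝓝 (0 : ℂ)] g₁ := by
        rw [eventually_nhdsWithin_iff] at hv
        filter_upwards [hv] with w hw
        by_cases hw0 : w = 0
        · simp [hH, hw0]
        · have := hw hw0
          simp only [hH, if_neg hw0]
          rw [this]
          field_simp
      exact hg.differentiableAt.congr_of_eventuallyEq e
    · have e : H =ᶠ[𝓝 z] fun w => G w / w ^ (K + 1) := by
        filter_upwards [isOpen_ne.mem_nhds h0] with w hw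
        have hw' : w ≠ 0 := hw
        simp only [hH, if_neg hw']
      refine DifferentiableAt.congr_of_eventuallyEq ?_ e
      exact ((hG z hz).differentiableAt (hopen.mem_nhds hz)).div (by fun_prop) (pow_ne_zero _ h0)
  -- `G` vanishes at the origin
  have hG0 : G 0 = 0 := by
    have c1 : Tendsto G (𝓝[≠] 0) (𝓝 (G 0)) :=
      (((hG 0 h0b).differentiableAt (hopen.mem_nhds h0b)).continuousAt).tendsto.mono_left
        nhdsWithin_le_nhds
    have c2 : Tendsto (fun z : ℂ => z ^ (K + 1) * g₁ z) (𝓝[≠] 0) (𝓝 ((0 : ℂ) ^ (K + 1) * g₁ 0)) := by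
      have : ContinuousAt (fun z : ℂ => z ^ (K + 1) * g₁ z) 0 :=
        (continuousAt_id.pow _).mul hg.continuousAt
      exact this.tendsto.mono_left nhdsWithin_le_nhds
    have c3 := tendsto_nhds_unique (c1.congr' hv) c2
    rw [c3]
    simp
  have hGH : ∀ z, G z = z ^ (K + 1) * H z := by
    intro z
    by_cases h0 : z = 0
    · rw [h0, hG0]
      simp
    · simp only [hH, if_neg h0]
      field_simp
  -- maximum modulus
  have he : Real.exp 1 < 4 := by
    have := Real.exp_one_lt_d9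
    linarith
  have he0 : (0 : ℝ) < Real.exp 1 := Real.exp_pos 1
  set r : ℝ := Real.exp 1 * ρ with hr
  have hr0 : 0 < r := by positivity
  have hr4 : r < 4 * ρ := by
    rw [hr]
    nlinarith
  have hsub : closedBall (0 : ℂ) r ⊆ ball 0 (4 * ρ) := closedBall_subset_ball hr4
  have hdc : DiffContOnCl ℂ H (ball 0 r) := by
    refine DifferentiableOn.diffContOnCl ?_
    rw [closure_ball _ hr0.ne']
    exact hHd.mono hsub
  intro z hz
  have hzr : z ∈ closure (ball (0 : ℂ) r) := by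
    rw [closure_ball _ hr0.ne', mem_closedBall_zero_iff]
    have : (1 : ℝ) ≤ Real.exp 1 := Real.one_le_exp zero_le_one
    rw [hr]
    nlinarith [norm_nonneg z]
  have hbd : ‖H z‖ ≤ M / r ^ (K + 1) := by
    refine Complex.norm_le_of_forall_mem_frontier_norm_le isBounded_ball hdc ?_ hzr
    intro w hw
    rw [frontier_ball _ hr0.ne', mem_sphere_zero_iff_norm] at hw
    have hw0 : w ≠ 0 := by
      rintro rfl
      rw [norm_zero] at hw
      exact hr0.ne hw
    have hwb : w ∈ ball (0 : ℂ) (4 * ρ) := by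
      rw [mem_ball_zero_iff, hw]
      exact hr4
    simp only [hH, if_neg hw0]
    rw [norm_div, norm_pow, hw]
    exact div_le_div_of_nonneg_right (hM w hwb) (by positivity)
  rw [hGH z, norm_mul, norm_pow]
  have h1 : ‖z‖ ^ (K + 1) * ‖H z‖ ≤ ρ ^ (K + 1) * (M / r ^ (K + 1)) :=
    mul_le_mul (pow_le_pow_left₀ (norm_nonneg _) hz _) hbd (norm_nonneg _) (by positivity)
  refine h1.trans ?_
  have h2 : ρ ^ (K + 1) * (M / r ^ (K + 1)) = Real.exp (-(K + 1 : ℕ)) * M := by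
    rw [hr, mul_pow, ← Real.exp_nat_mul, mul_one, Real.exp_neg]
    field_simp
  rw [h2]
  refine mul_le_mul_of_nonneg_right (Real.exp_le_exp.2 ?_) hM0
  push_cast
  linarith

theorem card_support_le {m D : ℕ} {R : MvPolynomial (Fin m) ℤ} (hR : ∀ j, R.degreeOf j ≤ D) :
    R.support.card ≤ (D + 1) ^ m := by
  classical
  have h1 : R.support.card ≤ (Fintype.piFinset fun _ : Fin m => Finset.range (D + 1)).card := by
    refine Finset.card_le_card_of_injOn (fun d j => d j) ?_ ?_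
    · intro d hd
      have hd' : d ∈ R.support := hd
      rw [Finset.mem_coe, Fintype.mem_piFinset]
      intro j
      rw [Finset.mem_range]
      have := (degreeOf_le_iff.1 (hR j)) d hd'
      exact Nat.lt_succ_of_le this
    · intro d _ d' _ h
      exact Finsupp.ext fun j => congrFun h j
  refine h1.trans ?_
  rw [Fintype.card_piFinset]
  simp

/-- The cleared function. -/
noncomputable def GG {m : ℕ} (μ : ℂ) (b : Fin m → ℂ) (q g : ℂ → ℂ) (D : ℕ)
    (R : MvPolynomial (Fin m) ℤ) (z : ℂ) : ℂ :=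
  ∑ d ∈ R.support, ((R.coeff d : ℤ) : ℂ) *
    ∏ j, ((μ ^ 2 * g (b j * z)) ^ d j * q (b j * z) ^ (2 * (D - d j)))

theorem GG_eq {m : ℕ} {τ μ : ℂ} {b : Fin m → ℂ} {q g : ℂ → ℂ} {D : ℕ}
    {R : MvPolynomial (Fin m) ℤ} (hR : ∀ j, R.degreeOf j ≤ D) {z : ℂ}
    (hg : ∀ j, g (b j * z) = q (b j * z) ^ 2 * wp 1 τ (b j * z)) :
    GG μ b q g D R z =
      (∏ j, q (b j * z) ^ (2 * D)) * aeval (fun j => xe τ μ (b j * z)) R := by
  unfold GG
  rw [aeval_def, eval₂_eq', Finset.mul_sum]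
  refine Finset.sum_congr rfl fun d hd => ?_
  have h1 : ∏ j, ((μ ^ 2 * g (b j * z)) ^ d j * q (b j * z) ^ (2 * (D - d j))) =
      (∏ j, q (b j * z) ^ (2 * D)) * ∏ j, xe τ μ (b j * z) ^ d j := by
    rw [← Finset.prod_mul_distrib]
    refine Finset.prod_congr rfl fun j _ => ?_
    have h2 := (degreeOf_le_iff.1 (hR j)) d hd
    rw [hg j]
    obtain ⟨k, hk⟩ := Nat.exists_eq_add_of_le h2
    rw [hk, Nat.add_sub_cancel_left, mul_add, pow_add, xe]
    have e : ∀ (a c w : ℂ) (n : ℕ), (a ^ 2 * (c ^ 2 * w)) ^ n = c ^ (2 * n) * (a ^ 2 * w) ^ n := by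
      intro a c w n
      rw [pow_mul, ← mul_pow]
      congr 1
      ring
    rw [e]
    ring
  rw [h1]
  simp only [eq_intCast]
  ring

theorem GG_bound {m : ℕ} {μ : ℂ} {b : Fin m → ℂ} {q g : ℂ → ℂ} {D : ℕ}
    {R : MvPolynomial (Fin m) ℤ} (hR : ∀ j, R.degreeOf j ≤ D) {h E : ℝ} (hE : 0 ≤ E)
    (hc : ∀ d, |((R.coeff d : ℤ) : ℝ)| ≤ Real.exp h) {z : ℂ}
    (hq : ∀ j, ‖q (b j * z)‖ ≤ Real.exp E) (hg : ∀ j, ‖g (b j * z)‖ ≤ Real.exp E) :
    ‖GG μ b q g D R z‖ ≤ Real.exp (m * D * (1 + ‖μ‖ ^ 2 + 2 * E) + h) := by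
  unfold GG
  have hM : ‖μ‖ ^ 2 ≤ Real.exp (‖μ‖ ^ 2) := by
    have := Real.add_one_le_exp (‖μ‖ ^ 2)
    linarith
  have hterm : ∀ d ∈ R.support, ‖((R.coeff d : ℤ) : ℂ) *
      ∏ j, ((μ ^ 2 * g (b j * z)) ^ d j * q (b j * z) ^ (2 * (D - d j)))‖ ≤
      Real.exp h * Real.exp (m * (D * (‖μ‖ ^ 2 + 2 * E))) := by
    intro d hd
    rw [norm_mul, norm_prod]
    refine mul_le_mul ?_ ?_ (Finset.prod_nonneg fun _ _ => norm_nonneg _) (Real.exp_pos _).le
    · rw [Complex.norm_intCast]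
      exact hc d
    · have h1 : ∀ j ∈ (Finset.univ : Finset (Fin m)),
          ‖(μ ^ 2 * g (b j * z)) ^ d j * q (b j * z) ^ (2 * (D - d j))‖ ≤
            Real.exp (D * (‖μ‖ ^ 2 + 2 * E)) := by
        intro j _
        have h2 := (degreeOf_le_iff.1 (hR j)) d hd
        rw [norm_mul, norm_pow, norm_pow, norm_mul, norm_pow]
        have a1 : ‖μ‖ ^ 2 * ‖g (b j * z)‖ ≤ Real.exp (‖μ‖ ^ 2 + 2 * E) := by
          have : Real.exp (‖μ‖ ^ 2 + 2 * E) = Real.exp (‖μ‖ ^ 2) * Real.exp (2 * E) :=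
            Real.exp_add _ _
          rw [this]
          refine mul_le_mul hM ((hg j).trans (Real.exp_le_exp.2 (by linarith)))
            (norm_nonneg _) (Real.exp_pos _).le
        have a2 : ‖q (b j * z)‖ ^ 2 ≤ Real.exp (‖μ‖ ^ 2 + 2 * E) := by
          refine (pow_le_pow_left₀ (norm_nonneg _) (hq j) 2).trans ?_
          rw [← Real.exp_nat_mul]
          refine Real.exp_le_exp.2 ?_
          push_cast
          nlinarith [sq_nonneg ‖μ‖]
        calc (‖μ‖ ^ 2 * ‖g (b j * z)‖) ^ d j * ‖q (b j * z)‖ ^ (2 * (D - d j))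
            = (‖μ‖ ^ 2 * ‖g (b j * z)‖) ^ d j * (‖q (b j * z)‖ ^ 2) ^ (D - d j) := by
              rw [pow_mul]
          _ ≤ Real.exp (‖μ‖ ^ 2 + 2 * E) ^ d j * Real.exp (‖μ‖ ^ 2 + 2 * E) ^ (D - d j) :=
              mul_le_mul (pow_le_pow_left₀ (by positivity) a1 _)
                (pow_le_pow_left₀ (by positivity) a2 _) (by positivity) (by positivity)
          _ = Real.exp (‖μ‖ ^ 2 + 2 * E) ^ D := by
              rw [← pow_add]
              congr 1
              omega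
          _ = Real.exp (D * (‖μ‖ ^ 2 + 2 * E)) := by
              rw [← Real.exp_nat_mul]
      refine (Finset.prod_le_prod (fun _ _ => norm_nonneg _) h1).trans ?_
      rw [Finset.prod_const, Finset.card_univ, Fintype.card_fin, ← Real.exp_nat_mul]
  refine (norm_sum_le _ _).trans ((Finset.sum_le_sum hterm).trans ?_)
  rw [Finset.sum_const, nsmul_eq_mul]
  have h3 : (R.support.card : ℝ) ≤ Real.exp (m * D) := by
    have h4 : (R.support.card : ℝ) ≤ ((D : ℝ) + 1) ^ m := by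
      exact_mod_cast card_support_le hR
    refine h4.trans ?_
    have h5 : (D : ℝ) + 1 ≤ Real.exp D := Real.add_one_le_exp _
    refine (pow_le_pow_left₀ (by positivity) h5 m).trans ?_
    rw [← Real.exp_nat_mul]
  calc (R.support.card : ℝ) * (Real.exp h * Real.exp (m * (D * (‖μ‖ ^ 2 + 2 * E))))
      ≤ Real.exp (m * D) * (Real.exp h * Real.exp (m * (D * (‖μ‖ ^ 2 + 2 * E)))) :=
        mul_le_mul_of_nonneg_right h3 (by positivity)
    _ = Real.exp (m * D * (1 + ‖μ‖ ^ 2 + 2 * E) + h) := by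
        rw [← Real.exp_add, ← Real.exp_add]
        congr 1
        ring

theorem GG_diff {m : ℕ} {μ : ℂ} {b : Fin m → ℂ} {q g : ℂ → ℂ} {D : ℕ}
    {R : MvPolynomial (Fin m) ℤ} {s t : ℝ} (hq : Differentiable ℂ q)
    (hg : DifferentiableOn ℂ g (ball 0 t)) (hb : ∀ j, ∀ z ∈ ball (0 : ℂ) s, b j * z ∈ ball (0 : ℂ) t) :
    DifferentiableOn ℂ (GG μ b q g D R) (ball 0 s) := by
  unfold GG
  refine DifferentiableOn.fun_sum fun d _ => DifferentiableOn.const_mul ?_ _
  refine DifferentiableOn.fun_finsetProd fun j _ => ?_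
  have h1 : DifferentiableOn ℂ (fun z => g (b j * z)) (ball 0 s) :=
    hg.comp (by fun_prop) (fun z hz => hb j z hz)
  have h2 : DifferentiableOn ℂ (fun z => q (b j * z)) (ball 0 s) :=
    (hq.comp (by fun_prop : Differentiable ℂ fun z : ℂ => b j * z)).differentiableOn
  exact ((h1.const_mul _).pow _).mul (h2.pow _)

end I_SchwE

open I_SchwE in
theorem SchwE_pf (hQ : S_QT) : S_SchwE := by
  classical
  intro m τ μ b R₀ hτ hμ hb hR₀
  obtain ⟨CQ, hCQ, hQ'⟩ := hQ τ hτ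
  set B : ℝ := 1 + ∑ j, ‖b j‖ with hB
  have hB1 : 1 ≤ B := by
    rw [hB]
    have : 0 ≤ ∑ j, ‖b j‖ := Finset.sum_nonneg fun _ _ => norm_nonneg _
    linarith
  have hbB : ∀ j, ‖b j‖ ≤ B := by
    intro j
    rw [hB]
    have : ‖b j‖ ≤ ∑ j, ‖b j‖ :=
      Finset.single_le_sum (f := fun j => ‖b j‖) (fun _ _ => norm_nonneg _) (Finset.mem_univ j)
    linarith
  refine ⟨1 + m * (1 + ‖μ‖ ^ 2 + 4 * (CQ * (B * R₀) ^ 3)), ?_, ?_⟩
  · have : (0 : ℝ) ≤ m * (1 + ‖μ‖ ^ 2 + 4 * (CQ * (B * R₀) ^ 3)) := by positivity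
    linarith
  intro D K T h R hh hT hdeg hcoef hvan z hz hbz
  obtain ⟨g₀, hg₀, hv⟩ := hvan
  have hT1 : (1 : ℝ) ≤ T := by exact_mod_cast hT
  set ρ : ℝ := R₀ * T with hρ
  have hρ1 : 1 ≤ ρ := by
    rw [hρ]
    nlinarith
  set R' : ℝ := B * ρ with hR'
  have hR'1 : 1 ≤ R' := by
    rw [hR']
    nlinarith
  obtain ⟨q, g, hqd, hgd, hq0, hub, hlow⟩ := hQ' R' hR'1
  set E : ℝ := CQ * R' ^ 3 with hE
  have hE0 : 0 ≤ E := by
    rw [hE]
    positivity
  have hmap : ∀ j, ∀ w ∈ ball (0 : ℂ) (4 * ρ), b j * w ∈ ball (0 : ℂ) (4 * R') := by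
    intro j w hw
    rw [mem_ball_zero_iff] at hw ⊢
    rw [norm_mul, hR']
    have h1 := hbB j
    have h2 := norm_nonneg w
    have h3 := norm_nonneg (b j)
    calc ‖b j‖ * ‖w‖ ≤ B * ‖w‖ := mul_le_mul_of_nonneg_right h1 h2
      _ < B * (4 * ρ) := mul_lt_mul_of_pos_left hw (by linarith)
      _ = 4 * (B * ρ) := by ring
  have hGd : DifferentiableOn ℂ (GG μ b q g D R) (ball 0 (4 * ρ)) := GG_diff hqd hgd hmap
  have hGb : ∀ w ∈ ball (0 : ℂ) (4 * ρ), ‖GG μ b q g D R w‖ ≤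
      Real.exp (m * D * (1 + ‖μ‖ ^ 2 + 2 * E) + h) := by
    intro w hw
    exact GG_bound hdeg hE0 hcoef (fun j => (hub _ (hmap j w hw)).1)
      (fun j => (hub _ (hmap j w hw)).2.1)
  -- vanishing at the origin
  have hq1 : AnalyticAt ℂ (dslope q 0) 0 := by
    have : Differentiable ℂ (dslope q 0) := by
      intro w
      by_cases hw : w = 0
      · subst hw
        have h1 : DifferentiableOn ℂ (dslope q 0) Set.univ :=
          (Complex.differentiableOn_dslope Filter.univ_mem).2 hqd.differentiableOn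
        exact (h1 0 (Set.mem_univ _)).differentiableAt Filter.univ_mem
      · have h1 : DifferentiableOn ℂ (dslope q 0) Set.univ :=
          (Complex.differentiableOn_dslope Filter.univ_mem).2 hqd.differentiableOn
        exact (h1 w (Set.mem_univ _)).differentiableAt Filter.univ_mem
    exact this.analyticAt 0
  have hqs : ∀ u, q u = u * dslope q 0 u := by
    intro u
    have := sub_smul_dslope q 0 u
    rw [hq0, sub_zero, sub_zero, smul_eq_mul] at this
    exact this.symm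
  have hg1 : AnalyticAt ℂ (fun w => (∏ j, dslope q 0 (b j * w) ^ (2 * D)) * g₀ w) 0 := by
    refine AnalyticAt.mul ?_ hg₀
    refine Finset.analyticAt_fun_prod _ fun j _ => AnalyticAt.pow ?_ _
    have h1 : AnalyticAt ℂ (dslope q 0) (b j * 0) := by rwa [mul_zero]
    exact h1.comp_of_eq (f := fun w : ℂ => b j * w) (by fun_prop) rfl
  have hev : ∀ᶠ w in 𝓝[≠] (0 : ℂ), GG μ b q g D R w =
      w ^ (K + 1) * ((∏ j, dslope q 0 (b j * w) ^ (2 * D)) * g₀ w) := by
    have hsmall : ∀ᶠ w in 𝓝[≠] (0 : ℂ), ∀ j, b j * w ∉ Lam τ := by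
      rw [Filter.eventually_all]
      intro j
      have hl : ∀ᶠ u in 𝓝[≠] (0 : ℂ), u ∉ Lam τ := eventually_notMem hτ
      have ht : Tendsto (fun w : ℂ => b j * w) (𝓝[≠] 0) (𝓝[≠] 0) := by
        refine tendsto_nhdsWithin_iff.2 ⟨?_, ?_⟩
        · have : Tendsto (fun w : ℂ => b j * w) (𝓝 0) (𝓝 (b j * 0)) :=
            (continuous_const.mul continuous_id).tendsto 0
          rw [mul_zero] at this
          exact this.mono_left nhdsWithin_le_nhds
        · filter_upwards [self_mem_nhdsWithin] with w hw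
          exact mul_ne_zero (hb j) hw
      exact ht.eventually hl
    have hball : ∀ᶠ w in 𝓝[≠] (0 : ℂ), w ∈ ball (0 : ℂ) (4 * ρ) :=
      nhdsWithin_le_nhds (ball_mem_nhds _ (by linarith))
    filter_upwards [hv, hsmall, hball] with w h1 h2 h3
    rw [GG_eq hdeg (fun j => (hub _ (hmap j w h3)).2.2 (h2 j))]
    have h4 : ∏ j, q (b j * w) ^ (2 * D) =
        (∏ j, dslope q 0 (b j * w) ^ (2 * D)) * ∏ j, (b j * w) ^ (2 * D) := by
      rw [← Finset.prod_mul_distrib]
      refine Finset.prod_congr rfl fun j _ => ?_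
      rw [hqs (b j * w), mul_pow]
      ring
    rw [h4, mul_assoc, h1]
    ring
  have hS := schwarz (by linarith : 0 < ρ) hGd hGb hg1 hev z hz
  have hzb : z ∈ ball (0 : ℂ) (4 * ρ) := by
    rw [mem_ball_zero_iff]
    linarith
  rw [GG_eq hdeg (fun j => (hub _ (hmap j z hzb)).2.2 (hbz j)), norm_mul, norm_prod] at hS
  -- the lower bound of the clearing factor
  have hd : ∏ j, d1 τ (b j * z) ^ (2 * D) ≤
      Real.exp (m * (2 * D * E)) * ∏ j, ‖q (b j * z) ^ (2 * D)‖ := by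
    have h1 : ∀ j ∈ (Finset.univ : Finset (Fin m)), d1 τ (b j * z) ^ (2 * D) ≤
        Real.exp (2 * D * E) * ‖q (b j * z) ^ (2 * D)‖ := by
      intro j _
      have hn : ‖b j * z‖ ≤ R' := by
        rw [norm_mul, hR']
        exact mul_le_mul (hbB j) hz (norm_nonneg _) (by linarith)
      have h2 := hlow _ hn
      have hd0 : 0 ≤ d1 τ (b j * z) := le_min zero_le_one Metric.infDist_nonneg
      have h3 : d1 τ (b j * z) ≤ Real.exp E * ‖q (b j * z)‖ := by
        have h4 : Real.exp E * (Real.exp (-E) * d1 τ (b j * z)) ≤ Real.exp E * ‖q (b j * z)‖ :=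
          mul_le_mul_of_nonneg_left h2 (Real.exp_pos _).le
        rwa [← mul_assoc, ← Real.exp_add, add_neg_cancel, Real.exp_zero, one_mul] at h4
      refine (pow_le_pow_left₀ hd0 h3 _).trans ?_
      rw [mul_pow, norm_pow, ← Real.exp_nat_mul]
      push_cast
      exact le_rfl
    refine (Finset.prod_le_prod (fun j _ => pow_nonneg (le_min zero_le_one Metric.infDist_nonneg) _)
      h1).trans ?_
    rw [Finset.prod_mul_distrib, Finset.prod_const, Finset.card_univ, Fintype.card_fin,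
      ← Real.exp_nat_mul]
  calc ‖aeval (fun j => xe τ μ (b j * z)) R‖ * ∏ j, d1 τ (b j * z) ^ (2 * D)
      ≤ ‖aeval (fun j => xe τ μ (b j * z)) R‖ *
          (Real.exp (m * (2 * D * E)) * ∏ j, ‖q (b j * z) ^ (2 * D)‖) :=
        mul_le_mul_of_nonneg_left hd (norm_nonneg _)
    _ = Real.exp (m * (2 * D * E)) *
          ((∏ j, ‖q (b j * z) ^ (2 * D)‖) * ‖aeval (fun j => xe τ μ (b j * z)) R‖) := by ring
    _ ≤ Real.exp (m * (2 * D * E)) *
          (Real.exp (-K) * Real.exp (m * D * (1 + ‖μ‖ ^ 2 + 2 * E) + h)) :=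
        mul_le_mul_of_nonneg_left hS (Real.exp_pos _).le
    _ = Real.exp (m * D * (1 + ‖μ‖ ^ 2 + 4 * E) + h - K) := by
        rw [← Real.exp_add, ← Real.exp_add]
        congr 1
        ring
    _ ≤ _ := by
        refine Real.exp_le_exp.2 ?_
        have hE' : E = CQ * (B * R₀) ^ 3 * (T : ℝ) ^ 3 := by
          rw [hE, hR', hρ]
          ring
        rw [hE']
        have hT3 : (1 : ℝ) ≤ (T : ℝ) ^ 3 := one_le_pow₀ hT1
        set P : ℝ := CQ * (B * R₀) ^ 3 with hP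
        have hP0 : 0 ≤ P := by
          rw [hP]
          positivity
        have hD0 : (0 : ℝ) ≤ D := Nat.cast_nonneg _
        have hm0 : (0 : ℝ) ≤ m := Nat.cast_nonneg _
        have key : (m : ℝ) * D * (1 + ‖μ‖ ^ 2 + 4 * (P * (T : ℝ) ^ 3)) ≤
            m * (1 + ‖μ‖ ^ 2 + 4 * P) * ((D + 1) * (T : ℝ) ^ 3) := by
          have h1 : 1 + ‖μ‖ ^ 2 + 4 * (P * (T : ℝ) ^ 3) ≤ (1 + ‖μ‖ ^ 2 + 4 * P) * (T : ℝ) ^ 3 := by
            nlinarith [sq_nonneg ‖μ‖]
          calc (m : ℝ) * D * (1 + ‖μ‖ ^ 2 + 4 * (P * (T : ℝ) ^ 3))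
              ≤ m * D * ((1 + ‖μ‖ ^ 2 + 4 * P) * (T : ℝ) ^ 3) :=
                mul_le_mul_of_nonneg_left h1 (by positivity)
            _ ≤ m * (D + 1) * ((1 + ‖μ‖ ^ 2 + 4 * P) * (T : ℝ) ^ 3) :=
                mul_le_mul_of_nonneg_right (by nlinarith) (by positivity)
            _ = _ := by ring
        have k2 : 0 ≤ (m : ℝ) * (1 + ‖μ‖ ^ 2 + 4 * P) := by positivity
        have k3 : 0 ≤ ((D : ℝ) + 1) * (T : ℝ) ^ 3 := by positivity
        nlinarith [mul_nonneg k2 (by linarith : (0 : ℝ) ≤ h)]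

end Pool.Agent.Work.MP_8da9ea_nt.EB
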