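import Pool.Agent.Work.MP_8da9ea_nt.EB.StmtsT
import Pool.Agent.Work.MP_8da9ea_nt.EB.I_Lin

/-!
# Elliptic block, item C5 (`Split`): splitting along a branch
-/

set_option autoImplicit false

namespace Pool.Agent.Work.MP_8da9ea_nt.EB

open MvPolynomial Metric Filter Topology Pool.Agent.Work.MP_327059_nt.GL
  Pool.Agent.Work.MP_8da9ea_nt.S

namespace I_Split

/-- Finitely many analytic functions avoid closed countable sets on a common smaller ball. -/
theorem shrink {m : ℕ} {κ : Type} (K : Finset κ) (v₀ : Fin m → ℂ) (r : ℝ) (hr : 0 < r)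
    (g : κ → (Fin m → ℂ) → ℂ) (Z : κ → Set ℂ)
    (hZ : ∀ k ∈ K, IsClosed (Z k) ∧ (Z k).Countable)
    (hg : ∀ k ∈ K, AnalyticOnNhd ℂ (g k) (ball v₀ r))
    (hne : ∀ k ∈ K, ∃ v ∈ ball v₀ r, g k v ∉ Z k) :
    ∃ (v₁ : Fin m → ℂ) (r₁ : ℝ), 0 < r₁ ∧ ball v₁ r₁ ⊆ ball v₀ r ∧
      ∀ k ∈ K, ∀ v ∈ ball v₁ r₁, g k v ∉ Z k := by
  classical
  induction K using Finset.induction_on with
  | empty => exact ⟨v₀, r, hr, subset_rfl, fun k hk => absurd hk (Finset.notMem_empty k)⟩
  | insert a K ha ih =>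
    obtain ⟨v₁, r₁, hr₁, hsub, hK⟩ := ih (fun k hk => hZ k (Finset.mem_insert_of_mem hk))
      (fun k hk => hg k (Finset.mem_insert_of_mem hk))
      (fun k hk => hne k (Finset.mem_insert_of_mem hk))
    have haK := Finset.mem_insert_self a K
    obtain ⟨v₂, hv₂, hv₂Z⟩ : ∃ v₂ ∈ ball v₁ r₁, g a v₂ ∉ Z a := by
      by_contra hcon
      push Not at hcon
      obtain ⟨w, hw, hwZ⟩ := hne a haK
      have h1 : ∀ v ∈ ball v₁ r₁, g a v = g a v₁ := fun v hv =>
        I_Lin.const_of_countable (convex_ball v₁ r₁) ((hg a haK).continuousOn.mono hsub)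
          (hZ a haK).2 hcon hv (mem_ball_self hr₁)
      have h2 : Set.EqOn (g a) (fun _ => g a v₁) (ball v₀ r) :=
        (hg a haK).eqOn_of_preconnected_of_eventuallyEq analyticOnNhd_const
          (convex_ball v₀ r).isPreconnected (hsub (mem_ball_self hr₁))
          (by filter_upwards [ball_mem_nhds v₁ hr₁] with v hv using h1 v hv)
      apply hwZ
      rw [h2 hw]
      exact hcon v₁ (mem_ball_self hr₁)
    have hcont : ContinuousAt (g a) v₂ := ((hg a haK) v₂ (hsub hv₂)).continuousAt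
    have hn : ball v₁ r₁ ∩ (g a) ⁻¹' (Z a)ᶜ ∈ 𝓝 v₂ :=
      Filter.inter_mem (isOpen_ball.mem_nhds hv₂)
        (hcont.preimage_mem_nhds ((hZ a haK).1.isOpen_compl.mem_nhds hv₂Z))
    obtain ⟨r₂, hr₂, hball⟩ := Metric.mem_nhds_iff.1 hn
    refine ⟨v₂, r₂, hr₂, fun v hv => hsub (hball hv).1, fun k hk v hv => ?_⟩
    rcases Finset.mem_insert.1 hk with rfl | hk
    · exact (hball hv).2
    · exact hK k hk v (hball hv).1

theorem sg_mul_self (e : Bool) : sg e * sg e = 1 := by
  cases e <;> simp [sg]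

theorem sg_norm (e : Bool) : ‖sg e‖ = 1 := by
  cases e <;> simp [sg]

theorem sg_mul_mem {τ z : ℂ} (e : Bool) : sg e * z ∈ Lam τ ↔ z ∈ Lam τ := by
  cases e
  · simp [sg, neg_mem_Lam]
  · simp [sg]

theorem wp_sg (τ z : ℂ) (e : Bool) : wp 1 τ (sg e * z) = wp 1 τ z := by
  cases e
  · simp [sg, wp_neg]
  · simp [sg]

theorem sub_mem {τ a b : ℂ} (ha : a ∈ Lam τ) (hb : b ∈ Lam τ) : a - b ∈ Lam τ := by
  rw [mem_Lam] at *
  obtain ⟨m, n, h⟩ := ha
  obtain ⟨m', n', h'⟩ := hb
  exact ⟨m - m', n - n', by push_cast; linear_combination h - h'⟩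

/-- The function attached to signs. -/
noncomputable def Phi (τ : ℂ) {m : ℕ} (F : MvPolynomial (Fin (m + 1)) ℂ) (L : (Fin m → ℂ) → ℂ)
    (δ : ℂ) (h : Fin m → ℂ) (q : (Fin m → Bool) × Bool) (v : Fin m → ℂ) : ℂ :=
  eval (pw τ (fun i => v i + sg (q.1 i) * h i) (L v + sg q.2 * δ)) F

theorem Phi_analytic {τ : ℂ} (hτ : 0 < τ.im) {m : ℕ} (F : MvPolynomial (Fin (m + 1)) ℂ)
    (L : (Fin m → ℂ) → ℂ) (δ : ℂ) (h : Fin m → ℂ) (q : (Fin m → Bool) × Bool) (v₁ : Fin m → ℂ)
    (r₁ : ℝ) (hL : AnalyticOnNhd ℂ L (ball v₁ r₁))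
    (h1 : ∀ v ∈ ball v₁ r₁, ∀ i, v i + sg (q.1 i) * h i ∉ Lam τ)
    (h2 : ∀ v ∈ ball v₁ r₁, L v + sg q.2 * δ ∉ Lam τ) :
    AnalyticOnNhd ℂ (Phi τ F L δ h q) (ball v₁ r₁) := by
  intro v hv
  have hcoord : ∀ j : Fin (m + 1), AnalyticAt ℂ
      (fun v : Fin m → ℂ => pw τ (fun i => v i + sg (q.1 i) * h i) (L v + sg q.2 * δ) j) v := by
    intro j
    refine Fin.cases ?_ (fun i => ?_) j
    · have a1 : AnalyticAt ℂ (fun v : Fin m → ℂ => L v + sg q.2 * δ) v :=
        (hL v hv).add analyticAt_const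
      have a2 : AnalyticAt ℂ (fun z => wp 1 τ z) (L v + sg q.2 * δ) :=
        analyticOn_wp hτ _ (h2 v hv)
      exact AnalyticAt.fun_comp (g := fun z => wp 1 τ z)
          (f := fun v : Fin m → ℂ => L v + sg q.2 * δ) a2 a1
    · have a1 : AnalyticAt ℂ (fun v : Fin m → ℂ => v i + sg (q.1 i) * h i) v :=
        ((ContinuousLinearMap.proj (R := ℂ) (φ := fun _ : Fin m => ℂ) i).analyticAt v).add
          analyticAt_const
      have a2 : AnalyticAt ℂ (fun z => wp 1 τ z) (v i + sg (q.1 i) * h i) :=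
        analyticOn_wp hτ _ (h1 v hv i)
      exact AnalyticAt.fun_comp (g := fun z => wp 1 τ z)
          (f := fun v : Fin m → ℂ => v i + sg (q.1 i) * h i) a2 a1
  have h3 := AnalyticAt.aeval_mvPolynomial (𝕜 := ℂ) hcoord F
  have h4 : (fun v : Fin m → ℂ => aeval
      (pw τ (fun i => v i + sg (q.1 i) * h i) (L v + sg q.2 * δ)) F) = Phi τ F L δ h q := by
    funext v
    rw [Phi, MvPolynomial.aeval_eq_eval]
  rw [← h4]
  exact h3

/-- The sign vector of one increment. -/
theorem one {τ : ℂ} (hτ : 0 < τ.im) {m : ℕ} (f F : MvPolynomial (Fin (m + 1)) ℂ)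
    (L : (Fin m → ℂ) → ℂ) (δ : ℂ) (h : Fin m → ℂ) (v₁ : Fin m → ℂ) (r₁ : ℝ) (hr₁ : 0 < r₁)
    (hL : AnalyticOnNhd ℂ L (ball v₁ r₁))
    (hb : ∀ v ∈ ball v₁ r₁, (∀ i, v i ∉ Lam τ) ∧ L v ∉ Lam τ ∧ eval (pw τ v (L v)) f = 0)
    (h1 : ∀ (e : Bool), ∀ v ∈ ball v₁ r₁, ∀ i, v i + sg e * h i ∉ Lam τ)
    (h2 : ∀ (e : Bool), ∀ v ∈ ball v₁ r₁, L v + sg e * δ ∉ Lam τ) (hT : Tr2 τ F f δ h) :
    ∃ q : (Fin m → Bool) × Bool, ∀ v ∈ ball v₁ r₁, Phi τ F L δ h q v = 0 := by
  by_contra hcon
  push Not at hcon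
  obtain ⟨v₂, r₂, hr₂, hsub, hK⟩ := shrink (κ := (Fin m → Bool) × Bool) Finset.univ v₁ r₁ hr₁
    (Phi τ F L δ h) (fun _ => {0}) (fun _ _ => ⟨isClosed_singleton, Set.countable_singleton 0⟩)
    (fun q _ => Phi_analytic hτ F L δ h q v₁ r₁ hL (fun v hv i => h1 (q.1 i) v hv i)
      (fun v hv => h2 q.2 v hv))
    (fun q _ => by
      obtain ⟨v, hv, hv0⟩ := hcon q
      exact ⟨v, hv, by simpa using hv0⟩)
  have hv₂ : v₂ ∈ ball v₁ r₁ := hsub (mem_ball_self hr₂)
  have hbv := hb v₂ hv₂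
  obtain ⟨e, e0, he⟩ := hT v₂ (L v₂) hbv.1 hbv.2.1
    (fun i => by simpa [sg] using h1 true v₂ hv₂ i)
    (fun i => by
      have := h1 false v₂ hv₂ i
      rwa [show v₂ i + sg false * h i = v₂ i - h i by simp [sg, sub_eq_add_neg]] at this)
    (by simpa [sg] using h2 true v₂ hv₂)
    (by
      have := h2 false v₂ hv₂
      rwa [show L v₂ + sg false * δ = L v₂ - δ by simp [sg, sub_eq_add_neg]] at this) hbv.2.2
  exact hK (e, e0) (Finset.mem_univ _) v₂ (mem_ball_self hr₂) (by
    rw [Set.mem_singleton_iff]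
    exact he)

/-- there is a point off the lattice in every ball, in every coordinate -/
theorem exists_off {m : ℕ} (τ : ℂ) (v₀ : Fin m → ℂ) (r : ℝ) (hr : 0 < r) (i : Fin m) (c : ℂ) :
    ∃ v ∈ ball v₀ r, v i + c ∉ Lam τ := by
  classical
  by_contra hcon
  push Not at hcon
  have h1 : ∀ z ∈ ball (v₀ i) r, z + c ∈ Lam τ := by
    intro z hz
    have h2 := hcon (Function.update v₀ i z) (by
      rw [mem_ball, dist_pi_lt_iff hr]
      intro j
      by_cases hj : j = i
      · subst hj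
        simpa using hz
      · rw [Function.update_of_ne hj, dist_self]
        exact hr)
    simpa using h2
  have h3 : ∀ z ∈ ball (v₀ i) r, z = v₀ i := by
    intro z hz
    have := I_Lin.const_of_countable (convex_ball (v₀ i) r) (f := fun z => z + c)
      (by fun_prop) (Lam_countable τ) h1 hz (mem_ball_self hr)
    exact add_right_cancel this
  have h4 := h3 (v₀ i + (r / 2 : ℝ)) (by
    rw [mem_ball, dist_eq_norm, add_sub_cancel_left, Complex.norm_real, Real.norm_eq_abs,
      abs_of_pos (by positivity)]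
    linarith)
  have h5 : ((r / 2 : ℝ) : ℂ) = 0 := by simpa using h4
  have h6 : (r / 2 : ℝ) = 0 := by exact_mod_cast h5
  linarith

/-- Reflection. -/
noncomputable def rf {m : ℕ} (e : Fin m → Bool) : (Fin m → ℂ) →L[ℂ] (Fin m → ℂ) :=
  ContinuousLinearMap.pi fun i => sg (e i) • ContinuousLinearMap.proj (R := ℂ)
    (φ := fun _ : Fin m => ℂ) i

theorem rf_apply {m : ℕ} (e : Fin m → Bool) (v : Fin m → ℂ) (i : Fin m) :
    rf e v i = sg (e i) * v i := rfl

theorem rf_rf {m : ℕ} (e : Fin m → Bool) (v : Fin m → ℂ) : rf e (rf e v) = v := by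
  funext i
  rw [rf_apply, rf_apply, ← mul_assoc, sg_mul_self, one_mul]

theorem rf_dist {m : ℕ} (e : Fin m → Bool) (v w : Fin m → ℂ) : dist (rf e v) (rf e w) ≤
    dist v w := by
  rw [dist_pi_le_iff dist_nonneg]
  intro i
  rw [rf_apply, rf_apply, dist_eq_norm, ← mul_sub, norm_mul, sg_norm, one_mul, ← dist_eq_norm]
  exact dist_le_pi_dist v w i

end I_Split

open I_Split

/-- **Item C5 (`Split`).** -/
theorem Split_pf : S_Split := by
  classical
  intro τ hτ m f F v₀ r L hr hL hb ι D δ h hT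
  obtain ⟨Bp, hBp⟩ : ∃ B : Bool → Finset ι, B = fun e =>
    D.filter fun d => ∀ v ∈ ball v₀ r, L v + sg e * δ d ∈ Lam τ := ⟨_, rfl⟩
  by_cases hbig : ∃ e, D.card ≤ 4 * (Bp e).card
  · left
    obtain ⟨e, he⟩ := hbig
    refine ⟨Bp e, by rw [hBp]; exact Finset.filter_subset _ _, he, ?_⟩
    intro d hd d' hd'
    rw [hBp] at hd hd'
    have h1 := (Finset.mem_filter.1 hd).2 v₀ (mem_ball_self hr)
    have h2 := (Finset.mem_filter.1 hd').2 v₀ (mem_ball_self hr)
    have h3 := sub_mem h1 h2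
    rw [show L v₀ + sg e * δ d - (L v₀ + sg e * δ d') = sg e * (δ d - δ d') by ring] at h3
    exact (sg_mul_mem e).1 h3
  · right
    push Not at hbig
    obtain ⟨E, hE⟩ : ∃ E : Finset ι, E = D \ (Bp true ∪ Bp false) := ⟨_, rfl⟩
    have hEcard : D.card ≤ 2 * E.card := by
      have h1 := hbig true
      have h2 := hbig false
      have h3 : D.card ≤ E.card + (Bp true ∪ Bp false).card := by
        rw [hE]
        exact Finset.card_le_card_sdiff_add_card
      have h4 := Finset.card_union_le (Bp true) (Bp false)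
      omega
    have hED : E ⊆ D := by rw [hE]; exact Finset.sdiff_subset
    have hEne : ∀ d ∈ E, ∀ e, ∃ v ∈ ball v₀ r, L v + sg e * δ d ∉ Lam τ := by
      intro d hd e
      by_contra hcon
      push Not at hcon
      rw [hE, Finset.mem_sdiff, Finset.mem_union] at hd
      apply hd.2
      have : d ∈ Bp e := by
        rw [hBp]
        exact Finset.mem_filter.2 ⟨hd.1, hcon⟩
      cases e
      · exact Or.inr this
      · exact Or.inl this
    -- shrink the ball
    obtain ⟨v₁, r₁, hr₁, hsub, hK⟩ := shrink (κ := ι × Option (Fin m) × Bool)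
      (E ×ˢ Finset.univ) v₀ r hr
      (fun k v => match k.2.1 with
        | none => L v + sg k.2.2 * δ k.1
        | some i => v i + sg k.2.2 * h k.1 i) (fun _ => Lam τ)
      (fun _ _ => ⟨Lam_closed hτ, Lam_countable τ⟩)
      (fun k _ => by
        obtain ⟨d, o, e⟩ := k
        cases o with
        | none => exact fun v hv => (hL v hv).add analyticAt_const
        | some i =>
          exact fun v hv => ((ContinuousLinearMap.proj (R := ℂ)
            (φ := fun _ : Fin m => ℂ) i).analyticAt v).add analyticAt_const)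
      (fun k hk => by
        obtain ⟨d, o, e⟩ := k
        have hd : d ∈ E := (Finset.mem_product.1 hk).1
        cases o with
        | none => exact hEne d hd e
        | some i => exact exists_off τ v₀ r hr i _)
    have hK1 : ∀ d ∈ E, ∀ (e : Bool), ∀ v ∈ ball v₁ r₁, ∀ i, v i + sg e * h d i ∉ Lam τ :=
      fun d hd e v hv i => hK (d, some i, e)
        (Finset.mem_product.2 ⟨hd, Finset.mem_univ _⟩) v hv
    have hK2 : ∀ d ∈ E, ∀ (e : Bool), ∀ v ∈ ball v₁ r₁, L v + sg e * δ d ∉ Lam τ :=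
      fun d hd e v hv => hK (d, none, e)
        (Finset.mem_product.2 ⟨hd, Finset.mem_univ _⟩) v hv
    have hL₁ : AnalyticOnNhd ℂ L (ball v₁ r₁) := hL.mono hsub
    have hone : ∀ d : ι, ∃ q : (Fin m → Bool) × Bool, d ∈ E →
        ∀ v ∈ ball v₁ r₁, Phi τ F L (δ d) (h d) q v = 0 := by
      intro d
      by_cases hd : d ∈ E
      · obtain ⟨q, hq⟩ := one hτ f F L (δ d) (h d) v₁ r₁ hr₁ hL₁ (fun v hv => hb v (hsub hv))
          (hK1 d hd) (hK2 d hd) (hT d (hED hd))
        exact ⟨q, fun _ => hq⟩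
      · exact ⟨(fun _ => true, true), fun h => absurd h hd⟩
    choose q hq using hone
    -- pigeonhole
    obtain ⟨e, he⟩ : ∃ e : (Fin m → Bool) × Bool,
        E.card ≤ 2 ^ (m + 1) * (E.filter fun d => q d = e).card := by
      have hcard : (Finset.univ : Finset ((Fin m → Bool) × Bool)).card = 2 ^ (m + 1) := by
        rw [Finset.card_univ, Fintype.card_prod, Fintype.card_fun, Fintype.card_bool,
          Fintype.card_fin, pow_succ]
      by_contra hcon
      push Not at hcon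
      have h1 : E.card = ∑ e ∈ (Finset.univ : Finset ((Fin m → Bool) × Bool)),
          (E.filter fun d => q d = e).card :=
        Finset.card_eq_sum_card_fiberwise fun d _ => Finset.mem_coe.2 (Finset.mem_univ _)
      have h2 : ∑ e ∈ (Finset.univ : Finset ((Fin m → Bool) × Bool)),
          2 ^ (m + 1) * (E.filter fun d => q d = e).card <
            ∑ _e ∈ (Finset.univ : Finset ((Fin m → Bool) × Bool)), E.card :=
        Finset.sum_lt_sum_of_nonempty ⟨(fun _ => true, true), Finset.mem_univ _⟩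
          fun e _ => hcon e
      rw [Finset.sum_const, ← Finset.mul_sum, ← h1, hcard, smul_eq_mul] at h2
      exact lt_irrefl _ h2
    refine ⟨E.filter fun d => q d = e, (Finset.filter_subset _ _).trans hED, ?_,
      rf e.1 v₁, r₁, fun v => sg e.2 * L (rf e.1 v), hr₁, ?_, ?_⟩
    · calc D.card ≤ 2 * E.card := hEcard
        _ ≤ 2 * (2 ^ (m + 1) * (E.filter fun d => q d = e).card) :=
          Nat.mul_le_mul_left 2 he
        _ = 2 ^ (m + 2) * (E.filter fun d => q d = e).card := by ring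
    · intro v hv
      have hv' : rf e.1 v ∈ ball v₁ r₁ := by
        rw [mem_ball] at hv ⊢
        have := rf_dist e.1 v (rf e.1 v₁)
        rw [rf_rf] at this
        exact lt_of_le_of_lt this hv
      refine analyticAt_const.mul ?_
      exact AnalyticAt.fun_comp (g := L) (f := fun v => rf e.1 v) (hL₁ _ hv')
        ((rf e.1).analyticAt v)
    · intro v hv d hd
      obtain ⟨hdE, hde⟩ := Finset.mem_filter.1 hd
      have hv' : rf e.1 v ∈ ball v₁ r₁ := by
        rw [mem_ball] at hv ⊢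
        have := rf_dist e.1 v (rf e.1 v₁)
        rw [rf_rf] at this
        exact lt_of_le_of_lt this hv
      have k1 : ∀ i, rf e.1 v i + sg (e.1 i) * h d i = sg (e.1 i) * (v i + h d i) := by
        intro i
        rw [rf_apply]
        ring
      have k2 : L (rf e.1 v) + sg e.2 * δ d = sg e.2 * (sg e.2 * L (rf e.1 v) + δ d) := by
        rw [mul_add, ← mul_assoc, sg_mul_self, one_mul]
      refine ⟨fun i => ?_, ?_, ?_⟩
      · have := hK1 d hdE (e.1 i) (rf e.1 v) hv' i
        rw [k1 i, sg_mul_mem] at this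
        exact this
      · have := hK2 d hdE e.2 (rf e.1 v) hv'
        rw [k2, sg_mul_mem] at this
        exact this
      · have h0 := hq d hdE (rf e.1 v) hv'
        rw [hde, Phi, k2] at h0
        have h1 : pw τ (fun i => rf e.1 v i + sg (e.1 i) * h d i)
            (sg e.2 * (sg e.2 * L (rf e.1 v) + δ d)) =
            pw τ (fun i => v i + h d i) (sg e.2 * L (rf e.1 v) + δ d) := by
          unfold pw
          congr 1
          · exact wp_sg τ _ e.2
          · funext i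
            show wp 1 τ (rf e.1 v i + sg (e.1 i) * h d i) = wp 1 τ (v i + h d i)
            rw [k1 i]
            exact wp_sg τ _ (e.1 i)
        rw [h1] at h0
        exact h0

end Pool.Agent.Work.MP_8da9ea_nt.EB
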