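import Pool.Agent.Work.MP_8da9ea_nt.EB.StmtsG
import Pool.Agent.Work.MP_8da9ea_nt.Bd.B05

/-!
# Elliptic block, item TorRank
-/

set_option autoImplicit false

namespace Pool.Agent.Work.MP_8da9ea_nt.EB

open MvPolynomial Pool.Agent.Work.MP_327059_nt.GL Pool.Agent.Work.MP_8da9ea_nt.S

theorem TorRank_pf : S_TorRank := by
  classical
  intro m κ b z hS hκ
  by_cases hm : m ≤ κ + 1
  · omega
  obtain ⟨δ, hδ, hδi⟩ := TG.rank_lemma b z hS κ hκ 1 (fun _ => z) (m - κ - 1) (by omega)
  have h1 : LinearIndependent ℂ (fun s => lgV (fun j => b j * z) (δ s)) := by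
    rw [Fintype.linearIndependent_iff] at hδi ⊢
    intro q hq
    apply hδi q
    funext o
    cases o with
    | none =>
      have h0 : ∀ s, TG.lam b z (δ s) none = 0 := fun s => (hδ s).1 0
      simp only [Finset.sum_apply, Pi.smul_apply, h0, smul_zero, Finset.sum_const_zero,
        Pi.zero_apply]
    | some j =>
      have := congrFun hq j
      rw [Finset.sum_apply] at this ⊢
      exact this
  have h2 : LinearIndependent ℂ (fun s => (⟨lgV (fun j => b j * z) (δ s),
      Submodule.mem_map_of_mem (show δ s ∈ TT b from (hδ s).2)⟩ :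
      (TT b).map (lgV (fun j => b j * z)))) := by
    apply LinearIndependent.of_comp (Submodule.subtype _)
    exact h1
  have h3 := h2.fintype_card_le_finrank
  rw [Fintype.card_fin] at h3
  omega

end Pool.Agent.Work.MP_8da9ea_nt.EB
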