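import Pool.Agent.Work.MP_8da9ea_nt.EB.StmtsT
import Pool.Agent.Work.MP_327059_nt.Bd.B09

/-!
# Elliptic block, item TrExt
-/

set_option autoImplicit false

namespace Pool.Agent.Work.MP_8da9ea_nt.EB

open MvPolynomial Pool.Agent.Work.MP_327059_nt.GL Pool.Agent.Work.MP_8da9ea_nt.S

theorem TrExt_pf : S_TrExt := by
  classical
  intro τ μ n m k b x hn hNT hT s hs
  obtain ⟨r, sb, hind, halg⟩ := pr_TrBasis (Fin n × Fin m) (tx τ μ b x)
  have hr : r ≤ k := by
    by_contra h
    push Not at h
    exact hT (fun i => sb (Fin.castLE h i)) (hind.comp (Fin.castLE h) (Fin.castLE_injective h))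
  have key : ∀ q : VI n m, AlgOver (fun i => tx τ μ b x (sb i))
      (ptE τ μ (fun i j => b j * x i) q) := by
    intro q
    set K := IntermediateField.adjoin ℚ (Set.range fun i => tx τ μ b x (sb i)) with hK
    have e2 : IsAlgebraic K (μ ^ 4 * gg2 τ) := hn.g2.extendScalars (algebraMap ℚ K).injective
    have e3 : IsAlgebraic K (μ ^ 6 * gg3 τ) := hn.g3.extendScalars (algebraMap ℚ K).injective
    rcases q with q | ⟨i, j, e⟩
    · show IsAlgebraic K (if q = 0 then μ ^ 4 * gg2 τ else μ ^ 6 * gg3 τ)
      split_ifs
      · exact e2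
      · exact e3
    · have hX : IsAlgebraic K (xe τ μ (b j * x i)) := halg (i, j)
      show IsAlgebraic K (if e then ye τ μ (b j * x i) else xe τ μ (b j * x i))
      split_ifs
      · have hl : b j * x i ∉ Lam τ := by
          have h1 := hNT (Pi.single i 1) (by
            intro h
            have := congrFun h i
            simp at this) j
          have h2 : cmb (Pi.single i 1) x = x i := by
            unfold cmb
            rw [Finset.sum_eq_single i]
            · simp
            · intro l _ hl
              simp [Pi.single_eq_of_ne hl]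
            · intro h
              exact absurd (Finset.mem_univ i) h
          rwa [h2] at h1
        have hc : ye τ μ (b j * x i) ^ 2 = 4 * xe τ μ (b j * x i) ^ 3 -
            (μ ^ 4 * gg2 τ) * xe τ μ (b j * x i) - μ ^ 6 * gg3 τ := by
          have := wpd_sq hn.im hl
          unfold xe ye
          linear_combination μ ^ 6 * this
        have h4 : IsAlgebraic K (4 : ℂ) := by
          have : IsAlgebraic K ((4 : ℕ) : ℂ) := isAlgebraic_nat 4
          exact_mod_cast this
        have h5 : IsAlgebraic K (ye τ μ (b j * x i) ^ 2) := by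
          rw [hc]
          exact ((h4.mul (hX.pow 3)).sub (e2.mul hX)).sub e3
        exact IsAlgebraic.of_pow (by norm_num) h5
      · exact hX
  have h3 := pr_TrCount (Fin (k + 1)) (Fin r) (fun i => ptE τ μ (fun i j => b j * x i) (s i))
    (fun i => tx τ μ b x (sb i)) hs (fun i => key (s i))
  rw [Fintype.card_fin, Fintype.card_fin] at h3
  omega

end Pool.Agent.Work.MP_8da9ea_nt.EB
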