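import Pool.Agent.Work.MP_8da9ea_nt.EB.StmtsT

/-!
# Elliptic block, item TrueVal: all triples are valid at the true point
-/

set_option autoImplicit false

namespace Pool.Agent.Work.MP_8da9ea_nt.EB

open MvPolynomial

namespace I_TrueVal

theorem cmb_single {n : ℕ} (i : Fin n) (x : Fin n → ℂ) : cmb (Pi.single i 1) x = x i := by
  unfold cmb
  rw [Finset.sum_eq_single i]
  · simp
  · intro k _ hk
    simp [Pi.single_eq_of_ne hk]
  · intro h
    exact absurd (Finset.mem_univ i) h

theorem cmb_neg {n : ℕ} (s : Fin n → ℤ) (x : Fin n → ℂ) : cmb (-s) x = -cmb s x := by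
  unfold cmb
  rw [← Finset.sum_neg_distrib]
  refine Finset.sum_congr rfl fun k _ => ?_
  simp

theorem cmb_add {n : ℕ} (s t : Fin n → ℤ) (x : Fin n → ℂ) :
    cmb (s + t) x = cmb s x + cmb t x := by
  unfold cmb
  rw [← Finset.sum_add_distrib]
  refine Finset.sum_congr rfl fun k _ => ?_
  simp only [Pi.add_apply, Int.cast_add]
  ring

theorem cmb_sub {n : ℕ} (s t : Fin n → ℤ) (x : Fin n → ℂ) :
    cmb (s - t) x = cmb s x - cmb t x := by
  rw [sub_eq_add_neg, cmb_add, cmb_neg, sub_eq_add_neg]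

end I_TrueVal

open I_TrueVal in
/-- All triples are valid at the true point. -/
theorem TrueVal_pf (hA : S_AddVal) : S_TrueVal := by
  intro τ μ hτ hμ n m b x hNT j s V hV
  induction hV with
  | base i =>
    have hs : (Pi.single i 1 : Fin n → ℤ) ≠ 0 := by
      intro h
      have := congrFun h i
      simp at this
    refine ⟨hNT _ hs j, ?_, ?_, ?_⟩
    · simp [baseT]
    · simp [baseT, cmb_single, ptE]
    · simp [baseT, cmb_single, ptE]
  | neg s V _ ih =>
    have h := (hA τ μ hτ hμ n m _ _ _ V V ih ih).1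
    rw [cmb_neg, mul_neg]
    exact h
  | add s t V W _ _ hst hst' ih1 ih2 =>
    have h := (hA τ μ hτ hμ n m _ _ _ V W ih1 ih2).2
    rw [← mul_add, ← mul_sub, ← cmb_add, ← cmb_sub] at h
    exact h (hNT _ hst j) (hNT _ hst' j)

end Pool.Agent.Work.MP_8da9ea_nt.EB
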