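import Pool.Agent.Work.MP_8da9ea_nt.EB.StmtsT

/-!
Item WpLow of the elliptic block: `|℘(u)| ≥ c / dist(u, Λ)^2` near the lattice.
-/

set_option autoImplicit false

namespace Pool.Agent.Work.MP_8da9ea_nt.EB

open Metric Filter Topology Pool.Agent.Work.MP_8da9ea_nt

theorem WpLow_pf : S_WpLow := by
  intro τ hτ
  have h1 : ∀ᶠ z in 𝓝[≠] (0 : ℂ), 1 / 2 < ‖z ^ 2 * wp 1 τ z‖ := by
    have h2 := (lim_sq_wp hτ).norm
    rw [norm_one] at h2
    exact h2.eventually_const_lt (by norm_num)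
  rw [eventually_nhdsWithin_iff, Metric.eventually_nhds_iff] at h1
  obtain ⟨δ, hδ, hb⟩ := h1
  set ε : ℝ := min δ 1 with hε
  have hε0 : 0 < ε := lt_min hδ one_pos
  have hε1 : ε ≤ 1 := min_le_right _ _
  refine ⟨2 / ε ^ 2, ?_, ?_⟩
  · rw [le_div_iff₀ (by positivity)]
    have : ε ^ 2 ≤ 1 := pow_le_one₀ hε0.le hε1
    linarith
  intro u hu
  have hne : (Lam τ).Nonempty := ⟨lp 1 τ 0, ⟨0, rfl⟩⟩
  obtain ⟨lam, hlam, hdist⟩ := (isClosed_Lam hτ).exists_infDist_eq_dist hne u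
  have hwn : 0 ≤ ‖wp 1 τ u‖ := norm_nonneg _
  rcases le_or_gt ε (infDist u (Lam τ)) with h | h
  · have h3 : ε ≤ d1 τ u := le_min hε1 h
    have h4 : ε ^ 2 ≤ d1 τ u ^ 2 := by gcongr
    have h5 : 2 ≤ 2 / ε ^ 2 * d1 τ u ^ 2 := by
      rw [div_mul_eq_mul_div, le_div_iff₀ (by positivity)]
      linarith
    nlinarith
  · obtain ⟨m, n, hmn⟩ := mem_Lam.1 hlam
    set z : ℂ := u - lam with hz
    have hz0 : z ≠ 0 := by
      intro h0
      rw [hz, sub_eq_zero] at h0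
      exact hu (h0 ▸ hlam)
    have hzn : ‖z‖ = infDist u (Lam τ) := by rw [hdist, dist_eq_norm]
    have hd1 : d1 τ u = ‖z‖ := by
      unfold d1
      rw [← hzn]
      exact min_eq_right (by rw [hzn]; linarith)
    have hwz : wp 1 τ u = wp 1 τ z := by
      have h6 := wp_add_lp hτ z m n
      rw [← hmn] at h6
      rw [← h6, hz]
      congr 1
      ring
    have h7 : 1 / 2 < ‖z ^ 2 * wp 1 τ z‖ := by
      apply hb _ hz0
      rw [dist_zero_right, hzn]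
      exact h.trans_le (min_le_left _ _)
    rw [norm_mul, norm_pow] at h7
    rw [hd1, hwz]
    have h8 : 2 ≤ 2 / ε ^ 2 := by
      rw [le_div_iff₀ (by positivity)]
      have : ε ^ 2 ≤ 1 := pow_le_one₀ hε0.le hε1
      linarith
    have h9 : 0 ≤ ‖z‖ ^ 2 := by positivity
    have h10 : 0 ≤ ‖z‖ ^ 2 * ‖wp 1 τ z‖ := by positivity
    have h11 : 2 / ε ^ 2 * ‖z‖ ^ 2 * (1 + ‖wp 1 τ z‖) =
        2 / ε ^ 2 * ‖z‖ ^ 2 + 2 / ε ^ 2 * (‖z‖ ^ 2 * ‖wp 1 τ z‖) := by ring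
    rw [h11]
    have h12 : 0 ≤ 2 / ε ^ 2 * ‖z‖ ^ 2 := by positivity
    nlinarith

end Pool.Agent.Work.MP_8da9ea_nt.EB
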