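import Pool.Agent.Work.MP_8da9ea_nt.EB.StmtsT

/-!
# Elliptic block: the zero estimate by induction
-/

set_option autoImplicit false

namespace Pool.Agent.Work.MP_8da9ea_nt.EB

open MvPolynomial Metric Filter Topology Pool.Agent.Work.MP_327059_nt.GL
  Pool.Agent.Work.MP_8da9ea_nt.S

theorem I_ZEE.zero : ZEE 0 := by
  refine ⟨0, fun τ _ n => ⟨1, le_rfl, ?_⟩⟩
  intro S B K a u A F _ _ _ hA hF _ hz
  exfalso
  have hne : A.Nonempty := by
    rw [Finset.nonempty_iff_ne_empty]
    rintro rfl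
    rw [Finset.card_empty, mul_zero] at hA
    have : 0 < (S + 1) ^ n := pow_pos (Nat.succ_pos S) n
    omega
  obtain ⟨s, hs⟩ := hne
  have h1 := (hz s hs).2
  rw [eq_C_of_isEmpty F, eval_C] at h1
  apply hF
  rw [eq_C_of_isEmpty F, h1, C_0]

theorem ZEE_pf (h1 : S_ZStepE) : S_ZEE := by
  intro m
  induction m with
  | zero => exact I_ZEE.zero
  | succ m ih => exact h1 m ih

end Pool.Agent.Work.MP_8da9ea_nt.EB
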