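import Pool.Agent.Work.MP_8da9ea_nt.EB.StmtsT

/-!
# Item ZUp: upper bound for the denominator of a triple
-/

set_option autoImplicit false

namespace Pool.Agent.Work.MP_8da9ea_nt.EB

open MvPolynomial Metric Filter Topology Pool.Agent.Work.MP_327059_nt.GL
  Pool.Agent.Work.MP_8da9ea_nt.S

namespace I_ZUp

/-- Trivial bound for the value of an integer polynomial. -/
theorem norm_aeval_le {σ : Type} (θ : σ → ℂ) (R : ℝ) (hR : 1 ≤ R) (hθ : ∀ i, ‖θ i‖ ≤ R)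
    (P : MvPolynomial σ ℤ) : ‖aeval θ P‖ ≤ len P * R ^ P.totalDegree := by
  have hR0 : 0 ≤ R := zero_le_one.trans hR
  rw [aeval_def, eval₂_eq]
  unfold len
  rw [Finset.sum_mul]
  refine (norm_sum_le _ _).trans (Finset.sum_le_sum fun s hs => ?_)
  rw [norm_mul]
  have h1 : ‖(algebraMap ℤ ℂ) (coeff s P)‖ = |((coeff s P : ℤ) : ℝ)| := by
    rw [eq_intCast, Complex.norm_intCast]
  rw [h1]
  refine mul_le_mul_of_nonneg_left ?_ (abs_nonneg _)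
  rw [norm_prod]
  have h2 : ∏ i ∈ s.support, ‖θ i ^ s i‖ ≤ ∏ i ∈ s.support, R ^ s i := by
    refine Finset.prod_le_prod (fun _ _ => norm_nonneg _) fun i _ => ?_
    rw [norm_pow]
    exact pow_le_pow_left₀ (norm_nonneg _) (hθ i) _
  refine h2.trans ?_
  rw [Finset.prod_pow_eq_pow_sum]
  refine pow_le_pow_right₀ hR ?_
  exact le_totalDegree hs

/-- The same with the size. -/
theorem norm_aeval_le_exp {σ : Type} (θ : σ → ℂ) (R h : ℝ) (hR : 1 ≤ R) (hθ : ∀ i, ‖θ i‖ ≤ R)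
    (P : MvPolynomial σ ℤ) (hP : SizP h P) :
    ‖aeval θ P‖ ≤ Real.exp ((1 + Real.log R) * h) := by
  have hR0 : 0 < R := zero_lt_one.trans_le hR
  have hl : 0 ≤ Real.log R := Real.log_nonneg hR
  refine (norm_aeval_le θ R hR hθ P).trans ?_
  have h1 : R ^ P.totalDegree ≤ Real.exp (Real.log R * h) := by
    have : R ^ P.totalDegree = Real.exp (Real.log R * P.totalDegree) := by
      rw [mul_comm, Real.exp_nat_mul, Real.exp_log hR0]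
    rw [this]
    exact Real.exp_le_exp.mpr (mul_le_mul_of_nonneg_left hP.1 hl)
  calc len P * R ^ P.totalDegree ≤ Real.exp h * Real.exp (Real.log R * h) :=
        mul_le_mul hP.2 h1 (pow_nonneg hR0.le _) (Real.exp_pos _).le
    _ = Real.exp ((1 + Real.log R) * h) := by
        rw [← Real.exp_add]
        congr 1
        ring

end I_ZUp

theorem ZUp_pf (hWL : S_WpLow) : S_ZUp := by
  intro τ μ hτ hμ n m θ
  obtain ⟨CW, hCW1, hCW⟩ := hWL τ hτ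
  obtain ⟨R, hR1, hR⟩ : ∃ R : ℝ, 1 ≤ R ∧ ∀ i, ‖θ i‖ ≤ R := by
    refine ⟨1 + ∑ i, ‖θ i‖, ?_, fun i => ?_⟩
    · have : 0 ≤ ∑ i, ‖θ i‖ := Finset.sum_nonneg fun _ _ => norm_nonneg _
      linarith
    · have := Finset.single_le_sum (f := fun i => ‖θ i‖) (fun _ _ => norm_nonneg _)
        (Finset.mem_univ i)
      linarith
  have hl : 0 ≤ Real.log R := Real.log_nonneg hR1
  have hμ0 : 0 < ‖μ‖ ^ 2 := by positivity
  -- the constant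
  have hK : 1 ≤ CW * (1 + (‖μ‖ ^ 2)⁻¹) := by
    have : 0 ≤ (‖μ‖ ^ 2)⁻¹ := (inv_pos.mpr hμ0).le
    nlinarith
  have hK0 : 0 < CW * (1 + (‖μ‖ ^ 2)⁻¹) := zero_lt_one.trans_le hK
  have hlK : 0 ≤ Real.log (CW * (1 + (‖μ‖ ^ 2)⁻¹)) := Real.log_nonneg hK
  refine ⟨1 + Real.log R + Real.log (CW * (1 + (‖μ‖ ^ 2)⁻¹)), by linarith, ?_⟩
  intro z h V hh hV hS
  have hA := I_ZUp.norm_aeval_le_exp θ R h hR1 hR V.A hS.A
  have hZ := I_ZUp.norm_aeval_le_exp θ R h hR1 hR V.Z hS.Z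
  set E : ℝ := Real.exp ((1 + Real.log R) * h) with hE
  have hE0 : 0 < E := Real.exp_pos _
  -- `‖Z‖ ‖℘‖ ≤ E / ‖μ‖²`
  have h1 : ‖aeval θ V.Z‖ * ‖wp 1 τ z‖ ≤ E * (‖μ‖ ^ 2)⁻¹ := by
    have h2 := hV.a
    unfold xe at h2
    have h3 : ‖aeval θ V.A‖ = ‖aeval θ V.Z‖ * ‖wp 1 τ z‖ * ‖μ‖ ^ 2 := by
      rw [h2, norm_mul, norm_mul, norm_pow]
      ring
    rw [← div_eq_mul_inv, le_div_iff₀ hμ0, ← h3]
    exact hA
  have h4 : ‖aeval θ V.Z‖ * (1 + ‖wp 1 τ z‖) ≤ E * (1 + (‖μ‖ ^ 2)⁻¹) := by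
    rw [mul_add, mul_add, mul_one, mul_one]
    exact add_le_add hZ h1
  have h5 := hCW z hV.nl
  have hd : 0 ≤ d1 τ z ^ 2 := sq_nonneg _
  have h6 : ‖aeval θ V.Z‖ ≤ E * (CW * (1 + (‖μ‖ ^ 2)⁻¹)) * d1 τ z ^ 2 := by
    calc ‖aeval θ V.Z‖ = ‖aeval θ V.Z‖ * 1 := (mul_one _).symm
      _ ≤ ‖aeval θ V.Z‖ * (CW * d1 τ z ^ 2 * (1 + ‖wp 1 τ z‖)) :=
          mul_le_mul_of_nonneg_left h5 (norm_nonneg _)
      _ = (‖aeval θ V.Z‖ * (1 + ‖wp 1 τ z‖)) * (CW * d1 τ z ^ 2) := by ring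
      _ ≤ (E * (1 + (‖μ‖ ^ 2)⁻¹)) * (CW * d1 τ z ^ 2) :=
          mul_le_mul_of_nonneg_right h4 (mul_nonneg (by linarith) hd)
      _ = E * (CW * (1 + (‖μ‖ ^ 2)⁻¹)) * d1 τ z ^ 2 := by ring
  refine h6.trans (mul_le_mul_of_nonneg_right ?_ hd)
  have h7 : CW * (1 + (‖μ‖ ^ 2)⁻¹) = Real.exp (Real.log (CW * (1 + (‖μ‖ ^ 2)⁻¹))) :=
    (Real.exp_log hK0).symm
  rw [hE, h7, ← Real.exp_add, Real.log_exp]
  apply Real.exp_le_exp.mpr
  nlinarith [mul_nonneg hlK hh]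

end Pool.Agent.Work.MP_8da9ea_nt.EB
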