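import Pool.Agent.Work.MP_8da9ea_nt.EB.I_AK1
import Pool.Agent.Work.MP_8da9ea_nt.EB.I_AK1s
import Pool.Agent.Work.MP_8da9ea_nt.EB.I_AK2
import Pool.Agent.Work.MP_8da9ea_nt.EB.I_AddSiz
import Pool.Agent.Work.MP_8da9ea_nt.EB.I_AddVal
import Pool.Agent.Work.MP_8da9ea_nt.EB.I_AxImgE
import Pool.Agent.Work.MP_8da9ea_nt.EB.I_AxOutE
import Pool.Agent.Work.MP_8da9ea_nt.EB.I_Branch
import Pool.Agent.Work.MP_8da9ea_nt.EB.I_Closed
import Pool.Agent.Work.MP_8da9ea_nt.EB.I_Cnt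
import Pool.Agent.Work.MP_8da9ea_nt.EB.I_CoefE
import Pool.Agent.Work.MP_8da9ea_nt.EB.I_CritE
import Pool.Agent.Work.MP_8da9ea_nt.EB.I_EllRank
import Pool.Agent.Work.MP_8da9ea_nt.EB.I_Emb
import Pool.Agent.Work.MP_8da9ea_nt.EB.I_EtaAdd
import Pool.Agent.Work.MP_8da9ea_nt.EB.I_FText
import Pool.Agent.Work.MP_8da9ea_nt.EB.I_FTpol
import Pool.Agent.Work.MP_8da9ea_nt.EB.I_Fac
import Pool.Agent.Work.MP_8da9ea_nt.EB.I_Fin
import Pool.Agent.Work.MP_8da9ea_nt.EB.I_GCoreE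
import Pool.Agent.Work.MP_8da9ea_nt.EB.I_GCoreE0
import Pool.Agent.Work.MP_8da9ea_nt.EB.I_GPE
import Pool.Agent.Work.MP_8da9ea_nt.EB.I_Glob
import Pool.Agent.Work.MP_8da9ea_nt.EB.I_Kf
import Pool.Agent.Work.MP_8da9ea_nt.EB.I_LMk
import Pool.Agent.Work.MP_8da9ea_nt.EB.I_LamAdd
import Pool.Agent.Work.MP_8da9ea_nt.EB.I_LamMul
import Pool.Agent.Work.MP_8da9ea_nt.EB.I_LamZero
import Pool.Agent.Work.MP_8da9ea_nt.EB.I_Lin
import Pool.Agent.Work.MP_8da9ea_nt.EB.I_LinAlgK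
import Pool.Agent.Work.MP_8da9ea_nt.EB.I_LocInv
import Pool.Agent.Work.MP_8da9ea_nt.EB.I_MeasE
import Pool.Agent.Work.MP_8da9ea_nt.EB.I_NZ
import Pool.Agent.Work.MP_8da9ea_nt.EB.I_Norm
import Pool.Agent.Work.MP_8da9ea_nt.EB.I_Op1
import Pool.Agent.Work.MP_8da9ea_nt.EB.I_OpA
import Pool.Agent.Work.MP_8da9ea_nt.EB.I_PEval
import Pool.Agent.Work.MP_8da9ea_nt.EB.I_Pencil
import Pool.Agent.Work.MP_8da9ea_nt.EB.I_PhiT
import Pool.Agent.Work.MP_8da9ea_nt.EB.I_Pop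
import Pool.Agent.Work.MP_8da9ea_nt.EB.I_PsiE
import Pool.Agent.Work.MP_8da9ea_nt.EB.I_QT
import Pool.Agent.Work.MP_8da9ea_nt.EB.I_RedNT
import Pool.Agent.Work.MP_8da9ea_nt.EB.I_RelAll
import Pool.Agent.Work.MP_8da9ea_nt.EB.I_RelPol
import Pool.Agent.Work.MP_8da9ea_nt.EB.I_RelPt
import Pool.Agent.Work.MP_8da9ea_nt.EB.I_RelStepE
import Pool.Agent.Work.MP_8da9ea_nt.EB.I_SchwE
import Pool.Agent.Work.MP_8da9ea_nt.EB.I_Split
import Pool.Agent.Work.MP_8da9ea_nt.EB.I_StepM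
import Pool.Agent.Work.MP_8da9ea_nt.EB.I_Surj
import Pool.Agent.Work.MP_8da9ea_nt.EB.I_TIE
import Pool.Agent.Work.MP_8da9ea_nt.EB.I_TorRank
import Pool.Agent.Work.MP_8da9ea_nt.EB.I_TrExt
import Pool.Agent.Work.MP_8da9ea_nt.EB.I_Tree
import Pool.Agent.Work.MP_8da9ea_nt.EB.I_TrueVal
import Pool.Agent.Work.MP_8da9ea_nt.EB.I_WpLow
import Pool.Agent.Work.MP_8da9ea_nt.EB.I_WpUp
import Pool.Agent.Work.MP_8da9ea_nt.EB.I_ZEE
import Pool.Agent.Work.MP_8da9ea_nt.EB.I_ZStepE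
import Pool.Agent.Work.MP_8da9ea_nt.EB.I_ZUp
import Pool.Agent.Work.MP_8da9ea_nt.EB.Final
import Pool.Agent.Work.MP_8da9ea_nt.S.Asm
import Pool.Agent.Work.MP_8da9ea_nt.CD.End
import Pool.Agent.Work.MP_8da9ea_nt.FixEnd
import Pool.Agent.Work.MP_327059_nt.GL.Asm

/-!
# Elliptic block: assembly
-/

set_option autoImplicit false

namespace Pool.Agent.Work.MP_8da9ea_nt.EB

open Pool.Agent.Work.MP_327059_nt.GL Pool.Agent.Work.MP_8da9ea_nt.S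

theorem x_Kf : S_Kf := Kf_pf

theorem x_LMk : S_LMk := LMk_pf FText_pf

/-! Zero estimate -/

theorem x_OpA : S_OpA := OpA_pf Op1_pf

theorem x_ZStepE : S_ZStepE :=
  ZStepE_pf x_OpA Pop_pf Fac_pf (Branch_pf Surj_pf) Split_pf (Cnt_pf Surj_pf) Lin_pf Glob_pf
    Fin_pf x_ZRes

theorem x_ZEE : S_ZEE := ZEE_pf x_ZStepE

/-! Criterion -/

theorem x_Tree : S_Tree := Tree_pf AddVal_pf AddSiz_pf

theorem x_TrueVal : S_TrueVal := TrueVal_pf AddVal_pf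

theorem x_CritE : S_CritE :=
  CritE_pf x_Tree x_TrueVal (ZUp_pf WpLow_pf) PEval_pf TrExt_pf LocInv_pf x_Crit x_Tensor

theorem x_NZ : S_NZ := NZ_pf x_ZEE x_LMk x_ManyInd x_Sieg

theorem x_PsiE : S_PsiE := PsiE_pf QT_pf x_PLm

/-! Measure -/

theorem x_CoefE : S_CoefE := CoefE_pf FText_pf PhiT_pf

theorem x_RelPt : S_RelPt := RelPt_pf x_Tree PEval_pf TrExt_pf pr_FF

theorem x_StepM : S_StepM := StepM_pf x_CritE x_NZ x_CoefE x_RelPt (SchwE_pf QT_pf)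

theorem x_MeasE : S_MeasE := MeasE_pf x_StepM

/-- The transcendence input. -/
theorem x_TIE : S_TIE := TIE_pf x_PsiE x_CritE x_NZ x_MeasE

/-! Differential algebra -/

theorem x_LamMul : S_LamMul := LamMul_pf LamAdd_pf x_Kf CD.prf_Sum

theorem x_AK1s : S_AK1s := AK1s_pf (AK1_pf Emb_pf x_Kf) x_Kf

theorem x_AK2 : S_AK2 := AK2_pf Emb_pf fx_prop

theorem x_AxImgE : S_AxImgE := AxImgE_pf x_AK1s Closed_pf x_Stab

theorem x_AxOutE : S_AxOutE := AxOutE_pf x_AxImgE LamZero_pf LamAdd_pf x_LamMul x_Kf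

theorem x_GCoreE0 : S_GCoreE0 :=
  GCoreE0_pf x_TIE RedNT_pf x_AxOutE LinAlgK_pf FText_pf FTpol_pf x_Kf x_DenseK pr_CntB

theorem x_GCoreE : S_GCoreE := GCoreE_pf x_GCoreE0 RedNT_pf x_Kf LamAdd_pf

/-- The rank of the elliptic forms at rational points. -/
theorem x_EllRank : S_EllRank := EllRank_pf x_GCoreE (GPE_pf LamAdd_pf)

theorem x_RelAll : S_RelAll :=
  RelAll_pf (RelStepE_pf Pencil_pf Closed_pf x_AK2 LamAdd_pf (EtaAdd_pf LamAdd_pf))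

theorem x_RelPol : S_RelPol := RelPol_pf LamAdd_pf (EtaAdd_pf LamAdd_pf)

end Pool.Agent.Work.MP_8da9ea_nt.EB
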