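import Pool.Agent.Work.MP_8da9ea_nt.EB.I_Fin

/-!
# Elliptic block, item ZStepE: the induction step of the zero estimate
-/

set_option autoImplicit false

namespace Pool.Agent.Work.MP_8da9ea_nt.EB

open MvPolynomial Metric Filter Topology Pool.Agent.Work.MP_8da9ea_nt
  Pool.Agent.Work.MP_327059_nt.GL

namespace XZStepE

variable {n m : ℕ} {τ : ℂ}

/-- The conclusion of the zero estimate. -/
def Con (τ : ℂ) (S M c : ℕ) (u : Fin n → Fin m → ℂ) : Prop :=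
  ∃ w : Fin m → ℂ, w ≠ 0 ∧ (∀ j, IsI τ (w j)) ∧ (∀ j, ‖w j‖ ≤ (M : ℝ)) ∧
    (S + 1) ^ n ≤ M * cntR τ (c * S) u w

lemma box_finite (S : ℕ) (P : (Fin n → ℤ) → Prop) :
    {s : Fin n → ℤ | (∀ i, |s i| ≤ (S : ℤ)) ∧ P s}.Finite := by
  refine (Finset.finite_toSet (Fintype.piFinset fun _ : Fin n => Finset.Icc (-(S : ℤ)) S)).subset ?_
  intro s hs
  rw [Finset.mem_coe, Fintype.mem_piFinset]
  intro i
  rw [Finset.mem_Icc]
  exact abs_le.1 (hs.1 i)

lemma cntR_mono {S S' : ℕ} (h : S ≤ S') (u : Fin n → Fin m → ℂ) (w : Fin m → ℂ) :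
    cntR τ S u w ≤ cntR τ S' u w := by
  refine Set.ncard_le_ncard ?_ (box_finite _ _)
  rintro s ⟨h1, h2⟩
  exact ⟨fun i => (h1 i).trans (by exact_mod_cast h), h2⟩

lemma Con.mono {S M c M' c' : ℕ} {u : Fin n → Fin m → ℂ} (h : Con τ S M c u) (hM : M ≤ M')
    (hc : c ≤ c') : Con τ S M' c' u := by
  obtain ⟨w, h1, h2, h3, h4⟩ := h
  refine ⟨w, h1, h2, fun j => (h3 j).trans (by exact_mod_cast hM), h4.trans ?_⟩
  exact Nat.mul_le_mul hM (cntR_mono (Nat.mul_le_mul_right _ hc) u w)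

lemma pc_add (u : Fin n → Fin m → ℂ) (s t : Fin n → ℤ) (j : Fin m) :
    pc u (s + t) j = pc u s j + pc u t j := by
  simp only [pc, Pi.add_apply, Int.cast_add, add_mul, Finset.sum_add_distrib]

lemma pc_sub (u : Fin n → Fin m → ℂ) (s t : Fin n → ℤ) (j : Fin m) :
    pc u (s - t) j = pc u s j - pc u t j := by
  simp only [pc, Pi.sub_apply, Int.cast_sub, sub_mul, Finset.sum_sub_distrib]

/-- a lower bound for `cntR` from the differences -/
lemma card_le_cntR {S : ℕ} (u : Fin n → Fin m → ℂ) (w : Fin m → ℂ) (D : Finset (Fin n → ℤ))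
    (hD : ∀ d ∈ D, ∀ i, |d i| ≤ (S : ℤ))
    (h : ∀ d ∈ D, ∀ d' ∈ D, ∑ j, w j * pc u (d - d') j ∈ Lam τ) :
    D.card ≤ cntR τ (2 * S) u w := by
  classical
  rcases D.eq_empty_or_nonempty with h0 | ⟨d₀, hd₀⟩
  · rw [h0]
    simp
  have h1 : (D.image fun d => d - d₀).card = D.card :=
    Finset.card_image_of_injective _ (sub_left_injective)
  rw [← h1, ← Set.ncard_coe_finset]
  refine Set.ncard_le_ncard ?_ (box_finite _ _)
  intro s hs
  rw [Finset.mem_coe, Finset.mem_image] at hs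
  obtain ⟨d, hd, rfl⟩ := hs
  refine ⟨fun i => ?_, h d hd d₀ hd₀⟩
  have h2 := hD d hd i
  have h3 := hD d₀ hd₀ i
  rw [abs_le] at h2 h3 ⊢
  simp only [Pi.sub_apply]
  push_cast
  constructor <;> linarith

/-- passing from the last `m` coordinates to all coordinates -/
lemma Con.cons {S M c : ℕ} {u : Fin n → Fin (m + 1) → ℂ}
    (h : Con τ S M c (fun i (j : Fin m) => u i j.succ)) : Con τ S M c u := by
  obtain ⟨w, h1, h2, h3, h4⟩ := h
  refine ⟨Fin.cons 0 w, ?_, ?_, ?_, ?_⟩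
  · intro h5
    apply h1
    funext j
    have := congrFun h5 j.succ
    simpa using this
  · intro j
    refine Fin.cases ?_ (fun j => ?_) j
    · simp only [Fin.cons_zero]
      exact ⟨(XFin.LG τ).zero_mem, by rw [zero_mul]; exact (XFin.LG τ).zero_mem⟩
    · simpa using h2 j
  · intro j
    refine Fin.cases ?_ (fun j => ?_) j
    · simp
    · simpa using h3 j
  · refine h4.trans (Nat.mul_le_mul_left _ (Set.ncard_le_ncard ?_ (box_finite _ _)))
    rintro s ⟨h5, h6⟩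
    refine ⟨h5, ?_⟩
    rw [Fin.sum_univ_succ]
    simp only [Fin.cons_zero, zero_mul, Fin.cons_succ, zero_add]
    exact h6

/-- elimination of the first variable -/
lemma elim (hRes : S_ZRes) {F G : MvPolynomial (Fin (m + 1)) ℂ} {B' : ℕ} (hF : F ≠ 0)
    (hG : G ≠ 0) (hFd : ∀ i, F.degreeOf i ≤ B') (hGd : ∀ i, G.degreeOf i ≤ B') (τ : ℂ) :
    (∃ f : MvPolynomial (Fin (m + 1)) ℂ, Irreducible f ∧ f ∣ F ∧ f ∣ G ∧ f.degreeOf 0 ≠ 0) ∨
    ∃ R : MvPolynomial (Fin m) ℂ, R ≠ 0 ∧ (∀ i, R.degreeOf i ≤ 2 * B' * B') ∧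
      ∀ (v : Fin m → ℂ) (y : ℂ), eval (pw τ v y) F = 0 → eval (pw τ v y) G = 0 →
        eval (fun i => wp 1 τ (v i)) R = 0 := by
  rcases hRes m B' F G hF hG hFd hGd with h | ⟨R, h1, h2, a, b, h3⟩
  · exact Or.inl h
  · refine Or.inr ⟨R, h1, h2, fun v y h4 h5 => ?_⟩
    have h6 := congrArg (eval (pw τ v y)) h3
    rw [map_add, map_mul, map_mul, h4, h5, mul_zero, mul_zero, add_zero, eval_rename] at h6
    exact h6

lemma pw_all (τ : ℂ) (f : Fin (m + 1) → ℂ) :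
    (fun j => wp 1 τ (f j)) = pw τ (fun i => f i.succ) (f 0) := by
  funext j
  refine Fin.cases ?_ (fun j => ?_) j
  · rfl
  · rfl

/-! ### From a branch to a relation -/

/-- the affine case -/
lemma affine_case (hτ : 0 < τ.im) (hGlob : S_Glob) {Cf : ℕ}
    (hFin : ∀ (m B : ℕ) (F : MvPolynomial (Fin (m + 1)) ℂ) (α : Fin m → ℂ) (ι : Type)
      (D : Finset ι) (κ : ι → ℂ), 1 ≤ B → F ≠ 0 → (∀ i, F.degreeOf i ≤ B) → D.Nonempty →
      (∀ d ∈ D, ∃ v : Fin m → ℂ, κ d + ∑ i, α i * v i ∉ Lam τ) →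
      (∀ d ∈ D, ∀ v : Fin m → ℂ, (∀ i, v i ∉ Lam τ) → κ d + ∑ i, α i * v i ∉ Lam τ →
        eval (pw τ v (κ d + ∑ i, α i * v i)) F = 0) →
      ∃ N : ℕ, N ≠ 0 ∧ N ≤ (4 * B * B) ^ m ∧ (∀ i, IsI τ ((N : ℂ) * α i)) ∧
        (∀ i, ‖α i‖ ≤ ((Cf * B : ℕ) : ℝ)) ∧
        ∃ D' ⊆ D, D.card ≤ 2 * B * D'.card ∧ ∀ d ∈ D', ∀ d' ∈ D', κ d - κ d' ∈ Lam τ)
    {S B K : ℕ} (u : Fin n → Fin (m + 1) → ℂ) (D : Finset (Fin n → ℤ))
    (F : MvPolynomial (Fin (m + 1)) ℂ) (v₁ : Fin m → ℂ) (r₁ : ℝ) (c : ℂ) (α : Fin m → ℂ)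
    (hB : 1 ≤ B) (hK : 1 ≤ K) (hD : ∀ d ∈ D, ∀ i, |d i| ≤ (S : ℤ)) (hDc : (S + 1) ^ n ≤ K * D.card)
    (hF : F ≠ 0) (hFd : ∀ i, F.degreeOf i ≤ B) (hr : 0 < r₁)
    (hbr : ∀ v ∈ ball v₁ r₁, ∀ d ∈ D, (∀ i, v i + pc u d i.succ ∉ Lam τ) ∧
      c + ∑ i, α i * v i + pc u d 0 ∉ Lam τ ∧
      eval (pw τ (fun i => v i + pc u d i.succ) (c + ∑ i, α i * v i + pc u d 0)) F = 0) :
    Con τ S ((Cf + 2) * (2 * B * K) ^ (2 * m + 1)) 2 u := by
  classical
  have hDne : D.Nonempty := by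
    rw [Finset.nonempty_iff_ne_empty]
    rintro rfl
    simp at hDc
  set κ : (Fin n → ℤ) → ℂ := fun d => c + pc u d 0 - ∑ j : Fin m, α j * pc u d j.succ with hκ
  have hkey : ∀ d ∈ D, ∀ v ∈ ball (fun i => v₁ i + pc u d i.succ) r₁, (∀ i, v i ∉ Lam τ) ∧
      κ d + ∑ i, α i * v i ∉ Lam τ ∧ eval (pw τ v (κ d + ∑ i, α i * v i)) F = 0 := by
    intro d hd v hv
    have h1 : (fun i => v i - pc u d i.succ) ∈ ball v₁ r₁ := by
      rw [mem_ball, dist_pi_lt_iff hr] at hv ⊢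
      intro i
      have := hv i
      rw [dist_eq_norm] at this ⊢
      rwa [sub_sub, add_comm (pc u d i.succ) (v₁ i)]
    obtain ⟨h2, h3, h4⟩ := hbr _ h1 d hd
    have h5 : c + ∑ i, α i * (v i - pc u d i.succ) + pc u d 0 = κ d + ∑ i, α i * v i := by
      rw [hκ]
      simp only [mul_sub, Finset.sum_sub_distrib]
      ring
    simp only [sub_add_cancel] at h2 h3 h4
    rw [h5] at h3 h4
    exact ⟨h2, h3, h4⟩
  obtain ⟨N, hN0, hN1, hN2, hN3, D', hD'1, hD'2, hD'3⟩ := hFin m B F α (Fin n → ℤ) D κ hB hF hFd hDne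
    (fun d hd => ⟨_, (hkey d hd _ (mem_ball_self hr)).2.1⟩)
    (fun d hd => by
      have h1 := hGlob τ hτ m F (κ d) α (fun i => v₁ i + pc u d i.succ) r₁ hr
        (fun v hv => hkey d hd v hv)
      exact h1)
  set X : ℕ := 2 * B * K with hX
  have hX1 : 1 ≤ X := by
    rw [hX]
    exact Nat.mul_pos (by omega) hK
  have hBX : B ≤ X := by
    rw [hX]
    calc B = B * 1 := (mul_one B).symm
      _ ≤ (2 * B) * K := Nat.mul_le_mul (by omega) hK
  have h4B : 4 * B * B ≤ X ^ 2 := by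
    rw [hX]
    calc 4 * B * B = 4 * B * B * 1 := (mul_one _).symm
      _ ≤ 4 * B * B * (K * K) := Nat.mul_le_mul_left _ (Nat.mul_pos hK hK)
      _ = (2 * B * K) ^ 2 := by ring
  have hNX : N ≤ X ^ (2 * m) := by
    refine hN1.trans ?_
    rw [pow_mul]
    exact Nat.pow_le_pow_left h4B m
  have hM1 : N ≤ (Cf + 2) * X ^ (2 * m + 1) := by
    calc N ≤ X ^ (2 * m) := hNX
      _ = 1 * (X ^ (2 * m) * 1) := by ring
      _ ≤ (Cf + 2) * (X ^ (2 * m) * X) :=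
        Nat.mul_le_mul (by omega) (Nat.mul_le_mul_left _ hX1)
      _ = (Cf + 2) * X ^ (2 * m + 1) := by rw [pow_succ]
  have hM2 : N * (Cf * B) ≤ (Cf + 2) * X ^ (2 * m + 1) := by
    calc N * (Cf * B) ≤ X ^ (2 * m) * ((Cf + 2) * X) :=
        Nat.mul_le_mul hNX (Nat.mul_le_mul (by omega) hBX)
      _ = (Cf + 2) * X ^ (2 * m + 1) := by rw [pow_succ]; ring
  have hM3 : X ≤ (Cf + 2) * X ^ (2 * m + 1) := by
    calc X = 1 * (1 * X) := by ring
      _ ≤ (Cf + 2) * (X ^ (2 * m) * X) :=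
        Nat.mul_le_mul (by omega) (Nat.mul_le_mul_right _ (Nat.one_le_pow _ _ hX1))
      _ = (Cf + 2) * X ^ (2 * m + 1) := by rw [pow_succ]
  refine ⟨Fin.cons (N : ℂ) (fun j => -((N : ℂ) * α j)), ?_, ?_, ?_, ?_⟩
  · intro h1
    have := congrFun h1 0
    simp only [Fin.cons_zero, Pi.zero_apply] at this
    exact hN0 (by exact_mod_cast this)
  · intro j
    refine Fin.cases ?_ (fun j => ?_) j
    · simp only [Fin.cons_zero]
      exact ⟨mem_Lam.2 ⟨N, 0, by simp⟩, mem_Lam.2 ⟨0, N, by simp⟩⟩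
    · simp only [Fin.cons_succ]
      refine ⟨(XFin.LG τ).neg_mem (hN2 j).1, ?_⟩
      rw [neg_mul]
      exact (XFin.LG τ).neg_mem (hN2 j).2
  · intro j
    refine Fin.cases ?_ (fun j => ?_) j
    · simp only [Fin.cons_zero, Complex.norm_natCast]
      exact_mod_cast hM1
    · simp only [Fin.cons_succ, norm_neg, norm_mul, Complex.norm_natCast]
      calc (N : ℝ) * ‖α j‖ ≤ N * ((Cf * B : ℕ) : ℝ) :=
            mul_le_mul_of_nonneg_left (hN3 j) (Nat.cast_nonneg N)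
        _ = ((N * (Cf * B) : ℕ) : ℝ) := by push_cast; ring
        _ ≤ _ := by exact_mod_cast hM2
  · have h1 := card_le_cntR (τ := τ) (S := S) u (Fin.cons (N : ℂ) (fun j => -((N : ℂ) * α j))) D'
      (fun d hd => hD d (hD'1 hd)) (by
      intro d hd d' hd'
      have h2 := (XFin.LG τ).nsmul_mem (hD'3 d hd d' hd') N
      have h3 : ∑ j, (Fin.cons (N : ℂ) (fun j => -((N : ℂ) * α j)) : Fin (m + 1) → ℂ) j *
          pc u (d - d') j = N • (κ d - κ d') := by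
        rw [Fin.sum_univ_succ, nsmul_eq_mul]
        simp only [Fin.cons_zero, Fin.cons_succ, pc_sub]
        rw [hκ]
        simp only [neg_mul, Finset.sum_neg_distrib, mul_sub, Finset.sum_sub_distrib,
          Finset.mul_sum, mul_add, mul_assoc]
        ring
      rw [h3]
      exact h2)
    calc (S + 1) ^ n ≤ K * D.card := hDc
      _ ≤ K * (2 * B * D'.card) := Nat.mul_le_mul_left _ hD'2
      _ = X * D'.card := by rw [hX]; ring
      _ ≤ _ := Nat.mul_le_mul hM3 h1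

lemma two_mul_pow (n S : ℕ) : (2 * S + 1) ^ n ≤ 2 ^ n * (S + 1) ^ n := by
  rw [← mul_pow]
  exact Nat.pow_le_pow_left (by omega) n

/-- from a branch to a relation -/
theorem zb (hOpA : S_OpA) (hRes : S_ZRes) (hCnt : S_Cnt) (hLin : S_Lin) (hGlob : S_Glob)
    (hFin : S_Fin) {m : ℕ} (hZ : ZEE m) : ∃ c : ℕ, ∀ τ : ℂ, 0 < τ.im → ∀ n : ℕ, ∃ C : ℕ, 1 ≤ C ∧
    ∀ (S B K : ℕ) (u : Fin n → Fin (m + 1) → ℂ) (D : Finset (Fin n → ℤ))
      (F : MvPolynomial (Fin (m + 1)) ℂ) (v₁ : Fin m → ℂ) (r₁ : ℝ) (L : (Fin m → ℂ) → ℂ),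
      1 ≤ B → 1 ≤ K → (∀ d ∈ D, ∀ i, |d i| ≤ (S : ℤ)) → (S + 1) ^ n ≤ K * D.card → F ≠ 0 →
      (∀ i, F.degreeOf i ≤ B) → 0 < r₁ → AnalyticOnNhd ℂ L (ball v₁ r₁) →
      (∀ v ∈ ball v₁ r₁, ∀ d ∈ D, (∀ i, v i + pc u d i.succ ∉ Lam τ) ∧ L v + pc u d 0 ∉ Lam τ ∧
        eval (pw τ (fun i => v i + pc u d i.succ) (L v + pc u d 0)) F = 0) →
      Con τ S (C * (2 * B * K) ^ c) c u := by
  classical
  obtain ⟨c0, hZ⟩ := hZ
  refine ⟨2 * c0 + 2 * m + 2, fun τ hτ n => ?_⟩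
  obtain ⟨C0, hC0, hZ⟩ := hZ τ hτ n
  obtain ⟨Cf, hCf, hFin⟩ := hFin τ hτ
  refine ⟨C0 * (2 ^ (n + 2) * 36 ^ (m + 1)) ^ c0 + Cf + 2, by omega, ?_⟩
  intro S B K u D F v₁ r₁ L hB hK hD hDc hF hFd hr hL hbr
  set X : ℕ := 2 * B * K with hX
  have hX1 : 1 ≤ X := by
    rw [hX]
    exact Nat.mul_pos (by omega) hK
  set B' : ℕ := 6 ^ (m + 1) * B with hB'
  have hB'1 : 1 ≤ B' := Nat.mul_pos (by positivity) hB
  by_cases hR : ∃ v ∈ ball v₁ r₁, ∃ R : MvPolynomial (Fin m) ℂ, R ≠ 0 ∧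
      (∀ i, R.degreeOf i ≤ 2 * B' * B') ∧
      ∀ d ∈ D, eval (fun i : Fin m => wp 1 τ (v i + pc u d i.succ)) R = 0
  · obtain ⟨v, hv, R, hR1, hR2, hR3⟩ := hR
    set σ : Fin n → ℤ := fun _ => (S : ℤ) with hσ
    have h1 := hZ (2 * S) (2 * B' * B') (2 ^ n * K) (fun j => v j - pc u σ j.succ)
      (fun i (j : Fin m) => u i j.succ) (D.image fun d => d + σ) R
      (Nat.mul_pos (Nat.mul_pos (by norm_num) hB'1) hB'1) (Nat.mul_pos (by positivity) hK) (by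
        intro s hs i
        rw [Finset.mem_image] at hs
        obtain ⟨d, hd, rfl⟩ := hs
        have := abs_le.1 (hD d hd i)
        simp only [Pi.add_apply, hσ]
        push_cast
        constructor <;> linarith) (by
        rw [Finset.card_image_of_injective _ (add_left_injective σ)]
        calc (2 * S + 1) ^ n ≤ 2 ^ n * (S + 1) ^ n := two_mul_pow n S
          _ ≤ 2 ^ n * (K * D.card) := Nat.mul_le_mul_left _ hDc
          _ = 2 ^ n * K * D.card := by ring) hR1 hR2 (by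
        intro s hs
        rw [Finset.mem_image] at hs
        obtain ⟨d, hd, rfl⟩ := hs
        have h2 : ∀ j : Fin m, v j - pc u σ j.succ + pc (fun i (j : Fin m) => u i j.succ) (d + σ) j =
            v j + pc u d j.succ := by
          intro j
          have h3 : pc (fun i (j : Fin m) => u i j.succ) (d + σ) j = pc u (d + σ) j.succ := rfl
          rw [h3, pc_add]
          ring
        simp only [h2]
        exact ⟨(hbr v hv d hd).1, hR3 d hd⟩)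
    obtain ⟨w, hw1, hw2, hw3, hw4⟩ := h1
    have h2 : Con τ S (C0 * (2 * (2 * B' * B') * (2 ^ n * K)) ^ c0) (2 * c0)
        (fun i (j : Fin m) => u i j.succ) := by
      refine ⟨w, hw1, hw2, hw3, ?_⟩
      rw [show 2 * c0 * S = c0 * (2 * S) by ring]
      exact (Nat.pow_le_pow_left (by omega) n).trans hw4
    refine (h2.mono ?_ (by omega)).cons
    have h3 : 2 * (2 * B' * B') * (2 ^ n * K) ≤ (2 ^ (n + 2) * 36 ^ (m + 1)) * X ^ 2 := by
      have h4 : (36 : ℕ) ^ (m + 1) = 6 ^ (m + 1) * 6 ^ (m + 1) := by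
        rw [← mul_pow]
        norm_num
      rw [h4, hB', hX]
      calc 2 * (2 * (6 ^ (m + 1) * B) * (6 ^ (m + 1) * B)) * (2 ^ n * K)
          = (2 ^ (n + 2) * (6 ^ (m + 1) * 6 ^ (m + 1))) * (B * B * K * 1) := by ring
        _ ≤ (2 ^ (n + 2) * (6 ^ (m + 1) * 6 ^ (m + 1))) * (B * B * K * (4 * K)) :=
            Nat.mul_le_mul_left _ (Nat.mul_le_mul_left _ (by omega))
        _ = (2 ^ (n + 2) * (6 ^ (m + 1) * 6 ^ (m + 1))) * (2 * B * K) ^ 2 := by ring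
    calc C0 * (2 * (2 * B' * B') * (2 ^ n * K)) ^ c0
        ≤ C0 * ((2 ^ (n + 2) * 36 ^ (m + 1)) * X ^ 2) ^ c0 :=
          Nat.mul_le_mul_left _ (Nat.pow_le_pow_left h3 _)
      _ = (C0 * (2 ^ (n + 2) * 36 ^ (m + 1)) ^ c0) * X ^ (2 * c0) := by
          rw [mul_pow, ← pow_mul, mul_assoc]
      _ ≤ (C0 * (2 ^ (n + 2) * 36 ^ (m + 1)) ^ c0 + Cf + 2) * X ^ (2 * c0 + 2 * m + 2) :=
          Nat.mul_le_mul (by omega) (Nat.pow_le_pow_right hX1 (by omega))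
  · -- the increments are countable
    have hinc : ∀ h : Fin m → ℂ, ∃ Z : Set ℂ, Z.Countable ∧
        ∀ v, v ∈ ball v₁ r₁ → v + h ∈ ball v₁ r₁ → L (v + h) - L v ∈ Z := by
      intro h
      obtain ⟨Z, hZ1, hZ2⟩ := hCnt τ hτ m F hF h
      refine ⟨Z, hZ1, fun v hv hvh => ?_⟩
      obtain ⟨G, hG0, hG1, hG2, hG3⟩ := hOpA τ hτ m (L (v + h) - L v) h F hF
      rcases elim hRes hF hG0 (B' := B') (fun i => (hFd i).trans (by
          rw [hB']
          exact Nat.le_mul_of_pos_left _ (by positivity))) (fun i => (hG1 i).trans (by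
          rw [hB']
          exact Nat.mul_le_mul_left _ (hFd i))) τ with ⟨g, hg1, hg2, hg3, hg4⟩ | ⟨R, hR1, hR2, hR3⟩
      · exact hZ2 _ G g hg1 hg4 hg2 hg3 hG3
      · exfalso
        apply hR
        refine ⟨v, hv, R, hR1, hR2, fun d hd => ?_⟩
        obtain ⟨h1, h2, h3⟩ := hbr v hv d hd
        obtain ⟨h4, h5, h6⟩ := hbr _ hvh d hd
        refine hR3 _ _ h3 (hG2 (fun i => v i + pc u d i.succ) (L v + pc u d 0) h1 h2 ?_ ?_ ?_)
        · intro i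
          have := h4 i
          rw [Pi.add_apply] at this
          rwa [add_right_comm]
        · rwa [show L v + pc u d 0 + (L (v + h) - L v) = L (v + h) + pc u d 0 by ring]
        · rw [show L v + pc u d 0 + (L (v + h) - L v) = L (v + h) + pc u d 0 by ring]
          have h7 : (fun i => v i + pc u d i.succ + h i) = fun i => (v + h) i + pc u d i.succ := by
            funext i
            rw [Pi.add_apply]
            ring
          rw [h7]
          exact h6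
    obtain ⟨c, α, r', hr'1, hr'2, hlin⟩ := hLin m v₁ r₁ L hr hL hinc
    have h1 := affine_case hτ hGlob hFin u D F v₁ r' c α hB hK hD hDc hF hFd hr'1 (by
      intro v hv d hd
      have h2 := hbr v (ball_subset_ball hr'2 hv) d hd
      rw [hlin v hv] at h2
      exact h2)
    refine h1.mono ?_ (by omega)
    exact Nat.mul_le_mul (by omega) (Nat.pow_le_pow_right hX1 (by omega))

end XZStepE

/-- C9: the induction step -/
theorem ZStepE_pf (hOpA : S_OpA) (hPop : S_Pop) (hFac : S_Fac) (hBr : S_Branch) (hSp : S_Split)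
    (hCnt : S_Cnt) (hLin : S_Lin) (hGlob : S_Glob) (hFin : S_Fin) (hRes : S_ZRes) :
    S_ZStepE := by
  classical
  intro m hZ
  obtain ⟨cb, hzb⟩ := XZStepE.zb hOpA hRes hCnt hLin hGlob hFin hZ
  obtain ⟨c0, hZ⟩ := hZ
  refine ⟨4 * c0 + 2 * cb + 2, fun τ hτ n => ?_⟩
  obtain ⟨Cb, hCb, hzb⟩ := hzb τ hτ n
  obtain ⟨C0, hC0, hZ⟩ := hZ τ hτ n
  refine ⟨C0 * (2 ^ (n + 3) * 36 ^ (m + 1)) ^ c0 + 4 + Cb * (2 ^ (m + 4)) ^ cb, by omega, ?_⟩
  intro S B K a u A F hB hK hA hAc hF hFd hAF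
  set X : ℕ := 2 * B * K with hX
  have hX1 : 1 ≤ X := by
    rw [hX]
    exact Nat.mul_pos (by omega) hK
  set B' : ℕ := 6 ^ (m + 1) * B with hB'
  have hB'1 : 1 ≤ B' := Nat.mul_pos (by positivity) hB
  suffices h : XZStepE.Con τ S
      ((C0 * (2 ^ (n + 3) * 36 ^ (m + 1)) ^ c0 + 4 + Cb * (2 ^ (m + 4)) ^ cb) *
        X ^ (4 * c0 + 2 * cb + 2)) (4 * c0 + 2 * cb + 2) u by
    exact h
  obtain ⟨D, hD1, hD2, hD3⟩ := hPop n S K A hK hA hAc
  have hDne : D.Nonempty := by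
    rw [Finset.nonempty_iff_ne_empty]
    rintro rfl
    simp at hD2
  choose G hG0 hG1 hG2 hG3 using fun d : Fin n → ℤ =>
    hOpA τ hτ m (pc u d 0) (fun j => pc u d j.succ) F hF
  have hzero : ∀ s ∈ A, (∀ i : Fin m, a i.succ + pc u s i.succ ∉ Lam τ) ∧
      a 0 + pc u s 0 ∉ Lam τ ∧
      eval (pw τ (fun i : Fin m => a i.succ + pc u s i.succ) (a 0 + pc u s 0)) F = 0 := by
    intro s hs
    obtain ⟨h1, h2⟩ := hAF s hs
    refine ⟨fun i => h1 i.succ, h1 0, ?_⟩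
    rw [XZStepE.pw_all τ (fun j => a j + pc u s j)] at h2
    exact h2
  by_cases hR : ∃ d ∈ D, ∃ R : MvPolynomial (Fin m) ℂ, R ≠ 0 ∧
      (∀ i, R.degreeOf i ≤ 2 * B' * B') ∧
      ∀ (v : Fin m → ℂ) (y : ℂ), eval (pw τ v y) F = 0 → eval (pw τ v y) (G d) = 0 →
        eval (fun i => wp 1 τ (v i)) R = 0
  · obtain ⟨d, hd, R, hR1, hR2, hR3⟩ := hR
    obtain ⟨w, hw1, hw2, hw3, hw4⟩ := hZ S (2 * B' * B') (2 ^ (n + 1) * K ^ 2)
      (fun j => a j.succ) (fun i (j : Fin m) => u i j.succ) (A.filter fun s => s + d ∈ A) R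
      (Nat.mul_pos (Nat.mul_pos (by norm_num) hB'1) hB'1)
      (Nat.mul_pos (by positivity) (Nat.pow_pos hK)) (by
        intro s hs
        exact hA s (Finset.mem_filter.1 hs).1) (hD3 d hd) hR1 hR2 (by
        intro s hs
        obtain ⟨h1, h2⟩ := Finset.mem_filter.1 hs
        obtain ⟨h3, h4, h5⟩ := hzero s h1
        obtain ⟨h6, h7, h8⟩ := hzero _ h2
        simp only [XZStepE.pc_add, ← add_assoc] at h6 h7 h8
        exact ⟨h3, hR3 _ _ h5 (hG2 d _ _ h3 h4 h6 h7 h8)⟩)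
    have h1 : XZStepE.Con τ S (C0 * (2 * (2 * B' * B') * (2 ^ (n + 1) * K ^ 2)) ^ c0) c0
        (fun i (j : Fin m) => u i j.succ) := ⟨w, hw1, hw2, hw3, hw4⟩
    refine (h1.mono ?_ (by omega)).cons
    have h3 : 2 * (2 * B' * B') * (2 ^ (n + 1) * K ^ 2) ≤
        (2 ^ (n + 3) * 36 ^ (m + 1)) * X ^ 2 := by
      have h4 : (36 : ℕ) ^ (m + 1) = 6 ^ (m + 1) * 6 ^ (m + 1) := by
        rw [← mul_pow]
        norm_num
      rw [h4, hB', hX]
      calc 2 * (2 * (6 ^ (m + 1) * B) * (6 ^ (m + 1) * B)) * (2 ^ (n + 1) * K ^ 2)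
          = (2 ^ (n + 3) * (6 ^ (m + 1) * 6 ^ (m + 1))) * (1 * (B * B * (K * K))) := by ring
        _ ≤ (2 ^ (n + 3) * (6 ^ (m + 1) * 6 ^ (m + 1))) * (4 * (B * B * (K * K))) :=
            Nat.mul_le_mul_left _ (Nat.mul_le_mul_right _ (by norm_num))
        _ = (2 ^ (n + 3) * (6 ^ (m + 1) * 6 ^ (m + 1))) * (2 * B * K) ^ 2 := by ring
    calc C0 * (2 * (2 * B' * B') * (2 ^ (n + 1) * K ^ 2)) ^ c0
        ≤ C0 * ((2 ^ (n + 3) * 36 ^ (m + 1)) * X ^ 2) ^ c0 :=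
          Nat.mul_le_mul_left _ (Nat.pow_le_pow_left h3 _)
      _ = (C0 * (2 ^ (n + 3) * 36 ^ (m + 1)) ^ c0) * X ^ (2 * c0) := by
          rw [mul_pow, ← pow_mul, mul_assoc]
      _ ≤ _ := Nat.mul_le_mul (by omega) (Nat.pow_le_pow_right hX1 (by omega))
  -- common factors
  have hfac : ∀ d : Fin n → ℤ, ∃ f : MvPolynomial (Fin (m + 1)) ℂ, d ∈ D →
      (Irreducible f ∧ f.degreeOf 0 ≠ 0 ∧ f ∣ F) ∧ f ∣ G d := by
    intro d
    by_cases hd : d ∈ D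
    · rcases XZStepE.elim hRes hF (hG0 d) (B' := B') (fun i => (hFd i).trans (by
          rw [hB']
          exact Nat.le_mul_of_pos_left _ (by positivity))) (fun i => (hG1 d i).trans (by
          rw [hB']
          exact Nat.mul_le_mul_left _ (hFd i))) τ with ⟨g, hg1, hg2, hg3, hg4⟩ | ⟨R, hR1, hR2, hR3⟩
      · exact ⟨g, fun _ => ⟨⟨hg1, hg4, hg2⟩, hg3⟩⟩
      · exact absurd ⟨d, hd, R, hR1, hR2, hR3⟩ hR
    · exact ⟨0, fun h => absurd h hd⟩
  choose f hf using hfac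
  obtain ⟨d₀, hd₀, Df, hDf1, hDf2, hDf3⟩ := hFac m F hF (Fin n → ℤ) D f hDne
    (fun d hd => (hf d hd).1)
  obtain ⟨⟨hf1, hf2, hf3⟩, -⟩ := hf d₀ hd₀
  have hTr : ∀ d ∈ Df, Tr2 τ F (f d₀) (pc u d 0) (fun j => pc u d j.succ) := by
    intro d hd v y h1 h2 h3 h4 h5 h6 h7
    refine hG3 d v y h1 h2 h3 h4 h5 h6 ?_
    obtain ⟨k, hk⟩ := (hDf3 d hd).dvd.trans (hf d (hDf1 hd)).2
    rw [hk, map_mul, h7, zero_mul]
  have hDfc : (S + 1) ^ n ≤ 2 * K * B * Df.card := by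
    calc (S + 1) ^ n ≤ 2 * K * D.card := hD2
      _ ≤ 2 * K * (F.degreeOf 0 * Df.card) := Nat.mul_le_mul_left _ hDf2
      _ ≤ 2 * K * (B * Df.card) := Nat.mul_le_mul_left _ (Nat.mul_le_mul_right _ (hFd 0))
      _ = 2 * K * B * Df.card := by ring
  obtain ⟨v₀, r, L, hr, hL, hLf⟩ := hBr τ hτ m (f d₀) hf1 hf2
  rcases hSp τ hτ m (f d₀) F v₀ r L hr hL hLf (Fin n → ℤ) Df (fun d => pc u d 0)
    (fun d j => pc u d j.succ) hTr with ⟨D', hD'1, hD'2, hD'3⟩ |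
      ⟨D', hD'1, hD'2, v₁, r₁, L₁, hr₁, hL₁, hbr⟩
  · -- the first coordinate
    refine XZStepE.Con.mono (M := 4 * X) (c := 2) ?_ ?_ (by omega)
    · refine ⟨Pi.single 0 1, ?_, ?_, ?_, ?_⟩
      · intro h1
        have := congrFun h1 0
        simp at this
      · intro j
        rw [Pi.single_apply]
        split_ifs
        · exact ⟨mem_Lam.2 ⟨1, 0, by simp⟩, mem_Lam.2 ⟨0, 1, by simp⟩⟩
        · exact ⟨(XFin.LG τ).zero_mem, by rw [zero_mul]; exact (XFin.LG τ).zero_mem⟩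
      · intro j
        have h1 : (1 : ℝ) ≤ ((4 * X : ℕ) : ℝ) := by
          have : 1 ≤ 4 * X := by omega
          exact_mod_cast this
        rw [Pi.single_apply]
        split_ifs
        · rw [norm_one]
          exact h1
        · rw [norm_zero]
          linarith
      · have h1 := XZStepE.card_le_cntR (τ := τ) (S := S) u (Pi.single 0 1) D'
          (fun d hd => hD1 d (hDf1 (hD'1 hd))) (by
          intro d hd d' hd'
          have h2 : ∑ j, (Pi.single 0 1 : Fin (m + 1) → ℂ) j * pc u (d - d') j =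
              pc u d 0 - pc u d' 0 := by
            rw [← XZStepE.pc_sub]
            simp [Pi.single_apply]
          rw [h2]
          exact hD'3 d hd d' hd')
        calc (S + 1) ^ n ≤ 2 * K * B * Df.card := hDfc
          _ ≤ 2 * K * B * (4 * D'.card) := Nat.mul_le_mul_left _ hD'2
          _ = 4 * X * D'.card := by rw [hX]; ring
          _ ≤ _ := Nat.mul_le_mul_left _ h1
    · calc 4 * X = 4 * X ^ 1 := by rw [pow_one]
        _ ≤ _ := Nat.mul_le_mul (by omega) (Nat.pow_le_pow_right hX1 (by omega))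
  · have h1 := hzb S B (2 * K * B * 2 ^ (m + 2)) u D' F v₁ r₁ L₁ hB
      (Nat.mul_pos (Nat.mul_pos (by omega) hB) (by positivity))
      (fun d hd => hD1 d (hDf1 (hD'1 hd))) (by
        calc (S + 1) ^ n ≤ 2 * K * B * Df.card := hDfc
          _ ≤ 2 * K * B * (2 ^ (m + 2) * D'.card) := Nat.mul_le_mul_left _ hD'2
          _ = 2 * K * B * 2 ^ (m + 2) * D'.card := by ring) hF hFd hr₁ hL₁ hbr
    refine h1.mono ?_ (by omega)
    have h3 : 2 * B * (2 * K * B * 2 ^ (m + 2)) ≤ 2 ^ (m + 4) * X ^ 2 := by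
      rw [hX]
      calc 2 * B * (2 * K * B * 2 ^ (m + 2)) = 2 ^ (m + 4) * (B * B * K * 1) := by ring
        _ ≤ 2 ^ (m + 4) * (B * B * K * (4 * K)) :=
            Nat.mul_le_mul_left _ (Nat.mul_le_mul_left _ (by omega))
        _ = 2 ^ (m + 4) * (2 * B * K) ^ 2 := by ring
    calc Cb * (2 * B * (2 * K * B * 2 ^ (m + 2))) ^ cb ≤ Cb * (2 ^ (m + 4) * X ^ 2) ^ cb :=
          Nat.mul_le_mul_left _ (Nat.pow_le_pow_left h3 _)
      _ = (Cb * (2 ^ (m + 4)) ^ cb) * X ^ (2 * cb) := by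
          rw [mul_pow, ← pow_mul X, mul_assoc]
      _ ≤ _ := Nat.mul_le_mul (by omega) (Nat.pow_le_pow_right hX1 (by omega))

end Pool.Agent.Work.MP_8da9ea_nt.EB
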