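import Pool.Agent.Work.MP_8da9ea_nt.EB.Defs
import Pool.Agent.Work.MP_8da9ea_nt.MG

/-!
# Elliptic block: statements of the items of Parts G and R (differential algebra) and of the end
-/

set_option autoImplicit false

namespace Pool.Agent.Work.MP_8da9ea_nt.EB

open MvPolynomial Pool.Agent.Work.MP_327059_nt.GL Pool.Agent.Work.MP_8da9ea_nt.S

/-! ## G. Additivity -/

/-- G0: endomorphisms are algebraic and form the field `k` -/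
def S_Kf : Prop := ∀ τ : ℂ, 0 < τ.im → (∀ g : ℂ, IsE τ g → IsAlgebraic ℚ g) ∧
  (∀ g : ℂ, g ∈ kf τ ↔ IsE τ g) ∧ (∀ g : ℂ, IsE τ g → ∃ N : ℕ, N ≠ 0 ∧ IsI τ ((N : ℂ) * g)) ∧
  ∀ g u : ℂ, IsI τ g → u ∈ Lam τ → g * u ∈ Lam τ

/-- G1: `λ` is additive -/
def S_LamAdd : Prop := ∀ (τ μ : ℂ), Nrm τ μ → ∀ (δ : Derivation ℚ ℂ ℂ) (u v : ℂ),
  lam τ μ δ (u + v) = lam τ μ δ u + lam τ μ δ v

/-- G2: `λ` and multiplication by endomorphisms -/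
def S_LamMul : Prop := ∀ (τ μ : ℂ), Nrm τ μ → ∀ (δ : Derivation ℚ ℂ ℂ) (g u : ℂ), IsE τ g →
  lam τ μ δ (g * u) = g * lam τ μ δ u

/-- G3: `η` is additive on derivations killing the quasi-periods -/
def S_EtaAdd : Prop := ∀ (τ μ : ℂ), Nrm τ μ → ∀ δ : Derivation ℚ ℂ ℂ, δ (μ * et τ) = 0 →
  δ (μ * (τ * et τ - kap)) = 0 → ∀ u v : ℂ,
    etf τ μ δ (u + v) = etf τ μ δ u + etf τ μ δ v

/-- G3': `λ_δ(u) = 0` for all `δ` killing `E` means that `u` is rational over `E` -/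
def S_LamZero : Prop := ∀ (τ μ : ℂ), Nrm τ μ → ∀ E : IntermediateField ℚ ℂ, ACl E → ∀ u : ℂ,
  (∀ δ ∈ DK E, lam τ μ δ u = 0) ↔ (u ∈ Lam τ ∨ xe τ μ u ∈ E)

/-- R2: closedness -/
def S_Closed : Prop := ∀ (τ μ : ℂ), Nrm τ μ → ∀ (δ δ' : Derivation ℚ ℂ ℂ) (u : ℂ),
  δ (lam τ μ δ' u) - δ' (lam τ μ δ u) = lam τ μ ⁅δ, δ'⁆ u ∧
  δ (etf τ μ δ' u) - δ' (etf τ μ δ u) = etf τ μ ⁅δ, δ'⁆ u

/-! ## G. Ax type statements -/

/-- G4: embedding of a finitely generated extension into a field of germs -/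
def S_Emb : Prop := ∀ (E : IntermediateField ℚ ℂ), Countable E → ACl E → ∀ (T : Type) [Fintype T]
  (f : T → ℂ), ∃ (u₀ : ℂ) (Φ : IntermediateField.adjoin E (Set.range f) →+* MG u₀),
    (∀ a : E, Φ (algebraMap E _ a) = algebraMap ℂ (MG u₀) (a : ℂ)) ∧
    (∀ (t : T) (x : IntermediateField.adjoin E (Set.range f)), (x : ℂ) = f t →
      ∃ (F : ℂ → ℂ) (hF : AnalyticAt ℂ F u₀), F u₀ = f t ∧ Φ x = MG.mk F hF.meromorphicAt) ∧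
    (∀ (N : ℕ) (a y : Fin N → IntermediateField.adjoin E (Set.range f)),
      (∀ δ ∈ DK E, ∑ i, (a i : ℂ) * δ (y i : ℂ) = 0) →
        ∀ D : Derivation ℂ (MG u₀) (MG u₀), ∑ i, Φ (a i) * D (Φ (y i)) = 0) ∧
    ∀ (N : ℕ) (a y : Fin N → IntermediateField.adjoin E (Set.range f)),
      ∑ i, Φ (a i) * MG.DD (Φ (y i)) = 0 → ∀ δ ∈ DK E, ∑ i, (a i : ℂ) * δ (y i : ℂ) = 0

/-- G5: relations of the first kind -/
def S_AK1 : Prop := ∀ (τ μ : ℂ), Nrm τ μ → ∀ E : IntermediateField ℚ ℂ, Countable E → ACl E →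
  ∀ (N : ℕ) (u c : Fin N → ℂ), (∀ i, ∀ k : ℕ, k ≠ 0 → (k : ℂ) * u i ∉ Lam τ) → (∀ i, c i ∈ E) →
    c ≠ 0 → (∀ δ ∈ DK E, ∑ i, c i * lam τ μ δ (u i) = 0) →
      ∃ g : Fin N → ℂ, g ≠ 0 ∧ (∀ i, IsE τ (g i)) ∧ ∀ δ ∈ DK E, ∑ i, g i * lam τ μ δ (u i) = 0

/-- G5': the relations of the first kind are spanned by the `k`-rational ones -/
def S_AK1s : Prop := ∀ (τ μ : ℂ), Nrm τ μ → ∀ E : IntermediateField ℚ ℂ, Countable E → ACl E →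
  ∀ (N : ℕ) (u c : Fin N → ℂ), (∀ i, ∀ k : ℕ, k ≠ 0 → (k : ℂ) * u i ∉ Lam τ) → (∀ i, c i ∈ E) →
    (∀ δ ∈ DK E, ∑ i, c i * lam τ μ δ (u i) = 0) →
      c ∈ Submodule.span ℂ {g : Fin N → ℂ | (∀ i, IsE τ (g i)) ∧
        ∀ δ ∈ DK E, ∑ i, g i * lam τ μ δ (u i) = 0}

/-- G6: relations of the second kind -/
def S_AK2 : Prop := ∀ (τ μ : ℂ), Nrm τ μ → ∀ E : IntermediateField ℚ ℂ, Countable E → ACl E →
  ∀ u κ : ℂ, κ ∈ E → (∀ δ ∈ DK E, etf τ μ δ u = κ * lam τ μ δ u) → ∀ δ ∈ DK E, lam τ μ δ u = 0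

/-- G7: image of the derivations killing `E` -/
def S_AxImgE : Prop := ∀ (τ μ : ℂ), Nrm τ μ → ∀ (n m k : ℕ) (u : Fin n → Fin m → ℂ)
  (v : Fin n → ℂ) (b : Fin k → ℂ) (E : IntermediateField ℚ ℂ), Countable E → ACl E →
  (∀ i j, ∀ k : ℕ, k ≠ 0 → (k : ℂ) * u i j ∉ Lam τ) →
  (∀ c : ℂ, c ∈ E ↔ ∀ δ ∈ TT v ⊓ TT b, omE τ μ u v δ = 0 → δ c = 0) →
    ∀ β : Fin n → Fin m → ℂ,
      (∀ g : Fin n → Fin m → ℂ, (∀ i j, IsE τ (g i j)) →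
        (∀ δ ∈ DK E, ∑ i, ∑ j, g i j * lam τ μ δ (u i j) = 0) → ∑ i, ∑ j, g i j * β i j = 0) →
      ∃ δ ∈ DK E, omE τ μ u v δ = mv v β

/-- G8: the output of the Ax type argument -/
def S_AxOutE : Prop := ∀ (τ μ : ℂ), Nrm τ μ → ∀ (n m : ℕ) (u : Fin n → Fin m → ℂ)
  (v : Fin n → ℂ) (b : Fin m → ℂ), (∀ i j, ∀ k : ℕ, k ≠ 0 → (k : ℂ) * u i j ∉ Lam τ) →
    ∃ G : Submodule (kf τ) (Fin n → Fin m → kf τ), ∀ (k : ℕ) (f : Fin k → ℂ),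
      (∀ t, ∃ ξ ∈ G, ∑ i, ∑ j, (ξ i j : ℂ) * u i j ∉ Lam τ ∧
        f t = xe τ μ (∑ i, ∑ j, (ξ i j : ℂ) * u i j)) →
      AlgebraicIndependent (IntermediateField.adjoin ℚ (Set.range v ∪ Set.range b)) f →
        k + ugK G v ≤ rkE τ μ u v b

/-- G9: linear algebra over `k` -/
def S_LinAlgK : Prop := ∀ (k : IntermediateField ℚ ℂ), (∀ x ∈ k, IsAlgebraic ℚ x) →
  ∀ (n m : ℕ) (G : Submodule k (Fin n → Fin m → k)) (v : Fin n → ℂ), AlgebraicIndependent ℚ v →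
    ∃ (Cs : Submodule k (Fin m → k)) (Vs : Submodule k (Fin n → k)),
      m ≤ Module.finrank k Cs + ugK G v ∧ n ≤ Module.finrank k Vs + m * m ∧
      ∀ c ∈ Cs, ∀ w ∈ Vs, (fun i j => w i * c j) ∈ G

/-- G10: the rank at a generic point (`x` linearly independent over `k`, (NT)) -/
def S_GCoreE0 : Prop := ∀ (Q m : ℕ), ∃ n₀ : ℕ, ∀ (τ μ : ℂ) (b : Fin m → ℂ), Nrm τ μ → FT Q b →
  KLI τ b → ∀ n : ℕ, n₀ ≤ n → ∀ x : Fin n → ℂ, KLI τ x → NT τ b x → ∀ κ : ℕ, TrLe κ b →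
    ∃ v : Fin n → ℂ, m ≤ 1 + κ + rkE τ μ (fun i j => b j * x i) v b

/-- G10': the rank at a generic point (`x` linearly independent over `ℚ`) -/
def S_GCoreE : Prop := ∀ (Q m : ℕ), ∃ n₀ : ℕ, ∀ (τ μ : ℂ) (b : Fin m → ℂ), Nrm τ μ → FT Q b →
  KLI τ b → ∀ n : ℕ, n₀ ≤ n → ∀ x : Fin n → ℂ, LinearIndependent ℚ x → ∀ κ : ℕ, TrLe κ b →
    ∃ v : Fin n → ℂ, m ≤ 1 + κ + rkE τ μ (fun i j => b j * x i) v b

/-- G11: from the generic point to rational points -/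
def S_GPE : Prop := ∀ (τ μ : ℂ), Nrm τ μ → ∀ (n m ρ : ℕ) (x : Fin n → ℂ) (b : Fin m → ℂ)
  (v : Fin n → ℂ), ρ ≤ rkE τ μ (fun i j => b j * x i) v b →
    ∃ P : MvPolynomial (Fin n) ℂ, P ≠ 0 ∧ P.IsHomogeneous ρ ∧
      ∀ w : Fin n → ℚ, MvPolynomial.eval (fun i => (w i : ℂ)) P ≠ 0 →
        ρ ≤ Module.finrank ℂ ((TT b).map (lamV τ μ (fun j => b j * ∑ i, (w i : ℂ) * x i)))

/-- G12: the rank at rational points -/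
def S_EllRank : Prop := ∀ (Q m : ℕ), ∃ n₀ : ℕ, ∀ (τ μ : ℂ) (b : Fin m → ℂ), Nrm τ μ → FT Q b →
  KLI τ b → ∀ n : ℕ, n₀ ≤ n → ∀ x : Fin n → ℂ, LinearIndependent ℚ x → ∀ κ : ℕ, TrLe κ b →
    ∃ P : MvPolynomial (Fin n) ℂ, P ≠ 0 ∧ P.totalDegree ≤ m ∧
      ∀ w : Fin n → ℚ, MvPolynomial.eval (fun i => (w i : ℂ)) P ≠ 0 →
        m ≤ 1 + κ + Module.finrank ℂ
          ((TT b).map (lamV τ μ (fun j => b j * ∑ i, (w i : ℂ) * x i)))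

/-! ## R. Relative step -/

/-- R1: pencils -/
def S_Pencil : Prop := ∀ (T : Type) [AddCommGroup T] [Module ℂ T] (m : ℕ)
  (A B : T →ₗ[ℂ] (Fin m → ℂ)),
  (∀ c : Fin m → ℚ, ∀ δ δ' : T, (∑ j, (c j : ℂ) * A δ j) * (∑ j, (c j : ℂ) * B δ' j) =
    (∑ j, (c j : ℂ) * A δ' j) * (∑ j, (c j : ℂ) * B δ j)) →
  2 ≤ Module.finrank ℂ (LinearMap.range A) → ∃ κ : ℂ, ∀ δ, B δ = κ • A δ

/-- R3: one elliptic point -/
def S_RelStepE : Prop := ∀ (τ μ : ℂ), Nrm τ μ → ∀ K : IntermediateField ℚ ℂ, Countable K →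
  μ ∈ K → τ ∈ K → et τ ∈ K → kap ∈ K → ∀ (m : ℕ) (β : Fin m → ℂ),
    2 ≤ Module.finrank ℂ ((DK K).map (lamV τ μ β)) →
      ∃ c : Fin m → ℚ, ∃ δ ∈ DK K, ∃ δ' ∈ DK K,
        lam τ μ δ (∑ j, (c j : ℂ) * β j) * etf τ μ δ' (∑ j, (c j : ℂ) * β j) ≠
        lam τ μ δ' (∑ j, (c j : ℂ) * β j) * etf τ μ δ (∑ j, (c j : ℂ) * β j)

/-- The forms `δ(e^{β_j}) / e^{β_j}`. -/
noncomputable def lgV {m : ℕ} (β : Fin m → ℂ) : Derivation ℚ ℂ ℂ →ₗ[ℂ] (Fin m → ℂ) where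
  toFun δ := fun j => δ (Complex.exp (β j)) / Complex.exp (β j)
  map_add' a b := by
    funext j
    simp only [Pi.add_apply, Derivation.add_apply]
    ring
  map_smul' c a := by
    funext j
    simp only [Pi.smul_apply, smul_eq_mul, RingHom.id_apply, Derivation.smul_apply]
    ring

/-- The entries of the matrix of the forms: `δ(e^u)/e^u`, `λ_δ(v)`, `η_δ(v)`. -/
noncomputable def enE (τ μ : ℂ) {r r' : ℕ} (u : Fin r → ℂ) (v : Fin r' → ℂ)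
    (δ : Derivation ℚ ℂ ℂ) : Fin r ⊕ Fin r' × Bool → ℂ :=
  Sum.elim (fun i => δ (Complex.exp (u i)) / Complex.exp (u i))
    (fun q => if q.2 then etf τ μ δ (v q.1) else lam τ μ δ (v q.1))

/-- R4: all points together -/
def S_RelAll : Prop := ∀ (τ μ : ℂ), Nrm τ μ → ∀ K : IntermediateField ℚ ℂ, Countable K →
  μ ∈ K → τ ∈ K → et τ ∈ K → kap ∈ K → ∀ (m r r' : ℕ) (β β' : Fin m → ℂ),
    2 * r' ≤ Module.finrank ℂ ((DK K).map (lamV τ μ β')) →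
    r + 2 * r' ≤ Module.finrank ℂ ((DK K).map (lgV β)) →
      ∃ (c : Fin r → Fin m → ℚ) (c' : Fin r' → Fin m → ℚ)
        (δ : Fin r ⊕ Fin r' × Bool → Derivation ℚ ℂ ℂ), (∀ o, δ o ∈ DK K) ∧
        (Matrix.of fun o o' => enE τ μ (fun i => ∑ j, (c i j : ℂ) * β j)
          (fun i => ∑ j, (c' i j : ℂ) * β' j) (δ o) o').det ≠ 0

/-- R5: the polynomial of the good pairs `(c, c')` -/
def S_RelPol : Prop := ∀ (τ μ : ℂ), Nrm τ μ → ∀ K : IntermediateField ℚ ℂ,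
  μ ∈ K → τ ∈ K → et τ ∈ K → kap ∈ K → ∀ (m r r' : ℕ) (β β' : Fin m → ℂ)
    (c₀ : Fin r → Fin m → ℚ) (c₀' : Fin r' → Fin m → ℚ)
    (δ : Fin r ⊕ Fin r' × Bool → Derivation ℚ ℂ ℂ), (∀ o, δ o ∈ DK K) →
    (Matrix.of fun o o' => enE τ μ (fun i => ∑ j, (c₀ i j : ℂ) * β j)
      (fun i => ∑ j, (c₀' i j : ℂ) * β' j) (δ o) o').det ≠ 0 →
    ∃ P : MvPolynomial (Fin r × Fin m ⊕ Fin r' × Fin m) ℂ, P ≠ 0 ∧ P.IsHomogeneous (r + 2 * r') ∧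
      ∀ (c : Fin r → Fin m → ℚ) (c' : Fin r' → Fin m → ℚ),
        MvPolynomial.eval (Sum.elim (fun q => (c q.1 q.2 : ℂ)) (fun q => (c' q.1 q.2 : ℂ))) P ≠ 0 →
        (∀ i, ∑ j, (c' i j : ℂ) * β' j ∉ Lam τ) ∧
        AlgebraicIndependent K (fun o : Fin r ⊕ Fin r' × Bool =>
          Sum.elim (fun i => Complex.exp (∑ j, (c i j : ℂ) * β j))
            (fun q : Fin r' × Bool => if q.2 then ze τ μ (∑ j, (c' q.1 j : ℂ) * β' j)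
              else xe τ μ (∑ j, (c' q.1 j : ℂ) * β' j)) o)

/-! ## Final -/

/-- F1: the rank of the toric forms from Schanuel's inequality -/
def S_TorRank : Prop := ∀ (m κ : ℕ) (b : Fin m → ℂ) (z : ℂ), Sch b z → TrLe κ b →
  m ≤ κ + 1 + Module.finrank ℂ ((TT b).map (lgV (fun j => b j * z)))

/-- F2: normalisation -/
def S_Norm : Prop := ∀ τ : ℂ, 0 < τ.im → IsAlgebraic ℚ (jInv 1 τ) →
  ∃ μ : ℂ, Nrm τ μ ∧ ∀ K : IntermediateField ℚ ℂ, gg2 τ ∈ K → gg3 τ ∈ K → IsAlgebraic K μ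

/-- The final theorem for one lattice and a point `z` at which both ranks are large. -/
def S_FinalZ : Prop := ∀ (m κ r r' N : ℕ) (b : Fin m → ℂ) (z ω₁ ω₂ : ℂ),
  r + 2 * r' + N + κ + 1 ≤ m → TrLe κ b →
  m ≤ κ + 1 + Module.finrank ℂ ((TT b).map (lgV (fun j => b j * z))) →
  (0 < r' → ∃ τ μ : ℂ, Nrm τ μ ∧ (ω₂ = ω₁ * τ ∨ ω₂ = -(ω₁ * τ)) ∧ ω₁ ≠ 0 ∧
    (∀ K : IntermediateField ℚ ℂ, gg2 τ ∈ K → gg3 τ ∈ K → IsAlgebraic K μ) ∧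
    m ≤ 1 + κ + Module.finrank ℂ ((TT b).map (lamV τ μ (fun j => b j * (z / ω₁))))) →
  ∀ (s k : ℕ) (t : Fin s → ℂ) (p : Fin k → ℂ), ¬ HasTrdeg (bigField ω₁ ω₂ t p) (N + 1) →
    ∃ P : MvPolynomial (Fin r × Fin m ⊕ Fin r' × Fin m) ℂ, P ≠ 0 ∧ P.IsHomogeneous (r + 2 * r') ∧
      ∀ (c : Fin r → Fin m → ℚ) (c' : Fin r' → Fin m → ℚ),
        MvPolynomial.eval (Sum.elim (fun q => (c q.1 q.2 : ℂ)) (fun q => (c' q.1 q.2 : ℂ))) P ≠ 0 →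
        ∀ (u : Fin r → ℂ) (v : Fin r' → ℂ), (∀ i, u i = (∑ j, (c i j : ℂ) * b j) * z) →
          (∀ i, v i = (∑ j, (c' i j : ℂ) * b j) * z) →
          (∀ d, HasTrdeg (bigField ω₁ ω₂ t p) d →
            HasTrdeg (bigField ω₁ ω₂ (Fin.append t u) (Fin.append p v)) (d + r + 2 * r')) ∧
          (Q1 ω₁ ω₂ t p → Q1 ω₁ ω₂ (Fin.append t u) (Fin.append p v))

end Pool.Agent.Work.MP_8da9ea_nt.EB
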