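import Mathlib
import Pool.Agent.Work.MP_8da9ea_nt.S.Defs
import Pool.Agent.Work.MP_8da9ea_nt.OdeD
import Pool.Agent.Work.MP_8da9ea_nt.Stmt5

/-!
# Elliptic block: definitions

Throughout `Lam τ = ℤ + ℤτ`, `wp 1 τ`, `wpd τ`, `zt 1 τ` are the Weierstrass functions `℘`, `℘'`, `ζ` of
this lattice, `gg2 τ`, `gg3 τ` its invariants.
-/

set_option autoImplicit false

namespace Pool.Agent.Work.MP_8da9ea_nt.EB

open MvPolynomial Pool.Agent.Work.MP_327059_nt.GL Pool.Agent.Work.MP_8da9ea_nt.S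

/-! ## The lattice, normalised functions -/

/-- `μ⁻¹ (ℤ + ℤτ)` has algebraic invariants. -/
structure Nrm (τ μ : ℂ) : Prop where
  im : 0 < τ.im
  mu : μ ≠ 0
  g2 : IsAlgebraic ℚ (μ ^ 4 * gg2 τ)
  g3 : IsAlgebraic ℚ (μ ^ 6 * gg3 τ)

/-- `X(u) = μ² ℘(u)`. -/
noncomputable def xe (τ μ u : ℂ) : ℂ := μ ^ 2 * wp 1 τ u

/-- `Y(u) = μ³ ℘'(u)`. -/
noncomputable def ye (τ μ u : ℂ) : ℂ := μ ^ 3 * wpd τ u

/-- `Z(u) = μ ζ(u)`. -/
noncomputable def ze (τ μ u : ℂ) : ℂ := μ * zt 1 τ u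

/-- Distance to the lattice, cut off at `1`. -/
noncomputable def d1 (τ u : ℂ) : ℝ := min 1 (Metric.infDist u (Lam τ))

/-- Integral endomorphisms of the lattice. -/
def IsI (τ g : ℂ) : Prop := g ∈ Lam τ ∧ g * τ ∈ Lam τ

/-- Endomorphisms up to denominators: the field `k`. -/
def IsE (τ g : ℂ) : Prop := ∃ N : ℤ, N ≠ 0 ∧ (N : ℂ) * g ∈ Lam τ ∧ (N : ℂ) * g * τ ∈ Lam τ

/-- Linear independence over the field `k`. -/
def KLI (τ : ℂ) {m : ℕ} (b : Fin m → ℂ) : Prop :=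
  ∀ g : Fin m → ℂ, (∀ j, IsE τ (g j)) → ∑ j, g j * b j = 0 → g = 0

/-- `x_s = ∑ s_i x_i`. -/
noncomputable def cmb {n : ℕ} (s : Fin n → ℤ) (x : Fin n → ℂ) : ℂ := ∑ i, (s i : ℂ) * x i

/-- `u_{s,j} = ∑ s_i u_ij`. -/
noncomputable def pc {n m : ℕ} (u : Fin n → Fin m → ℂ) (s : Fin n → ℤ) (j : Fin m) : ℂ :=
  ∑ i, (s i : ℂ) * u i j

/-- No `b_j x_s`, `s ≠ 0`, is a lattice point. -/
def NT (τ : ℂ) {n m : ℕ} (b : Fin m → ℂ) (x : Fin n → ℂ) : Prop :=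
  ∀ s : Fin n → ℤ, s ≠ 0 → ∀ j, b j * cmb s x ∉ Lam τ

/-- The number of relations `∑ w_j u_{s,j} ∈ Λ`, `|s| ≤ S`. -/
noncomputable def cntR (τ : ℂ) {n m : ℕ} (S : ℕ) (u : Fin n → Fin m → ℂ) (w : Fin m → ℂ) : ℕ :=
  Set.ncard {s : Fin n → ℤ | (∀ i, |s i| ≤ (S : ℤ)) ∧ ∑ j, w j * pc u s j ∈ Lam τ}

/-! ## Zero estimate -/

/-- Signs. -/
def sg (e : Bool) : ℂ := if e then 1 else -1

/-- The point `(℘(y), ℘(v_1), …, ℘(v_m))`. -/
noncomputable def pw (τ : ℂ) {m : ℕ} (v : Fin m → ℂ) (y : ℂ) : Fin (m + 1) → ℂ :=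
  Fin.cons (wp 1 τ y) (fun i => wp 1 τ (v i))

/-- Zeros of `F` at `(v + h, y + δ)` give zeros of `G` at `(v, y)`. -/
def Tr1 (τ : ℂ) {m : ℕ} (F G : MvPolynomial (Fin (m + 1)) ℂ) (δ : ℂ) (h : Fin m → ℂ) : Prop :=
  ∀ (v : Fin m → ℂ) (y : ℂ), (∀ i, v i ∉ Lam τ) → y ∉ Lam τ → (∀ i, v i + h i ∉ Lam τ) →
    y + δ ∉ Lam τ → eval (pw τ (fun i => v i + h i) (y + δ)) F = 0 → eval (pw τ v y) G = 0

/-- Zeros of `G` at `(v, y)` give zeros of `F` at `(v ± h, y ± δ)` for some signs. -/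
def Tr2 (τ : ℂ) {m : ℕ} (F G : MvPolynomial (Fin (m + 1)) ℂ) (δ : ℂ) (h : Fin m → ℂ) : Prop :=
  ∀ (v : Fin m → ℂ) (y : ℂ), (∀ i, v i ∉ Lam τ) → y ∉ Lam τ → (∀ i, v i + h i ∉ Lam τ) →
    (∀ i, v i - h i ∉ Lam τ) → y + δ ∉ Lam τ → y - δ ∉ Lam τ → eval (pw τ v y) G = 0 →
      ∃ (e : Fin m → Bool) (e0 : Bool),
        eval (pw τ (fun i => v i + sg (e i) * h i) (y + sg e0 * δ)) F = 0

/-- The zero estimate for `m` functions. -/
def ZEE (m : ℕ) : Prop := ∃ c : ℕ, ∀ τ : ℂ, 0 < τ.im → ∀ n : ℕ, ∃ C : ℕ, 1 ≤ C ∧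
  ∀ (S B K : ℕ) (a : Fin m → ℂ) (u : Fin n → Fin m → ℂ) (A : Finset (Fin n → ℤ))
    (F : MvPolynomial (Fin m) ℂ), 1 ≤ B → 1 ≤ K → (∀ s ∈ A, ∀ i, 0 ≤ s i ∧ s i ≤ (S : ℤ)) →
    (S + 1) ^ n ≤ K * A.card → F ≠ 0 → (∀ i, F.degreeOf i ≤ B) →
    (∀ s ∈ A, (∀ j, a j + pc u s j ∉ Lam τ) ∧ eval (fun j => wp 1 τ (a j + pc u s j)) F = 0) →
      ∃ w : Fin m → ℂ, w ≠ 0 ∧ (∀ j, IsI τ (w j)) ∧
        (∀ j, ‖w j‖ ≤ ((C * (2 * B * K) ^ c : ℕ) : ℝ)) ∧
        (S + 1) ^ n ≤ C * (2 * B * K) ^ c * cntR τ (c * S) u w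

/-! ## Points, triples -/

/-- The variables: `G2, G3` and `X_ij, Y_ij`. -/
abbrev VI (n m : ℕ) : Type := Fin 2 ⊕ (Fin n × Fin m × Bool)

/-- The point with coordinates `G2`, `G3`, `X(u_ij)`, `Y(u_ij)`. -/
noncomputable def ptE (τ μ : ℂ) {n m : ℕ} (u : Fin n → Fin m → ℂ) : VI n m → ℂ :=
  Sum.elim (fun q => if q = 0 then μ ^ 4 * gg2 τ else μ ^ 6 * gg3 τ)
    (fun p => if p.2.2 then ye τ μ (u p.1 p.2.1) else xe τ μ (u p.1 p.2.1))

/-- The numbers `X(b_j x_i)`. -/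
noncomputable def tx (τ μ : ℂ) {n m : ℕ} (b : Fin m → ℂ) (x : Fin n → ℂ) : Fin n × Fin m → ℂ :=
  fun q => xe τ μ (b q.2 * x q.1)

/-- Triples `(A, B, Z)` of integer polynomials. -/
structure Tri (n m : ℕ) where
  A : MvPolynomial (VI n m) ℤ
  B : MvPolynomial (VI n m) ℤ
  Z : MvPolynomial (VI n m) ℤ

/-- The coordinates of the `i`-th point. -/
noncomputable def baseT {n m : ℕ} (j : Fin m) (i : Fin n) : Tri n m where
  A := X (Sum.inr (i, j, false))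
  B := X (Sum.inr (i, j, true))
  Z := 1

/-- The opposite point. -/
noncomputable def negT {n m : ℕ} (V : Tri n m) : Tri n m where
  A := V.A
  B := -V.B
  Z := V.Z

/-- The generic addition formula. -/
noncomputable def addT {n m : ℕ} (V W : Tri n m) : Tri n m where
  A := (V.A * W.Z - W.A * V.Z) * ((V.B * W.Z - W.B * V.Z) ^ 2 * V.Z * W.Z -
    4 * (V.A * W.Z - W.A * V.Z) ^ 2 * (V.A * W.Z + W.A * V.Z))
  B := (V.B * W.Z - W.B * V.Z) * (4 * (V.A * W.Z - W.A * V.Z) ^ 2 * (2 * V.A * W.Z + W.A * V.Z) -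
    (V.B * W.Z - W.B * V.Z) ^ 2 * V.Z * W.Z) - 4 * (V.A * W.Z - W.A * V.Z) ^ 3 * V.B * W.Z
  Z := 4 * (V.A * W.Z - W.A * V.Z) ^ 3 * V.Z * W.Z

/-- The triples for `u_{s,j}` obtained by the generic addition formula. -/
inductive VP {n m : ℕ} (j : Fin m) : (Fin n → ℤ) → Tri n m → Prop
  | base (i : Fin n) : VP j (Pi.single i 1) (baseT j i)
  | neg (s : Fin n → ℤ) (V : Tri n m) : VP j s V → VP j (-s) (negT V)
  | add (s t : Fin n → ℤ) (V W : Tri n m) : VP j s V → VP j t W → s + t ≠ 0 → s - t ≠ 0 →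
      VP j (s + t) (addT V W)

/-- `V` represents the point `z` at `θ`. -/
structure Val (τ μ : ℂ) {n m : ℕ} (θ : VI n m → ℂ) (z : ℂ) (V : Tri n m) : Prop where
  nl : z ∉ Lam τ
  z0 : aeval θ V.Z ≠ 0
  a : aeval θ V.A = aeval θ V.Z * xe τ μ z
  b : aeval θ V.B = aeval θ V.Z * ye τ μ z

/-- Size of a polynomial. -/
def SizP {σ : Type} (h : ℝ) (P : MvPolynomial σ ℤ) : Prop :=
  (P.totalDegree : ℝ) ≤ h ∧ len P ≤ Real.exp h

/-- Size of a triple. -/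
structure Siz {n m : ℕ} (h : ℝ) (V : Tri n m) : Prop where
  A : SizP h V.A
  B : SizP h V.B
  Z : SizP h V.Z

/-- The integer polynomial of the auxiliary function. -/
noncomputable def PE {n m G W : ℕ} (p : (Fin G → Fin m → Fin W) → ℤ) (V : Fin G → Fin m → Tri n m) :
    MvPolynomial (VI n m) ℤ :=
  ∑ x : Fin G → Fin m → Fin W, C (p x) * ∏ r, ∏ j,
    ((V r j).A ^ (x r j : ℕ) * (V r j).Z ^ (W - (x r j : ℕ)))

/-- The auxiliary function `∑ p_x ∏ X(b_j z_r)^{x_rj}`. -/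
noncomputable def AF (τ μ : ℂ) {m G W : ℕ} (b : Fin m → ℂ) (p : (Fin G → Fin m → Fin W) → ℤ)
    (z : Fin G → ℂ) : ℂ :=
  ∑ x : Fin G → Fin m → Fin W, (p x : ℂ) * ∏ r, ∏ j, xe τ μ (b j * z r) ^ (x r j : ℕ)

/-! ## Derivations -/

/-- The invariant differential `δX(u) / Y(u)`. -/
noncomputable def lam (τ μ : ℂ) (δ : Derivation ℚ ℂ ℂ) (u : ℂ) : ℂ :=
  open Classical in if u ∈ Lam τ then 0 else δ (xe τ μ u) / ye τ μ u

/-- The invariant form of the universal extension, `δZ(u) + X(u) δX(u) / Y(u)`. -/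
noncomputable def etf (τ μ : ℂ) (δ : Derivation ℚ ℂ ℂ) (u : ℂ) : ℂ :=
  open Classical in if u ∈ Lam τ then 0 else δ (ze τ μ u) + xe τ μ u * lam τ μ δ u

/-- The forms `ω_j = ∑ v_i δX/Y(u_ij)`. -/
noncomputable def omE (τ μ : ℂ) {n m : ℕ} (u : Fin n → Fin m → ℂ) (v : Fin n → ℂ) :
    Derivation ℚ ℂ ℂ →ₗ[ℂ] (Fin m → ℂ) where
  toFun δ := fun j => ∑ i, v i * lam τ μ δ (u i j)
  map_add' a b := by
    funext j
    simp only [Pi.add_apply]
    rw [← Finset.sum_add_distrib]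
    refine Finset.sum_congr rfl fun i _ => ?_
    unfold lam
    split_ifs
    · ring
    · rw [Derivation.add_apply]
      ring
  map_smul' c a := by
    funext j
    simp only [Pi.smul_apply, smul_eq_mul, RingHom.id_apply]
    rw [Finset.mul_sum]
    refine Finset.sum_congr rfl fun i _ => ?_
    unfold lam
    split_ifs
    · ring
    · rw [Derivation.smul_apply, smul_eq_mul]
      ring

/-- Their rank on the derivations killing `v` and `b`. -/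
noncomputable def rkE (τ μ : ℂ) {n m : ℕ} (u : Fin n → Fin m → ℂ) (v : Fin n → ℂ)
    (b : Fin m → ℂ) : ℕ :=
  Module.finrank ℂ ((TT v ⊓ TT b).map (omE τ μ u v))

/-- The field `k`. -/
noncomputable def kf (τ : ℂ) : IntermediateField ℚ ℂ := IntermediateField.adjoin ℚ {g | IsE τ g}

/-- Complex annihilator of a space of matrices over a subfield. -/
def annK {k : IntermediateField ℚ ℂ} {n m : ℕ} (G : Submodule k (Fin n → Fin m → k)) :
    Submodule ℂ (Fin n → Fin m → ℂ) where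
  carrier := {b | ∀ ξ ∈ G, ∑ i, ∑ j, (ξ i j : ℂ) * b i j = 0}
  add_mem' {a b} ha hb ξ hξ := by
    have h1 := ha ξ hξ
    have h2 := hb ξ hξ
    simp only [Pi.add_apply, mul_add, Finset.sum_add_distrib, h1, h2, add_zero]
  zero_mem' ξ _ := by simp
  smul_mem' c a ha ξ hξ := by
    have h1 := ha ξ hξ
    have h2 : ∑ i, ∑ j, (ξ i j : ℂ) * (c • a) i j = c * ∑ i, ∑ j, (ξ i j : ℂ) * a i j := by
      rw [Finset.mul_sum]
      refine Finset.sum_congr rfl fun i _ => ?_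
      rw [Finset.mul_sum]
      refine Finset.sum_congr rfl fun j _ => ?_
      simp only [Pi.smul_apply, smul_eq_mul]
      ring
    rw [h2, h1, mul_zero]

/-- Dimension of the image of the annihilator at `v`. -/
noncomputable def ugK {k : IntermediateField ℚ ℂ} {n m : ℕ} (G : Submodule k (Fin n → Fin m → k))
    (v : Fin n → ℂ) : ℕ :=
  Module.finrank ℂ ((annK G).map (mv v))

/-- The derivations of `ℂ` killing a subfield. -/
def DK (K : IntermediateField ℚ ℂ) : Submodule ℂ (Derivation ℚ ℂ ℂ) where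
  carrier := {δ | ∀ x ∈ K, δ x = 0}
  add_mem' {a b} ha hb x hx := by
    rw [Derivation.add_apply, ha x hx, hb x hx, add_zero]
  zero_mem' x _ := by simp
  smul_mem' c a ha x hx := by
    rw [Derivation.smul_apply, ha x hx, smul_zero]

/-- The forms `(λ_δ(β_j))_j`. -/
noncomputable def lamV (τ μ : ℂ) {m : ℕ} (β : Fin m → ℂ) : Derivation ℚ ℂ ℂ →ₗ[ℂ] (Fin m → ℂ) where
  toFun δ := fun j => lam τ μ δ (β j)
  map_add' a b := by
    funext j
    simp only [Pi.add_apply]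
    unfold lam
    split_ifs
    · ring
    · rw [Derivation.add_apply]
      ring
  map_smul' c a := by
    funext j
    simp only [Pi.smul_apply, smul_eq_mul, RingHom.id_apply]
    unfold lam
    split_ifs
    · ring
    · rw [Derivation.smul_apply, smul_eq_mul]
      ring

/-- Algebraically closed in `ℂ`. -/
def ACl (E : IntermediateField ℚ ℂ) : Prop := ∀ x : ℂ, IsAlgebraic E x → x ∈ E

end Pool.Agent.Work.MP_8da9ea_nt.EB
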