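import Pool.Agent.Work.MP_8da9ea_nt.EB.StmtsT
import Pool.Agent.Work.MP_8da9ea_nt.Bd.B01

/-!
# Elliptic block: generic points, roots in the first variable (shared lemmas of group C)
-/

set_option autoImplicit false

namespace Pool.Agent.Work.MP_8da9ea_nt.EB.Gen

open MvPolynomial Metric Filter Topology Pool.Agent.Work.MP_8da9ea_nt
  Pool.Agent.Work.MP_8da9ea_nt.EB

variable {m : ℕ} {τ : ℂ}

lemma wp_image_infinite (hτ : 0 < τ.im) {z : ℂ} (hz : z ∉ Lam τ) {U : Set ℂ} (hU : U ∈ 𝓝 z) :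
    (wp 1 τ '' U).Infinite := Fx.ef_image_infinite hτ true hz hU

lemma dense_compl_Lam (τ : ℂ) : Dense (Lam τ)ᶜ :=
  (Lam_countable τ).dense_compl ℝ

/-- regular points in an open set where a polynomial does not vanish -/
lemma exists_ne (hτ : 0 < τ.im) {U : Set (Fin m → ℂ)} (hU : IsOpen U) (hne : U.Nonempty)
    {F : MvPolynomial (Fin m) ℂ} (hF : F ≠ 0) :
    ∃ v ∈ U, (∀ j, v j ∉ Lam τ) ∧ eval (fun j => wp 1 τ (v j)) F ≠ 0 := by
  obtain ⟨v₀, hv₀⟩ := hne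
  obtain ⟨ε, hε, hball⟩ := Metric.isOpen_iff.1 hU v₀ hv₀
  by_contra hcon
  push Not at hcon
  apply hF
  have hs : ∀ j : Fin m, (wp 1 τ '' (ball (v₀ j) ε ∩ (Lam τ)ᶜ)).Infinite := by
    intro j
    obtain ⟨z, hz1, hz2⟩ := (dense_compl_Lam τ).inter_open_nonempty (ball (v₀ j) ε) isOpen_ball
      ⟨v₀ j, mem_ball_self hε⟩
    exact wp_image_infinite hτ hz2 ((isOpen_ball.inter (Lam_closed hτ).isOpen_compl).mem_nhds
      ⟨hz1, hz2⟩)
  refine MvPolynomial.funext_set (fun j => wp 1 τ '' (ball (v₀ j) ε ∩ (Lam τ)ᶜ)) hs ?_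
  intro x hx
  have hx' : ∀ j, ∃ z ∈ ball (v₀ j) ε ∩ (Lam τ)ᶜ, wp 1 τ z = x j := fun j => hx j (Set.mem_univ j)
  choose z hz1 hz2 using hx'
  have h1 := hcon z (hball (by
    rw [mem_ball, dist_pi_lt_iff hε]
    exact fun j => (hz1 j).1)) (fun j => (hz1 j).2)
  rw [map_zero, ← h1, show (fun j => wp 1 τ (z j)) = x from _root_.funext hz2]

lemma wp_continuousAt (hτ : 0 < τ.im) {z : ℂ} (hz : z ∉ Lam τ) : ContinuousAt (wp 1 τ) z :=
  (hasDerivAt_wp_z hτ hz).continuousAt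

lemma isOpen_off (hτ : 0 < τ.im) (h : Fin m → ℂ) :
    IsOpen {v : Fin m → ℂ | ∀ j, v j + h j ∉ Lam τ} := by
  have h1 : {v : Fin m → ℂ | ∀ j, v j + h j ∉ Lam τ} =
      ⋂ j, (fun v : Fin m → ℂ => v j + h j) ⁻¹' (Lam τ)ᶜ := by
    ext v
    simp
  rw [h1]
  exact isOpen_iInter_of_finite fun j => (Lam_closed hτ).isOpen_compl.preimage (by fun_prop)

/-- The regular points where `F` does not vanish (translated by `h`). -/
def gs (τ : ℂ) (F : MvPolynomial (Fin m) ℂ) (h : Fin m → ℂ) : Set (Fin m → ℂ) :=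
  {v | (∀ j, v j + h j ∉ Lam τ) ∧ eval (fun j => wp 1 τ (v j + h j)) F ≠ 0}

lemma continuousAt_eval (hτ : 0 < τ.im) (F : MvPolynomial (Fin m) ℂ) (h : Fin m → ℂ)
    {v : Fin m → ℂ} (hv : ∀ j, v j + h j ∉ Lam τ) :
    ContinuousAt (fun v : Fin m → ℂ => eval (fun j => wp 1 τ (v j + h j)) F) v := by
  have h1 : ContinuousAt (fun v : Fin m → ℂ => (fun j => wp 1 τ (v j + h j))) v := by
    rw [continuousAt_pi]
    intro j
    exact (wp_continuousAt hτ (hv j)).comp (f := fun v : Fin m → ℂ => v j + h j)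
      (Continuous.continuousAt (by fun_prop))
  exact (MvPolynomial.continuous_eval F).continuousAt.comp h1

lemma isOpen_gs (hτ : 0 < τ.im) (F : MvPolynomial (Fin m) ℂ) (h : Fin m → ℂ) :
    IsOpen (gs τ F h) := by
  rw [isOpen_iff_mem_nhds]
  rintro v ⟨h1, h2⟩
  filter_upwards [(isOpen_off hτ h).mem_nhds h1,
    (continuousAt_eval hτ F h h1).eventually_ne h2] with w h3 h4
  exact ⟨h3, h4⟩

lemma dense_gs (hτ : 0 < τ.im) {F : MvPolynomial (Fin m) ℂ} (hF : F ≠ 0) (h : Fin m → ℂ) :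
    Dense (gs τ F h) := by
  rw [dense_iff_inter_open]
  intro U hU hne
  obtain ⟨v, hv1, hv2, hv3⟩ := exists_ne hτ (U := (fun v : Fin m → ℂ => v - h) ⁻¹' U)
    (hU.preimage (by fun_prop)) (by
      obtain ⟨v, hv⟩ := hne
      exact ⟨v + h, by simpa using hv⟩) hF
  refine ⟨v - h, hv1, fun j => ?_, ?_⟩
  · simpa using hv2 j
  · simpa using hv3

lemma isOpen_aff (hτ : 0 < τ.im) (α : Fin m → ℂ) (c : ℂ) :
    IsOpen {v : Fin m → ℂ | c + ∑ j, α j * v j ∉ Lam τ} :=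
  (Lam_closed hτ).isOpen_compl.preimage (f := fun v : Fin m → ℂ => c + ∑ j, α j * v j)
    (by fun_prop)

lemma dense_aff (α : Fin m → ℂ) (c : ℂ) (h : α ≠ 0 ∨ c ∉ Lam τ) :
    Dense {v : Fin m → ℂ | c + ∑ j, α j * v j ∉ Lam τ} := by
  by_cases hα : α = 0
  · have h1 : {v : Fin m → ℂ | c + ∑ j, α j * v j ∉ Lam τ} = Set.univ := by
      ext v
      simp only [Set.mem_ofPred_eq, Set.mem_univ, iff_true]
      rw [hα]
      simpa [hα] using h
    rw [h1]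
    exact dense_univ
  obtain ⟨j, hj⟩ := Function.ne_iff.1 hα
  rw [dense_iff_inter_open]
  rintro U hU ⟨v, hv⟩
  have h1 : ContinuousAt (fun t : ℂ => v + t • (Pi.single j 1 : Fin m → ℂ)) 0 :=
    Continuous.continuousAt (by fun_prop)
  have h2 : (fun t : ℂ => v + t • (Pi.single j 1 : Fin m → ℂ)) ⁻¹' U ∈ 𝓝 (0 : ℂ) :=
    h1.preimage_mem_nhds (by simpa using hU.mem_nhds hv)
  obtain ⟨r, hr, hb⟩ := Metric.mem_nhds_iff.1 h2
  have h3 : ({t : ℂ | c + ∑ l, α l * (v + t • (Pi.single j 1 : Fin m → ℂ)) l ∈ Lam τ}).Countable := by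
    have h4 : Function.Injective
        (fun t : ℂ => c + ∑ l, α l * (v + t • (Pi.single j 1 : Fin m → ℂ)) l) := by
      intro t t' htt
      simp only [Pi.add_apply, Pi.smul_apply, smul_eq_mul, mul_add, Finset.sum_add_distrib,
        Pi.single_apply, mul_ite, mul_one, mul_zero, Finset.sum_ite_eq', Finset.mem_univ,
        if_true] at htt
      have h5 : α j * t = α j * t' := by linear_combination htt
      exact mul_left_cancel₀ hj h5
    exact (Lam_countable τ).preimage h4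
  obtain ⟨t, ht1, ht2⟩ := (h3.dense_compl ℝ).inter_open_nonempty (ball (0 : ℂ) r) isOpen_ball
    ⟨0, mem_ball_self hr⟩
  exact ⟨_, hb ht1, ht2⟩

/-- **Generic points.** -/
theorem generic (hτ : 0 < τ.im) {U : Set (Fin m → ℂ)} (hU : IsOpen U) (hne : U.Nonempty)
    {ι κ : Type} [Countable ι] [Countable κ] (F : ι → MvPolynomial (Fin m) ℂ)
    (h : ι → Fin m → ℂ) (α : κ → Fin m → ℂ) (c : κ → ℂ) (hF : ∀ k, F k ≠ 0)
    (hα : ∀ k, α k ≠ 0 ∨ c k ∉ Lam τ) :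
    ∃ v ∈ U, (∀ j, v j ∉ Lam τ) ∧
      (∀ k, (∀ j, v j + h k j ∉ Lam τ) ∧ eval (fun j => wp 1 τ (v j + h k j)) (F k) ≠ 0) ∧
      ∀ k, c k + ∑ j, α k j * v j ∉ Lam τ := by
  let s : Option (ι ⊕ κ) → Set (Fin m → ℂ)
    | none => gs τ 1 0
    | some (Sum.inl k) => gs τ (F k) (h k)
    | some (Sum.inr k) => {v : Fin m → ℂ | c k + ∑ j, α k j * v j ∉ Lam τ}
  have h1 : ∀ o, IsOpen (s o) := by
    rintro (_ | k | k)
    · exact isOpen_gs hτ _ _
    · exact isOpen_gs hτ _ _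
    · exact isOpen_aff hτ _ _
  have h2 : ∀ o, Dense (s o) := by
    rintro (_ | k | k)
    · exact dense_gs hτ one_ne_zero _
    · exact dense_gs hτ (hF k) _
    · exact dense_aff _ _ (hα k)
  obtain ⟨v, hv1, hv2⟩ := (dense_iInter_of_isOpen h1 h2).inter_open_nonempty U hU hne
  rw [Set.mem_iInter] at hv2
  refine ⟨v, hv1, fun j => ?_, fun k => hv2 (some (Sum.inl k)), fun k => hv2 (some (Sum.inr k))⟩
  have h3 := (hv2 none).1 j
  simpa using h3

/-! ### The first variable -/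

/-- The leading coefficient with respect to `x_0`. -/
noncomputable def lc0 (F : MvPolynomial (Fin (m + 1)) ℂ) : MvPolynomial (Fin m) ℂ :=
  (finSuccEquiv ℂ m F).leadingCoeff

lemma eval_cons (F : MvPolynomial (Fin (m + 1)) ℂ) (y : ℂ) (x : Fin m → ℂ) :
    eval (Fin.cons (α := fun _ => ℂ) y x) F =
      Polynomial.eval y ((finSuccEquiv ℂ m F).map (eval x)) :=
  MvPolynomial.eval_eq_eval_mv_eval' x y F

lemma natDegree_fs (F : MvPolynomial (Fin (m + 1)) ℂ) :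
    (finSuccEquiv ℂ m F).natDegree = F.degreeOf 0 := natDegree_finSuccEquiv F

lemma lc0_ne {F : MvPolynomial (Fin (m + 1)) ℂ} (hF : F ≠ 0) : lc0 F ≠ 0 := by
  rw [lc0, Ne, Polynomial.leadingCoeff_eq_zero]
  exact (map_ne_zero_iff _ (finSuccEquiv ℂ m).injective).2 hF

lemma ne_of_lc0 {F : MvPolynomial (Fin (m + 1)) ℂ} (hF : lc0 F ≠ 0) : F ≠ 0 := by
  rintro rfl
  apply hF
  rw [lc0, map_zero, Polynomial.leadingCoeff_zero]

lemma lc0_mul (F G : MvPolynomial (Fin (m + 1)) ℂ) : lc0 (F * G) = lc0 F * lc0 G := by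
  rw [lc0, map_mul, Polynomial.leadingCoeff_mul]
  rfl

lemma lc0_degreeOf (F : MvPolynomial (Fin (m + 1)) ℂ) (j : Fin m) :
    (lc0 F).degreeOf j ≤ F.degreeOf j.succ := by
  rw [lc0, Polynomial.leadingCoeff]
  exact degreeOf_coeff_finSuccEquiv F j _

section
variable {F : MvPolynomial (Fin (m + 1)) ℂ} {x : Fin m → ℂ}

lemma map_natDegree (hx : eval x (lc0 F) ≠ 0) :
    ((finSuccEquiv ℂ m F).map (eval x)).natDegree = F.degreeOf 0 := by
  rw [← natDegree_fs F]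
  exact Polynomial.natDegree_map_of_leadingCoeff_ne_zero _ hx

lemma map_ne (hx : eval x (lc0 F) ≠ 0) : (finSuccEquiv ℂ m F).map (eval x) ≠ 0 := by
  intro h
  apply hx
  have h1 := congrArg (fun p : Polynomial ℂ => p.coeff (finSuccEquiv ℂ m F).natDegree) h
  simp only [Polynomial.coeff_map, Polynomial.coeff_zero] at h1
  exact h1

/-- The roots of `F(·, x)`. -/
noncomputable def rts (F : MvPolynomial (Fin (m + 1)) ℂ) (x : Fin m → ℂ) : Finset ℂ :=
  ((finSuccEquiv ℂ m F).map (eval x)).roots.toFinset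

lemma mem_rts (hx : eval x (lc0 F) ≠ 0) {y : ℂ} :
    y ∈ rts F x ↔ eval (Fin.cons (α := fun _ => ℂ) y x) F = 0 := by
  rw [rts, Multiset.mem_toFinset, Polynomial.mem_roots (map_ne hx), Polynomial.IsRoot, eval_cons]

lemma card_rts (hx : eval x (lc0 F) ≠ 0) : (rts F x).card ≤ F.degreeOf 0 := by
  rw [← map_natDegree hx]
  exact (Multiset.toFinset_card_le _).trans (Polynomial.card_roots' _)

/-- a factor of positive degree has a root -/
lemma exists_root (hx : eval x (lc0 F) ≠ 0) {g : MvPolynomial (Fin (m + 1)) ℂ} (hg : g ∣ F)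
    (hg0 : g.degreeOf 0 ≠ 0) : ∃ y : ℂ, eval (Fin.cons (α := fun _ => ℂ) y x) g = 0 := by
  obtain ⟨k, rfl⟩ := hg
  rw [lc0_mul, map_mul] at hx
  have h1 := left_ne_zero_of_mul hx
  have h2 := map_natDegree h1
  obtain ⟨y, hy⟩ := IsAlgClosed.exists_root ((finSuccEquiv ℂ m g).map (eval x)) (by
    rw [Polynomial.degree_eq_natDegree (map_ne h1), h2]
    exact_mod_cast hg0)
  exact ⟨y, by rw [eval_cons]; exact hy⟩

end

/-- `pw` as a `Fin.cons`. -/
lemma pw_eq (τ : ℂ) (v : Fin m → ℂ) (y : ℂ) :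
    pw τ v y = Fin.cons (α := fun _ => ℂ) (wp 1 τ y) (fun i => wp 1 τ (v i)) := rfl

/-- all but few numbers are congruent: `2 B + 1` points of a fibre -/
theorem fibre (hτ : 0 < τ.im) {F : MvPolynomial (Fin (m + 1)) ℂ} {v : Fin m → ℂ} {B : ℕ}
    (hx : eval (fun i => wp 1 τ (v i)) (lc0 F) ≠ 0) (hB : F.degreeOf 0 ≤ B) (Z : Finset ℂ)
    (hZ : 2 * B < Z.card) (hz : ∀ z ∈ Z, z ∉ Lam τ ∧ eval (pw τ v z) F = 0) :
    ∃ z ∈ Z, ∃ z' ∈ Z, z ≠ z' ∧ z - z' ∈ Lam τ := by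
  classical
  have h1 : ∀ z ∈ Z, wp 1 τ z ∈ rts F (fun i => wp 1 τ (v i)) := fun z h =>
    (mem_rts hx).2 (hz z h).2
  have h2 : (rts F (fun i => wp 1 τ (v i))).card * 2 < Z.card := by
    have := card_rts hx
    omega
  obtain ⟨y, _, hy⟩ := Finset.exists_lt_card_fiber_of_mul_lt_card_of_maps_to h1 h2
  obtain ⟨a, b, c, ha, hb, hc, hab, hac, hbc⟩ := Finset.two_lt_card_iff.1 hy
  simp only [Finset.mem_filter] at ha hb hc
  by_contra hcon
  push Not at hcon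
  have h3 : ∀ z ∈ Z, ∀ z' ∈ Z, z ≠ z' → wp 1 τ z = wp 1 τ z' → z + z' ∈ Lam τ := by
    intro z hzz z' hz' hne heq
    exact (Fx.wp_inj hτ (hz z hzz).1 (hz z' hz').1 heq).resolve_left (hcon z hzz z' hz' hne)
  have h4 := h3 a ha.1 b hb.1 hab (ha.2.trans hb.2.symm)
  have h5 := h3 a ha.1 c hc.1 hac (ha.2.trans hc.2.symm)
  apply hcon b hb.1 c hc.1 hbc
  have h6 : b - c = (a + b) + -(a + c) := by ring
  rw [h6]
  exact Fx.Lam_add h4 (neg_mem_Lam.2 h5)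

/-- the fibres are countable -/
theorem fibre_countable (hτ : 0 < τ.im) {F : MvPolynomial (Fin (m + 1)) ℂ} {v : Fin m → ℂ}
    (hx : eval (fun i => wp 1 τ (v i)) (lc0 F) ≠ 0) :
    {z : ℂ | z ∉ Lam τ ∧ eval (pw τ v z) F = 0}.Countable := by
  have h1 : {z : ℂ | z ∉ Lam τ ∧ eval (pw τ v z) F = 0} ⊆
      ⋃ y ∈ (rts F (fun i => wp 1 τ (v i)) : Set ℂ), {z : ℂ | z ∉ Lam τ ∧ wp 1 τ z = y} := by
    rintro z ⟨h2, h3⟩
    simp only [Set.mem_iUnion]
    exact ⟨wp 1 τ z, (mem_rts hx).2 h3, h2, rfl⟩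
  refine Set.Countable.mono h1 ((Finset.countable_toSet _).biUnion fun y _ => ?_)
  by_cases hne : ∃ z₀, z₀ ∉ Lam τ ∧ wp 1 τ z₀ = y
  · obtain ⟨z₀, h4, h5⟩ := hne
    refine Set.Countable.mono (s₂ := (fun l => z₀ + l) '' Lam τ ∪ (fun l => l - z₀) '' Lam τ) ?_
      (((Lam_countable τ).image _).union ((Lam_countable τ).image _))
    rintro z ⟨h6, h7⟩
    rcases Fx.wp_inj hτ h6 h4 (h7.trans h5.symm) with h8 | h8
    · left
      exact ⟨z - z₀, h8, by ring⟩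
    · right
      exact ⟨z + z₀, h8, by ring⟩
  · convert Set.countable_empty
    ext z
    simp only [Set.mem_ofPred_eq, Set.mem_empty_iff_false, iff_false]
    exact fun h => hne ⟨z, h⟩

end Pool.Agent.Work.MP_8da9ea_nt.EB.Gen
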