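import Pool.Agent.Work.MP_8da9ea_nt.EB.StmtsG
import Pool.Agent.Work.MP_8da9ea_nt.FixEnd

/-!
# Elliptic block, item AK1: relations of the first kind
-/

set_option autoImplicit false

namespace Pool.Agent.Work.MP_8da9ea_nt.EB

open MvPolynomial Pool.Agent.Work.MP_327059_nt.GL Pool.Agent.Work.MP_8da9ea_nt.S
open Filter Topology

namespace I_AK1

/-- The lift of a point of the curve over a field of germs. -/
theorem lift {τ μ : ℂ} (hN : Nrm τ μ) {u₀ : ℂ} (X Y : MG u₀) (u : ℂ) (hu : u ∉ Lam τ)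
    (hy : wpd τ u ≠ 0) (hX : SpecAux.IsAn X (xe τ μ u)) (hY : SpecAux.IsAn Y (ye τ μ u))
    (hXY : Y ^ 2 = 4 * X ^ 3 - algebraMap ℂ (MG u₀) (μ ^ 4 * gg2 τ) * X -
      algebraMap ℂ (MG u₀) (μ ^ 6 * gg3 τ)) :
    ∃ z : ℂ → ℂ, AnalyticAt ℂ z u₀ ∧ z u₀ = u ∧
      X = algebraMap ℂ (MG u₀) (μ ^ 2) * gm u₀ (fun s => wp 1 τ (z s)) ∧
      Y = algebraMap ℂ (MG u₀) (μ ^ 3) * gm u₀ (fun s => wpd τ (z s)) ∧
      algebraMap ℂ (MG u₀) μ * (MG.DD X / Y) = MG.DD (gm u₀ z) := by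
  have hμ := hN.mu
  set A := algebraMap ℂ (MG u₀) with hA
  have hAμ : A μ ≠ 0 := by
    rw [Ne, map_eq_zero]
    exact hμ
  have hc : ∀ c : ℂ, SpecAux.IsAn (A c) c := fun c =>
    ⟨fun _ => c, analyticAt_const, MG.algebraMap_eq c, rfl⟩
  have h1 : SpecAux.IsAn (A (μ ^ 2)⁻¹ * X) (Fx.ef τ true u) := by
    have h := (hc (μ ^ 2)⁻¹).mul hX
    have e : (μ ^ 2)⁻¹ * xe τ μ u = Fx.ef τ true u := by
      unfold xe
      rw [← mul_assoc, inv_mul_cancel₀ (pow_ne_zero 2 hμ), one_mul]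
      rfl
    rwa [e] at h
  have h2 : SpecAux.IsAn (A (μ ^ 3)⁻¹ * Y) (Fx.df τ true u) := by
    have h := (hc (μ ^ 3)⁻¹).mul hY
    have e : (μ ^ 3)⁻¹ * ye τ μ u = Fx.df τ true u := by
      unfold ye
      rw [← mul_assoc, inv_mul_cancel₀ (pow_ne_zero 3 hμ), one_mul]
      rfl
    rwa [e] at h
  obtain ⟨z, hz, hzu, hzX, hzY, hzD, -⟩ := Fx.loc_one hN.im true (A (μ ^ 2)⁻¹ * X)
    (A (μ ^ 3)⁻¹ * Y) u hu hy h1 h2 (by
      simp only [if_true]
      have e1 : A (μ ^ 2)⁻¹ = (A μ ^ 2)⁻¹ := by rw [map_inv₀, map_pow]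
      have e2 : A (μ ^ 3)⁻¹ = (A μ ^ 3)⁻¹ := by rw [map_inv₀, map_pow]
      rw [e1, e2, mul_pow, hXY, map_mul, map_mul, map_pow, map_pow, ← hA]
      field_simp)
  refine ⟨z, hz, hzu, ?_, ?_, ?_⟩
  · have e : gm u₀ (fun s => wp 1 τ (z s)) = A (μ ^ 2)⁻¹ * X := hzX
    rw [e, ← mul_assoc, ← map_mul, mul_inv_cancel₀ (pow_ne_zero 2 hμ), map_one, one_mul]
  · have e : gm u₀ (fun s => wpd τ (z s)) = A (μ ^ 3)⁻¹ * Y := hzY
    rw [e, ← mul_assoc, ← map_mul, mul_inv_cancel₀ (pow_ne_zero 3 hμ), map_one, one_mul]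
  · rw [hzD, Derivation.leibniz, MG.DD.map_algebraMap, smul_zero, add_zero, smul_eq_mul]
    have e1 : A (μ ^ 2)⁻¹ = (A μ ^ 2)⁻¹ := by rw [map_inv₀, map_pow]
    have e2 : A (μ ^ 3)⁻¹ = (A μ ^ 3)⁻¹ := by rw [map_inv₀, map_pow]
    rw [e1, e2]
    by_cases hY0 : Y = 0
    · rw [hY0]; simp
    · field_simp

end I_AK1

open I_AK1 in
theorem AK1_pf (h1 : S_Emb) (h2 : S_Kf) : S_AK1 := by
  classical
  intro τ μ hN E hEc hEa N u c hu hc hc0 hrel
  have hτ := hN.im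
  have hμ := hN.mu
  have halg : ∀ x : ℂ, IsAlgebraic ℚ x → x ∈ E := fun x hx =>
    hEa x (hx.extendScalars (algebraMap ℚ E).injective)
  have huL : ∀ i, u i ∉ Lam τ := by
    intro i
    have h := hu i 1 one_ne_zero
    rwa [Nat.cast_one, one_mul] at h
  have hyd : ∀ i, wpd τ (u i) ≠ 0 := by
    intro i h
    refine hu i 2 two_ne_zero ?_
    have h3 := wpd_zero hτ (huL i) h
    exact_mod_cast h3
  have hye : ∀ i, ye τ μ (u i) ≠ 0 := fun i => mul_ne_zero (pow_ne_zero 3 hμ) (hyd i)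
  have hlam : ∀ δ i, lam τ μ δ (u i) = δ (xe τ μ (u i)) / ye τ μ (u i) := by
    intro δ i
    unfold lam
    rw [if_neg (huL i)]
  let f : Fin N × Bool → ℂ := fun q => if q.2 then ye τ μ (u q.1) else xe τ μ (u q.1)
  obtain ⟨u₀, Φ, hΦE, hΦT, hΦ3, hΦ4⟩ := h1 E hEc hEa (Fin N × Bool) f
  let L := IntermediateField.adjoin E (Set.range f)
  set A := algebraMap ℂ (MG u₀) with hA
  let xL : Fin N → L := fun i =>
    ⟨xe τ μ (u i), IntermediateField.subset_adjoin E _ ⟨(i, false), rfl⟩⟩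
  let yL : Fin N → L := fun i =>
    ⟨ye τ μ (u i), IntermediateField.subset_adjoin E _ ⟨(i, true), rfl⟩⟩
  have hxL : ∀ i, ((xL i : L) : ℂ) = xe τ μ (u i) := fun i => rfl
  have hyL : ∀ i, ((yL i : L) : ℂ) = ye τ μ (u i) := fun i => rfl
  have hX : ∀ i, SpecAux.IsAn (Φ (xL i)) (xe τ μ (u i)) := by
    intro i
    obtain ⟨F, hF, hF1, hF2⟩ := hΦT (i, false) (xL i) rfl
    exact ⟨F, hF, hF2, hF1⟩
  have hY : ∀ i, SpecAux.IsAn (Φ (yL i)) (ye τ μ (u i)) := by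
    intro i
    obtain ⟨F, hF, hF1, hF2⟩ := hΦT (i, true) (yL i) rfl
    exact ⟨F, hF, hF2, hF1⟩
  have hyL0 : ∀ i, yL i ≠ 0 := by
    intro i h
    exact hye i (congrArg (fun z : L => (z : ℂ)) h)
  have hΦy0 : ∀ i, Φ (yL i) ≠ 0 := fun i => by
    rw [Ne, map_eq_zero]
    exact hyL0 i
  let a2 : E := ⟨μ ^ 4 * gg2 τ, halg _ hN.g2⟩
  let a3 : E := ⟨μ ^ 6 * gg3 τ, halg _ hN.g3⟩
  have hXY : ∀ i, Φ (yL i) ^ 2 = 4 * Φ (xL i) ^ 3 - A (μ ^ 4 * gg2 τ) * Φ (xL i) -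
      A (μ ^ 6 * gg3 τ) := by
    intro i
    have h3 : yL i ^ 2 = 4 * xL i ^ 3 - algebraMap E L a2 * xL i - algebraMap E L a3 := by
      apply Subtype.ext
      change ye τ μ (u i) ^ 2 = 4 * xe τ μ (u i) ^ 3 - (μ ^ 4 * gg2 τ) * xe τ μ (u i) -
        (μ ^ 6 * gg3 τ)
      have h4 := wpd_sq hτ (huL i)
      unfold ye xe
      linear_combination μ ^ 6 * h4
    have h4 := congrArg Φ h3
    rw [map_pow, map_sub, map_sub, map_mul, map_mul, map_pow, map_ofNat, hΦE, hΦE] at h4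
    exact h4
  choose z hz hzu hzX hzY hzD using fun i => lift hN (Φ (xL i)) (Φ (yL i)) (u i) (huL i) (hyd i)
    (hX i) (hY i) (hXY i)
  have hAμ : A μ ≠ 0 := by
    rw [Ne, map_eq_zero]
    exact hμ
  -- the relation for all derivations of the germs
  have hD : ∀ X : Derivation ℂ (MG u₀) (MG u₀),
      ∑ i, A (c i) * (X (Φ (xL i)) / Φ (yL i)) = 0 := by
    intro X
    have h3 := hΦ3 N (fun i => algebraMap E L ⟨c i, hc i⟩ * (yL i)⁻¹) xL (by
      intro δ hδ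
      rw [← hrel δ hδ]
      refine Finset.sum_congr rfl fun i _ => ?_
      rw [hlam]
      change (c i * (ye τ μ (u i))⁻¹) * δ (xe τ μ (u i)) = _
      rw [div_eq_mul_inv]
      ring) X
    rw [← h3]
    refine Finset.sum_congr rfl fun i _ => ?_
    rw [map_mul, map_inv₀, hΦE, div_eq_mul_inv]
    ring
  have hFX := fx_prop (Fin N) Empty τ u₀ hτ z hz (fun i => ⟨by rw [hzu]; exact huL i, by
    rw [hzu]; exact hyd i⟩) (fun e => e.elim) (fun e => e.elim) c 0 (fun e => e.elim)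
    (fun h => hc0 h.1) 0 (by
      intro X
      rw [map_zero, Finset.univ_eq_empty (α := Empty), Finset.sum_empty, add_zero]
      have h3 := hD X
      have h4 : ∀ i, X (gm u₀ fun s => wp 1 τ (z i s)) / gm u₀ (fun s => wpd τ (z i s)) =
          A μ * (X (Φ (xL i)) / Φ (yL i)) := by
        intro i
        have h5 : gm u₀ (fun s => wpd τ (z i s)) ≠ 0 := by
          intro h6
          apply hΦy0 i
          rw [hzY i, h6, mul_zero]
        rw [hzX i, hzY i, Derivation.leibniz, X.map_algebraMap, smul_zero, add_zero, smul_eq_mul,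
          ← hA, map_pow, map_pow]
        field_simp
      have h5 : ∑ i, (algebraMap ℂ (MG u₀) (c i) + algebraMap ℂ (MG u₀) ((0 : Fin N → ℂ) i) *
          gm u₀ (fun s => wp 1 τ (z i s))) * (X (gm u₀ fun s => wp 1 τ (z i s)) /
          gm u₀ (fun s => wpd τ (z i s))) =
          A μ * ∑ i, A (c i) * (X (Φ (xL i)) / Φ (yL i)) := by
        rw [Finset.mul_sum]
        refine Finset.sum_congr rfl fun i _ => ?_
        rw [h4, Pi.zero_apply, map_zero, zero_mul, add_zero, ← hA]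
        ring
      rw [h5, h3, mul_zero])
  rcases hFX with ⟨g, hg0, hgE, C, hC⟩ | ⟨m, hm, -⟩
  · have hgE' : ∀ i, IsE τ (g i) := hgE
    have hgm : ∀ i, g i ∈ E := fun i => halg _ ((h2 τ hτ).1 _ (hgE' i))
    refine ⟨g, hg0, hgE', ?_⟩
    have hsum : ∑ i, A (g i) * gm u₀ (z i) = A C := by
      rw [hA, Fx.gm_sum_lin g z hz, ← gm_const]
      exact gm_eq_of (Finset.analyticAt_fun_sum _ fun i _ => analyticAt_const.mul (hz i)) hC
    have hder : ∑ i, A (g i) * MG.DD (gm u₀ (z i)) = 0 := by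
      have h3 := congrArg MG.DD hsum
      rw [map_sum, hA, MG.DD.map_algebraMap] at h3
      rw [← h3]
      refine Finset.sum_congr rfl fun i _ => ?_
      rw [Derivation.leibniz, MG.DD.map_algebraMap, smul_zero, add_zero, smul_eq_mul]
    have h4 : ∑ i, Φ (algebraMap E L ⟨g i, hgm i⟩ * (yL i)⁻¹) * MG.DD (Φ (xL i)) = 0 := by
      have h5 : A μ * ∑ i, Φ (algebraMap E L ⟨g i, hgm i⟩ * (yL i)⁻¹) * MG.DD (Φ (xL i)) = 0 := by
        rw [← hder, Finset.mul_sum]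
        refine Finset.sum_congr rfl fun i _ => ?_
        rw [← hzD i, map_mul, map_inv₀, hΦE, div_eq_mul_inv, ← hA]
        ring
      exact (mul_eq_zero.1 h5).resolve_left hAμ
    intro δ hδ
    have h5 := hΦ4 N _ xL h4 δ hδ
    rw [← h5]
    refine Finset.sum_congr rfl fun i _ => ?_
    rw [hlam]
    change _ = (g i * (ye τ μ (u i))⁻¹) * δ (xe τ μ (u i))
    rw [div_eq_mul_inv]
    ring
  · exact absurd (Subsingleton.elim m 0) hm

end Pool.Agent.Work.MP_8da9ea_nt.EB
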