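import Pool.Agent.Work.MP_8da9ea_nt.EB.Gen

/-!
# Elliptic block, item Cnt: the increments of a branch lie in a countable set
-/

set_option autoImplicit false

namespace Pool.Agent.Work.MP_8da9ea_nt.EB

open MvPolynomial Pool.Agent.Work.MP_8da9ea_nt

theorem Cnt_pf (hSurj : S_Surj) : S_Cnt := by
  intro τ hτ m F hF h
  obtain ⟨v, -, hv1, hv2, -⟩ := Gen.generic hτ isOpen_univ Set.univ_nonempty
    (ι := Option (Fin m → Bool)) (κ := Empty) (fun _ => Gen.lc0 F)
    (fun o => o.elim 0 (fun e i => sg (e i) * h i)) (fun k => k.elim) (fun k => k.elim)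
    (fun _ => Gen.lc0_ne hF) (fun k => k.elim)
  have hx0 : eval (fun i => wp 1 τ (v i)) (Gen.lc0 F) ≠ 0 := by
    have h1 := (hv2 none).2
    simpa using h1
  have hx1 : ∀ e : Fin m → Bool,
      eval (fun i => wp 1 τ (v i + sg (e i) * h i)) (Gen.lc0 F) ≠ 0 := by
    intro e
    exact (hv2 (some e)).2
  have hc0 := Gen.fibre_countable hτ hx0
  have hc1 : ∀ e : Fin m → Bool,
      {z : ℂ | z ∉ Lam τ ∧ eval (pw τ (fun i => v i + sg (e i) * h i) z) F = 0}.Countable :=
    fun e => Gen.fibre_countable hτ (hx1 e)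
  refine ⟨⋃ y ∈ {z : ℂ | z ∉ Lam τ ∧ eval (pw τ v z) F = 0},
    (((fun l => l - y) '' Lam τ ∪ (fun l => y - l) '' Lam τ) ∪ ⋃ e : Fin m → Bool,
      ((fun z => z - y) ''
          {z : ℂ | z ∉ Lam τ ∧ eval (pw τ (fun i => v i + sg (e i) * h i) z) F = 0} ∪
        (fun z => y - z) ''
          {z : ℂ | z ∉ Lam τ ∧ eval (pw τ (fun i => v i + sg (e i) * h i) z) F = 0})), ?_, ?_⟩
  · refine hc0.biUnion fun y _ => ?_
    refine (((Lam_countable τ).image _).union ((Lam_countable τ).image _)).union ?_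
    exact Set.countable_iUnion fun e => ((hc1 e).image _).union ((hc1 e).image _)
  · intro δ G g _ hg0 hgF hgG hTr
    obtain ⟨x, hx⟩ := Gen.exists_root hx0 hgF hg0
    obtain ⟨y, hy, rfl⟩ := hSurj τ hτ x
    have hF0 : eval (pw τ v y) F = 0 := by
      obtain ⟨q, rfl⟩ := hgF
      rw [map_mul, Gen.pw_eq, hx, zero_mul]
    have hG0 : eval (pw τ v y) G = 0 := by
      obtain ⟨q, rfl⟩ := hgG
      rw [map_mul, Gen.pw_eq, hx, zero_mul]
    simp only [Set.mem_iUnion]
    refine ⟨y, ⟨hy, hF0⟩, ?_⟩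
    by_cases hp : y + δ ∈ Lam τ
    · exact Or.inl (Or.inl ⟨y + δ, hp, by ring⟩)
    by_cases hm : y - δ ∈ Lam τ
    · exact Or.inl (Or.inr ⟨y - δ, hm, by ring⟩)
    right
    have hvp : ∀ i, v i + h i ∉ Lam τ := by
      intro i
      have h1 := (hv2 (some fun _ => true)).1 i
      simpa [sg] using h1
    have hvm : ∀ i, v i - h i ∉ Lam τ := by
      intro i
      have h1 := (hv2 (some fun _ => false)).1 i
      simpa [sg, sub_eq_add_neg] using h1
    obtain ⟨e, e0, he⟩ := hTr v y hv1 hy hvp hvm hp hm hG0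
    simp only [Set.mem_iUnion]
    refine ⟨e, ?_⟩
    cases e0
    · right
      have h1 : sg false = -1 := by simp [sg]
      rw [h1] at he
      refine ⟨y + -1 * δ, ⟨?_, he⟩, by ring⟩
      rwa [show y + -1 * δ = y - δ by ring]
    · left
      have h1 : sg true = 1 := by simp [sg]
      rw [h1] at he
      refine ⟨y + 1 * δ, ⟨?_, he⟩, by ring⟩
      rwa [one_mul]

end Pool.Agent.Work.MP_8da9ea_nt.EB
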