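import Pool.Agent.Work.MP_8da9ea_nt.EB.StmtsG
import Pool.Agent.Work.MP_8da9ea_nt.CD.Asm
import Pool.Agent.Work.MP_8da9ea_nt.Bd.B05
import Pool.Agent.Work.MP_8da9ea_nt.Bd.B06
import Pool.Agent.Work.MP_8da9ea_nt.Bd.B11
import Pool.Agent.Work.MP_8da9ea_nt.TG.RelH
import Pool.Agent.Work.MP_8da9ea_nt.MovFinal

/-!
# Elliptic block: the final theorem for one lattice and one point
-/

set_option autoImplicit false

namespace Pool.Agent.Work.MP_8da9ea_nt.EB

open MvPolynomial Pool.Agent.Work.MP_327059_nt.GL Pool.Agent.Work.MP_8da9ea_nt.S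

namespace I_FinalZ

open Pool.Agent.ED

/-- adding `r` vectors raises the rank by at most `r` -/
lemma finrank_union_le (S : Set ℂ) (hS : S.Finite) {r : ℕ} (v : Fin r → ℂ) (S' : Set ℂ)
    (h : S' ⊆ S ∪ Set.range v) :
    Module.finrank ℚ (Submodule.span ℚ S') ≤ Module.finrank ℚ (Submodule.span ℚ S) + r := by
  have hfd1 : FiniteDimensional ℚ (Submodule.span ℚ S) := FiniteDimensional.span_of_finite ℚ hS
  have hfd2 : FiniteDimensional ℚ (Submodule.span ℚ (Set.range v)) :=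
    FiniteDimensional.span_of_finite ℚ (Set.finite_range _)
  have h1 : Submodule.span ℚ S' ≤ Submodule.span ℚ S ⊔ Submodule.span ℚ (Set.range v) := by
    rw [← Submodule.span_union]
    exact Submodule.span_mono h
  have h2 := Submodule.finrank_mono h1
  have h3 := Submodule.finrank_sup_add_finrank_inf_eq (Submodule.span ℚ S)
    (Submodule.span ℚ (Set.range v))
  have h4 : Module.finrank ℚ (Submodule.span ℚ (Set.range v)) ≤ r := by
    have := finrank_range_le_card (R := ℚ) v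
    rwa [Fintype.card_fin] at this
  omega

lemma kDim2_append (ω₁ ω₂ : ℂ) {k r : ℕ} (p : Fin k → ℂ) (v : Fin r → ℂ) :
    kDim2 ω₁ ω₂ (Fin.append p v) ≤ kDim2 ω₁ ω₂ p + 2 * r := by
  classical
  unfold kDim2
  by_cases h : IsCM ω₁ ω₂
  · rw [if_pos h, if_pos h]
    have h1 := finrank_union_le (Set.range p ∪ Set.range (fun i => ω₂ / ω₁ * p i) ∪ {ω₁, ω₂})
      (((Set.finite_range _).union (Set.finite_range _)).union (Set.toFinite _))
      (Fin.append v (fun i => ω₂ / ω₁ * v i))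
      (Set.range (Fin.append p v) ∪ Set.range (fun i => ω₂ / ω₁ * Fin.append p v i) ∪ {ω₁, ω₂}) (by
        rintro x ((⟨i, rfl⟩ | ⟨i, rfl⟩) | hx)
        · refine Fin.addCases (fun i => ?_) (fun i => ?_) i
          · rw [Fin.append_left]
            exact Or.inl (Or.inl (Or.inl ⟨i, rfl⟩))
          · rw [Fin.append_right]
            exact Or.inr ⟨Fin.castAdd r i, Fin.append_left _ _ i⟩
        · refine Fin.addCases (fun i => ?_) (fun i => ?_) i
          · simp only [Fin.append_left]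
            exact Or.inl (Or.inl (Or.inr ⟨i, rfl⟩))
          · simp only [Fin.append_right]
            exact Or.inr ⟨Fin.natAdd r i, Fin.append_right _ _ i⟩
        · exact Or.inl (Or.inr hx))
    omega
  · rw [if_neg h, if_neg h]
    have h1 := finrank_union_le (Set.range p ∪ {ω₁, ω₂})
      ((Set.finite_range _).union (Set.toFinite _)) v (Set.range (Fin.append p v) ∪ {ω₁, ω₂}) (by
        rintro x (⟨i, rfl⟩ | hx)
        · refine Fin.addCases (fun i => ?_) (fun i => ?_) i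
          · rw [Fin.append_left]
            exact Or.inl (Or.inl ⟨i, rfl⟩)
          · rw [Fin.append_right]
            exact Or.inr ⟨i, rfl⟩
        · exact Or.inl (Or.inr hx))
    omega

lemma bigField_append2 (ω₁ ω₂ : ℂ) {s k r r' : ℕ} (t : Fin s → ℂ) (p : Fin k → ℂ)
    (u : Fin r → ℂ) (v : Fin r' → ℂ) :
    bigField ω₁ ω₂ t p ≤ bigField ω₁ ω₂ (Fin.append t u) (Fin.append p v) := by
  refine big_le ω₁ ω₂ t p ?_ ?_ (big_g2 _ _ _ _) (big_g3 _ _ _ _) ?_ ?_ ?_
    (big_o1 _ _ _ _) (big_o2 _ _ _ _) (big_e1 _ _ _ _) (big_e2 _ _ _ _)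
  · intro l
    have := big_t ω₁ ω₂ (Fin.append t u) (Fin.append p v) (Fin.castAdd r l)
    rwa [Fin.append_left] at this
  · intro l
    have := big_exp ω₁ ω₂ (Fin.append t u) (Fin.append p v) (Fin.castAdd r l)
    rwa [Fin.append_left] at this
  · intro l
    have := big_p ω₁ ω₂ (Fin.append t u) (Fin.append p v) (Fin.castAdd r' l)
    rwa [Fin.append_left] at this
  · intro l
    have := big_wp ω₁ ω₂ (Fin.append t u) (Fin.append p v) (Fin.castAdd r' l)
    rwa [Fin.append_left] at this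
  · intro l
    have := big_zt ω₁ ω₂ (Fin.append t u) (Fin.append p v) (Fin.castAdd r' l)
    rwa [Fin.append_left] at this

/-- the last step -/
lemma fin_step (ω₁ ω₂ : ℂ) {s k r r' : ℕ} (t : Fin s → ℂ) (p : Fin k → ℂ)
    (u : Fin r → ℂ) (v : Fin r' → ℂ) (K : IntermediateField ℚ ℂ) (hK : bigField ω₁ ω₂ t p ≤ K)
    {ι : Type} [Fintype ι] (y : ι → ℂ) (hy : AlgebraicIndependent K y)
    (hyL : ∀ o, y o ∈ CD.acl (bigField ω₁ ω₂ (Fin.append t u) (Fin.append p v)))
    (hcard : r + 2 * r' ≤ Fintype.card ι) :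
    (∀ d, HasTrdeg (bigField ω₁ ω₂ t p) d →
      HasTrdeg (bigField ω₁ ω₂ (Fin.append t u) (Fin.append p v)) (d + r + 2 * r')) ∧
    (Q1 ω₁ ω₂ t p → Q1 ω₁ ω₂ (Fin.append t u) (Fin.append p v)) := by
  have main : ∀ d, HasTrdeg (bigField ω₁ ω₂ t p) d →
      HasTrdeg (bigField ω₁ ω₂ (Fin.append t u) (Fin.append p v)) (d + (r + 2 * r')) := by
    intro d hd
    have h1 : HasTrdeg (bigField ω₁ ω₂ (Fin.append t u) (Fin.append p v) ⊓ K) d :=
      hd.mono (le_inf (bigField_append2 ω₁ ω₂ t p u v) hK) le_rfl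
    exact CD.RelTr.hasTrdeg h1 (CD.relTr_of_family hy hyL hcard)
  refine ⟨fun d hd => by rw [add_assoc]; exact main d hd, fun hQ => ?_⟩
  unfold Q1 at hQ ⊢
  refine (main _ hQ).mono le_rfl ?_
  have h1 := TG.tDim_append t u
  have h2 := kDim2_append ω₁ ω₂ p v
  split_ifs <;> omega

/-- rank on a smaller space of derivations -/
lemma rank_DK {m k N : ℕ} (b : Fin m → ℂ) (θ : Fin N → ℂ) (K : IntermediateField ℚ ℂ)
    (hK : ∀ δ ∈ TT b, (∀ i, δ (θ i) = 0) → δ ∈ DK K)
    (f : Derivation ℚ ℂ ℂ →ₗ[ℂ] (Fin k → ℂ)) (R : ℕ)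
    (h : R + N ≤ Module.finrank ℂ ((TT b).map f)) : R ≤ Module.finrank ℂ ((DK K).map f) := by
  obtain ⟨δ, hδ, hδi⟩ := TG.lin_ker (TT b) f (evDer (K := ℚ) (M := ℂ) θ) R (by
    rw [Module.finrank_fintype_fun_eq_card, Fintype.card_fin]
    exact h)
  have h1 : ∀ s, δ s ∈ DK K := fun s => hK _ (hδ s).1 fun i => congrFun (hδ s).2 i
  have h2 : LinearIndependent ℂ (fun s => (⟨f (δ s), Submodule.mem_map_of_mem (h1 s)⟩ :
      (DK K).map f)) := by
    apply LinearIndependent.of_comp (Submodule.subtype _)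
    exact hδi
  have h3 := h2.fintype_card_le_finrank
  rwa [Fintype.card_fin] at h3

/-- only toric points -/
lemma tor_pol (K : IntermediateField ℚ ℂ) (m r : ℕ) (β : Fin m → ℂ)
    (h : r ≤ Module.finrank ℂ ((DK K).map (lgV β))) :
    ∃ P : MvPolynomial (Fin r × Fin m) ℂ, P ≠ 0 ∧ P.IsHomogeneous r ∧
      ∀ c : Fin r → Fin m → ℚ, MvPolynomial.eval (fun q => (c q.1 q.2 : ℂ)) P ≠ 0 →
        AlgebraicIndependent K (fun i : Fin r => Complex.exp (∑ j, (c i j : ℂ) * β j)) := by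
  classical
  obtain ⟨δ, hδ, hδi⟩ := TG.lin_ker (DK K) (lgV β) (0 : Derivation ℚ ℂ ℂ →ₗ[ℂ] (Fin 0 → ℂ)) r (by
    rw [Module.finrank_fintype_fun_eq_card, Fintype.card_fin]
    exact h)
  have hδK : ∀ s, ∀ x ∈ K, δ s x = 0 := fun s x hx => (hδ s).1 x hx
  let a : Fin r → Fin m → ℂ := fun s j => δ s (Complex.exp (β j)) / Complex.exp (β j)
  have ha : LinearIndependent ℂ a := hδi
  obtain ⟨c0, hc0⟩ : ∃ c0 : Fin r → Fin m → ℂ, ∀ s i, ∑ j, c0 i j * a s j =
      if s = i then 1 else 0 := by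
    have hinj : LinearMap.ker (Fintype.linearCombination ℂ a) = ⊥ := by
      rw [LinearMap.ker_eq_bot]
      exact linearIndependent_iff_injective_fintypeLinearCombination.1 ha
    obtain ⟨G, hG⟩ := LinearMap.exists_leftInverse_of_injective _ hinj
    refine ⟨fun i j => G (Pi.single j 1) i, fun s i => ?_⟩
    have h6 : G (a s) = Pi.single s 1 := by
      have h7 := congrArg (fun φ => φ (Pi.single s (1 : ℂ))) hG
      simpa [Fintype.linearCombination_apply] using h7
    have h8 : a s = ∑ j, a s j • (Pi.single j (1 : ℂ) : Fin m → ℂ) := by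
      funext j
      simp [Finset.sum_apply, Pi.single_apply]
    have h9 : G (a s) i = ∑ j, G (Pi.single j 1) i * a s j := by
      conv_lhs => rw [h8]
      rw [map_sum, Finset.sum_apply]
      refine Finset.sum_congr rfl fun j _ => ?_
      rw [map_smul, Pi.smul_apply, smul_eq_mul, mul_comm]
    rw [← h9, h6, Pi.single_apply]
    simp only [eq_comm]
  let p : Fin r → Fin r → MvPolynomial (Fin r × Fin m) ℂ := fun s i =>
    ∑ j, MvPolynomial.C (a s j) * MvPolynomial.X (i, j)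
  have hPev : ∀ c : Fin r → Fin m → ℂ,
      MvPolynomial.eval (fun q : Fin r × Fin m => c q.1 q.2) (Matrix.of p).det =
        (Matrix.of fun s i => ∑ j, c i j * a s j).det := by
    intro c
    rw [RingHom.map_det]
    congr 1
    ext s i
    show MvPolynomial.eval _ (p s i) = _
    simp only [p, map_sum, map_mul, MvPolynomial.eval_X, MvPolynomial.eval_C, Matrix.of_apply]
    exact Finset.sum_congr rfl fun j _ => by ring
  refine ⟨(Matrix.of p).det, ?_, ?_, ?_⟩
  · intro h0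
    have h6 := hPev c0
    rw [h0, map_zero] at h6
    have h7 : (Matrix.of fun s i => ∑ j, c0 i j * a s j) = (1 : Matrix (Fin r) (Fin r) ℂ) := by
      ext s i
      rw [Matrix.of_apply, Matrix.one_apply]
      exact hc0 s i
    rw [h7, Matrix.det_one] at h6
    exact zero_ne_one h6
  · have h1 := TG.detHom (Matrix.of p) (fun s i => by
      rw [Matrix.of_apply]
      exact MvPolynomial.IsHomogeneous.sum _ _ _ fun j _ =>
        MvPolynomial.isHomogeneous_C_mul_X _ _)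
    rw [Fintype.card_fin] at h1
    exact h1
  · intro c hc
    rw [hPev (fun i j => (c i j : ℂ))] at hc
    let y : Fin r → ℂ := fun i => Complex.exp (∑ j, (c i j : ℂ) * β j)
    have hy : ∀ s i, δ s (y i) = (∑ j, (c i j : ℂ) * a s j) * y i := by
      intro s i
      have hy0 : y i ≠ 0 := Complex.exp_ne_zero _
      have h6 := GP_dlog β 1 (c i) (δ s)
      have h7 : δ s (y i) / y i = ∑ j, (c i j : ℂ) * a s j := by
        simp only [y]
        rw [one_mul] at h6
        rw [h6]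
        refine Finset.sum_congr rfl fun j _ => ?_
        simp only [a]
        rw [one_mul]
      rw [← h7, div_mul_cancel₀ _ hy0]
    have hdet : (Matrix.of fun s i => δ s (y i)).det ≠ 0 := by
      have h6 : (Matrix.of fun s i => δ s (y i)) =
          (Matrix.of fun s i => ∑ j, (c i j : ℂ) * a s j) * Matrix.diagonal y := by
        ext s i
        rw [Matrix.mul_diagonal]
        exact hy s i
      rw [h6, Matrix.det_mul, Matrix.det_diagonal]
      exact mul_ne_zero hc (Finset.prod_ne_zero_iff.2 fun o _ => Complex.exp_ne_zero _)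
    exact TG.rel_jac K y δ hδK hdet

/-- the field of the problem is generated by countably many numbers -/
lemma big_countable (ω₁ ω₂ : ℂ) {s k : ℕ} (t : Fin s → ℂ) (p : Fin k → ℂ) :
    (bigField ω₁ ω₂ t p : Set ℂ).Countable := by
  have h : Countable (bigField ω₁ ω₂ t p) := by
    unfold bigField
    refine countable_adjoin _ ?_
    refine ((((((Set.finite_range _).union (Set.finite_range _)).union (Set.toFinite _)).union
      (Set.finite_range _)).union (Set.finite_range _)).union (Set.finite_range _)).union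
      (Set.toFinite _) |>.countable
  exact Set.countable_coe_iff.1 h

/-- no elliptic points -/
lemma fin_tor (m κ r N : ℕ) (b : Fin m → ℂ) (z ω₁ ω₂ : ℂ) (hm : r + N + κ + 1 ≤ m)
    (hS : m ≤ κ + 1 + Module.finrank ℂ ((TT b).map (lgV (fun j => b j * z))))
    (s k : ℕ) (t : Fin s → ℂ) (p : Fin k → ℂ) (hN : ¬ HasTrdeg (bigField ω₁ ω₂ t p) (N + 1)) :
    ∃ P : MvPolynomial (Fin r × Fin m ⊕ Fin 0 × Fin m) ℂ, P ≠ 0 ∧ P.IsHomogeneous (r + 2 * 0) ∧
      ∀ (c : Fin r → Fin m → ℚ) (c' : Fin 0 → Fin m → ℚ),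
        MvPolynomial.eval (Sum.elim (fun q => (c q.1 q.2 : ℂ)) (fun q => (c' q.1 q.2 : ℂ))) P ≠ 0 →
        ∀ (u : Fin r → ℂ) (v : Fin 0 → ℂ), (∀ i, u i = (∑ j, (c i j : ℂ) * b j) * z) →
          (∀ i, v i = (∑ j, (c' i j : ℂ) * b j) * z) →
          (∀ d, HasTrdeg (bigField ω₁ ω₂ t p) d →
            HasTrdeg (bigField ω₁ ω₂ (Fin.append t u) (Fin.append p v)) (d + r + 2 * 0)) ∧
          (Q1 ω₁ ω₂ t p → Q1 ω₁ ω₂ (Fin.append t u) (Fin.append p v)) := by
  obtain ⟨θ, hθ⟩ := TG.exists_theta _ N hN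
  have h1 : r ≤ Module.finrank ℂ ((DK (bigField ω₁ ω₂ t p)).map (lgV (fun j => b j * z))) := by
    refine rank_DK b θ _ ?_ _ r (by omega)
    intro δ hδ hδθ x hx
    refine der_zero_alg (IntermediateField.adjoin ℚ (Set.range θ)) δ ?_ x (hθ x hx)
    refine der_zero_adjoin (Set.range θ) δ ?_
    rintro _ ⟨i, rfl⟩
    exact hδθ i
  obtain ⟨P, hP, hPh, hPc⟩ := tor_pol (bigField ω₁ ω₂ t p) m r _ h1
  refine ⟨MvPolynomial.rename Sum.inl P, ?_, ?_, ?_⟩
  · intro h0
    exact hP (MvPolynomial.rename_injective _ Sum.inl_injective (by rw [h0, map_zero]))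
  · exact hPh.rename_isHomogeneous
  · intro c c' hc u v hu hv
    rw [MvPolynomial.eval_rename] at hc
    have h2 := hPc c hc
    refine fin_step ω₁ ω₂ t p u v (bigField ω₁ ω₂ t p) le_rfl _ h2 ?_ (by simp)
    intro i
    refine CD.le_acl _ ?_
    have h3 := big_exp ω₁ ω₂ (Fin.append t u) (Fin.append p v) (Fin.natAdd s i)
    rw [Fin.append_right, hu i] at h3
    have h4 : ∑ j, (c i j : ℂ) * (b j * z) = (∑ j, (c i j : ℂ) * b j) * z := by
      rw [Finset.sum_mul]
      exact Finset.sum_congr rfl fun j _ => by ring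
    rw [h4]
    exact h3

end I_FinalZ

/-- The final theorem for one lattice, with the information that the `v_i` are not lattice points. -/
def S_FinalZ2 : Prop := ∀ (m κ r r' N : ℕ) (b : Fin m → ℂ) (z ω₁ ω₂ : ℂ),
  r + 2 * r' + N + κ + 1 ≤ m → TrLe κ b →
  m ≤ κ + 1 + Module.finrank ℂ ((TT b).map (lgV (fun j => b j * z))) →
  (0 < r' → ∃ τ μ : ℂ, Nrm τ μ ∧ (ω₂ = ω₁ * τ ∨ ω₂ = -(ω₁ * τ)) ∧ ω₁ ≠ 0 ∧
    (∀ K : IntermediateField ℚ ℂ, gg2 τ ∈ K → gg3 τ ∈ K → IsAlgebraic K μ) ∧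
    m ≤ 1 + κ + Module.finrank ℂ ((TT b).map (lamV τ μ (fun j => b j * (z / ω₁))))) →
  ∀ (s k : ℕ) (t : Fin s → ℂ) (p : Fin k → ℂ), ¬ HasTrdeg (bigField ω₁ ω₂ t p) (N + 1) →
    ∃ P : MvPolynomial (Fin r × Fin m ⊕ Fin r' × Fin m) ℂ, P ≠ 0 ∧ P.IsHomogeneous (r + 2 * r') ∧
      ∀ (c : Fin r → Fin m → ℚ) (c' : Fin r' → Fin m → ℚ),
        MvPolynomial.eval (Sum.elim (fun q => (c q.1 q.2 : ℂ)) (fun q => (c' q.1 q.2 : ℂ))) P ≠ 0 →
        ∀ (u : Fin r → ℂ) (v : Fin r' → ℂ), (∀ i, u i = (∑ j, (c i j : ℂ) * b j) * z) →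
          (∀ i, v i = (∑ j, (c' i j : ℂ) * b j) * z) →
          (∀ i, ∀ a b : ℤ, v i ≠ (a : ℂ) * ω₁ + (b : ℂ) * ω₂) ∧
          (∀ d, HasTrdeg (bigField ω₁ ω₂ t p) d →
            HasTrdeg (bigField ω₁ ω₂ (Fin.append t u) (Fin.append p v)) (d + r + 2 * r')) ∧
          (Q1 ω₁ ω₂ t p → Q1 ω₁ ω₂ (Fin.append t u) (Fin.append p v))

open I_FinalZ Pool.Agent.ED in
theorem FinalZ2_pf (hA : S_RelAll) (hP : S_RelPol) : S_FinalZ2 := by
  classical
  intro m κ r r' N b z ω₁ ω₂ hm hκ hS hE s k t p hN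
  rcases Nat.eq_zero_or_pos r' with rfl | hr'
  · obtain ⟨P, h1, h2, h3⟩ := fin_tor m κ r N b z ω₁ ω₂ (by omega) hS s k t p hN
    exact ⟨P, h1, h2, fun c c' hc u v hu hv => ⟨fun i => i.elim0, h3 c c' hc u v hu hv⟩⟩
  obtain ⟨τ, μ, hn, hω, h1, hμ, hL⟩ := hE hr'
  have hB : ∀ (s k : ℕ) (t : Fin s → ℂ) (p : Fin k → ℂ),
      bigField ω₁ ω₂ t p = bigField ω₁ (ω₁ * τ) t p := by
    intro s k t p
    rcases hω with h | h
    · rw [h]
    · rw [h, bigField_neg]
  have hg : ∀ (s k : ℕ) (t : Fin s → ℂ) (p : Fin k → ℂ),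
      IsAlgebraic (bigField ω₁ ω₂ t p) μ := by
    intro s k t p
    rw [hB]
    exact hμ _ (mul_mem (ofNat_mem (bigField ω₁ (ω₁ * τ) t p) 60) (big_gk4 t p h1))
      (mul_mem (ofNat_mem (bigField ω₁ (ω₁ * τ) t p) 140) (big_gk6 t p h1))
  set B := bigField ω₁ ω₂ t p with hBdef
  set K := IntermediateField.adjoin ℚ ((B : Set ℂ) ∪ Set.range b ∪ {μ}) with hK
  have hBK : B ≤ K := fun x hx => IntermediateField.subset_adjoin _ _ (Or.inl (Or.inl hx))
  have hμK : μ ∈ K := IntermediateField.subset_adjoin _ _ (Or.inr rfl)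
  have hcK : Countable K := by
    refine countable_adjoin _ ?_
    exact ((big_countable ω₁ ω₂ t p).union (Set.finite_range b).countable).union
      (Set.countable_singleton μ)
  have hτK : τ ∈ K := hBK (by rw [hBdef, hB]; exact big_tau t p h1)
  have heK : et τ ∈ K := hBK (by rw [hBdef, hB]; exact big_et t p h1)
  have hkK : kap ∈ K := hBK (by rw [hBdef, hB]; exact big_pi t p h1 hn.im)
  obtain ⟨θ, hθ⟩ := TG.exists_theta _ N hN
  have hDK : ∀ δ ∈ TT b, (∀ i, δ (θ i) = 0) → δ ∈ DK K := by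
    intro δ hδ hδθ
    have hδB : ∀ x ∈ B, δ x = 0 := by
      intro x hx
      refine der_zero_alg (IntermediateField.adjoin ℚ (Set.range θ)) δ ?_ x (hθ x hx)
      refine der_zero_adjoin (Set.range θ) δ ?_
      rintro _ ⟨i, rfl⟩
      exact hδθ i
    refine der_zero_adjoin _ δ ?_
    rintro x ((hx | ⟨i, rfl⟩) | hx)
    · exact hδB x hx
    · exact hδ i
    · rw [Set.mem_singleton_iff] at hx
      rw [hx]
      exact der_zero_alg B δ hδB μ (hg s k t p)
  have hr1 : r + 2 * r' ≤ Module.finrank ℂ ((DK K).map (lgV (fun j => b j * z))) :=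
    rank_DK b θ K hDK _ _ (by omega)
  have hr2 : 2 * r' ≤ Module.finrank ℂ ((DK K).map (lamV τ μ (fun j => b j * (z / ω₁)))) :=
    rank_DK b θ K hDK _ _ (by omega)
  obtain ⟨c₀, c₀', δ, hδ, hdet⟩ := hA τ μ hn K hcK hμK hτK heK hkK m r r'
    (fun j => b j * z) (fun j => b j * (z / ω₁)) hr2 hr1
  obtain ⟨P, hP0, hPh, hPc⟩ := hP τ μ hn K hμK hτK heK hkK m r r'
    (fun j => b j * z) (fun j => b j * (z / ω₁)) c₀ c₀' δ hδ hdet
  refine ⟨P, hP0, hPh, fun c c' hc u v hu hv => ?_⟩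
  obtain ⟨hnl, hi⟩ := hPc c c' hc
  have hv' : ∀ i, ∑ j, (c' i j : ℂ) * (b j * (z / ω₁)) = v i / ω₁ := by
    intro i
    rw [hv i, Finset.sum_mul, Finset.sum_div]
    exact Finset.sum_congr rfl fun j _ => by ring
  refine ⟨?_, fin_step ω₁ ω₂ t p u v K hBK _ hi ?_ (by simp; omega)⟩
  · intro i x y hxy
    have h2 := hnl i
    rw [hv' i] at h2
    apply h2
    rw [hxy]
    rcases hω with h | h
    · refine mem_Lam.2 ⟨x, y, ?_⟩
      rw [h]
      field_simp
    · refine mem_Lam.2 ⟨x, -y, ?_⟩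
      rw [h]
      push_cast
      field_simp
  have hu' : ∀ i, ∑ j, (c i j : ℂ) * (b j * z) = u i := by
    intro i
    rw [hu i, Finset.sum_mul]
    exact Finset.sum_congr rfl fun j _ => by ring
  have hμL : μ ∈ CD.acl (bigField ω₁ ω₂ (Fin.append t u) (Fin.append p v)) :=
    CD.mem_acl.2 (hg _ _ _ _)
  rintro (i | ⟨i, q⟩)
  · simp only [Sum.elim_inl]
    refine CD.le_acl _ ?_
    have h3 := big_exp ω₁ ω₂ (Fin.append t u) (Fin.append p v) (Fin.natAdd s i)
    rw [Fin.append_right] at h3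
    rw [hu' i]
    exact h3
  · have h4 : wp 1 τ (v i / ω₁) ∈ CD.acl (bigField ω₁ ω₂ (Fin.append t u) (Fin.append p v)) := by
      refine CD.le_acl _ ?_
      have h3 := big_wp' (τ := τ) (Fin.append t u) (Fin.append p v) h1 (Fin.natAdd k i)
      rw [Fin.append_right] at h3
      rw [hB]
      exact h3
    have h5 : zt 1 τ (v i / ω₁) ∈ CD.acl (bigField ω₁ ω₂ (Fin.append t u) (Fin.append p v)) := by
      refine CD.le_acl _ ?_
      have h3 := big_zt' (τ := τ) (Fin.append t u) (Fin.append p v) h1 (Fin.natAdd k i)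
      rw [Fin.append_right] at h3
      rw [hB]
      exact h3
    simp only [Sum.elim_inr]
    rw [hv' i]
    cases q with
    | true =>
      rw [if_pos rfl]
      exact mul_mem hμL h5
    | false =>
      rw [if_neg (by simp)]
      exact mul_mem (pow_mem hμL 2) h4

/-- FinalZ -/
theorem FinalZ_pf (hA : S_RelAll) (hP : S_RelPol) : S_FinalZ := by
  intro m κ r r' N b z ω₁ ω₂ hm hκ hS hE s k t p hN
  obtain ⟨P, h1, h2, h3⟩ := FinalZ2_pf hA hP m κ r r' N b z ω₁ ω₂ hm hκ hS hE s k t p hN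
  exact ⟨P, h1, h2, fun c c' hc u v hu hv => (h3 c c' hc u v hu hv).2⟩

end Pool.Agent.Work.MP_8da9ea_nt.EB
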