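import Pool.Agent.Work.MP_8da9ea_nt.EB.StmtsG
import Pool.Agent.Work.MP_8da9ea_nt.EB.StmtsT

/-!
# Item GCoreE of the elliptic block: the rank at a generic point for `ℚ`-linearly independent `x`
-/

set_option autoImplicit false

namespace Pool.Agent.Work.MP_8da9ea_nt.EB

open Pool.Agent.Work.MP_327059_nt.GL Pool.Agent.Work.MP_8da9ea_nt.S

namespace I_GCoreE

lemma kf_le (hK : S_Kf) {τ : ℂ} (hτ : 0 < τ.im) :
    (kf τ).toSubalgebra.toSubmodule ≤ Submodule.span ℚ ({1, τ} : Set ℂ) := by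
  intro g hg
  have hg' : g ∈ kf τ := hg
  obtain ⟨N, hN, h1, -⟩ := ((hK τ hτ).2.1 g).1 hg'
  obtain ⟨p, q, hpq⟩ := mem_Lam.1 h1
  have hN' : (N : ℂ) ≠ 0 := by exact_mod_cast hN
  rw [Submodule.mem_span_pair]
  refine ⟨(p : ℚ) / N, (q : ℚ) / N, ?_⟩
  rw [Rat.smul_def, Rat.smul_def]
  push_cast
  field_simp
  linear_combination -hpq

lemma kf_fin (hK : S_Kf) {τ : ℂ} (hτ : 0 < τ.im) : FiniteDimensional ℚ (kf τ) := by
  have hfin : Set.Finite ({1, τ} : Set ℂ) := by simp
  have : FiniteDimensional ℚ (Submodule.span ℚ ({1, τ} : Set ℂ)) :=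
    FiniteDimensional.span_of_finite ℚ hfin
  exact Submodule.finiteDimensional_of_le (kf_le hK hτ)

lemma kf_rank (hK : S_Kf) {τ : ℂ} (hτ : 0 < τ.im) : Module.finrank ℚ (kf τ) ≤ 2 := by
  have hfin : Set.Finite ({1, τ} : Set ℂ) := by simp
  have : FiniteDimensional ℚ (Submodule.span ℚ ({1, τ} : Set ℂ)) :=
    FiniteDimensional.span_of_finite ℚ hfin
  have h0 : Module.finrank ℚ (kf τ).toSubalgebra.toSubmodule ≤
      Module.finrank ℚ (Submodule.span ℚ ({1, τ} : Set ℂ)) :=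
    Submodule.finrank_mono (kf_le hK hτ)
  classical
  have h2 : Module.finrank ℚ (Submodule.span ℚ (({1, τ} : Finset ℂ) : Set ℂ)) ≤
      ({1, τ} : Finset ℂ).card := finrank_span_finset_le_card _
  rw [Finset.coe_pair] at h2
  exact h0.trans (h2.trans Finset.card_le_two)

/-- At least half of the `x_i` are linearly independent over `k`. -/
lemma select (hK : S_Kf) {τ : ℂ} (hτ : 0 < τ.im) {n : ℕ} (x : Fin n → ℂ)
    (hx : LinearIndependent ℚ x) : ∃ (d : ℕ) (σ : Fin d → Fin n), Function.Injective σ ∧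
      n ≤ 2 * d ∧ LinearIndependent (kf τ) (x ∘ σ) := by
  obtain ⟨κ, a, ha, hspan, hli⟩ := exists_linearIndependent' (kf τ) x
  have : Finite κ := Finite.of_injective a ha
  have := Fintype.ofFinite κ
  have hfd := kf_fin hK hτ
  set S : Submodule (kf τ) ℂ := Submodule.span (kf τ) (Set.range x) with hS
  have hfS : FiniteDimensional (kf τ) S :=
    FiniteDimensional.span_of_finite (kf τ) (Set.finite_range x)
  have hcard : Module.finrank (kf τ) S = Fintype.card κ := by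
    rw [← hspan]
    exact finrank_span_eq_card hli
  have hfQ : FiniteDimensional ℚ S := Module.Finite.trans (kf τ) S
  have hmul : Module.finrank ℚ (kf τ) * Module.finrank (kf τ) S = Module.finrank ℚ S :=
    Module.finrank_mul_finrank ℚ (kf τ) S
  have hx' : LinearIndependent ℚ (fun i => (⟨x i, Submodule.subset_span ⟨i, rfl⟩⟩ : S)) :=
    LinearIndependent.of_comp (S.subtype.restrictScalars ℚ) hx
  have hn : n ≤ Module.finrank ℚ S := by
    have := hx'.fintype_card_le_finrank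
    rwa [Fintype.card_fin] at this
  refine ⟨Fintype.card κ, a ∘ (Fintype.equivFin κ).symm,
    ha.comp (Fintype.equivFin κ).symm.injective, ?_, ?_⟩
  · rw [← hmul, hcard] at hn
    exact hn.trans (Nat.mul_le_mul_right _ (kf_rank hK hτ))
  · have := hli.comp (Fintype.equivFin κ).symm (Fintype.equivFin κ).symm.injective
    exact this

lemma kli_of_li (hK : S_Kf) {τ : ℂ} (hτ : 0 < τ.im) {d : ℕ} {y : Fin d → ℂ}
    (hy : LinearIndependent (kf τ) y) : KLI τ y := by
  intro g hg h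
  rw [Fintype.linearIndependent_iff] at hy
  funext j
  have := hy (fun j => ⟨g j, ((hK τ hτ).2.1 (g j)).2 (hg j)⟩) h j
  exact congrArg Subtype.val this

/-- Rationally independent integer vectors are independent over `ℂ`. -/
lemma cli {d n : ℕ} {g : Fin n → Fin d → ℤ} {y : Fin d → ℂ}
    (hg : LinearIndependent ℚ (fun i => cmb (g i) y)) (c : Fin n → ℂ)
    (hc : ∀ k, ∑ i, c i * (g i k : ℂ) = 0) : c = 0 := by
  rw [Fintype.linearIndependent_iff] at hg
  funext i
  rw [Pi.zero_apply, ← Module.forall_dual_apply_eq_zero_iff ℚ]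
  intro f
  have hz : ∀ k, ∑ i, f (c i) * (g i k : ℚ) = 0 := fun k => by
    have h1 : f (∑ i, c i * (g i k : ℂ)) = ∑ i, f (c i) * (g i k : ℚ) := by
      rw [map_sum]
      refine Finset.sum_congr rfl fun i _ => ?_
      have : c i * (g i k : ℂ) = (g i k : ℤ) • c i := by
        rw [zsmul_eq_mul, mul_comm]
      rw [this, map_zsmul, zsmul_eq_mul, mul_comm]
    rw [← h1, hc k, map_zero]
  refine hg (fun i => f (c i)) ?_ i
  have : ∀ i, f (c i) • cmb (g i) y = ∑ k, ((f (c i) * (g i k : ℚ) : ℚ) : ℂ) * y k := fun i => by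
    rw [Rat.smul_def, cmb, Finset.mul_sum]
    refine Finset.sum_congr rfl fun k _ => ?_
    push_cast
    ring
  simp_rw [this]
  rw [Finset.sum_comm]
  refine Finset.sum_eq_zero fun k _ => ?_
  rw [← Finset.sum_mul, ← Rat.cast_sum, hz k, Rat.cast_zero, zero_mul]

lemma kli_cmb (hK : S_Kf) {τ : ℂ} (hτ : 0 < τ.im) {d n : ℕ} {g : Fin n → Fin d → ℤ}
    {y : Fin d → ℂ} (hy : LinearIndependent (kf τ) y)
    (hg : LinearIndependent ℚ (fun i => cmb (g i) y)) : KLI τ (fun i => cmb (g i) y) := by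
  intro c hc h
  refine cli hg c fun k => ?_
  rw [Fintype.linearIndependent_iff] at hy
  have hmem : ∀ k, ∑ i, c i * (g i k : ℂ) ∈ kf τ := fun k =>
    sum_mem fun i _ => mul_mem (((hK τ hτ).2.1 (c i)).2 (hc i)) (intCast_mem _ _)
  have h2 := hy (fun k => ⟨∑ i, c i * (g i k : ℂ), hmem k⟩) (by
    have h3 : ∑ k, (∑ i, c i * (g i k : ℂ)) * y k = 0 := by
      rw [← h]
      simp_rw [cmb, Finset.mul_sum, Finset.sum_mul]
      rw [Finset.sum_comm]
      refine Finset.sum_congr rfl fun i _ => Finset.sum_congr rfl fun k _ => ?_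
      ring
    exact h3) k
  exact congrArg Subtype.val h2

/-- `λ` as an additive map. -/
noncomputable def lamHom (hL : S_LamAdd) {τ μ : ℂ} (h : Nrm τ μ) (δ : Derivation ℚ ℂ ℂ) :
    ℂ →+ ℂ :=
  AddMonoidHom.mk' (lam τ μ δ) (hL τ μ h δ)

lemma lam_cmb (hL : S_LamAdd) {τ μ : ℂ} (h : Nrm τ μ) (δ : Derivation ℚ ℂ ℂ) {d : ℕ}
    (s : Fin d → ℤ) (y : Fin d → ℂ) (c : ℂ) :
    lam τ μ δ (c * cmb s y) = ∑ k, (s k : ℂ) * lam τ μ δ (c * y k) := by
  have h1 : c * cmb s y = ∑ k, s k • (c * y k) := by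
    rw [cmb, Finset.mul_sum]
    refine Finset.sum_congr rfl fun k _ => ?_
    rw [zsmul_eq_mul]
    ring
  have h2 : lamHom hL h δ (c * cmb s y) = ∑ k, s k • lamHom hL h δ (c * y k) := by
    rw [h1, map_sum]
    exact Finset.sum_congr rfl fun k _ => map_zsmul _ _ _
  have h3 : ∑ k, s k • lamHom hL h δ (c * y k) = ∑ k, (s k : ℂ) * lam τ μ δ (c * y k) :=
    Finset.sum_congr rfl fun k _ => zsmul_eq_mul _ _
  rw [← h3, ← h2]
  rfl

end I_GCoreE

open I_GCoreE in
/-- G10': the rank at a generic point (`x` linearly independent over `ℚ`). -/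
theorem GCoreE_pf (h0 : S_GCoreE0) (hR : S_RedNT) (hK : S_Kf) (hL : S_LamAdd) : S_GCoreE := by
  intro Q m
  obtain ⟨n₀, hn₀⟩ := h0 Q m
  refine ⟨2 * (n₀ + 2 * m), fun τ μ b hN hFT hb n hn x hx κ hκ => ?_⟩
  have hτ := hN.im
  have hb0 : ∀ j, b j ≠ 0 := fun j hj => by
    have h1 : (Pi.single j 1 : Fin m → ℂ) = 0 := by
      refine hb (Pi.single j 1) (fun i => ?_) ?_
      · by_cases hij : i = j
        · subst hij
          rw [Pi.single_eq_same]
          exact ⟨1, one_ne_zero, mem_Lam.2 ⟨1, 0, by simp⟩, mem_Lam.2 ⟨0, 1, by simp⟩⟩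
        · rw [Pi.single_eq_of_ne hij]
          exact ⟨1, one_ne_zero, mem_Lam.2 ⟨0, 0, by simp⟩, mem_Lam.2 ⟨0, 0, by simp⟩⟩
      · rw [Finset.sum_eq_single j]
        · rw [hj, mul_zero]
        · intro i _ hij
          rw [Pi.single_eq_of_ne hij, zero_mul]
        · intro h
          exact absurd (Finset.mem_univ j) h
    have h2 := congrFun h1 j
    rw [Pi.single_eq_same] at h2
    exact one_ne_zero h2
  obtain ⟨d, σ, hσ, hd, hy⟩ := select hK hτ x hx
  obtain ⟨n', g, hn', hg, hNT⟩ := hR τ m d b (x ∘ σ) hτ hb0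
    (hx.comp σ hσ)
  obtain ⟨v', hv'⟩ := hn₀ τ μ b hN hFT hb n' (by omega) (fun i => cmb (g i) (x ∘ σ))
    (kli_cmb hK hτ hy hg) hNT κ hκ
  -- the vector `v`
  set w : Fin d → ℂ := fun k => ∑ i, v' i * (g i k : ℂ) with hw
  set v : Fin n → ℂ := fun j => ∑ k, if σ k = j then w k else 0 with hv
  have hvs : ∀ c : Fin n → ℂ, ∑ j, v j * c j = ∑ k, w k * c (σ k) := fun c => by
    simp_rw [hv, Finset.sum_mul]
    rw [Finset.sum_comm]
    refine Finset.sum_congr rfl fun k _ => ?_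
    rw [Finset.sum_eq_single (σ k)]
    · rw [if_pos rfl]
    · intro j _ hj
      rw [if_neg (Ne.symm hj), zero_mul]
    · intro h
      exact absurd (Finset.mem_univ _) h
  have hom : ∀ δ, omE τ μ (fun i j => b j * x i) v δ =
      omE τ μ (fun i j => b j * cmb (g i) (x ∘ σ)) v' δ := fun δ => by
    funext j
    change ∑ i, v i * lam τ μ δ (b j * x i) =
      ∑ i, v' i * lam τ μ δ (b j * cmb (g i) (x ∘ σ))
    rw [hvs (fun i => lam τ μ δ (b j * x i))]
    simp_rw [lam_cmb hL hN, hw, Finset.sum_mul, Finset.mul_sum]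
    rw [Finset.sum_comm]
    refine Finset.sum_congr rfl fun i _ => Finset.sum_congr rfl fun k _ => ?_
    rw [Function.comp_apply]
    ring
  have hTT : TT v' ≤ TT v := by
    intro δ hδ j
    have hδ' : ∀ i, δ (v' i) = 0 := hδ
    have hwk : ∀ k, δ (w k) = 0 := fun k => by
      simp_rw [hw]
      rw [map_sum]
      refine Finset.sum_eq_zero fun i _ => ?_
      rw [Derivation.leibniz, hδ' i, smul_zero, add_zero, Derivation.map_intCast, smul_zero]
    simp_rw [hv]
    rw [map_sum]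
    refine Finset.sum_eq_zero fun k _ => ?_
    split_ifs
    · exact hwk k
    · exact map_zero _
  refine ⟨v, hv'.trans ?_⟩
  refine Nat.add_le_add_left ?_ _
  unfold rkE
  refine Submodule.finrank_mono ?_
  rintro _ ⟨δ, hδ, rfl⟩
  exact ⟨δ, ⟨hTT hδ.1, hδ.2⟩, hom δ⟩

end Pool.Agent.Work.MP_8da9ea_nt.EB
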