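import Pool.Agent.Work.MP_8da9ea_nt.EB.StmtsG
import Pool.Agent.Work.RW.Rank

/-!
# Elliptic block, item LinAlgK: linear algebra over a field of algebraic numbers
-/

set_option autoImplicit false

namespace Pool.Agent.Work.MP_8da9ea_nt.EB

open MvPolynomial Pool.Agent.Work.MP_327059_nt.GL Pool.Agent.Work.MP_8da9ea_nt.S

namespace I_LinAlgK

/-- The annihilator over the subfield. -/
def annF {k : IntermediateField ℚ ℂ} {n m : ℕ} (G : Submodule k (Fin n → Fin m → k)) :
    Submodule k (Fin n → Fin m → k) where
  carrier := {b | ∀ ξ ∈ G, ∑ i, ∑ j, ξ i j * b i j = 0}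
  add_mem' {a b} ha hb ξ hξ := by
    have h1 := ha ξ hξ
    have h2 := hb ξ hξ
    simp only [Pi.add_apply, mul_add, Finset.sum_add_distrib, h1, h2, add_zero]
  zero_mem' ξ _ := by simp
  smul_mem' c a ha ξ hξ := by
    have h1 := ha ξ hξ
    have h2 : ∑ i, ∑ j, ξ i j * (c • a) i j = c * ∑ i, ∑ j, ξ i j * a i j := by
      rw [Finset.mul_sum]
      refine Finset.sum_congr rfl fun i _ => ?_
      rw [Finset.mul_sum]
      refine Finset.sum_congr rfl fun j _ => ?_
      simp only [Pi.smul_apply, smul_eq_mul]
      ring
    rw [h2, h1, mul_zero]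

/-- the complex annihilator is defined over `k` -/
theorem annExt {k : IntermediateField ℚ ℂ} {n m : ℕ} (G : Submodule k (Fin n → Fin m → k)) :
    annK G = Submodule.span ℂ
      {b : Fin n → Fin m → ℂ | ∃ b0 ∈ annF G, b = fun i j => (b0 i j : ℂ)} := by
  classical
  apply le_antisymm
  · intro b hb
    let e := Module.Basis.ofVectorSpace k ℂ
    let T : Finset _ := Finset.univ.biUnion (fun i : Fin n => Finset.univ.biUnion
      (fun j : Fin m => (e.repr (b i j)).support))
    have hexp : b = ∑ l ∈ T, (e l) • (fun (i : Fin n) (j : Fin m) =>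
        ((e.coord l (b i j) : k) : ℂ)) := by
      funext i j
      have h1 : b i j = ∑ l ∈ T, (e.repr (b i j) l) • e l := by
        have h2 := e.linearCombination_repr (b i j)
        rw [Finsupp.linearCombination_apply, Finsupp.sum] at h2
        conv_lhs => rw [← h2]
        apply Finset.sum_subset
        · intro l hl
          simp only [T, Finset.mem_biUnion, Finset.mem_univ, true_and]
          exact ⟨i, j, hl⟩
        · intro l _ hl
          rw [Finsupp.notMem_support_iff.mp hl, zero_smul]
      rw [Finset.sum_apply, Finset.sum_apply]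
      conv_lhs => rw [h1]
      refine Finset.sum_congr rfl fun l _ => ?_
      simp only [Pi.smul_apply, smul_eq_mul, Module.Basis.coord_apply]
      rw [Algebra.smul_def, mul_comm]
      rfl
    rw [hexp]
    refine Submodule.sum_mem _ fun l _ => Submodule.smul_mem _ _ (Submodule.subset_span ?_)
    refine ⟨fun i j => e.coord l (b i j), ?_, rfl⟩
    intro ξ hξ
    have h1 : ∑ i, ∑ j, (ξ i j : ℂ) * b i j = 0 := hb ξ hξ
    have h2 := congrArg (e.coord l) h1
    rw [map_zero, map_sum] at h2
    rw [← h2]
    refine Finset.sum_congr rfl fun i _ => ?_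
    rw [map_sum]
    refine Finset.sum_congr rfl fun j _ => ?_
    have h3 : (ξ i j : ℂ) * b i j = ξ i j • b i j := by
      rw [Algebra.smul_def]
      rfl
    rw [h3, map_smul, smul_eq_mul]
  · rw [Submodule.span_le]
    rintro b ⟨b0, hb0, rfl⟩
    intro ξ hξ
    have h1 : ∑ i, ∑ j, ξ i j * b0 i j = 0 := hb0 ξ hξ
    have h2 := congrArg (fun q : k => (q : ℂ)) h1
    push_cast at h2
    exact h2

/-- double annihilator -/
theorem doubleAnn {k : IntermediateField ℚ ℂ} {n m : ℕ} (G : Submodule k (Fin n → Fin m → k))
    (z : Fin n → Fin m → k) (hz : ∀ b ∈ annF G, ∑ i, ∑ j, z i j * b i j = 0) : z ∈ G := by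
  classical
  by_contra hcon
  obtain ⟨f, hfz, hfL⟩ := Submodule.exists_le_ker_of_notMem hcon
  have hf : ∀ w : Fin n → Fin m → k,
      f w = ∑ i, ∑ j, w i j * f (Pi.single i (Pi.single j 1)) := by
    intro w
    have hw : w = ∑ i, ∑ j, w i j • (Pi.single i (Pi.single j 1) : Fin n → Fin m → k) := by
      funext i j
      rw [Finset.sum_apply, Finset.sum_apply]
      rw [Finset.sum_eq_single i]
      · rw [Finset.sum_apply, Finset.sum_apply, Finset.sum_eq_single j]
        · simp
        · intro j' _ hj'
          simp [Ne.symm hj']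
        · simp
      · intro i' _ hi'
        rw [Finset.sum_apply, Finset.sum_apply]
        refine Finset.sum_eq_zero fun j' _ => ?_
        simp [Ne.symm hi']
      · simp
    conv_lhs => rw [hw]
    rw [map_sum]
    refine Finset.sum_congr rfl fun i _ => ?_
    rw [map_sum]
    refine Finset.sum_congr rfl fun j _ => ?_
    rw [map_smul, smul_eq_mul]
  apply hfz
  rw [hf z]
  apply hz
  intro ξ hξ
  have h2 := hfL hξ
  rw [LinearMap.mem_ker, hf] at h2
  exact h2

/-- elements killing a point of maximal rank -/
theorem rankInc {F : Type} [Field F] [Infinite F] {n m : ℕ} (B : Submodule F (Fin n → Fin m → F))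
    (v0 : Fin n → F)
    (hmax : ∀ w : Fin n → F, Module.finrank F (B.map (mv w)) ≤ Module.finrank F (B.map (mv v0))) :
    ∀ b ∈ B, mv v0 b = 0 → ∀ w : Fin n → F, mv w b ∈ B.map (mv v0) := by
  classical
  intro b hb hb0 w
  by_contra hw
  set U : Submodule F (Fin m → F) := B.map (mv v0) with hU
  set u := Module.finrank F U with hu
  let e := Module.finBasis F U
  have hpre : ∀ k : Fin u, ∃ c ∈ B, mv v0 c = (e k : Fin m → F) := by
    intro k
    obtain ⟨c, hc1, hc2⟩ := Submodule.mem_map.mp
      (show ((e k : U) : Fin m → F) ∈ B.map (mv v0) from (e k).2)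
    exact ⟨c, hc1, hc2⟩
  choose c hcB hc using hpre
  -- the independent family at the point `v0`
  let F0 : Option (Fin u) → (Fin m → F) := fun o => o.elim (mv w b) (fun k => (e k : Fin m → F))
  have hF0 : LinearIndependent F F0 := by
    have he : LinearIndependent F (fun k : Fin u => (e k : Fin m → F)) := by
      have h1 := e.linearIndependent
      exact h1.map' U.subtype (Submodule.ker_subtype U)
    have hspan : Submodule.span F (Set.range (fun k : Fin u => (e k : Fin m → F))) = U := by
      have h1 : Set.range (fun k : Fin u => (e k : Fin m → F)) = U.subtype '' (Set.range e) := by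
        rw [← Set.range_comp]
        rfl
      rw [h1, Submodule.span_image, e.span_eq, Submodule.map_top, Submodule.range_subtype]
    have h2 := linearIndependent_option (K := F) (v := F0)
    rw [h2]
    refine ⟨he, ?_⟩
    show mv w b ∉ Submodule.span F (Set.range (fun k : Fin u => (e k : Fin m → F)))
    rw [hspan]
    exact hw
  obtain ⟨L, hL⟩ := LinearMap.exists_leftInverse_of_injective (Fintype.linearCombination F F0)
    (by
      rw [LinearMap.ker_eq_bot]
      exact hF0.fintypeLinearCombination_injective)
  have hLF : ∀ o, L (F0 o) = Pi.single o 1 := by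
    intro o
    have h1 : Fintype.linearCombination F F0 (Pi.single o 1) = F0 o := by
      simp
    rw [← h1]
    exact LinearMap.congr_fun hL (Pi.single o 1)
  -- the matrix
  let N : Matrix (Option (Fin u)) (Option (Fin u)) F :=
    Matrix.of fun o => o.elim 0 (fun k => L (mv w (c k)))
  have hpoly : ((-N).charpoly * Polynomial.X) ≠ 0 :=
    mul_ne_zero (Matrix.charpoly_monic _).ne_zero Polynomial.X_ne_zero
  obtain ⟨s, hs⟩ := Polynomial.exists_eval_ne_zero_of_natDegree_lt_card _ hpoly
    (lt_of_lt_of_le Cardinal.natCast_lt_aleph0 (Cardinal.aleph0_le_mk F))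
  rw [Polynomial.eval_mul, Polynomial.eval_X] at hs
  have hs0 : s ≠ 0 := right_ne_zero_of_mul hs
  have hdet : (s • (1 : Matrix (Option (Fin u)) (Option (Fin u)) F) + N).det ≠ 0 := by
    have h1 := left_ne_zero_of_mul hs
    rw [Matrix.eval_charpoly] at h1
    have h2 : (Matrix.scalar (Option (Fin u))) s - -N =
        s • (1 : Matrix (Option (Fin u)) (Option (Fin u)) F) + N := by
      rw [sub_neg_eq_add, Matrix.smul_one_eq_diagonal, Matrix.scalar_apply]
    rwa [h2] at h1
  set v1 : Fin n → F := s • v0 + w with hv1
  have hmv : ∀ a : Fin n → Fin m → F, mv v1 a = s • mv v0 a + mv w a := by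
    intro a
    funext j
    simp only [mv, LinearMap.coe_mk, AddHom.coe_mk, hv1, Pi.add_apply, Pi.smul_apply, smul_eq_mul,
      Finset.mul_sum]
    rw [← Finset.sum_add_distrib]
    exact Finset.sum_congr rfl fun i _ => by ring
  let G : Option (Fin u) → (B.map (mv v1)) := fun o => o.elim
    ⟨mv v1 (s • b), Submodule.mem_map_of_mem (B.smul_mem s hb)⟩
    (fun k => ⟨mv v1 (c k), Submodule.mem_map_of_mem (hcB k)⟩)
  have hG : LinearIndependent F G := by
    have h1 : LinearIndependent F (fun o => L ((G o : B.map (mv v1)) : Fin m → F)) := by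
      have h2 : LinearIndependent F (fun o : Option (Fin u) =>
          (s • (1 : Matrix (Option (Fin u)) (Option (Fin u)) F) + N) o) :=
        Matrix.linearIndependent_rows_of_det_ne_zero hdet
      have h4 : (fun o => L ((G o : B.map (mv v1)) : Fin m → F)) = (fun o : Option (Fin u) =>
          (s • (1 : Matrix (Option (Fin u)) (Option (Fin u)) F) + N) o) := ?_
      · rw [h4]
        exact h2
      funext o
      cases o with
      | none =>
        have h3 : ((G none : B.map (mv v1)) : Fin m → F) = s • F0 none := by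
          show mv v1 (s • b) = s • mv w b
          rw [map_smul, hmv, hb0, smul_zero, zero_add]
        rw [h3, map_smul, hLF]
        funext o'
        simp [N, Matrix.one_apply, Pi.single_apply, eq_comm]
      | some k =>
        have h3 : ((G (some k) : B.map (mv v1)) : Fin m → F) = s • F0 (some k) + mv w (c k) := by
          show mv v1 (c k) = s • (e k : Fin m → F) + mv w (c k)
          rw [hmv, hc k]
        rw [h3, map_add, map_smul, hLF]
        funext o'
        simp [N, Matrix.one_apply, Pi.single_apply, eq_comm]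
    exact LinearIndependent.of_comp (L.comp (B.map (mv v1)).subtype) h1
  have hcard := hG.fintype_card_le_finrank
  rw [Fintype.card_option, Fintype.card_fin] at hcard
  have := hmax v1
  omega

/-- the generic matrix -/
noncomputable def genM {k : Type} [Field k] {n m N : ℕ} (bb : Fin N → Fin n → Fin m → k) :
    Matrix (Fin N) (Fin m) (MvPolynomial (Fin n) k) :=
  Matrix.of fun t j => ∑ i, C (bb t i j) * X i

/-- the specialised matrix -/
noncomputable def genK {k : Type} [Field k] (K : Type) [Field K] [Algebra k K] {n m N : ℕ}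
    (bb : Fin N → Fin n → Fin m → k) (w : Fin n → K) : Matrix (Fin N) (Fin m) K :=
  Matrix.of fun t j => ∑ i, w i * algebraMap k K (bb t i j)

theorem gen_det {k : Type} [Field k] (K : Type) [Field K] [Algebra k K] {n m N p : ℕ}
    (bb : Fin N → Fin n → Fin m → k) (w : Fin n → K) (e : Fin p → Fin N) (f : Fin p → Fin m) :
    ((genK K bb w).submatrix e f).det = aeval w ((genM bb).submatrix e f).det := by
  rw [AlgHom.map_det]
  congr 1
  ext i j
  simp only [genK, genM, Matrix.submatrix_apply, Matrix.of_apply, AlgHom.mapMatrix_apply,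
    Matrix.map_apply, map_sum, map_mul, aeval_X, algHom_C]
  exact Finset.sum_congr rfl fun _ _ => mul_comm _ _

theorem gen_span (K : Type) [Field K] {n m N : ℕ}
    (cc : Fin N → Fin n → Fin m → K) (w : Fin n → K) (A : Matrix (Fin N) (Fin m) K)
    (hA : ∀ t j, A t j = ∑ i, w i * cc t i j) :
    Module.finrank K ((Submodule.span K (Set.range cc)).map (mv w)) = A.rank := by
  have h : (Submodule.span K (Set.range cc)).map (mv w) = Submodule.span K (Set.range A.row) := by
    rw [Submodule.map_span, ← Set.range_comp]
    congr 2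
    funext t
    funext j
    exact (hA t j).symm
  rw [h, ← Matrix.rank_eq_finrank_span_row]

/-- the generic rank is attained at points over `k` -/
theorem genRank {k : IntermediateField ℚ ℂ} {n m : ℕ} (B : Submodule k (Fin n → Fin m → k))
    (v : Fin n → ℂ) (hv : AlgebraicIndependent k v) (u : ℕ)
    (hu : Module.finrank ℂ ((Submodule.span ℂ
      {b : Fin n → Fin m → ℂ | ∃ b0 ∈ B, b = fun i j => (b0 i j : ℂ)}).map (mv v)) = u) :
    (∃ v0 : Fin n → k, Module.finrank k (B.map (mv v0)) = u) ∧
    ∀ w : Fin n → k, Module.finrank k (B.map (mv w)) ≤ u := by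
  classical
  let bs := Module.finBasis k B
  let bb : Fin (Module.finrank k B) → Fin n → Fin m → k := fun t => (bs t : Fin n → Fin m → k)
  have hB : B = Submodule.span k (Set.range bb) := by
    have h1 : Submodule.span k (Set.range bb) = (Submodule.span k (Set.range bs)).map B.subtype := by
      rw [Submodule.map_span, ← Set.range_comp]
      rfl
    rw [h1, bs.span_eq, Submodule.map_top, Submodule.range_subtype]
  have hQ : ∀ w : Fin n → k, Module.finrank k (B.map (mv w)) = (genK k bb w).rank := by
    intro w
    have h1 := gen_span k bb w (genK k bb w) (fun t j => rfl)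
    rw [← hB] at h1
    exact h1
  have hC : u = (genK ℂ bb v).rank := by
    have h1 := gen_span ℂ (fun t i j => (bb t i j : ℂ)) v (genK ℂ bb v) (fun t j => rfl)
    have hs : Submodule.span ℂ {b : Fin n → Fin m → ℂ | ∃ b0 ∈ B, b = fun i j => (b0 i j : ℂ)} =
        Submodule.span ℂ (Set.range fun t i j => (bb t i j : ℂ)) := by
      apply le_antisymm
      · apply Submodule.span_le.2
        rintro b ⟨b0, hb0, rfl⟩
        let c : (Fin n → Fin m → k) →ₗ[k] (Fin n → Fin m → ℂ) :=
          { toFun := fun b i j => (b i j : ℂ)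
            map_add' := fun a b => by
              funext i j
              simp
            map_smul' := fun r a => by
              funext i j
              simp [Algebra.smul_def] }
        have h2 : B ≤ ((Submodule.span ℂ (Set.range fun t i j => (bb t i j : ℂ))).restrictScalars
            k).comap c := by
          refine hB.le.trans (Submodule.span_le.2 ?_)
          rintro _ ⟨t, rfl⟩
          exact Submodule.subset_span ⟨t, rfl⟩
        exact h2 hb0
      · apply Submodule.span_le.2
        rintro _ ⟨t, rfl⟩
        exact Submodule.subset_span ⟨bb t, (bs t).2, rfl⟩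
    rw [← h1, ← hu, hs]
  have hle : ∀ w : Fin n → k, Module.finrank k (B.map (mv w)) ≤ u := by
    intro w
    rw [hQ, hC]
    obtain ⟨e, f, hef⟩ := Pool.Agent.RW.exists_minor (genK k bb w) rfl
    apply Pool.Agent.RW.le_rank_of_minor (e := e) (f := f)
    rw [gen_det] at hef ⊢
    intro h0
    apply hef
    have h3 : ((genM bb).submatrix e f).det = 0 := by
      apply (injective_iff_map_eq_zero (aeval v : MvPolynomial (Fin n) k →ₐ[k] ℂ)).1 hv
      exact h0
    rw [h3, map_zero]
  refine ⟨?_, hle⟩
  obtain ⟨e, f, hef⟩ := Pool.Agent.RW.exists_minor (genK ℂ bb v) hC.symm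
  rw [gen_det] at hef
  have h4 : ((genM bb).submatrix e f).det ≠ 0 := by
    intro h0
    rw [h0, map_zero] at hef
    exact hef rfl
  have h5 : ∃ v0 : Fin n → k, eval v0 ((genM bb).submatrix e f).det ≠ 0 := by
    by_contra hcon
    apply h4
    apply MvPolynomial.funext
    intro x
    rw [map_zero]
    by_contra hx
    exact hcon ⟨x, hx⟩
  obtain ⟨v0, hv0⟩ := h5
  refine ⟨v0, le_antisymm (hle v0) ?_⟩
  rw [hQ]
  apply Pool.Agent.RW.le_rank_of_minor (e := e) (f := f)
  rw [gen_det]
  exact hv0

/-- pairing of the columns with a subspace -/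
noncomputable def pair {F : Type} [Field F] {m : ℕ} (U : Submodule F (Fin m → F)) :
    (Fin m → F) →ₗ[F] (Module.Dual F U) :=
  LinearMap.mk₂ F (fun (c : Fin m → F) (x : U) => ∑ j, c j * (x : Fin m → F) j)
    (fun a b x => by simp only [Pi.add_apply, add_mul, Finset.sum_add_distrib])
    (fun r a x => by
      simp only [Pi.smul_apply, smul_eq_mul]
      rw [Finset.mul_sum]
      exact Finset.sum_congr rfl fun j _ => by ring)
    (fun a x y => by
      simp only [Submodule.coe_add, Pi.add_apply, mul_add, Finset.sum_add_distrib])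
    (fun r a x => by
      simp only [Submodule.coe_smul, Pi.smul_apply, smul_eq_mul]
      rw [Finset.mul_sum]
      exact Finset.sum_congr rfl fun j _ => by ring)

theorem pair_apply {F : Type} [Field F] {m : ℕ} (U : Submodule F (Fin m → F)) (c : Fin m → F)
    (x : U) : pair U c x = ∑ j, c j * (x : Fin m → F) j := rfl

/-- `w ↦ mv w b`. -/
noncomputable def ev {F : Type} [Field F] {n m : ℕ} (b : Fin n → Fin m → F) :
    (Fin n → F) →ₗ[F] (Fin m → F) where
  toFun w := mv w b
  map_add' x y := by
    funext j
    change ∑ i, (x + y) i * b i j = ∑ i, x i * b i j + ∑ i, y i * b i j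
    simp only [Pi.add_apply, add_mul, Finset.sum_add_distrib]
  map_smul' c x := by
    funext j
    change ∑ i, (c • x) i * b i j = c * ∑ i, x i * b i j
    rw [Finset.mul_sum]
    exact Finset.sum_congr rfl fun i _ => by simp only [Pi.smul_apply, smul_eq_mul]; ring

end I_LinAlgK

open I_LinAlgK

theorem LinAlgK_pf : S_LinAlgK := by
  intro k hk n m G v hv0
  have halg : Algebra.IsAlgebraic ℚ k := by
    refine ⟨fun x => ?_⟩
    have h1 := hk x x.2
    exact (isAlgebraic_algebraMap_iff (algebraMap k ℂ).injective).1 h1
  have hv : AlgebraicIndependent k v := hv0.extendScalars k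
  have : Infinite k := inferInstance
  obtain ⟨⟨v0, hv0⟩, hle⟩ := genRank (annF G) v hv (ugK G v) (by rw [← annExt G]; rfl)
  set U : Submodule k (Fin m → k) := (annF G).map (mv v0) with hU
  have hR := rankInc (annF G) v0 (fun w => by rw [← hU, hv0]; exact hle w)
  -- the space Cs
  let Cs : Submodule k (Fin m → k) := LinearMap.ker (pair U)
  have hCs : m ≤ Module.finrank k Cs + ugK G v := by
    have h5 := LinearMap.finrank_range_add_finrank_ker (pair U)
    have h6 : Module.finrank k (LinearMap.range (pair U)) ≤ Module.finrank k (Module.Dual k U) :=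
      Submodule.finrank_le _
    rw [Subspace.dual_finrank_eq, hv0] at h6
    rw [Module.finrank_fin_fun] at h5
    change _ ≤ Module.finrank k (LinearMap.ker (pair U)) + _
    omega
  -- basis vectors
  let bs := Module.finBasis k U
  have hb : ∀ l, ∃ b ∈ annF G, mv v0 b = ((bs l : U) : Fin m → k) := by
    intro l
    have h7 : ((bs l : U) : Fin m → k) ∈ (annF G).map (mv v0) := (bs l).2
    obtain ⟨b, hbB, hbe⟩ := Submodule.mem_map.1 h7
    exact ⟨b, hbB, hbe⟩
  choose b hbB hbe using hb
  let Φ : (Fin n → k) →ₗ[k] (Fin (Module.finrank k U) → ((Fin m → k) ⧸ U)) :=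
    LinearMap.pi (fun l => U.mkQ.comp (ev (b l)))
  have hΦ : ∀ w l, Φ w l = U.mkQ (mv w (b l)) := fun w l => rfl
  let Vs : Submodule k (Fin n → k) := LinearMap.ker Φ
  have hum : Module.finrank k U ≤ m := by
    have := Submodule.finrank_le U
    rwa [Module.finrank_fin_fun] at this
  have hVs : n ≤ Module.finrank k Vs + m * m := by
    have h5 := LinearMap.finrank_range_add_finrank_ker Φ
    have h6 : Module.finrank k (LinearMap.range Φ) ≤
        Module.finrank k (Fin (Module.finrank k U) → ((Fin m → k) ⧸ U)) :=
      Submodule.finrank_le _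
    rw [Module.finrank_pi_fintype] at h6
    simp only [Finset.sum_const, Finset.card_univ, Fintype.card_fin, smul_eq_mul] at h6
    have h7 : Module.finrank k ((Fin m → k) ⧸ U) ≤ m := by
      have := Submodule.finrank_quotient_add_finrank U
      rw [Module.finrank_fin_fun] at this
      omega
    have h8 := Nat.mul_le_mul hum h7
    rw [Module.finrank_fin_fun] at h5
    change _ ≤ Module.finrank k (LinearMap.ker Φ) + _
    omega
  have hVmem : ∀ w ∈ Vs, ∀ β ∈ annF G, mv w β ∈ U := by
    intro w hw β hβ
    have hw' : ∀ l, mv w (b l) ∈ U := by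
      intro l
      have h9 : Φ w = 0 := hw
      have h10 : U.mkQ (mv w (b l)) = 0 := by rw [← hΦ, h9]; rfl
      rwa [Submodule.mkQ_apply, Submodule.Quotient.mk_eq_zero] at h10
    have hmem : mv v0 β ∈ U := Submodule.mem_map_of_mem hβ
    let c := bs.repr ⟨mv v0 β, hmem⟩
    have hsum : (∑ l, c l • ((bs l : U) : Fin m → k)) = mv v0 β := by
      have h11 := bs.sum_repr ⟨mv v0 β, hmem⟩
      have h12 : U.subtype (∑ l, c l • bs l) = mv v0 β := by
        rw [show (∑ l, c l • bs l) = ⟨mv v0 β, hmem⟩ from h11]; rfl
      rw [map_sum] at h12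
      rw [← h12]
      exact Finset.sum_congr rfl fun l _ => by rw [map_smul]; rfl
    let β' : Fin n → Fin m → k := β - ∑ l, c l • b l
    have hβ'B : β' ∈ annF G :=
      (annF G).sub_mem hβ (Submodule.sum_mem _ fun l _ => (annF G).smul_mem _ (hbB l))
    have hβ'0 : mv v0 β' = 0 := by
      change mv v0 (β - ∑ l, c l • b l) = 0
      rw [map_sub, map_sum, ← hsum]
      simp only [map_smul, hbe, sub_self]
    have h13 := hR β' hβ'B hβ'0 w
    have h14 : mv w β = mv w β' + ∑ l, c l • mv w (b l) := by
      change _ = mv w (β - ∑ l, c l • b l) + _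
      rw [map_sub, map_sum]
      simp only [map_smul, sub_add_cancel]
    rw [h14]
    exact U.add_mem h13 (Submodule.sum_mem _ fun l _ => U.smul_mem _ (hw' l))
  refine ⟨Cs, Vs, hCs, hVs, fun c hc w hw => ?_⟩
  refine doubleAnn G (fun i j => w i * c j) (fun β hβ => ?_)
  have h15 := hVmem w hw β hβ
  have h16 : pair U c = 0 := hc
  have h17 : ∑ j, c j * (mv w β) j = 0 := by
    have := pair_apply U c ⟨mv w β, h15⟩
    rw [h16] at this
    simpa using this.symm
  rw [Finset.sum_comm]
  rw [← h17]
  refine Finset.sum_congr rfl fun j _ => ?_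
  change _ = c j * ∑ i, w i * β i j
  rw [Finset.mul_sum]
  exact Finset.sum_congr rfl fun i _ => by ring

end Pool.Agent.Work.MP_8da9ea_nt.EB
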