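import Mathlib
import Pool.Agent.Work.MP_8da9ea_nt.EB.StmtsT

/-!
# ELLIPTIC BLOCK: popular differences (C3 of the paper note)
-/

set_option autoImplicit false

namespace Pool.Agent.Work.MP_8da9ea_nt.EB

theorem I_Pop.sum_eq (n S : ℕ) (A : Finset (Fin n → ℤ))
    (hA : ∀ s ∈ A, ∀ i, 0 ≤ s i ∧ s i ≤ (S : ℤ)) :
    ∑ d ∈ Fintype.piFinset (fun _ : Fin n => Finset.Icc (-(S : ℤ)) S),
      (A.filter fun s => s + d ∈ A).card = A.card * A.card := by
  classical
  have h1 : ∀ d : Fin n → ℤ, (A.filter fun s => s + d ∈ A).card =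
      ∑ s ∈ A, if s + d ∈ A then 1 else 0 := fun d => by
    rw [Finset.card_filter]
  rw [Finset.sum_congr rfl fun d _ => h1 d, Finset.sum_comm]
  have h2 : ∀ s ∈ A, ∑ d ∈ Fintype.piFinset (fun _ : Fin n => Finset.Icc (-(S : ℤ)) S),
      (if s + d ∈ A then 1 else 0) = A.card := by
    intro s hs
    rw [← Finset.card_filter]
    refine Finset.card_bij (fun d _ => s + d) ?_ ?_ ?_
    · intro d hd
      exact (Finset.mem_filter.1 hd).2
    · intro d _ d' _ h
      exact add_left_cancel h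
    · intro t ht
      refine ⟨t - s, ?_, by abel⟩
      rw [Finset.mem_filter, Fintype.mem_piFinset]
      refine ⟨fun i => ?_, by rwa [add_sub_cancel]⟩
      rw [Finset.mem_Icc]
      have e1 := hA s hs i
      have e2 := hA t ht i
      simp only [Pi.sub_apply]
      constructor <;> linarith [e1.1, e1.2, e2.1, e2.2]
  rw [Finset.sum_congr rfl h2, Finset.sum_const, smul_eq_mul]

theorem Pop_pf : S_Pop := by
  classical
  intro n S K A hK hA hM
  set M : ℕ := (S + 1) ^ n with hMdef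
  set Box := Fintype.piFinset (fun _ : Fin n => Finset.Icc (-(S : ℤ)) S) with hBox
  set r : (Fin n → ℤ) → ℕ := fun d => (A.filter fun s => s + d ∈ A).card with hr
  have hM1 : 1 ≤ M := Nat.one_le_pow _ _ (Nat.succ_pos _)
  have hsum : ∑ d ∈ Box, r d = A.card * A.card := I_Pop.sum_eq n S A hA
  have hcard : Box.card ≤ 2 ^ n * M := by
    have e1 : Box.card = (2 * S + 1) ^ n := by
      rw [hBox, Fintype.card_piFinset]
      have : (Finset.Icc (-(S : ℤ)) S).card = 2 * S + 1 := by
        rw [Int.card_Icc]; omega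
      simp [this]
    rw [e1, hMdef, ← mul_pow]
    exact Nat.pow_le_pow_left (by omega) n
  set D := Box.filter (fun d => M ≤ 2 ^ (n + 1) * K ^ 2 * r d) with hD
  have hsplit : ∑ d ∈ D, r d + ∑ d ∈ Box.filter (fun d => ¬ M ≤ 2 ^ (n + 1) * K ^ 2 * r d), r d =
      A.card * A.card := by
    rw [← hsum]
    exact Finset.sum_filter_add_sum_filter_not Box _ _
  set Bd := ∑ d ∈ Box.filter (fun d => ¬ M ≤ 2 ^ (n + 1) * K ^ 2 * r d), r d with hBd
  have hbad : 2 ^ (n + 1) * K ^ 2 * Bd ≤ 2 ^ n * M * M := by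
    rw [hBd, Finset.mul_sum]
    calc ∑ d ∈ Box.filter (fun d => ¬ M ≤ 2 ^ (n + 1) * K ^ 2 * r d), 2 ^ (n + 1) * K ^ 2 * r d
        ≤ ∑ _d ∈ Box.filter (fun d => ¬ M ≤ 2 ^ (n + 1) * K ^ 2 * r d), M := by
          refine Finset.sum_le_sum fun d hd => ?_
          have := (Finset.mem_filter.1 hd).2
          omega
      _ = (Box.filter (fun d => ¬ M ≤ 2 ^ (n + 1) * K ^ 2 * r d)).card * M := by
          rw [Finset.sum_const, smul_eq_mul]
      _ ≤ Box.card * M := Nat.mul_le_mul_right _ (Finset.card_filter_le _ _)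
      _ ≤ 2 ^ n * M * M := Nat.mul_le_mul_right _ hcard
  have hbad2 : 2 * Bd ≤ A.card * A.card := by
    have e1 : 2 ^ n * (K ^ 2 * (2 * Bd)) ≤ 2 ^ n * (K ^ 2 * (A.card * A.card)) := by
      calc 2 ^ n * (K ^ 2 * (2 * Bd)) = 2 ^ (n + 1) * K ^ 2 * Bd := by rw [pow_succ]; ring
        _ ≤ 2 ^ n * M * M := hbad
        _ ≤ 2 ^ n * (K * A.card) * (K * A.card) :=
            Nat.mul_le_mul (Nat.mul_le_mul_left _ hM) hM
        _ = 2 ^ n * (K ^ 2 * (A.card * A.card)) := by ring
    have e2 := Nat.le_of_mul_le_mul_left e1 (by positivity)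
    exact Nat.le_of_mul_le_mul_left e2 (by positivity)
  have hgood : A.card * A.card ≤ 2 * ∑ d ∈ D, r d := by omega
  have hle : ∑ d ∈ D, r d ≤ D.card * A.card := by
    calc ∑ d ∈ D, r d ≤ ∑ _d ∈ D, A.card :=
          Finset.sum_le_sum fun d _ => Finset.card_filter_le _ _
      _ = D.card * A.card := by rw [Finset.sum_const, smul_eq_mul]
  have hApos : 0 < A.card := by
    rcases Nat.eq_zero_or_pos A.card with h | h
    · rw [h] at hM; omega
    · exact h
  have hAD : A.card ≤ 2 * D.card := by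
    have : A.card * A.card ≤ 2 * D.card * A.card := by
      calc A.card * A.card ≤ 2 * ∑ d ∈ D, r d := hgood
        _ ≤ 2 * (D.card * A.card) := Nat.mul_le_mul_left _ hle
        _ = 2 * D.card * A.card := by ring
    exact Nat.le_of_mul_le_mul_right this hApos
  refine ⟨D, ?_, ?_, ?_⟩
  · intro d hd i
    have h1 := (Finset.mem_filter.1 hd).1
    rw [hBox, Fintype.mem_piFinset] at h1
    have h2 := Finset.mem_Icc.1 (h1 i)
    exact abs_le.2 h2
  · calc M ≤ K * A.card := hM
      _ ≤ K * (2 * D.card) := Nat.mul_le_mul_left _ hAD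
      _ = 2 * K * D.card := by ring
  · intro d hd
    exact (Finset.mem_filter.1 hd).2

end Pool.Agent.Work.MP_8da9ea_nt.EB
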