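import Mathlib
import Pool.Agent.Work.MP_8da9ea_nt.EB.StmtsT

/-!
# Elliptic block: the descent
-/

set_option autoImplicit false

namespace Pool.Agent.Work.MP_8da9ea_nt.EB

open MvPolynomial Metric Filter Topology Pool.Agent.Work.MP_327059_nt.GL
  Pool.Agent.Work.MP_8da9ea_nt.S

/-- the coefficient array of a polynomial -/
noncomputable def StepM_p {m W : ℕ} (R : MvPolynomial (Fin m) ℤ) : (Fin 1 → Fin m → Fin W) → ℤ :=
  fun ξ => R.coeff (Finsupp.equivFunOnFinite.symm (fun j => (ξ 0 j : ℕ)))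

lemma StepM_lt {m W : ℕ} (R : MvPolynomial (Fin m) ℤ) (hR : ∀ j, R.degreeOf j < W)
    (d : Fin m →₀ ℕ) (hd : d ∈ R.support) (j : Fin m) : d j < W :=
  lt_of_le_of_lt (MvPolynomial.monomial_le_degreeOf j hd) (hR j)

lemma StepM_AF (τ μ : ℂ) {m W : ℕ} (b : Fin m → ℂ) (R : MvPolynomial (Fin m) ℤ) (hW : 0 < W)
    (hR : ∀ j, R.degreeOf j < W) (z : Fin 1 → ℂ) :
    AF τ μ b (StepM_p (W := W) R) z = aeval (fun j => xe τ μ (b j * z 0)) R := by
  classical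
  unfold AF
  set v : Fin m → ℂ := fun j => xe τ μ (b j * z 0) with hv
  have h1 : ∑ x : Fin 1 → Fin m → Fin W, ((StepM_p R x : ℤ) : ℂ) *
      ∏ r, ∏ j, xe τ μ (b j * z r) ^ (x r j : ℕ) =
      ∑ y : Fin m → Fin W,
        ((R.coeff (Finsupp.equivFunOnFinite.symm (fun j => (y j : ℕ))) : ℤ) : ℂ) *
          ∏ j, v j ^ (y j : ℕ) := by
    refine Fintype.sum_equiv (Equiv.funUnique (Fin 1) (Fin m → Fin W)) _ _ fun x => ?_
    simp only [StepM_p, Equiv.funUnique_apply, Finset.univ_unique, Finset.prod_singleton]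
    rfl
  rw [h1, aeval_def, eval₂_eq']
  symm
  refine Finset.sum_of_injOn
    (fun d : Fin m →₀ ℕ => fun j => if h : d j < W then (⟨d j, h⟩ : Fin W) else ⟨0, hW⟩)
    ?_ ?_ ?_ ?_
  · intro d hd d' hd' hdd
    ext j
    have h2 := congrFun hdd j
    simp only [StepM_lt R hR d hd j, StepM_lt R hR d' hd' j, dif_pos] at h2
    exact congrArg Fin.val h2
  · intro d _
    exact Finset.mem_coe.2 (Finset.mem_univ _)
  · intro y _ hy
    by_cases h0 : R.coeff (Finsupp.equivFunOnFinite.symm (fun j => (y j : ℕ))) = 0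
    · rw [h0, Int.cast_zero, zero_mul]
    · exfalso
      apply hy
      refine ⟨Finsupp.equivFunOnFinite.symm (fun j => (y j : ℕ)), ?_, ?_⟩
      · exact Finset.mem_coe.2 (MvPolynomial.mem_support_iff.2 h0)
      · funext j
        have e1 : (Finsupp.equivFunOnFinite.symm fun j => (y j : ℕ)) j = (y j : ℕ) := rfl
        simp only [e1, Fin.is_lt, dif_pos, Fin.eta]
  · intro d hd
    have h3 : Finsupp.equivFunOnFinite.symm
        (fun j => (((if h : d j < W then (⟨d j, h⟩ : Fin W) else ⟨0, hW⟩) : Fin W) : ℕ)) = d := by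
      ext j
      have e1 : (Finsupp.equivFunOnFinite.symm
        (fun j => (((if h : d j < W then (⟨d j, h⟩ : Fin W) else ⟨0, hW⟩) : Fin W) : ℕ))) j =
        (((if h : d j < W then (⟨d j, h⟩ : Fin W) else ⟨0, hW⟩) : Fin W) : ℕ) := rfl
      rw [e1]
      simp only [StepM_lt R hR d hd j, dif_pos]
    rw [h3]
    have h4 : ∀ j, (((if h : d j < W then (⟨d j, h⟩ : Fin W) else ⟨0, hW⟩) : Fin W) : ℕ) = d j := by
      intro j
      simp only [StepM_lt R hR d hd j, dif_pos]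
    simp only [h4]
    rfl

/-- the arithmetic of the parameters -/
lemma StepM_arith (m c : ℕ) (hm : 2 ≤ m) (hc : 1 ≤ c) (C₁ C₂ C₃ : ℝ) (h1 : 1 ≤ C₁) (h2 : 1 ≤ C₂)
    (h3 : 1 ≤ C₃) (e a' t T : ℕ) (he : e = 4 * c) (ha : 2 * c * ((5 * m + 13) * m) + 1 ≤ a')
    (hT3 : 3 ≤ T) (hT1 : 4 * C₁ ≤ T) (hT2 : C₂ * 3 ^ c ≤ T) (hT4 : 2 * C₃ ≤ T) (ht : 1 ≤ t)
    (htT : t ^ 4 ≤ T) :
    C₂ * (((T ^ (2 * a' + e * ((5 * m + 13) * m)) : ℕ) : ℝ) + (((T ^ e) ^ (5 * m) : ℕ) : ℝ) +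
      (((T ^ e : ℕ) : ℝ)) ^ (5 * m + 12)) ^ c ≤ (T : ℝ) ^ (e * a') ∧
    C₃ * ((((T ^ e) ^ (5 * m) : ℕ) + 1) * (t : ℝ) ^ 3 + (((T ^ e : ℕ) : ℝ)) ^ (5 * m + 12)) ≤
      ((T ^ (2 * a' + e * ((5 * m + 13) * m)) : ℕ) : ℝ) / 2 ∧
    C₁ * (((((T ^ e) ^ (5 * m) + 1 : ℕ)) : ℝ) * (t : ℝ) ^ 11 +
      (((T ^ e : ℕ) : ℝ)) ^ (5 * m + 12)) ^ (m - 1) ≤
      ((T ^ (2 * a' + e * ((5 * m + 13) * m)) : ℕ) : ℝ) / 2 ∧
    -(((T ^ (2 * a' + e * ((5 * m + 13) * m)) : ℕ) : ℝ) / 2) /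
      (C₁ * (((((T ^ e) ^ (5 * m) + 1 : ℕ)) : ℝ) * (t : ℝ) ^ 11 +
      (((T ^ e : ℕ) : ℝ)) ^ (5 * m + 12)) ^ (m - 2)) + t ≤ -((T : ℝ) ^ (2 * a')) := by
  have he1 : 1 ≤ e := by omega
  have hTr : (3 : ℝ) ≤ T := by exact_mod_cast hT3
  have hT0 : (1 : ℝ) ≤ T := by linarith
  have hTpos : (0 : ℝ) < T := by linarith
  have htr : (1 : ℝ) ≤ t := by exact_mod_cast ht
  have htTr : (t : ℝ) ^ 4 ≤ T := by exact_mod_cast htT
  have ha1 : 1 ≤ a' := by omega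
  -- X
  set h : ℝ := (((T ^ e : ℕ) : ℝ)) ^ (5 * m + 12) with hh
  have hh' : h = (T : ℝ) ^ (e * (5 * m + 12)) := by
    rw [hh]
    push_cast
    rw [← pow_mul]
  set D : ℕ := (T ^ e) ^ (5 * m) with hD
  have hD' : (D : ℝ) = (T : ℝ) ^ (e * (5 * m)) := by
    rw [hD]
    push_cast
    rw [← pow_mul]
  have hD1 : (1 : ℝ) ≤ D := by
    rw [hD']
    exact one_le_pow₀ hT0
  have ht11 : (t : ℝ) ^ 11 ≤ (T : ℝ) ^ 3 := by
    calc (t : ℝ) ^ 11 ≤ (t : ℝ) ^ 12 := pow_le_pow_right₀ htr (by norm_num)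
      _ = ((t : ℝ) ^ 4) ^ 3 := by rw [← pow_mul]
      _ ≤ (T : ℝ) ^ 3 := pow_le_pow_left₀ (by positivity) htTr 3
  have ht3 : (t : ℝ) ^ 3 ≤ (t : ℝ) ^ 11 := pow_le_pow_right₀ htr (by norm_num)
  have htT1 : (t : ℝ) ≤ T := by
    calc (t : ℝ) = (t : ℝ) ^ 1 := (pow_one _).symm
      _ ≤ (t : ℝ) ^ 4 := pow_le_pow_right₀ htr (by norm_num)
      _ ≤ T := htTr
  have hX : ((D : ℝ) + 1) * (t : ℝ) ^ 11 + h ≤ (T : ℝ) ^ (e * (5 * m + 13)) := by
    have k1 : ((D : ℝ) + 1) * (t : ℝ) ^ 11 ≤ 2 * (T : ℝ) ^ (e * (5 * m + 12)) := by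
      calc ((D : ℝ) + 1) * (t : ℝ) ^ 11 ≤ (2 * D) * (T : ℝ) ^ 3 := by
            refine mul_le_mul (by linarith) ht11 (by positivity) (by positivity)
        _ = 2 * (T : ℝ) ^ (e * (5 * m) + 3) := by
            rw [hD', pow_add]
            ring
        _ ≤ 2 * (T : ℝ) ^ (e * (5 * m + 12)) := by
            refine mul_le_mul_of_nonneg_left (pow_le_pow_right₀ hT0 ?_) (by norm_num)
            nlinarith
    calc ((D : ℝ) + 1) * (t : ℝ) ^ 11 + h ≤ 3 * (T : ℝ) ^ (e * (5 * m + 12)) := by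
          rw [hh']
          linarith
      _ ≤ T * (T : ℝ) ^ (e * (5 * m + 12)) := by
          refine mul_le_mul_of_nonneg_right hTr (by positivity)
      _ = (T : ℝ) ^ (e * (5 * m + 12) + 1) := by rw [pow_succ]; ring
      _ ≤ (T : ℝ) ^ (e * (5 * m + 13)) := by
          refine pow_le_pow_right₀ hT0 ?_
          nlinarith
  have hX0 : 0 ≤ ((D : ℝ) + 1) * (t : ℝ) ^ 11 + h := by positivity
  have hX1 : 1 ≤ ((D : ℝ) + 1) * (t : ℝ) ^ 11 + h := by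
    have k1 : 1 ≤ (t : ℝ) ^ 11 := one_le_pow₀ htr
    have k2 : 0 ≤ h := by positivity
    nlinarith
  set K : ℝ := ((T ^ (2 * a' + e * ((5 * m + 13) * m)) : ℕ) : ℝ) with hK
  have hK' : K = (T : ℝ) ^ (2 * a' + e * ((5 * m + 13) * m)) := by
    rw [hK]
    push_cast
    rfl
  have hW : (((D + 1 : ℕ)) : ℝ) = (D : ℝ) + 1 := by push_cast; rfl
  rw [hW]
  obtain ⟨k, rfl⟩ : ∃ k, m = k + 2 := ⟨m - 2, by omega⟩
  refine ⟨?_, ?_, ?_, ?_⟩
  · have k1 : K + (D : ℝ) + h ≤ 3 * K := by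
      have k2 : (D : ℝ) ≤ K := by
        rw [hD', hK']
        refine pow_le_pow_right₀ hT0 ?_
        have k6 : 5 * (k + 2) ≤ (5 * (k + 2) + 13) * (k + 2) := by nlinarith
        exact (Nat.mul_le_mul_left e k6).trans (Nat.le_add_left _ _)
      have k3 : h ≤ K := by
        rw [hh', hK']
        refine pow_le_pow_right₀ hT0 ?_
        have k6 : 5 * (k + 2) + 12 ≤ (5 * (k + 2) + 13) * (k + 2) := by nlinarith
        exact (Nat.mul_le_mul_left e k6).trans (Nat.le_add_left _ _)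
      linarith
    calc C₂ * (K + (D : ℝ) + h) ^ c ≤ C₂ * (3 * K) ^ c := by
          refine mul_le_mul_of_nonneg_left (pow_le_pow_left₀ (by positivity) k1 c) (by linarith)
      _ = (C₂ * 3 ^ c) * K ^ c := by rw [mul_pow]; ring
      _ ≤ T * K ^ c := mul_le_mul_of_nonneg_right hT2 (by positivity)
      _ = (T : ℝ) ^ (1 + (2 * a' + e * ((5 * (k + 2) + 13) * (k + 2))) * c) := by
          rw [hK', ← pow_mul, pow_add, pow_one]
      _ ≤ (T : ℝ) ^ (e * a') := by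
          refine pow_le_pow_right₀ hT0 ?_
          rw [he]
          have k5 := Nat.mul_le_mul_left (2 * c) ha
          generalize (5 * (k + 2) + 13) * (k + 2) = E₀ at k5 ⊢
          nlinarith
  · calc C₃ * (((D : ℝ) + 1) * (t : ℝ) ^ 3 + h) ≤
        C₃ * (((D : ℝ) + 1) * (t : ℝ) ^ 11 + h) := by
          refine mul_le_mul_of_nonneg_left ?_ (by linarith)
          have := mul_le_mul_of_nonneg_left ht3 (show (0 : ℝ) ≤ (D : ℝ) + 1 by positivity)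
          linarith
      _ ≤ C₃ * (T : ℝ) ^ (e * (5 * (k + 2) + 13)) := mul_le_mul_of_nonneg_left hX (by linarith)
      _ ≤ (T / 2) * (T : ℝ) ^ (e * (5 * (k + 2) + 13)) :=
          mul_le_mul_of_nonneg_right (by linarith) (by positivity)
      _ = (T : ℝ) ^ (e * (5 * (k + 2) + 13) + 1) / 2 := by rw [pow_succ]; ring
      _ ≤ K / 2 := by
          refine div_le_div_of_nonneg_right ?_ (by norm_num)
          rw [hK']
          refine pow_le_pow_right₀ hT0 ?_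
          have k6 : 5 * (k + 2) + 13 ≤ (5 * (k + 2) + 13) * (k + 2) := by nlinarith
          have k7 := Nat.mul_le_mul_left e k6
          omega
  · have k0 : k + 2 - 1 = k + 1 := by omega
    rw [k0]
    calc C₁ * (((D : ℝ) + 1) * (t : ℝ) ^ 11 + h) ^ (k + 1) ≤
        C₁ * ((T : ℝ) ^ (e * (5 * (k + 2) + 13))) ^ (k + 1) := by
          refine mul_le_mul_of_nonneg_left (pow_le_pow_left₀ hX0 hX _) (by linarith)
      _ ≤ (T / 2) * ((T : ℝ) ^ (e * (5 * (k + 2) + 13))) ^ (k + 1) :=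
          mul_le_mul_of_nonneg_right (by linarith) (by positivity)
      _ = (T : ℝ) ^ (e * (5 * (k + 2) + 13) * (k + 1) + 1) / 2 := by
          rw [pow_succ, ← pow_mul]
          ring
      _ ≤ K / 2 := by
          refine div_le_div_of_nonneg_right ?_ (by norm_num)
          rw [hK']
          refine pow_le_pow_right₀ hT0 ?_
          have k6 : (5 * (k + 2) + 13) * (k + 1) ≤ (5 * (k + 2) + 13) * (k + 2) :=
            Nat.mul_le_mul_left _ (by omega)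
          have k7 := Nat.mul_le_mul_left e k6
          rw [← mul_assoc] at k7
          omega
  · have k0 : k + 2 - 2 = k := by omega
    rw [k0]
    have hden : 0 < C₁ * (((D : ℝ) + 1) * (t : ℝ) ^ 11 + h) ^ k := by positivity
    have k1 : ((T : ℝ) ^ (2 * a') + t) * (C₁ * (((D : ℝ) + 1) * (t : ℝ) ^ 11 + h) ^ k) ≤ K / 2 := by
      have k2 : (T : ℝ) ^ (2 * a') + t ≤ 2 * (T : ℝ) ^ (2 * a') := by
        have k3 : (T : ℝ) ≤ (T : ℝ) ^ (2 * a') := by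
          calc (T : ℝ) = (T : ℝ) ^ 1 := (pow_one _).symm
            _ ≤ (T : ℝ) ^ (2 * a') := pow_le_pow_right₀ hT0 (by omega)
        linarith
      calc ((T : ℝ) ^ (2 * a') + t) * (C₁ * (((D : ℝ) + 1) * (t : ℝ) ^ 11 + h) ^ k) ≤
          (2 * (T : ℝ) ^ (2 * a')) * (C₁ * ((T : ℝ) ^ (e * (5 * (k + 2) + 13))) ^ k) := by
            refine mul_le_mul k2 ?_ hden.le (by positivity)
            exact mul_le_mul_of_nonneg_left (pow_le_pow_left₀ hX0 hX _) (by linarith)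
        _ = (2 * C₁) * ((T : ℝ) ^ (2 * a') * ((T : ℝ) ^ (e * (5 * (k + 2) + 13))) ^ k) := by ring
        _ ≤ (T / 2) * ((T : ℝ) ^ (2 * a') * ((T : ℝ) ^ (e * (5 * (k + 2) + 13))) ^ k) :=
            mul_le_mul_of_nonneg_right (by linarith) (by positivity)
        _ = (T : ℝ) ^ (2 * a' + e * (5 * (k + 2) + 13) * k + 1) / 2 := by
            rw [pow_succ, pow_add, ← pow_mul]
            ring
        _ ≤ K / 2 := by
            refine div_le_div_of_nonneg_right ?_ (by norm_num)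
            rw [hK']
            refine pow_le_pow_right₀ hT0 ?_
            have k6 : (5 * (k + 2) + 13) * k + 1 ≤ (5 * (k + 2) + 13) * (k + 2) := by nlinarith
            have k7 := Nat.mul_le_mul_left e k6
            rw [mul_add, mul_one, ← mul_assoc] at k7
            omega
    rw [neg_div]
    have k4 : (T : ℝ) ^ (2 * a') + t ≤
        K / 2 / (C₁ * (((D : ℝ) + 1) * (t : ℝ) ^ 11 + h) ^ k) := by
      rw [le_div_iff₀ hden]
      exact k1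
    linarith

lemma StepM_d1 (τ u : ℂ) : 0 ≤ d1 τ u ∧ d1 τ u ≤ 1 :=
  ⟨le_min zero_le_one Metric.infDist_nonneg, min_le_left _ _⟩

/-- the inner scale -/
lemma StepM_scale (N : ℕ) : ∃ T₀ : ℕ, ∀ T : ℕ, T₀ ≤ T → ∃ t : ℕ, N ≤ t ∧ 1 ≤ t ∧ t ^ 4 ≤ T ∧
    T ≤ t ^ 5 ∧ t ^ 3 ≤ T := by
  refine ⟨(N + 16) ^ 4, fun T hT => ?_⟩
  have hex : ∃ t : ℕ, T < (t + 1) ^ 4 := ⟨T, by
    calc T < T + 1 := Nat.lt_succ_self _
      _ ≤ (T + 1) ^ 4 := Nat.le_self_pow (by norm_num) _⟩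
  classical
  set t := Nat.find hex with ht
  have h1 : T < (t + 1) ^ 4 := Nat.find_spec hex
  have h2 : N + 16 ≤ t := by
    by_contra h
    push Not at h
    have h3 : (t + 1) ^ 4 ≤ (N + 16) ^ 4 := Nat.pow_le_pow_left (by omega) 4
    omega
  have h4 : t ^ 4 ≤ T := by
    have h5 := Nat.find_min hex (m := t - 1) (by omega)
    push Not at h5
    have h6 : t - 1 + 1 = t := by omega
    rwa [h6] at h5
  refine ⟨t, by omega, by omega, h4, ?_, ?_⟩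
  · have h7 : (t + 1) ^ 4 ≤ (2 * t) ^ 4 := Nat.pow_le_pow_left (by omega) 4
    have h8 : (2 * t) ^ 4 = 16 * t ^ 4 := by ring
    have h9 : 16 * t ^ 4 ≤ t * t ^ 4 := Nat.mul_le_mul_right _ (by omega)
    have h10 : t * t ^ 4 = t ^ 5 := by ring
    omega
  · exact (Nat.pow_le_pow_right (by omega) (by norm_num)).trans h4

theorem StepM_pf (h1 : S_CritE) (h2 : S_NZ) (h3 : S_CoefE) (h4 : S_RelPt) (h5 : S_SchwE) :
    S_StepM := by
  intro Q m hm
  obtain ⟨c₀, hc₀⟩ := h3 Q m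
  set c : ℕ := c₀ + 1 with hc
  set e : ℕ := 4 * c with he
  set E₀ : ℕ := (5 * m + 13) * m with hE₀
  obtain ⟨n₀, hn₀⟩ := h2 Q m (5 * (e * (5 * m))) (by omega)
  refine ⟨e, 2 * c * E₀ + 1, max n₀ 2, by omega, by omega, ?_⟩
  intro τ μ b hN hFT hK n hn x hx hNT hTr
  have hn2 : 2 ≤ n := le_trans (le_max_right _ _) hn
  have hb0 : ∀ j, b j ≠ 0 := by
    intro j hj
    have h6 := hNT (Pi.single ⟨0, by omega⟩ 1) (by
      intro h
      have := congrFun h ⟨0, by omega⟩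
      simp at this) j
    apply h6
    rw [hj, zero_mul]
    exact ⟨(0, 0), by simp [lp]⟩
  obtain ⟨C₁, T₁, hC₁, hcrit⟩ := h1 m n 1 hm hn2 le_rfl τ μ b x hN hNT hTr
  obtain ⟨T₂, hNZ⟩ := hn₀ τ hN.im b hFT hK n (le_trans (le_max_left _ _) hn) x
  obtain ⟨C₂, hC₂, hcoef⟩ := hc₀ τ μ b hN hFT hb0
  obtain ⟨S₀, hrel⟩ := h4 m n hm hn2 τ μ b x hN hNT hTr
  set R₀ : ℝ := 1 + ∑ i, ‖x i‖ with hR₀
  have hR₀1 : 1 ≤ R₀ := by
    have : 0 ≤ ∑ i, ‖x i‖ := Finset.sum_nonneg fun i _ => norm_nonneg _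
    linarith
  obtain ⟨C₃, hC₃, hschw⟩ := h5 m τ μ b R₀ hN.im hN.mu hb0 hR₀1
  obtain ⟨T₃, hscale⟩ := StepM_scale (max T₁ T₂)
  refine ⟨T₃ + S₀ + 3 + ⌈4 * C₁⌉₊ + ⌈C₂ * 3 ^ c⌉₊ + ⌈2 * C₃⌉₊, ?_⟩
  intro T hT a' ha' hviol
  obtain ⟨s, hs0, hsT, hsmall⟩ := hviol
  obtain ⟨t, htN, ht1, ht4, ht5, ht3⟩ := hscale T (by omega)
  have hTreal : ((T₃ + S₀ + 3 + ⌈4 * C₁⌉₊ + ⌈C₂ * 3 ^ c⌉₊ + ⌈2 * C₃⌉₊ : ℕ) : ℝ) ≤ T := by
    exact_mod_cast hT
  push_cast at hTreal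
  have hp1 : (0 : ℝ) ≤ T₃ := Nat.cast_nonneg _
  have hp2 : (0 : ℝ) ≤ S₀ := Nat.cast_nonneg _
  have hp3 : (0 : ℝ) ≤ (⌈4 * C₁⌉₊ : ℝ) := Nat.cast_nonneg _
  have hp4 : (0 : ℝ) ≤ (⌈C₂ * 3 ^ c⌉₊ : ℝ) := Nat.cast_nonneg _
  have hp5 : (0 : ℝ) ≤ (⌈2 * C₃⌉₊ : ℝ) := Nat.cast_nonneg _
  have hq1 : 4 * C₁ ≤ T := (Nat.le_ceil _).trans (by linarith)
  have hq2 : C₂ * 3 ^ c ≤ T := (Nat.le_ceil _).trans (by linarith)
  have hq3 : 2 * C₃ ≤ T := (Nat.le_ceil _).trans (by linarith)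
  obtain ⟨A1, A2, A3, A4⟩ := StepM_arith m c hm (by omega) C₁ C₂ C₃ hC₁ hC₂ hC₃ e a' t T he ha'
    (by omega) hq1 hq2 hq3 ht1 ht4
  rw [← hE₀] at A1 A2 A3 A4
  have hTr1 : (1 : ℝ) ≤ T := by
    have : (3 : ℝ) ≤ T := by linarith
    linarith
  set S : ℕ := T ^ e with hS
  set D : ℕ := S ^ (5 * m) with hD
  set K : ℕ := T ^ (2 * a' + e * E₀) with hKdef
  set h : ℝ := ((S : ℕ) : ℝ) ^ (5 * m + 12) with hh
  have hST : T ≤ S := by
    rw [hS]
    exact Nat.le_self_pow (by omega) T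
  have hSr : (1 : ℝ) ≤ S := by
    have : (T : ℝ) ≤ S := by exact_mod_cast hST
    linarith
  have hh1 : 1 ≤ h := one_le_pow₀ hSr
  -- the relation
  obtain ⟨R, hR0, hRd, hRc, hRz⟩ := hrel S (by omega) s hs0 hsT
  have hz0 : cmb s x ≠ 0 := by
    intro h0
    apply hs0
    have h6 := Fintype.linearIndependent_iff.1 hx (fun i => (s i : ℚ)) (by
      rw [← h0]
      unfold cmb
      refine Finset.sum_congr rfl fun i _ => ?_
      rw [Rat.smul_def]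
      push_cast
      rfl)
    funext i
    have := h6 i
    exact_mod_cast this
  -- order of vanishing
  have hcf := hcoef D K h ((T : ℝ) ^ (e * a')) R (cmb s x) hh1 hRd hRc (by
    refine le_trans ?_ A1
    refine mul_le_mul_of_nonneg_left ?_ (by linarith)
    have k1 : (1 : ℝ) ≤ (K : ℝ) + D + h := by
      have : (0 : ℝ) ≤ K := Nat.cast_nonneg _
      have : (0 : ℝ) ≤ D := Nat.cast_nonneg _
      linarith
    exact pow_le_pow_right₀ k1 (by omega)) hz0 hsmall hRz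
  -- smallness
  have hsch := hschw D K t h R hh1 ht1 hRd hRc hcf
  have hcmb : ∀ s' : Fin n → ℤ, (∀ i, 0 ≤ s' i ∧ s' i ≤ (t : ℤ)) → ‖cmb s' x‖ ≤ R₀ * t := by
    intro s' hs'
    unfold cmb
    calc ‖∑ i, (s' i : ℂ) * x i‖ ≤ ∑ i, ‖(s' i : ℂ) * x i‖ := norm_sum_le _ _
      _ ≤ ∑ i, (t : ℝ) * ‖x i‖ := by
          refine Finset.sum_le_sum fun i _ => ?_
          rw [norm_mul]
          refine mul_le_mul_of_nonneg_right ?_ (norm_nonneg _)
          rw [Complex.norm_intCast, abs_of_nonneg (by exact_mod_cast (hs' i).1)]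
          exact_mod_cast (hs' i).2
      _ = (∑ i, ‖x i‖) * t := by rw [← Finset.mul_sum, mul_comm]
      _ ≤ R₀ * t := by
          refine mul_le_mul_of_nonneg_right ?_ (Nat.cast_nonneg _)
          rw [hR₀]
          linarith
  have hW : ∀ j, R.degreeOf j < D + 1 := fun j => Nat.lt_succ_of_le (hRd j)
  have hp0 : (StepM_p (W := D + 1) R : (Fin 1 → Fin m → Fin (D + 1)) → ℤ) ≠ 0 := by
    intro h0
    obtain ⟨d, hd⟩ := MvPolynomial.ne_zero_iff.1 hR0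
    have hdS : d ∈ R.support := MvPolynomial.mem_support_iff.2 hd
    have h6 := congrFun h0 (fun _ j => ⟨d j, StepM_lt R hW d hdS j⟩)
    apply hd
    have h7 : Finsupp.equivFunOnFinite.symm (fun j => d j) = d := by
      ext j
      rfl
    have h8 : StepM_p (W := D + 1) R (fun _ j => ⟨d j, StepM_lt R hW d hdS j⟩) = R.coeff d := by
      unfold StepM_p
      simp only
      rw [h7]
    rw [← h8, h6]
    rfl
  obtain ⟨u, F, hu, hF0, hFd, hFz⟩ := hcrit t (by omega) (D + 1) h ((K : ℝ) / 2) (by omega) hh1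
    A3 (StepM_p R) hp0 (fun ξ => hRc _) (by
      intro s' hs'
      rw [StepM_AF τ μ b R (by omega) hW]
      have k1 := hsch (cmb (s' 0) x) (hcmb _ (hs' 0).2) (fun j => hNT _ (hs' 0).1 j)
      have k2 : ∏ r : Fin 1, ∏ j, d1 τ (b j * cmb (s' r) x) ^ (2 * (D + 1)) ≤
          ∏ j, d1 τ (b j * cmb (s' 0) x) ^ (2 * D) := by
        rw [Fin.prod_univ_one]
        refine Finset.prod_le_prod (fun j _ => pow_nonneg (StepM_d1 _ _).1 _) fun j _ => ?_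
        exact pow_le_pow_of_le_one (StepM_d1 _ _).1 (StepM_d1 _ _).2 (by omega)
      refine (mul_le_mul_of_nonneg_left k2 (norm_nonneg _)).trans (k1.trans ?_)
      refine Real.exp_le_exp.2 ?_
      linarith)
  -- conclusion
  have hεexp : -((K : ℝ) / 2) / (C₁ * (((D + 1 : ℕ) : ℝ) * (t : ℝ) ^ 11 + h) ^ (m - 2)) ≤ 0 := by
    refine div_nonpos_of_nonpos_of_nonneg ?_ ?_
    · have : (0 : ℝ) ≤ K := Nat.cast_nonneg _
      linarith
    · positivity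
  obtain ⟨s', hs'0, hs'T, hs's⟩ := hNZ t (by omega)
    (Real.exp (-((K : ℝ) / 2) / (C₁ * (((D + 1 : ℕ) : ℝ) * (t : ℝ) ^ 11 + h) ^ (m - 2)))) u F
    (Real.exp_nonneg _) (Real.exp_le_one_iff.2 hεexp) hu hF0 (by
      intro j
      have k1 : F.degreeOf j ≤ D := Nat.lt_succ_iff.1 (hFd j)
      refine k1.trans ?_
      rw [hD, hS, ← pow_mul]
      calc T ^ (e * (5 * m)) ≤ (t ^ 5) ^ (e * (5 * m)) := Nat.pow_le_pow_left ht5 _
        _ = t ^ (5 * (e * (5 * m))) := by rw [← pow_mul]) hFz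
  refine ⟨s', hs'0, fun i => (hs'T i).trans (by exact_mod_cast ht3), hs's.trans ?_⟩
  rw [← Real.exp_add]
  exact Real.exp_le_exp.2 A4

end Pool.Agent.Work.MP_8da9ea_nt.EB
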